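import Pool.Agent.Lib.MP_410da7_ag.RegCase

/-!
# A nonzero logarithmic pluricanonical form
-/

set_option autoImplicit false

namespace Pool.Agent.Lib.MP_410da7_ag

open MvPolynomial WithZero KaehlerDifferential

section

variable {N r s n : ℕ} {K : Type} [Field K] [Algebra ℂ K]

theorem zpow_anti {t : ℤᵐ⁰} (ht0 : t ≠ 0) (ht1 : t < 1) {a b : ℤ} (h : a ≤ b) :
    t ^ b ≤ t ^ a := by
  obtain ⟨c, rfl⟩ : ∃ c, b = a + c := ⟨b - a, by ring⟩
  have hc : 0 ≤ c := by linarith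
  lift c to ℕ using hc
  rw [zpow_add₀ ht0, zpow_natCast]
  exact mul_le_of_le_one_right' (pow_le_one' ht1.le c)

theorem cmain_abs (x : Fin N → K) (hx : ∀ l, x l ≠ 0)
    (f : Fin r → MvPolynomial (Fin N) ℂ) (g : Fin s → MvPolynomial (Fin N) ℂ)
    (hf0 : ∀ k, f k ≠ 0) (hg0 : ∀ j, g j ≠ 0) (hnd : Nondegenerate f g)
    (hsm : ∀ u : Fin N → ℂ, (∀ k, eval u (f k) = 0) → (∀ j, eval u (g j) ≠ 0) →
      LinearIndependent ℂ (fun (k : Fin r) (l : Fin N) => eval u (pderiv l (f k))))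
    (H1 : ∀ a : K, ∃ P Q : MvPolynomial (Fin N) ℂ, aeval x Q ≠ 0 ∧ a * aeval x Q = aeval x P)
    (H2 : ∀ P : MvPolynomial (Fin N) ℂ, aeval x P = 0 →
      ∃ n : ℕ, (∏ j, g j) ^ n * P ∈ Ideal.span (Set.range f))
    (H3 : ∀ k, aeval x (f k) = 0) (H3g : ∀ j, aeval x (g j) ≠ 0)
    (u : Fin n → K) (hu : IsTranscendenceBasis ℂ u)
    (m : ℕ) (cf : Fin r → (Fin N →₀ ℕ) → ℕ) (cg : Fin s → (Fin N →₀ ℕ) → ℕ)
    (hcf : ∀ k, ∑ e ∈ (f k).support, cf k e = m) (hcg : ∀ j, ∑ e ∈ (g j).support, cg j e = m)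
    (hge : ∀ l, m ≤ ∑ k, ∑ e ∈ (f k).support, cf k e * e l +
      ∑ j, ∑ e ∈ (g j).support, cg j e * e l) :
    ∃ (F : K) (η : ⋀[K]^n Ω[K⁄ℂ]), F ≠ 0 ∧ η ≠ 0 ∧
      ∀ v : Valuation K ℤᵐ⁰, (∀ c : ℂ, c ≠ 0 → v (algebraMap ℂ K c) = 1) →
        ∃ (θ : Fin n → Ω[K⁄ℂ]) (c G : K), (∀ i, θ i ∈ logDiff v) ∧
          ((∀ l, v (x l) ≤ 1) → (∀ j, v (aeval x (g j)) = 1) → ∀ i, θ i ∈ regDiff v) ∧
          exteriorPower.ιMulti K n θ = c • η ∧ v G ≤ 1 ∧ F = G * c ^ m := by
  classical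
  have H3' : aeval x (∏ j, g j) ≠ 0 := by
    rw [map_prod]; exact Finset.prod_ne_zero_iff.2 fun j _ => H3g j
  have H4 : LinearIndependent K (fun k => grad x (f k)) := by
    have := linInd_transfer (Set.range f) (∏ j, g j) (fun k l => pderiv l (f k)) (by
      intro y hy hyB
      rw [map_prod] at hyB
      exact hsm y (fun k => hy _ ⟨k, rfl⟩)
        (fun j => (Finset.prod_ne_zero_iff.1 hyB) j (Finset.mem_univ j))) x (by
      rintro P ⟨k, rfl⟩
      exact H3 k) H3'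
    exact this
  have hdim := dim_count x f (∏ j, g j) u hu H1 H2 H3 H3' H4
  let σ : Fin r ⊕ Fin n ≃ Fin N := Fintype.equivOfCardEq (by simp [hdim])
  obtain ⟨η, hη0, hη⟩ := exists_eta x f u hu H1 H3 H4 σ
  let a : Fin N → ℕ := fun l => ∑ k, ∑ e ∈ (f k).support, cf k e * e l +
      ∑ j, ∑ e ∈ (g j).support, cg j e * e l - m
  have ha : ∀ l, a l + m = ∑ k, ∑ e ∈ (f k).support, cf k e * e l +
      ∑ j, ∑ e ∈ (g j).support, cg j e * e l := fun l => Nat.sub_add_cancel (hge l)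
  have hF0 : (∏ l, x l ^ a l) / (∏ j, aeval x (g j)) ^ m ≠ 0 := by
    refine div_ne_zero (Finset.prod_ne_zero_iff.2 fun l _ => pow_ne_zero _ (hx l))
      (pow_ne_zero _ (Finset.prod_ne_zero_iff.2 fun j _ => H3g j))
  refine ⟨(∏ l, x l ^ a l) / (∏ j, aeval x (g j)) ^ m, η, hF0, hη0, fun v hv => ?_⟩
  by_cases hreg : (∀ l, v (x l) ≤ 1) ∧ (∀ j, v (aeval x (g j)) = 1)
  · obtain ⟨ξ, hξ, hdet⟩ := reg_case v hv x f g hsm hreg.1 hreg.2 H3 σ
    set d := Matrix.det (Matrix.of fun i j => Sum.elim (fun k => grad x (f k)) ξ i (σ j)) with hd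
    have hd0 : d ≠ 0 := by
      intro h; rw [h, map_zero] at hdet; exact zero_ne_one hdet
    refine ⟨fun i => dmap x (ξ i), d, (∏ l, x l ^ a l) / (∏ j, aeval x (g j)) ^ m / d ^ m,
      fun i => regDiff_le_logDiff v (hξ i), fun _ _ => hξ, hη ξ, ?_, ?_⟩
    · rw [map_div₀, map_div₀, map_pow, map_pow, hdet, map_prod, map_prod]
      simp only [hreg.2, Finset.prod_const_one, one_pow, div_one, map_pow]
      exact Finset.prod_le_one' fun l _ => pow_le_one' (hreg.1 l) _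
    · field_simp
  · have hnt : ∃ a : K, a ≠ 0 ∧ v a ≠ 1 := by
      by_contra! hcon
      exact hreg ⟨fun l => (hcon _ (hx l)).le, fun j => hcon _ (H3g j)⟩
    obtain ⟨ξ, t, w, μ, ν, ht0, ht1, hw, hμ, hν, hξ, hdet⟩ :=
      log_case v hv hnt x hx f g hf0 hg0 hnd H3 H3g σ
    set d := Matrix.det (Matrix.of fun i j => Sum.elim (fun k => grad x (f k)) ξ i (σ j)) with hd
    have hd0 : d ≠ 0 := by
      intro h
      rw [h, map_zero, zero_mul, zero_mul] at hdet
      exact zpow_ne_zero _ ht0 hdet.symm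
    refine ⟨fun i => dmap x (ξ i), d, (∏ l, x l ^ a l) / (∏ j, aeval x (g j)) ^ m / d ^ m,
      hξ, fun h1 h2 => absurd ⟨h1, h2⟩ hreg, hη ξ, ?_, by field_simp⟩
    have hX0 : (∏ l, v (x l)) ≠ 0 := Finset.prod_ne_zero_iff.2 fun l _ => by
      rw [Valuation.ne_zero_iff]; exact hx l
    have hG0 : (∏ j, v (aeval x (g j))) ≠ 0 := Finset.prod_ne_zero_iff.2 fun j _ => by
      rw [Valuation.ne_zero_iff]; exact H3g j
    have hvd0 : v d ≠ 0 := by rwa [Valuation.ne_zero_iff]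
    rw [map_div₀, map_div₀, map_pow, map_pow, map_prod, map_prod]
    simp only [map_pow]
    rw [div_div, div_le_iff₀ (by
      refine zero_lt_iff.2 (mul_ne_zero (pow_ne_zero _ hG0) (pow_ne_zero _ hvd0))), one_mul]
    -- multiply by `(∏ v (x l)) ^ m`
    have key : (∏ l, v (x l) ^ a l) * (∏ l, v (x l)) ^ m ≤
        (∏ j, v (aeval x (g j))) ^ m * v d ^ m * (∏ l, v (x l)) ^ m := by
      have h1 : (∏ j, v (aeval x (g j))) ^ m * v d ^ m * (∏ l, v (x l)) ^ m =
          t ^ ((m : ℤ) * (∑ k, μ k + ∑ j, ν j)) := by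
        rw [mul_comm (m : ℤ), zpow_mul, ← hdet, zpow_natCast, mul_pow, mul_pow]
        ac_rfl
      have h2 : (∏ l, v (x l) ^ a l) * (∏ l, v (x l)) ^ m =
          t ^ (∑ l, w l * ((a l + m : ℕ) : ℤ)) := by
        rw [zpow_sum_eq ht0, ← Finset.prod_pow, ← Finset.prod_mul_distrib]
        refine Finset.prod_congr rfl fun l _ => ?_
        rw [← pow_add, hw, zpow_mul, zpow_natCast]
      rw [h1, h2]
      refine zpow_anti ht0 ht1 ?_
      have h3 : ∑ l, w l * ((a l + m : ℕ) : ℤ) =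
          ∑ k, ∑ e ∈ (f k).support, (cf k e : ℤ) * (∑ l, (e l : ℤ) * w l) +
          ∑ j, ∑ e ∈ (g j).support, (cg j e : ℤ) * (∑ l, (e l : ℤ) * w l) := by
        simp only [ha]
        push_cast
        simp only [mul_add, Finset.sum_add_distrib, Finset.mul_sum]
        congr 1
        · rw [Finset.sum_comm]
          refine Finset.sum_congr rfl fun k _ => ?_
          rw [Finset.sum_comm]
          refine Finset.sum_congr rfl fun e _ => Finset.sum_congr rfl fun l _ => by ring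
        · rw [Finset.sum_comm]
          refine Finset.sum_congr rfl fun k _ => ?_
          rw [Finset.sum_comm]
          refine Finset.sum_congr rfl fun e _ => Finset.sum_congr rfl fun l _ => by ring
      rw [h3, mul_add, Finset.mul_sum, Finset.mul_sum]
      refine add_le_add (Finset.sum_le_sum fun k _ => ?_) (Finset.sum_le_sum fun j _ => ?_)
      · rw [← hcf k]
        push_cast
        rw [Finset.sum_mul]
        exact Finset.sum_le_sum fun e he => mul_le_mul_of_nonneg_left (hμ k e he) (by positivity)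
      · rw [← hcg j]
        push_cast
        rw [Finset.sum_mul]
        exact Finset.sum_le_sum fun e he => mul_le_mul_of_nonneg_left (hν j e he) (by positivity)
    exact le_of_mul_le_mul_right key (zero_lt_iff.2 (pow_ne_zero _ hX0))

end

end Pool.Agent.Lib.MP_410da7_ag
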