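import Mathlib

/-!
# Arcs at a divisorial valuation

`exists_arc`: let `v` be a discrete valuation of `K` with uniformizer `ξ i0` and units `ξ i`
(`i ≠ i0`) whose residues are algebraically independent, `ξ` being a transcendence basis of `K`.
Then `K` embeds into the Laurent series over any algebraically closed field `Ω`, with prescribed
images `T i` of the `ξ i`.
-/

set_option autoImplicit false

namespace Pool.Agent.Lib.MP_410da7_ag

section lift

open Polynomial

/-- Lifting a homomorphism of residue rings from a ring with formally smooth residue field to a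
complete ring. -/
theorem cyArc_exists_lift {k : Type} [Field k] {O : Type} [CommRing O] [Algebra k O] (π : O)
    (hmax : (Ideal.span {π}).IsMaximal) [Algebra.FormallySmooth k (O ⧸ Ideal.span {π})]
    (hπ : ∀ m n : ℕ, π ^ n ∣ π ^ m → n ≤ m)
    {S : Type} [CommRing S] [Algebra k S] (I : Ideal S) [IsAdicComplete I S] (τ : S) (hτ : τ ∈ I)
    (ψ : (O ⧸ Ideal.span {π}) →ₐ[k] S ⧸ I) :
    ∃ φ : O →ₐ[k] S, φ π = τ := by
  classical
  set J : Ideal O := Ideal.span {π} with hJ
  obtain ⟨g, hg⟩ := Algebra.FormallySmooth.exists_adicCompletionEvalOneₐ_comp_eq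
    (AlgHom.id k (O ⧸ J))
  obtain ⟨s, hs⟩ := Algebra.FormallySmooth.exists_mkₐ_comp_eq_of_isAdicComplete ψ
  have hev : ∀ {m n : ℕ} (hmn : m ≤ n) (x : AdicCompletion J O),
      Ideal.Quotient.factor (Ideal.pow_le_pow_right hmn) (AdicCompletion.evalₐ J n x) =
        AdicCompletion.evalₐ J m x := by
    intro m n hmn x
    obtain ⟨y, rfl⟩ := AdicCompletion.mk_surjective J O x
    rw [AdicCompletion.evalₐ_mk, AdicCompletion.evalₐ_mk, Ideal.Quotient.factor_mk]
    exact (AdicCompletion.Ideal.mk_eq_mk J hmn y)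
  let gn : ∀ n : ℕ, (O ⧸ J) →ₐ[k] O ⧸ J ^ n := fun n =>
    ((AdicCompletion.evalₐ J n).restrictScalars k).comp g
  have hgn : ∀ (n : ℕ) (c : O ⧸ J) (b : O), gn (n + 1) c = Ideal.Quotient.mk _ b →
      c = Ideal.Quotient.mk J b := by
    intro n c b h
    have h1 : AdicCompletion.evalOneₐ J (g c) = c := congr($hg c)
    have h2 := hev (show 1 ≤ n + 1 by omega) (g c)
    have h3 : AdicCompletion.evalₐ J (n + 1) (g c) = Ideal.Quotient.mk _ b := h
    rw [h3, Ideal.Quotient.factor_mk] at h2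
    rw [← h1, ← AdicCompletion.factorₐ_evalₐ_one, ← h2, Ideal.Quotient.factor_mk]
  have hgt : ∀ {m n : ℕ} (hmn : m ≤ n) (c : O ⧸ J),
      Ideal.Quotient.factor (Ideal.pow_le_pow_right hmn) (gn n c) = gn m c := by
    intro m n hmn c
    exact hev hmn (g c)
  let Ψ : ∀ n : ℕ, (O ⧸ J)[X] →ₐ[k] O ⧸ J ^ n := fun n =>
    Polynomial.eval₂AlgHom (gn n) (Ideal.Quotient.mk _ π) (fun a => Commute.all _ _)
  let Θ : ∀ n : ℕ, (O ⧸ J)[X] →ₐ[k] S ⧸ I ^ n := fun n =>
    Polynomial.eval₂AlgHom ((Ideal.Quotient.mkₐ k (I ^ n)).comp s) (Ideal.Quotient.mk _ τ)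
      (fun a => Commute.all _ _)
  have hΨX : ∀ n, Ψ n X = Ideal.Quotient.mk _ π := by
    intro n
    exact Polynomial.eval₂_X _ _
  have hΨC : ∀ n c, Ψ n (C c) = gn n c := by
    intro n c
    exact Polynomial.eval₂_C _ _
  have hΘX : ∀ n, Θ n X = Ideal.Quotient.mk _ τ := by
    intro n
    exact Polynomial.eval₂_X _ _
  have hΘC : ∀ n c, Θ n (C c) = Ideal.Quotient.mk _ (s c) := by
    intro n c
    exact Polynomial.eval₂_C _ _
  have hsurj : ∀ n, Function.Surjective (Ψ n) := by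
    intro n
    rcases n with _ | n
    · intro y
      haveI : Subsingleton (O ⧸ J ^ 0) := by
        rw [pow_zero]; exact Ideal.Quotient.subsingleton_iff.mpr Ideal.one_eq_top
      exact ⟨0, Subsingleton.elim _ _⟩
    have key : ∀ (j : ℕ) (a : O), ∃ (p : (O ⧸ J)[X]) (b : O),
        Ψ (n + 1) p + Ideal.Quotient.mk _ (π ^ j * b) = Ideal.Quotient.mk _ a := by
      intro j
      induction j with
      | zero => exact fun a => ⟨0, a, by simp⟩
      | succ j ih =>
        intro a
        obtain ⟨p, b, hp⟩ := ih a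
        obtain ⟨b', hb'⟩ := Ideal.Quotient.mk_surjective (gn (n + 1) (Ideal.Quotient.mk J b))
        have h1 := hgn n _ b' hb'.symm
        rw [Ideal.Quotient.eq, hJ, Ideal.mem_span_singleton'] at h1
        obtain ⟨c, hc⟩ := h1
        refine ⟨p + C (Ideal.Quotient.mk J b) * X ^ j, c, ?_⟩
        rw [map_add, map_mul, map_pow, hΨX, hΨC, ← hb', ← hp, add_assoc]
        congr 1
        rw [← map_pow, ← map_mul, ← map_add]
        congr 1
        have : b = c * π + b' := by rw [hc]; ring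
        rw [this]
        ring
    intro y
    obtain ⟨a, rfl⟩ := Ideal.Quotient.mk_surjective y
    obtain ⟨p, b, hp⟩ := key (n + 1) a
    refine ⟨p, ?_⟩
    rw [← hp, left_eq_add, Ideal.Quotient.eq_zero_iff_mem, hJ, Ideal.span_singleton_pow,
      Ideal.mem_span_singleton]
    exact dvd_mul_right _ _
  have hfield : ∀ c : O ⧸ J, c ≠ 0 → ∃ c', c * c' = 1 := by
    intro c hc
    letI := Ideal.Quotient.field J
    exact ⟨c⁻¹, mul_inv_cancel₀ hc⟩
  have hcoeff : ∀ (n : ℕ) (p : (O ⧸ J)[X]), Ψ n p = 0 → ∀ i < n, p.coeff i = 0 := by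
    intro n p hp i
    induction i using Nat.strong_induction_on with
    | _ i ih =>
      intro hi
      by_contra hne
      have hdvd : X ^ i ∣ p := Polynomial.X_pow_dvd_iff.mpr fun j hj => ih j hj (hj.trans hi)
      obtain ⟨q, rfl⟩ := hdvd
      have hc : q.coeff 0 ≠ 0 := by
        simpa [Polynomial.coeff_X_pow_mul'] using hne
      obtain ⟨c', hc'⟩ := hfield _ hc
      have hq : q = X * q.divX + C (q.coeff 0) := (Polynomial.X_mul_divX_add q).symm
      obtain ⟨r, hr⟩ := Ideal.Quotient.mk_surjective (gn n c' * Ψ n q.divX)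
      have h1 : gn n c' * Ψ n (X ^ i * q) = Ideal.Quotient.mk _ (π ^ i * (1 + π * r)) := by
        conv_lhs => rw [hq]
        rw [map_mul, map_pow, map_add, map_mul, hΨX, hΨC]
        have h2 : gn n c' * gn n (q.coeff 0) = 1 := by
          rw [← map_mul, mul_comm c', hc', map_one]
        rw [map_mul, map_add, map_mul, map_one, hr, map_pow]
        linear_combination (Ideal.Quotient.mk (J ^ n) π) ^ i * h2
      rw [hp, mul_zero] at h1
      have h3 := h1.symm
      rw [Ideal.Quotient.eq_zero_iff_mem, hJ, Ideal.span_singleton_pow,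
        Ideal.mem_span_singleton] at h3
      have hcop : IsCoprime (π ^ n) (1 + π * r) :=
        IsCoprime.pow_left ⟨-r, 1, by ring⟩
      have h4 := hπ i n (hcop.dvd_of_dvd_mul_right h3)
      omega
  have hker : ∀ (n : ℕ) (p : (O ⧸ J)[X]), p ∈ RingHom.ker (Ψ n) → Θ n p = 0 := by
    intro n p hp
    obtain ⟨q, rfl⟩ := Polynomial.X_pow_dvd_iff.mpr (hcoeff n p hp)
    rw [map_mul, map_pow, hΘX, ← map_pow, Ideal.Quotient.eq_zero_iff_mem.mpr
      (Ideal.pow_mem_pow hτ n), zero_mul]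
  let φn : ∀ n : ℕ, O →ₐ[k] S ⧸ I ^ n := fun n =>
    ((Ideal.Quotient.liftₐ (RingHom.ker (Ψ n)) (Θ n) (hker n)).comp
      (Ideal.quotientKerAlgEquivOfSurjective (hsurj n)).symm.toAlgHom).comp
      (Ideal.Quotient.mkₐ k (J ^ n))
  have hφn : ∀ (n : ℕ) (p : (O ⧸ J)[X]) (a : O), Ψ n p = Ideal.Quotient.mk _ a →
      φn n a = Θ n p := by
    intro n p a h
    have h1 : (Ideal.quotientKerAlgEquivOfSurjective (hsurj n)).symm (Ideal.Quotient.mk _ a) =
        Ideal.Quotient.mk _ p := by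
      rw [AlgEquiv.symm_apply_eq, ← h]
      rfl
    change (Ideal.Quotient.liftₐ (RingHom.ker (Ψ n)) (Θ n) (hker n))
      ((Ideal.quotientKerAlgEquivOfSurjective (hsurj n)).symm (Ideal.Quotient.mk _ a)) = _
    rw [h1]
    rfl
  have hcompΨ : ∀ {m n : ℕ} (hmn : m ≤ n) (p : (O ⧸ J)[X]),
      Ideal.Quotient.factor (Ideal.pow_le_pow_right hmn) (Ψ n p) = Ψ m p := by
    intro m n hmn p
    induction p using Polynomial.induction_on' with
    | add p q hp hq => rw [map_add, map_add, hp, hq, map_add]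
    | monomial j c =>
      rw [← Polynomial.C_mul_X_pow_eq_monomial]
      simp only [map_mul, map_pow, hΨX, hΨC]
      rw [hgt hmn, Ideal.Quotient.factor_mk]
  have hcompΘ : ∀ {m n : ℕ} (hmn : m ≤ n) (p : (O ⧸ J)[X]),
      Ideal.Quotient.factor (Ideal.pow_le_pow_right hmn) (Θ n p) = Θ m p := by
    intro m n hmn p
    induction p using Polynomial.induction_on' with
    | add p q hp hq => rw [map_add, map_add, hp, hq, map_add]
    | monomial j c =>
      rw [← Polynomial.C_mul_X_pow_eq_monomial]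
      simp only [map_mul, map_pow, hΘX, hΘC]
      rw [Ideal.Quotient.factor_mk, Ideal.Quotient.factor_mk]
  have hcomp : ∀ {m n : ℕ} (hmn : m ≤ n),
      (Ideal.Quotient.factorₐ k (Ideal.pow_le_pow_right hmn)).comp (φn n) = φn m := by
    intro m n hmn
    ext a
    obtain ⟨p, hp⟩ := hsurj n (Ideal.Quotient.mk _ a)
    have hp' : Ψ m p = Ideal.Quotient.mk _ a := by
      rw [← hcompΨ hmn, hp, Ideal.Quotient.factor_mk]
    change Ideal.Quotient.factor (Ideal.pow_le_pow_right hmn) (φn n a) = φn m a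
    rw [hφn n p a hp, hφn m p a hp', hcompΘ hmn]
  refine ⟨IsAdicComplete.liftAlgHom I φn hcomp, ?_⟩
  refine (IsHausdorff.eq_iff_smodEq (I := I)).mpr fun n => ?_
  have h1 : Ideal.Quotient.mk (I ^ n) (IsAdicComplete.liftAlgHom I φn hcomp π) =
      Ideal.Quotient.mk (I ^ n) τ := by
    have h2 := IsAdicComplete.mk_liftAlgHom I φn hcomp n π
    rw [h2, hφn n X π (hΨX n), hΘX]
  rw [SModEq.sub_mem, smul_eq_mul, Ideal.mul_top]
  exact Ideal.Quotient.eq.mp h1

end lift

open MvPolynomial WithZero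

/-- The residue class of every element of the valuation ring is algebraic. -/
theorem cyArc_relation {K : Type} [Field K] [Algebra ℂ K] {ι : Type} (i0 : ι) (ξ : ι → K)
    (hξ : IsTranscendenceBasis ℂ ξ) {O : Type} [CommRing O] [IsDomain O] (j : O →+* K)
    (hj : Function.Injective j) (β : MvPolynomial {i // i ≠ i0} ℂ →+* O)
    (hβ : ∀ P, j (β P) = aeval (fun i : {i // i ≠ i0} => ξ i) P)
    (π : O) (hπ : j π = ξ i0) (a : O) :
    ∃ R : Polynomial (MvPolynomial {i // i ≠ i0} ℂ), R ≠ 0 ∧ π ∣ Polynomial.eval₂ β a R := by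
  classical
  have hπ0 : π ≠ 0 := by
    rintro rfl
    rw [map_zero] at hπ
    exact hξ.1.ne_zero i0 hπ.symm
  have hq : ∀ c ∈ Algebra.adjoin ℂ (Set.range ξ),
      ∃ q : Polynomial (MvPolynomial {i // i ≠ i0} ℂ), j (Polynomial.eval₂ β π q) = c := by
    intro c hc
    induction hc using Algebra.adjoin_induction with
    | mem x hx =>
      obtain ⟨i, rfl⟩ := hx
      by_cases hi : i = i0
      · subst hi
        exact ⟨Polynomial.X, by rw [Polynomial.eval₂_X, hπ]⟩
      · exact ⟨Polynomial.C (X ⟨i, hi⟩), by rw [Polynomial.eval₂_C, hβ, aeval_X]⟩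
    | algebraMap r =>
      exact ⟨Polynomial.C (C r), by rw [Polynomial.eval₂_C, hβ, aeval_C]⟩
    | add x y _ _ hx hy =>
      obtain ⟨p, hp⟩ := hx
      obtain ⟨q, hq⟩ := hy
      exact ⟨p + q, by rw [Polynomial.eval₂_add, map_add, hp, hq]⟩
    | mul x y _ _ hx hy =>
      obtain ⟨p, hp⟩ := hx
      obtain ⟨q, hq⟩ := hy
      exact ⟨p * q, by rw [Polynomial.eval₂_mul, map_mul, hp, hq]⟩
  obtain ⟨P, hP0, hP⟩ := hξ.isAlgebraic.isAlgebraic (j a)
  choose q hq using fun n : ℕ => hq (P.coeff n : K) (P.coeff n).2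
  let Q : Polynomial (Polynomial (MvPolynomial {i // i ≠ i0} ℂ)) :=
    ∑ n ∈ P.support, (q n).map Polynomial.C * Polynomial.C (Polynomial.X ^ n)
  let E : Polynomial (Polynomial (MvPolynomial {i // i ≠ i0} ℂ)) →+* O :=
    Polynomial.eval₂RingHom (Polynomial.eval₂RingHom β a) π
  have hEQ : E Q = 0 := by
    apply hj
    rw [map_zero]
    simp only [Q, E, map_sum, map_mul, Polynomial.coe_eval₂RingHom, Polynomial.eval₂_map,
      Polynomial.eval₂_C, Polynomial.eval₂_X, map_pow]
    have h1 : (Polynomial.eval₂RingHom β a).comp Polynomial.C = β := by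
      ext x <;> simp
    rw [h1]
    simp only [hq]
    rw [Polynomial.aeval_def, Polynomial.eval₂_eq_sum, Polynomial.sum_def] at hP
    exact hP
  have hQ0 : Q ≠ 0 := by
    intro h
    obtain ⟨n0, hn0⟩ : ∃ n0, P.coeff n0 ≠ 0 := by
      by_contra hcon
      push Not at hcon
      exact hP0 (Polynomial.ext (by simpa using hcon))
    have h1 : q n0 ≠ 0 := by
      intro h1
      have := hq n0
      rw [h1, Polynomial.eval₂_zero, map_zero] at this
      exact hn0 (Subtype.ext this.symm)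
    obtain ⟨m, hm⟩ : ∃ m, (q n0).coeff m ≠ 0 := by
      by_contra hcon
      push Not at hcon
      exact h1 (Polynomial.ext (by simpa using hcon))
    have h2 : (Q.coeff m).coeff n0 = (q n0).coeff m := by
      simp only [Q, Polynomial.finsetSum_coeff, Polynomial.coeff_mul_C, Polynomial.coeff_map,
        Polynomial.coeff_C_mul, Polynomial.coeff_X_pow]
      rw [Finset.sum_eq_single n0]
      · simp
      · intro b _ hb
        simp [hb.symm]
      · intro h3
        exact absurd (Polynomial.mem_support_iff.mpr hn0) h3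
    rw [h, Polynomial.coeff_zero, Polynomial.coeff_zero] at h2
    exact hm h2.symm
  obtain ⟨d, hd⟩ : ∃ d, d = Q.natTrailingDegree := ⟨_, rfl⟩
  have hdQ : Q.coeff d ≠ 0 := by
    rw [hd]
    exact Polynomial.trailingCoeff_nonzero_iff_nonzero.mpr hQ0
  obtain ⟨Q', hQ'⟩ : Polynomial.X ^ d ∣ Q :=
    Polynomial.X_pow_dvd_iff.mpr fun m hm =>
      Polynomial.coeff_eq_zero_of_lt_natTrailingDegree (hd ▸ hm)
  have hQ'0 : Q'.coeff 0 ≠ 0 := by
    rw [hQ', Polynomial.coeff_X_pow_mul'] at hdQ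
    simpa using hdQ
  refine ⟨Q'.coeff 0, hQ'0, ?_⟩
  have hEX : E Polynomial.X = π := Polynomial.eval₂_X _ _
  have hE' : E Q' = 0 := by
    rw [hQ', map_mul, map_pow, hEX] at hEQ
    exact (mul_eq_zero.mp hEQ).resolve_left (pow_ne_zero _ hπ0)
  rw [← Polynomial.X_mul_divX_add Q', map_add, map_mul, hEX] at hE'
  have hEC : E (Polynomial.C (Q'.coeff 0)) = Polynomial.eval₂ β a (Q'.coeff 0) :=
    Polynomial.eval₂_C _ _
  rw [hEC] at hE'
  exact ⟨-E Q'.divX, by linear_combination hE'⟩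

theorem cyArc_extend {k κ Ω : Type} [Field k] [Field κ] [Field Ω] [Algebra k κ]
    [Algebra.IsAlgebraic k κ] [IsAlgClosed Ω] (f : k →+* Ω) :
    ∃ e : κ →+* Ω, e.comp (algebraMap k κ) = f := by
  letI := f.toAlgebra
  refine ⟨(IsAlgClosed.lift : κ →ₐ[k] Ω).toRingHom, ?_⟩
  ext x
  exact (IsAlgClosed.lift : κ →ₐ[k] Ω).commutes x

theorem cyArc_order_coe {Ω : Type} [Field Ω] (f : PowerSeries Ω) (n : ℕ)
    (h0 : ∀ m < n, PowerSeries.coeff m f = 0) (h : PowerSeries.coeff n f ≠ 0) :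
    (f : LaurentSeries Ω).order = n := by
  have h1 : (f : LaurentSeries Ω).coeff n = PowerSeries.coeff n f := by
    rw [LaurentSeries.coeff_coe_powerSeries]
  apply le_antisymm
  · apply HahnSeries.order_le_of_coeff_ne_zero
    rw [h1]
    exact h
  · by_contra hlt
    push Not at hlt
    have hne : (f : LaurentSeries Ω) ≠ 0 := by
      intro h2
      rw [h2] at h1
      exact h h1.symm
    have h2 : (f : LaurentSeries Ω).coeff (f : LaurentSeries Ω).order ≠ 0 := by
      rwa [Ne, HahnSeries.coeff_order_eq_zero]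
    rw [PowerSeries.coeff_coe] at h2
    split_ifs at h2 with h3
    · exact h2 rfl
    · exact h2 (h0 _ (by omega))


theorem exists_arc {K : Type} [Field K] [Algebra ℂ K] (v : Valuation K ℤᵐ⁰) {ι : Type}
    [Finite ι] (i0 : ι) (ξ : ι → K) (hξ : IsTranscendenceBasis ℂ ξ) (h1 : v (ξ i0) < 1)
    (h2 : ∀ a : K, a ≠ 0 → ∃ n : ℤ, v a = v (ξ i0) ^ n)
    (h3 : ∀ P : MvPolynomial {i // i ≠ i0} ℂ, P ≠ 0 →
      v (aeval (fun i : {i // i ≠ i0} => ξ i) P) = 1)
    {Ω : Type} [Field Ω] [IsAlgClosed Ω] [Algebra ℂ Ω] (T : ι → PowerSeries Ω)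
    (hT0 : (T i0).order = 1)
    (hT : AlgebraicIndependent ℂ
      (fun i : {i // i ≠ i0} => PowerSeries.constantCoeff (T i))) :
    ∃ φ : K →ₐ[ℂ] LaurentSeries Ω, (∀ i, φ (ξ i) = (T i : LaurentSeries Ω)) ∧
      ∀ (a : K) (n : ℤ), a ≠ 0 → v a = v (ξ i0) ^ n → (φ a).order = n := by
  classical
  have hξ0 : ξ i0 ≠ 0 := hξ.1.ne_zero i0
  have hv0 : 0 < v (ξ i0) := by
    rw [Valuation.pos_iff]
    exact hξ0
  -- the valuation ring
  set O := v.valuationSubring with hO
  let j : O →+* K := O.subtype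
  have hj : Function.Injective j := Subtype.coe_injective
  have hmem : ∀ x : K, x ∈ O ↔ v x ≤ 1 := fun x => Valuation.mem_valuationSubring_iff v x
  let π : O := ⟨ξ i0, (hmem _).mpr h1.le⟩
  have hjπ : j π = ξ i0 := rfl
  have hc : ∀ c : ℂ, algebraMap ℂ K c ∈ O := by
    intro c
    rw [hmem]
    rcases eq_or_ne c 0 with rfl | hc
    · simp
    · have := h3 (C c) (by simpa using hc)
      rw [aeval_C] at this
      exact this.le
  let cO : ℂ →+* O := (algebraMap ℂ K).codRestrict O.toSubring hc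
  have hu : ∀ i : {i // i ≠ i0}, ξ i ∈ O := by
    intro i
    rw [hmem]
    have := h3 (X i) (X_ne_zero i)
    rw [aeval_X] at this
    exact this.le
  let β : MvPolynomial {i // i ≠ i0} ℂ →+* O := eval₂Hom cO (fun i => ⟨ξ i, hu i⟩)
  have hβ : ∀ P, j (β P) = aeval (fun i : {i // i ≠ i0} => ξ i) P := by
    intro P
    have h4 : j.comp β = (aeval (fun i : {i // i ≠ i0} => ξ i) :
        MvPolynomial {i // i ≠ i0} ℂ →ₐ[ℂ] K).toRingHom := by
      apply MvPolynomial.ringHom_ext
      · intro c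
        simp only [β, RingHom.comp_apply, eval₂Hom_C, AlgHom.toRingHom_eq_coe, RingHom.coe_coe,
          aeval_C]
        rfl
      · intro i
        simp only [β, RingHom.comp_apply, eval₂Hom_X', AlgHom.toRingHom_eq_coe, RingHom.coe_coe,
          aeval_X]
        rfl
    exact RingHom.congr_fun h4 P
  have hunit : ∀ x : O, v (x : K) = 1 → IsUnit x := by
    intro x hx
    have hx0 : (x : K) ≠ 0 := by
      intro h
      rw [h, map_zero] at hx
      exact zero_ne_one hx
    rw [isUnit_iff_exists_inv]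
    refine ⟨⟨(x : K)⁻¹, ?_⟩, ?_⟩
    · rw [hmem, map_inv₀, hx, inv_one]
    · apply hj
      change (x : K) * (x : K)⁻¹ = 1
      exact mul_inv_cancel₀ hx0
  have hunit' : ∀ x : O, IsUnit x → v (x : K) = 1 := by
    intro x hx
    obtain ⟨y, hy⟩ := isUnit_iff_exists_inv.mp hx
    have h4 : v (x : K) * v (y : K) = 1 := by
      rw [← map_mul]
      have : (x : K) * (y : K) = 1 := congrArg j hy
      rw [this, map_one]
    refine le_antisymm ((hmem _).mp x.2) ?_
    calc (1 : ℤᵐ⁰) = v (x : K) * v (y : K) := h4.symm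
      _ ≤ v (x : K) * 1 := mul_le_mul_right ((hmem _).mp y.2) _
      _ = v (x : K) := mul_one _
  have hβu : ∀ y : nonZeroDivisors (MvPolynomial {i // i ≠ i0} ℂ), IsUnit (β y) := by
    intro y
    apply hunit
    change v (j (β y)) = 1
    rw [hβ]
    exact h3 _ (nonZeroDivisors.ne_zero y.2)
  -- the coefficient field
  let k0 := FractionRing (MvPolynomial {i // i ≠ i0} ℂ)
  let α : k0 →+* O := IsLocalization.lift hβu
  have hα : ∀ P, α (algebraMap _ k0 P) = β P := fun P => IsLocalization.lift_eq hβu P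
  letI : Algebra k0 O := α.toAlgebra
  have hαmap : ∀ x : k0, algebraMap k0 O x = α x := fun _ => rfl
  -- divisibility by the uniformizer
  have hdvd : ∀ x : O, ¬ IsUnit x → π ∣ x := by
    intro x hx
    rcases eq_or_ne (x : K) 0 with h0 | h0
    · have : x = 0 := Subtype.ext h0
      rw [this]
      exact dvd_zero _
    obtain ⟨n, hn⟩ := h2 (x : K) h0
    have hxle : v (x : K) ≤ 1 := (hmem _).mp x.2
    have hn1 : 1 ≤ n := by
      by_contra hcon
      push Not at hcon
      have h4 : v (ξ i0) ^ (0 : ℤ) ≤ v (ξ i0) ^ n :=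
        (zpow_le_zpow_iff_right_of_lt_one₀ hv0 h1).mpr (by omega)
      rw [zpow_zero, ← hn] at h4
      exact hx (hunit x (le_antisymm hxle h4))
    refine ⟨⟨(ξ i0)⁻¹ * (x : K), ?_⟩, ?_⟩
    · rw [hmem, map_mul, map_inv₀, hn, ← zpow_neg_one, ← zpow_add₀ hv0.ne']
      have h4 : v (ξ i0) ^ (-1 + n) ≤ v (ξ i0) ^ (0 : ℤ) :=
        (zpow_le_zpow_iff_right_of_lt_one₀ hv0 h1).mpr (by omega)
      rwa [zpow_zero] at h4
    · apply hj
      change (x : K) = ξ i0 * ((ξ i0)⁻¹ * (x : K))
      rw [mul_inv_cancel_left₀ hξ0]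
  have hπu : ¬ IsUnit π := fun h => h1.ne (hunit' π h)
  have hπ0 : π ≠ 0 := fun h => hξ0 (congrArg j h)
  have hJ : Ideal.span {π} = IsLocalRing.maximalIdeal O := by
    ext x
    rw [Ideal.mem_span_singleton, IsLocalRing.mem_maximalIdeal, mem_nonunits_iff]
    exact ⟨fun hd hx => hπu (isUnit_of_dvd_unit hd hx), hdvd x⟩
  have hmax : (Ideal.span {π}).IsMaximal := by
    rw [hJ]
    infer_instance
  have hπpow : ∀ m n : ℕ, π ^ n ∣ π ^ m → n ≤ m := by
    intro m n h
    exact (pow_dvd_pow_iff hπ0 hπu).mp h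
  -- the residue field
  letI : Field (O ⧸ Ideal.span {π}) := Ideal.Quotient.field _
  haveI halg : Algebra.IsAlgebraic k0 (O ⧸ Ideal.span {π}) := by
    refine ⟨fun x => ?_⟩
    obtain ⟨a, rfl⟩ := Ideal.Quotient.mk_surjective x
    obtain ⟨R, hR0, hR⟩ := cyArc_relation i0 ξ hξ j hj β hβ π hjπ a
    refine ⟨R.map (algebraMap _ k0), ?_, ?_⟩
    · rw [Ne, Polynomial.map_eq_zero_iff (IsFractionRing.injective _ _)]
      exact hR0
    · rw [Polynomial.aeval_def, Polynomial.eval₂_map]
      have h4 : (algebraMap k0 (O ⧸ Ideal.span {π})).comp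
          (algebraMap (MvPolynomial {i // i ≠ i0} ℂ) k0) =
          (Ideal.Quotient.mk (Ideal.span {π})).comp β := by
        ext x
        · simp only [RingHom.comp_apply]
          rw [← hα]
          rfl
        · simp only [RingHom.comp_apply]
          rw [← hα]
          rfl
      rw [h4, ← Polynomial.hom_eval₂, Ideal.Quotient.eq_zero_iff_mem, Ideal.mem_span_singleton]
      exact hR
  haveI : CharZero k0 := algebraRat.charZero k0
  haveI : Algebra.IsSeparable k0 (O ⧸ Ideal.span {π}) := inferInstance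
  haveI : Algebra.FormallyEtale k0 (O ⧸ Ideal.span {π}) :=
    Algebra.FormallyEtale.of_isSeparable _ _
  -- the target
  let γ0 : MvPolynomial {i // i ≠ i0} ℂ →+* PowerSeries Ω :=
    eval₂Hom (algebraMap ℂ (PowerSeries Ω)) (fun i => T i)
  have hγ0 : ∀ P, PowerSeries.constantCoeff (γ0 P) =
      aeval (fun i : {i // i ≠ i0} => PowerSeries.constantCoeff (T i)) P := by
    intro P
    have h4 : (PowerSeries.constantCoeff (R := Ω)).comp γ0 =
        (aeval (fun i : {i // i ≠ i0} => PowerSeries.constantCoeff (T i)) :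
        MvPolynomial {i // i ≠ i0} ℂ →ₐ[ℂ] Ω).toRingHom := by
      apply MvPolynomial.ringHom_ext
      · intro c
        simp [γ0, PowerSeries.algebraMap_apply]
      · intro i
        simp [γ0]
    exact RingHom.congr_fun h4 P
  have hγu : ∀ y : nonZeroDivisors (MvPolynomial {i // i ≠ i0} ℂ), IsUnit (γ0 y) := by
    intro y
    rw [PowerSeries.isUnit_iff_constantCoeff, hγ0, isUnit_iff_ne_zero]
    intro h
    exact nonZeroDivisors.ne_zero y.2 ((injective_iff_map_eq_zero _).mp hT _ h)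
  let γ : k0 →+* PowerSeries Ω := IsLocalization.lift hγu
  have hγ : ∀ P, γ (algebraMap _ k0 P) = γ0 P := fun P => IsLocalization.lift_eq hγu P
  letI : Algebra k0 (PowerSeries Ω) := γ.toAlgebra
  obtain ⟨e, he⟩ := cyArc_extend (κ := O ⧸ Ideal.span {π})
    ((PowerSeries.constantCoeff (R := Ω)).comp γ)
  let ψ : (O ⧸ Ideal.span {π}) →ₐ[k0] PowerSeries Ω ⧸ Ideal.span {(PowerSeries.X : PowerSeries Ω)} :=
    { toRingHom := ((Ideal.Quotient.mk _).comp (PowerSeries.C (R := Ω))).comp e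
      commutes' := by
        intro r
        change Ideal.Quotient.mk _ (PowerSeries.C (e (algebraMap k0 _ r))) =
          Ideal.Quotient.mk _ (γ r)
        rw [Ideal.Quotient.eq, Ideal.mem_span_singleton, PowerSeries.X_dvd_iff, map_sub,
          PowerSeries.constantCoeff_C, sub_eq_zero]
        exact RingHom.congr_fun he r }
  have hT1 : T i0 ∈ Ideal.span {(PowerSeries.X : PowerSeries Ω)} := by
    rw [Ideal.mem_span_singleton, PowerSeries.X_dvd_iff]
    rw [← PowerSeries.coeff_zero_eq_constantCoeff_apply]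
    apply PowerSeries.coeff_of_lt_order
    rw [hT0]
    exact_mod_cast zero_lt_one
  obtain ⟨φ0, hφ0⟩ := cyArc_exists_lift (k := k0) π hmax hπpow
    (Ideal.span {(PowerSeries.X : PowerSeries Ω)}) (T i0) hT1 ψ
  have hφ0β : ∀ P, φ0 (β P) = γ0 P := by
    intro P
    rw [← hα, ← hγ]
    exact φ0.commutes _
  have hcoe0 : Function.Injective (HahnSeries.ofPowerSeries ℤ Ω) :=
    HahnSeries.ofPowerSeries_injective
  -- orders
  obtain ⟨T', hT'⟩ : (PowerSeries.X : PowerSeries Ω) ∣ T i0 := Ideal.mem_span_singleton.mp hT1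
  have hordT : ((T i0 : PowerSeries Ω) : LaurentSeries Ω).order = 1 := by
    have h4 := cyArc_order_coe (T i0) 1 (fun m hm => by
      apply PowerSeries.coeff_of_lt_order
      rw [hT0]
      exact_mod_cast hm) (by
      have h5 : (T i0).order = ((1 : ℕ) : ℕ∞) := by rw [hT0]; rfl
      exact (PowerSeries.order_eq_nat.mp h5).1)
    simpa using h4
  have hordu : ∀ f : PowerSeries Ω, IsUnit f → (f : LaurentSeries Ω).order = 0 := by
    intro f hf
    have h4 := cyArc_order_coe f 0 (fun m hm => absurd hm (Nat.not_lt_zero m)) (by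
      rw [PowerSeries.coeff_zero_eq_constantCoeff_apply]
      exact (PowerSeries.isUnit_iff_constantCoeff.mp hf).ne_zero)
    simpa using h4
  have hT00 : T i0 ≠ 0 := by
    intro h
    rw [h, PowerSeries.order_zero] at hT0
    exact ENat.top_ne_one hT0
  have hfac : ∀ x : O, x ≠ 0 → ∃ (n : ℕ) (y : O), IsUnit y ∧ x = π ^ n * y := by
    intro x hx
    obtain ⟨n, hn⟩ := h2 (x : K) (fun h => hx (Subtype.ext h))
    have hxle : v (x : K) ≤ 1 := (hmem _).mp x.2
    have hn0 : 0 ≤ n := by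
      by_contra hcon
      push Not at hcon
      have h4 : v (ξ i0) ^ n ≤ v (ξ i0) ^ (0 : ℤ) := by rw [← hn, zpow_zero]; exact hxle
      have h5 := (zpow_le_zpow_iff_right_of_lt_one₀ hv0 h1).mp h4
      omega
    obtain ⟨m, rfl⟩ := Int.eq_ofNat_of_zero_le hn0
    have hy : v ((ξ i0 ^ m)⁻¹ * (x : K)) = 1 := by
      rw [map_mul, map_inv₀, map_pow, hn, zpow_natCast]
      exact inv_mul_cancel₀ (pow_ne_zero _ hv0.ne')
    refine ⟨m, ⟨(ξ i0 ^ m)⁻¹ * (x : K), (hmem _).mpr hy.le⟩, hunit _ hy, ?_⟩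
    apply hj
    change (x : K) = ξ i0 ^ m * ((ξ i0 ^ m)⁻¹ * (x : K))
    rw [mul_inv_cancel_left₀ (pow_ne_zero _ hξ0)]
  let φ1 : O →+* LaurentSeries Ω := (HahnSeries.ofPowerSeries ℤ Ω).comp φ0.toRingHom
  have hφ1 : ∀ x, φ1 x = (φ0 x : LaurentSeries Ω) := fun _ => rfl
  have hinj : Function.Injective φ1 := by
    rw [injective_iff_map_eq_zero]
    intro x hx
    by_contra hne
    obtain ⟨n, y, hy, rfl⟩ := hfac x hne
    rw [hφ1] at hx
    have h4 : φ0 (π ^ n * y) = 0 := hcoe0 (by rw [map_zero]; exact hx)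
    rw [map_mul, map_pow, hφ0] at h4
    rcases mul_eq_zero.mp h4 with h5 | h5
    · exact pow_ne_zero n hT00 h5
    · exact (hy.map φ0).ne_zero h5
  let φ : K →+* LaurentSeries Ω := IsFractionRing.lift (A := O) hinj
  have hφ : ∀ x : O, φ (x : K) = (φ0 x : LaurentSeries Ω) := fun x =>
    IsFractionRing.lift_algebraMap hinj x
  have hφC : ∀ c : ℂ, φ (algebraMap ℂ K c) = algebraMap ℂ (LaurentSeries Ω) c := by
    intro c
    have h4 : (algebraMap ℂ K c) = j (β (C c)) := by
      rw [hβ, aeval_C]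
    rw [h4]
    change φ ((β (C c) : O) : K) = _
    rw [hφ, hφ0β]
    simp only [γ0, eval₂Hom_C]
    rfl
  refine ⟨⟨φ, hφC⟩, ?_, ?_⟩
  · intro i
    by_cases hi : i = i0
    · subst hi
      change φ (π : K) = _
      rw [hφ, hφ0]
    · have h4 : ξ i = j (β (X ⟨i, hi⟩)) := by
        rw [hβ, aeval_X]
      change φ (ξ i) = _
      rw [h4]
      change φ ((β (X ⟨i, hi⟩) : O) : K) = _
      rw [hφ, hφ0β]
      simp only [γ0, eval₂Hom_X']
  · intro a n ha hn
    change (φ a).order = n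
    have hφπ : φ (ξ i0) = ((T i0 : PowerSeries Ω) : LaurentSeries Ω) := by
      change φ (π : K) = _
      rw [hφ, hφ0]
    have hu1 : ∀ b : K, v b = 1 → (φ b).order = 0 := by
      intro b hb
      have h4 : b ∈ O := (hmem _).mpr hb.le
      have h5 : φ b = (φ0 ⟨b, h4⟩ : LaurentSeries Ω) := hφ ⟨b, h4⟩
      rw [h5]
      exact hordu _ ((hunit ⟨b, h4⟩ hb).map φ0)
    have hφne : ∀ b : K, b ≠ 0 → φ b ≠ 0 := fun b hb => by
      rw [Ne, map_eq_zero]
      exact hb
    rcases Int.eq_nat_or_neg n with ⟨m, rfl | rfl⟩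
    · have h4 : v (a / ξ i0 ^ m) = 1 := by
        rw [map_div₀, map_pow, hn, zpow_natCast]
        exact div_self (pow_ne_zero _ hv0.ne')
      have h5 : a = ξ i0 ^ m * (a / ξ i0 ^ m) := by
        field_simp
      rw [h5, map_mul, HahnSeries.order_mul, map_pow, HahnSeries.order_pow, hφπ, hordT, hu1 _ h4]
      · simp
      · exact hφne _ (pow_ne_zero _ hξ0)
      · exact hφne _ (div_ne_zero ha (pow_ne_zero _ hξ0))
    · have h4 : v (a * ξ i0 ^ m) = 1 := by
        rw [map_mul, map_pow, hn, zpow_neg, zpow_natCast]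
        exact inv_mul_cancel₀ (pow_ne_zero _ hv0.ne')
      have h5 := hu1 _ h4
      rw [map_mul, HahnSeries.order_mul, map_pow, HahnSeries.order_pow, hφπ, hordT] at h5
      · simp at h5
        omega
      · exact hφne _ ha
      · exact hφne _ (pow_ne_zero _ hξ0)

end Pool.Agent.Lib.MP_410da7_ag
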