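import Pool.Agent.Lib.MP_410da7_ag.CYDefs

/-!
# Perturbation of arcs
-/

set_option autoImplicit false

namespace Pool.Agent.Lib.MP_410da7_ag

open MvPolynomial

section CYTaylor_general

variable {N : ℕ}

lemma cyTaylor_first {B : Type*} [CommRing B] (I : Ideal B) (y h : Fin N → B)
    (hh : ∀ l, h l ∈ I) (Q : MvPolynomial (Fin N) B) :
    eval (fun l => y l + h l) Q - eval y Q ∈ I := by
  induction Q using MvPolynomial.induction_on with
  | C a => simp
  | add p q hp hq =>
    have := I.add_mem hp hq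
    simp only [map_add]
    convert this using 1
    ring
  | mul_X p i hp =>
    simp only [map_mul, eval_X]
    have : eval (fun l => y l + h l) p * (y i + h i) - eval y p * y i =
        (eval (fun l => y l + h l) p - eval y p) * y i + eval (fun l => y l + h l) p * h i := by
      ring
    rw [this]
    exact I.add_mem (I.mul_mem_right _ hp) (I.mul_mem_left _ (hh i))

lemma cyTaylor_second {B : Type*} [CommRing B] (I : Ideal B) (y h : Fin N → B)
    (hh : ∀ l, h l ∈ I) (Q : MvPolynomial (Fin N) B) :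
    eval (fun l => y l + h l) Q - eval y Q - ∑ l, eval y (pderiv l Q) * h l ∈ I ^ 2 := by
  induction Q using MvPolynomial.induction_on with
  | C a => simp
  | add p q hp hq =>
    have := (I ^ 2).add_mem hp hq
    simp only [map_add, add_mul, Finset.sum_add_distrib]
    convert this using 1
    ring
  | mul_X p i hp =>
    have h1 := cyTaylor_first I y h hh p
    have hsum : ∑ l, eval y (pderiv l (p * X i)) * h l =
        (∑ l, eval y (pderiv l p) * h l) * y i + eval y p * h i := by
      have : ∀ l, eval y (pderiv l (p * X i)) * h l =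
          eval y (pderiv l p) * h l * y i + (if l = i then eval y p * h i else 0) := by
        intro l
        rw [Derivation.leibniz, map_add, smul_eq_mul, smul_eq_mul, map_mul, map_mul, eval_X]
        by_cases hl : l = i
        · subst hl
          simp only [pderiv_X_self, map_one, if_true]
          ring
        · rw [pderiv_X_of_ne (Ne.symm hl)]
          simp only [map_zero, if_neg hl]
          ring
      simp only [this, Finset.sum_add_distrib, Finset.sum_mul, Finset.sum_ite_eq',
        Finset.mem_univ, if_true]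
    rw [hsum]
    simp only [map_mul, eval_X]
    have : eval (fun l => y l + h l) p * (y i + h i) - eval y p * y i -
        ((∑ l, eval y (pderiv l p) * h l) * y i + eval y p * h i) =
        (eval (fun l => y l + h l) p - eval y p - ∑ l, eval y (pderiv l p) * h l) * y i +
        (eval (fun l => y l + h l) p - eval y p) * h i := by
      ring
    rw [this]
    refine (I ^ 2).add_mem ((I ^ 2).mul_mem_right _ hp) ?_
    rw [pow_two]
    exact Ideal.mul_mem_mul h1 (hh i)

lemma cyTaylor_pderiv (w : Fin N → ℕ) (P : MvPolynomial (Fin N) ℂ) {B : Type*} [CommRing B]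
    [Algebra ℂ B] (x0 : B) (y : Fin N → B) (l : Fin N) :
    eval y (pderiv l (hpoly w P x0)) = ∑ α ∈ P.support, algebraMap ℂ B (P.coeff α) *
      x0 ^ (P.weightedTotalDegree w - Finsupp.weight w α) * (α l : B) *
      ∏ i, y i ^ (α - Finsupp.single l 1 : Fin N →₀ ℕ) i := by
  simp only [hpoly, map_sum, pderiv_monomial, eval_monomial]
  refine Finset.sum_congr rfl fun α _ => ?_
  rw [Finsupp.prod_fintype _ _ (by simp)]

lemma cyTaylor_pderiv_map (w : Fin N → ℕ) (P : MvPolynomial (Fin N) ℂ) {B B' : Type*}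
    [CommRing B] [Algebra ℂ B] [CommRing B'] [Algebra ℂ B'] (φ : B →ₐ[ℂ] B') (x0 : B)
    (y : Fin N → B) (l : Fin N) :
    φ (eval y (pderiv l (hpoly w P x0))) =
      eval (fun i => φ (y i)) (pderiv l (hpoly w P (φ x0))) := by
  simp only [cyTaylor_pderiv, map_sum, map_mul, map_pow, map_prod, AlgHom.commutes, map_natCast]

lemma cyTaylor_pderiv_one (w : Fin N → ℕ) (P : MvPolynomial (Fin N) ℂ) {B : Type*} [CommRing B]
    [Algebra ℂ B] (y : Fin N → B) (l : Fin N) :
    eval y (pderiv l (hpoly w P 1)) = aeval y (pderiv l P) := by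
  rw [cyTaylor_pderiv]
  conv_rhs => rw [P.as_sum]
  rw [map_sum, map_sum]
  refine Finset.sum_congr rfl fun α _ => ?_
  rw [pderiv_monomial, aeval_monomial, Finsupp.prod_fintype _ _ (by simp)]
  simp

lemma cyTaylor_pderiv_smul (w : Fin N → ℕ) (P : MvPolynomial (Fin N) ℂ) {B : Type*} [CommRing B]
    [Algebra ℂ B] (c x0 : B) (y : Fin N → B) (l : Fin N) :
    eval (fun i => c ^ w i * y i) (pderiv l (hpoly w P (c * x0))) * c ^ w l =
      c ^ P.weightedTotalDegree w * eval y (pderiv l (hpoly w P x0)) := by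
  simp only [cyTaylor_pderiv, Finset.mul_sum, Finset.sum_mul]
  refine Finset.sum_congr rfl fun α hα => ?_
  by_cases hl : α l = 0
  · simp [hl]
  have h1 : Finsupp.weight w α ≤ P.weightedTotalDegree w := le_weightedTotalDegree w hα
  have h4 : Finsupp.weight w (α - Finsupp.single l 1) + w l = Finsupp.weight w α := by
    have : (α - Finsupp.single l 1) + Finsupp.single l 1 = α := by
      refine tsub_add_cancel_of_le ?_
      rw [Finsupp.single_le_iff]
      omega
    conv_rhs => rw [← this]
    rw [map_add]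
    simp [Finsupp.weight_single]
  have h2 : ∏ i, (c ^ w i * y i) ^ (α - Finsupp.single l 1 : Fin N →₀ ℕ) i =
      c ^ Finsupp.weight w (α - Finsupp.single l 1) *
        ∏ i, y i ^ (α - Finsupp.single l 1 : Fin N →₀ ℕ) i := by
    rw [Finsupp.weight_apply, Finsupp.sum_fintype _ _ (by simp), ← Finset.prod_pow_eq_pow_sum,
      ← Finset.prod_mul_distrib]
    refine Finset.prod_congr rfl fun i _ => ?_
    rw [mul_pow, ← pow_mul, smul_eq_mul, mul_comm (w i)]
  rw [h2, mul_pow]
  have h3 : c ^ P.weightedTotalDegree w =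
      c ^ (P.weightedTotalDegree w - Finsupp.weight w α) *
        (c ^ Finsupp.weight w (α - Finsupp.single l 1) * c ^ w l) := by
    rw [← pow_add, ← pow_add, h4, Nat.sub_add_cancel h1]
  rw [h3]
  ring

lemma cyTaylor_congr (w : Fin N → ℕ) (P : MvPolynomial (Fin N) ℂ) {B : Type*} [CommRing B]
    [Algebra ℂ B] (I : Ideal B) (x0 x0' : B) (h0 : x0 - x0' ∈ I) (y y' : Fin N → B)
    (hy : ∀ l, y l - y' l ∈ I) :
    hev w P x0 y - hev w P x0' y' ∈ I := by
  rw [← Ideal.Quotient.eq]
  have e := hev_map w P (Ideal.Quotient.mkₐ ℂ I)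
  simp only [Ideal.Quotient.mkₐ_eq_mk] at e
  rw [e, e]
  have h0' : Ideal.Quotient.mk I x0 = Ideal.Quotient.mk I x0' := Ideal.Quotient.eq.2 h0
  have hy' : (fun l => Ideal.Quotient.mk I (y l)) = fun l => Ideal.Quotient.mk I (y' l) :=
    funext fun l => Ideal.Quotient.eq.2 (hy l)
  rw [h0', hy']

end CYTaylor_general

section

variable {N : ℕ} {Ω : Type} [Field Ω] [Algebra ℂ Ω]

/-- the uniformizer of the Laurent series field -/
noncomputable abbrev uu (Ω : Type) [Field Ω] : LaurentSeries Ω := HahnSeries.single (1 : ℤ) 1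

/-- The embedding of power series into Laurent series. -/
noncomputable def cyTaylorPhi (Ω : Type) [Field Ω] [Algebra ℂ Ω] :
    PowerSeries Ω →ₐ[ℂ] LaurentSeries Ω :=
  { HahnSeries.ofPowerSeries ℤ Ω with
    commutes' := by
      intro r
      simp
      rfl }

lemma cyTaylorPhi_apply (f : PowerSeries Ω) : cyTaylorPhi Ω f = (f : LaurentSeries Ω) := rfl

lemma cyTaylorPhi_X : cyTaylorPhi Ω PowerSeries.X = uu Ω := by
  rw [cyTaylorPhi_apply]
  exact HahnSeries.ofPowerSeries_X

lemma cyTaylorPhi_injective : Function.Injective (cyTaylorPhi Ω) :=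
  HahnSeries.ofPowerSeries_injective

omit [Algebra ℂ Ω] in
lemma cyTaylor_uu_ne : uu Ω ≠ 0 := by
  simp [uu]

/-- values of the homogenisation at a scaled point -/
theorem hev_laurent (w : Fin N → ℕ) (P : MvPolynomial (Fin N) ℂ) (e : ℕ)
    (x : Fin N → LaurentSeries Ω) (y : Fin N → PowerSeries Ω)
    (hy : ∀ l, (y l : LaurentSeries Ω) = uu Ω ^ (e * w l) * x l) :
    ((hev w P (PowerSeries.X ^ e) y : PowerSeries Ω) : LaurentSeries Ω) =
      uu Ω ^ (e * P.weightedTotalDegree w) * aeval x P := by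
  rw [← cyTaylorPhi_apply, hev_map]
  have h1 : (fun l => cyTaylorPhi Ω (y l)) = fun l => (uu Ω ^ e) ^ w l * x l := by
    funext l
    rw [cyTaylorPhi_apply, hy l, pow_mul]
  have h2 : cyTaylorPhi Ω (PowerSeries.X ^ e) = uu Ω ^ e * 1 := by
    rw [map_pow, cyTaylorPhi_X, mul_one]
  rw [h1, h2, hev_smul, hev_one, pow_mul]

/-- first order perturbation of a zero -/
theorem hev_perturb (w : Fin N → ℕ) (P : MvPolynomial (Fin N) ℂ) (e m j : ℕ) (hj : m ≤ 2 * j)
    (x : Fin N → LaurentSeries Ω) (y : Fin N → PowerSeries Ω)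
    (hy : ∀ l, (y l : LaurentSeries Ω) = uu Ω ^ (e * w l) * x l) (hx : aeval x P = 0)
    (h : Fin N → PowerSeries Ω) (hh : ∀ l, PowerSeries.X ^ j ∣ h l) (θ : PowerSeries Ω)
    (hlin : uu Ω ^ (e * P.weightedTotalDegree w) *
      ∑ l, aeval x (pderiv l P) * (h l : LaurentSeries Ω) * (uu Ω ^ (e * w l))⁻¹ =
      uu Ω ^ m * (θ : LaurentSeries Ω)) :
    PowerSeries.X ^ m ∣ hev w P (PowerSeries.X ^ e) (fun l => y l + h l) := by
  have h0 : hev w P (PowerSeries.X ^ e) y = 0 := by
    apply cyTaylorPhi_injective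
    rw [cyTaylorPhi_apply, hev_laurent w P e x y hy, hx, mul_zero, map_zero]
  have h1 := cyTaylor_second (Ideal.span {(PowerSeries.X : PowerSeries Ω) ^ j}) y h
    (fun l => Ideal.mem_span_singleton.2 (hh l)) (hpoly w P (PowerSeries.X ^ e))
  rw [Ideal.span_singleton_pow, Ideal.mem_span_singleton, ← pow_mul] at h1
  have h2 : (PowerSeries.X : PowerSeries Ω) ^ m ∣ PowerSeries.X ^ (j * 2) :=
    pow_dvd_pow _ (by omega)
  have h3 := h2.trans h1
  have h4 : ∑ l, eval y (pderiv l (hpoly w P (PowerSeries.X ^ e))) * h l =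
      PowerSeries.X ^ m * θ := by
    apply cyTaylorPhi_injective
    rw [map_mul, map_pow, cyTaylorPhi_X, cyTaylorPhi_apply θ, ← hlin, map_sum, Finset.mul_sum]
    refine Finset.sum_congr rfl fun l _ => ?_
    rw [map_mul, cyTaylor_pderiv_map, cyTaylorPhi_apply (h l)]
    have e1 : (fun l => cyTaylorPhi Ω (y l)) = fun l => (uu Ω ^ e) ^ w l * x l := by
      funext l
      rw [cyTaylorPhi_apply, hy l, pow_mul]
    have e2 : cyTaylorPhi Ω (PowerSeries.X ^ e) = uu Ω ^ e * 1 := by
      rw [map_pow, cyTaylorPhi_X, mul_one]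
    have e3 := cyTaylor_pderiv_smul w P (uu Ω ^ e) 1 x l
    rw [cyTaylor_pderiv_one, ← e1, ← e2, ← pow_mul, ← pow_mul] at e3
    have e4 : uu Ω ^ (e * w l) ≠ 0 := pow_ne_zero _ cyTaylor_uu_ne
    rw [eq_comm, ← mul_assoc, ← mul_assoc, ← e3]
    field_simp
  rw [h4] at h3
  have h5 : hev w P (PowerSeries.X ^ e) (fun l => y l + h l) =
      (eval (fun l => y l + h l) (hpoly w P (PowerSeries.X ^ e)) -
        eval y (hpoly w P (PowerSeries.X ^ e)) - PowerSeries.X ^ m * θ) +
        hev w P (PowerSeries.X ^ e) y + PowerSeries.X ^ m * θ := by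
    simp only [hev]
    ring
  rw [h5, h0, add_zero]
  exact dvd_add h3 (dvd_mul_right _ _)

/-- perturbation keeps divisibility by low powers -/
theorem hev_perturb_dvd (w : Fin N → ℕ) (P : MvPolynomial (Fin N) ℂ) (x0 : PowerSeries Ω)
    (q j : ℕ) (hq : q ≤ j) (y h : Fin N → PowerSeries Ω) (hh : ∀ l, PowerSeries.X ^ j ∣ h l)
    (hy : PowerSeries.X ^ q ∣ hev w P x0 y) :
    PowerSeries.X ^ q ∣ hev w P x0 (fun l => y l + h l) := by
  have h1 := cyTaylor_first (Ideal.span {(PowerSeries.X : PowerSeries Ω) ^ q}) y h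
    (fun l => Ideal.mem_span_singleton.2 ((pow_dvd_pow _ hq).trans (hh l))) (hpoly w P x0)
  rw [Ideal.mem_span_singleton] at h1
  have h5 : hev w P x0 (fun l => y l + h l) =
      (eval (fun l => y l + h l) (hpoly w P x0) - eval y (hpoly w P x0)) + hev w P x0 y := by
    simp only [hev]
    ring
  rw [h5]
  exact dvd_add h1 hy

/-- The embedding of power series into Laurent series, on constants. -/
noncomputable def cyTaylorC (Ω : Type) [Field Ω] [Algebra ℂ Ω] : Ω →+* LaurentSeries Ω :=
  (cyTaylorPhi Ω : PowerSeries Ω →+* LaurentSeries Ω).comp PowerSeries.C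

/-- The evaluation of polynomials at the inverse of the uniformizer. -/
noncomputable def cyTaylorPsi (Ω : Type) [Field Ω] [Algebra ℂ Ω] :
    Polynomial Ω →ₐ[ℂ] LaurentSeries Ω :=
  { Polynomial.eval₂RingHom (cyTaylorC Ω) (uu Ω)⁻¹ with
    commutes' := by
      intro r
      have h1 : algebraMap ℂ (Polynomial Ω) r = Polynomial.C (algebraMap ℂ Ω r) := rfl
      have h2 : (PowerSeries.C (algebraMap ℂ Ω r) : PowerSeries Ω) =
          algebraMap ℂ (PowerSeries Ω) r := by
        rw [PowerSeries.algebraMap_apply]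
      have h3 : (Polynomial.eval₂RingHom (cyTaylorC Ω) (uu Ω)⁻¹)
          (algebraMap ℂ (Polynomial Ω) r) = algebraMap ℂ (LaurentSeries Ω) r := by
        rw [h1, Polynomial.coe_eval₂RingHom, Polynomial.eval₂_C, cyTaylorC, RingHom.comp_apply, h2]
        exact (cyTaylorPhi Ω).commutes r
      exact h3 }

lemma cyTaylorPsi_X : cyTaylorPsi Ω Polynomial.X = (uu Ω)⁻¹ :=
  Polynomial.eval₂_X _ _

lemma cyTaylorPsi_C (c : Ω) : cyTaylorPsi Ω (Polynomial.C c) = cyTaylorPhi Ω (PowerSeries.C c) :=
  Polynomial.eval₂_C _ _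

lemma cyTaylor_reflect (f : Polynomial Ω) (M : ℕ) (hf : f.natDegree ≤ M) :
    uu Ω ^ M * cyTaylorPsi Ω f =
      cyTaylorPhi Ω ((Polynomial.reflect M f : Polynomial Ω) : PowerSeries Ω) := by
  have hf' : f = ∑ i ∈ Finset.range (M + 1), Polynomial.C (f.coeff i) * Polynomial.X ^ i := by
    have := f.as_sum_range' (M + 1) (by omega)
    simpa [Polynomial.C_mul_X_pow_eq_monomial] using this
  have hlin : ∀ s : Finset ℕ, (∀ i ∈ s, i ≤ M) →
      uu Ω ^ M * cyTaylorPsi Ω
        (∑ i ∈ s, Polynomial.C (f.coeff i) * Polynomial.X ^ i) =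
      cyTaylorPhi Ω ((Polynomial.reflect M (∑ i ∈ s, Polynomial.C (f.coeff i) *
        Polynomial.X ^ i) : Polynomial Ω) : PowerSeries Ω) := by
    intro s
    induction s using Finset.induction_on with
    | empty => simp
    | insert a s ha ih =>
      intro hs
      have h1 := ih fun i hi => hs i (Finset.mem_insert_of_mem hi)
      have h2 : a ≤ M := hs a (Finset.mem_insert_self _ _)
      rw [Finset.sum_insert ha, Polynomial.reflect_add, Polynomial.coe_add, map_add, map_add,
        mul_add, h1, Polynomial.reflect_C_mul_X_pow, Polynomial.revAt_le h2, Polynomial.coe_mul,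
        Polynomial.coe_C, Polynomial.coe_pow, Polynomial.coe_X, map_mul, map_pow, cyTaylorPsi_X,
        cyTaylorPsi_C, map_mul (cyTaylorPhi Ω), map_pow (cyTaylorPhi Ω), cyTaylorPhi_X]
      congr 1
      have e4 : uu Ω ≠ 0 := cyTaylor_uu_ne
      have e5 : uu Ω ^ M = uu Ω ^ (M - a) * uu Ω ^ a := by
        rw [← pow_add, Nat.sub_add_cancel h2]
      rw [e5, inv_pow]
      field_simp
  have := hlin (Finset.range (M + 1)) fun i hi => by
    rw [Finset.mem_range] at hi; omega
  rwa [← hf'] at this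

lemma cyTaylor_natDegree (w : Fin N → ℕ) (P : MvPolynomial (Fin N) ℂ) (e' : ℕ)
    (x0 : Polynomial Ω) (h0 : x0.natDegree ≤ e') (γ : Fin N → Polynomial Ω)
    (hγ : ∀ l, (γ l).natDegree ≤ e' * w l) :
    (hev w P x0 γ).natDegree ≤ e' * P.weightedTotalDegree w := by
  rw [hev_eq]
  refine Polynomial.natDegree_sum_le_of_forall_le _ _ fun α hα => ?_
  have h1 : (algebraMap ℂ (Polynomial Ω) (P.coeff α)).natDegree = 0 := by
    rw [IsScalarTower.algebraMap_apply ℂ Ω (Polynomial Ω)]
    exact Polynomial.natDegree_C _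
  have hwt : Finsupp.weight w α ≤ P.weightedTotalDegree w := le_weightedTotalDegree w hα
  have h2 : (x0 ^ (P.weightedTotalDegree w - Finsupp.weight w α)).natDegree ≤
      (P.weightedTotalDegree w - Finsupp.weight w α) * e' :=
    Polynomial.natDegree_pow_le.trans (Nat.mul_le_mul_left _ h0)
  have h3 : (∏ i, γ i ^ α i).natDegree ≤ e' * Finsupp.weight w α := by
    refine (Polynomial.natDegree_prod_le _ _).trans ?_
    rw [Finsupp.weight_apply, Finsupp.sum_fintype _ _ (by simp), Finset.mul_sum]
    refine Finset.sum_le_sum fun i _ => ?_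
    refine Polynomial.natDegree_pow_le.trans ((Nat.mul_le_mul_left _ (hγ i)).trans ?_)
    rw [smul_eq_mul]
    apply le_of_eq
    ring
  refine Polynomial.natDegree_mul_le.trans ?_
  have h4 := Polynomial.natDegree_mul_le (p := algebraMap ℂ (Polynomial Ω) (P.coeff α))
    (q := x0 ^ (P.weightedTotalDegree w - Finsupp.weight w α))
  have h5 : (P.weightedTotalDegree w - Finsupp.weight w α) * e' + e' * Finsupp.weight w α =
      e' * P.weightedTotalDegree w := by
    rw [mul_comm _ e', ← mul_add, Nat.sub_add_cancel hwt]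
  omega

/-- Reflecting the value of the homogenisation at polynomials. -/
lemma cyTaylor_reflect_hev (w : Fin N → ℕ) (P : MvPolynomial (Fin N) ℂ) (e' : ℕ)
    (x0 : Polynomial Ω) (h0 : x0.natDegree ≤ e') (γ : Fin N → Polynomial Ω)
    (hγ : ∀ l, (γ l).natDegree ≤ e' * w l) :
    ((Polynomial.reflect (e' * P.weightedTotalDegree w) (hev w P x0 γ) : Polynomial Ω) :
      PowerSeries Ω) =
    hev w P ((Polynomial.reflect e' x0 : Polynomial Ω) : PowerSeries Ω)
      (fun l => ((Polynomial.reflect (e' * w l) (γ l) : Polynomial Ω) : PowerSeries Ω)) := by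
  apply cyTaylorPhi_injective
  rw [← cyTaylor_reflect _ _ (cyTaylor_natDegree w P e' x0 h0 γ hγ), hev_map,
    hev_map, pow_mul, ← hev_smul, ← cyTaylor_reflect _ _ h0]
  have h1 : (fun l => cyTaylorPhi Ω
      ((Polynomial.reflect (e' * w l) (γ l) : Polynomial Ω) : PowerSeries Ω)) =
      fun l => (uu Ω ^ e') ^ w l * cyTaylorPsi Ω (γ l) := by
    funext l
    rw [← cyTaylor_reflect _ _ (hγ l), pow_mul]
  rw [h1]

/-- If the top `m` coefficients of the polynomials `x_l(t)` of degree `e' w_l` are those of `y_l`,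
and `x_0(t) = 1 + t^(e'-e)`, then the values of the homogenisation have small degree. -/
theorem coeff_top (w : Fin N → ℕ) (hw : ∀ l, 0 < w l) (P : MvPolynomial (Fin N) ℂ)
    {e' e m q : ℕ} (he : e < m) (hm : m ≤ e') (hq : q ≤ m) (p : Fin N → Ω)
    (a : (Σ l : Fin N, Fin (e' * w l)) → Ω) (y : Fin N → PowerSeries Ω)
    (ha : ∀ l (i : Fin (e' * w l)) (n : ℕ), n < m → i.1 + 1 + n = e' * w l →
      a ⟨l, i⟩ = PowerSeries.coeff n (y l))
    (hP : PowerSeries.X ^ q ∣ hev w P (PowerSeries.X ^ e) y) (n : ℕ)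
    (hn : e' * P.weightedTotalDegree w < n + q) :
    (hev w P (linePoly e' fun i => if i.1 + 1 + e = e' then 1 else 0)
      (curvePoly (fun l => e' * w l) p a)).coeff n = 0 := by
  have h0 : (linePoly e' fun i => if i.1 + 1 + e = e' then (1 : Ω) else 0).natDegree ≤ e' := by
    refine Polynomial.natDegree_add_le_of_degree_le (by simp) ?_
    refine Polynomial.natDegree_sum_le_of_forall_le _ _ fun i _ => ?_
    exact (Polynomial.natDegree_C_mul_X_pow_le _ _).trans i.2
  have hγ := curvePoly_natDegree_le (fun l => e' * w l) p a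
  have hdeg := cyTaylor_natDegree w P e' _ h0 _ hγ
  by_cases hnd : e' * P.weightedTotalDegree w < n
  · exact Polynomial.coeff_eq_zero_of_natDegree_lt (lt_of_le_of_lt hdeg hnd)
  push Not at hnd
  have hrefl := cyTaylor_reflect_hev w P e' _ h0 _ hγ
  have hc0 : ((Polynomial.reflect e' (linePoly e' fun i => if i.1 + 1 + e = e' then (1 : Ω) else 0) :
      Polynomial Ω) : PowerSeries Ω) - PowerSeries.X ^ e ∈
      Ideal.span {(PowerSeries.X : PowerSeries Ω) ^ q} := by
    rw [Ideal.mem_span_singleton, PowerSeries.X_pow_dvd_iff]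
    intro k hk
    rw [map_sub, Polynomial.coeff_coe, Polynomial.coeff_reflect, Polynomial.revAt_le (by omega),
      PowerSeries.coeff_X_pow, linePoly, Polynomial.coeff_add, Polynomial.finsetSum_coeff,
      Finset.sum_eq_single (⟨e' - k - 1, by omega⟩ : Fin e')]
    · rw [Polynomial.coeff_C_mul_X_pow, if_pos (by simp; omega), Polynomial.coeff_one,
        if_neg (by omega)]
      by_cases hke : k = e
      · rw [if_pos (by simp; omega), if_pos hke]
        simp
      · rw [if_neg (by simp; omega), if_neg hke]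
        simp
    · intro j _ hj
      rw [Polynomial.coeff_C_mul_X_pow, if_neg]
      intro h
      exact hj (Fin.ext (by simp; omega))
    · simp
  have hcy : ∀ l, ((Polynomial.reflect (e' * w l) (curvePoly (fun l => e' * w l) p a l) :
      Polynomial Ω) : PowerSeries Ω) - y l ∈
      Ideal.span {(PowerSeries.X : PowerSeries Ω) ^ q} := by
    intro l
    have hel : e' ≤ e' * w l := Nat.le_mul_of_pos_right _ (hw l)
    rw [Ideal.mem_span_singleton, PowerSeries.X_pow_dvd_iff]
    intro k hk
    have hk1 : e' * w l - k - 1 < e' * w l := by omega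
    rw [map_sub, Polynomial.coeff_coe, Polynomial.coeff_reflect, Polynomial.revAt_le (by omega)]
    have h1 := curvePoly_coeff (fun l => e' * w l) p a l ⟨e' * w l - k - 1, hk1⟩
    have h2 := ha l ⟨e' * w l - k - 1, hk1⟩ k (by omega) (by simp; omega)
    have h3 : e' * w l - k - 1 + 1 = e' * w l - k := by omega
    simp only [h3] at h1
    rw [h1, h2, sub_self]
  have hcong := cyTaylor_congr w P (Ideal.span {(PowerSeries.X : PowerSeries Ω) ^ q}) _ _ hc0 _ _
    hcy
  rw [← hrefl, Ideal.mem_span_singleton] at hcong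
  have hdvd := dvd_add hcong hP
  rw [sub_add_cancel, PowerSeries.X_pow_dvd_iff] at hdvd
  have h5 := hdvd (e' * P.weightedTotalDegree w - n) (by omega)
  rw [Polynomial.coeff_coe, Polynomial.coeff_reflect, Polynomial.revAt_le (by omega),
    Nat.sub_sub_self hnd] at h5
  exact h5

end

end Pool.Agent.Lib.MP_410da7_ag
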