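import Pool.Agent.Lib.MP_410da7_ag.CYSystem
import Pool.Agent.Lib.MP_410da7_ag.CYTaylor

/-!
# The dimension count
-/

set_option autoImplicit false

namespace Pool.Agent.Lib.MP_410da7_ag

open MvPolynomial

theorem finrank_range_le_of_ker_le {k M V W : Type} [Field k] [AddCommGroup M] [Module k M]
    [AddCommGroup V] [Module k V] [AddCommGroup W] [Module k W] [FiniteDimensional k W]
    (A : M →ₗ[k] V) (B : M →ₗ[k] W) (h : LinearMap.ker B ≤ LinearMap.ker A) :
    Module.finrank k (LinearMap.range A) ≤ Module.finrank k (LinearMap.range B) := by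
  let A' : (M ⧸ LinearMap.ker B) →ₗ[k] V := (LinearMap.ker B).liftQ A h
  have h1 : LinearMap.range A = LinearMap.range A' := by
    rw [Submodule.range_liftQ]
  rw [h1]
  let e := B.quotKerEquivRange
  have : FiniteDimensional k (M ⧸ LinearMap.ker B) := Module.Finite.equiv e.symm
  calc Module.finrank k (LinearMap.range A') ≤ Module.finrank k (M ⧸ LinearMap.ker B) :=
        LinearMap.finrank_range_le A'
    _ = Module.finrank k (LinearMap.range B) := e.finrank_eq

theorem finrank_of_ker_le {k V W : Type} [Field k] [AddCommGroup V] [Module k V]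
    [FiniteDimensional k V] [AddCommGroup W] [Module k W] [FiniteDimensional k W]
    (pr : V →ₗ[k] W) (hpr : Function.Surjective pr) (R : Submodule k V)
    (h : LinearMap.ker pr ≤ R) :
    Module.finrank k R + Module.finrank k W =
      Module.finrank k (R.map pr) + Module.finrank k V := by
  have h1 := LinearMap.finrank_range_add_finrank_ker (pr.domRestrict R)
  have h2 := LinearMap.finrank_range_add_finrank_ker pr
  have h3 : LinearMap.range (pr.domRestrict R) = R.map pr := LinearMap.range_domRestrict _ _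
  have h4 : Module.finrank k (LinearMap.ker (pr.domRestrict R)) =
      Module.finrank k (LinearMap.ker pr) := by
    rw [LinearMap.ker_domRestrict]
    exact (Submodule.comapSubtypeEquivOfLe h).finrank_eq
  rw [h3, h4] at h1
  rw [LinearMap.range_eq_top.2 hpr, finrank_top] at h2
  omega

theorem count_core {N : ℕ} {κ : Type} [Fintype κ] (F : κ → MvPolynomial (Fin N) ℂ)
    (w : Fin N → ℕ) (hw : ∀ l, 0 < w l) (m e : ℕ) (hem : e < m)
    {L : Type} [Field L] [IsAlgClosed L] [Algebra ℂ L] (p : Fin N → L)
    (hno : ∀ γ : Fin N → Polynomial L, (∀ l, (γ l).eval 0 = p l) →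
      (∀ l, (γ l).natDegree ≤ m * w l) →
      (∀ k, aeval γ (F k) = Polynomial.C (aeval p (F k))) → ∀ l, (γ l).natDegree = 0)
    {Ω : Type} [Field Ω] [Algebra ℂ Ω] [Algebra L Ω] [IsScalarTower ℂ L Ω]
    (q : κ → ℕ) (hq : ∀ k, q k ≤ m) (y : Fin N → PowerSeries Ω)
    (hy : ∀ k, PowerSeries.X ^ (q k) ∣ hev w (F k) (PowerSeries.X ^ e) y)
    {P : Type} (D : P → Derivation L Ω Ω) (ζ : (Σ l : Fin N, Fin (m * w l)) → Ω)
    (Dz : (Σ l : Fin N, Fin (m * w l)) → Derivation L Ω Ω)
    (hζ : ∀ z z', Dz z (ζ z') = if z = z' then 1 else 0) (hDζ : ∀ i z, D i (ζ z) = 0)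
    (hy0 : ∀ z l n, Dz z (PowerSeries.coeff n (y l)) = 0) :
    Module.finrank Ω (Submodule.span Ω (Set.range fun i : P => fun l : Fin N × Fin m =>
      D i (PowerSeries.coeff l.2.1 (y l.1)))) + ∑ l, m * w l ≤
      N * m + ∑ k, (m * (F k).weightedTotalDegree w - q k) := by
  classical
  have hmw : ∀ l, m ≤ m * w l := fun l => Nat.le_mul_of_pos_right m (hw l)
  let Zt := Σ l : Fin N, Fin (m * w l)
  let a : Zt → Ω := fun z => if z.2.1 + 1 + m ≤ m * w z.1 then ζ z else
    PowerSeries.coeff (m * w z.1 - 1 - z.2.1) (y z.1)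
  let b : Fin m → Ω := fun i => if i.1 + 1 + e = m then 1 else 0
  let E : κ → ℕ → Ω := fun k n => (hev w (F k) (linePoly m b)
      (curvePoly (fun l => m * w l) (fun l => algebraMap L Ω (p l)) a)).coeff (n + 1)
  have hE0 : ∀ k n, m * (F k).weightedTotalDegree w < n + 1 + q k → E k n = 0 := by
    intro k n hn
    refine coeff_top w hw (F k) hem le_rfl (hq k) _ a y ?_ (hy k) (n + 1) hn
    intro l i n' hn' hi
    have h1 : ¬ (i.1 + 1 + m ≤ m * w l) := by omega
    simp only [a, if_neg h1]
    congr 2
    omega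
  let D' : P ⊕ Zt → Derivation L Ω Ω := Sum.elim D Dz
  let Et := Σ k : κ, Fin (m * (F k).weightedTotalDegree w - q k)
  let A : ((P ⊕ Zt) →₀ Ω) →ₗ[Ω] (Zt → Ω) :=
    Finsupp.linearCombination Ω (fun i z => D' i (a z))
  let B : ((P ⊕ Zt) →₀ Ω) →ₗ[Ω] (Et → Ω) :=
    Finsupp.linearCombination Ω (fun i t => D' i (E t.1 t.2.1))
  have hker : LinearMap.ker B ≤ LinearMap.ker A := by
    intro c hc
    rw [LinearMap.mem_ker] at hc ⊢
    let Dc : Derivation L Ω Ω := ∑ i ∈ c.support, c i • D' i
    have hDc : ∀ x, Dc x = ∑ i ∈ c.support, c i * D' i x := by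
      intro x
      simp only [Dc]
      rw [← Derivation.coeFnAddMonoidHom_apply, map_sum, Finset.sum_apply]
      rfl
    have hA : ∀ z, A c z = Dc (a z) := by
      intro z
      simp only [A, Finsupp.linearCombination_apply, Finsupp.sum, Finset.sum_apply,
        Pi.smul_apply, smul_eq_mul, hDc]
    have hB : ∀ t, B c t = Dc (E t.1 t.2.1) := by
      intro z
      simp only [B, Finsupp.linearCombination_apply, Finsupp.sum, Finset.sum_apply,
        Pi.smul_apply, smul_eq_mul, hDc]
    funext z
    rw [hA]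
    refine der_system F w m p hno Dc b a ?_ ?_ z
    · intro i
      simp only [b]
      split_ifs
      · exact Dc.map_one_eq_zero
      · exact map_zero _
    · intro k n
      by_cases hn : n + 1 + q k ≤ m * (F k).weightedTotalDegree w
      · have := hB ⟨k, ⟨n, by omega⟩⟩
        rw [hc] at this
        exact this.symm
      · have h0 : E k n = 0 := hE0 k n (by omega)
        change Dc (E k n) = 0
        rw [h0, map_zero]
  have hup : Module.finrank Ω (LinearMap.range A) ≤
      ∑ k, (m * (F k).weightedTotalDegree w - q k) := by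
    refine (finrank_range_le_of_ker_le A B hker).trans ((Submodule.finrank_le _).trans ?_)
    rw [Module.finrank_fintype_fun_eq_card, Fintype.card_sigma]
    simp
  -- projection to the top coefficients
  let ix : Fin N × Fin m → Zt := fun l => ⟨l.1, ⟨m * w l.1 - 1 - l.2.1, by
    have := hmw l.1; have := l.2.2; omega⟩⟩
  have hix : Function.Injective ix := by
    rintro ⟨l, n⟩ ⟨l', n'⟩ h
    have h1 : l = l' := congrArg Sigma.fst h
    subst h1
    have h2 := eq_of_heq (Sigma.mk.inj h).2
    have h3 : m * w l - 1 - n.1 = m * w l - 1 - n'.1 := congrArg Fin.val h2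
    have := hmw l; have := n.2; have := n'.2
    have h4 : n = n' := Fin.ext (by omega)
    rw [h4]
  let pr : (Zt → Ω) →ₗ[Ω] (Fin N × Fin m → Ω) := LinearMap.funLeft Ω Ω ix
  have hpr : Function.Surjective pr := LinearMap.funLeft_surjective_of_injective Ω Ω ix hix
  have haix : ∀ l, a (ix l) = PowerSeries.coeff l.2.1 (y l.1) := by
    intro l
    have := hmw l.1
    have hn := l.2.2
    have h1 : ¬ ((ix l).2.1 + 1 + m ≤ m * w (ix l).1) := by
      change ¬ (m * w l.1 - 1 - l.2.1 + 1 + m ≤ m * w l.1)
      omega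
    simp only [a, if_neg h1]
    change PowerSeries.coeff (m * w l.1 - 1 - (m * w l.1 - 1 - l.2.1)) (y l.1) = _
    congr 2
    omega
  have hlow : ∀ z : Zt, (∀ l, z ≠ ix l) → z.2.1 + 1 + m ≤ m * w z.1 := by
    rintro ⟨l, i⟩ hz
    by_contra h
    have hi := i.2
    have h' : ¬ (i.1 + 1 + m ≤ m * w l) := h
    refine hz (l, ⟨m * w l - 1 - i.1, by omega⟩) (Sigma.ext rfl (heq_of_eq (Fin.ext ?_)))
    change i.1 = m * w l - 1 - (m * w l - 1 - i.1)
    omega
  have hAz : ∀ z : Zt, (∀ l, z ≠ ix l) → A (Finsupp.single (Sum.inr z) 1) = Pi.single z 1 := by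
    intro z hz
    funext z'
    simp only [A, Finsupp.linearCombination_single, one_smul, D', Sum.elim_inr]
    by_cases hz' : z'.2.1 + 1 + m ≤ m * w z'.1
    · simp only [a, if_pos hz', hζ, Pi.single_apply, eq_comm]
    · simp only [a, if_neg hz', hy0]
      have : z' ≠ z := by
        rintro rfl
        exact hz' (hlow _ hz)
      rw [Pi.single_eq_of_ne this]
  have hkerR : LinearMap.ker pr ≤ LinearMap.range A := by
    intro u hu
    rw [LinearMap.mem_ker] at hu
    have hu' : ∀ l, u (ix l) = 0 := fun l => congrFun hu l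
    have hsum : u = ∑ z, u z • (Pi.single z 1 : Zt → Ω) := by
      funext z'
      rw [Finset.sum_apply, Finset.sum_eq_single z']
      · simp
      · intro z _ hz
        rw [Pi.smul_apply, Pi.single_eq_of_ne hz.symm, smul_zero]
      · intro h
        exact absurd (Finset.mem_univ _) h
    rw [hsum]
    refine Submodule.sum_mem _ fun z _ => ?_
    by_cases hz : ∀ l, z ≠ ix l
    · exact Submodule.smul_mem _ _ ⟨_, hAz z hz⟩
    · push Not at hz
      obtain ⟨l, rfl⟩ := hz
      rw [hu', zero_smul]
      exact Submodule.zero_mem _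
  have hfr := finrank_of_ker_le pr hpr (LinearMap.range A) hkerR
  rw [Module.finrank_fintype_fun_eq_card, Module.finrank_fintype_fun_eq_card, Fintype.card_prod,
    Fintype.card_fin, Fintype.card_fin, Fintype.card_sigma] at hfr
  simp only [Fintype.card_fin] at hfr
  have hspan : Submodule.span Ω (Set.range fun i : P => fun l : Fin N × Fin m =>
      D i (PowerSeries.coeff l.2.1 (y l.1))) ≤ (LinearMap.range A).map pr := by
    rw [Submodule.span_le]
    rintro _ ⟨i, rfl⟩
    refine ⟨A (Finsupp.single (Sum.inl i) 1), ⟨_, rfl⟩, ?_⟩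
    funext l
    simp only [pr, LinearMap.funLeft_apply, A, Finsupp.linearCombination_single, one_smul, D',
      Sum.elim_inl, haix]
  have hfs := Submodule.finrank_mono hspan
  omega

end Pool.Agent.Lib.MP_410da7_ag
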