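import Pool.Agent.Lib.MP_410da7_ag.CYDet

/-!
# No curve through a point gives a contradiction
-/

set_option autoImplicit false

namespace Pool.Agent.Lib.MP_410da7_ag

open MvPolynomial WithZero

section

variable {Ω : Type} [Field Ω]

theorem aeval_comp_hom {N : ℕ} {K M : Type} [Field K] [Algebra ℂ K] [CommRing M] [Algebra ℂ M]
    (φ : K →ₐ[ℂ] M) (x : Fin N → K) (P : MvPolynomial (Fin N) ℂ) :
    aeval (fun l => φ (x l)) P = φ (aeval x P) := by
  have : aeval (fun l => φ (x l)) = φ.comp (aeval x) := by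
    ext l
    simp
  rw [this]
  rfl

theorem count_contra {N r s d : ℕ} (f : Fin r → MvPolynomial (Fin N) ℂ)
    (g : Fin s → MvPolynomial (Fin N) ℂ) (w : Fin N → ℕ) (hw : ∀ l, 0 < w l)
    (hle : ∑ k, (f k).weightedTotalDegree w + ∑ j, (g j).weightedTotalDegree w ≤ ∑ l, w l)
    (hf1 : ∀ k, 0 < (f k).weightedTotalDegree w)
    {K : Type} [Field K] [Algebra ℂ K] (x : Fin N → K) (H3 : ∀ k, aeval x (f k) = 0)
    (H3g : ∀ j, aeval x (g j) ≠ 0)
    (v : Valuation K ℤᵐ⁰) (i0 : Fin d) (ξ : Fin d → K) (hξ : IsTranscendenceBasis ℂ ξ)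
    (h1 : v (ξ i0) < 1) (ν : K → ℤ) (hν : ∀ a : K, a ≠ 0 → v a = v (ξ i0) ^ ν a)
    (h3 : ∀ P : MvPolynomial {i // i ≠ i0} ℂ, P ≠ 0 →
      v (aeval (fun i : {i // i ≠ i0} => ξ i) P) = 1)
    (δ : Fin d → Derivation ℂ K K) (hδ : ∀ i j, δ i (ξ j) = if i = j then 1 else 0)
    (σ : Fin r ⊕ Fin d ≃ Fin N) (s' : Fin r → Fin N → K)
    (hs : ∀ k k', ∑ l, aeval x (pderiv l (f k)) * s' k' l = if k = k' then 1 else 0)
    (S : Matrix (Fin r ⊕ Fin d) (Fin r ⊕ Fin d) K)
    (hS : S = Matrix.of fun i j => Sum.elim s' (fun i l => δ i (x l)) i (σ j))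
    (hS0 : S.det ≠ 0)
    (e C2 jj m : ℕ) (hm : m = 2 * jj) (D1 : ℤ)
    (c1 : ∀ l, x l ≠ 0 → 0 ≤ (e : ℤ) * w l + ν (x l))
    (c2 : ∀ k l, s' k l ≠ 0 → 0 ≤ (C2 : ℤ) - e * ((f k).weightedTotalDegree w : ℕ) + ν (s' k l))
    (c3 : ∀ i k l, δ i (s' k l) ≠ 0 →
      0 ≤ (C2 : ℤ) - e * ((f k).weightedTotalDegree w : ℕ) + ν (δ i (s' k l)))
    (c4 : C2 ≤ jj)
    (hD1 : D1 = e * ∑ l, (w l : ℤ) + 1 + r * C2 - e * ∑ k, (((f k).weightedTotalDegree w : ℕ) : ℤ)
      + ν S.det)
    (c5 : D1 + C2 < m) (c6 : e < m)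
    (c7 : ∀ j, (e : ℤ) * ((g j).weightedTotalDegree w : ℕ) + ν (aeval x (g j)) ≤ jj)
    (c8 : ∀ j, (e : ℤ) * ((g j).weightedTotalDegree w : ℕ) + ν (aeval x (g j)) ≤
      m * ((g j).weightedTotalDegree w : ℕ))
    (hbad : ν S.det + 2 ≤ ∑ j, ν (aeval x (g j)))
    {L : Type} [Field L] [IsAlgClosed L] [Algebra ℂ L] (p : Fin N → L)
    (hno : ∀ γ : Fin N → Polynomial L, (∀ l, (γ l).eval 0 = p l) →
      (∀ l, (γ l).natDegree ≤ m * w l) →
      (∀ k, aeval γ (f k) = Polynomial.C (aeval p (f k))) →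
      (∀ j, aeval γ (g j) = Polynomial.C (aeval p (g j))) → ∀ l, (γ l).natDegree = 0) :
    False := by
  classical
  obtain ⟨Ω, iF, iC, iL, iT, φ, θ, ζ, D, Δ, hΔ, hΔm, hord, hΔφ, hΔφ0, hΔθ0, hΔθ, hΔθz,
    hDz, hDζ, hDζ'⟩ := exists_arcs v i0 ξ hξ h1 (fun a ha => ⟨ν a, hν a ha⟩) h3 δ hδ L r
      (Σ l : Fin N, Fin (m * w l))
  have hφ0 : ∀ a, φ a ≠ 0 → a ≠ 0 := fun a ha h => ha (by rw [h, map_zero])
  have hφinj : ∀ a, a ≠ 0 → φ a ≠ 0 := fun a ha h => ha ((map_eq_zero φ).1 h)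
  have hord' : ∀ a, a ≠ 0 → (φ a).order = ν a := fun a ha => hord a (ν a) ha (hν a ha)
  have hps : ∀ (a : K) (q : ℤ) (j : ℕ), (a ≠ 0 → (j : ℤ) ≤ q + ν a) →
      ∃ Y : PowerSeries Ω, (Y : LaurentSeries Ω) = uu Ω ^ q * φ a ∧ PowerSeries.X ^ j ∣ Y := by
    intro a q j h
    refine exists_ps_dvd (φ a) q j fun ha => ?_
    rw [hord' a (hφ0 a ha)]
    exact h (hφ0 a ha)
  let df : Fin r → ℕ := fun k => (f k).weightedTotalDegree w
  -- the arcs
  have hy0 : ∀ l, ∃ Y : PowerSeries Ω, (Y : LaurentSeries Ω) = uu Ω ^ ((e : ℤ) * w l) * φ (x l) := by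
    intro l
    obtain ⟨Y, hY, -⟩ := hps (x l) ((e : ℤ) * w l) 0 (by simpa using c1 l)
    exact ⟨Y, hY⟩
  choose y0 hy0 using hy0
  have hhh : ∀ k l, ∃ Y : PowerSeries Ω, (Y : LaurentSeries Ω) =
      uu Ω ^ ((m : ℤ) + e * w l - e * df k) * φ (s' k l) ∧ PowerSeries.X ^ jj ∣ Y := by
    intro k l
    refine hps _ _ _ fun h => ?_
    have h4 := c2 k l h
    have h5 : (0 : ℤ) ≤ (e : ℤ) * w l := by positivity
    simp only [df]
    push_cast [hm]
    omega
  choose hh hhe hhd using hhh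
  let y : Fin N → PowerSeries Ω := fun l => y0 l + ∑ k, θ k * hh k l
  have hhdvd : ∀ l, PowerSeries.X ^ jj ∣ ∑ k, θ k * hh k l := fun l =>
    Finset.dvd_sum fun k _ => Dvd.dvd.mul_left (hhd k l) _
  have hye : ∀ l, (y l : LaurentSeries Ω) = uu Ω ^ ((e : ℤ) * w l) * φ (x l) +
      ∑ k, (θ k : LaurentSeries Ω) * (uu Ω ^ ((m : ℤ) + e * w l - e * df k) * φ (s' k l)) := by
    intro l
    simp only [y, PowerSeries.coe_add, hy0]
    congr 1
    rw [map_sum]
    refine Finset.sum_congr rfl fun k _ => ?_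
    rw [PowerSeries.coe_mul, hhe]
  have hynat : ∀ l, (y0 l : LaurentSeries Ω) = uu Ω ^ (e * w l) * φ (x l) := by
    intro l
    rw [hy0, ← zpow_natCast]
    push_cast
    rfl
  have hyf : ∀ k, PowerSeries.X ^ m ∣ hev w (f k) (PowerSeries.X ^ e) y := by
    intro k
    refine hev_perturb w (f k) e m jj (le_of_eq hm) (fun l => φ (x l)) y0 hynat ?_ _ hhdvd (θ k) ?_
    · rw [aeval_comp_hom, H3, map_zero]
    · have h5 : ∀ l, aeval (fun l => φ (x l)) (pderiv l (f k)) *
          ((∑ k', θ k' * hh k' l : PowerSeries Ω) : LaurentSeries Ω) * (uu Ω ^ (e * w l))⁻¹ =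
          ∑ k', (θ k' : LaurentSeries Ω) * uu Ω ^ ((m : ℤ) - e * df k') *
            φ (aeval x (pderiv l (f k)) * s' k' l) := by
        intro l
        rw [aeval_comp_hom, map_sum, Finset.mul_sum, Finset.sum_mul]
        refine Finset.sum_congr rfl fun k' _ => ?_
        rw [PowerSeries.coe_mul, hhe, map_mul]
        have h6 : uu Ω ^ ((m : ℤ) + e * w l - e * df k') =
            uu Ω ^ ((m : ℤ) - e * df k') * uu Ω ^ (e * w l) := by
          rw [← zpow_natCast (uu Ω) (e * w l), ← zpow_add₀ uu_ne_zero]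
          congr 1
          push_cast
          ring
        rw [h6]
        have h7 : uu Ω ^ (e * w l) ≠ 0 := pow_ne_zero _ uu_ne_zero
        field_simp
      simp only [h5]
      rw [Finset.sum_comm]
      have h8 : ∀ k', ∑ l, (θ k' : LaurentSeries Ω) * uu Ω ^ ((m : ℤ) - e * df k') *
            φ (aeval x (pderiv l (f k)) * s' k' l) =
          if k = k' then (θ k' : LaurentSeries Ω) * uu Ω ^ ((m : ℤ) - e * df k') else 0 := by
        intro k'
        rw [← Finset.mul_sum, ← map_sum, hs k k']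
        split_ifs with h
        · rw [map_one, mul_one]
        · rw [map_zero, mul_zero]
      simp only [h8]
      rw [Finset.sum_ite_eq, if_pos (Finset.mem_univ _)]
      rw [← zpow_natCast (uu Ω) (e * _), ← zpow_natCast (uu Ω) m, mul_comm, mul_assoc,
        ← zpow_add₀ uu_ne_zero, mul_comm]
      congr 2
      push_cast
      ring
  let mg : Fin s → ℕ := fun j =>
    ((e : ℤ) * ((g j).weightedTotalDegree w : ℕ) + ν (aeval x (g j))).toNat
  have hyg : ∀ j, PowerSeries.X ^ (mg j) ∣ hev w (g j) (PowerSeries.X ^ e) y := by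
    intro j
    refine hev_perturb_dvd w (g j) _ (mg j) jj ?_ y0 _ hhdvd ?_
    · have := c7 j
      simp only [mg]
      omega
    · have h5 := hev_laurent w (g j) e (fun l => φ (x l)) y0 hynat
      rw [aeval_comp_hom] at h5
      by_cases hneg : (e : ℤ) * ((g j).weightedTotalDegree w : ℕ) + ν (aeval x (g j)) < 0
      · have : mg j = 0 := by simp only [mg]; omega
        rw [this, pow_zero]
        exact one_dvd _
      obtain ⟨Y, hY, hYd⟩ := hps (aeval x (g j)) ((e : ℤ) * ((g j).weightedTotalDegree w : ℕ)) (mg j)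
        (by intro _; simp only [mg]; omega)
      have h6 : hev w (g j) (PowerSeries.X ^ e) y0 = Y := by
        apply coe_inj
        rw [h5, hY, ← zpow_natCast]
        push_cast
        rfl
      rw [h6]
      exact hYd
  -- derivatives of the arcs
  have hΔu : ∀ p' (q : ℤ), Δ p' (uu Ω ^ q) = 0 := fun p' q => Δ_uu (D p') (Δ p') (hΔ p') q
  have hΔz : ∀ z l, Δ (Sum.inr (Sum.inr z)) (y l : LaurentSeries Ω) = 0 := by
    intro z l
    rw [hye, map_add, map_sum, hΔm, hΔφ0, hΔu, mul_zero, mul_zero, add_zero, zero_add]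
    refine Finset.sum_eq_zero fun k _ => ?_
    rw [hΔm, hΔm, hΔφ0, hΔu, hΔθz]
    simp
  have hΔk : ∀ k j l, Δ (Sum.inr (Sum.inl (k, j))) (y l : LaurentSeries Ω) =
      ((PowerSeries.X ^ j * hh k l : PowerSeries Ω) : LaurentSeries Ω) := by
    intro k j l
    rw [hye, map_add, map_sum, hΔm, hΔφ0, hΔu, mul_zero, mul_zero, add_zero, zero_add,
      Finset.sum_eq_single k]
    · rw [hΔm, hΔm, hΔφ0, hΔu, hΔθ, if_pos rfl, PowerSeries.coe_mul, PowerSeries.coe_pow, coe_X,
        hhe]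
      ring
    · intro k' _ hk'
      rw [hΔm, hΔm, hΔφ0, hΔu, hΔθ, if_neg hk'.symm]
      ring
    · simp
  have hΔi : ∀ i j l, Δ (Sum.inl (i, j)) (y l : LaurentSeries Ω) =
      uu Ω ^ (j + if i = i0 then 1 else 0) * (uu Ω ^ ((e : ℤ) * w l) * φ (δ i (x l)) +
        ∑ k, (θ k : LaurentSeries Ω) *
          (uu Ω ^ ((m : ℤ) + e * w l - e * df k) * φ (δ i (s' k l)))) := by
    intro i j l
    rw [hye, map_add, map_sum, hΔm, hΔφ, hΔu, mul_add, Finset.mul_sum]
    congr 1
    · ring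
    · refine Finset.sum_congr rfl fun k _ => ?_
      rw [hΔm, hΔm, hΔφ, hΔu, hΔθ0]
      ring
  let lam : Fin d → Fin N → PowerSeries Ω := fun i l => pder (D (Sum.inl (i, 0))) (y l)
  have hlam : ∀ i l, ((lam i l : PowerSeries Ω) : LaurentSeries Ω) =
      Δ (Sum.inl (i, 0)) (y l : LaurentSeries Ω) := fun i l =>
    coe_pder (D (Sum.inl (i, 0))) (Δ (Sum.inl (i, 0))) (hΔ _) (y l)
  have hΔi' : ∀ i j l, Δ (Sum.inl (i, j)) (y l : LaurentSeries Ω) =
      ((PowerSeries.X ^ j * lam i l : PowerSeries Ω) : LaurentSeries Ω) := by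
    intro i j l
    rw [PowerSeries.coe_mul, PowerSeries.coe_pow, coe_X, hlam, hΔi, hΔi, ← mul_assoc, ← pow_add,
      zero_add]
  let C : Fin r ⊕ Fin d → Fin N → PowerSeries Ω := Sum.elim hh lam
  -- the determinant
  have hh1 : ∀ k l, ∃ Y : PowerSeries Ω, (Y : LaurentSeries Ω) =
      uu Ω ^ ((C2 : ℤ) + e * w l - e * df k) * φ (s' k l) := by
    intro k l
    obtain ⟨Y, hY, -⟩ := hps (s' k l) ((C2 : ℤ) + e * w l - e * df k) 0 (by
      intro h
      have h4 := c2 k l h
      have h5 : (0 : ℤ) ≤ (e : ℤ) * w l := by positivity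
      simp only [df]
      push_cast
      omega)
    exact ⟨Y, hY⟩
  choose hh1 hhe1 using hh1
  have hh2 : ∀ i k l, ∃ Y : PowerSeries Ω, (Y : LaurentSeries Ω) =
      uu Ω ^ ((C2 : ℤ) + e * w l - e * df k) * φ (δ i (s' k l)) := by
    intro i k l
    obtain ⟨Y, hY, -⟩ := hps (δ i (s' k l)) ((C2 : ℤ) + e * w l - e * df k) 0 (by
      intro h
      have h4 := c3 i k l h
      have h5 : (0 : ℤ) ≤ (e : ℤ) * w l := by positivity
      simp only [df]
      push_cast
      omega)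
    exact ⟨Y, hY⟩
  choose hh2 hhe2 using hh2
  let lam0 : Fin d → Fin N → PowerSeries Ω := fun i l => pder (D (Sum.inl (i, 0))) (y0 l)
  have hlam0 : ∀ i l, ((lam0 i l : PowerSeries Ω) : LaurentSeries Ω) =
      uu Ω ^ (if i = i0 then 1 else 0 : ℕ) * (uu Ω ^ ((e : ℤ) * w l) * φ (δ i (x l))) := by
    intro i l
    rw [coe_pder (D (Sum.inl (i, 0))) (Δ (Sum.inl (i, 0))) (hΔ _) (y0 l), hy0, hΔm, hΔφ, hΔu]
    simp only [zero_add]
    ring
  let M1 : Matrix (Fin r ⊕ Fin d) (Fin r ⊕ Fin d) (PowerSeries Ω) :=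
    Matrix.of fun a b => Sum.elim hh1 lam0 a (σ b)
  let M1' : Matrix (Fin r ⊕ Fin d) (Fin r ⊕ Fin d) (PowerSeries Ω) :=
    Matrix.of fun a b => Sum.elim hh1 lam a (σ b)
  let α : Fin r ⊕ Fin d → ℤ := Sum.elim (fun k => (C2 : ℤ) - e * df k)
    (fun i => if i = i0 then 1 else 0)
  let β : Fin r ⊕ Fin d → ℤ := fun b => (e : ℤ) * w (σ b)
  have hM1 : ((M1.det : PowerSeries Ω) : LaurentSeries Ω) =
      uu Ω ^ (∑ i, α i + ∑ j, β j) * φ S.det := by
    refine coe_det_scaled φ S M1 α β ?_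
    intro a b
    rcases a with k | i
    · simp only [M1, Matrix.of_apply, Sum.elim_inl, α, β, hhe1, hS]
      congr 2
      ring
    · simp only [M1, Matrix.of_apply, Sum.elim_inr, α, β, hlam0, hS]
      rw [← mul_assoc, ← zpow_natCast, ← zpow_add₀ uu_ne_zero]
      congr 3
      split_ifs <;> simp
  have hαβ : ∑ i, α i + ∑ j, β j + ν S.det = D1 := by
    have e1 : ∑ i, α i = r * C2 - e * ∑ k, (df k : ℤ) + 1 := by
      rw [Fintype.sum_sum_type]
      simp only [α, Sum.elim_inl, Sum.elim_inr, Finset.sum_sub_distrib, Finset.sum_const,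
        Finset.card_univ, Fintype.card_fin, nsmul_eq_mul, ← Finset.mul_sum,
        Finset.sum_ite_eq', Finset.mem_univ, if_true]
    have e2 : ∑ j, β j = e * ∑ l, (w l : ℤ) := by
      simp only [β, ← Finset.mul_sum]
      rw [Equiv.sum_comp σ (fun l => (w l : ℤ))]
    rw [e1, e2, hD1]
    ring
  obtain ⟨D1n, hD1n, hcoef⟩ := coeff_ne_of_coe_eq (hφinj _ hS0) _ hM1
  rw [hord' _ hS0, hαβ] at hD1n
  have hcoef' : PowerSeries.coeff D1n M1'.det ≠ 0 := by
    refine det_congr M1 M1' (m - C2) D1n hcoef (by omega) ?_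
    intro a b
    rcases a with k | i
    · simp [M1, M1']
    · simp only [M1, M1', Matrix.of_apply, Sum.elim_inr]
      have h9 : lam i (σ b) - lam0 i (σ b) = PowerSeries.X ^ (m - C2) *
          (PowerSeries.X ^ (if i = i0 then 1 else 0 : ℕ) * ∑ k, θ k * hh2 i k (σ b)) := by
        apply coe_inj
        rw [PowerSeries.coe_sub, hlam, hlam0, hΔi, PowerSeries.coe_mul, PowerSeries.coe_mul,
          map_sum, PowerSeries.coe_pow, PowerSeries.coe_pow, coe_X, zero_add]
        have h10 : ∀ k, ((θ k * hh2 i k (σ b) : PowerSeries Ω) : LaurentSeries Ω) =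
            (θ k : LaurentSeries Ω) *
              (uu Ω ^ ((C2 : ℤ) + e * w (σ b) - e * df k) * φ (δ i (s' k (σ b)))) := by
          intro k
          rw [PowerSeries.coe_mul, hhe2]
        simp only [h10]
        have h11 : ∀ k, uu Ω ^ ((m : ℤ) + e * w (σ b) - e * df k) =
            uu Ω ^ (m - C2) * uu Ω ^ ((C2 : ℤ) + e * w (σ b) - e * df k) := by
          intro k
          rw [← zpow_natCast (uu Ω) (m - C2), ← zpow_add₀ uu_ne_zero]
          congr 1
          have : C2 ≤ m := by omega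
          push_cast [this]
          ring
        simp only [h11]
        rw [mul_add, add_sub_cancel_left, Finset.mul_sum, Finset.mul_sum, Finset.mul_sum]
        refine Finset.sum_congr rfl fun k _ => ?_
        ring
      rw [h9]
      exact dvd_mul_right _ _
  -- the big matrix
  have hhX : ∀ k l, hh k l = PowerSeries.X ^ (m - C2) * hh1 k l := by
    intro k l
    apply coe_inj
    rw [hhe, PowerSeries.coe_mul, PowerSeries.coe_pow, coe_X, hhe1, ← mul_assoc,
      ← zpow_natCast (uu Ω) (m - C2), ← zpow_add₀ uu_ne_zero]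
    congr 2
    have : C2 ≤ m := by omega
    push_cast [this]
    ring
  have hdetC : (Matrix.of fun a b => C a (σ b)).det =
      PowerSeries.X ^ (r * (m - C2)) * M1'.det := by
    have h12 : (Matrix.of fun a b => C a (σ b)) =
        Matrix.of fun a b => (Sum.elim (fun _ => PowerSeries.X ^ (m - C2)) (fun _ => 1) :
          Fin r ⊕ Fin d → PowerSeries Ω) a * M1' a b := by
      ext1 a b
      rcases a with k | i
      · simp only [C, M1', Matrix.of_apply, Sum.elim_inl, hhX]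
      · simp only [C, M1', Matrix.of_apply, Sum.elim_inr, one_mul]
    rw [h12, Matrix.det_mul_column, Fintype.prod_sum_type]
    simp only [Sum.elim_inl, Sum.elim_inr, Finset.prod_const, Finset.card_univ,
      Fintype.card_fin, one_pow, mul_one, ← pow_mul]
    rw [mul_comm (m - C2) r]
  have hcoefC : PowerSeries.coeff (D1n + r * (m - C2)) (Matrix.of fun a b => C a (σ b)).det ≠ 0 := by
    rw [hdetC, mul_comm (PowerSeries.X ^ _) _, PowerSeries.coeff_mul_X_pow]
    exact hcoef'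
  obtain ⟨δt, hδt, hδle⟩ := order_le_of_coeff_ne hcoefC
  have hlat := lattice_finrank σ C δt m (by
    rw [← hδt]
    congr 1
    have h13 : (Matrix.of fun i l => C (σ.symm i) l) =
        (Matrix.of fun a b => C a (σ b)).submatrix σ.symm σ.symm := by
      ext1 i l
      simp
    rw [h13, Matrix.det_submatrix_equiv_self])
  rw [Fintype.card_fin] at hlat
  -- the upper bound
  let Dp : (Fin r ⊕ Fin d) × ℕ → Derivation L Ω Ω := fun q =>
    Sum.elim (fun k => D (Sum.inr (Sum.inl (k, q.2)))) (fun i => D (Sum.inl (i, q.2))) q.1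
  have hcore := count_core (Sum.elim f g) w hw m e c6 p (by
      intro γ hγ0 hγd hγ
      exact hno γ hγ0 hγd (fun k => hγ (Sum.inl k)) (fun j => hγ (Sum.inr j)))
    (Sum.elim (fun _ => m) mg) (by
      rintro (k | j)
      · exact le_rfl
      · have := c7 j
        simp only [Sum.elim_inr, mg]
        omega) y (by
      rintro (k | j)
      · exact hyf k
      · exact hyg j) Dp ζ (fun z => D (Sum.inr (Sum.inr z))) hDz (by
      rintro ⟨k | i, j⟩ z
      · exact hDζ' _ _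
      · exact hDζ _ _) (by
      intro z l n
      have h14 := hΔz z l
      rw [← coe_pder (D (Sum.inr (Sum.inr z))) (Δ _) (hΔ _)] at h14
      have h15 : pder (D (Sum.inr (Sum.inr z))) (y l) = 0 := by
        apply coe_inj
        rw [h14, PowerSeries.coe_zero]
      rw [← coeff_pder, h15, map_zero])
  have hfun : (fun q : (Fin r ⊕ Fin d) × ℕ => fun l : Fin N × Fin m =>
        PowerSeries.coeff l.2.1 (PowerSeries.X ^ q.2 * C q.1 l.1)) =
      fun i : (Fin r ⊕ Fin d) × ℕ => fun l : Fin N × Fin m =>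
        Dp i (PowerSeries.coeff l.2.1 (y l.1)) := by
    funext q l
    obtain ⟨k | i, j⟩ := q
    · have h16 := hΔk k j l.1
      rw [← coe_pder (D (Sum.inr (Sum.inl (k, j)))) (Δ _) (hΔ _)] at h16
      have h17 := coe_inj h16
      simp only [C, Dp, Sum.elim_inl]
      rw [← h17, coeff_pder]
    · have h16 := hΔi' i j l.1
      rw [← coe_pder (D (Sum.inl (i, j))) (Δ _) (hΔ _)] at h16
      have h17 := coe_inj h16
      simp only [C, Dp, Sum.elim_inr]
      rw [← h17, coeff_pder]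
  rw [hfun] at hlat
  -- final arithmetic
  have hfin : ∑ l, m * w l ≤ D1n + r * (m - C2) + (∑ k, (m * df k - m) +
      ∑ j, (m * (g j).weightedTotalDegree w - mg j)) := by
    rw [Fintype.sum_sum_type] at hcore
    simp only [Sum.elim_inl, Sum.elim_inr] at hcore
    simp only [df]
    omega
  have hz : (m : ℤ) * ∑ l, (w l : ℤ) ≤ D1 + r * ((m : ℤ) - C2) +
      (∑ k, ((m : ℤ) * df k - m) + ∑ j, ((m : ℤ) * ((g j).weightedTotalDegree w : ℕ) -
        ((e : ℤ) * ((g j).weightedTotalDegree w : ℕ) + ν (aeval x (g j))))) := by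
    have hC2m : C2 ≤ m := by omega
    have e1 : (∑ l, m * w l : ℕ) = (m : ℤ) * ∑ l, (w l : ℤ) := by
      push_cast
      rw [Finset.mul_sum]
    have e2 : ((∑ k, (m * df k - m) : ℕ) : ℤ) = ∑ k, ((m : ℤ) * df k - m) := by
      rw [Nat.cast_sum]
      refine Finset.sum_congr rfl fun k _ => ?_
      have : m ≤ m * df k := Nat.le_mul_of_pos_right m (hf1 k)
      push_cast [this]
      ring
    have e3 : ((∑ j, (m * (g j).weightedTotalDegree w - mg j) : ℕ) : ℤ) ≤
        ∑ j, ((m : ℤ) * ((g j).weightedTotalDegree w : ℕ) -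
        ((e : ℤ) * ((g j).weightedTotalDegree w : ℕ) + ν (aeval x (g j)))) := by
      rw [Nat.cast_sum]
      refine Finset.sum_le_sum fun j _ => ?_
      have h18 := c8 j
      have h20 : (m : ℤ) * ((g j).weightedTotalDegree w : ℕ) =
          ((m * (g j).weightedTotalDegree w : ℕ) : ℤ) := by push_cast; ring
      rw [h20]
      simp only [mg]
      omega
    have hfin' : ((∑ l, m * w l : ℕ) : ℤ) ≤ ((D1n + r * (m - C2) + (∑ k, (m * df k - m) +
      ∑ j, (m * (g j).weightedTotalDegree w - mg j)) : ℕ) : ℤ) := by exact_mod_cast hfin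
    rw [e1, Nat.cast_add, Nat.cast_add, Nat.cast_add, e2, hD1n, Nat.cast_mul,
      Nat.cast_sub hC2m] at hfin'
    linarith
  have hleZ : ∑ k, (df k : ℤ) + ∑ j, (((g j).weightedTotalDegree w : ℕ) : ℤ) ≤ ∑ l, (w l : ℤ) := by
    exact_mod_cast hle
  simp only [Finset.sum_sub_distrib, Finset.sum_add_distrib, ← Finset.mul_sum, Finset.sum_const,
    Finset.card_univ, Fintype.card_fin, nsmul_eq_mul] at hz
  have hD1' : D1 = e * ∑ l, (w l : ℤ) + 1 + r * C2 - e * ∑ k, (df k : ℤ) + ν S.det := hD1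
  have hme : (e : ℤ) ≤ m := by exact_mod_cast c6.le
  nlinarith [mul_nonneg (sub_nonneg.2 hme) (sub_nonneg.2 hleZ)]

end

end Pool.Agent.Lib.MP_410da7_ag
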