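import Mathlib

set_option autoImplicit false

namespace Pool.Agent.Lib.MP_410da7_ag

open MvPolynomial KaehlerDifferential

/-- In characteristic zero, the differentials of a transcendence basis form a basis of the
differentials. -/
theorem exists_kaehlerBasis {K : Type} [Field K] [Algebra ℂ K] {ι : Type}
    (x : ι → K) (hx : IsTranscendenceBasis ℂ x) :
    ∃ b : Module.Basis ι K Ω[K⁄ℂ], ∀ i, b i = D ℂ K (x i) := by
  classical
  letI : Algebra (MvPolynomial ι ℂ) K := (aeval x).toAlgebra
  haveI : IsScalarTower ℂ (MvPolynomial ι ℂ) K :=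
    IsScalarTower.of_algebraMap_eq fun c => by
      change _ = aeval x (algebraMap ℂ (MvPolynomial ι ℂ) c)
      rw [AlgHom.commutes]
  have hinj : Function.Injective (algebraMap (MvPolynomial ι ℂ) K) := hx.1
  haveI : FaithfulSMul (MvPolynomial ι ℂ) K := (faithfulSMul_iff_algebraMap_injective _ _).2 hinj
  letI : Algebra (FractionRing (MvPolynomial ι ℂ)) K := FractionRing.liftAlgebra _ _
  haveI : IsScalarTower (MvPolynomial ι ℂ) (FractionRing (MvPolynomial ι ℂ)) K :=
    FractionRing.isScalarTower_liftAlgebra _ _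
  haveI : Algebra.IsAlgebraic (MvPolynomial ι ℂ) K := by
    have h1 := hx.isAlgebraic
    letI e : MvPolynomial ι ℂ ≃ₐ[ℂ] Algebra.adjoin ℂ (Set.range x) := hx.1.aevalEquiv
    letI : Algebra (MvPolynomial ι ℂ) (Algebra.adjoin ℂ (Set.range x)) := e.toRingHom.toAlgebra
    haveI : IsScalarTower (MvPolynomial ι ℂ) (Algebra.adjoin ℂ (Set.range x)) K := by
      refine IsScalarTower.of_algebraMap_eq fun c => ?_
      change aeval x c = ((e c : Algebra.adjoin ℂ (Set.range x)) : K)
      simp [e]
    haveI : Algebra.IsAlgebraic (MvPolynomial ι ℂ) (Algebra.adjoin ℂ (Set.range x)) := by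
      refine ⟨fun a => ?_⟩
      obtain ⟨b, rfl⟩ := e.surjective a
      exact isAlgebraic_algebraMap b
    exact Algebra.IsAlgebraic.trans (MvPolynomial ι ℂ) (Algebra.adjoin ℂ (Set.range x)) K
  haveI : Algebra.IsAlgebraic (FractionRing (MvPolynomial ι ℂ)) K :=
    Algebra.IsAlgebraic.extendScalars (R := MvPolynomial ι ℂ)
      (IsFractionRing.injective (MvPolynomial ι ℂ) (FractionRing (MvPolynomial ι ℂ)))
  haveI : CharZero (FractionRing (MvPolynomial ι ℂ)) := by infer_instance
  haveI : Algebra.FormallyEtale (FractionRing (MvPolynomial ι ℂ)) K :=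
    Algebra.FormallyEtale.of_isSeparable _ _
  haveI : Algebra.FormallyEtale (MvPolynomial ι ℂ) (FractionRing (MvPolynomial ι ℂ)) :=
    .of_isLocalization (nonZeroDivisors _)
  haveI : Algebra.FormallyEtale (MvPolynomial ι ℂ) K :=
    .comp _ (FractionRing (MvPolynomial ι ℂ)) _
  let e := KaehlerDifferential.tensorKaehlerEquivOfFormallyEtale ℂ (MvPolynomial ι ℂ) K
  let b0 := (KaehlerDifferential.mvPolynomialBasis ℂ ι).baseChange K
  refine ⟨b0.map e, fun i => ?_⟩
  have h3 : algebraMap (MvPolynomial ι ℂ) K (X i) = x i := by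
    change aeval x (X i) = x i
    simp
  simp only [b0, e, Module.Basis.map_apply, Module.Basis.baseChange_apply,
    KaehlerDifferential.tensorKaehlerEquivOfFormallyEtale_apply,
    KaehlerDifferential.mapBaseChange_tmul, KaehlerDifferential.mvPolynomialBasis_apply,
    KaehlerDifferential.map_D, one_smul, h3]

/-- A derivation on a domain with values in a vector space over its fraction field factors through
the differentials of the fraction field. -/
theorem exists_linear_ext {S M V : Type} [CommRing S] [IsDomain S] [Algebra ℂ S] [Field M]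
    [Algebra ℂ M] [Algebra S M] [IsScalarTower ℂ S M] [IsFractionRing S M]
    [AddCommGroup V] [Module ℂ V] [Module S V] [Module M V] [IsScalarTower S M V]
    [IsScalarTower ℂ S V]
    (δ : Derivation ℂ S V) :
    ∃ ℓ : Ω[M⁄ℂ] →ₗ[M] V, ∀ s, ℓ (D ℂ M (algebraMap S M s)) = δ s := by
  haveI : Algebra.FormallyEtale S M := .of_isLocalization (nonZeroDivisors _)
  let e := KaehlerDifferential.tensorKaehlerEquivOfFormallyEtale ℂ S M
  refine ⟨(LinearMap.liftBaseChange M δ.liftKaehlerDifferential) ∘ₗ e.symm.toLinearMap,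
    fun s => ?_⟩
  simp only [LinearMap.comp_apply, LinearEquiv.coe_coe, e,
    KaehlerDifferential.tensorKaehlerEquivOfFormallyEtale_symm_D_algebraMap]
  simp

/-- Extension of a derivation to the fraction field. -/
theorem exists_derivation_ext {S M : Type} [CommRing S] [IsDomain S] [Algebra ℂ S] [Field M]
    [Algebra ℂ M] [Algebra S M] [IsScalarTower ℂ S M] [IsFractionRing S M]
    (δ : Derivation ℂ S S) :
    ∃ δ' : Derivation ℂ M M, ∀ s, δ' (algebraMap S M s) = algebraMap S M (δ s) := by
  obtain ⟨ℓ, hℓ⟩ := exists_linear_ext (M := M) ((Algebra.linearMap S M).compDer δ)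
  exact ⟨ℓ.compDer (D ℂ M), fun s => by simpa using hℓ s⟩

end Pool.Agent.Lib.MP_410da7_ag
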