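import Mathlib
import Pool.Agent.Lib.MP_410da7_ag.Kaehler

/-!
# Coefficientwise derivations of Laurent series, and the generic field
-/

set_option autoImplicit false

namespace Pool.Agent.Lib.MP_410da7_ag

open MvPolynomial

/-- Coefficientwise extension of a derivation to Laurent series. -/
theorem exists_laurentDer {L Ω : Type} [CommRing L] [Field Ω] [Algebra L Ω]
    (D : Derivation L Ω Ω) :
    ∃ Δ : LaurentSeries Ω →+ LaurentSeries Ω,
      (∀ (x : LaurentSeries Ω) (n : ℤ), (Δ x).coeff n = D (x.coeff n)) ∧
      ∀ x y : LaurentSeries Ω, Δ (x * y) = x * Δ y + y * Δ x := by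
  refine ⟨{ toFun := fun x => HahnSeries.map x D
            map_zero' := ?_
            map_add' := ?_ }, ?_, ?_⟩
  · ext n
    simp
  · intro x y
    ext n
    simp
  · intro x n
    rfl
  · intro x y
    change HahnSeries.map (x * y) D = x * HahnSeries.map y D + y * HahnSeries.map x D
    have hx : (HahnSeries.map x D).support ⊆ x.support := by
      intro n hn hx
      apply hn
      simp [hx]
    have hy : (HahnSeries.map y D).support ⊆ y.support := by
      intro n hn hy
      apply hn
      simp [hy]
    ext n
    rw [mul_comm y (HahnSeries.map x D), HahnSeries.coeff_add,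
      HahnSeries.coeff_mul_right' y.isPWO_support hy, HahnSeries.coeff_mul_left' x.isPWO_support hx,
      ← Finset.sum_add_distrib, HahnSeries.map_coeff, HahnSeries.coeff_mul, map_sum]
    refine Finset.sum_congr rfl fun ij _ => ?_
    rw [Derivation.leibniz, HahnSeries.map_coeff, HahnSeries.map_coeff, smul_eq_mul, smul_eq_mul]
    ring

theorem cyDer_sum_apply {K : Type} [Field K] [Algebra ℂ K] {ι : Type} [Fintype ι] {M : Type}
    [AddCommGroup M] [Module ℂ M] [Module K M] (f : ι → Derivation ℂ K M) (k : K) :
    (∑ i, f i) k = ∑ i, f i k := by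
  have h := map_sum (Derivation.coeFnAddMonoidHom (R := ℂ) (A := K) (M := M)) f Finset.univ
  have h2 := congrFun h k
  rw [Finset.sum_apply] at h2
  exact h2

/-- chain rule -/
theorem der_chain {K : Type} [Field K] [Algebra ℂ K] {ι : Type} [Fintype ι] [DecidableEq ι]
    (ξ : ι → K) (hξ : IsTranscendenceBasis ℂ ξ) (δ : ι → Derivation ℂ K K)
    (hδ : ∀ i j, δ i (ξ j) = if i = j then 1 else 0) {M : Type} [CommRing M] [Algebra ℂ M]
    (φ : K →ₐ[ℂ] M) (D : M →+ M) (hD : ∀ x y, D (x * y) = x * D y + y * D x)
    (hC : ∀ c : ℂ, D (algebraMap ℂ M c) = 0) (k : K) :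
    D (φ k) = ∑ i, φ (δ i k) * D (φ (ξ i)) := by
  obtain ⟨b, hb⟩ := exists_kaehlerBasis ξ hξ
  letI : Module K M := Module.compHom M φ.toRingHom
  have hsmul : ∀ (a : K) (m : M), a • m = φ a * m := fun _ _ => rfl
  haveI : IsScalarTower ℂ K M := by
    refine ⟨fun c a m => ?_⟩
    rw [hsmul, hsmul, map_smul, smul_mul_assoc]
  let D1 : Derivation ℂ K M :=
    { toFun := fun a => D (φ a)
      map_add' := fun a a' => by simp
      map_smul' := fun c a => by
        rw [Algebra.smul_def, map_mul, AlgHom.commutes, hD, hC, mul_zero, add_zero, RingHom.id_apply,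
          Algebra.smul_def]
      map_one_eq_zero' := by
        change D (φ 1) = 0
        have := hC 1
        rw [map_one] at this ⊢
        exact this
      leibniz' := fun a a' => by
        change D (φ (a * a')) = a • D (φ a') + a' • D (φ a)
        rw [map_mul, hD, hsmul, hsmul] }
  let D2 : Derivation ℂ K M :=
    ∑ i, (LinearMap.toSpanSingleton K M (D (φ (ξ i)))).compDer (δ i)
  have h12 : D1.liftKaehlerDifferential = D2.liftKaehlerDifferential := by
    refine b.ext fun i => ?_
    rw [hb, Derivation.liftKaehlerDifferential_comp_D, Derivation.liftKaehlerDifferential_comp_D]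
    change D (φ (ξ i)) = D2 (ξ i)
    simp only [D2]
    rw [cyDer_sum_apply, Finset.sum_eq_single i]
    · simp [hδ]
    · intro j _ hj
      simp [hδ, hj]
    · intro h
      exact absurd (Finset.mem_univ i) h
  have h3 : D1 k = D2 k := by
    rw [← Derivation.liftKaehlerDifferential_comp_D D1 k, h12,
      Derivation.liftKaehlerDifferential_comp_D]
  have h4 : D2 k = ∑ i, φ (δ i k) * D (φ (ξ i)) := by
    simp only [D2]
    rw [cyDer_sum_apply]
    rfl
  rw [← h4, ← h3]
  rfl

/-- In characteristic zero, the differentials of a transcendence basis form a basis of the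
differentials (over a general base field). -/
theorem cyDer_exists_kaehlerBasis {L : Type} [Field L] [CharZero L] {K : Type} [Field K]
    [Algebra L K] {ι : Type} (x : ι → K) (hx : IsTranscendenceBasis L x) :
    ∃ b : Module.Basis ι K Ω[K⁄L], ∀ i, b i = KaehlerDifferential.D L K (x i) := by
  classical
  letI : Algebra (MvPolynomial ι L) K := (aeval x).toAlgebra
  haveI : IsScalarTower L (MvPolynomial ι L) K :=
    IsScalarTower.of_algebraMap_eq fun c => by
      change _ = aeval x (algebraMap L (MvPolynomial ι L) c)
      rw [AlgHom.commutes]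
  have hinj : Function.Injective (algebraMap (MvPolynomial ι L) K) := hx.1
  haveI : FaithfulSMul (MvPolynomial ι L) K := (faithfulSMul_iff_algebraMap_injective _ _).2 hinj
  letI : Algebra (FractionRing (MvPolynomial ι L)) K := FractionRing.liftAlgebra _ _
  haveI : IsScalarTower (MvPolynomial ι L) (FractionRing (MvPolynomial ι L)) K :=
    FractionRing.isScalarTower_liftAlgebra _ _
  haveI : Algebra.IsAlgebraic (MvPolynomial ι L) K := by
    have h1 := hx.isAlgebraic
    letI e : MvPolynomial ι L ≃ₐ[L] Algebra.adjoin L (Set.range x) := hx.1.aevalEquiv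
    letI : Algebra (MvPolynomial ι L) (Algebra.adjoin L (Set.range x)) := e.toRingHom.toAlgebra
    haveI : IsScalarTower (MvPolynomial ι L) (Algebra.adjoin L (Set.range x)) K := by
      refine IsScalarTower.of_algebraMap_eq fun c => ?_
      change aeval x c = ((e c : Algebra.adjoin L (Set.range x)) : K)
      simp [e]
    haveI : Algebra.IsAlgebraic (MvPolynomial ι L) (Algebra.adjoin L (Set.range x)) := by
      refine ⟨fun a => ?_⟩
      obtain ⟨b, rfl⟩ := e.surjective a
      exact isAlgebraic_algebraMap b
    exact Algebra.IsAlgebraic.trans (MvPolynomial ι L) (Algebra.adjoin L (Set.range x)) K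
  haveI : Algebra.IsAlgebraic (FractionRing (MvPolynomial ι L)) K :=
    Algebra.IsAlgebraic.extendScalars (R := MvPolynomial ι L)
      (IsFractionRing.injective (MvPolynomial ι L) (FractionRing (MvPolynomial ι L)))
  haveI : CharZero (FractionRing (MvPolynomial ι L)) := by infer_instance
  haveI : Algebra.FormallyEtale (FractionRing (MvPolynomial ι L)) K :=
    Algebra.FormallyEtale.of_isSeparable _ _
  haveI : Algebra.FormallyEtale (MvPolynomial ι L) (FractionRing (MvPolynomial ι L)) :=
    .of_isLocalization (nonZeroDivisors _)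
  haveI : Algebra.FormallyEtale (MvPolynomial ι L) K :=
    .comp _ (FractionRing (MvPolynomial ι L)) _
  let e := KaehlerDifferential.tensorKaehlerEquivOfFormallyEtale L (MvPolynomial ι L) K
  let b0 := (KaehlerDifferential.mvPolynomialBasis L ι).baseChange K
  refine ⟨b0.map e, fun i => ?_⟩
  have h3 : algebraMap (MvPolynomial ι L) K (X i) = x i := by
    change aeval x (X i) = x i
    simp
  simp only [b0, e, Module.Basis.map_apply, Module.Basis.baseChange_apply,
    KaehlerDifferential.tensorKaehlerEquivOfFormallyEtale_apply,
    KaehlerDifferential.mapBaseChange_tmul, KaehlerDifferential.mvPolynomialBasis_apply,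
    KaehlerDifferential.map_D, one_smul, h3]

/-- The generic field: the algebraic closure of the field of rational functions over `L` in the
variables `P`, with the dual derivations. -/
theorem exists_genericField (L : Type) [Field L] [CharZero L] (P : Type) :
    ∃ (Ω : Type) (_ : Field Ω) (_ : IsAlgClosed Ω) (_ : Algebra L Ω) (T : P → Ω)
      (D : P → Derivation L Ω Ω), AlgebraicIndependent L T ∧
      ∀ p q, (p = q → D p (T q) = 1) ∧ (p ≠ q → D p (T q) = 0) := by
  classical
  let F := FractionRing (MvPolynomial P L)
  let Ω := AlgebraicClosure F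
  letI : Algebra L Ω := inferInstance
  haveI : IsScalarTower (MvPolynomial P L) F Ω := inferInstance
  haveI : IsScalarTower L F Ω := inferInstance
  haveI : IsScalarTower L (MvPolynomial P L) Ω := inferInstance
  have hT0 : IsTranscendenceBasis L (X : P → MvPolynomial P L) :=
    IsTranscendenceBasis.mvPolynomial P L
  haveI : Algebra.IsAlgebraic (MvPolynomial P L) F :=
    IsLocalization.isAlgebraic _ (nonZeroDivisors (MvPolynomial P L))
  haveI : Algebra.IsAlgebraic (MvPolynomial P L) Ω :=
    Algebra.IsAlgebraic.trans (MvPolynomial P L) F Ω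
  have hT : IsTranscendenceBasis L (fun p => algebraMap (MvPolynomial P L) Ω (X p)) := by
    haveI : FaithfulSMul (MvPolynomial P L) Ω := (faithfulSMul_iff_algebraMap_injective _ _).2 (by
      rw [IsScalarTower.algebraMap_eq (MvPolynomial P L) F Ω]
      exact (algebraMap F Ω).injective.comp (IsFractionRing.injective (MvPolynomial P L) F))
    exact hT0.algebraMap_comp (A := Ω)
  obtain ⟨b, hb⟩ := cyDer_exists_kaehlerBasis _ hT
  refine ⟨Ω, inferInstance, inferInstance, inferInstance,
    fun p => algebraMap (MvPolynomial P L) Ω (X p),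
    fun p => (b.coord p).compDer (KaehlerDifferential.D L Ω), hT.1, ?_⟩
  intro p q
  have h1 : ((b.coord p).compDer (KaehlerDifferential.D L Ω))
      (algebraMap (MvPolynomial P L) Ω (X q)) = if q = p then 1 else 0 := by
    change (b.coord p) (KaehlerDifferential.D L Ω (algebraMap (MvPolynomial P L) Ω (X q))) = _
    rw [← hb]
    simp [Finsupp.single_apply]
  constructor
  · intro h
    rw [h1, if_pos h.symm]
  · intro h
    rw [h1, if_neg (Ne.symm h)]

end Pool.Agent.Lib.MP_410da7_ag
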