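import Pool.Agent.Lib.MP_410da7_ag.CYArc
import Pool.Agent.Lib.MP_410da7_ag.CYDer
import Pool.Agent.Lib.MP_410da7_ag.CYTaylor

/-!
# Generic arcs with their derivations
-/

set_option autoImplicit false

namespace Pool.Agent.Lib.MP_410da7_ag

open MvPolynomial WithZero

section

variable {Ω : Type} [Field Ω]

theorem coe_X : ((PowerSeries.X : PowerSeries Ω) : LaurentSeries Ω) = uu Ω := by
  simp [uu]

theorem uu_ne_zero : uu Ω ≠ 0 := by
  simp [uu]

/-- coefficientwise derivation of a power series -/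
noncomputable def pder {L : Type} [CommRing L] [Algebra L Ω] (D : Derivation L Ω Ω)
    (Y : PowerSeries Ω) : PowerSeries Ω := PowerSeries.mk fun n => D (PowerSeries.coeff n Y)

theorem coeff_pder {L : Type} [CommRing L] [Algebra L Ω] (D : Derivation L Ω Ω)
    (Y : PowerSeries Ω) (n : ℕ) : PowerSeries.coeff n (pder D Y) = D (PowerSeries.coeff n Y) := by
  simp [pder]

theorem coe_pder {L : Type} [CommRing L] [Algebra L Ω] (D : Derivation L Ω Ω)
    (Δ : LaurentSeries Ω →+ LaurentSeries Ω)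
    (hΔ : ∀ (x : LaurentSeries Ω) (n : ℤ), (Δ x).coeff n = D (x.coeff n))
    (Y : PowerSeries Ω) :
    ((pder D Y : PowerSeries Ω) : LaurentSeries Ω) = Δ (Y : LaurentSeries Ω) := by
  ext n
  rw [hΔ]
  rcases lt_or_ge n 0 with hn | hn
  · rw [PowerSeries.coeff_coe, PowerSeries.coeff_coe, if_pos hn, if_pos hn, map_zero]
  · lift n to ℕ using hn
    rw [PowerSeries.coeff_coe, PowerSeries.coeff_coe, if_neg (by omega), if_neg (by omega)]
    simp [pder]

end

/-- The generic arc of a divisorial valuation, over a field with additional parameters. -/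
theorem exists_arcs {K : Type} [Field K] [Algebra ℂ K] (v : Valuation K ℤᵐ⁰) {d : ℕ}
    (i0 : Fin d) (ξ : Fin d → K) (hξ : IsTranscendenceBasis ℂ ξ) (h1 : v (ξ i0) < 1)
    (h2 : ∀ a : K, a ≠ 0 → ∃ n : ℤ, v a = v (ξ i0) ^ n)
    (h3 : ∀ P : MvPolynomial {i // i ≠ i0} ℂ, P ≠ 0 →
      v (aeval (fun i : {i // i ≠ i0} => ξ i) P) = 1)
    (δ : Fin d → Derivation ℂ K K) (hδ : ∀ i j, δ i (ξ j) = if i = j then 1 else 0)
    (L : Type) [Field L] [Algebra ℂ L] (r : ℕ) (Z : Type) [DecidableEq Z] :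
    ∃ (Ω : Type) (_ : Field Ω) (_ : Algebra ℂ Ω) (_ : Algebra L Ω)
      (_ : IsScalarTower ℂ L Ω) (φ : K →ₐ[ℂ] LaurentSeries Ω) (θ : Fin r → PowerSeries Ω)
      (ζ : Z → Ω) (D : (Fin d × ℕ) ⊕ (Fin r × ℕ) ⊕ Z → Derivation L Ω Ω)
      (Δ : (Fin d × ℕ) ⊕ (Fin r × ℕ) ⊕ Z → LaurentSeries Ω →+ LaurentSeries Ω),
      (∀ p (x : LaurentSeries Ω) (n : ℤ), (Δ p x).coeff n = D p (x.coeff n)) ∧
      (∀ p (x y : LaurentSeries Ω), Δ p (x * y) = x * Δ p y + y * Δ p x) ∧
      (∀ (a : K) (n : ℤ), a ≠ 0 → v a = v (ξ i0) ^ n → (φ a).order = n) ∧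
      (∀ i j a, Δ (Sum.inl (i, j)) (φ a) = uu Ω ^ (j + if i = i0 then 1 else 0) * φ (δ i a)) ∧
      (∀ q a, Δ (Sum.inr q) (φ a) = 0) ∧
      (∀ i j k, Δ (Sum.inl (i, j)) (θ k : LaurentSeries Ω) = 0) ∧
      (∀ k j k', Δ (Sum.inr (Sum.inl (k, j))) (θ k' : LaurentSeries Ω) =
        if k = k' then uu Ω ^ j else 0) ∧
      (∀ z k, Δ (Sum.inr (Sum.inr z)) (θ k : LaurentSeries Ω) = 0) ∧
      (∀ z z', D (Sum.inr (Sum.inr z)) (ζ z') = if z = z' then 1 else 0) ∧
      (∀ q z, D (Sum.inl q) (ζ z) = 0) ∧ (∀ q z, D (Sum.inr (Sum.inl q)) (ζ z) = 0) := by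
  classical
  have : CharZero L := charZero_of_injective_algebraMap (algebraMap ℂ L).injective
  obtain ⟨Ω, iF, iA, iL, T, D, hT, hD⟩ :=
    exists_genericField L ((Fin d × ℕ) ⊕ (Fin r × ℕ) ⊕ Z)
  let iC : Algebra ℂ Ω := ((algebraMap L Ω).comp (algebraMap ℂ L)).toAlgebra
  have iT : IsScalarTower ℂ L Ω := IsScalarTower.of_algebraMap_eq fun c => rfl
  have hT0 : ∀ p, T p ≠ 0 := fun p => hT.ne_zero p
  have hTC : AlgebraicIndependent ℂ T := hT.restrictScalars (algebraMap ℂ L).injective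
  -- arcs
  let τ : Fin d → PowerSeries Ω := fun i =>
    PowerSeries.X ^ (if i = i0 then 1 else 0) * PowerSeries.mk fun n => T (Sum.inl (i, n))
  have hτ0 : ∀ i, i ≠ i0 → PowerSeries.constantCoeff (τ i) = T (Sum.inl (i, 0)) := by
    intro i hi
    simp only [τ, if_neg hi, pow_zero, one_mul]
    rw [← PowerSeries.coeff_zero_eq_constantCoeff_apply, PowerSeries.coeff_mk]
  obtain ⟨φ, hφ, hord⟩ := exists_arc (Ω := Ω) v i0 ξ hξ h1 h2 h3 τ (by
      simp only [τ, if_true, pow_one]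
      rw [PowerSeries.order_mul, PowerSeries.order_X]
      have : (PowerSeries.mk fun n => T (Sum.inl (i0, n))).order = 0 := by
        rw [PowerSeries.order_zero_of_unit]
        rw [PowerSeries.isUnit_iff_constantCoeff,
          ← PowerSeries.coeff_zero_eq_constantCoeff_apply, PowerSeries.coeff_mk]
        exact IsUnit.mk0 _ (hT0 _)
      rw [this, add_zero]) (by
      have h := hTC.comp (fun i : {i // i ≠ i0} => (Sum.inl (i.1, 0) : (Fin d × ℕ) ⊕ (Fin r × ℕ) ⊕ Z))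
        (by
          rintro ⟨i, hi⟩ ⟨j, hj⟩ h
          simpa using h)
      convert h using 1
      funext i
      exact hτ0 i.1 i.2)
  choose Δ hΔ' hΔm using fun p => exists_laurentDer (D p)
  have hX : ∀ p (j : ℕ), Δ p (uu Ω ^ j) = 0 := by
    intro p j
    rw [← coe_X, ← PowerSeries.coe_pow, ← coe_pder (D p) (Δ p) (hΔ' p), ← PowerSeries.coe_zero]
    congr 1
    ext n
    rw [coeff_pder, PowerSeries.coeff_X_pow, map_zero]
    split_ifs
    · exact (D p).map_one_eq_zero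
    · exact map_zero _
  have hC : ∀ p (c : ℂ), Δ p (algebraMap ℂ (LaurentSeries Ω) c) = 0 := by
    intro p c
    have h : algebraMap ℂ (LaurentSeries Ω) c =
        ((PowerSeries.C (algebraMap ℂ Ω c) : PowerSeries Ω) : LaurentSeries Ω) := by
      rw [HahnSeries.algebraMap_apply', PowerSeries.algebraMap_apply]
    rw [h, ← coe_pder (D p) (Δ p) (hΔ' p), ← PowerSeries.coe_zero]
    congr 1
    ext n
    rw [coeff_pder, PowerSeries.coeff_C, map_zero]
    split_ifs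
    · rw [IsScalarTower.algebraMap_apply ℂ L Ω, (D p).map_algebraMap]
    · exact map_zero _
  have hmk : ∀ (p : (Fin d × ℕ) ⊕ (Fin r × ℕ) ⊕ Z) (g : ℕ → (Fin d × ℕ) ⊕ (Fin r × ℕ) ⊕ Z)
      (j : ℕ), (∀ n, p = g n ↔ j = n) →
      Δ p ((PowerSeries.mk fun n => T (g n) : PowerSeries Ω) : LaurentSeries Ω) = uu Ω ^ j := by
    intro p g j hg
    rw [← coe_pder (D p) (Δ p) (hΔ' p), ← coe_X, ← PowerSeries.coe_pow]
    congr 1
    ext n
    rw [coeff_pder, PowerSeries.coeff_mk, PowerSeries.coeff_X_pow]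
    by_cases h : j = n
    · rw [(hD p (g n)).1 ((hg n).2 h), if_pos h.symm]
    · rw [(hD p (g n)).2 (fun h' => h ((hg n).1 h')), if_neg (Ne.symm h)]
  have hmk0 : ∀ (p : (Fin d × ℕ) ⊕ (Fin r × ℕ) ⊕ Z) (g : ℕ → (Fin d × ℕ) ⊕ (Fin r × ℕ) ⊕ Z),
      (∀ n, p ≠ g n) →
      Δ p ((PowerSeries.mk fun n => T (g n) : PowerSeries Ω) : LaurentSeries Ω) = 0 := by
    intro p g hg
    rw [← coe_pder (D p) (Δ p) (hΔ' p), ← PowerSeries.coe_zero]
    congr 1
    ext n
    rw [coeff_pder, PowerSeries.coeff_mk, (hD p (g n)).2 (hg n), map_zero]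
  have hτΔ : ∀ p i, Δ p (τ i : LaurentSeries Ω) = uu Ω ^ (if i = i0 then 1 else 0) *
      Δ p ((PowerSeries.mk fun n => T (Sum.inl (i, n)) : PowerSeries Ω) : LaurentSeries Ω) := by
    intro p i
    simp only [τ]
    rw [PowerSeries.coe_mul, PowerSeries.coe_pow, coe_X, hΔm, hX, mul_zero, add_zero]
  refine ⟨Ω, iF, iC, iL, iT, φ, fun k => PowerSeries.mk fun n => T (Sum.inr (Sum.inl (k, n))),
    fun z => T (Sum.inr (Sum.inr z)), D, Δ, hΔ', hΔm, hord, ?_, ?_, ?_, ?_, ?_, ?_, ?_, ?_⟩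
  · intro i j a
    rw [der_chain ξ hξ δ hδ φ (Δ (Sum.inl (i, j))) (hΔm _) (hC _) a, Finset.sum_eq_single i]
    · rw [hφ, hτΔ, hmk _ _ j (by intro n; simp)]
      ring
    · intro i' _ hi'
      rw [hφ, hτΔ, hmk0 _ _ (by intro n h; simp at h; exact hi' h.1.symm), mul_zero, mul_zero]
    · simp
  · intro q a
    rw [der_chain ξ hξ δ hδ φ (Δ (Sum.inr q)) (hΔm _) (hC _) a]
    refine Finset.sum_eq_zero fun i _ => ?_
    rw [hφ, hτΔ, hmk0 _ _ (by intro n h; simp at h), mul_zero, mul_zero]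
  · intro i j k
    exact hmk0 _ _ (by intro n h; simp at h)
  · intro k j k'
    split_ifs with h
    · subst h
      exact hmk _ _ j (by intro n; simp)
    · exact hmk0 _ _ (by intro n h'; simp at h'; exact h h'.1)
  · intro z k
    exact hmk0 _ _ (by intro n h; simp at h)
  · intro z z'
    split_ifs with h
    · subst h
      exact (hD _ _).1 rfl
    · exact (hD _ _).2 (by intro h'; simp at h'; exact h h')
  · intro q z
    exact (hD _ _).2 (by intro h'; simp at h')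
  · intro q z
    exact (hD _ _).2 (by intro h'; simp at h')

end Pool.Agent.Lib.MP_410da7_ag
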