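import Mathlib

namespace Pool.Agent.Lib.MP_410da7_ag

open MvPolynomial

/-! ### The height of the ideal of the origin -/

/-- set the variables in `S` to zero -/
noncomputable def curveZeroVars (k : Type*) {ι : Type*} [Field k] [DecidableEq ι] (S : Finset ι) :
    MvPolynomial ι k →ₐ[k] MvPolynomial ι k :=
  aeval (fun j => if j ∈ S then 0 else X j)

lemma curve_card_le_height (k : Type*) {ι : Type*} [Field k] [DecidableEq ι] (S : Finset ι) :
    (S.card : ℕ∞) ≤ (RingHom.ker (curveZeroVars k S)).height := by
  induction S using Finset.induction_on with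
  | empty => simp
  | insert a S ha ih =>
    have hlt : RingHom.ker (curveZeroVars k S) < RingHom.ker (curveZeroVars k (insert a S)) := by
      refine lt_of_le_of_ne ?_ ?_
      · intro p hp
        rw [RingHom.mem_ker] at hp ⊢
        have hcomp : (curveZeroVars k {a}).comp (curveZeroVars k S) =
            curveZeroVars k (insert a S) := by
          ext j : 1
          simp only [curveZeroVars, AlgHom.comp_apply, aeval_X]
          by_cases hj : j ∈ S
          · simp [hj]
          · by_cases hja : j = a
            · subst hja; simp [hj]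
            · simp [hj, hja]
        rw [← hcomp, AlgHom.comp_apply, hp, map_zero]
      · intro heq
        have h1 : (X a : MvPolynomial ι k) ∈ RingHom.ker (curveZeroVars k (insert a S)) := by
          rw [RingHom.mem_ker]
          simp [curveZeroVars]
        rw [← heq, RingHom.mem_ker] at h1
        simp [curveZeroVars, ha] at h1
    have h1 : (RingHom.ker (curveZeroVars k S)).IsPrime := RingHom.ker_isPrime _
    have h2 : (RingHom.ker (curveZeroVars k (insert a S))).IsPrime := RingHom.ker_isPrime _
    have h3 := Ideal.height_add_one_le_of_lt_of_isPrime hlt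
    rw [Finset.card_insert_of_notMem ha, Nat.cast_add, Nat.cast_one]
    exact (add_le_add_left ih 1).trans h3

theorem exists_common_zero {k : Type*} [Field k] [IsAlgClosed k] {ι κ : Type*} [Fintype ι]
    [Fintype κ]
    (h : Fintype.card κ < Fintype.card ι) (P : κ → MvPolynomial ι k)
    (h0 : ∀ j, MvPolynomial.eval 0 (P j) = 0) :
    ∃ x : ι → k, x ≠ 0 ∧ ∀ j, MvPolynomial.eval x (P j) = 0 := by
  classical
  by_contra hcon
  push Not at hcon
  set I : Ideal (MvPolynomial ι k) := Ideal.span (Set.range P) with hI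
  have hloc : zeroLocus k I = {0} := by
    ext x
    rw [Set.mem_singleton_iff, hI, zeroLocus_span]
    constructor
    · intro hx
      by_contra hne
      obtain ⟨j, hj⟩ := hcon x hne
      apply hj
      have := hx (P j) ⟨j, rfl⟩
      simpa using this
    · rintro rfl
      rintro _ ⟨j, rfl⟩
      simpa using h0 j
  have hrad : I.radical = vanishingIdeal k {(0 : ι → k)} := by
    rw [← vanishingIdeal_zeroLocus_eq_radical (K := k), hloc]
  set m : Ideal (MvPolynomial ι k) := vanishingIdeal k {(0 : ι → k)} with hm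
  have hker : m = RingHom.ker (curveZeroVars k (Finset.univ : Finset ι)) := by
    ext p
    rw [hm, mem_vanishingIdeal_singleton_iff, RingHom.mem_ker]
    have h1 : curveZeroVars k (Finset.univ : Finset ι) p = C (aeval (0 : ι → k) p) := by
      have : curveZeroVars k (Finset.univ : Finset ι) =
          (Algebra.ofId k (MvPolynomial ι k)).comp (aeval (0 : ι → k)) := by
        ext j : 1
        simp [curveZeroVars]
      rw [this]
      rfl
    rw [h1, map_eq_zero_iff _ (C_injective ι k)]
  have hmp : m.IsPrime := by rw [hker]; exact RingHom.ker_isPrime _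
  have hmin : m ∈ I.minimalPrimes := by
    refine ⟨⟨hmp, ?_⟩, ?_⟩
    · rw [← hrad]; exact Ideal.le_radical
    · rintro q ⟨hq, hIq⟩ _
      rw [← hrad]
      exact hq.radical_le_iff.2 hIq
  have h1 : m.height ≤ (Set.range P).ncard :=
    Ideal.height_le_card_of_mem_minimalPrimes_span (Set.finite_range P) hmin
  have h2 : (Set.range P).ncard ≤ Fintype.card κ := by
    rw [← Set.image_univ]
    refine (Set.ncard_image_le Set.finite_univ).trans ?_
    rw [Set.ncard_univ, Nat.card_eq_fintype_card]
  have h3 := curve_card_le_height k (Finset.univ : Finset ι)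
  rw [← hker] at h3
  have h4 : ((Finset.univ : Finset ι).card : ℕ∞) ≤ (Fintype.card κ : ℕ∞) :=
    h3.trans (h1.trans (by exact_mod_cast h2))
  rw [Finset.card_univ] at h4
  have h5 : Fintype.card ι ≤ Fintype.card κ := by exact_mod_cast h4
  omega

/-! ### Curves of bounded weighted degree -/

lemma curve_natDegree_aeval_le {N : ℕ} {B : Type*} [CommRing B] [Algebra ℂ B] (w : Fin N → ℕ)
    (γ : Fin N → Polynomial B) (hγ : ∀ l, (γ l).natDegree ≤ w l) (F : MvPolynomial (Fin N) ℂ) :
    (aeval γ F).natDegree ≤ F.weightedTotalDegree w := by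
  rw [aeval_def, eval₂_eq']
  refine Polynomial.natDegree_sum_le_of_forall_le _ _ fun d hd => ?_
  have h1 : (algebraMap ℂ (Polynomial B) (F.coeff d)).natDegree = 0 := by
    rw [IsScalarTower.algebraMap_apply ℂ B (Polynomial B)]
    exact Polynomial.natDegree_C _
  calc (algebraMap ℂ (Polynomial B) (F.coeff d) * ∏ i, γ i ^ d i).natDegree
      ≤ (algebraMap ℂ (Polynomial B) (F.coeff d)).natDegree + (∏ i, γ i ^ d i).natDegree :=
        Polynomial.natDegree_mul_le
    _ ≤ 0 + ∑ i, (γ i ^ d i).natDegree := by
        rw [h1]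
        gcongr
        exact Polynomial.natDegree_prod_le _ _
    _ ≤ 0 + ∑ i, d i * w i := by
        gcongr with i
        exact Polynomial.natDegree_pow_le.trans (Nat.mul_le_mul_left _ (hγ i))
    _ = Finsupp.weight w d := by
        rw [Finsupp.weight_apply, Finsupp.sum_fintype _ _ (by simp)]
        simp
    _ ≤ F.weightedTotalDegree w := le_weightedTotalDegree w hd

/-- The polynomial curve `t ↦ p_l + ∑_i a_{l,i} t^{i+1}`. -/
noncomputable def curvePoly {N : ℕ} {B : Type*} [CommRing B] (w : Fin N → ℕ) (p : Fin N → B)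
    (a : (Σ l : Fin N, Fin (w l)) → B) (l : Fin N) : Polynomial B :=
  Polynomial.C (p l) + ∑ i : Fin (w l), Polynomial.C (a ⟨l, i⟩) * Polynomial.X ^ (i.1 + 1)

lemma curvePoly_natDegree_le {N : ℕ} {B : Type*} [CommRing B] (w : Fin N → ℕ) (p : Fin N → B)
    (a : (Σ l : Fin N, Fin (w l)) → B) (l : Fin N) : (curvePoly w p a l).natDegree ≤ w l := by
  refine Polynomial.natDegree_add_le_of_degree_le (by simp) ?_
  refine Polynomial.natDegree_sum_le_of_forall_le _ _ fun i _ => ?_
  exact (Polynomial.natDegree_C_mul_X_pow_le _ _).trans i.2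

lemma curvePoly_eval_zero {N : ℕ} {B : Type*} [CommRing B] (w : Fin N → ℕ) (p : Fin N → B)
    (a : (Σ l : Fin N, Fin (w l)) → B) (l : Fin N) : (curvePoly w p a l).eval 0 = p l := by
  simp [curvePoly, Polynomial.eval_finsetSum]

lemma curvePoly_coeff {N : ℕ} {B : Type*} [CommRing B] (w : Fin N → ℕ) (p : Fin N → B)
    (a : (Σ l : Fin N, Fin (w l)) → B) (l : Fin N) (i : Fin (w l)) :
    (curvePoly w p a l).coeff (i.1 + 1) = a ⟨l, i⟩ := by
  rw [curvePoly, Polynomial.coeff_add, Polynomial.coeff_C_succ, zero_add,
    Polynomial.finsetSum_coeff, Finset.sum_eq_single i]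
  · simp
  · intro j _ hj
    rw [Polynomial.coeff_C_mul_X_pow, if_neg]
    intro h
    exact hj (Fin.ext (by omega))
  · simp

lemma curvePoly_map {N : ℕ} {B B' : Type*} [CommRing B] [CommRing B'] (φ : B →+* B')
    (w : Fin N → ℕ) (p : Fin N → B)
    (a : (Σ l : Fin N, Fin (w l)) → B) (l : Fin N) :
    (curvePoly w p a l).map φ = curvePoly w (fun l => φ (p l)) (fun i => φ (a i)) l := by
  simp [curvePoly, Polynomial.map_sum]

lemma curve_map_aeval {N : ℕ} {B B' : Type*} [CommRing B] [CommRing B'] [Algebra ℂ B]
    [Algebra ℂ B'] (φ : B →ₐ[ℂ] B') (γ : Fin N → Polynomial B) (F : MvPolynomial (Fin N) ℂ) :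
    (aeval γ F).map (φ : B →+* B') = aeval (fun l => (γ l).map (φ : B →+* B')) F := by
  have : (Polynomial.mapAlgHom φ).comp (aeval γ) =
      aeval (fun l => (γ l).map (φ : B →+* B')) := by
    ext l : 1
    simp
  rw [← this]
  rfl

theorem exists_curve {N r s : ℕ} (f : Fin r → MvPolynomial (Fin N) ℂ)
    (g : Fin s → MvPolynomial (Fin N) ℂ)
    (w : Fin N → ℕ)
    (hw : ∑ k, (f k).weightedTotalDegree w + ∑ j, (g j).weightedTotalDegree w < ∑ l, w l)
    {E : Type} [Field E] [IsAlgClosed E] [Algebra ℂ E] (p : Fin N → E) :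
    ∃ γ : Fin N → Polynomial E, (∀ l, (γ l).eval 0 = p l) ∧ (∀ l, (γ l).natDegree ≤ w l) ∧
      (∃ l, 0 < (γ l).natDegree) ∧
      (∀ k, MvPolynomial.aeval γ (f k) = Polynomial.C (MvPolynomial.aeval p (f k))) ∧
      (∀ j, MvPolynomial.aeval γ (g j) = Polynomial.C (MvPolynomial.aeval p (g j))) := by
  classical
  -- combine the two families
  let F : Fin r ⊕ Fin s → MvPolynomial (Fin N) ℂ := Sum.elim f g
  let ι := Σ l : Fin N, Fin (w l)
  let κ := Σ k : Fin r ⊕ Fin s, Fin ((F k).weightedTotalDegree w)
  let G : Fin N → Polynomial (MvPolynomial ι E) := curvePoly w (fun l => C (p l)) (fun i => X i)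
  let P : κ → MvPolynomial ι E := fun q => (aeval G (F q.1)).coeff (q.2.1 + 1)
  have hcard : Fintype.card κ < Fintype.card ι := by
    simp only [κ, ι, Fintype.card_sigma, Fintype.card_fin, Fintype.sum_sum_type]
    exact hw
  -- evaluation of `P`
  have hP : ∀ (a : ι → E) (q : κ), eval a (P q) =
      (aeval (curvePoly w p a) (F q.1)).coeff (q.2.1 + 1) := by
    intro a q
    let φ : MvPolynomial ι E →ₐ[ℂ] E := (aeval a : MvPolynomial ι E →ₐ[E] E).restrictScalars ℂ
    have h1 : eval a (P q) = ((aeval G (F q.1)).map (φ : MvPolynomial ι E →+* E)).coeff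
        (q.2.1 + 1) := by
      rw [Polynomial.coeff_map]
      exact (DFunLike.congr_fun (coe_aeval_eq_eval a) (P q)).symm
    rw [h1, curve_map_aeval]
    have h2 : (fun l => (G l).map (φ : MvPolynomial ι E →+* E)) = curvePoly w p a := by
      funext l
      rw [curvePoly_map]
      congr 1
      · funext l
        show aeval a (C (p l)) = p l
        simp
      · funext i
        show aeval a (X i) = a i
        simp
    rw [h2]
  have hconst : ∀ (γ : Fin N → Polynomial E) (k : Fin r ⊕ Fin s),
      (aeval γ (F k)).coeff 0 = aeval (fun l => (γ l).eval 0) (F k) := by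
    intro γ k
    have : (Polynomial.aeval (0 : E)).toRingHom.comp
        ((aeval γ : MvPolynomial (Fin N) ℂ →ₐ[ℂ] Polynomial E) :
          MvPolynomial (Fin N) ℂ →+* Polynomial E) =
        ((aeval (fun l => (γ l).eval 0) : MvPolynomial (Fin N) ℂ →ₐ[ℂ] E) :
          MvPolynomial (Fin N) ℂ →+* E) := by
      apply MvPolynomial.ringHom_ext
      · intro c
        simp [IsScalarTower.algebraMap_apply ℂ E (Polynomial E)]
      · intro l
        simp
    have h2 := RingHom.congr_fun this (F k)
    rw [Polynomial.coeff_zero_eq_eval_zero]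
    simpa [Polynomial.aeval_def] using h2
  obtain ⟨a, ha0, ha⟩ := exists_common_zero hcard P (by
    intro q
    rw [hP]
    have h1 : curvePoly w p (0 : ι → E) = fun l => Polynomial.C (p l) := by
      funext l
      simp [curvePoly]
    have h2 : (aeval (curvePoly w p (0 : ι → E)) (F q.1)).natDegree ≤ 0 := by
      have := curve_natDegree_aeval_le (fun _ => 0) (curvePoly w p (0 : ι → E))
        (fun l => by rw [h1]; simp) (F q.1)
      refine this.trans ?_
      rw [weightedTotalDegree]
      refine Finset.sup_le fun d _ => ?_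
      rw [Finsupp.weight_apply]
      simp
    exact Polynomial.coeff_eq_zero_of_natDegree_lt (by omega))
  have hkey : ∀ k : Fin r ⊕ Fin s, aeval (curvePoly w p a) (F k) =
      Polynomial.C (aeval p (F k)) := by
    intro k
    ext n
    rcases n with _ | n
    · rw [hconst, Polynomial.coeff_C_zero]
      congr 2
      funext l
      exact curvePoly_eval_zero w p a l
    · rw [Polynomial.coeff_C_succ]
      by_cases hn : n < (F k).weightedTotalDegree w
      · rw [← ha ⟨k, ⟨n, hn⟩⟩, hP]
      · apply Polynomial.coeff_eq_zero_of_natDegree_lt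
        have := curve_natDegree_aeval_le w (curvePoly w p a)
          (curvePoly_natDegree_le w p a) (F k)
        omega
  refine ⟨curvePoly w p a, curvePoly_eval_zero w p a, curvePoly_natDegree_le w p a, ?_,
    fun k => hkey (Sum.inl k), fun j => hkey (Sum.inr j)⟩
  obtain ⟨⟨l, i⟩, hli⟩ := Function.ne_iff.1 ha0
  refine ⟨l, ?_⟩
  have h1 : (curvePoly w p a l).coeff (i.1 + 1) ≠ 0 := by
    rw [curvePoly_coeff]
    exact hli
  have h2 := Polynomial.le_natDegree_of_ne_zero h1
  omega

end Pool.Agent.Lib.MP_410da7_ag
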