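import Mathlib
import Pool.Agent.Lib.MP_410da7_ag.Curve

/-!
# Homogenised evaluation
-/

set_option autoImplicit false

namespace Pool.Agent.Lib.MP_410da7_ag

open MvPolynomial

variable {N : ℕ}

/-- The homogenisation of `P` for the weight `w` (the new variable has weight one), with the new
variable replaced by `x0`, as a polynomial over `B`. -/
noncomputable def hpoly (w : Fin N → ℕ) (P : MvPolynomial (Fin N) ℂ) {B : Type*} [CommRing B]
    [Algebra ℂ B] (x0 : B) : MvPolynomial (Fin N) B :=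
  ∑ α ∈ P.support, monomial α
    (algebraMap ℂ B (P.coeff α) * x0 ^ (P.weightedTotalDegree w - Finsupp.weight w α))

/-- The value at `(x0, y)` of the homogenisation of `P` for the weight `w`. -/
noncomputable def hev (w : Fin N → ℕ) (P : MvPolynomial (Fin N) ℂ) {B : Type*} [CommRing B]
    [Algebra ℂ B] (x0 : B) (y : Fin N → B) : B :=
  eval y (hpoly w P x0)

/-- The polynomial `1 + ∑ b_i t^{i+1}`. -/
noncomputable def linePoly {B : Type*} [CommRing B] (e : ℕ) (b : Fin e → B) : Polynomial B :=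
  1 + ∑ i : Fin e, Polynomial.C (b i) * Polynomial.X ^ (i.1 + 1)

theorem hev_eq (w : Fin N → ℕ) (P : MvPolynomial (Fin N) ℂ) {B : Type*} [CommRing B]
    [Algebra ℂ B] (x0 : B) (y : Fin N → B) :
    hev w P x0 y = ∑ α ∈ P.support, algebraMap ℂ B (P.coeff α) *
      x0 ^ (P.weightedTotalDegree w - Finsupp.weight w α) * ∏ l, y l ^ α l := by
  simp only [hev, hpoly, map_sum, eval_monomial]
  refine Finset.sum_congr rfl fun α _ => ?_
  rw [Finsupp.prod_fintype _ _ (by simp)]

theorem hev_map (w : Fin N → ℕ) (P : MvPolynomial (Fin N) ℂ) {B B' : Type*} [CommRing B]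
    [Algebra ℂ B] [CommRing B'] [Algebra ℂ B'] (φ : B →ₐ[ℂ] B') (x0 : B) (y : Fin N → B) :
    φ (hev w P x0 y) = hev w P (φ x0) (fun l => φ (y l)) := by
  simp only [hev_eq, map_sum, map_mul, map_pow, map_prod, AlgHom.commutes]

theorem hev_one (w : Fin N → ℕ) (P : MvPolynomial (Fin N) ℂ) {B : Type*} [CommRing B]
    [Algebra ℂ B] (y : Fin N → B) : hev w P 1 y = aeval y P := by
  rw [hev_eq, aeval_def, eval₂_eq']
  simp

/-- scaling -/
theorem hev_smul (w : Fin N → ℕ) (P : MvPolynomial (Fin N) ℂ) {B : Type*} [CommRing B]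
    [Algebra ℂ B] (c x0 : B) (y : Fin N → B) :
    hev w P (c * x0) (fun l => c ^ w l * y l) = c ^ P.weightedTotalDegree w * hev w P x0 y := by
  simp only [hev_eq, Finset.mul_sum]
  refine Finset.sum_congr rfl fun α hα => ?_
  have h1 : Finsupp.weight w α ≤ P.weightedTotalDegree w := le_weightedTotalDegree w hα
  have h2 : ∏ l, (c ^ w l * y l) ^ α l = c ^ Finsupp.weight w α * ∏ l, y l ^ α l := by
    rw [Finsupp.weight_apply, Finsupp.sum_fintype _ _ (by simp), ← Finset.prod_pow_eq_pow_sum,
      ← Finset.prod_mul_distrib]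
    refine Finset.prod_congr rfl fun l _ => ?_
    rw [mul_pow, ← pow_mul, smul_eq_mul, mul_comm (w l)]
  rw [h2, mul_pow]
  have h3 : c ^ P.weightedTotalDegree w =
      c ^ (P.weightedTotalDegree w - Finsupp.weight w α) * c ^ Finsupp.weight w α := by
    rw [← pow_add, Nat.sub_add_cancel h1]
  rw [h3]
  ring

end Pool.Agent.Lib.MP_410da7_ag
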