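import Pool.Agent.Lib.MP_410da7_ag.CYPerturb

/-!
# Orders of determinants
-/

set_option autoImplicit false

namespace Pool.Agent.Lib.MP_410da7_ag

open MvPolynomial WithZero

section

variable {Ω : Type} [Field Ω]

theorem det_congr {ι : Type} [Fintype ι] [DecidableEq ι] (M M' : Matrix ι ι (PowerSeries Ω))
    (a D1 : ℕ) (h1 : PowerSeries.coeff D1 M.det ≠ 0) (hD : D1 < a)
    (h : ∀ i j, PowerSeries.X ^ a ∣ M' i j - M i j) : PowerSeries.coeff D1 M'.det ≠ 0 := by
  let I : Ideal (PowerSeries Ω) := Ideal.span {PowerSeries.X ^ a}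
  have h2 : PowerSeries.X ^ a ∣ M'.det - M.det := by
    rw [← Ideal.mem_span_singleton, ← Ideal.Quotient.eq, RingHom.map_det, RingHom.map_det]
    congr 1
    ext i j
    simp only [RingHom.mapMatrix_apply, Matrix.map_apply]
    rw [Ideal.Quotient.eq, Ideal.mem_span_singleton]
    exact h i j
  have h3 := (PowerSeries.X_pow_dvd_iff.1 h2) D1 hD
  rw [map_sub, sub_eq_zero] at h3
  rw [h3]
  exact h1

/-- the determinant of a matrix with scaled rows and columns -/
theorem coe_det_scaled {K : Type} [Field K] [Algebra ℂ K] [Algebra ℂ Ω] {ι : Type} [Fintype ι]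
    [DecidableEq ι] (φ : K →ₐ[ℂ] LaurentSeries Ω) (S : Matrix ι ι K)
    (M : Matrix ι ι (PowerSeries Ω)) (α β : ι → ℤ)
    (h : ∀ i j, ((M i j : PowerSeries Ω) : LaurentSeries Ω) =
      uu Ω ^ (α i + β j) * φ (S i j)) :
    ((M.det : PowerSeries Ω) : LaurentSeries Ω) = uu Ω ^ (∑ i, α i + ∑ j, β j) * φ S.det := by
  have h1 : ((M.det : PowerSeries Ω) : LaurentSeries Ω) =
      (Matrix.of fun i j => uu Ω ^ α i * (Matrix.of fun i j => uu Ω ^ β j * φ (S i j)) i j).det := by
    rw [RingHom.map_det]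
    congr 1
    ext i j : 2
    simp only [RingHom.mapMatrix_apply, Matrix.map_apply, Matrix.of_apply]
    rw [h, zpow_add₀ uu_ne_zero, mul_assoc]
  have h2 : φ S.det = (Matrix.of fun i j => φ (S i j)).det := by
    rw [AlgHom.map_det]
    rfl
  have h3 := Matrix.det_mul_row (fun j => uu Ω ^ β j) (Matrix.of fun i j => φ (S i j))
  simp only [Matrix.of_apply] at h3
  rw [h1, Matrix.det_mul_column, h3, h2, zpow_add₀ uu_ne_zero, ← mul_assoc]
  congr 2
  · have : ∀ s : Finset ι, ∏ i ∈ s, uu Ω ^ α i = uu Ω ^ (∑ i ∈ s, α i) := by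
      intro s
      induction s using Finset.induction with
      | empty => simp
      | insert a s ha ih =>
        rw [Finset.prod_insert ha, Finset.sum_insert ha, ih, zpow_add₀ uu_ne_zero]
    exact this _
  · have : ∀ s : Finset ι, ∏ i ∈ s, uu Ω ^ β i = uu Ω ^ (∑ i ∈ s, β i) := by
      intro s
      induction s using Finset.induction with
      | empty => simp
      | insert a s ha ih =>
        rw [Finset.prod_insert ha, Finset.sum_insert ha, ih, zpow_add₀ uu_ne_zero]
    exact this _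

/-- the order of the lattice generated by the perturbed arcs -/
theorem order_le_of_coeff_ne {Y : PowerSeries Ω} {n : ℕ} (h : PowerSeries.coeff n Y ≠ 0) :
    ∃ k : ℕ, Y.order = k ∧ k ≤ n := by
  have h1 := PowerSeries.order_le n h
  have h2 : Y.order ≠ ⊤ := by
    intro h3
    rw [h3] at h1
    exact absurd h1 (by simp)
  refine ⟨Y.order.toNat, (ENat.natCast_toNat h2).symm, ?_⟩
  rw [← ENat.natCast_toNat h2] at h1
  exact_mod_cast h1

theorem coeff_ne_of_coe_eq {Y : PowerSeries Ω} {x : LaurentSeries Ω} (hx : x ≠ 0) (q : ℤ)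
    (h : (Y : LaurentSeries Ω) = uu Ω ^ q * x) :
    ∃ n : ℕ, (n : ℤ) = q + x.order ∧ PowerSeries.coeff n Y ≠ 0 := by
  have h1 : (Y : LaurentSeries Ω).coeff (q + x.order) ≠ 0 := by
    rw [h, coeff_uu_zpow_mul]
    exact HahnSeries.coeff_order_eq_zero.not.2 hx
  rw [PowerSeries.coeff_coe] at h1
  split_ifs at h1 with h2
  · exact absurd rfl h1
  · refine ⟨(q + x.order).natAbs, by omega, h1⟩

end

end Pool.Agent.Lib.MP_410da7_ag
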