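import Mathlib

/-!
# Transfer of linear independence conditions to extension fields; completion of rows
-/

set_option autoImplicit false

namespace Pool.Agent.Lib.MP_410da7_ag

open MvPolynomial

/-- A system of polynomial equations over `ℂ` with a solution in an extension field has a solution
over `ℂ`. -/
theorem exists_point {σ : Type} [Finite σ] {E : Type} [Field E] [Algebra ℂ E]
    (I : Set (MvPolynomial σ ℂ)) (u : σ → E) (hu : ∀ P ∈ I, aeval u P = 0) :
    ∃ v : σ → ℂ, ∀ P ∈ I, eval v P = 0 := by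
  have hne : RingHom.ker (aeval (R := ℂ) u) ≠ ⊤ := RingHom.ker_ne_top _
  obtain ⟨M, hM, hle⟩ := Ideal.exists_le_maximal _ hne
  obtain ⟨v, hv⟩ := MvPolynomial.isMaximal_iff_eq_vanishingIdeal_singleton.1 hM
  refine ⟨v, fun P hP => ?_⟩
  have h1 : P ∈ M := hle (hu P hP)
  rw [hv, mem_vanishingIdeal_singleton_iff] at h1
  exact h1

theorem linInd_transfer {N : ℕ} {ρ : Type} [Fintype ρ] (Z : Set (MvPolynomial (Fin N) ℂ))
    (B : MvPolynomial (Fin N) ℂ) (M : ρ → Fin N → MvPolynomial (Fin N) ℂ)
    (h : ∀ u : Fin N → ℂ, (∀ P ∈ Z, eval u P = 0) → eval u B ≠ 0 →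
      LinearIndependent ℂ (fun a l => eval u (M a l)))
    {E : Type} [Field E] [Algebra ℂ E] (u : Fin N → E) (hu : ∀ P ∈ Z, aeval u P = 0)
    (hB : aeval u B ≠ 0) : LinearIndependent E (fun a l => aeval u (M a l)) := by
  classical
  by_contra hcon
  rw [Fintype.not_linearIndependent_iff] at hcon
  obtain ⟨c, hc, a0, ha0⟩ := hcon
  let emb : MvPolynomial (Fin N) ℂ →ₐ[ℂ] MvPolynomial (Fin N ⊕ (ρ ⊕ Unit)) ℂ := rename Sum.inl
  let Y : ρ → MvPolynomial (Fin N ⊕ (ρ ⊕ Unit)) ℂ := fun a => X (Sum.inr (Sum.inl a))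
  let T : MvPolynomial (Fin N ⊕ (ρ ⊕ Unit)) ℂ := X (Sum.inr (Sum.inr ()))
  let I : Set (MvPolynomial (Fin N ⊕ (ρ ⊕ Unit)) ℂ) :=
    (emb '' Z) ∪ (Set.range fun l => ∑ a, Y a * emb (M a l)) ∪ {T * emb B * Y a0 - 1}
  let u' : Fin N ⊕ (ρ ⊕ Unit) → E :=
    Sum.elim u (Sum.elim c (fun _ => (aeval u B * c a0)⁻¹))
  have hemb : ∀ P, aeval u' (emb P) = aeval u P := by
    intro P
    simp only [emb, aeval_rename]
    rfl
  obtain ⟨v, hv⟩ := exists_point I u' (by
    rintro P ((⟨Q, hQ, rfl⟩ | ⟨l, rfl⟩) | hP)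
    · rw [hemb]; exact hu Q hQ
    · simp only [map_sum, map_mul, hemb]
      have := congrFun hc l
      simpa [Y, u'] using this
    · rw [Set.mem_singleton_iff] at hP
      rw [hP]
      simp only [map_sub, map_mul, hemb, map_one, Y, T, aeval_X, u', Sum.elim_inr, Sum.elim_inl]
      field_simp
      ring)
  have hemb' : ∀ P, eval v (emb P) = eval (fun l => v (Sum.inl l)) P := by
    intro P
    simp only [emb, eval_rename]
    rfl
  have h1 := h (fun l => v (Sum.inl l)) (fun P hP => by
    rw [← hemb']; exact hv _ (Or.inl (Or.inl ⟨P, hP, rfl⟩))) (by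
    intro h0
    have := hv (T * emb B * Y a0 - 1) (Or.inr rfl)
    simp only [map_sub, map_mul, hemb', h0, map_one] at this
    simp at this)
  rw [Fintype.linearIndependent_iff] at h1
  have h2 := h1 (fun a => v (Sum.inr (Sum.inl a))) (by
    funext l
    have := hv (∑ a, Y a * emb (M a l)) (Or.inl (Or.inr ⟨l, rfl⟩))
    simp only [map_sum, map_mul, hemb', Y, eval_X] at this
    simpa using this) a0
  have := hv (T * emb B * Y a0 - 1) (Or.inr rfl)
  simp only [map_sub, map_mul, Y, eval_X, h2, mul_zero, map_one] at this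
  simp at this

/-- Steinitz: complete independent rows by standard basis vectors. -/
theorem exists_completion {κ : Type} [Field κ] {N : ℕ} {ρ : Type} [Fintype ρ]
    (Y : ρ → (Fin N → κ)) (hY : LinearIndependent κ Y) (q : ℕ) (hq : Fintype.card ρ + q ≤ N) :
    ∃ τ : Fin q → Fin N, LinearIndependent κ (Sum.elim Y (fun i => Pi.single (τ i) (1 : κ))) := by
  classical
  induction q with
  | zero =>
    refine ⟨Fin.elim0, ?_⟩
    have : (Sum.elim Y (fun i : Fin 0 => Pi.single ((Fin.elim0 : Fin 0 → Fin N) i) (1 : κ))) =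
      Y ∘ (Equiv.sumEmpty ρ (Fin 0)) := by
      funext i
      rcases i with i | i
      · rfl
      · exact i.elim0
    rw [this]
    exact (linearIndependent_equiv (Equiv.sumEmpty ρ (Fin 0))).2 hY
  | succ q ih =>
    obtain ⟨τ, hτ⟩ := ih (by omega)
    have hcard : Fintype.card (ρ ⊕ Fin q) < N := by
      rw [Fintype.card_sum, Fintype.card_fin]; omega
    have hex : ∃ l : Fin N, Pi.single l (1 : κ) ∉ Submodule.span κ
        (Set.range (Sum.elim Y (fun i => Pi.single (τ i) (1 : κ)))) := by
      by_contra! hcon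
      have htop : Submodule.span κ (Set.range (Sum.elim Y
          (fun i => (Pi.single (τ i) (1 : κ) : Fin N → κ)))) = ⊤ := by
        rw [eq_top_iff, ← (Pi.basisFun κ (Fin N)).span_eq, Submodule.span_le]
        rintro _ ⟨l, rfl⟩
        rw [Pi.basisFun_apply]
        exact hcon l
      have h1 := finrank_range_le_card (R := κ) (Sum.elim Y
          (fun i => (Pi.single (τ i) (1 : κ) : Fin N → κ)))
      rw [Set.finrank, htop, finrank_top, Module.finrank_fin_fun] at h1
      omega
    obtain ⟨l, hl⟩ := hex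
    refine ⟨Fin.snoc τ l, ?_⟩
    have h2 := hτ.option hl
    let e : ρ ⊕ Fin (q + 1) ≃ Option (ρ ⊕ Fin q) :=
      { toFun := Sum.elim (fun a => some (Sum.inl a))
          (Fin.snoc (α := fun _ => Option (ρ ⊕ Fin q)) (fun i => some (Sum.inr i)) none)
        invFun := fun o => o.elim (Sum.inr (Fin.last q)) (Sum.elim Sum.inl
          (fun i => Sum.inr (Fin.castSucc i)))
        left_inv := by
          rintro (a | i)
          · rfl
          · refine Fin.lastCases ?_ (fun i => ?_) i
            · simp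
            · simp
        right_inv := by
          rintro (_ | (a | i))
          · simp
          · simp
          · simp }
    have h3 := (linearIndependent_equiv e).2 h2
    have h4 : (Sum.elim Y fun i => Pi.single ((Fin.snoc τ l : Fin (q + 1) → Fin N) i) (1 : κ)) =
        (fun o : Option (ρ ⊕ Fin q) => o.casesOn' (Pi.single l (1 : κ))
          (Sum.elim Y fun i => Pi.single (τ i) (1 : κ))) ∘ e := by
      funext i
      rcases i with a | i
      · rfl
      · refine Fin.lastCases ?_ (fun i => ?_) i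
        · simp [e]
        · simp [e]
    rw [h4]
    exact h3

end Pool.Agent.Lib.MP_410da7_ag
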