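import Pool.Agent.Lib.MP_410da7_ag.Defs
import Pool.Agent.Lib.MP_410da7_ag.Transfer

/-!
# Valuations of determinants and initial forms
-/

set_option autoImplicit false

namespace Pool.Agent.Lib.MP_410da7_ag

open MvPolynomial WithZero

section valdet

variable {K : Type} [Field K] (v : Valuation K ℤᵐ⁰)

theorem val_eq_one_of_residue_ne_zero (a : v.valuationSubring)
    (h : IsLocalRing.residue v.valuationSubring a ≠ 0) : v (a : K) = 1 := by
  rw [IsLocalRing.residue_ne_zero_iff_isUnit] at h
  obtain ⟨b, hb⟩ := h.exists_right_inv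
  have h1 : v (a : K) * v (b : K) = 1 := by
    rw [← map_mul, ← map_one v]
    congr 1
    exact congrArg Subtype.val hb
  have ha : v (a : K) ≤ 1 := (Valuation.mem_valuationSubring_iff v _).1 a.2
  have hb' : v (b : K) ≤ 1 := (Valuation.mem_valuationSubring_iff v _).1 b.2
  refine le_antisymm ha ?_
  rw [← h1]
  exact mul_le_of_le_one_right' hb'

theorem val_lt_one_of_residue_eq_zero (a : v.valuationSubring)
    (h : IsLocalRing.residue v.valuationSubring a = 0) : v (a : K) < 1 := by
  have ha : v (a : K) ≤ 1 := (Valuation.mem_valuationSubring_iff v _).1 a.2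
  refine lt_of_le_of_ne ha fun h1 => ?_
  have hne : (a : K) ≠ 0 := by
    intro h0; rw [h0, map_zero] at h1; exact zero_ne_one h1
  have hinv : v ((a : K)⁻¹) ≤ 1 := by rw [map_inv₀, h1, inv_one]
  have : IsUnit a := by
    refine IsUnit.of_mul_eq_one (⟨(a : K)⁻¹, (Valuation.mem_valuationSubring_iff v _).2 hinv⟩ :
      v.valuationSubring) ?_
    apply Subtype.ext
    exact mul_inv_cancel₀ hne
  rw [← IsLocalRing.residue_ne_zero_iff_isUnit] at this
  exact this h

theorem residue_eq_zero_of_val_lt_one (a : v.valuationSubring) (h : v (a : K) < 1) :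
    IsLocalRing.residue v.valuationSubring a = 0 := by
  by_contra hne
  exact absurd (val_eq_one_of_residue_ne_zero v a hne) h.ne

theorem val_det {ι : Type} [Fintype ι] [DecidableEq ι] (S : Matrix ι ι K) (α s : ι → K)
    (Y : Matrix ι ι v.valuationSubring)
    (hS : ∀ i j, S i j * s j = α i * (Y i j : K))
    (hY : LinearIndependent (IsLocalRing.ResidueField v.valuationSubring)
      (fun i j => IsLocalRing.residue v.valuationSubring (Y i j))) :
    v S.det * ∏ j, v (s j) = ∏ i, v (α i) := by
  have h1 : v ((Y.det : v.valuationSubring) : K) = 1 := by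
    apply val_eq_one_of_residue_ne_zero
    rw [RingHom.map_det]
    have h2 : LinearIndependent (IsLocalRing.ResidueField v.valuationSubring)
      ((IsLocalRing.residue v.valuationSubring).mapMatrix Y).row := hY
    rw [Matrix.linearIndependent_rows_iff_isUnit, Matrix.isUnit_iff_isUnit_det] at h2
    exact h2.ne_zero
  have h2 : S * Matrix.diagonal s = Matrix.diagonal α * (v.valuationSubring.subtype.mapMatrix Y) := by
    ext i j
    rw [Matrix.mul_diagonal, Matrix.diagonal_mul, hS]
    rfl
  have h3 := congrArg Matrix.det h2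
  rw [Matrix.det_mul, Matrix.det_mul, Matrix.det_diagonal, Matrix.det_diagonal,
    ← RingHom.map_det] at h3
  have h4 := congrArg v h3
  rw [map_mul, map_mul, map_prod, map_prod] at h4
  rw [h4]
  change _ * v ((Y.det : v.valuationSubring) : K) = _
  rw [h1, mul_one]

/-- a nontrivial valuation has a uniformizer -/
theorem exists_unif (hnt : ∃ a : K, a ≠ 0 ∧ v a ≠ 1) :
    ∃ p : K, p ≠ 0 ∧ v p < 1 ∧ ∀ a : K, a ≠ 0 → ∃ k : ℤ, v a = v p ^ k := by
  have hex : ∃ n : ℕ, 0 < n ∧ ∃ a : K, v a = exp (-(n : ℤ)) := by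
    obtain ⟨a, ha, ha1⟩ := hnt
    have hva : v a ≠ 0 := by rwa [Valuation.ne_zero_iff]
    obtain ⟨k, hk⟩ : ∃ k : ℤ, v a = exp k := ⟨log (v a), (exp_log hva).symm⟩
    have hk0 : k ≠ 0 := by
      rintro rfl
      exact ha1 (by rw [hk, exp_zero])
    rcases lt_or_gt_of_ne hk0 with h | h
    · refine ⟨k.natAbs, by omega, a, ?_⟩
      rw [hk]; congr 1; omega
    · refine ⟨k.natAbs, by omega, a⁻¹, ?_⟩
      rw [map_inv₀, hk, ← exp_neg]; congr 1; omega
  classical
  obtain ⟨hn0, p, hp⟩ := Nat.find_spec hex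
  set n := Nat.find hex with hn
  have hp0 : p ≠ 0 := by
    rintro rfl
    rw [map_zero] at hp
    exact exp_ne_zero hp.symm
  refine ⟨p, hp0, ?_, fun a ha => ?_⟩
  · rw [hp, ← exp_zero, exp_lt_exp]; omega
  · have hva : v a ≠ 0 := by rwa [Valuation.ne_zero_iff]
    obtain ⟨k, hk⟩ : ∃ k : ℤ, v a = exp k := ⟨log (v a), (exp_log hva).symm⟩
    refine ⟨(-k) / n, ?_⟩
    by_contra hcon
    have hr : (-k) % n ≠ 0 := by
      intro h0
      apply hcon
      rw [hk, hp, ← exp_zsmul]
      congr 1
      have := Int.emod_add_mul_ediv (-k) n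
      rw [h0] at this
      simp only [zsmul_eq_mul, Int.cast_eq]
      linarith
    have hr0 : 0 ≤ (-k) % n := Int.emod_nonneg _ (by omega)
    have hr1 : (-k) % n < n := Int.emod_lt_of_pos _ (by omega)
    refine Nat.find_min hex (m := ((-k) % n).toNat) (by omega) ⟨by omega,
      a * (p ^ ((-k) / n))⁻¹, ?_⟩
    rw [map_mul, map_inv₀, map_zpow₀, hk, hp, ← exp_zsmul, ← exp_neg, ← exp_add]
    congr 1
    have := Int.emod_add_mul_ediv (-k) n
    simp only [zsmul_eq_mul, Int.cast_eq]
    have h5 : (((-k) % n).toNat : ℤ) = (-k) % n := Int.toNat_of_nonneg hr0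
    rw [h5]
    linarith

end valdet

end Pool.Agent.Lib.MP_410da7_ag
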