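import Pool.Agent.Lib.MP_410da7_ag.Defs
import Pool.Agent.Lib.MP_410da7_ag.Kaehler
import Pool.Agent.Lib.MP_410da7_ag.Val

/-!
# Bad valuations are divisorial
-/

set_option autoImplicit false

namespace Pool.Agent.Lib.MP_410da7_ag

open MvPolynomial KaehlerDifferential WithZero

section CYDiv

variable {K : Type} [Field K] [Algebra ℂ K]

/-- the logarithmic differential -/
noncomputable def cydivDlog (z : K) : Ω[K⁄ℂ] := z⁻¹ • D ℂ K z

theorem cydiv_dlog_mem (v : Valuation K ℤᵐ⁰) {z : K} (hz : z ≠ 0) : cydivDlog z ∈ logDiff v := by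
  apply AddSubgroup.subset_closure
  right
  exact ⟨1, z, by simp, hz, by simp [cydivDlog]⟩

theorem cydiv_D_eq {z : K} (hz : z ≠ 0) : D ℂ K z = z • cydivDlog z := by
  rw [cydivDlog, smul_smul, mul_inv_cancel₀ hz, one_smul]

theorem cydiv_dlog_mul {z w : K} (hz : z ≠ 0) (hw : w ≠ 0) :
    cydivDlog (z * w) = cydivDlog z + cydivDlog w := by
  rw [cydivDlog, Derivation.leibniz, smul_add, smul_smul, smul_smul, cydivDlog, cydivDlog, add_comm]
  congr 2 <;> field_simp

theorem cydiv_dlog_zpow {z : K} (hz : z ≠ 0) (n : ℤ) :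
    cydivDlog (z ^ n) = (n : K) • cydivDlog z := by
  rw [cydivDlog, Derivation.leibniz_zpow, ← Int.cast_smul_eq_zsmul K, smul_smul, smul_smul,
    cydivDlog, smul_smul, zpow_sub_one₀ hz]
  congr 1
  have := zpow_ne_zero n hz
  field_simp

theorem cydiv_D_aeval {ι : Type} [Fintype ι] (y : ι → K) (P : MvPolynomial ι ℂ) :
    D ℂ K (aeval y P) = ∑ i, aeval y (pderiv i P) • D ℂ K (y i) := by
  classical
  induction P using MvPolynomial.induction_on with
  | C a =>
    rw [aeval_C, Derivation.map_algebraMap]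
    simp
  | add p q hp hq =>
    rw [map_add, map_add, hp, hq, ← Finset.sum_add_distrib]
    exact Finset.sum_congr rfl fun i _ => by rw [map_add, map_add, add_smul]
  | mul_X p i hp =>
    rw [map_mul, Derivation.leibniz, hp, aeval_X, Finset.smul_sum]
    have : ∀ l, aeval y (pderiv l (p * X i)) = aeval y p * (if i = l then 1 else 0) +
        y i * aeval y (pderiv l p) := by
      intro l
      simp only [Derivation.leibniz, smul_eq_mul, map_add, map_mul, aeval_X, pderiv_X,
        Pi.single_apply]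
      split_ifs with h
      · simp
      · simp
    simp only [this, add_smul, Finset.sum_add_distrib, smul_smul]
    congr 1
    rw [Finset.sum_eq_single i]
    · simp
    · intro b _ hb; simp [Ne.symm hb]
    · simp

/-- in characteristic zero a nonconstant polynomial has a nonzero derivative, of smaller degree -/
theorem cydiv_exists_pderiv {ι : Type} (P : MvPolynomial ι ℂ) (hP : P.totalDegree ≠ 0) :
    ∃ i, pderiv i P ≠ 0 ∧ (pderiv i P).totalDegree < P.totalDegree := by
  classical
  have hlt : ∀ i, pderiv i P ≠ 0 → (pderiv i P).totalDegree < P.totalDegree := by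
    intro i hi
    rw [totalDegree, Finset.sup_lt_iff (Nat.pos_of_ne_zero hP)]
    intro e he
    rw [mem_support_iff, coeff_pderiv] at he
    have h1 : e + Finsupp.single i 1 ∈ P.support := by
      rw [mem_support_iff]
      exact left_ne_zero_of_mul he
    have h2 := le_totalDegree h1
    rw [Finsupp.sum_add_index' (by simp) (by simp), Finsupp.sum_single_index rfl] at h2
    exact h2
  by_contra hcon
  push Not at hcon
  have h0 : ∀ i, pderiv i P = 0 := fun i => by
    by_contra hi
    exact absurd (hlt i hi) (not_lt.2 (hcon i hi))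
  apply hP
  rw [totalDegree_eq_zero_iff]
  intro m hm i
  by_contra hmi
  have h1 := coeff_pderiv (i := i) P (m - Finsupp.single i 1)
  have h2 : m - Finsupp.single i 1 + Finsupp.single i 1 = m := by
    ext j
    by_cases hj : j = i
    · subst hj
      simp
      omega
    · simp [Ne.symm hj]
  rw [h0 i, coeff_zero, h2] at h1
  rw [mem_support_iff] at hm
  rcases mul_eq_zero.1 h1.symm with h | h
  · exact hm h
  · norm_cast at h

/-- elements with linearly independent differentials are algebraically independent -/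
theorem cydiv_algebraicIndependent {ι : Type} [Fintype ι] (y : ι → K)
    (hli : LinearIndependent K (fun i => D ℂ K (y i))) : AlgebraicIndependent ℂ y := by
  rw [algebraicIndependent_iff]
  have key : ∀ (n : ℕ) (P : MvPolynomial ι ℂ), P.totalDegree = n → P ≠ 0 → aeval y P ≠ 0 := by
    intro n
    induction n using Nat.strong_induction_on with
    | _ n ih =>
      intro P hn hP h0
      by_cases hn0 : P.totalDegree = 0
      · obtain ⟨c, rfl⟩ : ∃ c, P = C c := ⟨_, (totalDegree_eq_zero_iff_eq_C).1 hn0⟩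
        rw [aeval_C] at h0
        apply hP
        rw [(map_eq_zero_iff _ (algebraMap ℂ K).injective).1 h0, C_0]
      · obtain ⟨i, hi, hlt⟩ := cydiv_exists_pderiv P hn0
        have h1 := cydiv_D_aeval y P
        rw [h0, map_zero] at h1
        have h2 := Fintype.linearIndependent_iff.1 hli _ h1.symm i
        exact ih _ (hn ▸ hlt) _ rfl hi h2
  intro P hP
  by_contra h
  exact key _ P rfl h hP

/-- polynomials in units whose logarithmic differentials are part of a maximal frame are units -/
theorem cydiv_val_aeval (v : Valuation K ℤᵐ⁰)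
    (hv : ∀ c : ℂ, c ≠ 0 → v (algebraMap ℂ K c) = 1) {ι : Type} [Fintype ι] (y : ι → K)
    (hli : LinearIndependent K (fun i => cydivDlog (y i))) (hy : ∀ i, v (y i) = 1)
    (hc : ∀ (a : K) (c : ι → K), a ≠ 0 → cydivDlog a = ∑ i, c i • cydivDlog (y i) →
      ∀ i, v (c i) ≤ 1) (P : MvPolynomial ι ℂ) (hP : P ≠ 0) : v (aeval y P) = 1 := by
  have hy0 : ∀ i, y i ≠ 0 := by
    intro i h
    have := hy i
    rw [h, map_zero] at this
    exact zero_ne_one this
  have hli' : LinearIndependent K (fun i => D ℂ K (y i)) := by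
    have h1 := hli.units_smul (fun i => Units.mk0 (y i) (hy0 i))
    convert h1 using 2 with i
    exact cydiv_D_eq (hy0 i)
  have halg := cydiv_algebraicIndependent y hli'
  have hle : ∀ P : MvPolynomial ι ℂ, v (aeval y P) ≤ 1 := by
    intro P
    induction P using MvPolynomial.induction_on with
    | C a =>
      rw [aeval_C]
      by_cases ha : a = 0
      · simp [ha]
      · exact (hv a ha).le
    | add p q hp hq =>
      rw [map_add]
      exact (v.map_add _ _).trans (max_le hp hq)
    | mul_X p i hp =>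
      rw [map_mul, map_mul, aeval_X, hy i, mul_one]
      exact hp
  have key : ∀ (n : ℕ) (P : MvPolynomial ι ℂ), P.totalDegree = n → P ≠ 0 → v (aeval y P) = 1 := by
    intro n
    induction n using Nat.strong_induction_on with
    | _ n ih =>
      intro P hn hP
      by_cases hn0 : P.totalDegree = 0
      · obtain ⟨c, rfl⟩ : ∃ c, P = C c := ⟨_, (totalDegree_eq_zero_iff_eq_C).1 hn0⟩
        rw [aeval_C]
        apply hv
        rintro rfl
        exact hP C_0
      · obtain ⟨i, hi, hlt⟩ := cydiv_exists_pderiv P hn0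
        have h3 := ih _ (hn ▸ hlt) _ rfl hi
        have hne : aeval y P ≠ 0 := fun h0 => hP ((algebraicIndependent_iff.1 halg) P h0)
        have h4 := hc (aeval y P) (fun i => (aeval y P)⁻¹ * (aeval y (pderiv i P) * y i)) hne (by
          rw [cydivDlog, cydiv_D_aeval, Finset.smul_sum]
          refine Finset.sum_congr rfl fun j _ => ?_
          rw [cydiv_D_eq (hy0 j), smul_smul, smul_smul, mul_assoc]) i
        rw [map_mul, map_mul, h3, hy i, mul_one, mul_one, map_inv₀] at h4
        have h5 : v (aeval y P) ≠ 0 := (Valuation.ne_zero_iff v).2 hne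
        refine le_antisymm (hle P) ?_
        exact (inv_le_one₀ (zero_lt_iff.2 h5)).1 h4
  exact key _ P rfl hP

omit [Algebra ℂ K] in
/-- effect on a top form of a rank one change of a frame -/
theorem cydiv_rankone {V : Type} [AddCommGroup V] [Module K V] {d : ℕ}
    (Ψ : V [⋀^Fin d]→ₗ[K] K) (b : Module.Basis (Fin d) K V) (u : V) (c : Fin d → K) :
    Ψ (fun j => b j + c j • u) = (1 + ∑ j, c j * b.repr u j) * Ψ b := by
  have h1 : ∀ θ, Ψ θ = Ψ b * b.det θ := by
    intro θ
    have := DFunLike.congr_fun (Ψ.eq_smul_basis_det b) θ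
    simpa using this
  rw [h1, mul_comm, Module.Basis.det_apply]
  congr 1
  have h2 : b.toMatrix (fun j => b j + c j • u) =
      1 + Matrix.replicateCol Unit (fun i => b.repr u i) * Matrix.replicateRow Unit c := by
    ext i j
    rw [Module.Basis.toMatrix_apply, Matrix.add_apply, Matrix.mul_apply, map_add, map_smul,
      Finsupp.add_apply, Finsupp.smul_apply, Module.Basis.repr_self]
    simp only [Matrix.replicateCol_apply, Matrix.replicateRow_apply, Finset.univ_unique,
      Finset.sum_const, Finset.card_singleton, one_smul, smul_eq_mul, Matrix.one_apply,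
      Finsupp.single_apply]
    rw [mul_comm (c j)]
    congr 1
    by_cases hij : i = j
    · simp [hij]
    · simp [hij, Ne.symm hij]
  rw [h2, Matrix.det_one_add_replicateCol_mul_replicateRow]
  rfl

omit [Algebra ℂ K] in
/-- replacing one member of a frame -/
theorem cydiv_update {V : Type} [AddCommGroup V] [Module K V] {d : ℕ}
    (Ψ : V [⋀^Fin d]→ₗ[K] K) (θ : Fin d → V) (u : V) (c : Fin d → K)
    (hu : u = ∑ i, c i • θ i) (i : Fin d) : Ψ (Function.update θ i u) = c i * Ψ θ := by
  rw [hu, AlternatingMap.map_update_sum, Finset.sum_eq_single i]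
  · rw [AlternatingMap.map_update_smul, Function.update_eq_self, smul_eq_mul]
  · intro j _ hj
    rw [AlternatingMap.map_update_smul, AlternatingMap.map_update_self Ψ θ (Ne.symm hj),
      smul_zero]
  · intro h
    exact absurd (Finset.mem_univ i) h

theorem cydiv_dlog_update {d : ℕ} (z : Fin d → K) (i : Fin d) (a : K) :
    (fun j => cydivDlog (Function.update z i a j)) =
      Function.update (fun j => cydivDlog (z j)) i (cydivDlog a) := by
  funext j
  by_cases hj : j = i
  · subst hj; simp
  · simp [hj]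

theorem cydiv_val_intCast (v : Valuation K ℤᵐ⁰)
    (hv : ∀ c : ℂ, c ≠ 0 → v (algebraMap ℂ K c) = 1) (n : ℤ) : v (n : K) ≤ 1 := by
  by_cases hn : n = 0
  · simp [hn]
  · have h1 : ((n : ℂ)) ≠ 0 := by exact_mod_cast hn
    have h2 := hv _ h1
    rw [map_intCast] at h2
    exact h2.le

end CYDiv

/-- If the values of a top form on logarithmic differentials are bounded by `v F`, `F ≠ 0`, then
the valuation is discrete and nontrivial, and there is a transcendence basis consisting of a
uniformizer and units with algebraically independent residues. -/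
theorem exists_divisorial {K : Type} [Field K] [Algebra ℂ K] {d : ℕ} (v : Valuation K ℤᵐ⁰)
    (hv : ∀ c : ℂ, c ≠ 0 → v (algebraMap ℂ K c) = 1) (ξ0 : Fin d → K)
    (hξ0 : IsTranscendenceBasis ℂ ξ0) (Ψ : Ω[K⁄ℂ] [⋀^Fin d]→ₗ[K] K) (hΨ : Ψ ≠ 0) (F : K)
    (hnot : ∀ θ : Fin d → Ω[K⁄ℂ], (∀ i, θ i ∈ logDiff v) → v (Ψ θ) < v F) :
    ∃ (i0 : Fin d) (ξ : Fin d → K), IsTranscendenceBasis ℂ ξ ∧ v (ξ i0) < 1 ∧
      (∀ a : K, a ≠ 0 → ∃ n : ℤ, v a = v (ξ i0) ^ n) ∧
      ∀ P : MvPolynomial {i // i ≠ i0} ℂ, P ≠ 0 →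
        v (aeval (fun i : {i // i ≠ i0} => ξ i) P) = 1 := by
  classical
  obtain ⟨b0, hb0⟩ := exists_kaehlerBasis ξ0 hξ0
  have : Module.Finite K Ω[K⁄ℂ] := Module.Finite.of_basis b0
  have hfin : Module.finrank K Ω[K⁄ℂ] = d := by
    rw [Module.finrank_eq_card_basis b0, Fintype.card_fin]
  have hξ00 : ∀ i, ξ0 i ≠ 0 := fun i => hξ0.1.ne_zero i
  have hΨb0 : Ψ b0 ≠ 0 := by
    intro h0
    apply hΨ
    ext θ
    have := DFunLike.congr_fun (Ψ.eq_smul_basis_det b0) θ
    rw [this]
    simp [h0]
  -- the maximal value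
  obtain ⟨M, ⟨z, hz0, hzM⟩, hM⟩ : ∃ M : ℤ, (∃ z : Fin d → K, (∀ i, z i ≠ 0) ∧
      v (Ψ (fun i => cydivDlog (z i))) = exp M) ∧ ∀ n : ℤ, (∃ z : Fin d → K, (∀ i, z i ≠ 0) ∧
      v (Ψ (fun i => cydivDlog (z i))) = exp n) → n ≤ M := by
    apply Int.exists_greatest_of_bdd
    · refine ⟨log (v F), ?_⟩
      rintro n ⟨z, hz0, hz⟩
      have h1 := hnot _ (fun i => cydiv_dlog_mem v (hz0 i))
      have h2 : v F ≠ 0 := ne_of_gt (lt_of_le_of_lt zero_le h1)
      rw [hz, ← exp_log h2, exp_lt_exp] at h1
      exact h1.le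
    · have h1 : Ψ (fun i => cydivDlog (ξ0 i)) ≠ 0 := by
        have h2 : (fun i => cydivDlog (ξ0 i)) = fun i => (ξ0 i)⁻¹ • b0 i := by
          funext i
          rw [hb0, cydivDlog]
        rw [h2, AlternatingMap.map_smul_univ, smul_eq_mul]
        refine mul_ne_zero (Finset.prod_ne_zero_iff.2 fun i _ => inv_ne_zero (hξ00 i)) hΨb0
      refine ⟨log (v (Ψ (fun i => cydivDlog (ξ0 i)))), ξ0, hξ00, ?_⟩
      rw [exp_log ((Valuation.ne_zero_iff v).2 h1)]
  have hMle : ∀ y : Fin d → K, (∀ i, y i ≠ 0) → v (Ψ (fun i => cydivDlog (y i))) ≤ exp M := by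
    intro y hy
    by_cases h0 : Ψ (fun i => cydivDlog (y i)) = 0
    · rw [h0, map_zero]; exact zero_le
    · have h1 := exp_log ((Valuation.ne_zero_iff v).2 h0)
      rw [← h1, exp_le_exp]
      exact hM _ ⟨y, hy, h1.symm⟩
  -- coefficients
  have hcoef : ∀ y : Fin d → K, (∀ i, y i ≠ 0) → v (Ψ (fun i => cydivDlog (y i))) = exp M →
      ∀ (a : K) (c : Fin d → K), a ≠ 0 → cydivDlog a = ∑ i, c i • cydivDlog (y i) →
      ∀ i, v (c i) ≤ 1 := by
    intro y hy hyM a c ha hac i
    have h1 := hMle (Function.update y i a) (by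
      intro j
      by_cases hj : j = i
      · subst hj; simpa using ha
      · simpa [hj] using hy j)
    rw [cydiv_dlog_update, cydiv_update Ψ _ _ c hac, map_mul, hyM] at h1
    exact le_of_mul_le_mul_right (by rwa [one_mul]) exp_pos
  have hlin : ∀ y : Fin d → K, v (Ψ (fun i => cydivDlog (y i))) = exp M →
      LinearIndependent K (fun i => cydivDlog (y i)) := by
    intro y hyM
    by_contra h
    rw [Ψ.map_linearDependent _ h, map_zero] at hyM
    exact exp_ne_zero hyM.symm
  have hbas : ∀ y : Fin d → K, v (Ψ (fun i => cydivDlog (y i))) = exp M →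
      ∃ b : Module.Basis (Fin d) K Ω[K⁄ℂ], ∀ i, b i = cydivDlog (y i) := by
    intro y hyM
    have h1 := hlin y hyM
    have h2 := h1.span_eq_top_of_card_eq_finrank' (by rw [hfin, Fintype.card_fin])
    exact ⟨Module.Basis.mk h1 h2.ge, fun i => by rw [Module.Basis.mk_apply]⟩
  have htb : ∀ y : Fin d → K, (∀ i, y i ≠ 0) → v (Ψ (fun i => cydivDlog (y i))) = exp M →
      IsTranscendenceBasis ℂ y := by
    intro y hy hyM
    have h1 := hlin y hyM
    have h2 : LinearIndependent K (fun i => D ℂ K (y i)) := by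
      have h3 := h1.units_smul (fun i => Units.mk0 (y i) (hy i))
      convert h3 using 2 with i
      exact cydiv_D_eq (hy i)
    refine AlgebraicIndependent.isTranscendenceBasis_of_trdeg_le_of_finite
      (cydiv_algebraicIndependent y h2) ?_
    rw [hξ0.cardinalMk_eq_trdeg]
  -- uniformizer
  obtain ⟨p, hp0, hp1, hpow⟩ := exists_unif v (by
    by_contra hcon
    push Not at hcon
    have h1 := hnot _ (fun i => cydiv_dlog_mem v (hz0 i))
    have h2 : v F ≠ 0 := ne_of_gt (lt_of_le_of_lt zero_le h1)
    have h3 : v (Ψ (fun i => cydivDlog (z i))) ≠ 0 := by rw [hzM]; exact exp_ne_zero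
    rw [hcon _ ((Valuation.ne_zero_iff v).1 h2), hcon _ ((Valuation.ne_zero_iff v).1 h3)] at h1
    exact lt_irrefl _ h1)
  have hvp0 : v p ≠ 0 := (Valuation.ne_zero_iff v).2 hp0
  choose n hn using fun i => hpow (z i) (hz0 i)
  have hz'0 : ∀ i, z i * p ^ (-n i) ≠ 0 := fun i => mul_ne_zero (hz0 i) (zpow_ne_zero _ hp0)
  have hz'1 : ∀ i, v (z i * p ^ (-n i)) = 1 := by
    intro i
    rw [map_mul, map_zpow₀, hn, ← zpow_add₀ hvp0, add_neg_cancel, zpow_zero]
  have hz'd : ∀ i, cydivDlog (z i * p ^ (-n i)) =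
      cydivDlog (z i) + (((-n i : ℤ) : K)) • cydivDlog p := by
    intro i
    rw [cydiv_dlog_mul (hz0 i) (zpow_ne_zero _ hp0), cydiv_dlog_zpow hp0]
  obtain ⟨b, hb⟩ := hbas z hzM
  have hbz : (b : Fin d → Ω[K⁄ℂ]) = fun i => cydivDlog (z i) := funext hb
  have hrepr : cydivDlog p = ∑ i, b.repr (cydivDlog p) i • cydivDlog (z i) := by
    conv_lhs => rw [← b.sum_repr (cydivDlog p)]
    exact Finset.sum_congr rfl fun i _ => by rw [hb]
  have hale := hcoef z hz0 hzM p _ hp0 hrepr
  by_cases hex : ∃ i0, v (b.repr (cydivDlog p) i0) = 1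
  · obtain ⟨i0, hi0⟩ := hex
    -- replace `z i0` by `p`
    let w : Fin d → K := Function.update z i0 p
    have hw0 : ∀ i, w i ≠ 0 := by
      intro j
      by_cases hj : j = i0
      · subst hj; simpa [w] using hp0
      · simpa [w, hj] using hz0 j
    have hwM : v (Ψ (fun i => cydivDlog (w i))) = exp M := by
      change v (Ψ (fun i => cydivDlog (Function.update z i0 p i))) = exp M
      rw [cydiv_dlog_update, cydiv_update Ψ _ _ _ hrepr, map_mul, hi0, one_mul, hzM]
    obtain ⟨b', hb'⟩ := hbas w hwM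
    let ξ : Fin d → K := fun j => if j = i0 then p else z j * p ^ (-n j)
    have hξi0 : ξ i0 = p := by simp [ξ]
    have hξj : ∀ j, j ≠ i0 → ξ j = z j * p ^ (-n j) := fun j hj => by simp [ξ, hj]
    have hξ0' : ∀ i, ξ i ≠ 0 := by
      intro j
      by_cases hj : j = i0
      · subst hj; rw [hξi0]; exact hp0
      · rw [hξj j hj]; exact hz'0 j
    have hξM : v (Ψ (fun i => cydivDlog (ξ i))) = exp M := by
      have h1 : (fun i => cydivDlog (ξ i)) = fun j => b' j +
          (if j = i0 then (0 : K) else ((-n j : ℤ) : K)) • cydivDlog p := by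
        funext j
        rw [hb']
        by_cases hj : j = i0
        · subst hj
          simp [hξi0, w]
        · rw [hξj j hj, hz'd, if_neg hj]
          simp [w, hj]
      rw [h1, cydiv_rankone]
      have h2 : cydivDlog p = b' i0 := by rw [hb']; simp [w]
      have h3 : ∑ j, (if j = i0 then (0 : K) else ((-n j : ℤ) : K)) *
          b'.repr (cydivDlog p) j = 0 := by
        refine Finset.sum_eq_zero fun j _ => ?_
        by_cases hj : j = i0
        · simp [hj]
        · rw [h2, Module.Basis.repr_self, Finsupp.single_apply, if_neg (Ne.symm hj), mul_zero]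
      rw [h3, add_zero, one_mul]
      have h4 : (b' : Fin d → Ω[K⁄ℂ]) = fun i => cydivDlog (w i) := funext hb'
      rw [h4, hwM]
    refine ⟨i0, ξ, htb ξ hξ0' hξM, by rw [hξi0]; exact hp1, by rw [hξi0]; exact hpow, ?_⟩
    intro P hP
    refine cydiv_val_aeval v hv _ ?_ ?_ ?_ P hP
    · exact (hlin ξ hξM).comp _ Subtype.val_injective
    · rintro ⟨j, hj⟩
      change v (ξ j) = 1
      rw [hξj j hj, hz'1]
    · intro a c ha hac
      have h5 := hcoef ξ hξ0' hξM a (fun i => if h : i ≠ i0 then c ⟨i, h⟩ else 0) ha (by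
        rw [hac, Fintype.sum_eq_add_sum_subtype_ne _ i0, dif_neg (by simp), zero_smul, zero_add]
        refine Finset.sum_congr rfl fun i _ => ?_
        rw [dif_pos i.2])
      rintro ⟨j, hj⟩
      have h6 := h5 j
      rw [dif_pos hj] at h6
      exact h6
  · -- all coefficients are in the maximal ideal
    exfalso
    push Not at hex
    let z' : Fin d → K := fun i => z i * p ^ (-n i)
    have hz'M : v (Ψ (fun i => cydivDlog (z' i))) = exp M := by
      have h1 : (fun i => cydivDlog (z' i)) = fun j => b j + ((-n j : ℤ) : K) • cydivDlog p := by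
        funext j
        rw [hb, ← hz'd]
      rw [h1, cydiv_rankone, map_mul, hbz, hzM]
      have h2 : v (∑ j, ((-n j : ℤ) : K) * b.repr (cydivDlog p) j) < 1 := by
        refine v.map_sum_lt one_ne_zero fun j _ => ?_
        rw [map_mul]
        refine lt_of_le_of_lt (mul_le_of_le_one_left' (cydiv_val_intCast v hv _)) ?_
        exact lt_of_le_of_ne (hale j) (hex j)
      rw [v.map_one_add_of_lt h2, one_mul]
    have hunit : ∀ P : MvPolynomial (Fin d) ℂ, P ≠ 0 → v (aeval z' P) = 1 := by
      intro P hP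
      exact cydiv_val_aeval v hv z' (hlin z' hz'M) hz'1 (hcoef z' hz'0 hz'M) P hP
    have hT := htb z' hz'0 hz'M
    have hle : ∀ c : Algebra.adjoin ℂ (Set.range z'), v (c : K) ≤ 1 ∧ (c ≠ 0 → v (c : K) = 1) := by
      intro c
      have hc : (c : K) ∈ (aeval z' : MvPolynomial (Fin d) ℂ →ₐ[ℂ] K).range := by
        rw [← Algebra.adjoin_range_eq_range_aeval]
        exact c.2
      obtain ⟨P, hP⟩ := hc
      have hP' : aeval z' P = (c : K) := hP
      by_cases hP0 : P = 0
      · rw [hP0, map_zero] at hP'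
        rw [← hP', map_zero]
        refine ⟨zero_le, fun h => absurd ?_ h⟩
        exact Subtype.ext hP'.symm
      · rw [← hP', hunit P hP0]
        exact ⟨le_rfl, fun _ => rfl⟩
    have halg : Algebra.IsAlgebraic (Algebra.adjoin ℂ (Set.range z')) K := hT.isAlgebraic
    obtain ⟨q, hq0, hq⟩ := (halg.isAlgebraic p).exists_nonzero_coeff_and_aeval_eq_zero
      (mem_nonZeroDivisors_of_ne_zero hp0)
    have h1 := congrArg (Polynomial.aeval p) (Polynomial.divX_mul_X_add q)
    rw [map_add, map_mul, hq, Polynomial.aeval_X, Polynomial.aeval_C] at h1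
    have h2 : v (Polynomial.aeval p q.divX) ≤ 1 := by
      rw [Polynomial.aeval_eq_sum_range]
      refine v.map_sum_le fun i _ => ?_
      rw [Algebra.smul_def, map_mul, map_pow]
      exact mul_le_one' (hle _).1 (pow_le_one' hp1.le _)
    have h3 : v (q.coeff 0 : K) = v (Polynomial.aeval p q.divX) * v p := by
      rw [← map_mul]
      have : ((q.coeff 0 : Algebra.adjoin ℂ (Set.range z')) : K) =
          -(Polynomial.aeval p q.divX * p) := by
        rw [eq_neg_iff_add_eq_zero, add_comm]
        exact h1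
      rw [this, Valuation.map_neg]
    rw [(hle _).2 hq0] at h3
    have h4 : v (Polynomial.aeval p q.divX) * v p < 1 :=
      lt_of_le_of_lt (mul_le_of_le_one_left' h2) hp1
    exact absurd h3 h4.ne'

end Pool.Agent.Lib.MP_410da7_ag
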