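import Pool.Agent.Lib.MP_410da7_ag.Family

/-!
# A curve through the generic point gives `𝔸¹`-uniruledness
-/

set_option autoImplicit false

namespace Pool.Agent.Lib.MP_410da7_ag

open MvPolynomial

theorem a1Uniruled_of_curve {N r s : ℕ} (f : Fin r → MvPolynomial (Fin N) ℂ)
    (g : Fin s → MvPolynomial (Fin N) ℂ) {R : Type} [CommRing R] [IsDomain R] [Algebra ℂ R]
    (hR : Algebra.FiniteType ℂ R) {x : Fin N → R} (hx : Universal f g x)
    {E : Type} [Field E] [IsAlgClosed E] [Algebra ℂ E] [Algebra R E] [IsScalarTower ℂ R E]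
    [Algebra.IsAlgebraic R E] (hinj : Function.Injective (algebraMap R E))
    (γ : Fin N → Polynomial E) (hγ0 : ∀ l, (γ l).eval 0 = algebraMap R E (x l))
    (l₀ : Fin N) (hl₀ : 0 < (γ l₀).natDegree)
    (hγf : ∀ k, aeval γ (f k) =
      Polynomial.C (aeval (fun l => algebraMap R E (x l)) (f k)))
    (hγg : ∀ j, aeval γ (g j) =
      Polynomial.C (aeval (fun l => algebraMap R E (x l)) (g j))) :
    A1Uniruled R := by
  classical
  let p : Fin N → E := fun l => algebraMap R E (x l)
  have hp : ∀ F : MvPolynomial (Fin N) ℂ, aeval p F = algebraMap R E (aeval x F) := by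
    intro F
    have := MvPolynomial.map_aeval (R := ℂ) x (algebraMap R E) F
    rw [← IsScalarTower.algebraMap_eq] at this
    rw [this]
    rfl
  set b : E := (γ l₀).leadingCoeff with hb
  have hb0 : b ≠ 0 := by
    rw [hb, Ne, Polynomial.leadingCoeff_eq_zero]
    rintro h
    rw [h, Polynomial.natDegree_zero] at hl₀
    exact lt_irrefl _ hl₀
  let T : Finset E := (Finset.univ.biUnion fun l => (γ l).coeffs) ∪ {b⁻¹}
  let A := Algebra.adjoin R (T : Set E)
  have hAft : Algebra.FiniteType R A := (Subalgebra.fg_iff_finiteType _).mp (Subalgebra.fg_adjoin_finset T)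
  have hA : Algebra.FiniteType ℂ A := Algebra.FiniteType.trans hR hAft
  have hmapinj : Function.Injective (algebraMap A E) := Subtype.coe_injective
  have hRA : Function.Injective (algebraMap R A) := by
    intro u v huv
    apply hinj
    rw [IsScalarTower.algebraMap_apply R A E, huv, ← IsScalarTower.algebraMap_apply R A E]
  have hfs : FaithfulSMul R A := (faithfulSMul_iff_algebraMap_injective _ _).2 hRA
  have halg : Algebra.IsAlgebraic R A := by
    constructor
    intro a
    exact (isAlgebraic_algHom_iff (IsScalarTower.toAlgHom R A E) hmapinj).1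
      (Algebra.IsAlgebraic.isAlgebraic (R := R) ((a : A) : E))
  have hd : Algebra.trdeg ℂ A = Algebra.trdeg ℂ R := by
    have h1 : Algebra.trdeg ℂ R + Algebra.trdeg R A = Algebra.trdeg ℂ A := trdeg_add_eq ℂ R
    rw [trdeg_eq_zero (R := R) (A := A), add_zero] at h1
    exact h1.symm
  -- lift the curve to `A`
  have hlift : ∀ l, ∃ q : Polynomial A, q.map (algebraMap A E) = γ l := by
    intro l
    have : γ l ∈ Polynomial.lifts (algebraMap A E) := by
      rw [Polynomial.lifts_iff_coeff_lifts]
      intro i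
      by_cases hi : (γ l).coeff i = 0
      · exact ⟨0, by rw [hi, map_zero]⟩
      · refine ⟨⟨(γ l).coeff i, Algebra.subset_adjoin ?_⟩, rfl⟩
        rw [Finset.mem_coe]
        exact Finset.mem_union_left _ (Finset.mem_biUnion.mpr ⟨l, Finset.mem_univ _,
          Polynomial.coeff_mem_coeffs hi⟩)
    exact this
  choose q hq using hlift
  have hpolyinj : Function.Injective (Polynomial.map (algebraMap A E)) :=
    Polynomial.map_injective _ hmapinj
  have hqF : ∀ F : MvPolynomial (Fin N) ℂ, (aeval q F).map (algebraMap A E) = aeval γ F := by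
    intro F
    have h1 := curve_map_aeval (IsScalarTower.toAlgHom ℂ A E) q F
    have h2 : (fun l => (q l).map ((IsScalarTower.toAlgHom ℂ A E : A →ₐ[ℂ] E) : A →+* E)) = γ :=
      funext hq
    rw [h2] at h1
    exact h1
  obtain ⟨φ, hφ⟩ := hx.lift q (fun k => by
      apply hpolyinj
      rw [hqF, hγf, hp, hx.zero, map_zero, Polynomial.C_0, Polynomial.map_zero])
    (fun j => by
      have h1 : aeval q (g j) = Polynomial.C (algebraMap R A (aeval x (g j))) := by
        apply hpolyinj
        rw [hqF, hγg, hp, Polynomial.map_C, ← IsScalarTower.algebraMap_apply R A E]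
      rw [h1]
      exact ((hx.unit j).map (algebraMap R A)).map Polynomial.C)
  have hev : ((Polynomial.aeval (R := A) (0 : A)).restrictScalars ℂ).comp φ =
      IsScalarTower.toAlgHom ℂ R A := by
    apply hx.ext
    intro l
    rw [AlgHom.comp_apply, hφ]
    apply hmapinj
    have h1 := hγ0 l
    rw [← hq l, Polynomial.eval_zero_map] at h1
    rw [← Polynomial.coe_aeval_eq_eval] at h1
    exact h1
  have hφinj : Function.Injective φ := by
    intro u v huv
    apply hRA
    have h1 := congrArg (fun h => h u) hev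
    have h2 := congrArg (fun h => h v) hev
    simp only [AlgHom.comp_apply] at h1 h2
    rw [huv, h2] at h1
    exact h1.symm
  have hdeg : (φ (x l₀)).natDegree = (γ l₀).natDegree := by
    rw [hφ, ← hq l₀, Polynomial.natDegree_map_eq_of_injective hmapinj]
  refine a1Uniruled_of_family hR hA hd φ hφinj (x l₀) (by rwa [hdeg]) ?_
  have h1 : algebraMap A E (φ (x l₀)).leadingCoeff = b := by
    rw [hφ, hb, ← hq l₀, Polynomial.leadingCoeff_map_of_injective hmapinj]
  have h2 : b⁻¹ ∈ A := Algebra.subset_adjoin (by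
    rw [Finset.mem_coe]
    exact Finset.mem_union_right _ (Finset.mem_singleton_self _))
  refine IsUnit.of_mul_eq_one ⟨b⁻¹, h2⟩ (hmapinj ?_)
  rw [map_mul, h1, map_one]
  exact mul_inv_cancel₀ hb0


theorem a1Uniruled_of_curve' {N r s : ℕ} (f : Fin r → MvPolynomial (Fin N) ℂ)
    (g : Fin s → MvPolynomial (Fin N) ℂ) {R : Type} [CommRing R] [IsDomain R] [Algebra ℂ R]
    (hR : Algebra.FiniteType ℂ R) {x : Fin N → R} (hx : Universal f g x)
    {K : Type} [Field K] [Algebra R K] [IsFractionRing R K] [Algebra ℂ K] [IsScalarTower ℂ R K]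
    (e : ℕ) (w : Fin N → ℕ)
    (h : ∀ (L : Type) [Field L] [IsAlgClosed L] [Algebra ℂ L] (p : Fin N → L),
      ∃ γ : Fin N → Polynomial L, (∀ l, (γ l).eval 0 = p l) ∧ (∀ l, (γ l).natDegree ≤ e * w l) ∧
        (∃ l, 0 < (γ l).natDegree) ∧
        (∀ k, aeval γ (f k) = Polynomial.C (aeval p (f k))) ∧
        (∀ j, aeval γ (g j) = Polynomial.C (aeval p (g j)))) :
    A1Uniruled R := by
  have h1 : Function.Injective (algebraMap R (AlgebraicClosure K)) := by
    rw [IsScalarTower.algebraMap_eq R K (AlgebraicClosure K)]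
    exact (algebraMap K (AlgebraicClosure K)).injective.comp (IsFractionRing.injective R K)
  have h2 : Algebra.IsAlgebraic R (AlgebraicClosure K) :=
    (IsFractionRing.comap_isAlgebraic_iff (K := K)).mpr inferInstance
  have h3 : IsScalarTower ℂ R (AlgebraicClosure K) := by
    refine IsScalarTower.of_algebraMap_eq fun c => ?_
    rw [IsScalarTower.algebraMap_apply ℂ K (AlgebraicClosure K),
      IsScalarTower.algebraMap_apply ℂ R K, ← IsScalarTower.algebraMap_apply R K]
  obtain ⟨γ, hγ0, -, ⟨l₀, hl₀⟩, hγf, hγg⟩ :=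
    h (AlgebraicClosure K) (fun l => algebraMap R (AlgebraicClosure K) (x l))
  exact a1Uniruled_of_curve f g hR hx (E := AlgebraicClosure K) h1 γ hγ0 l₀ hl₀ hγf hγg

theorem universal_of_isCoordRing {N r s : ℕ} (f : Fin r → MvPolynomial (Fin N) ℂ)
    (g : Fin s → MvPolynomial (Fin N) ℂ) {R : Type} [CommRing R] [Algebra ℂ R]
    (x : Fin N → R) (e : CoordRing f g ≃ₐ[ℂ] R)
    (he : ∀ l, e (algebraMap (MvPolynomial (Fin N) ℂ ⧸
      Ideal.span (Set.range f)) (CoordRing f g) (Ideal.Quotient.mk _ (X l))) = x l)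
    (hz : ∀ k, aeval x (f k) = 0) (hu : ∀ j, IsUnit (aeval x (g j))) :
    Universal f g x where
  zero := hz
  unit := hu
  lift := by
    have hU := universal_coordRing f g
    intro B _ _ y h1 h2
    obtain ⟨φ, hφ⟩ := hU.lift y h1 h2
    refine ⟨φ.comp e.symm.toAlgHom, fun l => ?_⟩
    rw [← he l]
    change φ (e.symm (e _)) = y l
    rw [e.symm_apply_apply, hφ]
  ext := by
    have hU := universal_coordRing f g
    intro B _ _ φ ψ h
    have h1 : φ.comp e.toAlgHom = ψ.comp e.toAlgHom := by
      apply hU.ext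
      intro l
      change φ (e _) = ψ (e _)
      rw [he, h]
    ext a
    obtain ⟨b, rfl⟩ := e.surjective a
    exact DFunLike.congr_fun h1 b

end Pool.Agent.Lib.MP_410da7_ag
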