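import Pool.Agent.Lib.MP_410da7_ag.Final

/-!
# Predicates used in the statement of the criterion
-/

set_option autoImplicit false

namespace Pool.Agent.Lib.MP_410da7_ag

open MvPolynomial

variable {N r s : ℕ} (f : Fin r → MvPolynomial (Fin N) ℂ) (g : Fin s → MvPolynomial (Fin N) ℂ)

/-- The complex points of `X = {f₁ = ⋯ = f_r = 0, g₁ ⋯ g_s ≠ 0} ⊆ 𝔸^N`. -/
def Points : Set (Fin N → ℂ) := {u | (∀ k, eval u (f k) = 0) ∧ ∀ j, eval u (g j) ≠ 0}

/-- `X` is smooth of codimension `r` in `𝔸^N` (Jacobian criterion): the gradients of the `f_k` are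
linearly independent at every point of `X`. -/
def JacobianSmooth : Prop :=
  ∀ u ∈ Points f g, LinearIndependent ℂ (fun (k : Fin r) (l : Fin N) => eval u (pderiv l (f k)))

/-- The weight `w` satisfies `∑ deg_w f_k + ∑ deg_w g_j < ∑ w_l`. -/
def LowDegree (w : Fin N → ℕ) : Prop :=
  ∑ k, (f k).weightedTotalDegree w + ∑ j, (g j).weightedTotalDegree w < ∑ l, w l

/-- The point `u` lies on the image of a nonconstant morphism `𝔸¹ → X` whose coordinates are
polynomials of degrees at most `w_l`. -/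
def OnAffineLine (w : Fin N → ℕ) (u : Fin N → ℂ) : Prop :=
  ∃ γ : Fin N → Polynomial ℂ, (∀ l, (γ l).eval 0 = u l) ∧ (∃ l, 0 < (γ l).natDegree) ∧
    (∀ l, (γ l).natDegree ≤ w l) ∧ ∀ t : ℂ, (fun l => (γ l).eval t) ∈ Points f g

theorem onAffineLine (w : Fin N → ℕ) (hw : LowDegree f g w) (u : Fin N → ℂ)
    (hu : u ∈ Points f g) : OnAffineLine f g w u := by
  obtain ⟨γ, h0, hdeg, hne, hf, hg⟩ := exists_curve f g w hw u
  have key : ∀ (P : MvPolynomial (Fin N) ℂ) (t : ℂ),
      eval (fun l => (γ l).eval t) P = (aeval γ P).eval t := by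
    intro P t
    have h1 : (Polynomial.evalRingHom t).comp (aeval (R := ℂ) γ : _ →+* Polynomial ℂ) =
        eval (fun l => (γ l).eval t) := by
      apply MvPolynomial.ringHom_ext
      · intro c
        simp
      · intro l
        simp
    exact (RingHom.congr_fun h1 P).symm
  have haev : ∀ P : MvPolynomial (Fin N) ℂ, aeval u P = eval u P := fun P => rfl
  refine ⟨γ, h0, hne, hdeg, fun t => ⟨fun k => ?_, fun j => ?_⟩⟩
  · rw [key, hf, Polynomial.eval_C, haev, hu.1]
  · rw [key, hg, Polynomial.eval_C, haev]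
    exact hu.2 j

end Pool.Agent.Lib.MP_410da7_ag
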