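import Pool.Agent.Lib.MP_410da7_ag.CYMain
import Pool.Agent.Lib.MP_410da7_ag.CYFamily
import Pool.Agent.Lib.MP_410da7_ag.Statement

/-!
# Log Calabi–Yau degree: the criterion
-/

set_option autoImplicit false

namespace Pool.Agent.Lib.MP_410da7_ag

open MvPolynomial WithZero KaehlerDifferential

/-- The logarithmic geometric genus `h⁰(K + D)` of the smooth affine variety `X` with coordinate
ring `R` and function field `K` vanishes: the only rational form of top degree that is regular at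
the valuations with center on `X` and has at most logarithmic poles at the others is zero. -/
def LogGenusZero (R K : Type) [CommRing R] [Algebra ℂ R] [Field K] [Algebra R K]
    [Algebra ℂ K] : Prop :=
  ∀ (Ψ : Ω[K⁄ℂ] [⋀^Fin (dim R)]→ₗ[K] K) (F : K), Ψ ≠ 0 →
    (∀ v : Valuation K ℤᵐ⁰, (∀ c : ℂ, c ≠ 0 → v (algebraMap ℂ K c) = 1) →
      AdmissibleAt R Ψ 1 F v) → F = 0

section

variable {N r s : ℕ}

theorem curves_of_genusZero (f : Fin r → MvPolynomial (Fin N) ℂ)
    (g : Fin s → MvPolynomial (Fin N) ℂ) (w : Fin N → ℕ) (hw : ∀ l, 0 < w l)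
    (hle : ∑ k, (f k).weightedTotalDegree w + ∑ j, (g j).weightedTotalDegree w ≤ ∑ l, w l)
    (hsm : JacobianSmooth f g)
    {R K : Type} [CommRing R] [IsDomain R] [Algebra ℂ R] [Field K] [Algebra R K]
    [IsFractionRing R K] [Algebra ℂ K] [IsScalarTower ℂ R K]
    (xR : Fin N → R) (hR : IsCoordRing f g xR) (hK : LogGenusZero R K) :
    ∃ e : ℕ, ∀ (L : Type) [Field L] [IsAlgClosed L] [Algebra ℂ L] (p : Fin N → L),
      ∃ γ : Fin N → Polynomial L, (∀ l, (γ l).eval 0 = p l) ∧ (∀ l, (γ l).natDegree ≤ e * w l) ∧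
        (∃ l, 0 < (γ l).natDegree) ∧
        (∀ k, aeval γ (f k) = Polynomial.C (aeval p (f k))) ∧
        (∀ j, aeval γ (g j) = Polynomial.C (aeval p (g j))) := by
  classical
  have hn := trdeg_isCoordRing f g xR hR
  have hinj : Function.Injective (algebraMap R K) := IsFractionRing.injective R K
  let x : Fin N → K := fun l => algebraMap R K (xR l)
  have hax : ∀ P : MvPolynomial (Fin N) ℂ, aeval x P = algebraMap R K (aeval xR P) := by
    intro P
    have := MvPolynomial.map_aeval (R := ℂ) xR (algebraMap R K) P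
    rw [← IsScalarTower.algebraMap_eq] at this
    rw [this]
    rfl
  obtain ⟨u, hu⟩ := exists_basis_fin hn K
  have hsm' : ∀ u : Fin N → ℂ, (∀ k, eval u (f k) = 0) → (∀ j, eval u (g j) ≠ 0) →
      LinearIndependent ℂ (fun (k : Fin r) (l : Fin N) => eval u (pderiv l (f k))) :=
    fun u hu hu' => hsm u ⟨hu, hu'⟩
  have H1 : ∀ a : K, ∃ P Q : MvPolynomial (Fin N) ℂ, aeval x Q ≠ 0 ∧
      a * aeval x Q = aeval x P := by
    intro a
    obtain ⟨a1, a2, ha2, rfl⟩ := IsFractionRing.div_surjective (A := R) a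
    obtain ⟨k1, P1, h1⟩ := hR.surj a1
    obtain ⟨k2, P2, h2⟩ := hR.surj a2
    have ha20 : a2 ≠ 0 := nonZeroDivisors.ne_zero ha2
    have hG : aeval x (∏ j, g j) ≠ 0 := by
      rw [hax]
      intro h0
      have h0' := hinj (h0.trans (map_zero _).symm)
      rw [map_prod] at h0'
      obtain ⟨j, _, hj⟩ := Finset.prod_eq_zero_iff.1 h0'
      exact (hR.unit j).ne_zero hj
    have ha2K : algebraMap R K a2 ≠ 0 := by
      intro h0
      exact ha20 (hinj (h0.trans (map_zero _).symm))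
    have e1 : algebraMap R K a1 * aeval x (∏ j, g j) ^ k1 = aeval x P1 := by
      rw [hax, hax, ← map_pow, ← map_mul, h1]
    have e2 : algebraMap R K a2 * aeval x (∏ j, g j) ^ k2 = aeval x P2 := by
      rw [hax, hax, ← map_pow, ← map_mul, h2]
    refine ⟨P1 * (∏ j, g j) ^ k2, P2 * (∏ j, g j) ^ k1, ?_, ?_⟩
    · rw [map_mul, map_pow, ← e2]
      exact mul_ne_zero (mul_ne_zero ha2K (pow_ne_zero _ hG)) (pow_ne_zero _ hG)
    · rw [map_mul, map_mul, map_pow, map_pow, ← e1, ← e2]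
      field_simp
  have H2 : ∀ P : MvPolynomial (Fin N) ℂ, aeval x P = 0 →
      ∃ n : ℕ, (∏ j, g j) ^ n * P ∈ Ideal.span (Set.range f) := by
    intro P hP
    apply hR.ker
    apply hinj
    rw [map_zero, ← hax, hP]
  have H3 : ∀ k, aeval x (f k) = 0 := by
    intro k
    rw [hax, hR.zero, map_zero]
  have H3g : ∀ j, aeval x (g j) ≠ 0 := by
    intro j h0
    rw [hax] at h0
    exact (hR.unit j).ne_zero (hinj (h0.trans (map_zero _).symm))
  have H3' : aeval x (∏ j, g j) ≠ 0 := by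
    rw [map_prod]; exact Finset.prod_ne_zero_iff.2 fun j _ => H3g j
  have H4 : LinearIndependent K (fun k => grad x (f k)) := by
    have := linInd_transfer (Set.range f) (∏ j, g j) (fun k l => pderiv l (f k)) (by
      intro y hy hyB
      rw [map_prod] at hyB
      exact hsm' y (fun k => hy _ ⟨k, rfl⟩)
        (fun j => (Finset.prod_ne_zero_iff.1 hyB) j (Finset.mem_univ j))) x (by
      rintro P ⟨k, rfl⟩
      exact H3 k) H3'
    exact this
  have hdim := dim_count x f (∏ j, g j) u hu H1 H2 H3 H3' H4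
  let σ : Fin r ⊕ Fin (dim R) ≃ Fin N := Fintype.equivOfCardEq (by simp [hdim])
  obtain ⟨η, hη0, hη⟩ := exists_eta x f u hu H1 H3 H4 σ
  obtain ⟨b, hb⟩ := exists_kaehlerBasis u hu
  obtain ⟨Ψ, hΨ0, hΨ⟩ := exists_psi_of_eta b η hη0
  have hprod0 : (∏ j, aeval x (g j)) ≠ 0 := Finset.prod_ne_zero_iff.2 fun j _ => H3g j
  by_contra hcon
  apply inv_ne_zero hprod0
  refine hK Ψ _ hΨ0 fun v hv => ?_
  by_cases hreg : (∀ l, v (x l) ≤ 1) ∧ (∀ j, v (aeval x (g j)) = 1)
  · obtain ⟨ξ, hξ, hdet⟩ := reg_case v hv x f g hsm' hreg.1 hreg.2 H3 σ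
    set d := Matrix.det (Matrix.of fun i j => Sum.elim (fun k => grad x (f k)) ξ i (σ j)) with hd
    have hd0 : d ≠ 0 := by
      intro h; rw [h, map_zero] at hdet; exact zero_ne_one hdet
    refine ⟨fun i => dmap x (ξ i), (∏ j, aeval x (g j))⁻¹ / d,
      fun i => regDiff_le_logDiff v (hξ i), fun _ => hξ, ?_, ?_⟩
    · rw [map_div₀, map_inv₀, hdet, map_prod]
      simp [hreg.2]
    · rw [hΨ _ _ (hη ξ), pow_one, ← hd]
      field_simp
  · by_contra hadm
    apply hcon
    refine curves_of_bad f g w hw hle x H3 H3g H1 H4 σ η hη0 hη Ψ hΨ0 hΨ u hu v hv ?_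
    intro θ hθ
    by_contra! hge
    apply hadm
    have hF0 : v (∏ j, aeval x (g j))⁻¹ ≠ 0 := by
      rw [Valuation.ne_zero_iff]
      exact inv_ne_zero hprod0
    have hΨv : v (Ψ θ) ≠ 0 := fun h0 => hF0 (le_zero_iff.1 (h0 ▸ hge))
    have hΨθ : Ψ θ ≠ 0 := by rwa [Valuation.ne_zero_iff] at hΨv
    refine ⟨θ, (∏ j, aeval x (g j))⁻¹ / Ψ θ, hθ, ?_, ?_, ?_⟩
    · intro hRv
      exfalso
      apply hreg
      refine ⟨fun l => hRv _, fun j => ?_⟩
      obtain ⟨y, hy⟩ := (hR.unit j).exists_right_inv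
      have h6 : v (aeval x (g j)) * v (algebraMap R K y) = 1 := by
        rw [hax, ← map_mul, ← map_mul, hy, map_one, map_one]
      refine le_antisymm (by rw [hax]; exact hRv _) ?_
      rw [← h6]
      exact mul_le_of_le_one_right' (hRv y)
    · rw [map_div₀]
      exact div_le_one_of_le₀ hge zero_le
    · rw [pow_one]
      field_simp

/-- every point of `𝔸^N` lies on a polynomial curve of degree at most `e w_l` along which the `f_k`
and `g_j` are constant -/
def FibreCurves (f : Fin r → MvPolynomial (Fin N) ℂ) (g : Fin s → MvPolynomial (Fin N) ℂ)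
    (w : Fin N → ℕ) (e : ℕ) : Prop :=
  ∀ u : Fin N → ℂ, ∃ γ : Fin N → Polynomial ℂ, (∀ l, (γ l).eval 0 = u l) ∧
    (∃ l, 0 < (γ l).natDegree) ∧ (∀ l, (γ l).natDegree ≤ e * w l) ∧
    ∀ t : ℂ, (∀ k, eval (fun l => (γ l).eval t) (f k) = eval u (f k)) ∧
      ∀ j, eval (fun l => (γ l).eval t) (g j) = eval u (g j)

theorem fibreCurves_of_curves (f : Fin r → MvPolynomial (Fin N) ℂ)
    (g : Fin s → MvPolynomial (Fin N) ℂ) (w : Fin N → ℕ) (e : ℕ)
    (h : ∀ (L : Type) [Field L] [IsAlgClosed L] [Algebra ℂ L] (p : Fin N → L),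
      ∃ γ : Fin N → Polynomial L, (∀ l, (γ l).eval 0 = p l) ∧ (∀ l, (γ l).natDegree ≤ e * w l) ∧
        (∃ l, 0 < (γ l).natDegree) ∧
        (∀ k, aeval γ (f k) = Polynomial.C (aeval p (f k))) ∧
        (∀ j, aeval γ (g j) = Polynomial.C (aeval p (g j)))) :
    FibreCurves f g w e := by
  intro u
  obtain ⟨γ, h0, hdeg, hne, hf, hg⟩ := h ℂ u
  have key : ∀ (P : MvPolynomial (Fin N) ℂ) (t : ℂ),
      eval (fun l => (γ l).eval t) P = (aeval γ P).eval t := by
    intro P t
    have h1 : (Polynomial.evalRingHom t).comp (aeval (R := ℂ) γ : _ →+* Polynomial ℂ) =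
        eval (fun l => (γ l).eval t) := by
      apply MvPolynomial.ringHom_ext
      · intro c
        simp
      · intro l
        simp
    exact (RingHom.congr_fun h1 P).symm
  have haev : ∀ P : MvPolynomial (Fin N) ℂ, aeval u P = eval u P := fun P => rfl
  refine ⟨γ, h0, hne, hdeg, fun t => ⟨fun k => ?_, fun j => ?_⟩⟩
  · rw [key, hf, Polynomial.eval_C, haev]
  · rw [key, hg, Polynomial.eval_C, haev]

theorem logGenusZero_of_negInf {R K : Type} [CommRing R] [Algebra ℂ R] [Field K] [Algebra R K]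
    [Algebra ℂ K] (h : LogKodairaNegInf R K) : LogGenusZero R K :=
  fun Ψ F hΨ hF => h Ψ 1 F hΨ le_rfl hF

end

end Pool.Agent.Lib.MP_410da7_ag
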