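import Pool.Agent.Lib.MP_410da7_ag.Omega

/-!
# The dual frame of the residue form
-/

set_option autoImplicit false

namespace Pool.Agent.Lib.MP_410da7_ag

open MvPolynomial KaehlerDifferential

theorem frame_der {N : ℕ} {K : Type} [Field K] [Algebra ℂ K] (x : Fin N → K)
    (δ : Derivation ℂ K K) (ρ : Fin N → K) :
    ∑ l, ρ l * δ (x l) = δ.liftKaehlerDifferential (dmap x ρ) := by
  rw [dmap_apply, map_sum]
  refine Finset.sum_congr rfl fun l _ => ?_
  rw [map_smul, Derivation.liftKaehlerDifferential_comp_D, smul_eq_mul]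

theorem exists_frame {N r d : ℕ} {K : Type} [Field K] [Algebra ℂ K] (x : Fin N → K)
    (f : Fin r → MvPolynomial (Fin N) ℂ) (H3 : ∀ k, aeval x (f k) = 0) (ξ : Fin d → K)
    (ρ : Fin d → Fin N → K) (hρ : ∀ i, dmap x (ρ i) = D ℂ K (ξ i)) (σ : Fin r ⊕ Fin d ≃ Fin N)
    (hdet : (Matrix.of fun i j => Sum.elim (fun k => grad x (f k)) ρ i (σ j)).det ≠ 0)
    (δ : Fin d → Derivation ℂ K K) (hδ : ∀ i j, δ i (ξ j) = if i = j then 1 else 0) :
    ∃ s : Fin r → Fin N → K,
      (∀ k k', ∑ l, aeval x (pderiv l (f k)) * s k' l = if k = k' then 1 else 0) ∧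
      (Matrix.of fun i j => Sum.elim s (fun i l => δ i (x l)) i (σ j)).det *
        (Matrix.of fun i j => Sum.elim (fun k => grad x (f k)) ρ i (σ j)).det = 1 := by
  classical
  set Q : Matrix (Fin r ⊕ Fin d) (Fin r ⊕ Fin d) K :=
    Matrix.of fun i j => Sum.elim (fun k => grad x (f k)) ρ i (σ j) with hQ
  have hu : IsUnit Q.det := IsUnit.mk0 _ hdet
  let s : Fin r → Fin N → K := fun k l => Q⁻¹ (σ.symm l) (Sum.inl k)
  have h1 : ∀ i j, ∑ l, Sum.elim (fun k => grad x (f k)) ρ i l * Q⁻¹ (σ.symm l) j =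
      if i = j then 1 else 0 := by
    intro i j
    have h2 := congrFun (congrFun (Matrix.mul_nonsing_inv Q hu) i) j
    rw [Matrix.mul_apply, Matrix.one_apply] at h2
    rw [← h2, ← Equiv.sum_comp σ]
    refine Finset.sum_congr rfl fun l _ => ?_
    rw [Equiv.symm_apply_apply]
    rfl
  have h3 : ∀ (i : Fin d) (j : Fin r ⊕ Fin d), δ i (x (σ j)) = Q⁻¹ j (Sum.inr i) := by
    intro i
    have h4 : Q.mulVec (fun j => δ i (x (σ j))) = Pi.single (Sum.inr i) 1 := by
      funext a
      have h5 : Q.mulVec (fun j => δ i (x (σ j))) a =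
          ∑ l, Sum.elim (fun k => grad x (f k)) ρ a l * δ i (x l) := by
        rw [← Equiv.sum_comp σ]
        rfl
      rw [h5, frame_der]
      rcases a with k | i'
      · rw [Sum.elim_inl, ← D_aeval, H3, map_zero, map_zero]
        simp
      · rw [Sum.elim_inr, hρ, Derivation.liftKaehlerDifferential_comp_D, hδ]
        simp [Pi.single_apply, eq_comm]
    intro j
    have h6 := congrArg (fun c => Q⁻¹.mulVec c) h4
    simp only [Matrix.mulVec_mulVec, Matrix.nonsing_inv_mul Q hu, Matrix.one_mulVec,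
      Matrix.mulVec_single_one] at h6
    exact congrFun h6 j
  have h7 : (Matrix.of fun i j => Sum.elim s (fun i l => δ i (x l)) i (σ j)) = Q⁻¹.transpose := by
    ext i j
    rcases i with k | i
    · simp [s]
    · simp [h3]
  refine ⟨s, fun k k' => ?_, ?_⟩
  · have := h1 (Sum.inl k) (Sum.inl k')
    simpa [grad, s] using this
  · rw [h7, Matrix.det_transpose, ← Matrix.det_mul, Matrix.nonsing_inv_mul Q hu, Matrix.det_one]

end Pool.Agent.Lib.MP_410da7_ag
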