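import Mathlib

/-!
# Positively graded polynomial systems with only the trivial zero are finite
-/

set_option autoImplicit false

namespace Pool.Agent.Lib.MP_410da7_ag

open MvPolynomial

/-- the weighted homogeneous components of a product with a weighted homogeneous polynomial -/
theorem CYGraded_comp_mul {σ : Type} {L : Type} [Field L] (wt : σ → ℕ) (n d : ℕ)
    (E : MvPolynomial σ L) (hE : E.IsWeightedHomogeneous wt d) (r : MvPolynomial σ L) :
    weightedHomogeneousComponent wt n (r * E) =
      if d ≤ n then weightedHomogeneousComponent wt (n - d) r * E else 0 := by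
  classical
  induction r using MvPolynomial.induction_on' with
  | monomial u a =>
    have h1 : (monomial u a : MvPolynomial σ L).IsWeightedHomogeneous wt (Finsupp.weight wt u) :=
      isWeightedHomogeneous_monomial wt u a rfl
    have h2 := h1.mul hE
    rw [weightedHomogeneousComponent_of_mem h2]
    split_ifs with h3 h4 h4
    · rw [weightedHomogeneousComponent_of_mem h1, if_pos]
      omega
    · omega
    · rw [weightedHomogeneousComponent_of_mem h1, if_neg, zero_mul]
      omega
    · rfl
  | add p q hp hq =>
    rw [add_mul, map_add, hp, hq]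
    split_ifs with h
    · rw [map_add, add_mul]
    · rw [add_zero]

theorem CYGraded_finite {σ τ : Type} [Finite σ] {L : Type} [Field L]
    (wt : σ → ℕ) (E : τ → MvPolynomial σ L)
    (dg : τ → ℕ) (hdg : ∀ t, 0 < dg t) (hE : ∀ t, (E t).IsWeightedHomogeneous wt (dg t))
    (N : ℕ) (hN : ∀ i, (X i : MvPolynomial σ L) ^ N ∈ Ideal.span (Set.range E)) :
    Module.Finite (Algebra.adjoin L (Set.range E)) (MvPolynomial σ L) := by
  classical
  have := Fintype.ofFinite σ
  set S := Algebra.adjoin L (Set.range E) with hS
  set B : Set (MvPolynomial σ L) := (fun α : σ →₀ ℕ => (monomial α (1 : L))) ''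
    {α : σ →₀ ℕ | ∀ i, α i < N} with hB
  have hBfin : B.Finite := by
    apply Set.Finite.image
    apply Set.Finite.subset (Set.finite_Iic (Finsupp.equivFunOnFinite.symm fun _ : σ => N))
    intro α hα
    rw [Set.mem_Iic]
    intro i
    exact (hα i).le
  set M : Submodule S (MvPolynomial σ L) := Submodule.span S B with hM
  -- polynomials all of whose monomials are in `M`
  have hpoly : ∀ p : MvPolynomial σ L, (∀ α ∈ p.support, (monomial α (1 : L)) ∈ M) → p ∈ M := by
    intro p hp
    rw [p.as_sum]
    apply Submodule.sum_mem
    intro α hα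
    have h1 : (monomial α (p.coeff α) : MvPolynomial σ L) = p.coeff α • monomial α (1 : L) := by
      rw [smul_monomial, smul_eq_mul, mul_one]
    rw [h1]
    exact Submodule.smul_of_tower_mem M _ (hp α hα)
  have key : ∀ m : ℕ, ∀ α : σ →₀ ℕ, Finsupp.weight wt α = m → (monomial α (1 : L)) ∈ M := by
    intro m
    induction m using Nat.strong_induction_on with
    | _ m ih =>
      intro α hα
      by_cases hsmall : ∀ i, α i < N
      · exact Submodule.subset_span ⟨α, hsmall, rfl⟩
      · push Not at hsmall
        obtain ⟨i, hi⟩ := hsmall
        obtain ⟨c, hc⟩ := Finsupp.mem_span_range_iff_exists_finsupp.1 (hN i)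
        set β := α - Finsupp.single i N with hβ
        have hαβ : α = Finsupp.single i N + β := by
          ext j
          rw [Finsupp.add_apply, hβ, Finsupp.tsub_apply]
          by_cases hj : i = j
          · subst hj
            rw [Finsupp.single_eq_same]
            omega
          · rw [Finsupp.single_eq_of_ne (Ne.symm hj)]
            omega
        have hwt : Finsupp.weight wt α = N * wt i + Finsupp.weight wt β := by
          rw [hαβ, map_add, Finsupp.weight_single, smul_eq_mul]
        have hX : ((X i : MvPolynomial σ L) ^ N).IsWeightedHomogeneous wt (N * wt i) := by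
          have := (isWeightedHomogeneous_X L wt i).pow N
          rwa [smul_eq_mul] at this
        have h1 : (X i : MvPolynomial σ L) ^ N = ∑ t ∈ c.support,
            (if dg t ≤ N * wt i then weightedHomogeneousComponent wt (N * wt i - dg t) (c t) * E t
              else 0) := by
          have h2 := congrArg (weightedHomogeneousComponent wt (N * wt i)) hc
          rw [weightedHomogeneousComponent_of_mem hX, if_pos rfl, Finsupp.sum, map_sum] at h2
          rw [← h2]
          apply Finset.sum_congr rfl
          intro t _
          rw [smul_eq_mul, CYGraded_comp_mul wt _ (dg t) (E t) (hE t)]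
        have h2 : (monomial α (1 : L)) = (X i : MvPolynomial σ L) ^ N * monomial β 1 := by
          rw [X_pow_eq_monomial, monomial_mul, one_mul, ← hαβ]
        rw [h2, h1, Finset.sum_mul]
        apply Submodule.sum_mem
        intro t _
        split_ifs with h3
        · have hmem : E t ∈ S := Algebra.subset_adjoin ⟨t, rfl⟩
          have h4 : weightedHomogeneousComponent wt (N * wt i - dg t) (c t) * E t *
              monomial β 1 = (⟨E t, hmem⟩ : S) •
              (weightedHomogeneousComponent wt (N * wt i - dg t) (c t) * monomial β 1) := by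
            rw [Subalgebra.smul_def, smul_eq_mul]
            ring
          rw [h4]
          apply Submodule.smul_mem
          apply hpoly
          intro γ hγ
          have h5 : (weightedHomogeneousComponent wt (N * wt i - dg t) (c t) *
              monomial β (1 : L)).IsWeightedHomogeneous wt
              (N * wt i - dg t + Finsupp.weight wt β) :=
            (weightedHomogeneousComponent_isWeightedHomogeneous _ _).mul
              (isWeightedHomogeneous_monomial wt β 1 rfl)
          have h6 := h5 (mem_support_iff.1 hγ)
          refine ih (Finsupp.weight wt γ) ?_ γ rfl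
          have h7 := hdg t
          omega
        · rw [zero_mul]
          exact Submodule.zero_mem _
  refine ⟨⟨hBfin.toFinset, ?_⟩⟩
  rw [Set.Finite.coe_toFinset, eq_top_iff]
  intro p _
  exact hpoly p fun α _ => key _ α rfl

theorem isIntegral_of_zeroLocus {σ τ : Type} [Finite σ] {L : Type} [Field L]
    [IsAlgClosed L] (wt : σ → ℕ) (hwt : ∀ i, 0 < wt i) (E : τ → MvPolynomial σ L)
    (dg : τ → ℕ) (hdg : ∀ t, 0 < dg t) (hE : ∀ t, (E t).IsWeightedHomogeneous wt (dg t))
    (hz : ∀ a : σ → L, (∀ t, eval a (E t) = 0) → a = 0) (i : σ) :
    IsIntegral (Algebra.adjoin L (Set.range E)) (X i : MvPolynomial σ L) := by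
  classical
  have := Fintype.ofFinite σ
  set I : Ideal (MvPolynomial σ L) := Ideal.span (Set.range E) with hI
  have hrad : ∀ j, (X j : MvPolynomial σ L) ∈ I.radical := by
    intro j
    rw [← vanishingIdeal_zeroLocus_eq_radical (K := L), mem_vanishingIdeal_iff]
    intro a ha
    have h1 : a = 0 := by
      apply hz
      intro t
      have := ha (E t) (Ideal.subset_span ⟨t, rfl⟩)
      simpa using this
    rw [h1]
    simp
  choose n hn using fun j => Ideal.mem_radical_iff.1 (hrad j)
  have hfin := CYGraded_finite wt E dg hdg hE (∑ j, n j) (fun j => by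
    have h1 : n j ≤ ∑ j, n j := Finset.single_le_sum (fun _ _ => Nat.zero_le _) (Finset.mem_univ j)
    exact Ideal.pow_mem_of_pow_mem _ (hn j) h1)
  exact (Algebra.IsIntegral.of_finite (Algebra.adjoin L (Set.range E))
    (MvPolynomial σ L)).isIntegral _

/-- a derivation kills the roots of a nonzero polynomial whose coefficients it kills -/
theorem CYGraded_der_root {L : Type} [Field L] {Ω : Type} [Field Ω] [CharZero Ω]
    [Algebra L Ω] (D : Derivation L Ω Ω) (z : Ω) : ∀ n : ℕ, ∀ g : Polynomial Ω, g ≠ 0 →
      g.natDegree ≤ n → (∀ k, D (g.coeff k) = 0) → g.eval z = 0 → D z = 0 := by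
  intro n
  induction n with
  | zero =>
    intro g hg hd _ hz
    exfalso
    apply hg
    rw [Polynomial.eq_C_of_natDegree_le_zero hd, Polynomial.eval_C] at hz
    rw [Polynomial.eq_C_of_natDegree_le_zero hd, hz, Polynomial.C_0]
  | succ n ih =>
    intro g hg hd hc hz
    by_cases hd' : g.natDegree ≤ n
    · exact ih g hg hd' hc hz
    · have hdeg : g.natDegree = n + 1 := by omega
      have h1 : g.derivative.eval z * D z = 0 := by
        have h2 : D (g.eval z) = g.derivative.eval z * D z := by
          rw [Polynomial.eval_eq_sum, Polynomial.sum, map_sum, Polynomial.derivative_eval,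
            Polynomial.sum, Finset.sum_mul]
          apply Finset.sum_congr rfl
          intro k _
          rw [Derivation.leibniz, Derivation.leibniz_pow, hc k, smul_zero, add_zero]
          simp only [smul_eq_mul, nsmul_eq_mul]
          ring
        rw [← h2, hz, map_zero]
      rcases mul_eq_zero.1 h1 with h2 | h2
      · have hg' : g.derivative ≠ 0 := by
          intro h3
          have := Polynomial.derivative_eq_zero.1 h3
          omega
        refine ih g.derivative hg' ?_ ?_ h2
        · have := Polynomial.natDegree_derivative_le g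
          omega
        · intro k
          rw [Polynomial.coeff_derivative, Derivation.leibniz, hc (k + 1), smul_zero, add_zero]
          have h3 : ((k : Ω) + 1) = ((k + 1 : ℕ) : Ω) := by push_cast; rfl
          rw [h3, Derivation.map_natCast, smul_zero]
      · exact h2

/-- A derivation of an extension field kills a point as soon as it kills the values of the system
at this point. -/
theorem der_eq_zero_of_zeroLocus {σ τ : Type} [Finite σ] {L : Type} [Field L]
    [IsAlgClosed L] (wt : σ → ℕ) (hwt : ∀ i, 0 < wt i) (E : τ → MvPolynomial σ L)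
    (dg : τ → ℕ) (hdg : ∀ t, 0 < dg t) (hE : ∀ t, (E t).IsWeightedHomogeneous wt (dg t))
    (hz : ∀ a : σ → L, (∀ t, eval a (E t) = 0) → a = 0) {Ω : Type} [Field Ω] [CharZero Ω]
    [Algebra L Ω] (D : Derivation L Ω Ω) (a : σ → Ω) (hD : ∀ t, D (aeval a (E t)) = 0) (i : σ) :
    D (a i) = 0 := by
  obtain ⟨f, hf, hfz⟩ := isIntegral_of_zeroLocus wt hwt E dg hdg hE hz i
  let φ : Algebra.adjoin L (Set.range E) →+* Ω :=
    (aeval a : MvPolynomial σ L →ₐ[L] Ω).toRingHom.comp
      (algebraMap (Algebra.adjoin L (Set.range E)) (MvPolynomial σ L))
  have hker : ∀ s : Algebra.adjoin L (Set.range E), D (φ s) = 0 := by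
    rintro ⟨s, hs⟩
    change D (aeval a s) = 0
    induction hs using Algebra.adjoin_induction with
    | mem x hx =>
      obtain ⟨t, rfl⟩ := hx
      exact hD t
    | algebraMap r =>
      rw [AlgHom.commutes, Derivation.map_algebraMap]
    | add x y _ _ hx hy => rw [map_add, map_add, hx, hy, add_zero]
    | mul x y _ _ hx hy => rw [map_mul, Derivation.leibniz, hx, hy, smul_zero, smul_zero, add_zero]
  have hev : (f.map φ).eval (a i) = 0 := by
    have h1 := Polynomial.hom_eval₂ f (algebraMap (Algebra.adjoin L (Set.range E))
      (MvPolynomial σ L)) (aeval a : MvPolynomial σ L →ₐ[L] Ω).toRingHom (X i)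
    rw [hfz, map_zero] at h1
    have h2 : (aeval a : MvPolynomial σ L →ₐ[L] Ω).toRingHom (X i) = a i := aeval_X a i
    rw [h2] at h1
    rw [Polynomial.eval_map]
    exact h1.symm
  refine CYGraded_der_root D (a i) _ (f.map φ) ?_ le_rfl ?_ hev
  · exact (hf.map φ).ne_zero
  · intro k
    rw [Polynomial.coeff_map]
    exact hker _

end Pool.Agent.Lib.MP_410da7_ag
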