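import Mathlib

/-!
# Lattices over power series rings
-/

set_option autoImplicit false

namespace Pool.Agent.Lib.MP_410da7_ag

section CYLattice

variable {Ω : Type} [Field Ω] {ι : Type} [Fintype ι] [DecidableEq ι]

/-- truncation modulo `X ^ m` -/
noncomputable def CYLattice_tr (Ω : Type) [Field Ω] (ι : Type) (m : ℕ) :
    (ι → PowerSeries Ω) →ₗ[Ω] (ι × Fin m → Ω) where
  toFun v := fun l => PowerSeries.coeff l.2.1 (v l.1)
  map_add' v w := by
    funext l
    simp
  map_smul' c v := by
    funext l
    simp

omit [Fintype ι] [DecidableEq ι] in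
theorem CYLattice_tr_apply (m : ℕ) (v : ι → PowerSeries Ω) (l : ι × Fin m) :
    CYLattice_tr Ω ι m v l = PowerSeries.coeff l.2.1 (v l.1) := rfl

/-- the span of the truncated multiples of the rows -/
noncomputable def CYLattice_W {ι' : Type} (m : ℕ) (C : ι' → ι → PowerSeries Ω) :
    Submodule Ω (ι × Fin m → Ω) :=
  Submodule.span Ω (Set.range fun q : ι' × ℕ =>
    CYLattice_tr Ω ι m (fun l => PowerSeries.X ^ q.2 * C q.1 l))

omit [Fintype ι] [DecidableEq ι] in
/-- power series multiples are in the span -/
theorem CYLattice_mem {ι' : Type} (m : ℕ) (C : ι' → ι → PowerSeries Ω) (g : PowerSeries Ω)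
    (i : ι') : CYLattice_tr Ω ι m (fun l => g * C i l) ∈ CYLattice_W m C := by
  have h : CYLattice_tr Ω ι m (fun l => g * C i l) =
      ∑ q ∈ Finset.range m, (PowerSeries.coeff q g) •
        CYLattice_tr Ω ι m (fun l => PowerSeries.X ^ q * C i l) := by
    funext l
    simp only [Finset.sum_apply, Pi.smul_apply, CYLattice_tr_apply, smul_eq_mul]
    rw [PowerSeries.coeff_mul, Finset.Nat.sum_antidiagonal_eq_sum_range_succ
      (fun a b => PowerSeries.coeff a g * PowerSeries.coeff b (C i l.1))]
    have hl : l.2.1 < m := l.2.2
    have h2 : Finset.range m = Finset.range (l.2.1 + 1) ∪ Finset.Ico (l.2.1 + 1) m := by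
      ext x
      simp only [Finset.mem_range, Finset.mem_union, Finset.mem_Ico]
      omega
    rw [h2, Finset.sum_union]
    · have h3 : ∑ x ∈ Finset.Ico (l.2.1 + 1) m, PowerSeries.coeff x g *
          PowerSeries.coeff l.2.1 (PowerSeries.X ^ x * C i l.1) = 0 := by
        refine Finset.sum_eq_zero fun x hx => ?_
        rw [Finset.mem_Ico] at hx
        rw [PowerSeries.coeff_X_pow_mul', if_neg (by omega), mul_zero]
      rw [h3, add_zero]
      refine Finset.sum_congr rfl fun x hx => ?_
      rw [Finset.mem_range] at hx
      rw [PowerSeries.coeff_X_pow_mul', if_pos (by omega)]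
    · rw [Finset.disjoint_left]
      intro x hx hy
      simp only [Finset.mem_range, Finset.mem_Ico] at hx hy
      omega
  rw [h]
  refine Submodule.sum_mem _ fun q _ => Submodule.smul_mem _ _ (Submodule.subset_span ⟨(i, q), rfl⟩)

/-- the case of an invertible matrix -/
theorem CYLattice_unit (m : ℕ) (C : ι → ι → PowerSeries Ω)
    (hC : IsUnit (Matrix.of C).det) : CYLattice_W m C = ⊤ := by
  rw [eq_top_iff]
  have hu : IsUnit (Matrix.of C) := (Matrix.isUnit_iff_isUnit_det _).2 hC
  obtain ⟨U, hU⟩ := hu
  -- every basis vector
  have key : ∀ (l : ι) (j : Fin m), (Pi.single (l, j) (1 : Ω) : ι × Fin m → Ω) ∈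
      CYLattice_W m C := by
    intro l j
    have h1 : (Pi.single (l, j) (1 : Ω) : ι × Fin m → Ω) =
        ∑ i, CYLattice_tr Ω ι m (fun k =>
          (PowerSeries.X ^ j.1 * (U⁻¹ : (Matrix ι ι (PowerSeries Ω))ˣ).1 l i) * C i k) := by
      rw [← map_sum]
      have h2 : (∑ i, fun k => (PowerSeries.X ^ j.1 *
          (U⁻¹ : (Matrix ι ι (PowerSeries Ω))ˣ).1 l i) * C i k) =
          fun k => PowerSeries.X ^ j.1 * (1 : Matrix ι ι (PowerSeries Ω)) l k := by
        funext k
        have h3 : (1 : Matrix ι ι (PowerSeries Ω)) = (U⁻¹ : (Matrix ι ι (PowerSeries Ω))ˣ).1 *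
            Matrix.of C := by
          rw [← hU]
          exact (Units.inv_mul U).symm
        rw [h3, Matrix.mul_apply, Finset.sum_apply, Finset.mul_sum]
        refine Finset.sum_congr rfl fun i _ => ?_
        rw [Matrix.of_apply]
        ring
      rw [h2]
      funext x
      rw [CYLattice_tr_apply]
      obtain ⟨k, j'⟩ := x
      by_cases hk : l = k
      · subst hk
        rw [Matrix.one_apply_eq, mul_one, PowerSeries.coeff_X_pow]
        by_cases hj : j' = j
        · subst hj
          simp
        · rw [Pi.single_eq_of_ne (by simpa using hj), if_neg (fun h => hj (Fin.ext h))]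
      · rw [Matrix.one_apply_ne hk, mul_zero, map_zero, Pi.single_eq_of_ne]
        intro h
        exact hk (by simpa using (congrArg Prod.fst h).symm)
    rw [h1]
    exact Submodule.sum_mem _ fun i _ => CYLattice_mem m C _ i
  intro v _
  have h4 : v = ∑ x, v x • (Pi.single x (1 : Ω) : ι × Fin m → Ω) := by
    funext y
    rw [Finset.sum_apply]
    simp [Pi.single_apply]
  rw [h4]
  exact Submodule.sum_mem _ fun x _ => Submodule.smul_mem _ _ (key x.1 x.2)

theorem CYLattice_main (m : ℕ) (δ : ℕ) : ∀ (C : ι → ι → PowerSeries Ω),
    (Matrix.of C).det.order = δ →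
    Fintype.card ι * m ≤ δ + Module.finrank Ω (CYLattice_W m C) := by
  induction δ with
  | zero =>
    intro C hC
    have h1 : IsUnit (Matrix.of C).det := by
      rw [PowerSeries.isUnit_iff_constantCoeff, isUnit_iff_ne_zero]
      intro h
      have h2 := PowerSeries.order_eq_nat.1 hC
      apply h2.1
      rw [PowerSeries.coeff_zero_eq_constantCoeff]
      exact h
    rw [CYLattice_unit m C h1]
    simp
  | succ δ ih =>
    intro C hC
    have hC' := PowerSeries.order_eq_nat.1 hC
    -- the constant matrix is singular
    have h0 : ((Matrix.of C).map (PowerSeries.constantCoeff (R := Ω))).det = 0 := by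
      have h1 : ((Matrix.of C).map (PowerSeries.constantCoeff (R := Ω))).det =
          PowerSeries.constantCoeff (R := Ω) (Matrix.of C).det := by
        rw [RingHom.map_det]
        rfl
      rw [h1, ← PowerSeries.coeff_zero_eq_constantCoeff_apply]
      exact hC'.2 0 (by omega)
    obtain ⟨c, hc0, hc⟩ := Matrix.exists_vecMul_eq_zero_iff.2 h0
    obtain ⟨i0, hi0⟩ : ∃ i, c i ≠ 0 := by
      by_contra hcon
      push Not at hcon
      exact hc0 (funext hcon)
    -- the combination is divisible by X
    have hdiv : ∀ l, ∃ D : PowerSeries Ω, ∑ i, PowerSeries.C (c i) * C i l = PowerSeries.X * D := by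
      intro l
      have h2 : PowerSeries.X ∣ ∑ i, PowerSeries.C (c i) * C i l := by
        rw [PowerSeries.X_dvd_iff, map_sum]
        have h3 := congrFun hc l
        simp only [Matrix.vecMul, dotProduct, Matrix.map_apply, Matrix.of_apply,
          Pi.zero_apply] at h3
        rw [← h3]
        refine Finset.sum_congr rfl fun i _ => ?_
        rw [map_mul, PowerSeries.constantCoeff_C]
      exact h2
    choose D hD using hdiv
    set C' : ι → ι → PowerSeries Ω := Function.update C i0 D with hC'def
    -- determinant of the new matrix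
    have hdet : PowerSeries.X * (Matrix.of C').det = PowerSeries.C (c i0) * (Matrix.of C).det := by
      have h4 : (Matrix.of C').det = ((Matrix.of C).updateRow i0 D).det := rfl
      have h5 : PowerSeries.X * ((Matrix.of C).updateRow i0 D).det =
          ((Matrix.of C).updateRow i0 ((PowerSeries.X : PowerSeries Ω) • D)).det := by
        rw [Matrix.det_updateRow_smul]
      have h6 : ((PowerSeries.X : PowerSeries Ω) • D : ι → PowerSeries Ω) =
          ∑ i, PowerSeries.C (c i) • (Matrix.of C) i := by
        funext l
        rw [Pi.smul_apply, smul_eq_mul, ← hD l, Finset.sum_apply]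
        rfl
      rw [h4, h5, h6, Matrix.det_updateRow_sum]
      rw [smul_eq_mul]
    have hord : (Matrix.of C').det.order = δ := by
      have h7 := congrArg PowerSeries.order hdet
      rw [PowerSeries.order_mul, PowerSeries.order_mul, PowerSeries.order_X, hC] at h7
      have h8 : (PowerSeries.C (c i0)).order = 0 := by
        have := PowerSeries.order_monomial_of_ne_zero 0 (c i0) hi0
        rw [PowerSeries.monomial_zero_eq_C_apply] at this
        simpa using this
      rw [h8, zero_add] at h7
      have h9 : ((Matrix.of C').det.order) ≠ ⊤ := by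
        intro h
        rw [h, add_top] at h7
        exact ENat.natCast_ne_top (δ + 1) h7.symm
      obtain ⟨k, hk⟩ := ENat.ne_top_iff_exists.1 h9
      rw [← hk] at h7 ⊢
      have h10 : ((1 + k : ℕ) : ℕ∞) = ((δ + 1 : ℕ) : ℕ∞) := by
        push_cast
        push_cast at h7
        exact h7
      have h11 : 1 + k = δ + 1 := by exact_mod_cast h10
      have h12 : k = δ := by omega
      rw [h12]
    have hih := ih C' hord
    -- comparison of the spans
    have hle : CYLattice_W m C' ≤ CYLattice_W m C ⊔ Submodule.span Ω {CYLattice_tr Ω ι m D} := by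
      refine Submodule.span_le.2 ?_
      rintro _ ⟨⟨i, q⟩, rfl⟩
      by_cases hi : i = i0
      · subst hi
        rcases q with _ | q
        · refine Submodule.mem_sup_right ?_
          have h13 : (fun l => PowerSeries.X ^ ((i, 0) : ι × ℕ).2 * C' ((i, 0) : ι × ℕ).1 l) = D := by
            funext l
            simp [hC'def]
          simp only [h13]
          exact Submodule.mem_span_singleton_self _
        · refine Submodule.mem_sup_left ?_
          have h14 : (fun l => PowerSeries.X ^ ((i, q + 1) : ι × ℕ).2 *
              C' ((i, q + 1) : ι × ℕ).1 l) =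
              ∑ i', fun l => (PowerSeries.X ^ q * PowerSeries.C (c i')) * C i' l := by
            funext l
            rw [Finset.sum_apply]
            have h15 : C' i l = D l := by simp [hC'def]
            simp only [h15]
            rw [pow_succ, mul_assoc, ← hD l, Finset.mul_sum]
            refine Finset.sum_congr rfl fun i' _ => ?_
            ring
          simp only [h14]
          rw [map_sum]
          exact Submodule.sum_mem _ fun i' _ => CYLattice_mem m C _ i'
      · refine Submodule.mem_sup_left ?_
        have h16 : (fun l => PowerSeries.X ^ ((i, q) : ι × ℕ).2 * C' ((i, q) : ι × ℕ).1 l) =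
            fun l => PowerSeries.X ^ q * C i l := by
          funext l
          simp [hC'def, Function.update_of_ne hi]
        simp only [h16]
        exact CYLattice_mem m C _ i
    have hfr : Module.finrank Ω (CYLattice_W m C') ≤ Module.finrank Ω (CYLattice_W m C) + 1 := by
      calc Module.finrank Ω (CYLattice_W m C')
          ≤ Module.finrank Ω (CYLattice_W m C ⊔ Submodule.span Ω {CYLattice_tr Ω ι m D} :
              Submodule Ω (ι × Fin m → Ω)) := Submodule.finrank_mono hle
        _ ≤ Module.finrank Ω (CYLattice_W m C) +
              Module.finrank Ω (Submodule.span Ω {CYLattice_tr Ω ι m D}) :=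
            Submodule.finrank_add_le_finrank_add_finrank _ _
        _ ≤ Module.finrank Ω (CYLattice_W m C) + 1 := by
            have h20 := finrank_span_le_card (R := Ω) ({CYLattice_tr Ω ι m D} : Set (ι × Fin m → Ω))
            rw [Set.toFinset_singleton, Finset.card_singleton] at h20
            omega
    omega

end CYLattice

/-- If `n` vectors in `Ω⟦X⟧ ^ n` have determinant of order `δ`, then the truncations modulo `X ^ m`
of their multiples by powers of `X` span a space of dimension at least `n m - δ`. -/
theorem lattice_finrank {Ω : Type} [Field Ω] {ι ι' : Type} [Fintype ι] [DecidableEq ι]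
    [Fintype ι'] (σ : ι' ≃ ι)
    (C : ι' → ι → PowerSeries Ω) (δ m : ℕ)
    (hC : (Matrix.of fun i l => C (σ.symm i) l).det.order = δ) :
    Fintype.card ι * m ≤ δ + Module.finrank Ω (Submodule.span Ω
      (Set.range fun q : ι' × ℕ => fun l : ι × Fin m =>
        PowerSeries.coeff l.2.1 (PowerSeries.X ^ q.2 * C q.1 l.1))) := by
  have h := CYLattice_main m δ (fun i l => C (σ.symm i) l) hC
  have h2 : CYLattice_W m (fun i l => C (σ.symm i) l) = Submodule.span Ω
      (Set.range fun q : ι' × ℕ => fun l : ι × Fin m =>
        PowerSeries.coeff l.2.1 (PowerSeries.X ^ q.2 * C q.1 l.1)) := by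
    unfold CYLattice_W
    congr 1
    ext v
    constructor
    · rintro ⟨⟨i, q⟩, rfl⟩
      exact ⟨(σ.symm i, q), rfl⟩
    · rintro ⟨⟨i, q⟩, rfl⟩
      refine ⟨(σ i, q), ?_⟩
      funext l
      simp [CYLattice_tr_apply]
  rw [h2] at h
  exact h

end Pool.Agent.Lib.MP_410da7_ag
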