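import Mathlib

/-!
# Top exterior powers and alternating forms
-/

set_option autoImplicit false

namespace Pool.Agent.Lib.MP_410da7_ag

/-- top exterior power: every decomposable form is the determinant times the one of a basis -/
theorem iotaMulti_eq_det {K V : Type} [Field K] [AddCommGroup V] [Module K V] {n : ℕ}
    (e : Module.Basis (Fin n) K V) (θ : Fin n → V) :
    exteriorPower.ιMulti K n θ = e.det θ • exteriorPower.ιMulti K n (e : Fin n → V) := by
  have h : (exteriorPower.ιMulti K n : V [⋀^Fin n]→ₗ[K] ⋀[K]^n V) =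
      (LinearMap.toSpanSingleton K _ (exteriorPower.ιMulti K n (e : Fin n → V))).compAlternatingMap
        e.det := by
    refine Module.Basis.ext_alternating e fun v hv => ?_
    let σ : Equiv.Perm (Fin n) := Equiv.ofBijective v (Finite.injective_iff_bijective.1 hv)
    have hσ : (fun i => e (v i)) = (e : Fin n → V) ∘ σ := rfl
    rw [hσ, AlternatingMap.map_perm, AlternatingMap.map_perm]
    congr 1
    simp [Module.Basis.det_self]
  have := DFunLike.congr_fun h θ
  simpa using this

theorem iotaMulti_basis_ne_zero {K V : Type} [Field K] [AddCommGroup V] [Module K V] {n : ℕ}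
    (e : Module.Basis (Fin n) K V) : exteriorPower.ιMulti K n (e : Fin n → V) ≠ 0 := by
  intro h
  have h1 := exteriorPower.alternatingMapLinearEquiv_apply_ιMulti e.det (e : Fin n → V)
  rw [h, map_zero, Module.Basis.det_self] at h1
  exact zero_ne_one h1

/-- A nonzero alternating form in top degree identifies the top exterior power with the field. -/
theorem exists_eta_of_psi {K V : Type} [Field K] [AddCommGroup V] [Module K V] {n : ℕ}
    (e : Module.Basis (Fin n) K V) (Ψ : V [⋀^Fin n]→ₗ[K] K) (hΨ : Ψ ≠ 0) :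
    ∃ η : ⋀[K]^n V, η ≠ 0 ∧ ∀ θ : Fin n → V, exteriorPower.ιMulti K n θ = Ψ θ • η := by
  have h1 : ∀ θ, Ψ θ = Ψ e * e.det θ := by
    intro θ
    have := DFunLike.congr_fun (Ψ.eq_smul_basis_det e) θ
    simpa using this
  have h2 : Ψ e ≠ 0 := by
    intro h0
    apply hΨ
    ext θ
    rw [h1, h0, zero_mul, AlternatingMap.zero_apply]
  refine ⟨(Ψ e)⁻¹ • exteriorPower.ιMulti K n (e : Fin n → V),
    smul_ne_zero (inv_ne_zero h2) (iotaMulti_basis_ne_zero e), fun θ => ?_⟩
  rw [iotaMulti_eq_det e, smul_smul, h1, mul_right_comm, mul_inv_cancel₀ h2, one_mul]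

/-- Conversely a nonzero vector of the top exterior power gives such an alternating form. -/
theorem exists_psi_of_eta {K V : Type} [Field K] [AddCommGroup V] [Module K V] {n : ℕ}
    (e : Module.Basis (Fin n) K V) (η : ⋀[K]^n V) (hη : η ≠ 0) :
    ∃ Ψ : V [⋀^Fin n]→ₗ[K] K, Ψ ≠ 0 ∧ ∀ (θ : Fin n → V) (c : K),
      exteriorPower.ιMulti K n θ = c • η → Ψ θ = c := by
  haveI : Module.Finite K V := Module.Finite.of_basis e
  have hfin : Module.finrank K (⋀[K]^n V) = 1 := by
    rw [exteriorPower.finrank_eq, Module.finrank_eq_card_basis e]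
    simp
  obtain ⟨c0, hc0⟩ := (finrank_eq_one_iff_of_nonzero' η hη).1 hfin
    (exteriorPower.ιMulti K n (e : Fin n → V))
  have hc0' : c0 ≠ 0 := by
    rintro rfl
    rw [zero_smul] at hc0
    exact iotaMulti_basis_ne_zero e hc0.symm
  refine ⟨c0 • e.det, ?_, fun θ c h => ?_⟩
  · intro h0
    have := DFunLike.congr_fun h0 (e : Fin n → V)
    rw [AlternatingMap.smul_apply, Module.Basis.det_self, AlternatingMap.zero_apply, smul_eq_mul,
      mul_one] at this
    exact hc0' this
  · rw [iotaMulti_eq_det e, ← hc0, smul_smul] at h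
    have h3 := smul_left_injective K hη h
    rw [AlternatingMap.smul_apply, smul_eq_mul, mul_comm]
    exact h3

end Pool.Agent.Lib.MP_410da7_ag
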