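import Pool.Agent.Lib.MP_410da7_ag.DPart
import Pool.Agent.Lib.MP_410da7_ag.Wedge

/-!
# `𝔸¹`-uniruled varieties have no logarithmic pluricanonical forms: conclusion
-/

set_option autoImplicit false

namespace Pool.Agent.Lib.MP_410da7_ag

open KaehlerDifferential WithZero Polynomial

section core

variable {K L : Type} [Field K] [Algebra ℂ K] [Field L] [Algebra ℂ L] [Algebra K (RatFunc L)]
  [IsScalarTower ℂ K (RatFunc L)]

theorem detForm_ne_zero {ι : Type} [Fintype ι] [DecidableEq ι] (y : ι → L)
    (δ : ι → Derivation ℂ L L)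
    (hδ : ∀ i j, δ i (y j) = if i = j then 1 else 0) {d : ℕ} (e : Fin d ≃ Option ι) (u : Fin d → K)
    (hu : IsTranscendenceBasis ℂ (fun i => algebraMap K (RatFunc L) (u i))) :
    detForm K (fun j => extDer (famDer δ (e j))) (fun i => D ℂ K (u i)) ≠ 0 := by
  intro h0
  rw [detForm_apply, ← Matrix.exists_mulVec_eq_zero_iff] at h0
  obtain ⟨v, hv, hv0⟩ := h0
  let Δ : Derivation ℂ (RatFunc L) (RatFunc L) := ∑ j, v j • extDer (famDer δ (e j))
  have hΔ : ∀ x, Δ x = ∑ j, v j * extDer (famDer δ (e j)) x := by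
    intro x
    have : ∀ s : Finset (Fin d), (∑ j ∈ s, v j • extDer (famDer δ (e j))) x =
        ∑ j ∈ s, v j * extDer (famDer δ (e j)) x := by
      intro s
      classical
      induction s using Finset.induction with
      | empty => simp
      | insert a s ha ih =>
        rw [Finset.sum_insert ha, Finset.sum_insert ha, Derivation.add_apply, ih,
          Derivation.smul_apply, smul_eq_mul]
    exact this _
  obtain ⟨b, hb⟩ := exists_kaehlerBasis _ hu
  have h1 : Δ.liftKaehlerDifferential = 0 := by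
    refine b.ext fun i => ?_
    rw [hb, Derivation.liftKaehlerDifferential_comp_D, LinearMap.zero_apply, hΔ]
    have := congrFun hv0 i
    simp only [Matrix.mulVec, dotProduct, Matrix.of_apply, pull_D, Pi.zero_apply] at this
    rw [← this]
    exact Finset.sum_congr rfl fun j _ => mul_comm _ _
  have h2 : ∀ x, Δ x = 0 := by
    intro x
    rw [← Derivation.liftKaehlerDifferential_comp_D, h1, LinearMap.zero_apply]
  apply hv
  funext j
  cases hj : e j with
  | none =>
    have h3 := h2 (algebraMap L[X] (RatFunc L) X)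
    rw [hΔ, Finset.sum_eq_single j] at h3
    · rw [hj, extDer_algebraMap] at h3
      simpa [famDer, ddt_apply] using h3
    · intro k _ hk
      cases hk' : e k with
      | none => exact absurd (e.injective (hk'.trans hj.symm)) hk
      | some l =>
        rw [extDer_algebraMap]
        have : (famDer δ (some l)) X = 0 := by
          ext n
          simp only [famDer, coeffDer_coeff, coeff_X]
          split_ifs <;> simp
        rw [this]; simp
    · simp
  | some i =>
    have h3 := h2 (algebraMap L[X] (RatFunc L) (C (y i)))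
    rw [hΔ, Finset.sum_eq_single j] at h3
    · rw [hj, extDer_algebraMap] at h3
      have : (famDer δ (some i)) (C (y i)) = 1 := by
        ext n
        simp only [famDer, coeffDer_coeff, coeff_C, coeff_one]
        split_ifs <;> simp [hδ]
      rw [this] at h3
      simpa using h3
    · intro k _ hk
      rw [extDer_algebraMap]
      have : (famDer δ (e k)) (C (y i)) = 0 := by
        cases hk' : e k with
        | none => simp [famDer, ddt_apply]
        | some l =>
          have hli : l ≠ i := by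
            rintro rfl
            exact hk (e.injective (hk'.trans hj.symm))
          ext n
          simp only [famDer, coeffDer_coeff, coeff_C]
          split_ifs <;> simp [hδ, hli]
      rw [this]; simp
    · simp

end core

/-- dual derivations of a transcendence basis -/
theorem exists_dual_der {L : Type} [Field L] [Algebra ℂ L] {ι : Type} [DecidableEq ι] (y : ι → L)
    (hy : IsTranscendenceBasis ℂ y) :
    ∃ δ : ι → Derivation ℂ L L, ∀ i j, δ i (y j) = if i = j then 1 else 0 := by
  obtain ⟨b, hb⟩ := exists_kaehlerBasis y hy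
  refine ⟨fun i => (b.coord i).compDer (D ℂ L), fun i j => ?_⟩
  change (b.coord i) (D ℂ L (y j)) = _
  rw [← hb]
  simp [Finsupp.single_apply, eq_comm]

theorem isAlgebraic_fractionRing (B : Type) [CommRing B] [IsDomain B] :
    Algebra.IsAlgebraic B (FractionRing B) :=
  IsLocalization.isAlgebraic _ (nonZeroDivisors B)

theorem trdeg_ratFunc {B : Type} [CommRing B] [IsDomain B] [Algebra ℂ B] :
    Algebra.trdeg ℂ (RatFunc (FractionRing B)) = Algebra.trdeg ℂ B + 1 := by
  haveI := isAlgebraic_fractionRing B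
  have h1 : Algebra.trdeg ℂ B + Algebra.trdeg B (FractionRing B) =
      Algebra.trdeg ℂ (FractionRing B) := trdeg_add_eq ℂ B
  have h2 : Algebra.trdeg B (FractionRing B) = 0 := trdeg_eq_zero
  have h3 : Algebra.trdeg ℂ (FractionRing B) + Algebra.trdeg (FractionRing B) (FractionRing B)[X] =
      Algebra.trdeg ℂ (FractionRing B)[X] := trdeg_add_eq ℂ (FractionRing B)
  have h4 : Algebra.trdeg (FractionRing B) (FractionRing B)[X] = 1 :=
    Polynomial.trdeg_of_isDomain
  have h5 : Algebra.trdeg ℂ (FractionRing B)[X] +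
      Algebra.trdeg (FractionRing B)[X] (RatFunc (FractionRing B)) =
      Algebra.trdeg ℂ (RatFunc (FractionRing B)) := trdeg_add_eq ℂ (FractionRing B)[X]
  haveI : Algebra.IsAlgebraic (FractionRing B)[X] (RatFunc (FractionRing B)) :=
    IsLocalization.isAlgebraic _ (nonZeroDivisors _)
  have h6 : Algebra.trdeg (FractionRing B)[X] (RatFunc (FractionRing B)) = 0 :=
    trdeg_eq_zero
  rw [← h5, h6, add_zero, ← h3, h4, ← h1, h2, add_zero]

theorem exists_basis_fin {R : Type} [CommRing R] [IsDomain R] [Algebra ℂ R] {n : ℕ}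
    (hn : Algebra.trdeg ℂ R = (n : Cardinal)) (K : Type) [Field K] [Algebra R K]
    [IsFractionRing R K] [Algebra ℂ K] [IsScalarTower ℂ R K] :
    ∃ u : Fin n → K, IsTranscendenceBasis ℂ u := by
  haveI : Algebra.IsAlgebraic R K := IsLocalization.isAlgebraic _ (nonZeroDivisors R)
  haveI : FaithfulSMul R K := (faithfulSMul_iff_algebraMap_injective _ _).2
    (IsFractionRing.injective R K)
  have hinj : Function.Injective (algebraMap ℂ R) := (algebraMap ℂ R).injective
  haveI : FaithfulSMul ℂ R := (faithfulSMul_iff_algebraMap_injective _ _).2 hinj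
  obtain ⟨s', hs'⟩ := exists_isTranscendenceBasis ℂ R
  have hs'card := hs'.cardinalMk_eq_trdeg
  rw [hn] at hs'card
  haveI : Finite s' := by
    rw [← Cardinal.lt_aleph0_iff_finite, hs'card]; exact Cardinal.natCast_lt_aleph0
  haveI : Fintype s' := Fintype.ofFinite s'
  have hs'c : Fintype.card s' = n := by
    rw [Cardinal.mk_fintype] at hs'card
    exact_mod_cast hs'card
  have h1 := (hs'.algebraMap_comp (A := K))
  let e' : Fin n ≃ s' := (Fintype.equivFinOfCardEq hs'c).symm
  refine ⟨fun i => algebraMap R K (e' i : R), ?_⟩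
  have h2 := (isTranscendenceBasis_equiv (R := ℂ) (f := algebraMap R K ∘ ((↑) : s' → R)) e').2 h1
  exact h2

theorem finrank_top_eq_one {K : Type} [Field K] [Algebra ℂ K] {n : ℕ} (u : Fin n → K)
    (hu : IsTranscendenceBasis ℂ u) : Module.finrank K (⋀[K]^n Ω[K⁄ℂ]) = 1 := by
  obtain ⟨b, hb⟩ := exists_kaehlerBasis u hu
  haveI : Module.Finite K Ω[K⁄ℂ] := Module.Finite.of_basis b
  rw [exteriorPower.finrank_eq, Module.finrank_eq_card_basis b]
  simp

theorem dmain_abs {R K L : Type} [CommRing R] [IsDomain R] [Algebra ℂ R] [Field K] [Algebra R K]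
    [IsFractionRing R K] [Algebra ℂ K] [IsScalarTower ℂ R K] [Field L] [Algebra ℂ L]
    (ψ : R →ₐ[ℂ] L[X]) (hψ : Function.Injective ψ) {n : ℕ}
    (hn : Algebra.trdeg ℂ R = (n : Cardinal)) {ι : Type} [Fintype ι] (y : ι → L)
    (hy : IsTranscendenceBasis ℂ y) (hcard : Fintype.card ι + 1 = n)
    (htr : Algebra.trdeg ℂ (RatFunc L) ≤ (n : Cardinal))
    {m : ℕ} (hm : 1 ≤ m) (F : K) (η : ⋀[K]^n Ω[K⁄ℂ]) (hη : η ≠ 0)
    (hF : ∀ v : Valuation K ℤᵐ⁰, (∀ c : ℂ, c ≠ 0 → v (algebraMap ℂ K c) = 1) →
      ∃ (θ : Fin n → Ω[K⁄ℂ]) (c G : K), (∀ i, θ i ∈ logDiff v) ∧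
        ((∀ a : R, v (algebraMap R K a) ≤ 1) → ∀ i, θ i ∈ regDiff v) ∧
        exteriorPower.ιMulti K n θ = c • η ∧ v G ≤ 1 ∧ F = G * c ^ m) : F = 0 := by
  classical
  let ψ' : R →ₐ[ℂ] RatFunc L := (IsScalarTower.toAlgHom ℂ L[X] (RatFunc L)).comp ψ
  have hψ' : Function.Injective ψ' := by
    have h1 : Function.Injective (algebraMap L[X] (RatFunc L)) :=
      IsFractionRing.injective L[X] (RatFunc L)
    exact h1.comp hψ
  let Φ : K →ₐ[ℂ] RatFunc L := IsFractionRing.liftAlgHom hψ'
  have hΦ : ∀ a : R, Φ (algebraMap R K a) = algebraMap L[X] (RatFunc L) (ψ a) := by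
    intro a
    simp [Φ, ψ']
  letI : Algebra K (RatFunc L) := Φ.toRingHom.toAlgebra
  haveI : IsScalarTower ℂ K (RatFunc L) := IsScalarTower.of_algebraMap_eq fun c => by
    change _ = Φ (algebraMap ℂ K c)
    rw [AlgHom.commutes]
  have halg : ∀ a : K, algebraMap K (RatFunc L) a = Φ a := fun a => rfl
  obtain ⟨u, hu⟩ := exists_basis_fin hn K
  have hfin := finrank_top_eq_one u hu
  have hu2 : IsTranscendenceBasis ℂ (fun i => algebraMap K (RatFunc L) (u i)) := by
    have h1 : AlgebraicIndependent ℂ (fun i => algebraMap K (RatFunc L) (u i)) := by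
      exact hu.1.map' (f := Φ) Φ.toRingHom.injective
    refine AlgebraicIndependent.isTranscendenceBasis_of_trdeg_le_of_finite h1 ?_
    rw [Cardinal.mk_fintype, Fintype.card_fin]
    exact htr
  let e : Fin n ≃ Option ι := Fintype.equivOfCardEq (by simp [hcard])
  obtain ⟨δ, hδ⟩ := exists_dual_der _ hy
  have hne := detForm_ne_zero (K := K) _ δ hδ e u hu2
  have hvan := core_vanish (K := K) δ e hm F η ?_ ?_
  · rcases mul_eq_zero.1 hvan with h | h
    · exact (map_eq_zero _).1 h
    · exfalso
      have h := eq_zero_of_pow_eq_zero h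
      obtain ⟨c, hc⟩ := (finrank_eq_one_iff_of_nonzero' η hη).1 hfin
        (exteriorPower.ιMulti K n (fun i => D ℂ K (u i)))
      apply hne
      rw [← exteriorPower.alternatingMapLinearEquiv_apply_ιMulti, ← hc, map_smul, h, smul_zero]
  · intro p
    obtain ⟨θ, c, G, h1, h2, h3, h4, h5⟩ := hF ((p.valuation (RatFunc L)).comap
      (algebraMap K (RatFunc L))) (by
        intro c hc
        change p.valuation (RatFunc L) (Φ (algebraMap ℂ K c)) = 1
        rw [AlgHom.commutes, IsScalarTower.algebraMap_apply ℂ L[X] (RatFunc L),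
          p.valuation_eq_one_iff_notMem]
        intro hmem
        apply p.isPrime.ne_top
        refine Ideal.eq_top_of_isUnit_mem _ hmem ?_
        exact (IsUnit.mk0 c hc).map (algebraMap ℂ L[X]))
    refine ⟨θ, c, G, h2 ?_, h3, h4, h5⟩
    intro a
    rw [Valuation.comap_apply, halg, hΦ]
    exact p.valuation_le_one _
  · obtain ⟨θ, c, G, h1, h2, h3, h4, h5⟩ := hF ((RatFunc.inftyValuation L).comap
      (algebraMap K (RatFunc L))) (by
        intro c hc
        change RatFunc.inftyValuation L (Φ (algebraMap ℂ K c)) = 1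
        rw [AlgHom.commutes, IsScalarTower.algebraMap_apply ℂ L (RatFunc L)]
        exact RatFunc.inftyValuation.C L (by simpa using hc))
    exact ⟨θ, c, G, h1, h3, h4, h5⟩

/-- `κ̄ = -∞` for `𝔸¹`-uniruled varieties. -/
theorem logKodairaNegInf_of_a1Uniruled {R K : Type} [CommRing R] [IsDomain R] [Algebra ℂ R]
    [Field K] [Algebra R K] [IsFractionRing R K] [Algebra ℂ K] [IsScalarTower ℂ R K]
    (h : A1Uniruled R) : LogKodairaNegInf R K := by
  obtain ⟨B, _, _, _, hBft, hBd, φ, hφ, -⟩ := h
  intro Ψ m F hΨ hm hF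
  haveI := isAlgebraic_fractionRing B
  have hBfin : Algebra.trdeg ℂ B < Cardinal.aleph0 := trdeg_lt_aleph0_of_finiteType (R := ℂ) (S := B)
  obtain ⟨s, hs⟩ := exists_isTranscendenceBasis ℂ B
  have hscard := hs.cardinalMk_eq_trdeg
  haveI : Finite s := by
    rw [← Cardinal.lt_aleph0_iff_finite, hscard]; exact hBfin
  haveI : Fintype s := Fintype.ofFinite s
  have hy : IsTranscendenceBasis ℂ (fun i : s => algebraMap B (FractionRing B) (i : B)) :=
    hs.algebraMap_comp (A := FractionRing B)
  have hdim : Algebra.trdeg ℂ R = ((Fintype.card s + 1 : ℕ) : Cardinal) := by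
    rw [← hBd, ← hscard, Cardinal.mk_fintype]
    push_cast
    rfl
  have hd : dim R = Fintype.card s + 1 := by
    rw [dim, hdim, Cardinal.toNat_natCast]
  have hn : Algebra.trdeg ℂ R = (dim R : Cardinal) := by rw [hd, hdim]
  obtain ⟨u, hu⟩ := exists_basis_fin hn K
  obtain ⟨b, hb⟩ := exists_kaehlerBasis u hu
  obtain ⟨η, hη, hη'⟩ := exists_eta_of_psi b Ψ hΨ
  refine dmain_abs (K := K)
    ((Polynomial.mapAlgHom (IsScalarTower.toAlgHom ℂ B (FractionRing B))).comp φ) ?_ hn
    (fun i : s => algebraMap B (FractionRing B) (i : B)) hy hd.symm ?_ hm F η hη ?_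
  · have h1 : Function.Injective (Polynomial.map (algebraMap B (FractionRing B))) :=
      Polynomial.map_injective _ (IsFractionRing.injective B (FractionRing B))
    exact h1.comp hφ
  · rw [trdeg_ratFunc, hBd, hn]
  · intro v hv
    obtain ⟨θ, G, h1, h2, h3, h4⟩ := hF v hv
    exact ⟨θ, Ψ θ, G, h1, h2, hη' θ, h3, h4⟩

end Pool.Agent.Lib.MP_410da7_ag
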