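import Pool.Agent.Lib.MP_410da7_ag.CYCount
import Pool.Agent.Lib.MP_410da7_ag.CYDiv
import Pool.Agent.Lib.MP_410da7_ag.CYFrame
import Pool.Agent.Lib.MP_410da7_ag.CMain
import Pool.Agent.Lib.MP_410da7_ag.DMain

/-!
# Log Calabi–Yau degree: `κ̄ = -∞` gives curves through every point
-/

set_option autoImplicit false

namespace Pool.Agent.Lib.MP_410da7_ag

open MvPolynomial WithZero KaehlerDifferential

section

variable {N r s : ℕ}

theorem eq_C_of_weightedTotalDegree_eq_zero (w : Fin N → ℕ) (hw : ∀ l, 0 < w l)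
    (P : MvPolynomial (Fin N) ℂ) (h : P.weightedTotalDegree w = 0) : P = C (P.coeff 0) := by
  ext α
  rw [coeff_C]
  split_ifs with h0
  · rw [← h0]
  · by_contra hne
    have h1 : Finsupp.weight w α ≤ P.weightedTotalDegree w :=
      le_weightedTotalDegree w (mem_support_iff.2 hne)
    rw [h, Nat.le_zero, Finsupp.weight_apply, Finsupp.sum_fintype _ _ (by simp),
      Finset.sum_eq_zero_iff] at h1
    apply h0
    ext l
    have h2 := h1 l (Finset.mem_univ _)
    rw [smul_eq_mul, mul_eq_zero] at h2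
    rcases h2 with h2 | h2
    · rw [h2]; rfl
    · exact absurd h2 (hw l).ne'

/-- a bad valuation gives curves -/
theorem curves_of_bad {d : ℕ} (f : Fin r → MvPolynomial (Fin N) ℂ)
    (g : Fin s → MvPolynomial (Fin N) ℂ) (w : Fin N → ℕ) (hw : ∀ l, 0 < w l)
    (hle : ∑ k, (f k).weightedTotalDegree w + ∑ j, (g j).weightedTotalDegree w ≤ ∑ l, w l)
    {K : Type} [Field K] [Algebra ℂ K] (x : Fin N → K) (H3 : ∀ k, aeval x (f k) = 0)
    (H3g : ∀ j, aeval x (g j) ≠ 0)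
    (H1 : ∀ a : K, ∃ P Q : MvPolynomial (Fin N) ℂ, aeval x Q ≠ 0 ∧ a * aeval x Q = aeval x P)
    (H4 : LinearIndependent K (fun k => grad x (f k)))
    (σ : Fin r ⊕ Fin d ≃ Fin N) (η : ⋀[K]^d Ω[K⁄ℂ]) (hη0 : η ≠ 0)
    (hη : ∀ ξ : Fin d → (Fin N → K), exteriorPower.ιMulti K d (fun i => dmap x (ξ i)) =
        (Matrix.det (Matrix.of fun i j => Sum.elim (fun k => grad x (f k)) ξ i (σ j))) • η)
    (Ψ : Ω[K⁄ℂ] [⋀^Fin d]→ₗ[K] K) (hΨ0 : Ψ ≠ 0)
    (hΨ : ∀ (θ : Fin d → Ω[K⁄ℂ]) (c : K), exteriorPower.ιMulti K d θ = c • η → Ψ θ = c)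
    (ξ0 : Fin d → K) (hξ0 : IsTranscendenceBasis ℂ ξ0)
    (v : Valuation K ℤᵐ⁰) (hv : ∀ c : ℂ, c ≠ 0 → v (algebraMap ℂ K c) = 1)
    (hnot : ∀ θ : Fin d → Ω[K⁄ℂ], (∀ i, θ i ∈ logDiff v) →
      v (Ψ θ) < v (∏ j, aeval x (g j))⁻¹) :
    ∃ e : ℕ, ∀ (L : Type) [Field L] [IsAlgClosed L] [Algebra ℂ L] (p : Fin N → L),
      ∃ γ : Fin N → Polynomial L, (∀ l, (γ l).eval 0 = p l) ∧ (∀ l, (γ l).natDegree ≤ e * w l) ∧
        (∃ l, 0 < (γ l).natDegree) ∧
        (∀ k, aeval γ (f k) = Polynomial.C (aeval p (f k))) ∧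
        (∀ j, aeval γ (g j) = Polynomial.C (aeval p (g j))) := by
  classical
  obtain ⟨i0, ξ, hξ, h1, h2, h3⟩ := exists_divisorial v hv ξ0 hξ0 Ψ hΨ0 _ hnot
  obtain ⟨δ, hδ⟩ := exists_dual_der ξ hξ
  obtain ⟨bK, hbK⟩ := exists_kaehlerBasis ξ hξ
  choose ρ hρ using fun i => dmap_surjective x H1 (D ℂ K (ξ i))
  set Q : Matrix (Fin r ⊕ Fin d) (Fin r ⊕ Fin d) K :=
    Matrix.of fun i j => Sum.elim (fun k => grad x (f k)) ρ i (σ j) with hQ
  have hQη := hη ρ
  have hbK' : (fun i => dmap x (ρ i)) = (bK : Fin d → Ω[K⁄ℂ]) := by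
    funext i
    rw [hρ, hbK]
  have hQ0 : Q.det ≠ 0 := by
    intro h0
    rw [← hQ, h0, zero_smul, hbK'] at hQη
    exact iotaMulti_basis_ne_zero bK hQη
  have hΨQ : Ψ (fun i => D ℂ K (ξ i)) = Q.det := by
    have : (fun i => D ℂ K (ξ i)) = fun i => dmap x (ρ i) := by
      funext i
      rw [hρ]
    rw [this]
    exact hΨ _ _ hQη
  obtain ⟨s', hs, hdet⟩ := exists_frame x f H3 ξ ρ hρ σ hQ0 δ hδ
  set S : Matrix (Fin r ⊕ Fin d) (Fin r ⊕ Fin d) K :=
    Matrix.of fun i j => Sum.elim s' (fun i l => δ i (x l)) i (σ j) with hS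
  have hSQ : S.det * Q.det = 1 := hdet
  have hS0 : S.det ≠ 0 := left_ne_zero_of_mul_eq_one hSQ
  have hπ0 : ξ i0 ≠ 0 := hξ.1.ne_zero i0
  have hvπ0 : v (ξ i0) ≠ 0 := by rwa [Valuation.ne_zero_iff]
  have hunit : ∀ i, i ≠ i0 → v (ξ i) = 1 := by
    intro i hi
    have := h3 (X ⟨i, hi⟩) (X_ne_zero _)
    rwa [aeval_X] at this
  -- the inequality at the logarithmic basis
  have hkey : v (Q.det / ξ i0) < v (∏ j, aeval x (g j))⁻¹ := by
    have h4 := hnot (Function.update (fun i => D ℂ K (ξ i)) i0 ((1 / ξ i0) • D ℂ K (ξ i0))) (by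
      intro i
      by_cases hi : i = i0
      · subst hi
        rw [Function.update_self]
        exact AddSubgroup.subset_closure (Or.inr ⟨1, ξ i, (map_one v).le, hπ0, rfl⟩)
      · rw [Function.update_of_ne hi]
        exact AddSubgroup.subset_closure (Or.inl ⟨1, ξ i, (map_one v).le, (hunit i hi).le, by
          rw [one_smul]⟩))
    rw [AlternatingMap.map_update_smul, Function.update_eq_self, hΨQ, smul_eq_mul] at h4
    have h5 : Q.det / ξ i0 = 1 / ξ i0 * Q.det := by ring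
    rw [h5]
    exact h4
  -- the order function
  choose ν0 hν0 using h2
  let ν : K → ℤ := fun a => if h : a ≠ 0 then ν0 a h else 0
  have hν : ∀ a : K, a ≠ 0 → v a = v (ξ i0) ^ ν a := by
    intro a ha
    simp only [ν, dif_pos ha]
    exact hν0 a ha
  have hlt : ∀ a b : ℤ, v (ξ i0) ^ a < v (ξ i0) ^ b → b < a := by
    intro a b hab
    by_contra! hle'
    exact absurd hab (not_lt.2 (zpow_anti hvπ0 h1 hle'))
  have hinj : ∀ a b : ℤ, v (ξ i0) ^ a = v (ξ i0) ^ b → a = b := by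
    intro a b hab
    have hanti : ∀ a b : ℤ, a < b → v (ξ i0) ^ b < v (ξ i0) ^ a := by
      intro a b hab
      refine lt_of_le_of_ne (zpow_anti hvπ0 h1 hab.le) fun h => ?_
      obtain ⟨c, rfl⟩ : ∃ c : ℕ, b = a + (c + 1) := ⟨(b - a - 1).toNat, by omega⟩
      rw [zpow_add₀ hvπ0] at h
      have h6 : v (ξ i0) ^ ((c : ℤ) + 1) = 1 := by
        have := mul_left_cancel₀ (zpow_ne_zero a hvπ0) (h.trans (mul_one _).symm)
        exact this
      have h7 : v (ξ i0) ^ (c + 1) = 1 := by exact_mod_cast h6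
      have h8 : v (ξ i0) ^ (c + 1) < 1 := pow_lt_one₀ zero_le h1 (by omega)
      exact absurd h7 h8.ne
    rcases lt_trichotomy a b with h | h | h
    · exact absurd hab (hanti _ _ h).ne'
    · exact h
    · exact absurd hab (hanti _ _ h).ne
  have hprod0 : (∏ j, aeval x (g j)) ≠ 0 := Finset.prod_ne_zero_iff.2 fun j _ => H3g j
  have hprodν : v (∏ j, aeval x (g j)) = v (ξ i0) ^ (∑ j, ν (aeval x (g j))) := by
    rw [map_prod]
    have : ∀ t : Finset (Fin s), ∏ j ∈ t, v (aeval x (g j)) =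
        v (ξ i0) ^ (∑ j ∈ t, ν (aeval x (g j))) := by
      intro t
      induction t using Finset.induction with
      | empty => simp
      | insert a t ha ih =>
        rw [Finset.prod_insert ha, Finset.sum_insert ha, ih, zpow_add₀ hvπ0, hν _ (H3g a)]
    exact this _
  have hbad : ν S.det + 2 ≤ ∑ j, ν (aeval x (g j)) := by
    have hQS : Q.det = (S.det)⁻¹ := eq_inv_of_mul_eq_one_right hSQ
    rw [hQS, map_div₀, map_inv₀, map_inv₀, hprodν, hν _ hS0, ← zpow_neg, ← zpow_neg] at hkey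
    have h9 : v (ξ i0) ^ (-ν S.det) / v (ξ i0) = v (ξ i0) ^ (-ν S.det - 1) := by
      rw [zpow_sub_one₀ hvπ0, div_eq_mul_inv]
    rw [h9] at hkey
    have := hlt _ _ hkey
    omega
  -- numbers
  let df : Fin r → ℕ := fun k => (f k).weightedTotalDegree w
  let dg : Fin s → ℕ := fun j => (g j).weightedTotalDegree w
  let e : ℕ := ∑ l, (ν (x l)).natAbs
  let C2 : ℕ := e * ∑ k, df k + ∑ k, ∑ l, (ν (s' k l)).natAbs +
    ∑ i, ∑ k, ∑ l, (ν (δ i (s' k l))).natAbs
  let D1 : ℤ := e * ∑ l, (w l : ℤ) + 1 + r * C2 - e * ∑ k, (df k : ℤ) + ν S.det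
  let jj : ℕ := C2 + D1.natAbs + e + 1 + ∑ j, (e * dg j + (ν (aeval x (g j))).natAbs)
  have he : ∀ l, (ν (x l)).natAbs ≤ e := fun l =>
    Finset.single_le_sum (f := fun l => (ν (x l)).natAbs) (fun _ _ => Nat.zero_le _)
      (Finset.mem_univ l)
  have hd1 : ∀ k, df k ≤ ∑ k, df k := fun k =>
    Finset.single_le_sum (f := df) (fun _ _ => Nat.zero_le _) (Finset.mem_univ k)
  have hC1 : ∀ k l, (ν (s' k l)).natAbs ≤ ∑ k, ∑ l, (ν (s' k l)).natAbs := fun k l =>
    (Finset.single_le_sum (f := fun l => (ν (s' k l)).natAbs) (fun _ _ => Nat.zero_le _)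
      (Finset.mem_univ l)).trans
    (Finset.single_le_sum (f := fun k => ∑ l, (ν (s' k l)).natAbs) (fun _ _ => Nat.zero_le _)
      (Finset.mem_univ k))
  have hC3 : ∀ i k l, (ν (δ i (s' k l))).natAbs ≤
      ∑ i, ∑ k, ∑ l, (ν (δ i (s' k l))).natAbs := fun i k l =>
    ((Finset.single_le_sum (f := fun l => (ν (δ i (s' k l))).natAbs) (fun _ _ => Nat.zero_le _)
      (Finset.mem_univ l)).trans
    (Finset.single_le_sum (f := fun k => ∑ l, (ν (δ i (s' k l))).natAbs)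
      (fun _ _ => Nat.zero_le _) (Finset.mem_univ k))).trans
    (Finset.single_le_sum (f := fun i => ∑ k, ∑ l, (ν (δ i (s' k l))).natAbs)
      (fun _ _ => Nat.zero_le _) (Finset.mem_univ i))
  have hj1 : ∀ j, e * dg j + (ν (aeval x (g j))).natAbs ≤
      ∑ j, (e * dg j + (ν (aeval x (g j))).natAbs) := fun j =>
    Finset.single_le_sum (f := fun j => e * dg j + (ν (aeval x (g j))).natAbs)
      (fun _ _ => Nat.zero_le _) (Finset.mem_univ j)
  have hc7 : ∀ j, (e : ℤ) * (dg j : ℤ) + ν (aeval x (g j)) ≤ jj := by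
    intro j
    have h10 := hj1 j
    have h11 : ((e * dg j : ℕ) : ℤ) = (e : ℤ) * (dg j : ℤ) := by push_cast; ring
    rw [← h11]
    simp only [jj]
    omega
  refine ⟨2 * jj, fun L _ _ _ p => ?_⟩
  by_contra hcon
  push Not at hcon
  refine count_contra f g w hw hle ?_ x H3 H3g v i0 ξ hξ h1 ν hν h3 δ hδ σ s' hs S hS hS0 e C2 jj
    (2 * jj) rfl D1 ?_ ?_ ?_ ?_ rfl ?_ ?_ hc7 ?_ hbad p ?_
  · intro k
    rw [Nat.pos_iff_ne_zero]
    intro h0
    have h12 := eq_C_of_weightedTotalDegree_eq_zero w hw (f k) h0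
    apply H4.ne_zero k
    funext l
    simp only [grad]
    rw [h12, pderiv_C, map_zero]
    rfl
  · intro l _
    have h13 := he l
    have h14 : e ≤ e * w l := Nat.le_mul_of_pos_right e (hw l)
    have h15 : ((e * w l : ℕ) : ℤ) = (e : ℤ) * (w l : ℤ) := by push_cast; ring
    rw [← h15]
    omega
  · intro k l _
    have h13 := hC1 k l
    have h14 : e * df k ≤ e * ∑ k, df k := Nat.mul_le_mul_left e (hd1 k)
    have h15 : ((e * df k : ℕ) : ℤ) = (e : ℤ) * (df k : ℤ) := by push_cast; ring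
    have h16 : (e : ℤ) * ((f k).weightedTotalDegree w : ℕ) = ((e * df k : ℕ) : ℤ) := h15.symm
    rw [h16]
    simp only [C2]
    omega
  · intro i k l _
    have h13 := hC3 i k l
    have h14 : e * df k ≤ e * ∑ k, df k := Nat.mul_le_mul_left e (hd1 k)
    have h15 : ((e * df k : ℕ) : ℤ) = (e : ℤ) * (df k : ℤ) := by push_cast; ring
    have h16 : (e : ℤ) * ((f k).weightedTotalDegree w : ℕ) = ((e * df k : ℕ) : ℤ) := h15.symm
    rw [h16]
    simp only [C2]
    omega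
  · simp only [jj]
    omega
  · have haux : ∀ (a : ℤ) (c n : ℕ), c + a.natAbs + 1 ≤ n → a + c < ((2 * n : ℕ) : ℤ) := by
      intro a c n h
      omega
    refine haux D1 C2 jj ?_
    simp only [jj]
    omega
  · simp only [jj]
    omega
  · intro j
    by_cases hj : dg j = 0
    · have h17 := eq_C_of_weightedTotalDegree_eq_zero w hw (g j) hj
      have h18 : ν (aeval x (g j)) = 0 := by
        have h19 := hν _ (H3g j)
        have h20 : v (aeval x (g j)) = 1 := by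
          rw [h17, aeval_C]
          refine hv _ fun h0 => H3g j ?_
          rw [h17, h0, C_0, map_zero]
        rw [h20] at h19
        exact (hinj 0 _ (by rw [zpow_zero]; exact h19)).symm
      change (e : ℤ) * (dg j : ℤ) + ν (aeval x (g j)) ≤ ((2 * jj : ℕ) : ℤ) * (dg j : ℤ)
      rw [h18, hj]
      simp
    · have h21 := hc7 j
      have h22 : (jj : ℤ) ≤ ((2 * jj : ℕ) : ℤ) * (dg j : ℤ) := by
        have : 1 ≤ dg j := Nat.pos_of_ne_zero hj
        have h23 : 2 * jj * 1 ≤ 2 * jj * dg j := Nat.mul_le_mul_left _ this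
        have h24 : (((2 * jj) * dg j : ℕ) : ℤ) = ((2 * jj : ℕ) : ℤ) * (dg j : ℤ) := by
          push_cast; ring
        rw [← h24]
        omega
      exact h21.trans h22
  · intro γ hγ0 hγd hγf hγg l
    by_contra hl
    exact (hcon γ hγ0 hγd ⟨l, Nat.pos_of_ne_zero hl⟩ hγf).elim fun j hj => hj (hγg j)

end

end Pool.Agent.Lib.MP_410da7_ag
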