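import Pool.Agent.Lib.MP_410da7_ag.CYData
import Pool.Agent.Lib.MP_410da7_ag.CYCore
import Pool.Agent.Lib.MP_410da7_ag.CYLattice

/-!
# Perturbed arcs: the lower bound
-/

set_option autoImplicit false

namespace Pool.Agent.Lib.MP_410da7_ag

open MvPolynomial WithZero

section

variable {Ω : Type} [Field Ω]

theorem uu_zpow (q : ℤ) : uu Ω ^ q = HahnSeries.single q 1 := by
  rw [uu]
  have h : ∀ n : ℕ, (HahnSeries.single (1 : ℤ) (1 : Ω)) ^ n = HahnSeries.single (n : ℤ) 1 := by
    intro n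
    rw [HahnSeries.single_pow]
    simp
  cases q with
  | ofNat n =>
    simpa using h n
  | negSucc n =>
    rw [zpow_negSucc, h, HahnSeries.inv_single]
    simp [Int.negSucc_eq]

theorem coeff_uu_zpow_mul (q : ℤ) (x : LaurentSeries Ω) (n : ℤ) :
    (uu Ω ^ q * x).coeff (q + n) = x.coeff n := by
  rw [uu_zpow, add_comm q n, HahnSeries.coeff_single_mul_add, one_mul]

theorem exists_ps (x : LaurentSeries Ω) (h : ∀ n : ℤ, n < 0 → x.coeff n = 0) :
    ∃ Y : PowerSeries Ω, (Y : LaurentSeries Ω) = x := by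
  refine ⟨PowerSeries.mk fun n => x.coeff n, ?_⟩
  ext n
  rw [PowerSeries.coeff_coe]
  split_ifs with hn
  · rw [h n hn]
  · rw [PowerSeries.coeff_mk]
    congr 1
    omega

/-- A Laurent series of large order, times a power of the uniformizer, is a power series divisible by
a given power of the uniformizer. -/
theorem exists_ps_dvd (x : LaurentSeries Ω) (q : ℤ) (j : ℕ)
    (h : x ≠ 0 → (j : ℤ) ≤ q + x.order) :
    ∃ Y : PowerSeries Ω, (Y : LaurentSeries Ω) = uu Ω ^ q * x ∧ PowerSeries.X ^ j ∣ Y := by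
  obtain ⟨Y, hY⟩ := exists_ps (uu Ω ^ (q - j) * x) (by
    intro n hn
    by_cases hx : x = 0
    · rw [hx, mul_zero, HahnSeries.coeff_zero]
    · have h1 : n = (q - j) + (n - (q - j)) := by ring
      rw [h1, coeff_uu_zpow_mul]
      apply HahnSeries.coeff_eq_zero_of_lt_order
      have := h hx
      omega)
  refine ⟨PowerSeries.X ^ j * Y, ?_, dvd_mul_right _ _⟩
  rw [PowerSeries.coe_mul, PowerSeries.coe_pow, coe_X, hY, ← mul_assoc, ← zpow_natCast,
    ← zpow_add₀ uu_ne_zero]
  congr 2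
  ring

theorem coe_inj {Y Z : PowerSeries Ω} (h : (Y : LaurentSeries Ω) = (Z : LaurentSeries Ω)) :
    Y = Z := HahnSeries.ofPowerSeries_injective h

theorem Δ_uu {L : Type} [CommRing L] [Algebra L Ω] (D : Derivation L Ω Ω)
    (Δ : LaurentSeries Ω →+ LaurentSeries Ω)
    (hΔ : ∀ (x : LaurentSeries Ω) (n : ℤ), (Δ x).coeff n = D (x.coeff n)) (q : ℤ) :
    Δ (uu Ω ^ q) = 0 := by
  ext n
  rw [hΔ, uu_zpow, HahnSeries.coeff_single, HahnSeries.coeff_zero]
  split_ifs
  · exact D.map_one_eq_zero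
  · exact map_zero _

end

end Pool.Agent.Lib.MP_410da7_ag
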