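import Pool.Agent.Lib.MP_410da7_ag.Curve
import Pool.Agent.Lib.MP_410da7_ag.CYGraded

/-!
# Specialisation: curves of bounded degree through the closed points give one through every point
-/

set_option autoImplicit false

namespace Pool.Agent.Lib.MP_410da7_ag

open MvPolynomial

/-- A finite set of elements of an extension field can be specialised to complex numbers. -/
theorem exists_specialisation {E : Type} [Field E] [Algebra ℂ E] (T : Finset E) (a : E)
    (ha : a ≠ 0) : ∃ (A : Subalgebra ℂ E) (χ : A →ₐ[ℂ] ℂ), (T : Set E) ⊆ A ∧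
      ∃ h : a ∈ A, χ ⟨a, h⟩ ≠ 0 := by
  classical
  let S : Finset E := insert a (insert a⁻¹ T)
  let u : S → E := fun i => i
  let A : Subalgebra ℂ E := (aeval (R := ℂ) u).range
  have hS : (S : Set E) ⊆ A := fun b hb => ⟨X ⟨b, hb⟩, by
    change aeval u (X _) = b
    rw [aeval_X]⟩
  have hne : RingHom.ker (aeval (R := ℂ) u) ≠ ⊤ := RingHom.ker_ne_top _
  obtain ⟨M, hM, hle⟩ := Ideal.exists_le_maximal _ hne
  obtain ⟨v, hv⟩ := MvPolynomial.isMaximal_iff_eq_vanishingIdeal_singleton.1 hM
  have hker : ∀ P : MvPolynomial S ℂ, aeval u P = 0 → aeval v P = (0 : ℂ) := by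
    intro P hP
    have h1 : P ∈ M := hle hP
    rw [hv, mem_vanishingIdeal_singleton_iff] at h1
    exact h1
  choose P hP using fun b : A => b.2
  have hP' : ∀ b : A, aeval u (P b) = (b : E) := hP
  have hwd : ∀ (b : A) (Q : MvPolynomial S ℂ), aeval u Q = (b : E) →
      aeval v Q = (aeval v (P b) : ℂ) := by
    intro b Q hQ
    have := hker (Q - P b) (by rw [map_sub, hQ, hP', sub_self])
    rwa [map_sub, sub_eq_zero] at this
  let χ : A →ₐ[ℂ] ℂ :=
    { toFun := fun b => aeval v (P b)
      map_one' := by rw [← hwd 1 1 (by rw [map_one]; rfl), map_one]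
      map_mul' := fun b c => by
        rw [← hwd (b * c) (P b * P c) (by rw [map_mul, hP', hP']; rfl), map_mul]
      map_zero' := by rw [← hwd 0 0 (by rw [map_zero]; rfl), map_zero]
      map_add' := fun b c => by
        rw [← hwd (b + c) (P b + P c) (by rw [map_add, hP', hP']; rfl), map_add]
      commutes' := fun c => by
        rw [← hwd (algebraMap ℂ A c) (algebraMap ℂ _ c) (by rw [AlgHom.commutes]; rfl),
          AlgHom.commutes] }
  have haS : a ∈ A := hS (by simp [S])
  have hbS : a⁻¹ ∈ A := hS (by simp [S])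
  refine ⟨A, χ, fun b hb => hS (by
    rw [Finset.mem_coe] at hb ⊢
    simp [S, hb]), haS, fun h0 => ?_⟩
  have h1 : χ (⟨a, haS⟩ * ⟨a⁻¹, hbS⟩) = 1 := by
    have : (⟨a, haS⟩ * ⟨a⁻¹, hbS⟩ : A) = 1 := Subtype.ext (mul_inv_cancel₀ ha)
    rw [this, map_one]
  rw [map_mul, h0, zero_mul] at h1
  exact zero_ne_one h1

theorem curve_const_coeff {N : ℕ} {E : Type} [CommRing E] [Algebra ℂ E]
    (γ : Fin N → Polynomial E) (F : MvPolynomial (Fin N) ℂ) :
    (aeval γ F).coeff 0 = aeval (fun l => (γ l).eval 0) F := by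
  have : (Polynomial.aeval (0 : E)).toRingHom.comp
      ((aeval γ : MvPolynomial (Fin N) ℂ →ₐ[ℂ] Polynomial E) :
        MvPolynomial (Fin N) ℂ →+* Polynomial E) =
      ((aeval (fun l => (γ l).eval 0) : MvPolynomial (Fin N) ℂ →ₐ[ℂ] E) :
        MvPolynomial (Fin N) ℂ →+* E) := by
    apply MvPolynomial.ringHom_ext
    · intro c
      simp [IsScalarTower.algebraMap_apply ℂ E (Polynomial E)]
    · intro l
      simp
  have h2 := RingHom.congr_fun this F
  rw [Polynomial.coeff_zero_eq_eval_zero]
  simpa [Polynomial.aeval_def] using h2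

theorem curve_of_points {N : ℕ} {κ : Type} [Finite κ] (F : κ → MvPolynomial (Fin N) ℂ)
    (G : MvPolynomial (Fin N) ℂ) (w : Fin N → ℕ)
    {E : Type} [Field E] [IsAlgClosed E] [Algebra ℂ E] (p : Fin N → E)
    (hG : aeval p G ≠ 0)
    (h : ∀ u : Fin N → ℂ, eval u G ≠ 0 →
      (∀ P : MvPolynomial (Fin N) ℂ, aeval p P = 0 → eval u P = 0) →
      ∃ γ : Fin N → Polynomial ℂ, (∀ l, (γ l).eval 0 = u l) ∧ (∀ l, (γ l).natDegree ≤ w l) ∧
        (∃ l, 0 < (γ l).natDegree) ∧ ∀ k, aeval γ (F k) = Polynomial.C (eval u (F k))) :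
    ∃ γ : Fin N → Polynomial E, (∀ l, (γ l).eval 0 = p l) ∧ (∀ l, (γ l).natDegree ≤ w l) ∧
        (∃ l, 0 < (γ l).natDegree) ∧ ∀ k, aeval γ (F k) = Polynomial.C (aeval p (F k)) := by
  classical
  by_contra hcon
  push Not at hcon
  let σ := Σ l : Fin N, Fin (w l)
  -- the system over a `ℂ`-algebra
  let Sys : (B : Type) → [CommRing B] → [Algebra ℂ B] → (Fin N → B) → κ × ℕ → MvPolynomial σ B :=
    fun B _ _ q t => (aeval (curvePoly w (fun l => C (q l)) (fun i : σ => (X i : MvPolynomial σ B)))
      (F t.1)).coeff (t.2 + 1)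
  have hmap : ∀ (B B' : Type) [CommRing B] [Algebra ℂ B] [CommRing B'] [Algebra ℂ B']
      (χ : B →ₐ[ℂ] B') (q : Fin N → B) (t : κ × ℕ),
      MvPolynomial.map (χ : B →+* B') (Sys B q t) = Sys B' (fun l => χ (q l)) t := by
    intro B B' _ _ _ _ χ q t
    have h1 := curve_map_aeval (MvPolynomial.mapAlgHom (σ := σ) χ)
      (curvePoly w (fun l => C (q l)) (fun i : σ => (X i : MvPolynomial σ B))) (F t.1)
    have h2 : (fun l => (curvePoly w (fun l => C (q l)) (fun i : σ => (X i : MvPolynomial σ B))
        l).map ((MvPolynomial.mapAlgHom (σ := σ) χ : MvPolynomial σ B →ₐ[ℂ] MvPolynomial σ B') :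
          MvPolynomial σ B →+* MvPolynomial σ B')) =
        curvePoly w (fun l => C (χ (q l))) (fun i : σ => (X i : MvPolynomial σ B')) := by
      funext l
      rw [curvePoly_map]
      congr 1
      · funext l
        change MvPolynomial.map (χ : B →+* B') (C (q l)) = _
        rw [MvPolynomial.map_C]
        rfl
      · funext i
        change MvPolynomial.map (χ : B →+* B') (X i) = _
        rw [MvPolynomial.map_X]
    rw [h2] at h1
    simp only [Sys]
    rw [← h1, Polynomial.coeff_map]
    rfl
  have hev : ∀ (B : Type) [CommRing B] [Algebra ℂ B] (q : Fin N → B) (a : σ → B) (t : κ × ℕ),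
      eval a (Sys B q t) = (aeval (curvePoly w q a) (F t.1)).coeff (t.2 + 1) := by
    intro B _ _ q a t
    let φ : MvPolynomial σ B →ₐ[ℂ] B := (aeval a : MvPolynomial σ B →ₐ[B] B).restrictScalars ℂ
    have h1 : eval a (Sys B q t) = ((aeval (curvePoly w (fun l => C (q l))
        (fun i : σ => (X i : MvPolynomial σ B))) (F t.1)).map
          (φ : MvPolynomial σ B →+* B)).coeff (t.2 + 1) := by
      rw [Polynomial.coeff_map]
      exact (DFunLike.congr_fun (coe_aeval_eq_eval a) (Sys B q t)).symm
    rw [h1, curve_map_aeval]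
    have h2 : (fun l => (curvePoly w (fun l => C (q l)) (fun i : σ => (X i : MvPolynomial σ B))
        l).map (φ : MvPolynomial σ B →+* B)) = curvePoly w q a := by
      funext l
      rw [curvePoly_map]
      congr 1
      · funext l
        show aeval a (C (q l)) = q l
        simp
      · funext i
        show aeval a (X i) = a i
        simp
    rw [h2]
  -- the zero locus over `E`
  have hz : ∀ a : σ → E, (∀ t, eval a (Sys E p t) = 0) → a = 0 := by
    intro a ha
    by_contra hne
    obtain ⟨⟨l, i⟩, hli⟩ := Function.ne_iff.1 hne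
    have hdeg : 0 < (curvePoly w p a l).natDegree := by
      have h1 : (curvePoly w p a l).coeff (i.1 + 1) ≠ 0 := by
        rw [curvePoly_coeff]
        exact hli
      have h2 := Polynomial.le_natDegree_of_ne_zero h1
      omega
    obtain ⟨k, hk⟩ := hcon (curvePoly w p a) (curvePoly_eval_zero w p a)
      (curvePoly_natDegree_le w p a) ⟨l, hdeg⟩
    apply hk
    ext n
    rcases n with _ | n
    · rw [curve_const_coeff, Polynomial.coeff_C_zero]
      congr 2
      funext l
      exact curvePoly_eval_zero w p a l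
    · rw [Polynomial.coeff_C_succ, ← ha (k, n), hev]
  -- Nullstellensatz
  have hrad : ∀ i : σ, ∃ m : ℕ, (X i : MvPolynomial σ E) ^ m ∈
      Ideal.span (Set.range (Sys E p)) := by
    intro i
    have h1 : (X i : MvPolynomial σ E) ∈ (Ideal.span (Set.range (Sys E p))).radical := by
      rw [← vanishingIdeal_zeroLocus_eq_radical (K := E), zeroLocus_span]
      intro a ha
      have h0 := hz a (fun t => by
        have := ha (Sys E p t) ⟨t, rfl⟩
        simpa using this)
      rw [h0]
      simp
    exact h1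
  choose m hm using hrad
  have hm' : ∀ i, ∃ c : (κ × ℕ) →₀ MvPolynomial σ E,
      (c.sum fun t a => a * Sys E p t) = (X i : MvPolynomial σ E) ^ m i := fun i =>
    Finsupp.mem_ideal_span_range_iff_exists_finsupp.1 (hm i)
  choose c hc using hm'
  -- the finite set of coefficients
  let T : Finset E := (Finset.univ.image p) ∪
    (Finset.univ.biUnion fun i => (c i).support.biUnion fun t => (c i t).coeffs)
  obtain ⟨A, χ, hTA, haA, hχ⟩ := exists_specialisation T (aeval p G) hG
  have hpA : ∀ l, p l ∈ A := fun l => hTA (by simp [T])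
  let pA : Fin N → A := fun l => ⟨p l, hpA l⟩
  have hcA : ∀ i, ∀ t ∈ (c i).support, ∃ cA : MvPolynomial σ A,
      MvPolynomial.map (algebraMap A E) cA = c i t := by
    intro i t ht
    have : c i t ∈ Set.range (MvPolynomial.map (σ := σ) (algebraMap A E)) := by
      rw [MvPolynomial.mem_range_map_iff_coeffs_subset]
      intro b hb
      refine ⟨⟨b, hTA ?_⟩, rfl⟩
      rw [Finset.mem_coe]
      refine Finset.mem_union_right _ (Finset.mem_biUnion.2 ⟨i, Finset.mem_univ _,
        Finset.mem_biUnion.2 ⟨t, ht, hb⟩⟩)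
    exact this
  choose! cA hcA using hcA
  have hinj : Function.Injective (MvPolynomial.map (σ := σ) (algebraMap A E)) :=
    MvPolynomial.map_injective _ Subtype.coe_injective
  have hsysA : ∀ t, MvPolynomial.map (algebraMap A E) (Sys A pA t) = Sys E p t := fun t =>
    hmap A E A.val pA t
  have hidA : ∀ i, ∑ t ∈ (c i).support, cA i t * Sys A pA t = (X i : MvPolynomial σ A) ^ m i := by
    intro i
    apply hinj
    rw [map_sum, map_pow, MvPolynomial.map_X, ← hc i, Finsupp.sum]
    refine Finset.sum_congr rfl fun t ht => ?_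
    rw [map_mul, hcA i t ht, hsysA]
  -- specialise
  let u : Fin N → ℂ := fun l => χ (pA l)
  have hidC : ∀ i, ∑ t ∈ (c i).support, MvPolynomial.map (χ : A →+* ℂ) (cA i t) * Sys ℂ u t =
      (X i : MvPolynomial σ ℂ) ^ m i := by
    intro i
    have h1 := congrArg (MvPolynomial.map (χ : A →+* ℂ)) (hidA i)
    rw [map_sum, map_pow, MvPolynomial.map_X] at h1
    rw [← h1]
    refine Finset.sum_congr rfl fun t _ => ?_
    rw [map_mul, hmap]
  have haevA : ∀ P : MvPolynomial (Fin N) ℂ, ((aeval pA P : A) : E) = aeval p P := by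
    intro P
    have : A.val.comp (aeval pA) = aeval p := by
      ext l
      simp [pA]
    rw [← this]
    rfl
  have haevC : ∀ P : MvPolynomial (Fin N) ℂ, χ (aeval pA P) = eval u P := by
    intro P
    have : χ.comp (aeval pA) = aeval u := by
      ext l
      simp [u]
    have h1 := DFunLike.congr_fun this P
    exact h1
  obtain ⟨γ, hγ0, hγd, ⟨l, hl⟩, hγF⟩ := h u (by
    rw [← haevC]
    have : aeval pA G = ⟨aeval p G, haA⟩ := Subtype.ext (haevA G)
    rw [this]
    exact hχ) (by
    intro P hP
    rw [← haevC]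
    have : aeval pA P = 0 := Subtype.ext ((haevA P).trans hP)
    rw [this, map_zero])
  -- the coefficients of the curve
  let a : σ → ℂ := fun i => (γ i.1).coeff (i.2.1 + 1)
  have hγa : γ = curvePoly w u a := by
    funext l
    ext n
    rcases n with _ | n
    · rw [Polynomial.coeff_zero_eq_eval_zero, Polynomial.coeff_zero_eq_eval_zero, hγ0,
        curvePoly_eval_zero]
    · by_cases hn : n < w l
      · exact (curvePoly_coeff w u a l ⟨n, hn⟩).symm
      · rw [Polynomial.coeff_eq_zero_of_natDegree_lt (by have := hγd l; omega),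
          Polynomial.coeff_eq_zero_of_natDegree_lt (by
            have := curvePoly_natDegree_le w u a l; omega)]
  have hsys0 : ∀ t, eval a (Sys ℂ u t) = 0 := by
    intro t
    rw [hev, ← hγa, hγF, Polynomial.coeff_C_succ]
  have ha0 : ∀ i, a i = 0 := by
    intro i
    have h1 := congrArg (eval a) (hidC i)
    rw [map_sum, map_pow, eval_X] at h1
    have h2 : ∑ t ∈ (c i).support,
        eval a (MvPolynomial.map (χ : A →+* ℂ) (cA i t) * Sys ℂ u t) = 0 := by
      refine Finset.sum_eq_zero fun t _ => ?_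
      rw [map_mul, hsys0, mul_zero]
    rw [h2] at h1
    exact eq_zero_of_pow_eq_zero h1.symm
  have h3 : (γ l).natDegree = 0 := by
    rw [hγa]
    have : curvePoly w u a l = Polynomial.C (u l) := by
      simp [curvePoly, ha0]
    rw [this, Polynomial.natDegree_C]
  omega

end Pool.Agent.Lib.MP_410da7_ag
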