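import Pool.Agent.Lib.MP_410da7_ag.CYDefs
import Pool.Agent.Lib.MP_410da7_ag.CYGraded

/-!
# The system of equations for polynomial curves
-/

set_option autoImplicit false

namespace Pool.Agent.Lib.MP_410da7_ag

open MvPolynomial

section isobaric

variable {σ L : Type} [Field L] (wt : σ → ℕ)

/-- the coefficient of `t ^ n` is weighted homogeneous of weight `n` -/
def CYSystemIso (P : Polynomial (MvPolynomial σ L)) : Prop :=
  ∀ n, (P.coeff n).IsWeightedHomogeneous wt n

theorem CYSystemIso.zero : CYSystemIso wt (0 : Polynomial (MvPolynomial σ L)) := by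
  intro n
  rw [Polynomial.coeff_zero]
  exact isWeightedHomogeneous_zero L wt n

theorem CYSystemIso.constC (c : L) :
    CYSystemIso wt (Polynomial.C (C c) : Polynomial (MvPolynomial σ L)) := by
  intro n
  rw [Polynomial.coeff_C]
  by_cases h : n = 0
  · rw [if_pos h, h]
    exact isWeightedHomogeneous_C wt c
  · rw [if_neg h]
    exact isWeightedHomogeneous_zero L wt n

theorem CYSystemIso.one : CYSystemIso wt (1 : Polynomial (MvPolynomial σ L)) := by
  have h := CYSystemIso.constC wt (1 : L)
  rwa [C_1, Polynomial.C_1] at h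

theorem CYSystemIso.var (i : σ) (m : ℕ) (hm : wt i = m) :
    CYSystemIso wt (Polynomial.C (X i) * Polynomial.X ^ m : Polynomial (MvPolynomial σ L)) := by
  intro n
  rw [Polynomial.coeff_C_mul_X_pow]
  by_cases h : n = m
  · rw [if_pos h, h, ← hm]
    exact isWeightedHomogeneous_X L wt i
  · rw [if_neg h]
    exact isWeightedHomogeneous_zero L wt n

variable {wt}

theorem CYSystemIso.add {P Q : Polynomial (MvPolynomial σ L)} (hP : CYSystemIso wt P)
    (hQ : CYSystemIso wt Q) : CYSystemIso wt (P + Q) := by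
  intro n
  rw [Polynomial.coeff_add]
  exact (hP n).add (hQ n)

theorem CYSystemIso.sum {ι : Type} (s : Finset ι) (P : ι → Polynomial (MvPolynomial σ L))
    (h : ∀ i ∈ s, CYSystemIso wt (P i)) : CYSystemIso wt (∑ i ∈ s, P i) := by
  classical
  induction s using Finset.induction_on with
  | empty =>
    rw [Finset.sum_empty]
    exact CYSystemIso.zero wt
  | insert a s ha ih =>
    rw [Finset.sum_insert ha]
    exact (h a (Finset.mem_insert_self a s)).add
      (ih (fun i hi => h i (Finset.mem_insert_of_mem hi)))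

theorem CYSystemIso.mul {P Q : Polynomial (MvPolynomial σ L)} (hP : CYSystemIso wt P)
    (hQ : CYSystemIso wt Q) : CYSystemIso wt (P * Q) := by
  intro n
  rw [Polynomial.coeff_mul]
  apply IsWeightedHomogeneous.sum
  intro x hx
  rw [← Finset.HasAntidiagonal.mem_antidiagonal.1 hx]
  exact (hP x.1).mul (hQ x.2)

theorem CYSystemIso.pow {P : Polynomial (MvPolynomial σ L)} (hP : CYSystemIso wt P) (k : ℕ) :
    CYSystemIso wt (P ^ k) := by
  induction k with
  | zero =>
    rw [pow_zero]
    exact CYSystemIso.one wt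
  | succ k ih =>
    rw [pow_succ]
    exact ih.mul hP

theorem CYSystemIso.prod {ι : Type} (s : Finset ι) (P : ι → Polynomial (MvPolynomial σ L))
    (h : ∀ i ∈ s, CYSystemIso wt (P i)) : CYSystemIso wt (∏ i ∈ s, P i) := by
  classical
  induction s using Finset.induction_on with
  | empty =>
    rw [Finset.prod_empty]
    exact CYSystemIso.one wt
  | insert a s ha ih =>
    rw [Finset.prod_insert ha]
    exact (h a (Finset.mem_insert_self a s)).mul
      (ih (fun i hi => h i (Finset.mem_insert_of_mem hi)))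

end isobaric

theorem cySystem_linePoly_map {B B' : Type} [CommRing B] [CommRing B'] (φ : B →+* B') (e : ℕ)
    (b : Fin e → B) : (linePoly e b).map φ = linePoly e (fun i => φ (b i)) := by
  simp [linePoly, Polynomial.map_sum]

theorem cySystem_coeff {N : ℕ} (w : Fin N → ℕ) (F : MvPolynomial (Fin N) ℂ) (e : ℕ)
    {L : Type} [Field L] [Algebra ℂ L] (p : Fin N → L)
    {B : Type} [CommRing B] [Algebra ℂ B] [Algebra L B] [IsScalarTower ℂ L B]
    (v : Fin e ⊕ (Σ l : Fin N, Fin (e * w l)) → B) (n : ℕ) :
    aeval v ((hev w F (linePoly e (fun i => (X (Sum.inl i) :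
        MvPolynomial (Fin e ⊕ (Σ l : Fin N, Fin (e * w l))) L)))
      (curvePoly (fun l => e * w l) (fun l => C (p l)) (fun q => X (Sum.inr q)))).coeff n) =
    (hev w F (linePoly e (fun i => v (Sum.inl i)))
      (curvePoly (fun l => e * w l) (fun l => algebraMap L B (p l))
        (fun q => v (Sum.inr q)))).coeff n := by
  let φ : MvPolynomial (Fin e ⊕ (Σ l : Fin N, Fin (e * w l))) L →ₐ[ℂ] B :=
    (aeval v : MvPolynomial (Fin e ⊕ (Σ l : Fin N, Fin (e * w l))) L →ₐ[L] B).restrictScalars ℂ
  have h1 := hev_map w F (Polynomial.mapAlgHom φ)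
    (linePoly e (fun i => (X (Sum.inl i) :
        MvPolynomial (Fin e ⊕ (Σ l : Fin N, Fin (e * w l))) L)))
    (curvePoly (fun l => e * w l) (fun l => C (p l)) (fun q => X (Sum.inr q)))
  have h2 : (Polynomial.mapAlgHom φ) (linePoly e (fun i => (X (Sum.inl i) :
        MvPolynomial (Fin e ⊕ (Σ l : Fin N, Fin (e * w l))) L))) =
      linePoly e (fun i => v (Sum.inl i)) := by
    refine (cySystem_linePoly_map φ.toRingHom e _).trans ?_
    congr 1
    funext i
    show aeval v (X (Sum.inl i)) = _
    rw [aeval_X]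
  have h3 : ∀ l, (Polynomial.mapAlgHom φ) (curvePoly (fun l => e * w l) (fun l => C (p l))
      (fun q => (X (Sum.inr q) : MvPolynomial (Fin e ⊕ (Σ l : Fin N, Fin (e * w l))) L)) l) =
      curvePoly (fun l => e * w l) (fun l => algebraMap L B (p l))
        (fun q => v (Sum.inr q)) l := by
    intro l
    refine (curvePoly_map φ.toRingHom _ _ _ l).trans ?_
    congr 1
    · funext l
      show aeval v (C (p l)) = _
      rw [aeval_C]
    · funext q
      show aeval v (X (Sum.inr q)) = _
      rw [aeval_X]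
  rw [h2] at h1
  have h4 := congrArg (fun P : Polynomial B => P.coeff n) h1
  simp only [h3] at h4
  rw [← h4]
  show φ _ = ((Polynomial.mapAlgHom φ) _).coeff n
  rw [Polynomial.coe_mapAlgHom, Polynomial.coeff_map]
  rfl

theorem cySystem_const {N : ℕ} {L : Type} [Field L] [Algebra ℂ L] (F : MvPolynomial (Fin N) ℂ)
    (γ : Fin N → Polynomial L) :
    (aeval γ F).coeff 0 = aeval (fun l => (γ l).eval 0) F := by
  have : (Polynomial.aeval (0 : L)).toRingHom.comp
      ((aeval γ : MvPolynomial (Fin N) ℂ →ₐ[ℂ] Polynomial L) :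
        MvPolynomial (Fin N) ℂ →+* Polynomial L) =
      ((aeval (fun l => (γ l).eval 0) : MvPolynomial (Fin N) ℂ →ₐ[ℂ] L) :
        MvPolynomial (Fin N) ℂ →+* L) := by
    apply MvPolynomial.ringHom_ext
    · intro c
      simp [IsScalarTower.algebraMap_apply ℂ L (Polynomial L)]
    · intro l
      simp
  have h2 := RingHom.congr_fun this F
  rw [Polynomial.coeff_zero_eq_eval_zero]
  simpa [Polynomial.aeval_def] using h2

theorem der_system {N : ℕ} {κ : Type} (F : κ → MvPolynomial (Fin N) ℂ) (w : Fin N → ℕ) (e : ℕ)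
    {L : Type} [Field L] [IsAlgClosed L] [Algebra ℂ L] (p : Fin N → L)
    (hno : ∀ γ : Fin N → Polynomial L, (∀ l, (γ l).eval 0 = p l) →
      (∀ l, (γ l).natDegree ≤ e * w l) →
      (∀ k, aeval γ (F k) = Polynomial.C (aeval p (F k))) → ∀ l, (γ l).natDegree = 0)
    {Ω : Type} [Field Ω] [Algebra ℂ Ω] [Algebra L Ω] [IsScalarTower ℂ L Ω]
    (D : Derivation L Ω Ω) (b : Fin e → Ω) (a : (Σ l : Fin N, Fin (e * w l)) → Ω)
    (hb : ∀ i, D (b i) = 0)
    (hF : ∀ k n, D ((hev w (F k) (linePoly e b)
      (curvePoly (fun l => e * w l) (fun l => algebraMap L Ω (p l)) a)).coeff (n + 1)) = 0)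
    (q : Σ l : Fin N, Fin (e * w l)) : D (a q) = 0 := by
  classical
  have : CharZero Ω := charZero_of_injective_algebraMap (algebraMap ℂ Ω).injective
  let σ := Fin e ⊕ (Σ l : Fin N, Fin (e * w l))
  let τ := Fin e ⊕ (κ × ℕ)
  let wt : σ → ℕ := Sum.elim (fun i => i.1 + 1) (fun q => q.2.1 + 1)
  let lp : Polynomial (MvPolynomial σ L) := linePoly e (fun i => X (Sum.inl i))
  let cp : Fin N → Polynomial (MvPolynomial σ L) :=
    curvePoly (fun l => e * w l) (fun l => C (p l)) (fun q => X (Sum.inr q))
  let H : κ → Polynomial (MvPolynomial σ L) := fun k => hev w (F k) lp cp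
  let E : τ → MvPolynomial σ L := Sum.elim (fun i => X (Sum.inl i)) (fun t => (H t.1).coeff (t.2 + 1))
  let dg : τ → ℕ := Sum.elim (fun i => i.1 + 1) (fun t => t.2 + 1)
  have hlp : CYSystemIso wt lp := by
    refine (CYSystemIso.one wt).add (CYSystemIso.sum _ _ fun i _ => ?_)
    exact CYSystemIso.var wt (Sum.inl i) (i.1 + 1) rfl
  have hcp : ∀ l, CYSystemIso wt (cp l) := by
    intro l
    refine (CYSystemIso.constC wt (p l)).add (CYSystemIso.sum _ _ fun i _ => ?_)
    exact CYSystemIso.var wt (Sum.inr ⟨l, i⟩) (i.1 + 1) rfl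
  have hH : ∀ k, CYSystemIso wt (H k) := by
    intro k
    show CYSystemIso wt (hev w (F k) lp cp)
    rw [hev_eq]
    refine CYSystemIso.sum _ _ fun α _ => ?_
    refine ((?_ : CYSystemIso wt _).mul (hlp.pow _)).mul (CYSystemIso.prod _ _ fun l _ => (hcp l).pow _)
    have : algebraMap ℂ (Polynomial (MvPolynomial σ L)) ((F k).coeff α) =
        Polynomial.C (C (algebraMap ℂ L ((F k).coeff α))) := by
      rw [IsScalarTower.algebraMap_apply ℂ (MvPolynomial σ L) (Polynomial (MvPolynomial σ L)),
        IsScalarTower.algebraMap_apply ℂ L (MvPolynomial σ L)]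
      rfl
    rw [this]
    exact CYSystemIso.constC wt _
  have hz : ∀ a₀ : σ → L, (∀ t, eval a₀ (E t) = 0) → a₀ = 0 := by
    intro a₀ ha₀
    have h1 : ∀ i : Fin e, a₀ (Sum.inl i) = 0 := by
      intro i
      have := ha₀ (Sum.inl i)
      show _ = (0 : L)
      simpa [E] using this
    let γ : Fin N → Polynomial L := curvePoly (fun l => e * w l) p (fun q => a₀ (Sum.inr q))
    have h2 : linePoly e (fun i => a₀ (Sum.inl i)) = (1 : Polynomial L) := by
      rw [linePoly]
      simp [h1]
    have h3 : ∀ k n, (aeval γ (F k)).coeff (n + 1) = 0 := by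
      intro k n
      have h4 := cySystem_coeff w (F k) e p a₀ (n + 1)
      rw [h2, hev_one] at h4
      have h5 := ha₀ (Sum.inr (k, n))
      have h6 : aeval a₀ ((H k).coeff (n + 1)) = 0 := by
        exact (DFunLike.congr_fun (coe_aeval_eq_eval a₀) _).trans h5
      rw [h6] at h4
      exact h4.symm
    have h4 : ∀ k, aeval γ (F k) = Polynomial.C (aeval p (F k)) := by
      intro k
      ext n
      rcases n with _ | n
      · rw [cySystem_const, Polynomial.coeff_C_zero]
        congr 2
        funext l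
        exact curvePoly_eval_zero _ _ _ l
      · rw [Polynomial.coeff_C_succ]
        exact h3 k n
    have h5 := hno γ (fun l => curvePoly_eval_zero _ _ _ l)
      (fun l => curvePoly_natDegree_le _ _ _ l) h4
    funext s
    rcases s with i | ⟨l, i⟩
    · exact h1 i
    · have h6 := curvePoly_coeff (fun l => e * w l) p (fun q => a₀ (Sum.inr q)) l i
      have h7 : (curvePoly (fun l => e * w l) p (fun q => a₀ (Sum.inr q)) l).coeff (i.1 + 1) = 0 := by
        apply Polynomial.coeff_eq_zero_of_natDegree_lt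
        have := h5 l
        show (γ l).natDegree < _
        omega
      rw [h7] at h6
      exact h6.symm
  have key := der_eq_zero_of_zeroLocus wt (by rintro (i | i) <;> simp [wt]) E dg
    (by rintro (i | i) <;> simp [dg]) (by
      rintro (i | ⟨k, n⟩)
      · exact isWeightedHomogeneous_X L wt (Sum.inl i)
      · exact hH k (n + 1)) hz D (Sum.elim b a) (by
      rintro (i | ⟨k, n⟩)
      · show D (aeval (Sum.elim b a) (X (Sum.inl i))) = 0
        rw [aeval_X]
        exact hb i
      · show D (aeval (Sum.elim b a) ((H k).coeff (n + 1))) = 0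
        have h1 := cySystem_coeff w (F k) e p (Sum.elim b a : σ → Ω) (n + 1)
        have h2 : aeval (Sum.elim b a : σ → Ω) ((H k).coeff (n + 1)) = _ := h1
        rw [h2]
        exact hF k n) (Sum.inr q)
  exact key

end Pool.Agent.Lib.MP_410da7_ag
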