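import Pool.Agent.Lib.MP_410da7_ag.CYFinal
import Pool.Agent.Lib.MP_410da7_ag.CYSpec

/-!
# Log Calabi–Yau degree: the equivalences
-/

set_option autoImplicit false

namespace Pool.Agent.Lib.MP_410da7_ag

open MvPolynomial WithZero KaehlerDifferential

section

variable {N r s : ℕ}

theorem eval_comp_curve (γ : Fin N → Polynomial ℂ) (P : MvPolynomial (Fin N) ℂ) (t : ℂ) :
    eval (fun l => (γ l).eval t) P = (aeval γ P).eval t := by
  have h1 : (Polynomial.evalRingHom t).comp (aeval (R := ℂ) γ : _ →+* Polynomial ℂ) =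
      eval (fun l => (γ l).eval t) := by
    apply MvPolynomial.ringHom_ext
    · intro c
      simp
    · intro l
      simp
  exact (RingHom.congr_fun h1 P).symm

/-- `𝔸¹`-curves of bounded degree through all points of `X` give `𝔸¹`-uniruledness. -/
theorem a1Uniruled_of_points (f : Fin r → MvPolynomial (Fin N) ℂ)
    (g : Fin s → MvPolynomial (Fin N) ℂ) (w : Fin N → ℕ)
    {R K : Type} [CommRing R] [IsDomain R] [Algebra ℂ R] [Field K] [Algebra R K]
    [IsFractionRing R K] [Algebra ℂ K] [IsScalarTower ℂ R K]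
    (x : Fin N → R) (hR : IsCoordRing f g x)
    (h : ∀ u ∈ Points f g, OnAffineLine f g w u) : A1Uniruled R := by
  classical
  have hinjR : Function.Injective (algebraMap R (AlgebraicClosure K)) := by
    rw [IsScalarTower.algebraMap_eq R K (AlgebraicClosure K)]
    exact (algebraMap K (AlgebraicClosure K)).injective.comp (IsFractionRing.injective R K)
  have h2 : Algebra.IsAlgebraic R (AlgebraicClosure K) :=
    (IsFractionRing.comap_isAlgebraic_iff (K := K)).mpr inferInstance
  have h3 : IsScalarTower ℂ R (AlgebraicClosure K) := by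
    refine IsScalarTower.of_algebraMap_eq fun c => ?_
    rw [IsScalarTower.algebraMap_apply ℂ K (AlgebraicClosure K),
      IsScalarTower.algebraMap_apply ℂ R K, ← IsScalarTower.algebraMap_apply R K]
  set p : Fin N → AlgebraicClosure K := fun l => algebraMap R (AlgebraicClosure K) (x l) with hp
  have hpa : ∀ P : MvPolynomial (Fin N) ℂ, aeval p P =
      algebraMap R (AlgebraicClosure K) (aeval x P) := by
    intro P
    have := MvPolynomial.map_aeval (R := ℂ) x (algebraMap R (AlgebraicClosure K)) P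
    rw [← IsScalarTower.algebraMap_eq] at this
    rw [this]
    rfl
  have hGp : aeval p (∏ j, g j) ≠ 0 := by
    rw [hpa]
    intro h0
    have := hinjR (h0.trans (map_zero _).symm)
    exact (unit_prod f g x hR).ne_zero this
  obtain ⟨γ, hγ0, hγd, ⟨l, hl⟩, hγF⟩ := curve_of_points (Sum.elim f g) (∏ j, g j) w p hGp (by
    intro u hu hrel
    have hf0 : ∀ k, eval u (f k) = 0 := fun k => hrel _ (by rw [hpa, hR.zero, map_zero])
    have hg0 : ∀ j, eval u (g j) ≠ 0 := by
      intro j h0
      apply hu
      rw [map_prod]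
      exact Finset.prod_eq_zero (Finset.mem_univ j) h0
    obtain ⟨γ, hγ0, hne, hγd, hγ⟩ := h u ⟨hf0, hg0⟩
    refine ⟨γ, hγ0, hγd, hne, ?_⟩
    rintro (k | j)
    · rw [Sum.elim_inl, hf0, Polynomial.C_0]
      refine Polynomial.funext fun t => ?_
      rw [← eval_comp_curve, Polynomial.eval_zero]
      exact (hγ t).1 k
    · rw [Sum.elim_inr]
      have hnz : ∀ t, (aeval γ (g j)).eval t ≠ 0 := by
        intro t
        rw [← eval_comp_curve]
        exact (hγ t).2 j
      have hdeg : (aeval γ (g j)).degree = 0 := by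
        by_contra hd
        obtain ⟨t, ht⟩ := IsAlgClosed.exists_root _ hd
        exact hnz t ht
      rw [Polynomial.eq_C_of_degree_eq_zero hdeg]
      congr 1
      rw [curve_const_coeff]
      have : (fun l => (γ l).eval 0) = u := funext hγ0
      rw [this]
      rfl)
  obtain ⟨e, he⟩ := exists_equiv f g x hR
  have hft : Algebra.FiniteType ℂ (CoordRing f g) := inferInstance
  have hRft : Algebra.FiniteType ℂ R := Algebra.FiniteType.of_surjective e.toAlgHom e.surjective
  exact a1Uniruled_of_curve f g hRft (universal_of_isCoordRing f g x e he hR.zero hR.unit)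
    (E := AlgebraicClosure K) hinjR γ hγ0 l hl (fun k => hγF (Sum.inl k))
    (fun j => hγF (Sum.inr j))

theorem cy_tfae (f : Fin r → MvPolynomial (Fin N) ℂ)
    (g : Fin s → MvPolynomial (Fin N) ℂ) (w : Fin N → ℕ) (hw : ∀ l, 0 < w l)
    (hle : ∑ k, (f k).weightedTotalDegree w + ∑ j, (g j).weightedTotalDegree w ≤ ∑ l, w l)
    (hsm : JacobianSmooth f g)
    {R K : Type} [CommRing R] [IsDomain R] [Algebra ℂ R] [Field K] [Algebra R K]
    [IsFractionRing R K] [Algebra ℂ K] [IsScalarTower ℂ R K]
    (x : Fin N → R) (hR : IsCoordRing f g x) :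
    List.TFAE [A1Uniruled R, LogKodairaNegInf R K, LogGenusZero R K,
      ∃ e : ℕ, FibreCurves f g w e,
      ∃ e : ℕ, ∀ u ∈ Points f g, OnAffineLine f g (fun l => e * w l) u] := by
  tfae_have 1 → 2 := logKodairaNegInf_of_a1Uniruled
  tfae_have 2 → 3 := logGenusZero_of_negInf
  tfae_have 3 → 4 := by
    intro h
    obtain ⟨e, he⟩ := curves_of_genusZero f g w hw hle hsm x hR h
    exact ⟨e, fibreCurves_of_curves f g w e he⟩
  tfae_have 4 → 5 := by
    rintro ⟨e, he⟩
    refine ⟨e, fun u hu => ?_⟩
    obtain ⟨γ, h0, hne, hd, hγ⟩ := he u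
    exact ⟨γ, h0, hne, hd, fun t => ⟨fun k => by rw [(hγ t).1, hu.1],
      fun j => by rw [(hγ t).2]; exact hu.2 j⟩⟩
  tfae_have 5 → 1 := by
    rintro ⟨e, he⟩
    exact a1Uniruled_of_points (K := K) f g _ x hR he
  tfae_finish

end

end Pool.Agent.Lib.MP_410da7_ag
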