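import Mathlib

/-!
# Definitions for MP_410da7_ag

`R` is the coordinate ring of an affine complex variety `X`, `K = FractionRing R` its function field
and `d = dim X` the transcendence degree.
-/

set_option autoImplicit false

namespace Pool.Agent.Lib.MP_410da7_ag

open MvPolynomial KaehlerDifferential WithZero

/-- The affine variety `X` with coordinate ring `R` is `𝔸¹`-uniruled: there are a variety `Y`
(with coordinate ring `B`) with `dim Y = dim X - 1` and a dominant morphism `Y × 𝔸¹ → X` (an
injective `ℂ`-algebra homomorphism `R → B[t]`) that is not constant on `{y} × 𝔸¹` for general `y`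
(some regular function on `X` pulls back to a polynomial of positive degree in `t`). -/
def A1Uniruled (R : Type) [CommRing R] [Algebra ℂ R] : Prop :=
  ∃ (B : Type) (_ : CommRing B) (_ : IsDomain B) (_ : Algebra ℂ B),
    Algebra.FiniteType ℂ B ∧ Algebra.trdeg ℂ B + 1 = Algebra.trdeg ℂ R ∧
    ∃ φ : R →ₐ[ℂ] Polynomial B, Function.Injective φ ∧ ∃ a : R, 0 < (φ a).natDegree

section forms

variable {K : Type} [Field K] [Algebra ℂ K]

/-- The differentials `a db` of the function field `K` with `a` and `b` in the valuation ring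
of `v`. -/
def regGens (v : Valuation K ℤᵐ⁰) : Set Ω[K⁄ℂ] :=
  {θ | ∃ a b : K, v a ≤ 1 ∧ v b ≤ 1 ∧ θ = a • D ℂ K b}

/-- The logarithmic differentials `a db / b` of `K` with `a` in the valuation ring of `v`. -/
def logGens (v : Valuation K ℤᵐ⁰) : Set Ω[K⁄ℂ] :=
  {θ | ∃ a b : K, v a ≤ 1 ∧ b ≠ 0 ∧ θ = (a / b) • D ℂ K b}

/-- The differentials of the function field `K` that are regular at the valuation `v`: sums of
differentials `a db` with `a` and `b` in the valuation ring. -/
noncomputable def regDiff (v : Valuation K ℤᵐ⁰) : AddSubgroup Ω[K⁄ℂ] := AddSubgroup.closure (regGens v)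

/-- The differentials of the function field `K` with at most logarithmic poles at the valuation `v`:
sums of differentials `a db` (`a`, `b` in the valuation ring) and `a db / b` (`a` in the valuation
ring). -/
noncomputable def logDiff (v : Valuation K ℤᵐ⁰) : AddSubgroup Ω[K⁄ℂ] :=
  AddSubgroup.closure (regGens v ∪ logGens v)

/-- Let `X` be the affine variety with coordinate ring `R` and function field `K`, of dimension `n`,
and let `Ψ` be a nonzero alternating form on the `n`-dimensional space of differentials of `K`. It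
identifies the top exterior power of `Ω_K` with `K`: let `η` be the rational form of top degree with
`θ₁ ∧ ⋯ ∧ θ_n = Ψ (θ₁,…,θ_n) η` for all `θ`. The rational `m`-canonical form `F η ^ m` is
admissible at the valuation `v` of `K`: it can be written as `G (θ₁ ∧ ⋯ ∧ θ_n) ^ m` with `G` in the
valuation ring of `v` and differentials `θᵢ` that have at most logarithmic poles at `v`, and that are
regular at `v` in case `v` has a center on `X` (that is, `R` is contained in the valuation ring). -/
def AdmissibleAt (R : Type) [CommRing R] [Algebra R K] {n : ℕ} (Ψ : Ω[K⁄ℂ] [⋀^Fin n]→ₗ[K] K)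
    (m : ℕ) (F : K) (v : Valuation K ℤᵐ⁰) : Prop :=
  ∃ (θ : Fin n → Ω[K⁄ℂ]) (G : K),
    (∀ i, θ i ∈ logDiff v) ∧ ((∀ a : R, v (algebraMap R K a) ≤ 1) → ∀ i, θ i ∈ regDiff v) ∧
    v G ≤ 1 ∧ F = G * Ψ θ ^ m

end forms

/-- The dimension of the variety with coordinate ring `R`. -/
noncomputable def dim (R : Type) [CommRing R] [Algebra ℂ R] : ℕ :=
  Cardinal.toNat (Algebra.trdeg ℂ R)

/-- `κ̄(X) = -∞` for the smooth affine variety `X` with coordinate ring `R` and function field `K`:
every logarithmic plurigenus vanishes. The sections of `m(K + D)` on a smooth compactification of `X`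
with simple normal crossings boundary `D` are the rational `m`-canonical forms that are regular at the
valuations with center on `X` and have at most logarithmic poles at the others. -/
def LogKodairaNegInf (R K : Type) [CommRing R] [Algebra ℂ R] [Field K] [Algebra R K]
    [Algebra ℂ K] : Prop :=
  ∀ (Ψ : Ω[K⁄ℂ] [⋀^Fin (dim R)]→ₗ[K] K) (m : ℕ) (F : K), Ψ ≠ 0 → 1 ≤ m →
    (∀ v : Valuation K ℤᵐ⁰, (∀ c : ℂ, c ≠ 0 → v (algebraMap ℂ K c) = 1) →
      AdmissibleAt R Ψ m F v) → F = 0

section polys

variable {N r s : ℕ}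

/-- The initial part of `P` for the weight `w : ℤ^N`: the sum of the terms of `P` whose exponent `e`
minimises `⟨w, e⟩` on the support of `P`. -/
noncomputable def initialPart (w : Fin N → ℤ) (P : MvPolynomial (Fin N) ℂ) :
    MvPolynomial (Fin N) ℂ := by
  classical
  exact ∑ e ∈ P.support with ∀ e' ∈ P.support, ∑ l, (e l : ℤ) * w l ≤ ∑ l, (e' l : ℤ) * w l,
    monomial e (P.coeff e)

/-- `(f₁,…,f_r; g₁,…,g_s)` is nondegenerate with respect to its Newton polytopes: for every weight
`w`, and every subset `J` of the indices of the `g`s, the hypersurfaces of the torus `(ℂˣ)^N` defined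
by the initial parts of the `f_k` and of the `g_j` (`j ∈ J`) are smooth and meet transversally. -/
def Nondegenerate (f : Fin r → MvPolynomial (Fin N) ℂ) (g : Fin s → MvPolynomial (Fin N) ℂ) :
    Prop :=
  ∀ (w : Fin N → ℤ) (J : Finset (Fin s)) (u : Fin N → ℂ), (∀ l, u l ≠ 0) →
    (∀ k, eval u (initialPart w (f k)) = 0) → (∀ j ∈ J, eval u (initialPart w (g j)) = 0) →
    LinearIndependent ℂ (Sum.elim
      (fun (k : Fin r) (l : Fin N) => eval u (pderiv l (initialPart w (f k))))
      (fun (j : J) (l : Fin N) => eval u (pderiv l (initialPart w (g j)))))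

/-- `R` is the coordinate ring `ℂ[x₁,…,x_N]/(f₁,…,f_r)[1/(g₁ ⋯ g_s)]` of
`X = {f₁ = ⋯ = f_r = 0, g₁ ⋯ g_s ≠ 0} ⊆ 𝔸^N`, and `x` is the family of coordinate functions: the
`f_k` vanish and the `g_j` are invertible in `R`, every element of `R` is a polynomial in the `x_l`
divided by a power of `g₁ ⋯ g_s`, and a polynomial vanishes in `R` only if its product with some
power of `g₁ ⋯ g_s` is in the ideal of the `f_k`. -/
structure IsCoordRing (f : Fin r → MvPolynomial (Fin N) ℂ) (g : Fin s → MvPolynomial (Fin N) ℂ)
    {R : Type} [CommRing R] [Algebra ℂ R] (x : Fin N → R) : Prop where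
  zero : ∀ k, aeval x (f k) = 0
  unit : ∀ j, IsUnit (aeval x (g j))
  surj : ∀ a : R, ∃ (n : ℕ) (P : MvPolynomial (Fin N) ℂ), a * aeval x (∏ j, g j) ^ n = aeval x P
  ker : ∀ P, aeval x P = 0 → ∃ n : ℕ, (∏ j, g j) ^ n * P ∈ Ideal.span (Set.range f)

/-- The coordinate ring of `X = {f₁ = ⋯ = f_r = 0, g₁ ⋯ g_s ≠ 0} ⊆ 𝔸^N`. -/
abbrev CoordRing (f : Fin r → MvPolynomial (Fin N) ℂ) (g : Fin s → MvPolynomial (Fin N) ℂ) : Type :=
  Localization.Away (Ideal.Quotient.mk (Ideal.span (Set.range f)) (∏ j, g j))

end polys

end Pool.Agent.Lib.MP_410da7_ag
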