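import Mathlib
import Pool.Agent.Lib.MP_410da7_ag.Defs

set_option autoImplicit false

namespace Pool.Agent.Lib.MP_410da7_ag

open Cardinal

/-- Generic lying over: if `T` is algebraic and of finite type over the domain `S`, then all primes
of `S` outside a proper closed subset are contractions of primes of `T`. -/
theorem exists_prime_over_generic {S T : Type} [CommRing S] [IsDomain S] [CommRing T] [IsDomain T]
    [Algebra S T] (hinj : Function.Injective (algebraMap S T)) [Algebra.FiniteType S T]
    [Algebra.IsAlgebraic S T] :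
    ∃ h : S, h ≠ 0 ∧ ∀ p : Ideal S, p.IsPrime → h ∉ p →
      ∃ Q : Ideal T, Q.IsPrime ∧ Q.comap (algebraMap S T) = p := by
  classical
  obtain ⟨s, hs⟩ := (inferInstance : Algebra.FiniteType S T).out
  obtain ⟨y, hy0, hy⟩ := Algebra.IsAlgebraic.exists_integral_multiples S (A := T) s
  refine ⟨y, hy0, fun p hp hyp => ?_⟩
  -- powers of `y` make elements integral
  have key : ∀ t : T, ∃ N : ℕ, IsIntegral S (y ^ N • t) := by
    intro t
    have ht : t ∈ Algebra.adjoin S (s : Set T) := hs ▸ Algebra.mem_top
    induction ht using Algebra.adjoin_induction with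
    | mem x hx => exact ⟨1, by simpa using hy x hx⟩
    | algebraMap r => exact ⟨0, by simpa using isIntegral_algebraMap⟩
    | add a b _ _ iha ihb =>
      obtain ⟨N, hN⟩ := iha
      obtain ⟨M, hM⟩ := ihb
      refine ⟨N + M, ?_⟩
      have : y ^ (N + M) • (a + b) = y ^ M • (y ^ N • a) + y ^ N • (y ^ M • b) := by
        simp only [Algebra.smul_def, map_pow]
        ring
      rw [this]
      exact (hN.smul _).add (hM.smul _)
    | mul a b _ _ iha ihb =>
      obtain ⟨N, hN⟩ := iha
      obtain ⟨M, hM⟩ := ihb
      refine ⟨N + M, ?_⟩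
      have : y ^ (N + M) • (a * b) = (y ^ N • a) * (y ^ M • b) := by
        simp only [Algebra.smul_def, map_pow]
        ring
      rw [this]
      exact hN.mul hM
  -- the integral closure
  let T' := integralClosure S T
  have hker : RingHom.ker (algebraMap S T') ≤ p := by
    intro x hx
    have : algebraMap S T x = 0 := by
      have h1 : algebraMap S T' x = 0 := hx
      have := congrArg (algebraMap T' T) h1
      rwa [← IsScalarTower.algebraMap_apply, map_zero] at this
    have : x = 0 := hinj (by rw [this, map_zero])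
    rw [this]
    exact p.zero_mem
  obtain ⟨q, -, hq1, hq2⟩ := Ideal.exists_ideal_over_prime_of_isIntegral p (⊥ : Ideal T')
    (by simpa [RingHom.ker] using hker)
  have hmap : ∀ x ∈ p.map (algebraMap S T), ∃ (N : ℕ) (w : T'), w ∈ q ∧ y ^ N • x = (w : T) := by
    intro x hx
    refine Submodule.span_induction (p := fun x _ => ∃ (N : ℕ) (w : T'), w ∈ q ∧
      y ^ N • x = (w : T)) ?_ ?_ ?_ ?_ hx
    · rintro _ ⟨r, hr, rfl⟩
      refine ⟨0, algebraMap S T' r, ?_, ?_⟩
      · have : r ∈ q.comap (algebraMap S T') := by rw [hq2]; exact hr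
        exact this
      · simp
    · exact ⟨0, 0, q.zero_mem, by simp⟩
    · rintro a b - - ⟨N, w, hw, hN⟩ ⟨M, v, hv, hM⟩
      refine ⟨N + M, algebraMap S T' (y ^ M) * w + algebraMap S T' (y ^ N) * v,
        q.add_mem (q.mul_mem_left _ hw) (q.mul_mem_left _ hv), ?_⟩
      have : y ^ (N + M) • (a + b) = y ^ M • (y ^ N • a) + y ^ N • (y ^ M • b) := by
        simp only [Algebra.smul_def, map_pow]
        ring
      rw [this, hN, hM]
      simp [Algebra.smul_def]
    · rintro t x - ⟨N, w, hw, hN⟩
      obtain ⟨M, hM⟩ := key t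
      refine ⟨M + N, (⟨y ^ M • t, hM⟩ : T') * w, q.mul_mem_left _ hw, ?_⟩
      have : y ^ (M + N) • (t • x) = (y ^ M • t) * (y ^ N • x) := by
        rw [smul_eq_mul]
        simp only [Algebra.smul_def, map_pow]
        ring
      rw [this, hN]
      rfl
  have hcm : (p.map (algebraMap S T)).comap (algebraMap S T) = p := by
    apply le_antisymm _ Ideal.le_comap_map
    intro x hx
    obtain ⟨N, w, hw, hN⟩ := hmap _ hx
    have hw' : algebraMap S T' (y ^ N * x) = w := by
      apply Subtype.ext
      rw [← hN, Algebra.smul_def, ← map_mul]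
      rfl
    have : y ^ N * x ∈ p := by
      rw [← hq2, Ideal.mem_comap, hw']
      exact hw
    rcases hp.mem_or_mem this with h | h
    · exact absurd (hp.mem_of_pow_mem _ h) hyp
    · exact h
  rw [Ideal.comap_map_eq_self_iff_of_isPrime] at hcm
  obtain ⟨Q, hQ, hQ'⟩ := hcm
  exact ⟨Q, hQ, hQ'⟩

/-- The transcendence degree drops modulo a nonzero prime. -/
theorem trdeg_quotient_add_one_le {A : Type} [CommRing A] [IsDomain A] [Algebra ℂ A]
    (P : Ideal A) [P.IsPrime] (w : A) (hw : w ∈ P) (hw0 : w ≠ 0) :
    Algebra.trdeg ℂ (A ⧸ P) + 1 ≤ Algebra.trdeg ℂ A := by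
  obtain ⟨ι, x, hx⟩ := exists_isTranscendenceBasis' ℂ (A ⧸ P)
  choose y hy using fun i => Ideal.Quotient.mk_surjective (x i)
  have hind : AlgebraicIndependent ℂ y := by
    have h1 : AlgebraicIndependent ℂ (Ideal.Quotient.mkₐ ℂ P ∘ y) := by
      have : Ideal.Quotient.mkₐ ℂ P ∘ y = x := by
        funext i
        exact hy i
      rw [this]
      exact hx.1
    exact h1.of_comp _
  have hopt : AlgebraicIndependent ℂ (fun o : Option ι => o.elim w y) := by
    rw [hind.option_iff_transcendental]
    intro halg
    set D := Algebra.adjoin ℂ (Set.range y) with hD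
    obtain ⟨q, hq0, hq⟩ := halg.exists_nonzero_coeff_and_aeval_eq_zero
      (mem_nonZeroDivisors_of_ne_zero hw0)
    have h2 : algebraMap D A (q.coeff 0) ∈ P := by
      have h3 : Polynomial.aeval w q = algebraMap D A (q.coeff 0) +
          w * Polynomial.aeval w q.divX := by
        conv_lhs => rw [← Polynomial.divX_mul_X_add q]
        simp
        ring
      rw [hq] at h3
      have : algebraMap D A (q.coeff 0) = -(w * Polynomial.aeval w q.divX) := by
        linear_combination -h3
      rw [this]
      exact P.neg_mem (P.mul_mem_right _ hw)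
    obtain ⟨F, hF⟩ : ∃ F : MvPolynomial ι ℂ, MvPolynomial.aeval y F = algebraMap D A (q.coeff 0) := by
      have h2' : ∀ u ∈ D, ∃ F : MvPolynomial ι ℂ, MvPolynomial.aeval y F = u := by
        intro u hu
        rw [hD, Algebra.adjoin_range_eq_range_aeval] at hu
        exact hu
      exact h2' _ (q.coeff 0).2
    have hF0 : MvPolynomial.aeval x F = 0 := by
      have h4 : Ideal.Quotient.mkₐ ℂ P (MvPolynomial.aeval y F) = 0 := by
        rw [hF]
        exact Ideal.Quotient.eq_zero_iff_mem.mpr h2
      have h5 : (fun i => Ideal.Quotient.mkₐ ℂ P (y i)) = x := by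
        funext i
        exact hy i
      rwa [MvPolynomial.comp_aeval_apply, h5] at h4
    have hF1 : F = 0 := hx.1.eq_zero_of_aeval_eq_zero F hF0
    rw [hF1, map_zero] at hF
    apply hq0
    apply Subtype.ext
    exact hF.symm
  have h7 := hopt.cardinalMk_le_trdeg
  rw [Cardinal.mk_option] at h7
  rwa [hx.cardinalMk_eq_trdeg] at h7

theorem a1Uniruled_of_family {R : Type} [CommRing R] [IsDomain R] [Algebra ℂ R]
    (hR : Algebra.FiniteType ℂ R)
    {A : Type} [CommRing A] [IsDomain A] [Algebra ℂ A] (hA : Algebra.FiniteType ℂ A)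
    (hd : Algebra.trdeg ℂ A = Algebra.trdeg ℂ R)
    (φ : R →ₐ[ℂ] Polynomial A) (hφ : Function.Injective φ) (a : R) (ha : 0 < (φ a).natDegree)
    (hu : IsUnit (φ a).leadingCoeff) : A1Uniruled R := by
  classical
  let algRT : Algebra R (Polynomial A) := φ.toRingHom.toAlgebra
  have tow1 : IsScalarTower ℂ R (Polynomial A) :=
    IsScalarTower.of_algebraMap_eq' φ.comp_algebraMap.symm
  have : FaithfulSMul R (Polynomial A) := (faithfulSMul_iff_algebraMap_injective _ _).2 hφ
  have h1 : Algebra.trdeg ℂ R + Algebra.trdeg R (Polynomial A) =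
      Algebra.trdeg ℂ (Polynomial A) := trdeg_add_eq ℂ R
  have h2 : Algebra.trdeg ℂ A + Algebra.trdeg A (Polynomial A) =
      Algebra.trdeg ℂ (Polynomial A) := trdeg_add_eq ℂ A
  rw [Polynomial.trdeg_of_isDomain] at h2
  have hfin : Algebra.trdeg ℂ R < ℵ₀ := trdeg_lt_aleph0_of_finiteType
  have h3 : Algebra.trdeg R (Polynomial A) = 1 := by
    rw [← h2, hd] at h1
    exact Cardinal.eq_of_add_eq_add_left h1 hfin
  -- Step 1: an element of `A` that is transcendental over `R`
  obtain ⟨z, hz⟩ : ∃ z : A, Transcendental R (Polynomial.C z) := by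
    by_contra hcon
    simp only [Transcendental, not_exists, not_not] at hcon
    let K := Subalgebra.algebraicClosure R (Polynomial A)
    have hKalg : Algebra.IsAlgebraic R K := by
      constructor
      intro x
      exact (isAlgebraic_algHom_iff K.val Subtype.coe_injective).1 x.2
    let f : A →+* K := (Polynomial.C : A →+* Polynomial A).codRestrict K.toSubring hcon
    have hfinj : Function.Injective f := by
      intro u v huv
      exact Polynomial.C_injective (congrArg Subtype.val huv)
    have hXK : IsAlgebraic K (Polynomial.X : Polynomial A) := by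
      have hφa : φ a ∈ K := isAlgebraic_algebraMap (R := R) (A := Polynomial A) a
      refine ⟨(φ a).map f - Polynomial.C ⟨φ a, hφa⟩, ?_, ?_⟩
      · intro h0
        have := congrArg (fun p => Polynomial.coeff p (φ a).natDegree) h0
        simp only [Polynomial.coeff_sub, Polynomial.coeff_map, Polynomial.coeff_C,
          Polynomial.coeff_zero, ha.ne', if_false, sub_zero] at this
        have h4 : (φ a).coeff (φ a).natDegree = 0 := hfinj (by rw [this, map_zero])
        have h5 : (φ a).leadingCoeff = 0 := h4
        rw [h5] at hu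
        exact not_isUnit_zero hu
      · rw [map_sub, Polynomial.aeval_C, Polynomial.aeval_def, Polynomial.eval₂_map]
        have h4 : (algebraMap K (Polynomial A)).comp f = Polynomial.C := by
          ext u
          rfl
        rw [h4, Polynomial.eval₂_C_X]
        exact sub_self _
    have hX : IsAlgebraic R (Polynomial.X : Polynomial A) := hXK.restrictScalars R
    have hall : Algebra.IsAlgebraic R (Polynomial A) := by
      constructor
      intro p
      have : p ∈ K := by
        induction p using Polynomial.induction_on with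
        | C c => exact hcon c
        | add p q hp hq => exact K.add_mem hp hq
        | monomial n c _ => exact K.mul_mem (hcon c) (K.pow_mem hX _)
      exact this
    rw [trdeg_eq_zero] at h3
    exact zero_ne_one h3
  -- Step 2: `A[t]` is algebraic over `R[Z]`
  let zz : Unit → Polynomial A := fun _ => Polynomial.C z
  have hzz : IsTranscendenceBasis R zz := by
    apply AlgebraicIndependent.isTranscendenceBasis_of_trdeg_le_of_finite
    · rw [algebraicIndependent_unique_type_iff]
      exact hz
    · rw [h3]
      simp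
  have halg1 := hzz.isAlgebraic
  let ev : Polynomial R →ₐ[R] Polynomial A := Polynomial.aeval (Polynomial.C z)
  let algST : Algebra (Polynomial R) (Polynomial A) := ev.toRingHom.toAlgebra
  have hev : ∀ p : Polynomial R, algebraMap (Polynomial R) (Polynomial A) p =
    Polynomial.aeval (Polynomial.C z) p := fun p => rfl
  have tow2 : IsScalarTower R (Polynomial R) (Polynomial A) :=
    IsScalarTower.of_algebraMap_eq' ev.comp_algebraMap.symm
  have tow3 : IsScalarTower ℂ (Polynomial R) (Polynomial A) := by
    apply IsScalarTower.of_algebraMap_eq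
    intro x
    rw [IsScalarTower.algebraMap_apply ℂ R (Polynomial R), ← IsScalarTower.algebraMap_apply R,
      ← IsScalarTower.algebraMap_apply ℂ R]
  have hinj : Function.Injective (algebraMap (Polynomial R) (Polynomial A)) :=
    transcendental_iff_injective.1 hz
  have hft : Algebra.FiniteType (Polynomial R) (Polynomial A) :=
    Algebra.FiniteType.of_restrictScalars_finiteType ℂ (Polynomial R) (Polynomial A)
  have halg2 : Algebra.IsAlgebraic (Polynomial R) (Polynomial A) := by
    have hrange : Set.range zz = {Polynomial.C z} := by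
      simp [zz]
    let f : Polynomial R →+* Algebra.adjoin R (Set.range zz) :=
      (ev.codRestrict (Algebra.adjoin R (Set.range zz)) (fun p => by
        rw [hrange, Algebra.adjoin_singleton_eq_range_aeval]
        exact ⟨p, rfl⟩)).toRingHom
    refine Algebra.IsAlgebraic.of_ringHom_of_comp_eq (S := Algebra.adjoin R (Set.range zz))
      (B := Polynomial A) f (RingHom.id (Polynomial A)) ?_ Function.injective_id ?_
    · rintro ⟨y, hy⟩
      have hy' := hy
      rw [hrange, Algebra.adjoin_singleton_eq_range_aeval] at hy'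
      obtain ⟨p, hp⟩ := hy'
      exact ⟨p, Subtype.ext hp⟩
    · ext <;> rfl
  -- Step 3: choose a good value
  obtain ⟨h, hh0, hh⟩ := exists_prime_over_generic hinj
  obtain ⟨c, hc⟩ : ∃ c : ℂ, h.eval (algebraMap ℂ R c) ≠ 0 := by
    by_contra hcon
    push Not at hcon
    apply hh0
    apply Polynomial.eq_zero_of_infinite_isRoot
    apply (Set.infinite_range_of_injective
      (FaithfulSMul.algebraMap_injective ℂ R)).mono
    rintro _ ⟨c, rfl⟩
    exact hcon c
  obtain ⟨Q, hQ, hQ'⟩ := hh (RingHom.ker (Polynomial.evalRingHom (algebraMap ℂ R c)))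
    (RingHom.ker_isPrime _) (by simpa [RingHom.mem_ker] using hc)
  have hmemQ : ∀ p : Polynomial R, Polynomial.aeval (Polynomial.C z) p ∈ Q ↔
      p.eval (algebraMap ℂ R c) = 0 := by
    intro p
    rw [← hev, ← Ideal.mem_comap, hQ']
    simp [RingHom.mem_ker]
  let P : Ideal A := Q.comap Polynomial.C
  have hP : P.IsPrime := Ideal.comap_isPrime _ _
  let w : A := z - algebraMap ℂ A c
  have hwP : w ∈ P := by
    change Polynomial.C w ∈ Q
    have h6 : Polynomial.C w = Polynomial.aeval (Polynomial.C z)
        (Polynomial.X - Polynomial.C (algebraMap ℂ R c)) := by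
      have h6' : Polynomial.aeval (Polynomial.C z)
        (Polynomial.X - Polynomial.C (algebraMap ℂ R c)) =
          Polynomial.C z - algebraMap R (Polynomial A) (algebraMap ℂ R c) := by
        simp
      rw [h6', Polynomial.C_sub, ← IsScalarTower.algebraMap_apply]
      rfl
    rw [h6, hmemQ]
    simp
  have hw0 : w ≠ 0 := by
    intro h0
    apply hz
    have : z = algebraMap ℂ A c := sub_eq_zero.1 h0
    rw [this]
    have h7 : Polynomial.C (algebraMap ℂ A c) =
        algebraMap R (Polynomial A) (algebraMap ℂ R c) := by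
      rw [← IsScalarTower.algebraMap_apply]
      rfl
    rw [h7]
    exact isAlgebraic_algebraMap _
  let ψ : R →ₐ[ℂ] Polynomial (A ⧸ P) :=
    (Polynomial.mapAlgHom (Ideal.Quotient.mkₐ ℂ P)).comp φ
  have hψ : Function.Injective ψ := by
    rw [injective_iff_map_eq_zero]
    intro r hr
    have h8 : φ r ∈ P.map (Polynomial.C : A →+* Polynomial A) := by
      rw [Ideal.mem_map_C_iff]
      intro n
      have := congrArg (fun p => Polynomial.coeff p n) hr
      simp only [Polynomial.coeff_zero] at this
      have h9 : (ψ r).coeff n = Ideal.Quotient.mk P ((φ r).coeff n) := by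
        simp [ψ]
      rw [h9] at this
      exact Ideal.Quotient.eq_zero_iff_mem.1 this
    have h9 : φ r ∈ Q := Ideal.map_comap_le h8
    have h10 : φ r = Polynomial.aeval (Polynomial.C z) (Polynomial.C r) := by
      rw [Polynomial.aeval_C]
      rfl
    rw [h10, hmemQ] at h9
    simpa using h9
  have hψa : 0 < (ψ a).natDegree := by
    have : (ψ a) = (φ a).map (Ideal.Quotient.mk P) := by
      simp [ψ]
      rfl
    rw [this, Polynomial.natDegree_map_of_leadingCoeff_ne_zero]
    · exact ha
    · exact (hu.map (Ideal.Quotient.mk P)).ne_zero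
  refine ⟨A ⧸ P, inferInstance, inferInstance, inferInstance,
    Algebra.FiniteType.of_surjective (Ideal.Quotient.mkₐ ℂ P) (Ideal.Quotient.mkₐ_surjective ℂ P),
    ?_, ψ, hψ, a, hψa⟩
  apply le_antisymm
  · rw [← hd]
    exact trdeg_quotient_add_one_le P w hwP hw0
  · have h11 : Algebra.trdeg ℂ (A ⧸ P) + Algebra.trdeg (A ⧸ P) (Polynomial (A ⧸ P)) =
      Algebra.trdeg ℂ (Polynomial (A ⧸ P)) := trdeg_add_eq ℂ (A ⧸ P)
    rw [Polynomial.trdeg_of_isDomain] at h11
    rw [h11]
    exact trdeg_le_of_injective ψ hψ

end Pool.Agent.Lib.MP_410da7_ag
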