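import Pool.Agent.Lib.MP_410da7_ag.Pull

/-!
# `𝔸¹`-uniruled varieties have no logarithmic pluricanonical forms
-/

set_option autoImplicit false

namespace Pool.Agent.Lib.MP_410da7_ag

open KaehlerDifferential WithZero Polynomial

section ders

variable {L : Type} [Field L] [Algebra ℂ L]

/-- coefficientwise derivation of `L[t]` -/
noncomputable def coeffDer (δ : Derivation ℂ L L) : Derivation ℂ L[X] L[X] :=
  (PolynomialModule.equivPolynomialSelf (R := L)).toLinearMap.compDer δ.mapCoeffs

theorem coeffDer_coeff (δ : Derivation ℂ L L) (p : L[X]) (i : ℕ) :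
    (coeffDer δ p).coeff i = δ (p.coeff i) := by
  rfl

theorem coeffDer_natDegree (δ : Derivation ℂ L L) (p : L[X]) :
    (coeffDer δ p).natDegree ≤ p.natDegree := by
  rw [natDegree_le_iff_coeff_eq_zero]
  intro i hi
  rw [coeffDer_coeff, coeff_eq_zero_of_natDegree_lt hi, map_zero]

variable (L) in
/-- `d/dt` -/
noncomputable def ddt : Derivation ℂ L[X] L[X] :=
  (Polynomial.derivative' (R := L)).restrictScalars ℂ

theorem ddt_apply (p : L[X]) : ddt L p = derivative p := rfl

theorem X_ddt_natDegree (p : L[X]) :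
    ((X : L[X]) • ddt L p).natDegree ≤ p.natDegree := by
  rw [smul_eq_mul, ddt_apply]
  by_cases h : p.natDegree = 0
  · rw [Polynomial.natDegree_eq_zero] at h
    obtain ⟨c, rfl⟩ := h
    simp
  · refine (natDegree_mul_le).trans ?_
    have := natDegree_derivative_lt h
    have := natDegree_X_le (R := L)
    omega

/-- the family of derivations of `L[t]`: `d/dt` and coefficientwise derivations -/
noncomputable def famDer {ι : Type} (δ : ι → Derivation ℂ L L) : Option ι → Derivation ℂ L[X] L[X]
  | none => ddt L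
  | some i => coeffDer (δ i)

/-- the family of derivations of `L[t]`: `t d/dt` and coefficientwise derivations -/
noncomputable def famDer' {ι : Type} (δ : ι → Derivation ℂ L L) : Option ι → Derivation ℂ L[X] L[X]
  | none => (X : L[X]) • ddt L
  | some i => coeffDer (δ i)

theorem famDer'_natDegree {ι : Type} (δ : ι → Derivation ℂ L L) (o : Option ι) (p : L[X]) :
    (famDer' δ o p).natDegree ≤ p.natDegree := by
  cases o with
  | none => exact X_ddt_natDegree p
  | some i => exact coeffDer_natDegree _ p

end ders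

section core

variable {K L : Type} [Field K] [Algebra ℂ K] [Field L] [Algebra ℂ L] [Algebra K (RatFunc L)]
  [IsScalarTower ℂ K (RatFunc L)]

theorem pull_extDer_X_smul (δ : Derivation ℂ L[X] L[X]) (θ : Ω[K⁄ℂ]) :
    pull K (extDer ((X : L[X]) • δ)) θ = RatFunc.X * pull K (extDer δ) θ := by
  have h1 : ∀ x, extDer ((X : L[X]) • δ) x = RatFunc.X * extDer δ x := by
    intro x
    have hx0 := RatFunc.num_div_denom x
    rw [← hx0, extDer_div _ _ _ x.denom_ne_zero, extDer_div _ _ _ x.denom_ne_zero,
      ← RatFunc.algebraMap_X, ← mul_div_assoc, ← map_mul]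
    congr 2
    simp only [Derivation.smul_apply, smul_eq_mul]
    ring
  have hθ : θ ∈ Submodule.span K (Set.range (D ℂ K)) := by
    rw [KaehlerDifferential.span_range_derivation]; trivial
  refine Submodule.span_induction (p := fun θ _ => pull K (extDer ((X : L[X]) • δ)) θ =
    RatFunc.X * pull K (extDer δ) θ) ?_ ?_ ?_ ?_ hθ
  · rintro _ ⟨a, rfl⟩
    rw [pull_D, pull_D, h1]
  · simp
  · intro x y _ _ hx hy
    rw [map_add, map_add, hx, hy, mul_add]
  · intro a x _ hx
    rw [map_smul, map_smul, hx, Algebra.smul_def, Algebra.smul_def]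
    ring

theorem detForm_famDer' {d : ℕ} {ι : Type} [Fintype ι] (δ : ι → Derivation ℂ L L)
    (e : Fin d ≃ Option ι) (θ : Fin d → Ω[K⁄ℂ]) :
    detForm K (fun j => extDer (famDer' δ (e j))) θ =
      RatFunc.X * detForm K (fun j => extDer (famDer δ (e j))) θ := by
  classical
  rw [detForm_apply, detForm_apply]
  have h : (Matrix.of fun i j => pull K (extDer (famDer' δ (e j))) (θ i)) =
      (Matrix.of fun i j => pull K (extDer (famDer δ (e j))) (θ i)) *
        Matrix.diagonal (fun j => if e j = none then (RatFunc.X : RatFunc L) else 1) := by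
    ext i j
    rw [Matrix.mul_diagonal, Matrix.of_apply, Matrix.of_apply]
    cases h : e j with
    | none =>
      simp only [famDer', famDer, if_true]
      rw [pull_extDer_X_smul, mul_comm]
    | some k => simp [famDer', famDer]
  rw [h, Matrix.det_mul, Matrix.det_diagonal, mul_comm]
  congr 1
  rw [Fintype.prod_equiv e _ (fun o => if o = none then (RatFunc.X : RatFunc L) else 1)
    (fun j => rfl)]
  simp

open Classical in
theorem core_vanish {d : ℕ} {ι : Type} [Fintype ι] (δ : ι → Derivation ℂ L L)
    (e : Fin d ≃ Option ι) {m : ℕ} (hm : 1 ≤ m) (F : K) (η : ⋀[K]^d Ω[K⁄ℂ])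
    (hfin : ∀ p : IsDedekindDomain.HeightOneSpectrum L[X],
      ∃ (θ : Fin d → Ω[K⁄ℂ]) (c G : K),
        (∀ i, θ i ∈ regDiff ((p.valuation (RatFunc L)).comap (algebraMap K (RatFunc L)))) ∧
        exteriorPower.ιMulti K d θ = c • η ∧
        (p.valuation (RatFunc L)).comap (algebraMap K (RatFunc L)) G ≤ 1 ∧ F = G * c ^ m)
    (hinf : ∃ (θ : Fin d → Ω[K⁄ℂ]) (c G : K),
        (∀ i, θ i ∈ logDiff ((RatFunc.inftyValuation L).comap (algebraMap K (RatFunc L)))) ∧
        exteriorPower.ιMulti K d θ = c • η ∧
        (RatFunc.inftyValuation L).comap (algebraMap K (RatFunc L)) G ≤ 1 ∧ F = G * c ^ m) :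
    algebraMap K (RatFunc L) F * (exteriorPower.alternatingMapLinearEquiv
      (detForm K fun j => extDer (famDer δ (e j))) η) ^ m = 0 := by
  set κ := exteriorPower.alternatingMapLinearEquiv
      (detForm K fun j => extDer (famDer δ (e j))) η with hκ
  have key : ∀ (θ : Fin d → Ω[K⁄ℂ]) (c : K), exteriorPower.ιMulti K d θ = c • η →
      detForm K (fun j => extDer (famDer δ (e j))) θ = algebraMap K (RatFunc L) c * κ := by
    intro θ c h
    rw [← exteriorPower.alternatingMapLinearEquiv_apply_ιMulti, h, map_smul, Algebra.smul_def]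
  have hint : ∀ p : IsDedekindDomain.HeightOneSpectrum L[X],
      p.valuation (RatFunc L) (algebraMap K (RatFunc L) F * κ ^ m) ≤ 1 := by
    intro p
    obtain ⟨θ, c, G, hθ, hc, hG, rfl⟩ := hfin p
    have : algebraMap K (RatFunc L) (G * c ^ m) * κ ^ m =
        algebraMap K (RatFunc L) G *
          (detForm K (fun j => extDer (famDer δ (e j))) θ) ^ m := by
      rw [key θ c hc, map_mul, map_pow]
      ring
    rw [this, map_mul, map_pow]
    refine mul_le_one' hG (pow_le_one' ?_ m)
    rw [detForm_apply]
    refine det_le_one _ _ fun i j => ?_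
    exact pull_reg _ _ (extDer_valuation_le _ p) _ (hθ i)
  have hinf' : RatFunc.inftyValuation L
      (RatFunc.X ^ m * (algebraMap K (RatFunc L) F * κ ^ m)) ≤ 1 := by
    obtain ⟨θ, c, G, hθ, hc, hG, rfl⟩ := hinf
    have : RatFunc.X ^ m * (algebraMap K (RatFunc L) (G * c ^ m) * κ ^ m) =
        algebraMap K (RatFunc L) G *
          (detForm K (fun j => extDer (famDer' δ (e j))) θ) ^ m := by
      rw [detForm_famDer', key θ c hc, map_mul, map_pow]
      ring
    rw [this, map_mul, map_pow]
    refine mul_le_one' hG (pow_le_one' ?_ m)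
    rw [detForm_apply]
    refine det_le_one _ _ fun i j => ?_
    exact pull_log _ _ (extDer_infty_le _ (famDer'_natDegree _ _)) _ (hθ i)
  obtain ⟨Q, hQ⟩ := IsDedekindDomain.HeightOneSpectrum.mem_integers_of_valuation_le_one
    (RatFunc L) _ hint
  rw [← hQ] at hinf' ⊢
  by_cases hQ0 : Q = 0
  · simp [hQ0]
  exfalso
  rw [map_mul, map_pow, RatFunc.inftyValuation.X, RatFunc.inftyValuation_apply,
    RatFunc.inftyValuation.polynomial _ hQ0, ← exp_nsmul, ← exp_add, ← exp_zero, exp_le_exp] at hinf'
  simp at hinf'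
  omega

end core

end Pool.Agent.Lib.MP_410da7_ag
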