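import Pool.Agent.Lib.MP_410da7_ag.Minimax

/-!
# Newton polytopes and weights
-/

set_option autoImplicit false

namespace Pool.Agent.Lib.MP_410da7_ag

open MvPolynomial
open scoped Pointwise

variable {N r s : ℕ}

/-- The Newton polytope of `P`: the convex hull of the exponents of `P`. -/
def newton (P : MvPolynomial (Fin N) ℂ) : Set (Fin N → ℝ) :=
  convexHull ℝ ((fun (e : Fin N →₀ ℕ) (l : Fin N) => (e l : ℝ)) '' (P.support : Set (Fin N →₀ ℕ)))

theorem weightedTotalDegree_eq (w : Fin N → ℕ) (P : MvPolynomial (Fin N) ℂ) :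
    P.weightedTotalDegree w = P.support.sup (fun e => ∑ l, w l * e l) := by
  rw [weightedTotalDegree]
  refine Finset.sup_congr rfl fun e _ => ?_
  rw [Finsupp.weight_apply, Finsupp.sum_fintype _ _ (by simp)]
  refine Finset.sum_congr rfl fun l _ => ?_
  rw [smul_eq_mul, mul_comm]

theorem newton_le (P : MvPolynomial (Fin N) ℂ) (w : Fin N → ℕ) (p : Fin N → ℝ)
    (hp : p ∈ newton P) : ∑ l, (w l : ℝ) * p l ≤ ((P.weightedTotalDegree w : ℕ) : ℝ) := by
  have hsub : newton P ⊆ {p : Fin N → ℝ | ∑ l, (w l : ℝ) * p l ≤ ((P.weightedTotalDegree w : ℕ) : ℝ)} := by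
    refine convexHull_min ?_ ?_
    · rintro _ ⟨e, he, rfl⟩
      have h1 : ∑ l, w l * e l ≤ P.weightedTotalDegree w := by
        rw [weightedTotalDegree_eq]
        exact Finset.le_sup (f := fun e : Fin N →₀ ℕ => ∑ l, w l * e l) he
      simp only [Set.mem_setOf_eq]
      exact_mod_cast h1
    · intro a ha b hb x y hx hy hxy
      simp only [Set.mem_setOf_eq, Pi.add_apply, Pi.smul_apply, smul_eq_mul] at *
      have : ∑ l, (w l : ℝ) * (x * a l + y * b l) =
          x * ∑ l, (w l : ℝ) * a l + y * ∑ l, (w l : ℝ) * b l := by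
        rw [Finset.mul_sum, Finset.mul_sum, ← Finset.sum_add_distrib]
        exact Finset.sum_congr rfl fun l _ => by ring
      rw [this]
      calc _ ≤ x * ((P.weightedTotalDegree w : ℕ) : ℝ) + y * ((P.weightedTotalDegree w : ℕ) : ℝ) := by gcongr
        _ = _ := by rw [← add_mul, hxy, one_mul]
  exact hsub hp

theorem weight_iff_newton (f : Fin r → MvPolynomial (Fin N) ℂ) (g : Fin s → MvPolynomial (Fin N) ℂ)
    (hf0 : ∀ k, f k ≠ 0) (hg0 : ∀ j, g j ≠ 0) :
    (∃ w : Fin N → ℕ, ∑ k, (f k).weightedTotalDegree w + ∑ j, (g j).weightedTotalDegree w <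
      ∑ l, w l) ↔
    ∀ q ∈ (∑ k, newton (f k)) + ∑ j, newton (g j), ∃ l, q l < 1 := by
  classical
  constructor
  · rintro ⟨w, hw⟩ q hq
    by_contra! hcon
    obtain ⟨a, ha, b, hb, rfl⟩ := Set.mem_add.1 hq
    obtain ⟨p, hp, rfl⟩ := (Set.mem_fintype_sum _ _).1 ha
    obtain ⟨p', hp', rfl⟩ := (Set.mem_fintype_sum _ _).1 hb
    have h1 : ∑ l, (w l : ℝ) ≤ ∑ l, (w l : ℝ) * ((∑ k, p k + ∑ j, p' j) l) := by
      refine Finset.sum_le_sum fun l _ => ?_
      exact le_mul_of_one_le_right (by positivity) (hcon l)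
    have h2 : ∑ l, (w l : ℝ) * ((∑ k, p k + ∑ j, p' j) l) =
        ∑ k, ∑ l, (w l : ℝ) * p k l + ∑ j, ∑ l, (w l : ℝ) * p' j l := by
      simp only [Pi.add_apply, Finset.sum_apply, mul_add, Finset.sum_add_distrib, Finset.mul_sum]
      congr 1 <;> rw [Finset.sum_comm]
    have h3 : ∑ k, ∑ l, (w l : ℝ) * p k l ≤ ∑ k, (((f k).weightedTotalDegree w : ℕ) : ℝ) :=
      Finset.sum_le_sum fun k _ => newton_le _ w _ (hp k)
    have h4 : ∑ j, ∑ l, (w l : ℝ) * p' j l ≤ ∑ j, (((g j).weightedTotalDegree w : ℕ) : ℝ) :=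
      Finset.sum_le_sum fun k _ => newton_le _ w _ (hp' k)
    have h5 : (∑ k, (((f k).weightedTotalDegree w : ℕ) : ℝ) + ∑ j, (((g j).weightedTotalDegree w : ℕ) : ℝ)) <
        ∑ l, (w l : ℝ) := by exact_mod_cast hw
    linarith
  · intro h
    by_contra! hcon
    obtain ⟨m, c, hm, hc, hge⟩ := minimax (ι := Fin r ⊕ Fin s)
      (Sum.elim (fun k => (f k).support) (fun j => (g j).support)) (by
        rintro (k | j)
        · exact MvPolynomial.support_nonempty.2 (hf0 k)
        · exact MvPolynomial.support_nonempty.2 (hg0 j)) (by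
        intro w
        rw [Fintype.sum_sum_type]
        simp only [Sum.elim_inl, Sum.elim_inr, ← weightedTotalDegree_eq]
        exact hcon w)
    have hm' : (0 : ℝ) < m := by exact_mod_cast hm
    have hmem : ∀ (i : Fin r ⊕ Fin s) (P : MvPolynomial (Fin N) ℂ)
        (_ : Sum.elim (fun k => (f k).support) (fun j => (g j).support) i = P.support),
        (fun l => ∑ e ∈ P.support, ((c i e : ℝ) / m) * (e l : ℝ)) ∈ newton P := by
      intro i P hP
      have h1 : (fun l => ∑ e ∈ P.support, ((c i e : ℝ) / m) * (e l : ℝ)) =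
          ∑ e ∈ P.support, ((c i e : ℝ) / m) • (fun l : Fin N => (e l : ℝ)) := by
        funext l
        simp [Finset.sum_apply]
      rw [h1]
      refine (convex_convexHull ℝ _).sum_mem (fun e _ => by positivity) ?_ (fun e he => ?_)
      · rw [← Finset.sum_div, div_eq_one_iff_eq hm'.ne']
        have := hc i
        rw [hP] at this
        exact_mod_cast this
      · exact subset_convexHull ℝ _ ⟨e, he, rfl⟩
    obtain ⟨l, hl⟩ := h _ (Set.add_mem_add
      (Set.finsetSum_mem_finsetSum Finset.univ (fun k => newton (f k)) _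
        (fun k _ => hmem (Sum.inl k) (f k) rfl))
      (Set.finsetSum_mem_finsetSum Finset.univ (fun j => newton (g j)) _
        (fun j _ => hmem (Sum.inr j) (g j) rfl)))
    have h2 := hge l
    rw [Fintype.sum_sum_type] at h2
    simp only [Sum.elim_inl, Sum.elim_inr] at h2
    simp only [Pi.add_apply, Finset.sum_apply] at hl
    have h3 : (m : ℝ) ≤ ∑ k, ∑ e ∈ (f k).support, (c (Sum.inl k) e : ℝ) * (e l : ℝ) +
        ∑ j, ∑ e ∈ (g j).support, (c (Sum.inr j) e : ℝ) * (e l : ℝ) := by exact_mod_cast h2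
    have h4 : (∑ k, ∑ e ∈ (f k).support, ((c (Sum.inl k) e : ℝ) / m) * (e l : ℝ)) +
        ∑ j, ∑ e ∈ (g j).support, ((c (Sum.inr j) e : ℝ) / m) * (e l : ℝ) =
        (∑ k, ∑ e ∈ (f k).support, (c (Sum.inl k) e : ℝ) * (e l : ℝ) +
        ∑ j, ∑ e ∈ (g j).support, (c (Sum.inr j) e : ℝ) * (e l : ℝ)) / m := by
      rw [add_div, Finset.sum_div, Finset.sum_div]
      congr 1 <;>
      · refine Finset.sum_congr rfl fun k _ => ?_
        rw [Finset.sum_div]
        exact Finset.sum_congr rfl fun e _ => by ring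
    rw [h4, div_lt_one hm'] at hl
    linarith

end Pool.Agent.Lib.MP_410da7_ag
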