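import Pool.Agent.Lib.MP_410da7_ag.CMain
import Pool.Agent.Lib.MP_410da7_ag.Family
import Pool.Agent.Lib.MP_410da7_ag.Newton

/-!
# The criterion for nondegenerate complete intersections
-/

set_option autoImplicit false

namespace Pool.Agent.Lib.MP_410da7_ag

open MvPolynomial WithZero KaehlerDifferential

section

variable {N r s : ℕ}

/-- (ii) ⟹ (iii) -/
theorem exists_weight (f : Fin r → MvPolynomial (Fin N) ℂ) (g : Fin s → MvPolynomial (Fin N) ℂ)
    (hf0 : ∀ k, f k ≠ 0) (hg0 : ∀ j, g j ≠ 0) (hnd : Nondegenerate f g)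
    (hsm : ∀ u : Fin N → ℂ, (∀ k, eval u (f k) = 0) → (∀ j, eval u (g j) ≠ 0) →
      LinearIndependent ℂ (fun (k : Fin r) (l : Fin N) => eval u (pderiv l (f k))))
    {R K : Type} [CommRing R] [IsDomain R] [Algebra ℂ R] [Field K] [Algebra R K]
    [IsFractionRing R K] [Algebra ℂ K] [IsScalarTower ℂ R K]
    (xR : Fin N → R) (hR : IsCoordRing f g xR) (hx : ∀ l, xR l ≠ 0)
    {n : ℕ} (hn : Algebra.trdeg ℂ R = (n : Cardinal))
    (hK : LogKodairaNegInf R K) :
    ∃ w : Fin N → ℕ, ∑ k, (f k).weightedTotalDegree w + ∑ j, (g j).weightedTotalDegree w <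
      ∑ l, w l := by
  classical
  by_contra! hcon
  have hdim : dim R = n := by rw [dim, hn, Cardinal.toNat_natCast]
  subst hdim
  obtain ⟨m, c, hm, hc, hge⟩ := minimax (ι := Fin r ⊕ Fin s)
    (Sum.elim (fun k => (f k).support) (fun j => (g j).support)) (by
      rintro (k | j)
      · exact MvPolynomial.support_nonempty.2 (hf0 k)
      · exact MvPolynomial.support_nonempty.2 (hg0 j)) (by
      intro w
      rw [Fintype.sum_sum_type]
      simp only [Sum.elim_inl, Sum.elim_inr, ← weightedTotalDegree_eq]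
      exact hcon w)
  have hinj : Function.Injective (algebraMap R K) := IsFractionRing.injective R K
  let x : Fin N → K := fun l => algebraMap R K (xR l)
  have hax : ∀ P : MvPolynomial (Fin N) ℂ, aeval x P = algebraMap R K (aeval xR P) := by
    intro P
    have := MvPolynomial.map_aeval (R := ℂ) xR (algebraMap R K) P
    rw [← IsScalarTower.algebraMap_eq] at this
    rw [this]
    rfl
  obtain ⟨u, hu⟩ := exists_basis_fin hn K
  obtain ⟨F, η, hF0, hη0, hadm⟩ := cmain_abs x
    (fun l h => hx l (hinj (by rw [map_zero]; exact h))) f g hf0 hg0 hnd hsm (by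
      intro a
      obtain ⟨a1, a2, ha2, rfl⟩ := IsFractionRing.div_surjective (A := R) a
      obtain ⟨k1, P1, h1⟩ := hR.surj a1
      obtain ⟨k2, P2, h2⟩ := hR.surj a2
      have ha20 : a2 ≠ 0 := nonZeroDivisors.ne_zero ha2
      have hG : aeval x (∏ j, g j) ≠ 0 := by
        rw [hax]
        intro h0
        have h0' := hinj (h0.trans (map_zero _).symm)
        rw [map_prod] at h0'
        obtain ⟨j, _, hj⟩ := Finset.prod_eq_zero_iff.1 h0'
        exact (hR.unit j).ne_zero hj
      have ha2K : algebraMap R K a2 ≠ 0 := by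
        intro h0
        exact ha20 (hinj (h0.trans (map_zero _).symm))
      have e1 : algebraMap R K a1 * aeval x (∏ j, g j) ^ k1 = aeval x P1 := by
        rw [hax, hax, ← map_pow, ← map_mul, h1]
      have e2 : algebraMap R K a2 * aeval x (∏ j, g j) ^ k2 = aeval x P2 := by
        rw [hax, hax, ← map_pow, ← map_mul, h2]
      refine ⟨P1 * (∏ j, g j) ^ k2, P2 * (∏ j, g j) ^ k1, ?_, ?_⟩
      · rw [map_mul, map_pow, ← e2]
        exact mul_ne_zero (mul_ne_zero ha2K (pow_ne_zero _ hG)) (pow_ne_zero _ hG)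
      · rw [map_mul, map_mul, map_pow, map_pow, ← e1, ← e2]
        field_simp) (by
      intro P hP
      apply hR.ker
      apply hinj
      rw [map_zero, ← hax, hP]) (by
      intro k
      rw [hax, hR.zero, map_zero]) (by
      intro j h0
      rw [hax] at h0
      exact (hR.unit j).ne_zero (hinj (h0.trans (map_zero _).symm))) u hu m
    (fun k => c (Sum.inl k)) (fun j => c (Sum.inr j)) (fun k => hc (Sum.inl k))
    (fun j => hc (Sum.inr j)) (by
      intro l
      have := hge l
      rwa [Fintype.sum_sum_type] at this)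
  apply hF0
  obtain ⟨b, hb⟩ := exists_kaehlerBasis u hu
  obtain ⟨Ψ, hΨ0, hΨ⟩ := exists_psi_of_eta b η hη0
  refine hK Ψ m F hΨ0 hm fun v hv => ?_
  obtain ⟨θ, c', G, h1, h2, h3, h4, h5⟩ := hadm v hv
  refine ⟨θ, G, h1, fun hRv => h2 (fun l => hRv _) (fun j => ?_), h4, ?_⟩
  · obtain ⟨y, hy⟩ := (hR.unit j).exists_right_inv
    have h6 : v (aeval x (g j)) * v (algebraMap R K y) = 1 := by
      rw [hax, ← map_mul, ← map_mul, hy, map_one, map_one]
    refine le_antisymm (by rw [hax]; exact hRv _) ?_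
    rw [← h6]
    exact mul_le_of_le_one_right' (hRv y)
  · rw [hΨ θ c' h3, h5]

theorem aeval_coordRing (f : Fin r → MvPolynomial (Fin N) ℂ) (g : Fin s → MvPolynomial (Fin N) ℂ)
    (F : MvPolynomial (Fin N) ℂ) :
    aeval (fun l => algebraMap (MvPolynomial (Fin N) ℂ ⧸ Ideal.span (Set.range f))
        (CoordRing f g) (Ideal.Quotient.mk _ (X l))) F =
      algebraMap (MvPolynomial (Fin N) ℂ ⧸ Ideal.span (Set.range f)) (CoordRing f g)
        (Ideal.Quotient.mk _ F) := by
  have h1 : aeval (fun l => algebraMap (MvPolynomial (Fin N) ℂ ⧸ Ideal.span (Set.range f))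
      (CoordRing f g) (Ideal.Quotient.mk _ (X l))) =
      (IsScalarTower.toAlgHom ℂ (MvPolynomial (Fin N) ℂ ⧸ Ideal.span (Set.range f))
        (CoordRing f g)).comp (Ideal.Quotient.mkₐ ℂ (Ideal.span (Set.range f))) := by
    ext l
    simp only [aeval_X, AlgHom.comp_apply]
    rfl
  rw [h1]
  rfl

/-- The localization `ℂ[x]/(f)[1/∏ g]` is a coordinate ring in the sense of `IsCoordRing`. -/
theorem isCoordRing_coordRing (f : Fin r → MvPolynomial (Fin N) ℂ)
    (g : Fin s → MvPolynomial (Fin N) ℂ) :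
    IsCoordRing f g (fun l => algebraMap (MvPolynomial (Fin N) ℂ ⧸ Ideal.span (Set.range f))
      (CoordRing f g) (Ideal.Quotient.mk _ (X l))) where
  zero := (universal_coordRing f g).zero
  unit := (universal_coordRing f g).unit
  surj := by
    intro a
    obtain ⟨⟨b, ⟨_, k, rfl⟩⟩, hb⟩ := IsLocalization.surj
      (Submonoid.powers (Ideal.Quotient.mk (Ideal.span (Set.range f)) (∏ j, g j))) a
    obtain ⟨P, rfl⟩ := Ideal.Quotient.mk_surjective b
    refine ⟨k, P, ?_⟩
    rw [aeval_coordRing, aeval_coordRing, ← hb, ← map_pow]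
  ker := by
    intro P hP
    rw [aeval_coordRing] at hP
    obtain ⟨⟨_, k, rfl⟩, hk⟩ := (IsLocalization.map_eq_zero_iff
      (Submonoid.powers (Ideal.Quotient.mk (Ideal.span (Set.range f)) (∏ j, g j)))
      (CoordRing f g) _).1 hP
    refine ⟨k, ?_⟩
    rw [← Ideal.Quotient.eq_zero_iff_mem, map_mul, map_pow]
    exact hk

theorem unit_prod (f : Fin r → MvPolynomial (Fin N) ℂ) (g : Fin s → MvPolynomial (Fin N) ℂ)
    {R : Type} [CommRing R] [Algebra ℂ R] (x : Fin N → R) (hR : IsCoordRing f g x) :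
    IsUnit (aeval x (∏ j, g j)) := by
  rw [map_prod, IsUnit.prod_univ_iff]
  exact hR.unit

/-- Every coordinate ring in the sense of `IsCoordRing` is isomorphic to the localization. -/
theorem exists_equiv (f : Fin r → MvPolynomial (Fin N) ℂ) (g : Fin s → MvPolynomial (Fin N) ℂ)
    {R : Type} [CommRing R] [Algebra ℂ R] (x : Fin N → R) (hR : IsCoordRing f g x) :
    ∃ e : CoordRing f g ≃ₐ[ℂ] R, ∀ l, e (algebraMap (MvPolynomial (Fin N) ℂ ⧸
      Ideal.span (Set.range f)) (CoordRing f g) (Ideal.Quotient.mk _ (X l))) = x l := by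
  have hC := isCoordRing_coordRing f g
  obtain ⟨φ, hφ⟩ := (universal_coordRing f g).lift x hR.zero hR.unit
  have hφP : ∀ P : MvPolynomial (Fin N) ℂ, φ (aeval (fun l => algebraMap (MvPolynomial (Fin N) ℂ ⧸
      Ideal.span (Set.range f)) (CoordRing f g) (Ideal.Quotient.mk _ (X l))) P) = aeval x P := by
    intro P
    rw [← AlgHom.comp_apply, comp_aeval]
    congr 2
    funext l
    exact hφ l
  have hGu := unit_prod f g x hR
  have hGu' := unit_prod f g _ hC
  refine ⟨AlgEquiv.ofBijective φ ⟨?_, ?_⟩, hφ⟩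
  · rw [injective_iff_map_eq_zero]
    intro a ha
    obtain ⟨k, P, hP⟩ := hC.surj a
    have h1 : aeval x P = 0 := by
      rw [← hφP, ← hP, map_mul, ha, zero_mul]
    obtain ⟨m, hm⟩ := hR.ker P h1
    have h2 : aeval (fun l => algebraMap (MvPolynomial (Fin N) ℂ ⧸
      Ideal.span (Set.range f)) (CoordRing f g) (Ideal.Quotient.mk _ (X l)))
      ((∏ j, g j) ^ m * P) = 0 := by
      rw [aeval_coordRing, Ideal.Quotient.eq_zero_iff_mem.2 hm, map_zero]
    rw [map_mul, map_pow, (hGu'.pow m).mul_right_eq_zero, ← hP,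
      (hGu'.pow k).mul_left_eq_zero] at h2
    exact h2
  · intro a
    obtain ⟨k, P, hP⟩ := hR.surj a
    obtain ⟨y, hy⟩ := (hGu'.pow k).exists_right_inv
    refine ⟨aeval (fun l => algebraMap (MvPolynomial (Fin N) ℂ ⧸
      Ideal.span (Set.range f)) (CoordRing f g) (Ideal.Quotient.mk _ (X l))) P * y, ?_⟩
    have h3 := congrArg φ hy
    rw [map_mul, map_pow, hφP, map_one] at h3
    rw [map_mul, hφP, ← hP, mul_assoc, h3, mul_one]

theorem a1Uniruled_of_isCoordRing (f : Fin r → MvPolynomial (Fin N) ℂ)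
    (g : Fin s → MvPolynomial (Fin N) ℂ) {R K : Type} [CommRing R] [IsDomain R] [Algebra ℂ R]
    [Field K] [Algebra R K] [IsFractionRing R K] [Algebra ℂ K] [IsScalarTower ℂ R K]
    (x : Fin N → R) (hR : IsCoordRing f g x) (w : Fin N → ℕ)
    (hw : ∑ k, (f k).weightedTotalDegree w + ∑ j, (g j).weightedTotalDegree w < ∑ l, w l) :
    A1Uniruled R := by
  obtain ⟨e, he⟩ := exists_equiv f g x hR
  have hU := universal_coordRing f g
  have hft : Algebra.FiniteType ℂ (CoordRing f g) := inferInstance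
  have hRft : Algebra.FiniteType ℂ R := Algebra.FiniteType.of_surjective e.toAlgHom e.surjective
  have hUR : Universal f g x :=
    { zero := hR.zero
      unit := hR.unit
      lift := by
        intro B _ _ y h1 h2
        obtain ⟨φ, hφ⟩ := hU.lift y h1 h2
        refine ⟨φ.comp e.symm.toAlgHom, fun l => ?_⟩
        rw [← he l]
        change φ (e.symm (e _)) = y l
        rw [e.symm_apply_apply, hφ]
      ext := by
        intro B _ _ φ ψ h
        have h1 : φ.comp e.toAlgHom = ψ.comp e.toAlgHom := by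
          apply hU.ext
          intro l
          change φ (e _) = ψ (e _)
          rw [he, h]
        ext a
        obtain ⟨b, rfl⟩ := e.surjective a
        exact DFunLike.congr_fun h1 b }
  exact a1Uniruled_of_universal' f g hRft hUR (K := K) w hw

theorem trdeg_isCoordRing (f : Fin r → MvPolynomial (Fin N) ℂ)
    (g : Fin s → MvPolynomial (Fin N) ℂ) {R : Type} [CommRing R] [IsDomain R] [Algebra ℂ R]
    (x : Fin N → R) (hR : IsCoordRing f g x) : Algebra.trdeg ℂ R = (dim R : Cardinal) := by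
  obtain ⟨e, he⟩ := exists_equiv f g x hR
  have hft : Algebra.FiniteType ℂ (CoordRing f g) := inferInstance
  have hRft : Algebra.FiniteType ℂ R := Algebra.FiniteType.of_surjective e.toAlgHom e.surjective
  have hlt : Algebra.trdeg ℂ R < Cardinal.aleph0 :=
    trdeg_lt_aleph0_of_finiteType (R := ℂ) (S := R)
  rw [dim, Cardinal.cast_toNat_of_lt_aleph0 hlt]

end

end Pool.Agent.Lib.MP_410da7_ag
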