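import Pool.Agent.Lib.MP_410da7_ag.Val

/-!
# Initial forms and reduction modulo a valuation
-/

set_option autoImplicit false

namespace Pool.Agent.Lib.MP_410da7_ag

open MvPolynomial WithZero

section comb

variable {N : ℕ}

theorem weight_eq (w : Fin N → ℤ) (e : Fin N →₀ ℕ) :
    Finsupp.weight w e = ∑ l, (e l : ℤ) * w l := by
  rw [Finsupp.weight_apply, Finsupp.sum_fintype _ _ (by simp)]
  simp

/-- the part of weight `μ` -/
noncomputable def wpart (w : Fin N → ℤ) (μ : ℤ) (P : MvPolynomial (Fin N) ℂ) :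
    MvPolynomial (Fin N) ℂ := weightedHomogeneousComponent w μ P

theorem coeff_wpart (w : Fin N → ℤ) (μ : ℤ) (P : MvPolynomial (Fin N) ℂ) (e : Fin N →₀ ℕ) :
    coeff e (wpart w μ P) = if ∑ l, (e l : ℤ) * w l = μ then coeff e P else 0 := by
  rw [wpart, coeff_weightedHomogeneousComponent, weight_eq]

theorem initialPart_spec (w : Fin N → ℤ) (P : MvPolynomial (Fin N) ℂ) (hP : P ≠ 0) :
    ∃ μ : ℤ, (∀ e ∈ P.support, μ ≤ ∑ l, (e l : ℤ) * w l) ∧ initialPart w P = wpart w μ P := by
  classical
  have hne : P.support.Nonempty := by rwa [← MvPolynomial.support_nonempty] at hP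
  obtain ⟨e0, he0, hmin⟩ := Finset.exists_min_image P.support
    (fun e : Fin N →₀ ℕ => ∑ l, (e l : ℤ) * w l) hne
  refine ⟨∑ l, (e0 l : ℤ) * w l, hmin, ?_⟩
  ext e
  rw [coeff_wpart]
  simp only [initialPart, coeff_sum, coeff_monomial]
  rw [Finset.sum_ite_eq']
  simp only [Finset.mem_filter]
  by_cases he : e ∈ P.support
  · simp only [he, true_and]
    by_cases h : ∑ l, (e l : ℤ) * w l = ∑ l, (e0 l : ℤ) * w l
    · rw [if_pos h, if_pos]
      intro e' he'
      rw [h]; exact hmin e' he'
    · rw [if_neg h, if_neg]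
      intro hcon
      exact h (le_antisymm (hcon e0 he0) (hmin e he))
  · rw [notMem_support_iff] at he
    simp [he]

theorem coeff_X_mul_pderiv (l : Fin N) (P : MvPolynomial (Fin N) ℂ) (e : Fin N →₀ ℕ) :
    coeff e (X l * pderiv l P) = (e l : ℂ) * coeff e P := by
  classical
  induction P using MvPolynomial.induction_on' with
  | monomial a c =>
    rw [pderiv_monomial, mul_comm, coeff_mul_X', coeff_monomial, coeff_monomial]
    by_cases hae : a = e
    · subst hae
      by_cases hl : a l = 0
      · simp [hl, Finsupp.mem_support_iff]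
      · simp [hl, Finsupp.mem_support_iff]
        ring
    · rw [if_neg hae, mul_zero]
      split_ifs with h1 h2
      · by_cases hal : a l = 0
        · simp [hal]
        · exfalso
          apply hae
          ext k
          have h3 := DFunLike.congr_fun h2 k
          rw [Finsupp.mem_support_iff] at h1
          simp only [Finsupp.coe_tsub, Pi.sub_apply, Finsupp.single_apply] at h3
          by_cases hk : l = k
          · subst hk; simp at h3; omega
          · simp [hk] at h3; exact h3
      · rfl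
      · rfl
  | add p q hp hq =>
    rw [map_add, mul_add, coeff_add, coeff_add, hp, hq, mul_add]

theorem wpart_X_mul_pderiv (w : Fin N → ℤ) (μ : ℤ) (l : Fin N) (P : MvPolynomial (Fin N) ℂ) :
    wpart w μ (X l * pderiv l P) = X l * pderiv l (wpart w μ P) := by
  ext e
  rw [coeff_wpart, coeff_X_mul_pderiv, coeff_X_mul_pderiv, coeff_wpart]
  split_ifs <;> simp

theorem le_of_mem_support_X_mul_pderiv (w : Fin N → ℤ) (μ : ℤ) (l : Fin N)
    (P : MvPolynomial (Fin N) ℂ) (h : ∀ e ∈ P.support, μ ≤ ∑ l, (e l : ℤ) * w l) :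
    ∀ e ∈ (X l * pderiv l P).support, μ ≤ ∑ l, (e l : ℤ) * w l := by
  intro e he
  apply h
  rw [mem_support_iff, coeff_X_mul_pderiv] at he
  rw [mem_support_iff]
  intro h0
  apply he
  rw [h0, mul_zero]

theorem wpart_monomial (w : Fin N → ℤ) (μ : ℤ) (e : Fin N →₀ ℕ) (c : ℂ) :
    wpart w μ (monomial e c) = if ∑ l, (e l : ℤ) * w l = μ then monomial e c else 0 := by
  classical
  ext d
  rw [coeff_wpart]
  by_cases hd : e = d
  · subst hd
    split_ifs <;> simp
  · split_ifs <;> simp [coeff_monomial, hd]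

theorem wpart_eq_sum (w : Fin N → ℤ) (μ : ℤ) (P : MvPolynomial (Fin N) ℂ) :
    wpart w μ P = ∑ e ∈ P.support, if ∑ l, (e l : ℤ) * w l = μ then monomial e (coeff e P) else 0 := by
  conv_lhs => rw [← support_sum_monomial_coeff P]
  rw [wpart, map_sum]
  exact Finset.sum_congr rfl fun e _ => wpart_monomial w μ e _

end comb

theorem zpow_sum_eq {G ι : Type*} [CommGroupWithZero G] {p : G} (hp : p ≠ 0) (s : Finset ι)
    (a : ι → ℤ) : p ^ (∑ i ∈ s, a i) = ∏ i ∈ s, p ^ (a i) := by
  classical
  induction s using Finset.induction with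
  | empty => simp
  | insert i s hi ih => rw [Finset.sum_insert hi, Finset.prod_insert hi, zpow_add₀ hp, ih]

section reduction

variable {K : Type} [Field K] [Algebra ℂ K] (v : Valuation K ℤᵐ⁰)

/-- constants in the valuation ring -/
noncomputable def cA (hv : ∀ c : ℂ, c ≠ 0 → v (algebraMap ℂ K c) = 1) : ℂ →+* v.valuationSubring where
  toFun c := ⟨algebraMap ℂ K c, (Valuation.mem_valuationSubring_iff v _).2 (by
    by_cases h : c = 0
    · rw [h, map_zero, map_zero]; exact zero_le_one
    · exact (hv c h).le)⟩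
  map_one' := Subtype.ext (map_one _)
  map_mul' a b := Subtype.ext (map_mul _ a b)
  map_zero' := Subtype.ext (map_zero _)
  map_add' a b := Subtype.ext (map_add _ a b)

theorem exists_reduction {N : ℕ} (hv : ∀ c : ℂ, c ≠ 0 → v (algebraMap ℂ K c) = 1) (x : Fin N → K)
    (p : K) (hp0 : p ≠ 0) (hp : v p < 1) (w : Fin N → ℤ) (u : Fin N → v.valuationSubring)
    (hu : ∀ l, (u l : K) * p ^ (w l) = x l) (P : MvPolynomial (Fin N) ℂ) (μ : ℤ)
    (h : ∀ e ∈ P.support, μ ≤ ∑ l, (e l : ℤ) * w l) :
    ∃ a : v.valuationSubring, (a : K) * p ^ μ = aeval x P ∧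
      IsLocalRing.residue v.valuationSubring a =
        eval₂ ((IsLocalRing.residue v.valuationSubring).comp (cA v hv))
          (fun l => IsLocalRing.residue v.valuationSubring (u l)) (wpart w μ P) := by
  classical
  let pA : v.valuationSubring := ⟨p, (Valuation.mem_valuationSubring_iff v _).2 hp.le⟩
  have hpA : IsLocalRing.residue v.valuationSubring pA = 0 := residue_eq_zero_of_val_lt_one v pA hp
  refine ⟨∑ e ∈ P.support, cA v hv (coeff e P) * (∏ l, u l ^ (e l)) *
    pA ^ (∑ l, (e l : ℤ) * w l - μ).toNat, ?_, ?_⟩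
  · have h1 : aeval x P = ∑ e ∈ P.support, algebraMap ℂ K (coeff e P) * ∏ l, x l ^ (e l) := by
      conv_lhs => rw [← support_sum_monomial_coeff P, map_sum]
      refine Finset.sum_congr rfl fun e _ => ?_
      rw [aeval_monomial, Finsupp.prod_fintype _ _ (by simp)]
    rw [h1]
    have h2 : ((∑ e ∈ P.support, cA v hv (coeff e P) * (∏ l, u l ^ (e l)) *
        pA ^ (∑ l, (e l : ℤ) * w l - μ).toNat : v.valuationSubring) : K) =
        ∑ e ∈ P.support, algebraMap ℂ K (coeff e P) * (∏ l, (u l : K) ^ (e l)) *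
        p ^ (∑ l, (e l : ℤ) * w l - μ).toNat := by
      push_cast
      rfl
    rw [h2, Finset.sum_mul]
    refine Finset.sum_congr rfl fun e he => ?_
    have h3 : p ^ (∑ l, (e l : ℤ) * w l - μ).toNat * p ^ μ = ∏ l, (p ^ (w l)) ^ (e l) := by
      rw [← zpow_natCast, Int.toNat_of_nonneg (by linarith [h e he]), ← zpow_add₀ hp0]
      simp only [sub_add_cancel]
      rw [zpow_sum_eq hp0]
      refine Finset.prod_congr rfl fun l _ => ?_
      rw [mul_comm, zpow_mul, zpow_natCast]
    rw [mul_assoc, h3, mul_assoc, ← Finset.prod_mul_distrib]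
    congr 1
    refine Finset.prod_congr rfl fun l _ => ?_
    rw [← mul_pow, hu]
  · rw [wpart_eq_sum, map_sum, eval₂_sum]
    refine Finset.sum_congr rfl fun e he => ?_
    rw [map_mul, map_mul, map_prod, map_pow, hpA]
    simp only [map_pow]
    split_ifs with h1
    · rw [h1, sub_self, Int.toNat_zero, pow_zero, mul_one, eval₂_monomial,
        Finsupp.prod_fintype _ _ (by simp)]
      rfl
    · have h2 : (∑ l, (e l : ℤ) * w l - μ).toNat ≠ 0 := by
        have := h e he
        have h3 : μ < ∑ l, (e l : ℤ) * w l := lt_of_le_of_ne this (Ne.symm h1)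
        omega
      rw [zero_pow h2, mul_zero, eval₂_zero]

end reduction

end Pool.Agent.Lib.MP_410da7_ag
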