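import Pool.Agent.Lib.MP_410da7_ag.Omega
import Pool.Agent.Lib.MP_410da7_ag.DMain

/-!
# The residue form of a complete intersection
-/

set_option autoImplicit false

namespace Pool.Agent.Lib.MP_410da7_ag

open MvPolynomial KaehlerDifferential

section

variable {N r : ℕ} {K : Type} [Field K] [Algebra ℂ K] (x : Fin N → K)
variable (f : Fin r → MvPolynomial (Fin N) ℂ) (G0 : MvPolynomial (Fin N) ℂ)

theorem dim_count {n : ℕ} (u : Fin n → K) (hu : IsTranscendenceBasis ℂ u)
    (H1 : ∀ a : K, ∃ P Q : MvPolynomial (Fin N) ℂ, aeval x Q ≠ 0 ∧ a * aeval x Q = aeval x P)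
    (H2 : ∀ P : MvPolynomial (Fin N) ℂ, aeval x P = 0 →
      ∃ n : ℕ, G0 ^ n * P ∈ Ideal.span (Set.range f))
    (H3 : ∀ k, aeval x (f k) = 0) (H3' : aeval x G0 ≠ 0)
    (H4 : LinearIndependent K (fun k => grad x (f k))) : r + n = N := by
  obtain ⟨b, hb⟩ := exists_kaehlerBasis u hu
  haveI : Module.Finite K Ω[K⁄ℂ] := Module.Finite.of_basis b
  set W := Submodule.span K (Set.range (fun k => grad x (f k))) with hW
  obtain ⟨S, hS⟩ := exists_section x f G0 W (fun k => Submodule.subset_span ⟨k, rfl⟩) H1 H2 H3 H3'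
  have hker : LinearMap.ker (dmap x) = W := by
    apply le_antisymm
    · intro ξ hξ
      rw [LinearMap.mem_ker] at hξ
      have := hS ξ
      rw [hξ, map_zero, Submodule.mkQ_apply] at this
      exact (Submodule.Quotient.mk_eq_zero W).1 this.symm
    · rw [hW, Submodule.span_le]
      rintro _ ⟨k, rfl⟩
      change dmap x (grad x (f k)) = 0
      rw [← D_aeval, H3, map_zero]
  have h1 := LinearMap.finrank_range_add_finrank_ker (dmap x)
  rw [hker, hW, finrank_span_eq_card H4, LinearMap.range_eq_top.2 (dmap_surjective x H1),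
    finrank_top, Module.finrank_eq_card_basis b, Module.finrank_fin_fun] at h1
  simp only [Fintype.card_fin] at h1
  omega

theorem exists_eta {n : ℕ} (u : Fin n → K) (hu : IsTranscendenceBasis ℂ u)
    (H1 : ∀ a : K, ∃ P Q : MvPolynomial (Fin N) ℂ, aeval x Q ≠ 0 ∧ a * aeval x Q = aeval x P)
    (H3 : ∀ k, aeval x (f k) = 0)
    (H4 : LinearIndependent K (fun k => grad x (f k))) (σ : Fin r ⊕ Fin n ≃ Fin N) :
    ∃ η : ⋀[K]^n Ω[K⁄ℂ], η ≠ 0 ∧ ∀ ξ : Fin n → (Fin N → K),
      exteriorPower.ιMulti K n (fun i => dmap x (ξ i)) =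
        (Matrix.det (Matrix.of fun i j => Sum.elim (fun k => grad x (f k)) ξ i (σ j))) • η := by
  classical
  have hcard : r + n = N := by
    have := Fintype.card_congr σ
    simpa using this
  obtain ⟨τ, hτ⟩ := exists_completion (fun k => grad x (f k)) H4 n (by simp [hcard])
  set ξ0 : Fin n → (Fin N → K) := fun i => Pi.single (τ i) 1 with hξ0
  -- basis of `K^N`
  let b : Module.Basis (Fin r ⊕ Fin n) K (Fin N → K) :=
    basisOfLinearIndependentOfCardEqFinrank' _ hτ (by
      rw [Fintype.card_sum, Fintype.card_fin, Fintype.card_fin, hcard, Module.finrank_fin_fun])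
  have hb : ∀ i, b i = Sum.elim (fun k => grad x (f k)) ξ0 i := by
    intro i
    simp only [b, coe_basisOfLinearIndependentOfCardEqFinrank', hξ0]
  obtain ⟨b', hb'⟩ := exists_kaehlerBasis u hu
  haveI : Module.Finite K Ω[K⁄ℂ] := Module.Finite.of_basis b'
  have hT : ∀ ξ : Fin N → K, dmap x ξ = ∑ j, b.repr ξ (Sum.inr j) • dmap x (ξ0 j) := by
    intro ξ
    conv_lhs => rw [← b.sum_repr ξ, map_sum, Fintype.sum_sum_type]
    have h0 : ∀ k : Fin r, dmap x (b.repr ξ (Sum.inl k) • b (Sum.inl k)) = 0 := by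
      intro k
      rw [map_smul, hb, Sum.elim_inl, ← D_aeval, H3, map_zero, smul_zero]
    simp only [h0, Finset.sum_const_zero, zero_add]
    refine Finset.sum_congr rfl fun j _ => ?_
    rw [map_smul, hb, Sum.elim_inr]
  have hspan : ⊤ ≤ Submodule.span K (Set.range fun j => dmap x (ξ0 j)) := by
    intro θ _
    obtain ⟨ξ, rfl⟩ := dmap_surjective x H1 θ
    rw [hT ξ]
    exact Submodule.sum_mem _ fun j _ => Submodule.smul_mem _ _ (Submodule.subset_span ⟨j, rfl⟩)
  let e : Module.Basis (Fin n) K Ω[K⁄ℂ] := basisOfTopLeSpanOfCardEqFinrank _ hspan (by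
    rw [Module.finrank_eq_card_basis b'])
  have he : ∀ j, e j = dmap x (ξ0 j) := by
    intro j
    simp only [e, coe_basisOfTopLeSpanOfCardEqFinrank]
  have hrows : LinearIndependent K (fun i : Fin r ⊕ Fin n => fun j : Fin r ⊕ Fin n =>
      Sum.elim (fun k => grad x (f k)) ξ0 i (σ j)) := by
    have h1 := hτ.map' (LinearMap.funLeft K K σ) (LinearMap.ker_eq_bot.2
      (LinearMap.funLeft_injective_of_surjective K K σ σ.surjective))
    exact h1
  set M0 : Matrix (Fin r ⊕ Fin n) (Fin r ⊕ Fin n) K := Matrix.of fun i j =>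
    Sum.elim (fun k => grad x (f k)) ξ0 i (σ j) with hM0
  have hdet0 : M0.det ≠ 0 := by
    have h1 : LinearIndependent K M0.row := hrows
    rw [Matrix.linearIndependent_rows_iff_isUnit, Matrix.isUnit_iff_isUnit_det] at h1
    exact h1.ne_zero
  refine ⟨M0.det⁻¹ • exteriorPower.ιMulti K n (e : Fin n → Ω[K⁄ℂ]),
    smul_ne_zero (inv_ne_zero hdet0) (iotaMulti_basis_ne_zero e), fun ξ => ?_⟩
  rw [iotaMulti_eq_det e, smul_smul]
  congr 1
  -- compare the determinants
  let α : Matrix (Fin n) (Fin r) K := Matrix.of fun i k => b.repr (ξ i) (Sum.inl k)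
  let β : Matrix (Fin n) (Fin n) K := Matrix.of fun i j => b.repr (ξ i) (Sum.inr j)
  have h1 : e.det (fun i => dmap x (ξ i)) = β.det := by
    rw [Module.Basis.det_apply, ← Matrix.det_transpose]
    congr 1
    ext i j
    rw [Matrix.transpose_apply, Module.Basis.toMatrix_apply]
    rw [hT (ξ i)]
    simp only [← he, map_sum, map_smul, Module.Basis.repr_self, Finsupp.coe_finsetSum,
      Finset.sum_apply, Finsupp.smul_apply, smul_eq_mul, Finsupp.single_apply, β, Matrix.of_apply]
    simp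
  have h2 : (Matrix.of fun i j => Sum.elim (fun k => grad x (f k)) ξ i (σ j)) =
      Matrix.fromBlocks 1 0 α β * M0 := by
    ext i j
    rw [Matrix.mul_apply, Fintype.sum_sum_type]
    rcases i with k | i
    · simp [Matrix.one_apply, hM0]
    · simp only [Matrix.of_apply, Sum.elim_inr, Matrix.fromBlocks_apply₂₁,
        Matrix.fromBlocks_apply₂₂, hM0, α, β, Sum.elim_inl]
      conv_lhs => rw [← b.sum_repr (ξ i), Fintype.sum_sum_type]
      simp [hb]
  rw [h2, Matrix.det_mul, Matrix.det_fromBlocks_zero₁₂, Matrix.det_one, one_mul, h1, mul_assoc,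
    mul_inv_cancel₀ hdet0, mul_one]

end

end Pool.Agent.Lib.MP_410da7_ag
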