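import Pool.Agent.Lib.MP_410da7_ag.Init
import Pool.Agent.Lib.MP_410da7_ag.TopForm

/-!
# The logarithmic lattice at a valuation
-/

set_option autoImplicit false

namespace Pool.Agent.Lib.MP_410da7_ag

open MvPolynomial WithZero KaehlerDifferential

section

variable {N r s n : ℕ} {K : Type} [Field K] [Algebra ℂ K]

theorem linInd_scale {κ : Type} [Field κ] {ρ : Type} (c : Fin N → κ) (hc : ∀ l, c l ≠ 0)
    (Y : ρ → (Fin N → κ)) (hY : LinearIndependent κ Y) :
    LinearIndependent κ (fun a l => c l * Y a l) := by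
  have h1 := hY.map' (LinearMap.pi (fun l => c l • LinearMap.proj l) :
      (Fin N → κ) →ₗ[κ] (Fin N → κ)) (by
    rw [LinearMap.ker_eq_bot']
    intro m hm
    funext l
    have := congrFun hm l
    simp only [LinearMap.pi_apply, LinearMap.smul_apply, LinearMap.proj_apply, smul_eq_mul,
      Pi.zero_apply, mul_eq_zero] at this
    exact this.resolve_left (hc l))
  exact h1

theorem log_case (v : Valuation K ℤᵐ⁰) (hv : ∀ c : ℂ, c ≠ 0 → v (algebraMap ℂ K c) = 1)
    (hnt : ∃ a : K, a ≠ 0 ∧ v a ≠ 1) (x : Fin N → K) (hx : ∀ l, x l ≠ 0)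
    (f : Fin r → MvPolynomial (Fin N) ℂ) (g : Fin s → MvPolynomial (Fin N) ℂ)
    (hf0 : ∀ k, f k ≠ 0) (hg0 : ∀ j, g j ≠ 0) (hnd : Nondegenerate f g)
    (H3 : ∀ k, aeval x (f k) = 0) (H3g : ∀ j, aeval x (g j) ≠ 0) (σ : Fin r ⊕ Fin n ≃ Fin N) :
    ∃ (ξ : Fin n → (Fin N → K)) (t : ℤᵐ⁰) (w : Fin N → ℤ) (μ : Fin r → ℤ) (ν : Fin s → ℤ),
      t ≠ 0 ∧ t < 1 ∧ (∀ l, v (x l) = t ^ (w l)) ∧
      (∀ k, ∀ e ∈ (f k).support, μ k ≤ ∑ l, (e l : ℤ) * w l) ∧
      (∀ j, ∀ e ∈ (g j).support, ν j ≤ ∑ l, (e l : ℤ) * w l) ∧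
      (∀ i, dmap x (ξ i) ∈ logDiff v) ∧
      v (Matrix.det (Matrix.of fun i j => Sum.elim (fun k => grad x (f k)) ξ i (σ j))) *
        (∏ l, v (x l)) * (∏ j, v (aeval x (g j))) = t ^ (∑ k, μ k + ∑ j, ν j) := by
  classical
  have hcard : r + n = N := by
    have := Fintype.card_congr σ
    simpa using this
  obtain ⟨p, hp0, hp1, hpk⟩ := exists_unif v hnt
  choose w hw using fun l => hpk (x l) (hx l)
  have hvp : v p ≠ 0 := by rwa [Valuation.ne_zero_iff]
  have hu1 : ∀ l, v (x l * (p ^ (w l))⁻¹) = 1 := by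
    intro l
    rw [map_mul, map_inv₀, map_zpow₀, hw, mul_inv_cancel₀ (zpow_ne_zero _ hvp)]
  let u : Fin N → v.valuationSubring := fun l =>
    ⟨x l * (p ^ (w l))⁻¹, (Valuation.mem_valuationSubring_iff v _).2 (hu1 l).le⟩
  have hu : ∀ l, (u l : K) * p ^ (w l) = x l := by
    intro l
    change x l * (p ^ (w l))⁻¹ * p ^ (w l) = x l
    rw [mul_assoc, inv_mul_cancel₀ (zpow_ne_zero _ hp0), mul_one]
  choose μ hμ hμ' using fun k => initialPart_spec w (f k) (hf0 k)
  choose ν hν hν' using fun j => initialPart_spec w (g j) (hg0 j)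
  set φ : ℂ →+* IsLocalRing.ResidueField v.valuationSubring :=
    (IsLocalRing.residue v.valuationSubring).comp (cA v hv) with hφ
  set ub : Fin N → IsLocalRing.ResidueField v.valuationSubring :=
    fun l => IsLocalRing.residue v.valuationSubring (u l) with hub
  have hub0 : ∀ l, ub l ≠ 0 := by
    intro l h0
    have := val_lt_one_of_residue_eq_zero v (u l) h0
    exact absurd (hu1 l) this.ne
  have red := exists_reduction v hv x p hp0 hp1 w u hu
  choose a ha ha' using fun (k : Fin r) (l : Fin N) => red (X l * pderiv l (f k)) (μ k)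
    (le_of_mem_support_X_mul_pderiv w (μ k) l (f k) (hμ k))
  choose b hb hb' using fun (j : Fin s) (l : Fin N) => red (X l * pderiv l (g j)) (ν j)
    (le_of_mem_support_X_mul_pderiv w (ν j) l (g j) (hν j))
  choose c hc hc' using fun (j : Fin s) => red (g j) (ν j) (hν j)
  have hf : ∀ k, eval₂ φ ub (initialPart w (f k)) = 0 := by
    intro k
    obtain ⟨d, hd, hd'⟩ := red (f k) (μ k) (hμ k)
    rw [H3] at hd
    have hd0 : d = 0 := by
      apply Subtype.ext
      rcases mul_eq_zero.1 hd with h | h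
      · exact h
      · exact absurd h (zpow_ne_zero _ hp0)
    rw [hμ' k, ← hd', hd0, map_zero]
  let J : Finset (Fin s) := Finset.univ.filter
    (fun j => IsLocalRing.residue v.valuationSubring (c j) = 0)
  have hJ : ∀ j, j ∈ J ↔ IsLocalRing.residue v.valuationSubring (c j) = 0 := by
    intro j; simp [J]
  have hg : ∀ j ∈ J, eval₂ φ ub (initialPart w (g j)) = 0 := by
    intro j hj
    rw [hν' j, ← hc' j]
    exact (hJ j).1 hj
  letI : Algebra ℂ (IsLocalRing.ResidueField v.valuationSubring) := φ.toAlgebra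
  have haev : ∀ P : MvPolynomial (Fin N) ℂ, aeval ub P = eval₂ φ ub P := fun P => rfl
  -- transfer of nondegeneracy
  let M : Fin r ⊕ J → Fin N → MvPolynomial (Fin N) ℂ := Sum.elim
    (fun k l => pderiv l (initialPart w (f k))) (fun j l => pderiv l (initialPart w (g j)))
  have hLI := linInd_transfer
    (Set.range (fun k => initialPart w (f k)) ∪ (fun j => initialPart w (g j)) '' (J : Set (Fin s)))
    (∏ l, X l) M (by
      intro y hy hyB
      have hy0 : ∀ l, y l ≠ 0 := by
        rw [map_prod] at hyB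
        simp only [eval_X] at hyB
        exact fun l => (Finset.prod_ne_zero_iff.1 hyB) l (Finset.mem_univ l)
      have := hnd w J y hy0 (fun k => hy _ (Or.inl ⟨k, rfl⟩))
        (fun j hj => hy _ (Or.inr ⟨j, hj, rfl⟩))
      convert this using 1
      funext i
      rcases i with k | j <;> rfl) ub (by
      rintro P (⟨k, rfl⟩ | ⟨j, hj, rfl⟩)
      · exact hf k
      · exact hg j hj) (by
      rw [map_prod]
      simp only [aeval_X]
      exact Finset.prod_ne_zero_iff.2 fun l _ => hub0 l)
  have hLI2 := linInd_scale ub hub0 _ hLI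
  have hcardJ : r + Fintype.card J ≤ N := by
    have := hLI2.fintype_card_le_finrank
    simpa using this
  obtain ⟨q, hq⟩ : ∃ q, q + Fintype.card J = n := ⟨n - Fintype.card J, by omega⟩
  obtain ⟨τ, hτ⟩ := exists_completion _ hLI2 q (by
    rw [Fintype.card_sum, Fintype.card_fin]; omega)
  let ρ : Fin n ≃ J ⊕ Fin q := Fintype.equivOfCardEq (by
    rw [Fintype.card_fin, Fintype.card_sum, Fintype.card_fin]; omega)
  let ξ' : J ⊕ Fin q → (Fin N → K) := Sum.elim
    (fun j => (aeval x (g j))⁻¹ • grad x (g j)) (fun i => (x (τ i))⁻¹ • Pi.single (τ i) 1)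
  let E : Fin r ⊕ Fin n ≃ Fin r ⊕ (J ⊕ Fin q) := Equiv.sumCongr (Equiv.refl _) ρ
  let σ' : Fin r ⊕ (J ⊕ Fin q) ≃ Fin N := E.symm.trans σ
  let S : Matrix (Fin r ⊕ (J ⊕ Fin q)) (Fin r ⊕ (J ⊕ Fin q)) K :=
    Matrix.of fun i j => Sum.elim (fun k => grad x (f k)) ξ' i (σ' j)
  let α : Fin r ⊕ (J ⊕ Fin q) → K := Sum.elim (fun k => p ^ (μ k))
    (Sum.elim (fun j => (aeval x (g j))⁻¹ * p ^ (ν j)) (fun _ => 1))
  let Y : Fin r ⊕ (J ⊕ Fin q) → Fin N → v.valuationSubring := Sum.elim (fun k => a k)
    (Sum.elim (fun j => b j) (fun i => Pi.single (τ i) 1))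
  refine ⟨fun i => ξ' (ρ i), v p, w, μ, ν, hvp, hp1, hw, hμ, hν, ?_, ?_⟩
  · intro i
    change dmap x (ξ' (ρ i)) ∈ _
    cases ρ i with
    | inl j =>
      change dmap x ((aeval x (g j))⁻¹ • grad x (g j)) ∈ _
      rw [map_smul, ← D_aeval]
      exact AddSubgroup.subset_closure (Or.inr ⟨1, _, (map_one v).le, H3g j, by rw [one_div]⟩)
    | inr i =>
      change dmap x ((x (τ i))⁻¹ • Pi.single (τ i) 1) ∈ _
      rw [map_smul, dmap_single, one_smul]
      exact AddSubgroup.subset_closure (Or.inr ⟨1, _, (map_one v).le, hx _, by rw [one_div]⟩)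
  · have h1 : (Matrix.of fun i j => Sum.elim (fun k => grad x (f k))
        (fun i => ξ' (ρ i)) i (σ j)) = S.submatrix E E := by
      ext i j
      simp only [Matrix.submatrix_apply, S, Matrix.of_apply, σ', Equiv.trans_apply,
        Equiv.symm_apply_apply]
      rcases i with k | i <;> rfl
    rw [h1, Matrix.det_submatrix_equiv_self]
    have h2 := val_det v S α (fun j => x (σ' j)) (Matrix.of fun i j => Y i (σ' j)) ?_ ?_
    · rw [Fintype.prod_equiv σ' (fun j => v (x (σ' j))) (fun l => v (x l)) (fun j => rfl)] at h2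
      rw [h2, Fintype.prod_sum_type, Fintype.prod_sum_type]
      simp only [α, Sum.elim_inl, Sum.elim_inr, map_one, Finset.prod_const_one, mul_one,
        map_zpow₀, map_mul, map_inv₀]
      rw [zpow_add₀ hvp, zpow_sum_eq hvp, zpow_sum_eq hvp, mul_assoc]
      congr 1
      rw [← Finset.prod_filter_mul_prod_filter_not Finset.univ (fun j => j ∈ J)
        (fun j => v (aeval x (g j))), ← Finset.prod_filter_mul_prod_filter_not Finset.univ
        (fun j => j ∈ J) (fun j => v p ^ ν j)]
      have h3 : ∏ j : J, ((v (aeval x (g j)))⁻¹ * v p ^ ν j) =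
          ∏ j ∈ Finset.univ.filter (fun j => j ∈ J), ((v (aeval x (g j)))⁻¹ * v p ^ ν j) := by
        rw [Finset.filter_mem_eq_inter, Finset.univ_inter]
        exact Finset.prod_coe_sort J (fun j => (v (aeval x (g j)))⁻¹ * v p ^ ν j)
      rw [h3, ← mul_assoc, ← Finset.prod_mul_distrib]
      congr 1
      · refine Finset.prod_congr rfl fun j _ => ?_
        have : v (aeval x (g j)) ≠ 0 := by rw [Valuation.ne_zero_iff]; exact H3g j
        rw [mul_comm, ← mul_assoc, mul_inv_cancel₀ this, one_mul]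
      · refine Finset.prod_congr rfl fun j hj => ?_
        have hj' : j ∉ J := (Finset.mem_filter.1 hj).2
        rw [hJ] at hj'
        rw [← hc j, map_mul, val_eq_one_of_residue_ne_zero v (c j) hj', one_mul, map_zpow₀]
    · intro i j
      simp only [Matrix.of_apply, S]
      generalize σ' j = l
      rcases i with k | j | i
      · simp only [Sum.elim_inl, α, Y, grad]
        have := ha k l
        rw [map_mul, aeval_X] at this
        rw [mul_comm (p ^ μ k), this, mul_comm]
      · simp only [Sum.elim_inl, Sum.elim_inr, α, Y, grad, ξ', Pi.smul_apply, smul_eq_mul]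
        have := hb j l
        rw [map_mul, aeval_X] at this
        rw [mul_assoc, mul_assoc, mul_comm (p ^ ν j), this, mul_comm (x l)]
      · simp only [Sum.elim_inr, α, Y, ξ', Pi.smul_apply, smul_eq_mul, one_mul]
        by_cases hl : l = τ i
        · subst hl
          simp [hx]
        · simp [hl]
    · have h4 : LinearIndependent (IsLocalRing.ResidueField v.valuationSubring)
          (fun (i : Fin r ⊕ (J ⊕ Fin q)) (l : Fin N) =>
            IsLocalRing.residue v.valuationSubring (Y i l)) := by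
        have h5 := (linearIndependent_equiv (Equiv.sumAssoc (Fin r) J (Fin q)).symm).2 hτ
        convert h5 using 1
        funext i l
        rcases i with k | j | i
        · simp only [Y, Sum.elim_inl, ha', Function.comp_apply, Equiv.sumAssoc_symm_apply_inl, M,
            wpart_X_mul_pderiv, eval₂_mul, eval₂_X, haev, hμ']
          rfl
        · simp only [Y, Sum.elim_inl, Sum.elim_inr, hb', Function.comp_apply,
            Equiv.sumAssoc_symm_apply_inr_inl, M, wpart_X_mul_pderiv, eval₂_mul, eval₂_X, haev, hν']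
          rfl
        · simp only [Y, Sum.elim_inr, Function.comp_apply, Equiv.sumAssoc_symm_apply_inr_inr]
          by_cases hl : l = τ i
          · subst hl; simp
          · simp [hl]
      have h6 := h4.map' (LinearMap.funLeft _ _ σ') (LinearMap.ker_eq_bot.2
        (LinearMap.funLeft_injective_of_surjective _ _ σ' σ'.surjective))
      exact h6

end

end Pool.Agent.Lib.MP_410da7_ag
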