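import Pool.Agent.Lib.MP_410da7_ag.Statement

/-!
# MP_410da7_ag: polynomial curves on varieties of low weighted degree

Let `f₁,…,f_r` and `g₁,…,g_s` be arbitrary complex polynomials in `N` variables, and let
`X = {f₁ = ⋯ = f_r = 0, g₁ ⋯ g_s ≠ 0} ⊆ 𝔸^N` (singular and reducible `X` allowed). If there is a
weight `w ∈ ℕ^N` with `∑ deg_w f_k + ∑ deg_w g_j < ∑ w_l`, then through every point of `X` passes
the image of a nonconstant morphism `𝔸¹ → X`, with coordinates of degree at most `w_l`. If `X` is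
integral, then moreover `X` is `𝔸¹`-uniruled and `κ̄(X) = -∞`.

The definitions are in `Pool.Agent.Lib.MP_410da7_ag.Defs` (`A1Uniruled`, `LogKodairaNegInf`,
`IsCoordRing`) and `Pool.Agent.Lib.MP_410da7_ag.Statement` (`Points`, `LowDegree`,
`OnAffineLine`). `isCoordRing_coordRing` and `exists_equiv` in
`Pool.Agent.Lib.MP_410da7_ag.Final` show that the localization `ℂ[x]/(f)[1/∏ g]` is, up to
isomorphism, the only coordinate ring in the sense of `IsCoordRing`.
-/

set_option autoImplicit false

namespace Pool.Agent.Lib.MP_410da7_ag.LowDegreeCurves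

open MvPolynomial Pool.Agent.Lib.MP_410da7_ag

theorem result {N r s : ℕ} (f : Fin r → MvPolynomial (Fin N) ℂ)
    (g : Fin s → MvPolynomial (Fin N) ℂ) (w : Fin N → ℕ) (hw : LowDegree f g w) :
    (∀ u ∈ Points f g, OnAffineLine f g w u) ∧
    ∀ (R K : Type) [CommRing R] [IsDomain R] [Algebra ℂ R] [Field K] [Algebra R K]
      [IsFractionRing R K] [Algebra ℂ K] [IsScalarTower ℂ R K] (x : Fin N → R),
      IsCoordRing f g x → A1Uniruled R ∧ LogKodairaNegInf R K := by
  refine ⟨fun u hu => onAffineLine f g w hw u hu, ?_⟩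
  intro R K _ _ _ _ _ _ _ _ x hR
  have h := a1Uniruled_of_isCoordRing (K := K) f g x hR w hw
  exact ⟨h, logKodairaNegInf_of_a1Uniruled h⟩

end Pool.Agent.Lib.MP_410da7_ag.LowDegreeCurves
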