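import Mathlib

set_option autoImplicit false

namespace Pool.Agent.Lib.MP_410da7_ag

/-- Farkas' lemma over `ℚ` (Bartl's algebraic proof by induction on the number of inequalities). -/
theorem farkas {V : Type*} [AddCommGroup V] [Module ℚ V] {J : Type*} (s : Finset J) :
    ∀ (a : J → V →ₗ[ℚ] ℚ) (b : V →ₗ[ℚ] ℚ),
      (∀ x, (∀ j ∈ s, 0 ≤ a j x) → 0 ≤ b x) →
      ∃ u : J → ℚ, (∀ j, 0 ≤ u j) ∧ b = ∑ j ∈ s, u j • a j := by
  classical
  induction s using Finset.induction_on with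
  | empty =>
    intro a b h
    refine ⟨fun _ => 0, fun _ => le_rfl, ?_⟩
    ext x
    have h1 := h x (by simp)
    have h2 := h (-x) (by simp)
    rw [map_neg] at h2
    simp
    linarith
  | insert j₀ s hj₀ ih =>
    intro a b h
    by_cases hc : ∀ x, (∀ j ∈ s, 0 ≤ a j x) → 0 ≤ b x
    · obtain ⟨u, hu, hb⟩ := ih a b hc
      refine ⟨fun j => if j = j₀ then 0 else u j, fun j => by dsimp only; split_ifs; exacts [le_rfl, hu j], ?_⟩
      rw [Finset.sum_insert hj₀]
      dsimp only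
      rw [if_pos rfl, zero_smul, zero_add, hb]
      apply Finset.sum_congr rfl
      intro j hj
      rw [if_neg]
      rintro rfl
      exact hj₀ hj
    · push Not at hc
      obtain ⟨y, hy, hby⟩ := hc
      have hay : a j₀ y < 0 := by
        by_contra hcon
        push Not at hcon
        have := h y (by
          intro j hj
          rcases Finset.mem_insert.mp hj with rfl | hj
          · exact hcon
          · exact hy j hj)
        linarith
      -- scaled vector
      set t : ℚ := (- a j₀ y)⁻¹ with ht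
      have ht0 : 0 < t := by rw [ht]; exact inv_pos.mpr (by linarith)
      set x₀ : V := t • y with hx₀
      have hax₀ : a j₀ x₀ = -1 := by
        rw [hx₀, map_smul, smul_eq_mul, ht]
        rw [inv_neg, neg_mul, inv_mul_cancel₀ hay.ne]
      have hx₀s : ∀ j ∈ s, 0 ≤ a j x₀ := by
        intro j hj
        rw [hx₀, map_smul, smul_eq_mul]
        exact mul_nonneg ht0.le (hy j hj)
      have hbx₀ : b x₀ < 0 := by
        rw [hx₀, map_smul, smul_eq_mul]
        exact mul_neg_of_pos_of_neg ht0 hby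
      obtain ⟨u, hu, hb⟩ := ih (fun j => a j + (a j x₀) • a j₀) (b + (b x₀) • a j₀) (by
        intro x hx
        have h1 := h (x + (a j₀ x) • x₀) (by
          intro j hj
          rcases Finset.mem_insert.mp hj with rfl | hj
          · simp [hax₀]
          · have := hx j hj
            simp only [LinearMap.add_apply, LinearMap.smul_apply, smul_eq_mul] at this
            simp only [map_add, map_smul, smul_eq_mul]
            linarith)
        simp only [map_add, map_smul, smul_eq_mul] at h1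
        simp only [LinearMap.add_apply, LinearMap.smul_apply, smul_eq_mul]
        linarith)
      refine ⟨fun j => if j = j₀ then (∑ i ∈ s, u i * a i x₀) - b x₀ else u j, ?_, ?_⟩
      · intro j
        dsimp only
        split_ifs
        · have : 0 ≤ ∑ i ∈ s, u i * a i x₀ :=
            Finset.sum_nonneg (fun i hi => mul_nonneg (hu i) (hx₀s i hi))
          linarith
        · exact hu j
      · rw [Finset.sum_insert hj₀]
        dsimp only
        rw [if_pos rfl]
        have h1 : ∑ j ∈ s, (if j = j₀ then (∑ i ∈ s, u i * a i x₀) - b x₀ else u j) • a j =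
            ∑ j ∈ s, u j • a j := by
          apply Finset.sum_congr rfl
          intro j hj
          rw [if_neg]
          rintro rfl
          exact hj₀ hj
        rw [h1]
        ext x
        have h2 := congrArg (fun f : V →ₗ[ℚ] ℚ => f x) hb
        simp only [LinearMap.add_apply, LinearMap.smul_apply, smul_eq_mul,
          LinearMap.coe_sum, Finset.sum_apply] at h2 ⊢
        have h3 : ∑ c ∈ s, u c * (a c x + a c x₀ * a j₀ x) =
            ∑ c ∈ s, u c * a c x + (∑ i ∈ s, u i * a i x₀) * a j₀ x := by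
          rw [Finset.sum_mul, ← Finset.sum_add_distrib]
          apply Finset.sum_congr rfl
          intro c _
          ring
        rw [h3] at h2
        linarith

/-- finitely many nonnegative rationals have a common denominator -/
lemma exists_common_den {J : Type*} (s : Finset J) (u : J → ℚ) (hu : ∀ j, 0 ≤ u j) :
    ∃ (m : ℕ) (c : J → ℕ), 0 < m ∧ ∀ j ∈ s, (c j : ℚ) = m * u j := by
  classical
  refine ⟨∏ j ∈ s, (u j).den, fun j => ((∏ i ∈ s, (u i).den : ℕ) * u j).num.toNat, ?_, ?_⟩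
  · exact Finset.prod_pos (fun j _ => (u j).den_pos)
  · intro j hj
    obtain ⟨k, hk⟩ := Finset.dvd_prod_of_mem (fun j => (u j).den) hj
    have h1 : ((∏ i ∈ s, (u i).den : ℕ) : ℚ) * u j = ((k * (u j).num : ℤ) : ℚ) := by
      rw [hk]
      push_cast
      have h2 : (((u j).den : ℕ) : ℚ) * u j = (u j).num := by
        have := Rat.den_mul_eq_num (u j)
        exact_mod_cast this
      calc ((u j).den : ℚ) * (k : ℚ) * u j = k * (((u j).den : ℚ) * u j) := by ring
        _ = _ := by rw [h2]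
    have h3 : 0 ≤ (k : ℤ) * (u j).num := by
      have := Rat.num_nonneg.mpr (hu j)
      positivity
    have h4 : ((((∏ i ∈ s, (u i).den : ℕ) : ℚ) * u j).num.toNat : ℤ) = k * (u j).num := by
      rw [h1, Rat.num_intCast, Int.toNat_of_nonneg h3]
    rw [h1]
    exact_mod_cast h4

theorem minimax {N : ℕ} {ι : Type} [Fintype ι] (S : ι → Finset (Fin N →₀ ℕ))
    (hS : ∀ i, (S i).Nonempty)
    (h : ∀ w : Fin N → ℕ, ∑ l, w l ≤ ∑ i, (S i).sup (fun e => ∑ l, w l * e l)) :
    ∃ (m : ℕ) (c : ι → (Fin N →₀ ℕ) → ℕ), 0 < m ∧ (∀ i, ∑ e ∈ S i, c i e = m) ∧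
      ∀ l, m ≤ ∑ i, ∑ e ∈ S i, c i e * e l := by
  classical
  obtain ⟨s, hs⟩ : ∃ s : Finset ((Σ _ : ι, (Fin N →₀ ℕ)) ⊕ Fin N),
    s = (Finset.univ.sigma S).disjSum Finset.univ := ⟨_, rfl⟩
  let a : ((Σ _ : ι, (Fin N →₀ ℕ)) ⊕ Fin N) → ((Fin N → ℚ) × (ι → ℚ)) →ₗ[ℚ] ℚ := Sum.elim
    (fun p => (LinearMap.proj p.1 : (ι → ℚ) →ₗ[ℚ] ℚ) ∘ₗ LinearMap.snd ℚ (Fin N → ℚ) (ι → ℚ) -
      ∑ l, ((p.2 l : ℕ) : ℚ) • ((LinearMap.proj l : (Fin N → ℚ) →ₗ[ℚ] ℚ) ∘ₗ
        LinearMap.fst ℚ (Fin N → ℚ) (ι → ℚ)))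
    (fun l => (LinearMap.proj l : (Fin N → ℚ) →ₗ[ℚ] ℚ) ∘ₗ LinearMap.fst ℚ (Fin N → ℚ) (ι → ℚ))
  let b : ((Fin N → ℚ) × (ι → ℚ)) →ₗ[ℚ] ℚ := (∑ i, (LinearMap.proj i : (ι → ℚ) →ₗ[ℚ] ℚ) ∘ₗ
      LinearMap.snd ℚ (Fin N → ℚ) (ι → ℚ)) -
      ∑ l, (LinearMap.proj l : (Fin N → ℚ) →ₗ[ℚ] ℚ) ∘ₗ LinearMap.fst ℚ (Fin N → ℚ) (ι → ℚ)
  have ha1 : ∀ (p : Σ _ : ι, (Fin N →₀ ℕ)) (x : ((Fin N → ℚ) × (ι → ℚ))), a (Sum.inl p) x =
      x.2 p.1 - ∑ l, ((p.2 l : ℕ) : ℚ) * x.1 l := by
    intro p x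
    simp [a]
  have ha2 : ∀ (l : Fin N) (x : ((Fin N → ℚ) × (ι → ℚ))), a (Sum.inr l) x = x.1 l := by
    intro l x
    simp [a]
  have hb : ∀ x : ((Fin N → ℚ) × (ι → ℚ)), b x = ∑ i, x.2 i - ∑ l, x.1 l := by
    intro x
    simp [b]
  obtain ⟨u, hu, hub⟩ := farkas s a b (by
    intro x hx
    have hw : ∀ l, 0 ≤ x.1 l := by
      intro l
      have := hx (Sum.inr l) (by rw [hs, Finset.mem_disjSum]; right; exact ⟨_, Finset.mem_univ _, rfl⟩)
      rwa [ha2] at this
    have hz : ∀ i, ∀ e ∈ S i, ∑ l, ((e l : ℕ) : ℚ) * x.1 l ≤ x.2 i := by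
      intro i e he
      have := hx (Sum.inl ⟨i, e⟩) (by rw [hs, Finset.mem_disjSum]; left; exact ⟨_, Finset.mem_sigma.mpr ⟨Finset.mem_univ _, he⟩, rfl⟩)
      rw [ha1] at this
      simp only at this
      linarith
    obtain ⟨m, c, hm, hc⟩ := exists_common_den Finset.univ x.1 hw
    have h1 := h c
    have h2 : ∀ i, (((S i).sup (fun e => ∑ l, c l * e l) : ℕ) : ℚ) ≤ m * x.2 i := by
      intro i
      obtain ⟨e, he, hee⟩ := Finset.exists_mem_eq_sup (S i) (hS i) (fun e => ∑ l, c l * e l)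
      rw [hee]
      push_cast
      have h3 := hz i e he
      have hm0 : (0 : ℚ) ≤ m := by positivity
      have h4 := mul_le_mul_of_nonneg_left h3 hm0
      refine le_trans (le_of_eq ?_) h4
      rw [Finset.mul_sum]
      apply Finset.sum_congr rfl
      intro l _
      rw [hc l (Finset.mem_univ l)]
      ring
    have h5 : (m : ℚ) * ∑ l, x.1 l ≤ m * ∑ i, x.2 i := by
      calc (m : ℚ) * ∑ l, x.1 l = ((∑ l, c l : ℕ) : ℚ) := by
            push_cast
            rw [Finset.mul_sum]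
            exact Finset.sum_congr rfl (fun l hl => (hc l hl).symm)
        _ ≤ ((∑ i, (S i).sup (fun e => ∑ l, c l * e l) : ℕ) : ℚ) := by exact_mod_cast h1
        _ = ∑ i, (((S i).sup (fun e => ∑ l, c l * e l) : ℕ) : ℚ) := by push_cast; rfl
        _ ≤ ∑ i, (m : ℚ) * x.2 i := Finset.sum_le_sum (fun i _ => h2 i)
        _ = m * ∑ i, x.2 i := by rw [Finset.mul_sum]
    have hm0 : (0 : ℚ) < m := by exact_mod_cast hm
    have h6 := le_of_mul_le_mul_left h5 hm0
    rw [hb]
    linarith)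
  have hsum : ∀ x : ((Fin N → ℚ) × (ι → ℚ)), b x = (∑ i, ∑ e ∈ S i, u (Sum.inl ⟨i, e⟩) *
      (x.2 i - ∑ l, ((e l : ℕ) : ℚ) * x.1 l)) + ∑ l, u (Sum.inr l) * x.1 l := by
    intro x
    have h1 := congrArg (fun f : ((Fin N → ℚ) × (ι → ℚ)) →ₗ[ℚ] ℚ => f x) hub
    simp only [LinearMap.coe_sum, Finset.sum_apply, LinearMap.smul_apply, smul_eq_mul] at h1
    rw [h1]
    rw [hs, Finset.sum_disjSum, Finset.sum_sigma]
    simp only [ha1, ha2]
  obtain ⟨m, c, hm, hc⟩ := exists_common_den s u hu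
  have hcs : ∀ i, ∀ e ∈ S i, (c (Sum.inl ⟨i, e⟩) : ℚ) = m * u (Sum.inl ⟨i, e⟩) := by
    intro i e he
    exact hc _ (by rw [hs, Finset.mem_disjSum]; left; exact ⟨_, Finset.mem_sigma.mpr ⟨Finset.mem_univ _, he⟩, rfl⟩)
  refine ⟨m, fun i e => c (Sum.inl ⟨i, e⟩), hm, ?_, ?_⟩
  · intro i
    have h1 := hsum (0, Pi.single i 1)
    rw [hb] at h1
    simp only [Pi.zero_apply, mul_zero, Finset.sum_const_zero, sub_zero, add_zero] at h1
    rw [Finset.sum_pi_single' i (1 : ℚ) Finset.univ, if_pos (Finset.mem_univ i)] at h1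
    have h2 : ∑ j, ∑ e ∈ S j, u (Sum.inl ⟨j, e⟩) * (Pi.single i 1 : ι → ℚ) j =
        ∑ e ∈ S i, u (Sum.inl ⟨i, e⟩) := by
      rw [Finset.sum_eq_single i]
      · simp
      · intro j _ hj
        simp [Pi.single_eq_of_ne hj]
      · intro hi; exact absurd (Finset.mem_univ i) hi
    rw [h2] at h1
    have h3 : ((∑ e ∈ S i, c (Sum.inl ⟨i, e⟩) : ℕ) : ℚ) = m := by
      push_cast
      rw [Finset.sum_congr rfl (hcs i), ← Finset.mul_sum, ← h1, mul_one]
    exact_mod_cast h3
  · intro l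
    have h1 := hsum (Pi.single l 1, 0)
    rw [hb] at h1
    simp only [Pi.zero_apply, Finset.sum_const_zero, zero_sub] at h1
    rw [Finset.sum_pi_single' l (1 : ℚ) Finset.univ, if_pos (Finset.mem_univ l)] at h1
    have h2 : ∀ e : Fin N →₀ ℕ, ∑ j, ((e j : ℕ) : ℚ) * (Pi.single l 1 : Fin N → ℚ) j = e l := by
      intro e
      rw [Finset.sum_eq_single l]
      · simp
      · intro j _ hj
        simp [Pi.single_eq_of_ne hj]
      · intro hi; exact absurd (Finset.mem_univ l) hi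
    have h3 : ∑ j, u (Sum.inr j) * (Pi.single l 1 : Fin N → ℚ) j = u (Sum.inr l) := by
      rw [Finset.sum_eq_single l]
      · simp
      · intro j _ hj
        simp [Pi.single_eq_of_ne hj]
      · intro hi; exact absurd (Finset.mem_univ l) hi
    simp only [h2, h3] at h1
    have h4 : (1 : ℚ) ≤ ∑ i, ∑ e ∈ S i, u (Sum.inl ⟨i, e⟩) * (e l : ℚ) := by
      have h5 : ∑ i, ∑ e ∈ S i, u (Sum.inl ⟨i, e⟩) * -(e l : ℚ) =
          -∑ i, ∑ e ∈ S i, u (Sum.inl ⟨i, e⟩) * (e l : ℚ) := by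
        rw [← Finset.sum_neg_distrib]
        apply Finset.sum_congr rfl
        intro i _
        rw [← Finset.sum_neg_distrib]
        apply Finset.sum_congr rfl
        intro e _
        ring
      rw [h5] at h1
      have := hu (Sum.inr l)
      linarith
    have h6 : (m : ℚ) ≤ ((∑ i, ∑ e ∈ S i, c (Sum.inl ⟨i, e⟩) * e l : ℕ) : ℚ) := by
      push_cast
      calc (m : ℚ) = m * 1 := by ring
        _ ≤ m * ∑ i, ∑ e ∈ S i, u (Sum.inl ⟨i, e⟩) * (e l : ℚ) :=
            mul_le_mul_of_nonneg_left h4 (by positivity)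
        _ = _ := by
            rw [Finset.mul_sum]
            apply Finset.sum_congr rfl
            intro i _
            rw [Finset.mul_sum]
            apply Finset.sum_congr rfl
            intro e he
            rw [hcs i e he]
            ring
    exact_mod_cast h6

end Pool.Agent.Lib.MP_410da7_ag
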