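import Pool.Agent.Lib.MP_410da7_ag.LogCase

/-!
# The regular lattice at a valuation with center on `X`
-/

set_option autoImplicit false

namespace Pool.Agent.Lib.MP_410da7_ag

open MvPolynomial WithZero KaehlerDifferential

section

variable {N r s n : ℕ} {K : Type} [Field K] [Algebra ℂ K]

theorem regDiff_le_logDiff (v : Valuation K ℤᵐ⁰) : regDiff v ≤ logDiff v :=
  AddSubgroup.closure_mono Set.subset_union_left

theorem reg_case (v : Valuation K ℤᵐ⁰) (hv : ∀ c : ℂ, c ≠ 0 → v (algebraMap ℂ K c) = 1)
    (x : Fin N → K) (f : Fin r → MvPolynomial (Fin N) ℂ) (g : Fin s → MvPolynomial (Fin N) ℂ)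
    (hsm : ∀ u : Fin N → ℂ, (∀ k, eval u (f k) = 0) → (∀ j, eval u (g j) ≠ 0) →
      LinearIndependent ℂ (fun (k : Fin r) (l : Fin N) => eval u (pderiv l (f k))))
    (hxv : ∀ l, v (x l) ≤ 1) (hgv : ∀ j, v (aeval x (g j)) = 1)
    (H3 : ∀ k, aeval x (f k) = 0) (σ : Fin r ⊕ Fin n ≃ Fin N) :
    ∃ ξ : Fin n → (Fin N → K), (∀ i, dmap x (ξ i) ∈ regDiff v) ∧
      v (Matrix.det (Matrix.of fun i j => Sum.elim (fun k => grad x (f k)) ξ i (σ j))) = 1 := by
  classical
  have hcard : r + n = N := by
    have := Fintype.card_congr σ
    simpa using this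
  let u : Fin N → v.valuationSubring := fun l =>
    ⟨x l, (Valuation.mem_valuationSubring_iff v _).2 (hxv l)⟩
  let evA : MvPolynomial (Fin N) ℂ →+* v.valuationSubring := eval₂Hom (cA v hv) u
  have hcoe : ∀ P, ((evA P : v.valuationSubring) : K) = aeval x P := by
    intro P
    have : v.valuationSubring.subtype.comp evA = (aeval (R := ℂ) x : _ →+* K) := by
      apply MvPolynomial.ringHom_ext
      · intro c
        simp only [evA, RingHom.comp_apply, eval₂Hom_C]
        simp
        rfl
      · intro l
        simp only [evA, RingHom.comp_apply, eval₂Hom_X']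
        simp
        rfl
    exact RingHom.congr_fun this P
  set φ : ℂ →+* IsLocalRing.ResidueField v.valuationSubring :=
    (IsLocalRing.residue v.valuationSubring).comp (cA v hv) with hφ
  set ub : Fin N → IsLocalRing.ResidueField v.valuationSubring :=
    fun l => IsLocalRing.residue v.valuationSubring (u l) with hub
  letI : Algebra ℂ (IsLocalRing.ResidueField v.valuationSubring) := φ.toAlgebra
  have hres : ∀ P, IsLocalRing.residue v.valuationSubring (evA P) = aeval ub P := by
    intro P
    have : (IsLocalRing.residue v.valuationSubring).comp evA = (aeval (R := ℂ) ub : _ →+* _) := by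
      apply MvPolynomial.ringHom_ext
      · intro c
        simp only [evA, RingHom.comp_apply, eval₂Hom_C]
        simp
        rfl
      · intro l
        simp only [evA, RingHom.comp_apply, eval₂Hom_X']
        simp
        rfl
    exact RingHom.congr_fun this P
  have hLI := linInd_transfer (Set.range f) (∏ j, g j) (fun k l => pderiv l (f k)) (by
      intro y hy hyB
      rw [map_prod] at hyB
      exact hsm y (fun k => hy _ ⟨k, rfl⟩)
        (fun j => (Finset.prod_ne_zero_iff.1 hyB) j (Finset.mem_univ j))) ub (by
      rintro P ⟨k, rfl⟩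
      rw [← hres]
      have : evA (f k) = 0 := by
        apply Subtype.ext
        rw [hcoe, H3]; rfl
      rw [this, map_zero]) (by
      rw [map_prod]
      refine Finset.prod_ne_zero_iff.2 fun j _ => ?_
      rw [← hres]
      intro h0
      have := val_lt_one_of_residue_eq_zero v _ h0
      rw [hcoe, hgv] at this
      exact lt_irrefl _ this)
  obtain ⟨τ, hτ⟩ := exists_completion _ hLI n (by rw [Fintype.card_fin, hcard])
  let Y : Fin r ⊕ Fin n → Fin N → v.valuationSubring := Sum.elim
    (fun k l => evA (pderiv l (f k))) (fun i => Pi.single (τ i) 1)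
  refine ⟨fun i => Pi.single (τ i) 1, ?_, ?_⟩
  · intro i
    rw [dmap_single]
    exact AddSubgroup.subset_closure ⟨1, _, (map_one v).le, hxv _, rfl⟩
  · have h2 := val_det v (Matrix.of fun i j => Sum.elim (fun k => grad x (f k))
      (fun i => Pi.single (τ i) 1) i (σ j)) (fun _ => 1) (fun _ => 1)
      (Matrix.of fun i j => Y i (σ j)) ?_ ?_
    · simpa using h2
    · intro i j
      simp only [Matrix.of_apply, mul_one, one_mul]
      generalize σ j = l
      rcases i with k | i
      · simp only [Sum.elim_inl, Y, grad, hcoe]
      · simp only [Sum.elim_inr, Y]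
        by_cases hl : l = τ i
        · subst hl; simp
        · simp [hl]
    · have h4 : LinearIndependent (IsLocalRing.ResidueField v.valuationSubring)
          (fun (i : Fin r ⊕ Fin n) (l : Fin N) =>
            IsLocalRing.residue v.valuationSubring (Y i l)) := by
        convert hτ using 1
        funext i l
        rcases i with k | i
        · simp only [Y, Sum.elim_inl, hres]
        · simp only [Y, Sum.elim_inr]
          by_cases hl : l = τ i
          · subst hl; simp
          · simp [hl]
      have h6 := h4.map' (LinearMap.funLeft _ _ σ) (LinearMap.ker_eq_bot.2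
        (LinearMap.funLeft_injective_of_surjective _ _ σ σ.surjective))
      exact h6

end

end Pool.Agent.Lib.MP_410da7_ag
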