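import Pool.Agent.Lib.MP_410da7_ag.T1Base
import Pool.Agent.Lib.MP_410da7_ag.DMain

/-!
# A1-uniruled varieties have no logarithmic pluricanonical forms
-/

set_option autoImplicit false

namespace Pool.Agent.Lib.MP_410da7_ag

open KaehlerDifferential WithZero Polynomial

theorem t1neg_abs {K L : Type} [Field K] [Algebra ℂ K] [Field L] [Algebra ℂ L]
    {κ : Type} (U : κ → Subalgebra ℂ K)
    (Φ : K →ₐ[ℂ] RatFunc L) (hU : ∀ p : IsDedekindDomain.HeightOneSpectrum L[X],
      ∃ i, ∀ a ∈ U i, p.valuation (RatFunc L) (Φ a) ≤ 1) {n : ℕ}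
    (u : Fin n → K) (hu : IsTranscendenceBasis ℂ u) {ι : Type} [Fintype ι] (y : ι → L)
    (hy : IsTranscendenceBasis ℂ y) (hcard : Fintype.card ι + 1 = n)
    (htr : Algebra.trdeg ℂ (RatFunc L) ≤ (n : Cardinal))
    {m : ℕ} (hm : 1 ≤ m) (F : K) (η : ⋀[K]^n Ω[K⁄ℂ]) (hη : η ≠ 0)
    (hF : ∀ v : Valuation K ℤᵐ⁰, (∀ c : ℂ, c ≠ 0 → v (algebraMap ℂ K c) = 1) →
      ∃ (θ : Fin n → Ω[K⁄ℂ]) (c G : K), (∀ i, θ i ∈ logDiff v) ∧
        (HasCenter U v → ∀ i, θ i ∈ regDiff v) ∧
        exteriorPower.ιMulti K n θ = c • η ∧ v G ≤ 1 ∧ F = G * c ^ m) : F = 0 := by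
  classical
  letI : Algebra K (RatFunc L) := Φ.toRingHom.toAlgebra
  haveI : IsScalarTower ℂ K (RatFunc L) := IsScalarTower.of_algebraMap_eq fun c => by
    change _ = Φ (algebraMap ℂ K c)
    rw [AlgHom.commutes]
  have halg : ∀ a : K, algebraMap K (RatFunc L) a = Φ a := fun a => rfl
  have hfin := finrank_top_eq_one u hu
  have hu2 : IsTranscendenceBasis ℂ (fun i => algebraMap K (RatFunc L) (u i)) := by
    have h1 : AlgebraicIndependent ℂ (fun i => algebraMap K (RatFunc L) (u i)) := by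
      exact hu.1.map' (f := Φ) Φ.toRingHom.injective
    refine AlgebraicIndependent.isTranscendenceBasis_of_trdeg_le_of_finite h1 ?_
    rw [Cardinal.mk_fintype, Fintype.card_fin]
    exact htr
  let e : Fin n ≃ Option ι := Fintype.equivOfCardEq (by simp [hcard])
  obtain ⟨δ, hδ⟩ := exists_dual_der _ hy
  have hne := detForm_ne_zero (K := K) _ δ hδ e u hu2
  have hvan := core_vanish (K := K) δ e hm F η ?_ ?_
  · rcases mul_eq_zero.1 hvan with h | h
    · exact (map_eq_zero _).1 h
    · exfalso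
      have h := eq_zero_of_pow_eq_zero h
      obtain ⟨c, hc⟩ := (finrank_eq_one_iff_of_nonzero' η hη).1 hfin
        (exteriorPower.ιMulti K n (fun i => D ℂ K (u i)))
      apply hne
      rw [← exteriorPower.alternatingMapLinearEquiv_apply_ιMulti, ← hc, map_smul, h, smul_zero]
  · intro p
    obtain ⟨θ, c, G, h1, h2, h3, h4, h5⟩ := hF ((p.valuation (RatFunc L)).comap
      (algebraMap K (RatFunc L))) (by
        intro c hc
        change p.valuation (RatFunc L) (Φ (algebraMap ℂ K c)) = 1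
        rw [AlgHom.commutes, IsScalarTower.algebraMap_apply ℂ L[X] (RatFunc L),
          p.valuation_eq_one_iff_notMem]
        intro hmem
        apply p.isPrime.ne_top
        refine Ideal.eq_top_of_isUnit_mem _ hmem ?_
        exact (IsUnit.mk0 c hc).map (algebraMap ℂ L[X]))
    refine ⟨θ, c, G, h2 ?_, h3, h4, h5⟩
    obtain ⟨i, hi⟩ := hU p
    refine ⟨i, fun a ha => ?_⟩
    rw [Valuation.comap_apply, halg]
    exact hi a ha
  · obtain ⟨θ, c, G, h1, h2, h3, h4, h5⟩ := hF ((RatFunc.inftyValuation L).comap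
      (algebraMap K (RatFunc L))) (by
        intro c hc
        change RatFunc.inftyValuation L (Φ (algebraMap ℂ K c)) = 1
        rw [AlgHom.commutes, IsScalarTower.algebraMap_apply ℂ L (RatFunc L)]
        exact RatFunc.inftyValuation.C L (by simpa using hc))
    exact ⟨θ, c, G, h1, h3, h4, h5⟩

theorem t1neg_basis {K : Type} [Field K] [Algebra ℂ K] {n : ℕ}
    (hn : Algebra.trdeg ℂ K = (n : Cardinal)) : ∃ u : Fin n → K, IsTranscendenceBasis ℂ u := by
  obtain ⟨s', hs'⟩ := exists_isTranscendenceBasis ℂ K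
  have hs'card := hs'.cardinalMk_eq_trdeg
  rw [hn] at hs'card
  haveI : Finite s' := by
    rw [← Cardinal.lt_aleph0_iff_finite, hs'card]; exact Cardinal.natCast_lt_aleph0
  haveI : Fintype s' := Fintype.ofFinite s'
  have hs'c : Fintype.card s' = n := by
    rw [Cardinal.mk_fintype] at hs'card
    exact_mod_cast hs'card
  let e' : Fin n ≃ s' := (Fintype.equivFinOfCardEq hs'c).symm
  refine ⟨fun i => (e' i : K), ?_⟩
  exact (isTranscendenceBasis_equiv (R := ℂ) (f := ((↑) : s' → K)) e').2 hs'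

theorem logKodairaNegInfOn_of_a1UniruledOn {K : Type} [Field K] [Algebra ℂ K] {d : ℕ}
    (hd : Algebra.trdeg ℂ K = (d : Cardinal)) {ι : Type} (U : ι → Subalgebra ℂ K)
    (h : A1UniruledRaw U) : LogKodairaNegInfOn U d := by
  obtain ⟨B, _, _, _, hBft, hBd, φ, hφ, -⟩ := h
  intro m hm Ψ F hΨ hF
  haveI := isAlgebraic_fractionRing B
  have hBfin : Algebra.trdeg ℂ B < Cardinal.aleph0 := trdeg_lt_aleph0_of_finiteType (R := ℂ) (S := B)
  obtain ⟨s, hs⟩ := exists_isTranscendenceBasis ℂ B
  have hscard := hs.cardinalMk_eq_trdeg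
  haveI : Finite s := by
    rw [← Cardinal.lt_aleph0_iff_finite, hscard]; exact hBfin
  haveI : Fintype s := Fintype.ofFinite s
  have hy : IsTranscendenceBasis ℂ (fun i : s => algebraMap B (FractionRing B) (i : B)) :=
    hs.algebraMap_comp (A := FractionRing B)
  have hdim : Algebra.trdeg ℂ K = ((Fintype.card s + 1 : ℕ) : Cardinal) := by
    rw [← hBd, ← hscard, Cardinal.mk_fintype]
    push_cast
    rfl
  have hcard : Fintype.card s + 1 = d := by
    have : ((Fintype.card s + 1 : ℕ) : Cardinal) = (d : Cardinal) := by rw [← hdim, hd]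
    exact_mod_cast this
  obtain ⟨u, hu⟩ := t1neg_basis hd
  obtain ⟨b, hb⟩ := exists_kaehlerBasis u hu
  obtain ⟨η, hη, hη'⟩ := exists_eta_of_psi b Ψ hΨ
  let mp : B[X] →ₐ[ℂ] (FractionRing B)[X] :=
    Polynomial.mapAlgHom (IsScalarTower.toAlgHom ℂ B (FractionRing B))
  have hmp : Function.Injective mp := by
    have h1 : Function.Injective (Polynomial.map (algebraMap B (FractionRing B))) :=
      Polynomial.map_injective _ (IsFractionRing.injective B (FractionRing B))
    exact h1
  let ρ : B[X] →ₐ[ℂ] RatFunc (FractionRing B) :=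
    (IsScalarTower.toAlgHom ℂ (FractionRing B)[X] (RatFunc (FractionRing B))).comp mp
  have hρ : Function.Injective ρ := by
    have h1 : Function.Injective (algebraMap (FractionRing B)[X] (RatFunc (FractionRing B))) :=
      IsFractionRing.injective _ _
    exact h1.comp hmp
  let Λ : FractionRing B[X] →ₐ[ℂ] RatFunc (FractionRing B) := IsFractionRing.liftAlgHom hρ
  have hΛ : ∀ x : B[X], Λ (algebraMap B[X] (FractionRing B[X]) x) =
      algebraMap (FractionRing B)[X] (RatFunc (FractionRing B)) (mp x) := by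
    intro x
    simp [Λ, ρ]
  refine t1neg_abs (K := K) (L := FractionRing B) U (Λ.comp φ) ?_ u hu
    (fun i : s => algebraMap B (FractionRing B) (i : B)) hy hcard ?_ hm F η hη ?_
  · intro p
    haveI := p.isPrime
    let P : Ideal B[X] := p.asIdeal.comap mp
    have hPp : P.IsPrime := Ideal.comap_isPrime mp p.asIdeal
    obtain ⟨i, hi⟩ := hφ P hPp
    refine ⟨i, fun a ha => ?_⟩
    obtain ⟨x, y, hyP, hxy⟩ := hi a ha
    have h1 := congrArg Λ hxy
    rw [map_mul, hΛ, hΛ] at h1
    have h2 := congrArg (p.valuation (RatFunc (FractionRing B))) h1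
    rw [map_mul] at h2
    have h3 : p.valuation (RatFunc (FractionRing B))
        (algebraMap (FractionRing B)[X] (RatFunc (FractionRing B)) (mp y)) = 1 := by
      rw [p.valuation_eq_one_iff_notMem]
      exact hyP
    rw [h3, mul_one] at h2
    change p.valuation (RatFunc (FractionRing B)) (Λ (φ a)) ≤ 1
    rw [h2]
    exact p.valuation_le_one _
  · rw [trdeg_ratFunc, hBd, hd]
  · intro v hv
    obtain ⟨θ, G, h1, h2, h3, h4⟩ := hF v hv
    exact ⟨θ, Ψ θ, G, h1, h2, hη' θ, h3, h4⟩

end Pool.Agent.Lib.MP_410da7_ag
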