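import Pool.Agent.Lib.MP_410da7_ag.Kaehler
import Pool.Agent.Lib.MP_410da7_ag.Transfer

/-!
# Differentials of the function field of a complete intersection
-/

set_option autoImplicit false

namespace Pool.Agent.Lib.MP_410da7_ag

open MvPolynomial KaehlerDifferential

section

variable {N r : ℕ} {K : Type} [Field K] [Algebra ℂ K] (x : Fin N → K)

/-- gradient of `P` at the generic point -/
noncomputable def grad (P : MvPolynomial (Fin N) ℂ) : Fin N → K := fun l => aeval x (pderiv l P)

/-- the map `ξ ↦ ∑ ξ_l dx_l` -/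
noncomputable def dmap : (Fin N → K) →ₗ[K] Ω[K⁄ℂ] :=
  Fintype.linearCombination K (fun l => D ℂ K (x l))

theorem dmap_apply (ξ : Fin N → K) : dmap x ξ = ∑ l, ξ l • D ℂ K (x l) := by
  simp [dmap, Fintype.linearCombination_apply]

theorem dmap_single (l : Fin N) (a : K) : dmap x (Pi.single l a) = a • D ℂ K (x l) := by
  classical
  rw [dmap_apply, Finset.sum_eq_single l]
  · simp
  · intro b _ hb; simp [hb]
  · simp

theorem D_aeval (P : MvPolynomial (Fin N) ℂ) : D ℂ K (aeval x P) = dmap x (grad x P) := by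
  classical
  induction P using MvPolynomial.induction_on with
  | C a =>
    rw [aeval_C, Derivation.map_algebraMap, dmap_apply]
    simp [grad]
  | add p q hp hq =>
    rw [map_add, map_add, hp, hq, ← map_add]
    congr 1
    funext l
    simp [grad]
  | mul_X p i hp =>
    rw [map_mul, Derivation.leibniz, hp, aeval_X, dmap_apply, dmap_apply, Finset.smul_sum]
    have : ∀ l, grad x (p * X i) l = aeval x p * (if i = l then 1 else 0) +
        x i * grad x p l := by
      intro l
      simp only [grad, Derivation.leibniz, smul_eq_mul, map_add, map_mul, aeval_X, pderiv_X,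
        Pi.single_apply]
      split_ifs with h
      · simp
      · simp
    simp only [this, add_smul, Finset.sum_add_distrib, smul_smul]
    congr 1
    rw [Finset.sum_eq_single i]
    · simp
    · intro b _ hb; simp [Ne.symm hb]
    · simp

variable (f : Fin r → MvPolynomial (Fin N) ℂ) (G0 : MvPolynomial (Fin N) ℂ)

theorem dmap_surjective
    (H1 : ∀ a : K, ∃ P Q : MvPolynomial (Fin N) ℂ, aeval x Q ≠ 0 ∧ a * aeval x Q = aeval x P) :
    Function.Surjective (dmap x) := by
  rw [← LinearMap.range_eq_top, eq_top_iff, ← KaehlerDifferential.span_range_derivation ℂ K,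
    Submodule.span_le]
  rintro _ ⟨a, rfl⟩
  obtain ⟨P, Q, hQ, h⟩ := H1 a
  have h1 := congrArg (D ℂ K) h
  rw [Derivation.leibniz, D_aeval, D_aeval] at h1
  refine ⟨(aeval x Q)⁻¹ • (grad x P - a • grad x Q), ?_⟩
  rw [map_smul, map_sub, map_smul, ← h1, add_sub_cancel_left, smul_smul, inv_mul_cancel₀ hQ,
    one_smul]

theorem grad_mem (W : Submodule K (Fin N → K)) (hW : ∀ k, grad x (f k) ∈ W)
    (H2 : ∀ P : MvPolynomial (Fin N) ℂ, aeval x P = 0 →
      ∃ n : ℕ, G0 ^ n * P ∈ Ideal.span (Set.range f))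
    (H3 : ∀ k, aeval x (f k) = 0) (H3' : aeval x G0 ≠ 0)
    (P : MvPolynomial (Fin N) ℂ) (hP : aeval x P = 0) : grad x P ∈ W := by
  have hmul : ∀ A B : MvPolynomial (Fin N) ℂ, grad x (A * B) =
      aeval x A • grad x B + aeval x B • grad x A := by
    intro A B
    funext l
    simp [grad, Derivation.leibniz]
  have hspan : ∀ A ∈ Ideal.span (Set.range f), aeval x A = 0 ∧ grad x A ∈ W := by
    intro A hA
    refine Submodule.span_induction (p := fun A _ => aeval x A = 0 ∧ grad x A ∈ W) ?_ ?_ ?_ ?_ hA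
    · rintro _ ⟨k, rfl⟩
      exact ⟨H3 k, hW k⟩
    · refine ⟨by simp, ?_⟩
      have : grad x (0 : MvPolynomial (Fin N) ℂ) = 0 := by funext l; simp [grad]
      rw [this]; exact W.zero_mem
    · intro A B _ _ hA hB
      refine ⟨by rw [map_add, hA.1, hB.1, add_zero], ?_⟩
      have : grad x (A + B) = grad x A + grad x B := by funext l; simp [grad]
      rw [this]; exact W.add_mem hA.2 hB.2
    · intro a A _ hA
      refine ⟨by rw [smul_eq_mul, map_mul, hA.1, mul_zero], ?_⟩
      rw [smul_eq_mul, hmul, hA.1, zero_smul, add_zero]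
      exact W.smul_mem _ hA.2
  obtain ⟨n, hn⟩ := H2 P hP
  have h1 := (hspan _ hn).2
  rw [hmul, hP, zero_smul, add_zero] at h1
  have h2 : aeval x (G0 ^ n) ≠ 0 := by rw [map_pow]; exact pow_ne_zero _ H3'
  exact (W.smul_mem_iff h2).1 h1

theorem exists_section (W : Submodule K (Fin N → K)) (hW : ∀ k, grad x (f k) ∈ W)
    (H1 : ∀ a : K, ∃ P Q : MvPolynomial (Fin N) ℂ, aeval x Q ≠ 0 ∧ a * aeval x Q = aeval x P)
    (H2 : ∀ P : MvPolynomial (Fin N) ℂ, aeval x P = 0 →
      ∃ n : ℕ, G0 ^ n * P ∈ Ideal.span (Set.range f))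
    (H3 : ∀ k, aeval x (f k) = 0) (H3' : aeval x G0 ≠ 0) :
    ∃ S : Ω[K⁄ℂ] →ₗ[K] (Fin N → K) ⧸ W, ∀ ξ, S (dmap x ξ) = W.mkQ ξ := by
  classical
  let A : Subalgebra ℂ K := (aeval (R := ℂ) x).range
  have hloc : IsFractionRing A K := by
    refine (isLocalization_iff (M := nonZeroDivisors A) (S := K)).2 ⟨?_, ?_, ?_⟩
    · intro y
      have : (algebraMap A K (y : A)) ≠ 0 := by
        intro h
        have h0 : (y : A) = 0 := Subtype.ext h
        exact nonZeroDivisors.ne_zero y.2 h0
      exact IsUnit.mk0 _ this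
    · intro a
      obtain ⟨P, Q, hQ, h⟩ := H1 a
      refine ⟨(⟨aeval x P, ⟨P, rfl⟩⟩, ⟨⟨aeval x Q, ⟨Q, rfl⟩⟩, ?_⟩), ?_⟩
      · rw [mem_nonZeroDivisors_iff_ne_zero]
        intro h0
        exact hQ (congrArg Subtype.val h0)
      · exact h
    · intro a b h
      have : a = b := Subtype.ext h
      exact ⟨1, by rw [this]⟩
  choose c hc using fun a : A => a.2
  have hwd : ∀ (a : A) (P : MvPolynomial (Fin N) ℂ), aeval x P = (a : K) →
      W.mkQ (grad x P) = W.mkQ (grad x (c a)) := by
    intro a P hP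
    rw [← sub_eq_zero, ← map_sub, Submodule.mkQ_apply, Submodule.Quotient.mk_eq_zero]
    have h1 : grad x P - grad x (c a) = grad x (P - c a) := by funext l; simp [grad]
    rw [h1]
    refine grad_mem x f G0 W hW H2 H3 H3' _ ?_
    rw [map_sub, hP]
    have := hc a
    change aeval x (c a) = (a : K) at this
    rw [this, sub_self]
  have hc' : ∀ a : A, aeval x (c a) = (a : K) := hc
  let δ : Derivation ℂ A ((Fin N → K) ⧸ W) := Derivation.mk'
    { toFun := fun a => W.mkQ (grad x (c a))
      map_add' := by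
        intro a b
        rw [← hwd (a + b) (c a + c b) (by rw [map_add, hc', hc']; rfl), ← map_add]
        congr 1
        funext l; simp [grad]
      map_smul' := by
        intro t a
        rw [← hwd (t • a) (t • c a) (by rw [map_smul, hc']; rfl)]
        have : grad x (t • c a) = (algebraMap ℂ K t) • grad x (c a) := by
          funext l
          simp [grad, Algebra.smul_def]
        rw [this, map_smul]
        simp }
    (by
      intro a b
      change W.mkQ (grad x (c (a * b))) = (a : K) • W.mkQ (grad x (c b)) +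
        (b : K) • W.mkQ (grad x (c a))
      rw [← hwd (a * b) (c a * c b) (by rw [map_mul, hc', hc']; rfl), ← map_smul, ← map_smul,
        ← map_add]
      congr 1
      funext l
      simp [grad, hc'])
  obtain ⟨S, hS⟩ := exists_linear_ext (M := K) δ
  refine ⟨S, fun ξ => ?_⟩
  have h1 : ∀ l, S (D ℂ K (x l)) = W.mkQ (Pi.single l 1) := by
    intro l
    have h2 := hS ⟨x l, ⟨X l, by simp⟩⟩
    change S (D ℂ K (x l)) = W.mkQ (grad x (c ⟨x l, ⟨X l, by simp⟩⟩)) at h2
    rw [h2, ← hwd _ (X l) (by simp)]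
    congr 1
    funext k
    simp only [grad, pderiv_X, Pi.single_apply]
    by_cases hk : l = k
    · subst hk; simp
    · simp [hk, Ne.symm hk]
  rw [dmap_apply, map_sum]
  simp only [map_smul, h1]
  simp only [← map_smul, ← map_sum]
  congr 1
  exact (pi_eq_sum_univ ξ).symm ▸ (by
    funext k
    simp [Finset.sum_apply, Pi.single_apply])

end

end Pool.Agent.Lib.MP_410da7_ag
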