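import Pool.Agent.Lib.MP_410da7_ag.RatFuncDer

/-!
# Pulling back differential forms and evaluating them on derivations
-/

set_option autoImplicit false

namespace Pool.Agent.Lib.MP_410da7_ag

open KaehlerDifferential WithZero Polynomial

section

variable {K M : Type} [Field K] [Algebra ℂ K] [Field M] [Algebra ℂ M] [Algebra K M]
  [IsScalarTower ℂ K M]

variable (K) in
/-- the functional on differentials of `K` given by a derivation of `M` -/
noncomputable def pull (Δ : Derivation ℂ M M) : Ω[K⁄ℂ] →ₗ[K] M :=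
  (Δ.compAlgebraMap K).liftKaehlerDifferential

theorem pull_D (Δ : Derivation ℂ M M) (a : K) : pull K Δ (D ℂ K a) = Δ (algebraMap K M a) := by
  simp [pull]

theorem pull_reg (v : Valuation M ℤᵐ⁰) (Δ : Derivation ℂ M M) (h : ∀ x, v x ≤ 1 → v (Δ x) ≤ 1)
    (θ : Ω[K⁄ℂ]) (hθ : θ ∈ regDiff (v.comap (algebraMap K M))) : v (pull K Δ θ) ≤ 1 := by
  refine AddSubgroup.closure_induction (p := fun θ _ => v (pull K Δ θ) ≤ 1) ?_ ?_ ?_ ?_ hθ
  · rintro θ ⟨a, b, ha, hb, rfl⟩
    rw [map_smul, pull_D, Algebra.smul_def, map_mul]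
    exact mul_le_one' ha (h _ hb)
  · simp
  · intro x y _ _ hx hy
    rw [map_add]
    exact (v.map_add _ _).trans (max_le hx hy)
  · intro x _ hx
    rw [map_neg, Valuation.map_neg]
    exact hx

theorem pull_log (v : Valuation M ℤᵐ⁰) (Δ : Derivation ℂ M M) (h : ∀ x, v (Δ x) ≤ v x)
    (θ : Ω[K⁄ℂ]) (hθ : θ ∈ logDiff (v.comap (algebraMap K M))) : v (pull K Δ θ) ≤ 1 := by
  refine AddSubgroup.closure_induction (p := fun θ _ => v (pull K Δ θ) ≤ 1) ?_ ?_ ?_ ?_ hθ
  · rintro θ (⟨a, b, ha, hb, rfl⟩ | ⟨a, b, ha, hb, rfl⟩)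
    · rw [map_smul, pull_D, Algebra.smul_def, map_mul]
      exact mul_le_one' ha ((h _).trans hb)
    · rw [map_smul, pull_D, Algebra.smul_def, map_mul, map_div₀, map_div₀, div_mul_eq_mul_div,
        mul_div_assoc]
      have h0 : v (algebraMap K M b) ≠ 0 := by
        rw [Valuation.ne_zero_iff]; simpa using hb
      refine mul_le_one' ha ?_
      calc _ ≤ v (algebraMap K M b) / v (algebraMap K M b) :=
            div_le_div_of_nonneg_right (h _) zero_le
        _ = 1 := div_self h0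
        _ ≤ 1 := le_rfl
  · simp
  · intro x y _ _ hx hy
    rw [map_add]
    exact (v.map_add _ _).trans (max_le hx hy)
  · intro x _ hx
    rw [map_neg, Valuation.map_neg]
    exact hx

variable (K) in
/-- evaluation of `d`-forms of `K` on `d` derivations of `M` -/
noncomputable def detForm {d : ℕ} (Δ : Fin d → Derivation ℂ M M) : Ω[K⁄ℂ] [⋀^Fin d]→ₗ[K] M :=
  AlternatingMap.compLinearMap
    { (Matrix.detRowAlternating (R := M) (n := Fin d)).toMultilinearMap.restrictScalars K with
      map_eq_zero_of_eq' := fun v _ _ h hij =>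
        (Matrix.detRowAlternating (R := M) (n := Fin d)).map_eq_zero_of_eq v h hij }
    (LinearMap.pi fun j => pull K (Δ j))

theorem detForm_apply {d : ℕ} (Δ : Fin d → Derivation ℂ M M) (θ : Fin d → Ω[K⁄ℂ]) :
    detForm K Δ θ = Matrix.det (Matrix.of fun i j => pull K (Δ j) (θ i)) := rfl

omit [Algebra ℂ M] in
theorem det_le_one (v : Valuation M ℤᵐ⁰) {d : ℕ} (A : Matrix (Fin d) (Fin d) M)
    (h : ∀ i j, v (A i j) ≤ 1) : v A.det ≤ 1 := by
  have h1 : A.det ∈ v.integer := by
    rw [Matrix.det_apply]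
    refine Subring.sum_mem _ fun σ _ => ?_
    rw [Units.smul_def]
    exact Subring.zsmul_mem _ (Subring.prod_mem _ fun i _ => h _ _) _
  exact h1

end

end Pool.Agent.Lib.MP_410da7_ag
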