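import Pool.Agent.Lib.MP_410da7_ag.Defs
import Pool.Agent.Lib.MP_410da7_ag.Kaehler

/-!
# Derivations of `L(t)` and valuations
-/

set_option autoImplicit false

namespace Pool.Agent.Lib.MP_410da7_ag

open KaehlerDifferential WithZero Polynomial

section

variable {L : Type} [Field L] [Algebra ℂ L]

/-- extension to `L(t)` of a derivation of `L[t]` -/
noncomputable def extDer (δ : Derivation ℂ L[X] L[X]) : Derivation ℂ (RatFunc L) (RatFunc L) :=
  (exists_derivation_ext (M := RatFunc L) δ).choose

theorem extDer_algebraMap (δ : Derivation ℂ L[X] L[X]) (p : L[X]) :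
    extDer δ (algebraMap L[X] (RatFunc L) p) = algebraMap L[X] (RatFunc L) (δ p) :=
  (exists_derivation_ext (M := RatFunc L) δ).choose_spec p

theorem extDer_div (δ : Derivation ℂ L[X] L[X]) (n d : L[X]) (hd : d ≠ 0) :
    extDer δ (algebraMap L[X] (RatFunc L) n / algebraMap L[X] (RatFunc L) d) =
      algebraMap L[X] (RatFunc L) (δ n * d - n * δ d) /
        (algebraMap L[X] (RatFunc L) d) ^ 2 := by
  have hd' : algebraMap L[X] (RatFunc L) d ≠ 0 := by
    simpa using hd
  have h := (extDer δ).leibniz (algebraMap L[X] (RatFunc L) n / algebraMap L[X] (RatFunc L) d)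
    (algebraMap L[X] (RatFunc L) d)
  rw [div_mul_cancel₀ _ hd', extDer_algebraMap, extDer_algebraMap] at h
  simp only [smul_eq_mul] at h
  have h2 : algebraMap L[X] (RatFunc L) d * extDer δ (algebraMap L[X] (RatFunc L) n /
      algebraMap L[X] (RatFunc L) d) = algebraMap L[X] (RatFunc L) (δ n) -
      algebraMap L[X] (RatFunc L) n / algebraMap L[X] (RatFunc L) d *
        algebraMap L[X] (RatFunc L) (δ d) := by
    rw [h]; ring
  rw [eq_div_iff (pow_ne_zero _ hd')]
  calc _ = algebraMap L[X] (RatFunc L) d * (algebraMap L[X] (RatFunc L) d *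
        extDer δ (algebraMap L[X] (RatFunc L) n / algebraMap L[X] (RatFunc L) d)) := by ring
    _ = _ := by
      rw [h2, map_sub, map_mul, map_mul]
      field_simp

theorem extDer_valuation_le (δ : Derivation ℂ L[X] L[X])
    (p : IsDedekindDomain.HeightOneSpectrum L[X]) (x : RatFunc L)
    (hx : p.valuation (RatFunc L) x ≤ 1) : p.valuation (RatFunc L) (extDer δ x) ≤ 1 := by
  have hx0 := RatFunc.num_div_denom x
  set n := x.num
  set d := x.denom
  have hd : d ≠ 0 := x.denom_ne_zero
  have hcop : IsCoprime n d := x.isCoprime_num_denom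
  have hdp : p.valuation (RatFunc L) (algebraMap L[X] (RatFunc L) d) = 1 := by
    rw [p.valuation_eq_one_iff_notMem]
    intro hmem
    have hn : n ∉ p.asIdeal := by
      intro hn
      obtain ⟨a, b, hab⟩ := hcop
      apply p.isPrime.ne_top
      rw [Ideal.eq_top_iff_one, ← hab]
      exact p.asIdeal.add_mem (p.asIdeal.mul_mem_left _ hn) (p.asIdeal.mul_mem_left _ hmem)
    rw [← p.valuation_eq_one_iff_notMem (K := RatFunc L)] at hn
    rw [← p.valuation_lt_one_iff_mem (K := RatFunc L)] at hmem
    rw [← hx0, map_div₀, hn, one_div] at hx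
    have h0 : p.valuation (RatFunc L) (algebraMap L[X] (RatFunc L) d) ≠ 0 := by
      rw [Valuation.ne_zero_iff]; simpa using hd
    have := (one_lt_inv₀ (zero_lt_iff.2 h0)).2 hmem
    exact absurd hx (not_le.2 this)
  rw [← hx0, extDer_div δ n d hd, map_div₀, map_pow, hdp, one_pow, div_one]
  exact p.valuation_le_one _

open Classical in
theorem extDer_infty_le (δ : Derivation ℂ L[X] L[X])
    (hδ : ∀ q : L[X], (δ q).natDegree ≤ q.natDegree) (x : RatFunc L) :
    RatFunc.inftyValuation L (extDer δ x) ≤ RatFunc.inftyValuation L x := by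
  have hx0 := RatFunc.num_div_denom x
  set n := x.num
  set d := x.denom
  have hd : d ≠ 0 := x.denom_ne_zero
  have hpoly : ∀ q : L[X], RatFunc.inftyValuation L (algebraMap L[X] (RatFunc L) (δ q)) ≤
      RatFunc.inftyValuation L (algebraMap L[X] (RatFunc L) q) := by
    intro q
    by_cases hδq : δ q = 0
    · simp [hδq]
    have hq : q ≠ 0 := by
      rintro rfl
      simp at hδq
    rw [RatFunc.inftyValuation_apply, RatFunc.inftyValuation_apply,
      RatFunc.inftyValuation.polynomial _ hδq, RatFunc.inftyValuation.polynomial _ hq, exp_le_exp]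
    exact_mod_cast hδ q
  set v := RatFunc.inftyValuation L
  have h0 : v (algebraMap L[X] (RatFunc L) d) ≠ 0 := by
    rw [Valuation.ne_zero_iff]; simpa using hd
  have h1 : v (algebraMap L[X] (RatFunc L) (δ n * d - n * δ d)) ≤
      v (algebraMap L[X] (RatFunc L) n) * v (algebraMap L[X] (RatFunc L) d) := by
    rw [map_sub, map_mul, map_mul]
    refine (v.map_sub _ _).trans (max_le ?_ ?_)
    · rw [map_mul]
      exact mul_le_mul_left (hpoly n) _
    · rw [map_mul]
      exact mul_le_mul_right (hpoly d) _
  rw [← hx0, extDer_div δ n d hd, map_div₀, map_div₀, map_pow, div_le_iff₀ (by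
    exact zero_lt_iff.2 (pow_ne_zero _ h0))]
  refine h1.trans (le_of_eq ?_)
  field_simp

end

end Pool.Agent.Lib.MP_410da7_ag
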