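import Pool.Agent.Lib.MP_410da7_ag.T1Defs

/-!
# Auxiliary notions for torus actions of complexity one (proofs only)
-/

set_option autoImplicit false

namespace Pool.Agent.Lib.MP_410da7_ag

open KaehlerDifferential WithZero Polynomial

section raw

variable {K : Type} [Field K] [Algebra ℂ K] {ι : Type}

/-- `A1UniruledOn` with the auxiliary definitions unfolded (only used in proofs) -/
def A1UniruledRaw (U : ι → Subalgebra ℂ K) : Prop :=
  ∃ (B : Type) (_ : CommRing B) (_ : IsDomain B) (_ : Algebra ℂ B),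
    Algebra.FiniteType ℂ B ∧ Algebra.trdeg ℂ B + 1 = Algebra.trdeg ℂ K ∧
    ∃ φ : K →ₐ[ℂ] FractionRing (Polynomial B),
      (∀ P : Ideal (Polynomial B), P.IsPrime → ∃ i, ∀ a ∈ U i, ∃ x y : Polynomial B, y ∉ P ∧
        φ a * algebraMap (Polynomial B) (FractionRing (Polynomial B)) y =
          algebraMap (Polynomial B) (FractionRing (Polynomial B)) x) ∧
      ∃ a : K, ∀ b c : B, c ≠ 0 →
        φ a * algebraMap (Polynomial B) (FractionRing (Polynomial B)) (Polynomial.C c) ≠
          algebraMap (Polynomial B) (FractionRing (Polynomial B)) (Polynomial.C b)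

theorem a1UniruledOn_iff (U : ι → Subalgebra ℂ K) : A1UniruledOn U ↔ A1UniruledRaw U := by
  unfold A1UniruledOn A1UniruledRaw IsLineFamily RegularAt ConstOnLines
  push Not
  rfl

end raw

section split

variable {K : Type} [Field K] [Algebra ℂ K] {n : ℕ}

/-- `χ : ℤ^n → K` is a splitting: multiplicative, and the `χ u` are linearly independent over the
subfield `K0`. -/
structure TorusSplit (K0 : IntermediateField ℂ K) (χ : (Fin n → ℤ) → K) : Prop where
  zero : χ 0 = 1
  add : ∀ u u', χ (u + u') = χ u * χ u'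
  linInd : LinearIndependent K0 χ

/-- `U` is spanned by its homogeneous elements `c * χ u`, `c ∈ K0`. -/
def HomogSpan (K0 : IntermediateField ℂ K) (χ : (Fin n → ℤ) → K) (U : Subalgebra ℂ K) : Prop :=
  ∀ a ∈ U, a ∈ Submodule.span ℂ {b : K | b ∈ U ∧ ∃ u, ∃ c ∈ K0, b = c * χ u}

/-- some nonzero `λ : ℤ^n → ℤ` is nonnegative on the weights of `U` -/
def HalfSpace (K0 : IntermediateField ℂ K) (χ : (Fin n → ℤ) → K) (U : Subalgebra ℂ K) : Prop :=
  ∃ l : (Fin n → ℤ) →+ ℤ, l ≠ 0 ∧ ∀ u, ∀ c ∈ K0, c ≠ 0 → c * χ u ∈ U → 0 ≤ l u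

theorem TorusSplit.ne_zero {K0 : IntermediateField ℂ K} {χ : (Fin n → ℤ) → K}
    (h : TorusSplit K0 χ) (u : Fin n → ℤ) : χ u ≠ 0 := by
  intro h0
  have h1 := h.add u (-u)
  rw [add_neg_cancel, h.zero, h0, zero_mul] at h1
  exact one_ne_zero h1

end split

section place

/-- order of vanishing of the rational function `r` at the point `c` of the projective line
(`none` is the point at infinity) -/
noncomputable def ordAt : Option ℂ → RatFunc ℂ → ℤ
  | some c, r => (r.num.rootMultiplicity c : ℤ) - r.denom.rootMultiplicity c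
  | none, r => (r.denom.natDegree : ℤ) - r.num.natDegree

/-- local parameter at a point of the projective line -/
noncomputable def locPar : Option ℂ → RatFunc ℂ
  | some c => RatFunc.X - RatFunc.C c
  | none => RatFunc.X⁻¹

/-- `p - c q`, and `q` for `c = ∞` -/
noncomputable def linForm : Option ℂ → ℂ[X] → ℂ[X] → ℂ[X]
  | some c, p, q => p - C c * q
  | none, _, q => q

/-- minus the order of `dz` at the point -/
def dlt : Option ℂ → ℤ
  | some _ => 0
  | none => 2

variable {K : Type} [Field K] [Algebra ℂ K] {n : ℕ} {ι : Type}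

/-- multiplicities of the toroidal valuations with center on `X` over the point `c` -/
def Mult (κ : RatFunc ℂ →ₐ[ℂ] K) (χ : (Fin n → ℤ) → K) (U : ι → Subalgebra ℂ K) (c : Option ℂ) :
    Set ℕ :=
  {μ | 0 < μ ∧ ∃ (l : (Fin n → ℤ) →+ ℤ) (i : ι), ∀ (r : RatFunc ℂ) (u : Fin n → ℤ), r ≠ 0 →
    κ r * χ u ∈ U i → 0 ≤ (μ : ℤ) * ordAt c r + l u}

/-- The map `p / q : 𝔸¹ → ℙ¹` is an orbifold map for the multiplicities `M c`. -/
structure OrbiLine (M : Option ℂ → Set ℕ) (p q : ℂ[X]) : Prop where
  coprime : IsCoprime p q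
  nonconst : 0 < p.natDegree ∨ 0 < q.natDegree
  dvd : ∀ c τ, (linForm c p q).IsRoot τ → ∃ μ ∈ M c, μ ∣ (linForm c p q).rootMultiplicity τ

theorem linForm_ne_zero {p q : ℂ[X]} (h : IsCoprime p q) (hn : 0 < p.natDegree ∨ 0 < q.natDegree)
    (c : Option ℂ) : linForm c p q ≠ 0 := by
  intro h0
  cases c with
  | none =>
    change q = 0 at h0
    subst h0
    rw [isCoprime_zero_right] at h
    rw [natDegree_eq_zero_of_isUnit h] at hn
    simp at hn
  | some c =>
    have h1 : p = C c * q := sub_eq_zero.mp h0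
    have h2 : IsUnit q := by
      rw [h1] at h
      exact isCoprime_self.mp (IsCoprime.of_mul_left_right h)
    have h3 : q.natDegree = 0 := natDegree_eq_zero_of_isUnit h2
    rw [h1, h3] at hn
    rcases hn with hn | hn
    · have := (natDegree_C_mul_le c q)
      omega
    · omega

/-- The form `h (dz)^m` has poles bounded by the orbifold divisor with multiplicities `M c`:
`N c = m + ord_c (h (dz)^m)`. -/
def OrbiForm (M : Option ℂ → Set ℕ) (m : ℕ) (h : RatFunc ℂ) : Prop :=
  ∀ c, 0 ≤ (m : ℤ) + (ordAt c h - m * dlt c) ∧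
    ∀ μ ∈ M c, (m : ℤ) ≤ μ * ((m : ℤ) + (ordAt c h - m * dlt c))

end place

end Pool.Agent.Lib.MP_410da7_ag
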