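import Pool.Agent.Lib.MP_410da7_ag.T1Base

/-!
# A transcendence basis adapted to a splitting
-/

set_option autoImplicit false

namespace Pool.Agent.Lib.MP_410da7_ag

open KaehlerDifferential WithZero Polynomial

theorem t1basis_nsmul {K : Type} [Field K] [Algebra ℂ K] {n : ℕ} {K0 : IntermediateField ℂ K}
    {χ : (Fin n → ℤ) → K} (hs : TorusSplit K0 χ) (u : Fin n → ℤ) (k : ℕ) :
    χ (k • u) = χ u ^ k := by
  induction k with
  | zero => rw [zero_nsmul, hs.zero, pow_zero]
  | succ k ih => rw [succ_nsmul, hs.add, ih, pow_succ]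

theorem t1basis_sum {K : Type} [Field K] [Algebra ℂ K] {n : ℕ} {K0 : IntermediateField ℂ K}
    {χ : (Fin n → ℤ) → K} (hs : TorusSplit K0 χ) (s : Finset (Fin n)) (f : Fin n → (Fin n → ℤ)) :
    χ (∑ i ∈ s, f i) = ∏ i ∈ s, χ (f i) := by
  classical
  induction s using Finset.induction with
  | empty => rw [Finset.sum_empty, Finset.prod_empty, hs.zero]
  | insert a s ha ih => rw [Finset.sum_insert ha, Finset.prod_insert ha, hs.add, ih]

theorem t1basis_prod {K : Type} [Field K] [Algebra ℂ K] {n : ℕ} {K0 : IntermediateField ℂ K}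
    {χ : (Fin n → ℤ) → K} (hs : TorusSplit K0 χ) (d : Fin n →₀ ℕ) :
    ∏ i, χ (Pi.single i 1) ^ d i = χ (fun i => (d i : ℤ)) := by
  have h1 : (fun i => (d i : ℤ)) = ∑ i, d i • (Pi.single i (1 : ℤ) : Fin n → ℤ) := by
    funext j
    rw [Finset.sum_apply, Finset.sum_eq_single j]
    · simp
    · intro b _ hb
      simp [hb.symm]
    · simp
  rw [h1, t1basis_sum hs]
  exact Finset.prod_congr rfl fun i _ => (t1basis_nsmul hs _ _).symm

theorem t1basis_algebraicIndependent {K : Type} [Field K] [Algebra ℂ K] {n : ℕ}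
    {K0 : IntermediateField ℂ K} {χ : (Fin n → ℤ) → K} (hs : TorusSplit K0 χ) :
    AlgebraicIndependent K0 (fun i : Fin n => χ (Pi.single i 1)) := by
  rw [algebraicIndependent_iff]
  intro p hp
  have hinj : Function.Injective (fun (d : Fin n →₀ ℕ) (i : Fin n) => (d i : ℤ)) := by
    intro d d' h
    ext i
    have h1 := congrFun h i
    simpa using h1
  have hli := hs.linInd.comp _ hinj
  rw [MvPolynomial.aeval_def, MvPolynomial.eval₂_eq'] at hp
  have h0 := linearIndependent_iff'.mp hli p.support (fun d => p.coeff d) (by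
    rw [← hp]
    refine Finset.sum_congr rfl fun d _ => ?_
    rw [t1basis_prod hs, Algebra.smul_def]
    rfl)
  ext d
  by_cases hd : d ∈ p.support
  · rw [h0 d hd, MvPolynomial.coeff_zero]
  · rw [MvPolynomial.notMem_support_iff.mp hd, MvPolynomial.coeff_zero]

theorem torusSplit_basis {K : Type} [Field K] [Algebra ℂ K] {n : ℕ}
    (hd : Algebra.trdeg ℂ K = ((n + 1 : ℕ) : Cardinal)) {K0 : IntermediateField ℂ K}
    {χ : (Fin n → ℤ) → K} (hs : TorusSplit K0 χ) (z : K) (hz : z ∈ K0) (htr : Transcendental ℂ z) :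
    IsTranscendenceBasis ℂ (Fin.snoc (fun i : Fin n => χ (Pi.single i 1)) z : Fin (n + 1) → K) := by
  have h1 := t1basis_algebraicIndependent hs
  have h2 : AlgebraicIndependent ℂ (fun _ : Unit => (⟨z, hz⟩ : K0)) := by
    rw [algebraicIndependent_unique_type_iff]
    intro h
    exact htr (h.algebraMap (A := K))
  have h3 := AlgebraicIndependent.sumElim_comp h2 h1
  let e : Fin (n + 1) → Fin n ⊕ Unit := fun i => Fin.lastCases (Sum.inr ()) (fun j => Sum.inl j) i
  have he : Function.Injective e := by
    intro a b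
    induction a using Fin.lastCases with
    | last =>
      induction b using Fin.lastCases with
      | last => intro _; rfl
      | cast b => intro h; simp [e] at h
    | cast a =>
      induction b using Fin.lastCases with
      | last => intro h; simp [e] at h
      | cast b => intro h; simp [e] at h; rw [h]
  have h4 := h3.comp e he
  have h5 : (Sum.elim (fun i : Fin n => χ (Pi.single i 1))
      (algebraMap K0 K ∘ fun _ : Unit => (⟨z, hz⟩ : K0))) ∘ e =
      (Fin.snoc (fun i : Fin n => χ (Pi.single i 1)) z : Fin (n + 1) → K) := by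
    funext a
    induction a using Fin.lastCases with
    | last => simp [e]
    | cast a => simp [e]
  rw [h5] at h4
  refine AlgebraicIndependent.isTranscendenceBasis_of_trdeg_le_of_finite h4 ?_
  rw [hd]
  simp

end Pool.Agent.Lib.MP_410da7_ag
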