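import Pool.Agent.Lib.MP_410da7_ag.T1Base

/-!
# Klein polynomials
-/

set_option autoImplicit false

namespace Pool.Agent.Lib.MP_410da7_ag

open KaehlerDifferential WithZero Polynomial

/-- coprime polynomial solutions of `P₁^a + P₂^b + P₃^c = 0` -/
def HasKlein (a b c : ℕ) : Prop :=
  ∃ P₁ P₂ P₃ : ℂ[X], P₁ ^ a + P₂ ^ b + P₃ ^ c = 0 ∧ IsCoprime P₁ P₂ ∧ 0 < P₁.natDegree

lemma t1klein_coprime {P Q A B : ℂ[X]} {c : ℂ} (hc : c ≠ 0) (h : A * P + B * Q = C c) :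
    IsCoprime P Q := by
  refine ⟨C c⁻¹ * A, C c⁻¹ * B, ?_⟩
  rw [mul_assoc, mul_assoc, ← mul_add, h, ← C_mul, inv_mul_cancel₀ hc, C_1]

lemma t1klein_C_sq {a b : ℂ} {n : ℕ} (h : a ^ n = b) : (C a : ℂ[X]) ^ n = C b := by
  rw [← C_pow, h]

lemma t1klein_C_num (k : ℕ) [k.AtLeastTwo] : (C (OfNat.ofNat k : ℂ) : ℂ[X]) = OfNat.ofNat k :=
  map_ofNat C k

theorem klein_22n (n : ℕ) (hn : 0 < n) : HasKlein 2 2 n := by
  obtain ⟨c, hc⟩ := IsAlgClosed.exists_pow_nat_eq (-4 : ℂ) hn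
  have hI : (C Complex.I : ℂ[X]) ^ 2 = -1 := by
    rw [t1klein_C_sq Complex.I_sq, C_neg, C_1]
  have hc' : (C c : ℂ[X]) ^ n = -4 := by
    rw [t1klein_C_sq hc, C_neg, t1klein_C_num]
  refine ⟨X ^ n + 1, C Complex.I * (X ^ n - 1), C c * X, ?_, ?_, ?_⟩
  · rw [mul_pow (C c) X n, hc', mul_pow, hI]
    ring
  · refine t1klein_coprime (c := 2) (A := 1) (B := C Complex.I) two_ne_zero ?_
    rw [t1klein_C_num]
    linear_combination (X ^ n - 1) * hI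
  · have : (X ^ n + 1 : ℂ[X]).natDegree = n := by
      have h := natDegree_X_pow_add_C (n := n) (r := (1 : ℂ))
      rwa [C_1] at h
    rw [this]
    exact hn

theorem klein_233 : HasKlein 2 3 3 := by
  obtain ⟨s, hs⟩ := IsAlgClosed.exists_pow_nat_eq (-3 : ℂ) (n := 2) (by norm_num)
  obtain ⟨a, ha⟩ := IsAlgClosed.exists_pow_nat_eq (-12 * s : ℂ) (n := 2) (by norm_num)
  have hs0 : s ≠ 0 := by
    intro h
    rw [h] at hs
    norm_num at hs
  have ha0 : a ≠ 0 := by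
    intro h
    rw [h] at ha
    apply hs0
    have : (12 : ℂ) * s = 0 := by linear_combination ha
    simpa using this
  have hs' : (C s : ℂ[X]) ^ 2 = -3 := by
    rw [t1klein_C_sq hs, C_neg, t1klein_C_num]
  have ha' : (C a : ℂ[X]) ^ 2 = -12 * C s := by
    rw [t1klein_C_sq ha, C_mul, C_neg, t1klein_C_num]
  refine ⟨C a * (X ^ 5 - X), X ^ 4 + 2 * C s * X ^ 2 + 1, -(X ^ 4 - 2 * C s * X ^ 2 + 1),
    ?_, ?_, ?_⟩
  · linear_combination (X ^ 5 - X) ^ 2 * ha' + 16 * C s * X ^ 6 * hs'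
  · refine t1klein_coprime (c := -96 * s) (A := C a * ((7 * X ^ 2 + 15 * C s) * X))
      (B := -12 * C s * (-7 * X ^ 4 - C s * X ^ 2 + 8)) (by simpa using hs0) ?_
    rw [C_mul, C_neg, t1klein_C_num]
    linear_combination (7 * X ^ 2 + 15 * C s) * X * (X ^ 5 - X) * ha' +
      (-12 * C s) * (-2 * X ^ 4) * hs'
  · have : (C a * (X ^ 5 - X) : ℂ[X]).natDegree = 5 := by
      rw [natDegree_C_mul ha0]
      compute_degree!
    rw [this]
    norm_num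

theorem klein_234 : HasKlein 2 3 4 := by
  obtain ⟨c, hc⟩ := IsAlgClosed.exists_pow_nat_eq (-108 : ℂ) (n := 4) (by norm_num)
  have hc' : (C c : ℂ[X]) ^ 4 = -108 := by
    rw [t1klein_C_sq hc, C_neg, t1klein_C_num]
  have hI : (C Complex.I : ℂ[X]) ^ 2 = -1 := by
    rw [t1klein_C_sq Complex.I_sq, C_neg, C_1]
  refine ⟨C Complex.I * (X ^ 12 - 33 * X ^ 8 - 33 * X ^ 4 + 1), X ^ 8 + 14 * X ^ 4 + 1,
    C c * (X ^ 5 - X), ?_, ?_, ?_⟩
  · linear_combination (X ^ 12 - 33 * X ^ 8 - 33 * X ^ 4 + 1) ^ 2 * hI +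
      (X ^ 5 - X) ^ 4 * hc'
  · refine t1klein_coprime (c := 576) (A := -C Complex.I * (181 + 13 * X ^ 4))
      (B := 395 + 430 * X ^ 4 - 13 * X ^ 8) (by norm_num) ?_
    rw [t1klein_C_num]
    linear_combination -(181 + 13 * X ^ 4) * (X ^ 12 - 33 * X ^ 8 - 33 * X ^ 4 + 1) * hI
  · have : (C Complex.I * (X ^ 12 - 33 * X ^ 8 - 33 * X ^ 4 + 1) : ℂ[X]).natDegree = 12 := by
      rw [natDegree_C_mul Complex.I_ne_zero]
      compute_degree!
    rw [this]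
    norm_num

theorem klein_235 : HasKlein 2 3 5 := by
  obtain ⟨c, hc⟩ := IsAlgClosed.exists_pow_nat_eq (-1728 : ℂ) (n := 5) (by norm_num)
  have hc' : (C c : ℂ[X]) ^ 5 = -1728 := by
    rw [t1klein_C_sq hc, C_neg, t1klein_C_num]
  refine ⟨X ^ 30 + 522 * X ^ 25 - 10005 * X ^ 20 - 10005 * X ^ 10 - 522 * X ^ 5 + 1,
    -X ^ 20 + 228 * X ^ 15 - 494 * X ^ 10 - 228 * X ^ 5 - 1,
    C c * (X * (X ^ 10 + 11 * X ^ 5 - 1)), ?_, ?_, ?_⟩
  · linear_combination (X * (X ^ 10 + 11 * X ^ 5 - 1)) ^ 5 * hc'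
  · refine t1klein_coprime (c := 1406250000)
      (A := 455818677 + 1001301767 * X ^ 5 - 461063031 * X ^ 10 + 2022161 * X ^ 15)
      (B := -950431323 - 20237705983 * X ^ 5 + 103588896 * X ^ 10 - 20237108822 * X ^ 15 +
        1055557719 * X ^ 20 + 2022161 * X ^ 25) (by norm_num) ?_
    rw [t1klein_C_num]
    ring
  · have : (X ^ 30 + 522 * X ^ 25 - 10005 * X ^ 20 - 10005 * X ^ 10 - 522 * X ^ 5 + 1 :
        ℂ[X]).natDegree = 30 := by
      compute_degree!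
    rw [this]
    norm_num

end Pool.Agent.Lib.MP_410da7_ag
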