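import Pool.Agent.Lib.MP_410da7_ag.T1Base

/-!
# Places of the rational function field
-/

set_option autoImplicit false

namespace Pool.Agent.Lib.MP_410da7_ag

open KaehlerDifferential WithZero Polynomial

/-- order of a polynomial at a point of the projective line -/
noncomputable def t1placePord : Option ℂ → ℂ[X] → ℤ
  | some c, p => (p.rootMultiplicity c : ℤ)
  | none, p => -(p.natDegree : ℤ)

theorem t1place_ordAt (c : Option ℂ) (r : RatFunc ℂ) :
    ordAt c r = t1placePord c r.num - t1placePord c r.denom := by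
  cases c with
  | none => simp only [ordAt, t1placePord]; ring
  | some c => simp only [ordAt, t1placePord]

theorem t1place_pord_mul (c : Option ℂ) {p q : ℂ[X]} (hp : p ≠ 0) (hq : q ≠ 0) :
    t1placePord c (p * q) = t1placePord c p + t1placePord c q := by
  cases c with
  | none =>
    simp only [t1placePord]
    rw [natDegree_mul hp hq]
    push_cast
    ring
  | some c =>
    simp only [t1placePord]
    rw [rootMultiplicity_mul (mul_ne_zero hp hq)]
    push_cast
    ring

theorem t1place_ord_div (c : Option ℂ) {p q : ℂ[X]} (hp : p ≠ 0) (hq : q ≠ 0) :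
    ordAt c (algebraMap ℂ[X] (RatFunc ℂ) p / algebraMap ℂ[X] (RatFunc ℂ) q) =
      t1placePord c p - t1placePord c q := by
  set r : RatFunc ℂ := algebraMap ℂ[X] (RatFunc ℂ) p / algebraMap ℂ[X] (RatFunc ℂ) q with hr
  have hr0 : r ≠ 0 := div_ne_zero (RatFunc.algebraMap_ne_zero hp) (RatFunc.algebraMap_ne_zero hq)
  have h1 : r.num * q = p * r.denom := (RatFunc.num_mul_eq_mul_denom_iff hq).mpr hr
  have h2 := congrArg (t1placePord c) h1
  rw [t1place_pord_mul c (RatFunc.num_ne_zero hr0) hq,
    t1place_pord_mul c hp (RatFunc.denom_ne_zero r)] at h2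
  rw [t1place_ordAt]
  linarith

theorem t1place_ord_poly (c : Option ℂ) {p : ℂ[X]} (hp : p ≠ 0) :
    ordAt c (algebraMap ℂ[X] (RatFunc ℂ) p) = t1placePord c p := by
  have h := t1place_ord_div c hp (one_ne_zero : (1 : ℂ[X]) ≠ 0)
  rw [map_one, div_one] at h
  rw [h]
  cases c with
  | none => simp [t1placePord]
  | some c =>
    have : rootMultiplicity c (1 : ℂ[X]) = 0 :=
      rootMultiplicity_eq_zero (by simp)
    simp [t1placePord, this]

theorem ordAt_mul (c : Option ℂ) {r s : RatFunc ℂ} (hr : r ≠ 0) (hs : s ≠ 0) :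
    ordAt c (r * s) = ordAt c r + ordAt c s := by
  have hrn := RatFunc.num_ne_zero hr
  have hsn := RatFunc.num_ne_zero hs
  have hrd := RatFunc.denom_ne_zero r
  have hsd := RatFunc.denom_ne_zero s
  have h1 : r * s = algebraMap ℂ[X] (RatFunc ℂ) (r.num * s.num) /
      algebraMap ℂ[X] (RatFunc ℂ) (r.denom * s.denom) := by
    conv_lhs => rw [← RatFunc.num_div_denom r, ← RatFunc.num_div_denom s]
    rw [map_mul, map_mul, div_mul_div_comm]
  rw [h1, t1place_ord_div c (mul_ne_zero hrn hsn) (mul_ne_zero hrd hsd),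
    t1place_pord_mul c hrn hsn, t1place_pord_mul c hrd hsd, t1place_ordAt c r, t1place_ordAt c s]
  ring

theorem t1place_ord_one (c : Option ℂ) : ordAt c 1 = 0 := by
  have h := ordAt_mul c (one_ne_zero : (1 : RatFunc ℂ) ≠ 0) (one_ne_zero : (1 : RatFunc ℂ) ≠ 0)
  rw [mul_one] at h
  linarith

theorem t1place_ord_inv (c : Option ℂ) {r : RatFunc ℂ} (hr : r ≠ 0) :
    ordAt c r⁻¹ = -ordAt c r := by
  have h := ordAt_mul c hr (inv_ne_zero hr)
  rw [mul_inv_cancel₀ hr, t1place_ord_one] at h
  linarith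

theorem t1place_ord_pow (c : Option ℂ) {r : RatFunc ℂ} (hr : r ≠ 0) (n : ℕ) :
    ordAt c (r ^ n) = n * ordAt c r := by
  induction n with
  | zero => simp [t1place_ord_one]
  | succ n ih =>
    rw [pow_succ, ordAt_mul c (pow_ne_zero n hr) hr, ih]
    push_cast
    ring

theorem t1place_ord_zpow (c : Option ℂ) {r : RatFunc ℂ} (hr : r ≠ 0) (n : ℤ) :
    ordAt c (r ^ n) = n * ordAt c r := by
  cases n with
  | ofNat n =>
    rw [Int.ofNat_eq_natCast, zpow_natCast, t1place_ord_pow c hr]
  | negSucc n =>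
    rw [zpow_negSucc, t1place_ord_inv c (pow_ne_zero _ hr), t1place_ord_pow c hr,
      Int.negSucc_eq]
    push_cast
    ring

theorem t1place_ord_prod (c : Option ℂ) {α : Type} (s : Finset α) (f : α → RatFunc ℂ)
    (hf : ∀ a ∈ s, f a ≠ 0) : ordAt c (∏ a ∈ s, f a) = ∑ a ∈ s, ordAt c (f a) := by
  classical
  induction s using Finset.induction_on with
  | empty => simp [t1place_ord_one]
  | insert a s ha ih =>
    rw [Finset.prod_insert ha, Finset.sum_insert ha, ordAt_mul c (hf a (Finset.mem_insert_self a s))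
      (Finset.prod_ne_zero_iff.mpr (fun b hb => hf b (Finset.mem_insert_of_mem hb))),
      ih (fun b hb => hf b (Finset.mem_insert_of_mem hb))]

theorem ordAt_C (c : Option ℂ) {a : ℂ} (ha : a ≠ 0) : ordAt c (RatFunc.C a) = 0 := by
  have h : (RatFunc.C a : RatFunc ℂ) = algebraMap ℂ[X] (RatFunc ℂ) (C a) :=
    (RatFunc.algebraMap_C a).symm
  rw [h, t1place_ord_poly c (C_ne_zero.mpr ha)]
  cases c with
  | none => simp [t1placePord]
  | some c =>
    have : rootMultiplicity c (C a) = 0 :=
      rootMultiplicity_eq_zero (by simp [IsRoot, ha])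
    simp [t1placePord, this]

theorem t1place_X_sub (c : ℂ) : (RatFunc.X - RatFunc.C c : RatFunc ℂ) =
    algebraMap ℂ[X] (RatFunc ℂ) (X - C c) := by
  rw [map_sub, RatFunc.algebraMap_X, RatFunc.algebraMap_C]

theorem t1place_X_sub_ne (c : ℂ) : (RatFunc.X - RatFunc.C c : RatFunc ℂ) ≠ 0 := by
  rw [t1place_X_sub]
  exact RatFunc.algebraMap_ne_zero (X_sub_C_ne_zero c)

theorem t1place_ord_X_sub_self (c : ℂ) :
    ordAt (some c) (RatFunc.X - RatFunc.C c : RatFunc ℂ) = 1 := by
  rw [t1place_X_sub, t1place_ord_poly _ (X_sub_C_ne_zero c)]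
  simp only [t1placePord]
  rw [rootMultiplicity_X_sub_C_self]
  norm_num

theorem t1place_ord_X_sub_ne {c d : ℂ} (h : c ≠ d) :
    ordAt (some d) (RatFunc.X - RatFunc.C c : RatFunc ℂ) = 0 := by
  rw [t1place_X_sub, t1place_ord_poly _ (X_sub_C_ne_zero c)]
  simp only [t1placePord]
  rw [rootMultiplicity_eq_zero]
  · norm_num
  · rw [IsRoot, eval_sub, eval_X, eval_C, sub_eq_zero]
    exact fun h' => h h'.symm

theorem t1place_ord_X_sub_none (c : ℂ) :
    ordAt none (RatFunc.X - RatFunc.C c : RatFunc ℂ) = -1 := by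
  rw [t1place_X_sub, t1place_ord_poly _ (X_sub_C_ne_zero c)]
  simp only [t1placePord]
  rw [natDegree_X_sub_C]
  norm_num

theorem ordAt_locPar (c : Option ℂ) : ordAt c (locPar c) = 1 := by
  cases c with
  | none =>
    simp only [locPar]
    have hX : (RatFunc.X : RatFunc ℂ) ≠ 0 := RatFunc.X_ne_zero
    have h := t1place_ord_X_sub_none 0
    rw [map_zero, sub_zero] at h
    rw [t1place_ord_inv none hX, h]
    norm_num
  | some c => exact t1place_ord_X_sub_self c

theorem t1place_poly_factor {p : ℂ[X]} (hp : p ≠ 0) (s : Finset ℂ)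
    (hs : ∀ c, c ∉ s → p.rootMultiplicity c = 0) :
    p = C p.leadingCoeff * ∏ c ∈ s, (X - C c) ^ p.rootMultiplicity c ∧
      p.natDegree = ∑ c ∈ s, p.rootMultiplicity c := by
  classical
  have hsp : p.Splits := IsAlgClosed.splits p
  have hsub : p.roots.toFinset ⊆ s := by
    intro c hc
    by_contra hcs
    rw [Multiset.mem_toFinset, mem_roots hp] at hc
    have := hs c hcs
    rw [rootMultiplicity_eq_zero_iff] at this
    exact hp (this hc)
  have h1 : (p.roots.map fun a => X - C a).prod =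
      ∏ c ∈ s, (X - C c) ^ p.rootMultiplicity c := by
    rw [Finset.prod_multiset_map_count]
    rw [Finset.prod_subset hsub]
    · refine Finset.prod_congr rfl fun c _ => ?_
      rw [count_roots]
    · intro c _ hc
      rw [Multiset.mem_toFinset, ← Multiset.count_eq_zero] at hc
      rw [hc, pow_zero]
  have h2 : p.roots.card = ∑ c ∈ s, p.rootMultiplicity c := by
    rw [← Multiset.toFinset_sum_count_eq, Finset.sum_subset hsub]
    · refine Finset.sum_congr rfl fun c _ => ?_
      rw [count_roots]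
    · intro c _ hc
      rw [Multiset.mem_toFinset, ← Multiset.count_eq_zero] at hc
      exact hc
  refine ⟨?_, ?_⟩
  · rw [← h1]
    exact hsp.eq_prod_roots
  · rw [← h2]
    exact hsp.natDegree_eq_card_roots

theorem ratFunc_factor {r : RatFunc ℂ} (hr : r ≠ 0) : ∃ (a : ℂ) (s : Finset ℂ), a ≠ 0 ∧
    (∀ c, c ∉ s → ordAt (some c) r = 0) ∧
    r = RatFunc.C a * ∏ c ∈ s, (RatFunc.X - RatFunc.C c) ^ ordAt (some c) r ∧
    ordAt none r = -∑ c ∈ s, ordAt (some c) r := by
  classical
  have hn := RatFunc.num_ne_zero hr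
  have hd := RatFunc.denom_ne_zero r
  set s : Finset ℂ := r.num.roots.toFinset ∪ r.denom.roots.toFinset with hsdef
  have hs1 : ∀ c, c ∉ s → r.num.rootMultiplicity c = 0 := by
    intro c hc
    rw [hsdef, Finset.mem_union, not_or] at hc
    rw [Multiset.mem_toFinset, mem_roots hn] at hc
    exact rootMultiplicity_eq_zero hc.1
  have hs2 : ∀ c, c ∉ s → r.denom.rootMultiplicity c = 0 := by
    intro c hc
    rw [hsdef, Finset.mem_union, not_or] at hc
    have h2 := hc.2
    rw [Multiset.mem_toFinset, mem_roots hd] at h2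
    exact rootMultiplicity_eq_zero h2
  obtain ⟨hn1, hn2⟩ := t1place_poly_factor hn s hs1
  obtain ⟨hd1, hd2⟩ := t1place_poly_factor hd s hs2
  refine ⟨r.num.leadingCoeff / r.denom.leadingCoeff, s, ?_, ?_, ?_, ?_⟩
  · exact div_ne_zero (leadingCoeff_ne_zero.mpr hn) (leadingCoeff_ne_zero.mpr hd)
  · intro c hc
    simp only [ordAt]
    rw [hs1 c hc, hs2 c hc]
    norm_num
  · have e1 : algebraMap ℂ[X] (RatFunc ℂ) r.num = RatFunc.C r.num.leadingCoeff *
        ∏ c ∈ s, (RatFunc.X - RatFunc.C c) ^ r.num.rootMultiplicity c := by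
      conv_lhs => rw [hn1]
      rw [map_mul, RatFunc.algebraMap_C, map_prod]
      congr 1
      refine Finset.prod_congr rfl fun c _ => ?_
      rw [map_pow, t1place_X_sub]
    have e2 : algebraMap ℂ[X] (RatFunc ℂ) r.denom = RatFunc.C r.denom.leadingCoeff *
        ∏ c ∈ s, (RatFunc.X - RatFunc.C c) ^ r.denom.rootMultiplicity c := by
      conv_lhs => rw [hd1]
      rw [map_mul, RatFunc.algebraMap_C, map_prod]
      congr 1
      refine Finset.prod_congr rfl fun c _ => ?_
      rw [map_pow, t1place_X_sub]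
    conv_lhs => rw [← RatFunc.num_div_denom r, e1, e2]
    rw [mul_div_mul_comm, ← Finset.prod_div_distrib, map_div₀]
    congr 1
    refine Finset.prod_congr rfl fun c _ => ?_
    simp only [ordAt]
    rw [zpow_sub₀ (t1place_X_sub_ne c), zpow_natCast, zpow_natCast]
  · simp only [ordAt]
    rw [hn2, hd2, Finset.sum_sub_distrib]
    push_cast
    ring

theorem exists_ratFunc_ord (s : Finset (Option ℂ)) (k : Option ℂ → ℤ) (hk : ∀ c, c ∉ s → k c = 0)
    (hsum : ∑ c ∈ s, k c = 0) : ∃ h : RatFunc ℂ, h ≠ 0 ∧ ∀ c, ordAt c h = k c := by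
  classical
  set t : Finset ℂ := Finset.eraseNone s with ht
  have hfac : ∀ c ∈ t, ((RatFunc.X - RatFunc.C c : RatFunc ℂ) ^ k (some c)) ≠ 0 :=
    fun c _ => zpow_ne_zero _ (t1place_X_sub_ne c)
  have hsum2 : k none + ∑ c ∈ t, k (some c) = 0 := by
    have h1 : ∑ c ∈ insert none s, k c = 0 := by
      by_cases hns : (none : Option ℂ) ∈ s
      · rw [Finset.insert_eq_of_mem hns, hsum]
      · rw [Finset.sum_insert hns, hk _ hns, hsum, add_zero]
    have h2 : insert none s = Finset.insertNone t := by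
      rw [ht, Finset.insertNone_eraseNone]
    rw [h2, Finset.sum_insertNone] at h1
    exact h1
  refine ⟨∏ c ∈ t, (RatFunc.X - RatFunc.C c) ^ k (some c), ?_, ?_⟩
  · exact Finset.prod_ne_zero_iff.mpr hfac
  · intro c
    rw [t1place_ord_prod c t _ hfac]
    cases c with
    | none =>
      have : ∀ c ∈ t, ordAt none ((RatFunc.X - RatFunc.C c : RatFunc ℂ) ^ k (some c)) =
          -k (some c) := by
        intro c _
        rw [t1place_ord_zpow none (t1place_X_sub_ne c), t1place_ord_X_sub_none]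
        ring
      rw [Finset.sum_congr rfl this, Finset.sum_neg_distrib]
      linarith
    | some d =>
      have h1 : ∀ c ∈ t, ordAt (some d) ((RatFunc.X - RatFunc.C c : RatFunc ℂ) ^ k (some c)) =
          if c = d then k (some d) else 0 := by
        intro c _
        rw [t1place_ord_zpow _ (t1place_X_sub_ne c)]
        split_ifs with hcd
        · subst hcd
          rw [t1place_ord_X_sub_self]
          ring
        · rw [t1place_ord_X_sub_ne hcd]
          ring
      rw [Finset.sum_congr rfl h1, Finset.sum_ite_eq']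
      split_ifs with hd
      · rfl
      · rw [hk]
        rwa [ht, Finset.mem_eraseNone] at hd

theorem exists_place (w : Valuation (RatFunc ℂ) ℤᵐ⁰)
    (hw : ∀ c : ℂ, c ≠ 0 → w (algebraMap ℂ (RatFunc ℂ) c) = 1) :
    (∀ r : RatFunc ℂ, r ≠ 0 → w r = 1) ∨
      ∃ (c : Option ℂ) (μ : ℕ), 0 < μ ∧
        ∀ r : RatFunc ℂ, r ≠ 0 → w r = exp (-((μ : ℤ) * ordAt c r)) := by
  classical
  have hwC : ∀ a : ℂ, a ≠ 0 → w (RatFunc.C a) = 1 := by
    intro a ha
    rw [← RatFunc.algebraMap_eq_C]
    exact hw a ha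
  have hwle : ∀ a : ℂ, w (RatFunc.C a) ≤ 1 := by
    intro a
    by_cases ha : a = 0
    · rw [ha, map_zero, map_zero]
      exact zero_le_one
    · exact (hwC a ha).le
  -- general formula
  have hgen : ∀ (f : ℂ → ℤ), (∀ c, w (RatFunc.X - RatFunc.C c) = exp (f c)) →
      ∀ r : RatFunc ℂ, r ≠ 0 → ∀ (a : ℂ) (s : Finset ℂ), a ≠ 0 →
      r = RatFunc.C a * ∏ c ∈ s, (RatFunc.X - RatFunc.C c) ^ ordAt (some c) r →
      w r = exp (∑ c ∈ s, ordAt (some c) r * f c) := by
    intro f hf r _ a s ha hrs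
    conv_lhs => rw [hrs]
    rw [map_mul, hwC a ha, one_mul, map_prod]
    have : ∀ t : Finset ℂ, ∏ c ∈ t, w ((RatFunc.X - RatFunc.C c) ^ ordAt (some c) r) =
        exp (∑ c ∈ t, ordAt (some c) r * f c) := by
      intro t
      induction t using Finset.induction_on with
      | empty => simp
      | insert c t hc ih =>
        rw [Finset.prod_insert hc, Finset.sum_insert hc, ih, map_zpow₀, hf c, exp_add, ← exp_zsmul,
          smul_eq_mul]
    exact this s
  have hexp : ∀ c : ℂ, ∃ n : ℤ, w (RatFunc.X - RatFunc.C c) = exp n := by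
    intro c
    have hne : w (RatFunc.X - RatFunc.C c) ≠ 0 := (Valuation.ne_zero_iff w).mpr (t1place_X_sub_ne c)
    exact ⟨log (w (RatFunc.X - RatFunc.C c)), (exp_log hne).symm⟩
  choose f hf using hexp
  by_cases hX : w RatFunc.X ≤ 1
  · have hfle : ∀ c, f c ≤ 0 := by
      intro c
      have h1 : w (RatFunc.X - RatFunc.C c) ≤ 1 :=
        (Valuation.map_sub_le w hX (hwle c))
      rw [hf c, ← exp_zero, exp_le_exp] at h1
      exact h1
    by_cases hall : ∀ c, f c = 0
    · left
      intro r hr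
      obtain ⟨a, s, ha, -, hrs, -⟩ := ratFunc_factor hr
      rw [hgen f hf r hr a s ha hrs]
      simp [hall]
    · right
      obtain ⟨c₀, hc₀⟩ := not_forall.mp hall
      have hneg : f c₀ < 0 := lt_of_le_of_ne (hfle c₀) hc₀
      have hoth : ∀ c, c ≠ c₀ → f c = 0 := by
        intro c hc
        by_contra hne
        have hlt : f c < 0 := lt_of_le_of_ne (hfle c) hne
        have h1 : w (RatFunc.C (c - c₀)) = 1 := hwC _ (sub_ne_zero.mpr hc)
        have h2 : (RatFunc.C (c - c₀) : RatFunc ℂ) =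
            (RatFunc.X - RatFunc.C c₀) - (RatFunc.X - RatFunc.C c) := by
          rw [map_sub]; ring
        have h3 : w ((RatFunc.X - RatFunc.C c₀) - (RatFunc.X - RatFunc.C c)) < 1 := by
          apply Valuation.map_sub_lt
          · rw [hf c₀, ← exp_zero, exp_lt_exp]; exact hneg
          · rw [hf c, ← exp_zero, exp_lt_exp]; exact hlt
        rw [← h2, h1] at h3
        exact lt_irrefl _ h3
      refine ⟨some c₀, (f c₀).natAbs, Int.natAbs_pos.mpr hc₀, ?_⟩
      intro r hr
      obtain ⟨a, s, ha, hs0, hrs, -⟩ := ratFunc_factor hr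
      rw [hgen f hf r hr a s ha hrs]
      congr 1
      have h1 : ∑ c ∈ s, ordAt (some c) r * f c = ordAt (some c₀) r * f c₀ := by
        by_cases hmem : c₀ ∈ s
        · rw [Finset.sum_eq_single c₀]
          · intro c _ hc
            rw [hoth c hc, mul_zero]
          · intro h; exact absurd hmem h
        · rw [hs0 c₀ hmem, zero_mul]
          refine Finset.sum_eq_zero fun c hc => ?_
          rw [hoth c (fun h => hmem (h ▸ hc)), mul_zero]
      rw [h1]
      have h2 : ((f c₀).natAbs : ℤ) = -f c₀ := by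
        rw [Int.ofNat_natAbs_of_nonpos hneg.le]
      rw [h2]
      ring
  · right
    rw [not_le] at hX
    have hXne : w RatFunc.X ≠ 0 := (Valuation.ne_zero_iff w).mpr RatFunc.X_ne_zero
    set N : ℤ := log (w RatFunc.X) with hN
    have hwX : w RatFunc.X = exp N := (exp_log hXne).symm
    have hNpos : 0 < N := by
      rw [hwX, ← exp_zero, exp_lt_exp] at hX
      exact hX
    have hall : ∀ c, w (RatFunc.X - RatFunc.C c) = exp ((fun _ : ℂ => N) c) := by
      intro c
      have h1 : w (RatFunc.C c) < w RatFunc.X := lt_of_le_of_lt (hwle c) hX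
      rw [Valuation.map_sub_eq_of_lt_left w h1, hwX]
    refine ⟨none, N.natAbs, Int.natAbs_pos.mpr hNpos.ne', ?_⟩
    intro r hr
    obtain ⟨a, s, ha, -, hrs, hnone⟩ := ratFunc_factor hr
    rw [hgen _ hall r hr a s ha hrs]
    congr 1
    rw [hnone, ← Finset.sum_mul, Int.natAbs_of_nonneg hNpos.le]
    ring

end Pool.Agent.Lib.MP_410da7_ag
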