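import Pool.Agent.Lib.MP_410da7_ag.T1Base
import Pool.Agent.Lib.MP_410da7_ag.T1Place
import Pool.Agent.Lib.MP_410da7_ag.T1Klein

/-!
# Orbifold structures on the projective line
-/

set_option autoImplicit false

namespace Pool.Agent.Lib.MP_410da7_ag

open KaehlerDifferential WithZero Polynomial

/-- first coefficient of the linear form of a point of the projective line -/
private noncomputable def t1combA : Option ℂ → ℂ
  | some _ => 1
  | none => 0

/-- second coefficient of the linear form of a point of the projective line -/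
private noncomputable def t1combB : Option ℂ → ℂ
  | some c => -c
  | none => 1

private noncomputable def t1combDet (c d : Option ℂ) : ℂ :=
  t1combA c * t1combB d - t1combA d * t1combB c

private theorem t1comb_linForm (c : Option ℂ) (p q : ℂ[X]) :
    linForm c p q = C (t1combA c) * p + C (t1combB c) * q := by
  cases c with
  | none => simp [linForm, t1combA, t1combB]
  | some c => simp [linForm, t1combA, t1combB]; ring

private theorem t1comb_det_ne {c d : Option ℂ} (h : c ≠ d) : t1combDet c d ≠ 0 := by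
  cases c with
  | none =>
    cases d with
    | none => exact absurd rfl h
    | some d => simp [t1combDet, t1combA, t1combB]
  | some c =>
    cases d with
    | none => simp [t1combDet, t1combA, t1combB]
    | some d =>
      have h1 : c ≠ d := fun h2 => h (by rw [h2])
      simp only [t1combDet, t1combA, t1combB]
      intro h2
      apply h1
      linear_combination h2

/-- prescribe two linear forms -/
private theorem t1comb_solve {c₁ c₂ : Option ℂ} (h : c₁ ≠ c₂) (f₁ f₂ : ℂ[X]) :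
    ∃ p q : ℂ[X], linForm c₁ p q = f₁ ∧ linForm c₂ p q = f₂ ∧
      ∀ c, linForm c p q = C (t1combDet c c₂ / t1combDet c₁ c₂) * f₁ +
        C (t1combDet c₁ c / t1combDet c₁ c₂) * f₂ := by
  have hd := t1comb_det_ne h
  set δ := t1combDet c₁ c₂ with hδ
  have hgen : ∀ c, linForm c
      (C (t1combB c₂ / δ) * f₁ - C (t1combB c₁ / δ) * f₂)
      (C (t1combA c₁ / δ) * f₂ - C (t1combA c₂ / δ) * f₁) =
      C (t1combDet c c₂ / δ) * f₁ + C (t1combDet c₁ c / δ) * f₂ := by
    intro c
    rw [t1comb_linForm]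
    have e1 : t1combDet c c₂ / δ = t1combA c * (t1combB c₂ / δ) - t1combB c * (t1combA c₂ / δ) := by
      simp only [t1combDet]; ring
    have e2 : t1combDet c₁ c / δ = t1combB c * (t1combA c₁ / δ) - t1combA c * (t1combB c₁ / δ) := by
      simp only [t1combDet]; ring
    rw [e1, e2]
    simp only [map_sub, map_mul]
    ring
  have hself : ∀ c, t1combDet c c = 0 := by
    intro c
    simp only [t1combDet]; ring
  refine ⟨_, _, ?_, ?_, hgen⟩
  · rw [hgen, hself, ← hδ, div_self hd]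
    simp
  · rw [hgen, hself, ← hδ, div_self hd]
    simp

private theorem t1comb_coprime {c₁ c₂ : Option ℂ} {p q : ℂ[X]}
    (h : IsCoprime (linForm c₁ p q) (linForm c₂ p q)) : IsCoprime p q := by
  obtain ⟨u, v, huv⟩ := h
  rw [t1comb_linForm, t1comb_linForm] at huv
  exact ⟨u * C (t1combA c₁) + v * C (t1combA c₂), u * C (t1combB c₁) + v * C (t1combB c₂), by
    rw [← huv]; ring⟩

private theorem t1comb_nonconst {c : Option ℂ} {p q : ℂ[X]} (h : 0 < (linForm c p q).natDegree) :
    0 < p.natDegree ∨ 0 < q.natDegree := by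
  by_contra hcon
  push Not at hcon
  have hp : p.natDegree = 0 := by omega
  have hq : q.natDegree = 0 := by omega
  rw [t1comb_linForm] at h
  have h1 := natDegree_add_le (C (t1combA c) * p) (C (t1combB c) * q)
  have h2 := natDegree_C_mul_le (t1combA c) p
  have h3 := natDegree_C_mul_le (t1combB c) q
  rcases le_max_iff.mp h1 with h4 | h4 <;> omega

private theorem t1comb_dvd (k : ℂ) (hk : k ≠ 0) (P : ℂ[X]) (a : ℕ) (τ : ℂ) :
    a ∣ (C k * P ^ a).rootMultiplicity τ := by
  rw [← count_roots, roots_C_mul _ hk, roots_pow, Multiset.count_nsmul]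
  exact dvd_mul_right _ _

/-- three points and a solution of Klein's equation -/
private theorem t1comb_line3 (M : Option ℂ → Set ℕ) {c₁ c₂ c₃ : Option ℂ} (h12 : c₁ ≠ c₂)
    (h13 : c₁ ≠ c₃) (h23 : c₂ ≠ c₃) (hgood : ∀ c, c ≠ c₁ → c ≠ c₂ → c ≠ c₃ → 1 ∈ M c)
    {a b d : ℕ} (ha : a ∈ M c₁) (hb : b ∈ M c₂) (hd : d ∈ M c₃) (ha0 : 0 < a)
    (hK : HasKlein a b d) : ∃ p q : ℂ[X], OrbiLine M p q := by
  obtain ⟨P₁, P₂, P₃, hsum, hcop, hdeg⟩ := hK
  have l1 : t1combDet c₃ c₂ / t1combDet c₁ c₂ ≠ 0 :=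
    div_ne_zero (t1comb_det_ne h23.symm) (t1comb_det_ne h12)
  have l2 : t1combDet c₁ c₃ / t1combDet c₁ c₂ ≠ 0 :=
    div_ne_zero (t1comb_det_ne h13) (t1comb_det_ne h12)
  set k1 := t1combDet c₃ c₂ / t1combDet c₁ c₂ with hk1
  set k2 := t1combDet c₁ c₃ / t1combDet c₁ c₂ with hk2
  obtain ⟨p, q, e1, e2, e3⟩ := t1comb_solve h12 (C k1⁻¹ * P₁ ^ a) (C k2⁻¹ * P₂ ^ b)
  have e3' : linForm c₃ p q = C (-1) * P₃ ^ d := by
    rw [e3 c₃, ← hk1, ← hk2, ← mul_assoc, ← mul_assoc, ← C_mul, ← C_mul, mul_inv_cancel₀ l1,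
      mul_inv_cancel₀ l2]
    simp only [map_one, map_neg]
    linear_combination hsum
  have u1 : IsUnit (C k1⁻¹ : ℂ[X]) := isUnit_C.mpr (inv_ne_zero l1).isUnit
  have u2 : IsUnit (C k2⁻¹ : ℂ[X]) := isUnit_C.mpr (inv_ne_zero l2).isUnit
  refine ⟨p, q, ?_, ?_, ?_⟩
  · apply t1comb_coprime (c₁ := c₁) (c₂ := c₂)
    rw [e1, e2]
    rw [isCoprime_mul_unit_left_left u1, isCoprime_mul_unit_left_right u2]
    exact hcop.pow
  · apply t1comb_nonconst (c := c₁)
    rw [e1, natDegree_C_mul (inv_ne_zero l1), natDegree_pow]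
    exact Nat.mul_pos ha0 hdeg
  · intro c τ _
    by_cases hc1 : c = c₁
    · subst hc1
      exact ⟨a, ha, by rw [e1]; exact t1comb_dvd _ (inv_ne_zero l1) _ _ _⟩
    by_cases hc2 : c = c₂
    · subst hc2
      exact ⟨b, hb, by rw [e2]; exact t1comb_dvd _ (inv_ne_zero l2) _ _ _⟩
    by_cases hc3 : c = c₃
    · subst hc3
      exact ⟨d, hd, by rw [e3']; exact t1comb_dvd _ (by norm_num) _ _ _⟩
    · exact ⟨1, hgood c hc1 hc2 hc3, one_dvd _⟩

/-- two points -/
private theorem t1comb_line2 (M : Option ℂ → Set ℕ) {c₁ c₂ : Option ℂ} (h12 : c₁ ≠ c₂)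
    (hgood : ∀ c, c ≠ c₁ → c ≠ c₂ → 1 ∈ M c) {a : ℕ} (ha : a ∈ M c₁) (ha0 : 0 < a) :
    ∃ p q : ℂ[X], OrbiLine M p q := by
  obtain ⟨p, q, e1, e2, -⟩ := t1comb_solve h12 (X ^ a) 1
  refine ⟨p, q, ?_, ?_, ?_⟩
  · apply t1comb_coprime (c₁ := c₁) (c₂ := c₂)
    rw [e1, e2]
    exact isCoprime_one_right
  · apply t1comb_nonconst (c := c₁)
    rw [e1, natDegree_X_pow]
    exact ha0
  · intro c τ hτ
    by_cases hc1 : c = c₁
    · subst hc1
      refine ⟨a, ha, ?_⟩
      rw [e1]
      have := t1comb_dvd 1 one_ne_zero X a τ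
      simpa using this
    by_cases hc2 : c = c₂
    · subst hc2
      rw [e2] at hτ
      simp at hτ
    · exact ⟨1, hgood c hc1 hc2, one_dvd _⟩

/-- the forms -/
private theorem t1comb_form (M : Option ℂ → Set ℕ) (hM0 : ∀ c, ∀ μ ∈ M c, 0 < μ) (m : ℕ)
    (hm : m ∣ 12) (T : Finset (Option ℂ)) (n : Option ℂ → ℤ) (hn0 : ∀ c, c ∉ T → n c = 0)
    (hsum : ∑ c ∈ T, n c = 2 * m) (hle : ∀ c ∈ T, n c ≤ m)
    (hmul : ∀ c ∈ T, ∀ μ ∈ M c, (m : ℤ) ≤ μ * (m - n c)) :
    ∃ (m : ℕ) (h : RatFunc ℂ), m ∣ 12 ∧ h ≠ 0 ∧ OrbiForm M m h := by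
  classical
  obtain ⟨h, h0, hord⟩ := exists_ratFunc_ord (insert none T) (fun c => m * dlt c - n c)
    (by
      intro c hc
      rw [Finset.mem_insert, not_or] at hc
      cases c with
      | none => exact absurd rfl hc.1
      | some c => simp [dlt, hn0 _ hc.2])
    (by
      rw [Finset.sum_sub_distrib]
      have e1 : ∑ c ∈ insert none T, (m : ℤ) * dlt c = 2 * m := by
        rw [Finset.sum_eq_single none]
        · simp [dlt]; ring
        · intro b _ hb
          cases b with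
          | none => exact absurd rfl hb
          | some b => simp [dlt]
        · intro hb
          exact absurd (Finset.mem_insert_self _ _) hb
      have e2 : ∑ c ∈ insert none T, n c = 2 * m := by
        by_cases hT : none ∈ T
        · rw [Finset.insert_eq_of_mem hT, hsum]
        · rw [Finset.sum_insert hT, hn0 _ hT, hsum, zero_add]
      rw [e1, e2, sub_self])
  refine ⟨m, h, hm, h0, ?_⟩
  intro c
  rw [hord c]
  have e : (m : ℤ) + (m * dlt c - n c - m * dlt c) = m - n c := by ring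
  rw [e]
  by_cases hc : c ∈ T
  · exact ⟨by linarith [hle c hc], hmul c hc⟩
  · rw [hn0 c hc, sub_zero]
    refine ⟨by positivity, ?_⟩
    intro μ hμ
    have h1 : (1 : ℤ) ≤ μ := by exact_mod_cast hM0 c μ hμ
    nlinarith

/-- forms with three poles -/
private theorem t1comb_form3 (M : Option ℂ → Set ℕ) (hM0 : ∀ c, ∀ μ ∈ M c, 0 < μ) (m : ℕ)
    (hm : m ∣ 12) {c₁ c₂ c₃ : Option ℂ} (h12 : c₁ ≠ c₂) (h13 : c₁ ≠ c₃) (h23 : c₂ ≠ c₃)
    (n₁ n₂ n₃ : ℤ) (hsum : n₁ + n₂ + n₃ = 2 * m) (l1 : n₁ ≤ m) (l2 : n₂ ≤ m) (l3 : n₃ ≤ m)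
    (m1 : ∀ μ ∈ M c₁, (m : ℤ) ≤ μ * (m - n₁)) (m2 : ∀ μ ∈ M c₂, (m : ℤ) ≤ μ * (m - n₂))
    (m3 : ∀ μ ∈ M c₃, (m : ℤ) ≤ μ * (m - n₃)) :
    ∃ (m : ℕ) (h : RatFunc ℂ), m ∣ 12 ∧ h ≠ 0 ∧ OrbiForm M m h := by
  classical
  let n : Option ℂ → ℤ := fun c => if c = c₁ then n₁ else if c = c₂ then n₂ else
    if c = c₃ then n₃ else 0
  have e1 : n c₁ = n₁ := by simp [n]
  have e2 : n c₂ = n₂ := by simp [n, h12.symm]
  have e3 : n c₃ = n₃ := by simp [n, h13.symm, h23.symm]
  apply t1comb_form M hM0 m hm {c₁, c₂, c₃} n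
  · intro c hc
    simp only [Finset.mem_insert, Finset.mem_singleton, not_or] at hc
    simp [n, hc.1, hc.2.1, hc.2.2]
  · rw [Finset.sum_insert (by simp [h12, h13]), Finset.sum_insert (by simp [h23]),
      Finset.sum_singleton, e1, e2, e3, ← hsum]
    ring
  · intro c hc
    simp only [Finset.mem_insert, Finset.mem_singleton] at hc
    rcases hc with rfl | rfl | rfl
    · rw [e1]; exact l1
    · rw [e2]; exact l2
    · rw [e3]; exact l3
  · intro c hc
    simp only [Finset.mem_insert, Finset.mem_singleton] at hc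
    rcases hc with rfl | rfl | rfl
    · rw [e1]; exact m1
    · rw [e2]; exact m2
    · rw [e3]; exact m3

/-- three finite multiplicities in increasing order -/
private theorem t1comb_sorted (M : Option ℂ → Set ℕ) (hM0 : ∀ c, ∀ μ ∈ M c, 0 < μ)
    {c₁ c₂ c₃ : Option ℂ} (h12 : c₁ ≠ c₂) (h13 : c₁ ≠ c₃) (h23 : c₂ ≠ c₃)
    (hgood : ∀ c, c ≠ c₁ → c ≠ c₂ → c ≠ c₃ → 1 ∈ M c)
    {x y z : ℕ} (hx : x ∈ M c₁) (hy : y ∈ M c₂) (hz : z ∈ M c₃) (hx' : ∀ μ ∈ M c₁, x ≤ μ)
    (hy' : ∀ μ ∈ M c₂, y ≤ μ) (hz' : ∀ μ ∈ M c₃, z ≤ μ) (h2 : 2 ≤ x) (hxy : x ≤ y) (hyz : y ≤ z) :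
    (∃ (m : ℕ) (h : RatFunc ℂ), m ∣ 12 ∧ h ≠ 0 ∧ OrbiForm M m h) ∨ ∃ p q : ℂ[X], OrbiLine M p q := by
  by_cases hx3 : 3 ≤ x
  · left
    refine t1comb_form3 M hM0 3 (by norm_num) h12 h13 h23 2 2 2 (by norm_num) (by norm_num)
      (by norm_num) (by norm_num) ?_ ?_ ?_
    · intro μ hμ
      have := hx' μ hμ
      push_cast
      have : (3 : ℤ) ≤ μ := by exact_mod_cast (by omega : 3 ≤ μ)
      linarith
    · intro μ hμ
      have := hy' μ hμ
      push_cast
      have : (3 : ℤ) ≤ μ := by exact_mod_cast (by omega : 3 ≤ μ)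
      linarith
    · intro μ hμ
      have := hz' μ hμ
      push_cast
      have : (3 : ℤ) ≤ μ := by exact_mod_cast (by omega : 3 ≤ μ)
      linarith
  have hx2 : x = 2 := by omega
  by_cases hy4 : 4 ≤ y
  · left
    refine t1comb_form3 M hM0 4 (by norm_num) h12 h13 h23 2 3 3 (by norm_num) (by norm_num)
      (by norm_num) (by norm_num) ?_ ?_ ?_
    · intro μ hμ
      have := hx' μ hμ
      push_cast
      have : (2 : ℤ) ≤ μ := by exact_mod_cast (by omega : 2 ≤ μ)
      linarith
    · intro μ hμ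
      have := hy' μ hμ
      push_cast
      have : (4 : ℤ) ≤ μ := by exact_mod_cast (by omega : 4 ≤ μ)
      linarith
    · intro μ hμ
      have := hz' μ hμ
      push_cast
      have : (4 : ℤ) ≤ μ := by exact_mod_cast (by omega : 4 ≤ μ)
      linarith
  by_cases h36 : 3 ≤ y ∧ 6 ≤ z
  · left
    refine t1comb_form3 M hM0 6 (by norm_num) h12 h13 h23 3 4 5 (by norm_num) (by norm_num)
      (by norm_num) (by norm_num) ?_ ?_ ?_
    · intro μ hμ
      have := hx' μ hμ
      push_cast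
      have : (2 : ℤ) ≤ μ := by exact_mod_cast (by omega : 2 ≤ μ)
      linarith
    · intro μ hμ
      have := hy' μ hμ
      push_cast
      have : (3 : ℤ) ≤ μ := by exact_mod_cast (by omega : 3 ≤ μ)
      linarith
    · intro μ hμ
      have := hz' μ hμ
      push_cast
      have : (6 : ℤ) ≤ μ := by exact_mod_cast (by omega : 6 ≤ μ)
      linarith
  right
  apply t1comb_line3 M h12 h13 h23 hgood hx hy hz (by omega)
  rw [hx2]
  have hy23 : y = 2 ∨ y = 3 := by omega
  rcases hy23 with rfl | rfl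
  · exact klein_22n z (by omega)
  · have hz345 : z = 3 ∨ z = 4 ∨ z = 5 := by omega
    rcases hz345 with rfl | rfl | rfl
    · exact klein_233
    · exact klein_234
    · exact klein_235

theorem orbi_dichotomy_dvd (M : Option ℂ → Set ℕ) (hM0 : ∀ c, ∀ μ ∈ M c, 0 < μ)
    (hfin : {c | 1 ∉ M c}.Finite) :
    (∃ (m : ℕ) (h : RatFunc ℂ), m ∣ 12 ∧ h ≠ 0 ∧ OrbiForm M m h) ∨ ∃ p q : ℂ[X], OrbiLine M p q := by
  classical
  -- the set of bad points
  set S : Finset (Option ℂ) := hfin.toFinset with hS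
  have memS : ∀ c, c ∈ S ↔ 1 ∉ M c := fun c => by simp [hS]
  have bad2 : ∀ c ∈ S, ∀ μ ∈ M c, 2 ≤ μ := by
    intro c hc μ hμ
    have h0 := hM0 c μ hμ
    by_contra hlt
    have : μ = 1 := by omega
    subst this
    exact (memS c).mp hc hμ
  -- minimal multiplicities
  have hmin : ∀ c, (M c).Nonempty → ∃ x ∈ M c, ∀ μ ∈ M c, x ≤ μ := by
    intro c hc
    exact ⟨sInf (M c), Nat.sInf_mem hc, fun μ hμ => Nat.sInf_le hμ⟩
  by_cases h4 : 4 ≤ S.card
  · left
    obtain ⟨T, hTS, hT⟩ := Finset.exists_subset_card_eq h4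
    apply t1comb_form M hM0 2 (by norm_num) T (fun c => if c ∈ T then 1 else 0)
    · intro c hc
      simp [hc]
    · rw [Finset.sum_ite_mem, Finset.inter_self, Finset.sum_const, hT]
      norm_num
    · intro c hc
      simp [hc]
    · intro c hc μ hμ
      have h2 := bad2 c (hTS hc) μ hμ
      have : (2 : ℤ) ≤ μ := by exact_mod_cast h2
      simp only [hc, if_true]
      push_cast
      linarith
  by_cases h3 : S.card = 3
  · obtain ⟨a, b, c, hab, hac, hbc, hSe⟩ := Finset.card_eq_three.mp h3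
    have ha : a ∈ S := by rw [hSe]; simp
    have hb : b ∈ S := by rw [hSe]; simp
    have hc : c ∈ S := by rw [hSe]; simp
    have hgood : ∀ e, e ≠ a → e ≠ b → e ≠ c → 1 ∈ M e := by
      intro e h1 h2 h3
      by_contra hcon
      have := (memS e).mpr hcon
      rw [hSe] at this
      simp [h1, h2, h3] at this
    -- one infinite multiplicity
    have hinf : ∀ a b c : Option ℂ, a ≠ b → a ≠ c → b ≠ c → a ∈ S → b ∈ S → M c = ∅ →
        (∃ (m : ℕ) (h : RatFunc ℂ), m ∣ 12 ∧ h ≠ 0 ∧ OrbiForm M m h) := by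
      intro a b c hab hac hbc ha hb hc
      refine t1comb_form3 M hM0 2 (by norm_num) hab hac hbc 1 1 2 (by norm_num) (by norm_num)
        (by norm_num) (by norm_num) ?_ ?_ ?_
      · intro μ hμ
        have := bad2 a ha μ hμ
        push_cast
        have : (2 : ℤ) ≤ μ := by exact_mod_cast this
        linarith
      · intro μ hμ
        have := bad2 b hb μ hμ
        push_cast
        have : (2 : ℤ) ≤ μ := by exact_mod_cast this
        linarith
      · intro μ hμ
        rw [hc] at hμ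
        exact absurd hμ (Set.notMem_empty μ)
    by_cases ea : (M a).Nonempty
    swap
    · left
      exact hinf b c a hbc hab.symm hac.symm hb hc (Set.not_nonempty_iff_eq_empty.mp ea)
    by_cases eb : (M b).Nonempty
    swap
    · left
      exact hinf a c b hac hab hbc.symm ha hc (Set.not_nonempty_iff_eq_empty.mp eb)
    by_cases ec : (M c).Nonempty
    swap
    · left
      exact hinf a b c hab hac hbc ha hb (Set.not_nonempty_iff_eq_empty.mp ec)
    obtain ⟨x, hx, hx'⟩ := hmin a ea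
    obtain ⟨y, hy, hy'⟩ := hmin b eb
    obtain ⟨z, hz, hz'⟩ := hmin c ec
    have x2 := bad2 a ha x hx
    have y2 := bad2 b hb y hy
    have z2 := bad2 c hc z hz
    rcases le_total x y with hxy | hxy
    · rcases le_total y z with hyz | hyz
      · exact t1comb_sorted M hM0 hab hac hbc hgood hx hy hz hx' hy' hz' x2 hxy hyz
      · rcases le_total x z with hxz | hxz
        · exact t1comb_sorted M hM0 hac hab hbc.symm (fun e h1 h2 h3 => hgood e h1 h3 h2)
            hx hz hy hx' hz' hy' x2 hxz hyz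
        · exact t1comb_sorted M hM0 hac.symm hbc.symm hab (fun e h1 h2 h3 => hgood e h2 h3 h1)
            hz hx hy hz' hx' hy' z2 hxz hxy
    · rcases le_total x z with hxz | hxz
      · exact t1comb_sorted M hM0 hab.symm hbc hac (fun e h1 h2 h3 => hgood e h2 h1 h3)
          hy hx hz hy' hx' hz' y2 hxy hxz
      · rcases le_total y z with hyz | hyz
        · exact t1comb_sorted M hM0 hbc hab.symm hac.symm (fun e h1 h2 h3 => hgood e h3 h1 h2)
            hy hz hx hy' hz' hx' y2 hyz hxz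
        · exact t1comb_sorted M hM0 hbc.symm hac.symm hab.symm
            (fun e h1 h2 h3 => hgood e h3 h2 h1) hz hy hx hz' hy' hx' z2 hyz hxy
  -- at most two bad points
  have hcard : S.card ≤ 2 := by omega
  by_cases h2 : S.card = 2
  · obtain ⟨a, b, hab, hSe⟩ := Finset.card_eq_two.mp h2
    have ha : a ∈ S := by rw [hSe]; simp
    have hb : b ∈ S := by rw [hSe]; simp
    have hgood : ∀ e, e ≠ a → e ≠ b → 1 ∈ M e := by
      intro e h1 h2
      by_contra hcon
      have := (memS e).mpr hcon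
      rw [hSe] at this
      simp [h1, h2] at this
    by_cases ea : (M a).Nonempty
    · right
      obtain ⟨x, hx, -⟩ := hmin a ea
      exact t1comb_line2 M hab hgood hx (hM0 a x hx)
    by_cases eb : (M b).Nonempty
    · right
      obtain ⟨x, hx, -⟩ := hmin b eb
      exact t1comb_line2 M hab.symm (fun e h1 h2 => hgood e h2 h1) hx (hM0 b x hx)
    left
    rw [Set.not_nonempty_iff_eq_empty] at ea eb
    apply t1comb_form M hM0 1 (by norm_num) {a, b} (fun c => if c = a ∨ c = b then 1 else 0)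
    · intro c hc
      simp only [Finset.mem_insert, Finset.mem_singleton] at hc
      simp [hc]
    · rw [Finset.sum_pair hab]
      simp
    · intro c _
      split_ifs <;> simp
    · intro c hc μ hμ
      simp only [Finset.mem_insert, Finset.mem_singleton] at hc
      rcases hc with rfl | rfl
      · rw [ea] at hμ
        exact absurd hμ (Set.notMem_empty μ)
      · rw [eb] at hμ
        exact absurd hμ (Set.notMem_empty μ)
  · right
    have h1 : S.card ≤ 1 := by omega
    -- a point outside which everything is good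
    obtain ⟨b, hb⟩ : ∃ b, ∀ e, e ≠ b → 1 ∈ M e := by
      rcases Nat.lt_or_ge 0 S.card with hpos | hz
      · have : S.card = 1 := by omega
        obtain ⟨b, hSe⟩ := Finset.card_eq_one.mp this
        refine ⟨b, fun e he => ?_⟩
        by_contra hcon
        have := (memS e).mpr hcon
        rw [hSe] at this
        simp [he] at this
      · have : S = ∅ := Finset.card_eq_zero.mp (by omega)
        refine ⟨none, fun e _ => ?_⟩
        by_contra hcon
        have h2 := (memS e).mpr hcon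
        rw [this] at h2
        simp at h2
    obtain ⟨a, hab⟩ : ∃ a : Option ℂ, a ≠ b := by
      cases b with
      | none => exact ⟨some 0, by simp⟩
      | some b => exact ⟨none, by simp⟩
    exact t1comb_line2 M hab (fun e _ h2 => hb e h2) (hb a hab) one_pos

theorem t1comb_ordAt_pow (c : Option ℂ) {r : RatFunc ℂ} (hr : r ≠ 0) (k : ℕ) :
    ordAt c (r ^ k) = k * ordAt c r := by
  induction k with
  | zero =>
    have := ordAt_C c (one_ne_zero (α := ℂ))
    rw [map_one] at this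
    rw [pow_zero, this]
    simp
  | succ k ih =>
    rw [pow_succ, ordAt_mul c (pow_ne_zero _ hr) hr, ih]
    push_cast
    ring

theorem orbi_dichotomy (M : Option ℂ → Set ℕ) (hM0 : ∀ c, ∀ μ ∈ M c, 0 < μ)
    (hfin : {c | 1 ∉ M c}.Finite) :
    (∃ h : RatFunc ℂ, h ≠ 0 ∧ OrbiForm M 12 h) ∨ ∃ p q : ℂ[X], OrbiLine M p q := by
  rcases orbi_dichotomy_dvd M hM0 hfin with ⟨m, h, ⟨k, hk⟩, h0, hH⟩ | h
  · left
    refine ⟨h ^ k, pow_ne_zero _ h0, fun c => ?_⟩
    rw [t1comb_ordAt_pow c h0 k]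
    have e : (12 : ℤ) = k * m := by exact_mod_cast (by rw [hk, mul_comm])
    have e2 : ((12 : ℕ) : ℤ) + (k * ordAt c h - (12 : ℕ) * dlt c) =
        k * ((m : ℤ) + (ordAt c h - m * dlt c)) := by
      push_cast
      rw [e]; ring
    rw [e2]
    obtain ⟨h1, h2⟩ := hH c
    have hk0 : (0 : ℤ) ≤ k := Int.natCast_nonneg k
    refine ⟨mul_nonneg hk0 h1, fun μ hμ => ?_⟩
    have h3 := mul_le_mul_of_nonneg_left (h2 μ hμ) hk0
    push_cast
    rw [e]
    calc (k : ℤ) * m ≤ k * (μ * ((m : ℤ) + (ordAt c h - m * dlt c))) := h3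
      _ = μ * (k * ((m : ℤ) + (ordAt c h - m * dlt c))) := by ring
  · exact Or.inr h

end Pool.Agent.Lib.MP_410da7_ag
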