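import Pool.Agent.Lib.MP_410da7_ag.T1Base
import Pool.Agent.Lib.MP_410da7_ag.T1Place

/-!
# Curves on varieties of complexity one
-/

set_option autoImplicit false
set_option linter.unusedSectionVars false

namespace Pool.Agent.Lib.MP_410da7_ag

open KaehlerDifferential WithZero Polynomial

section gen

variable (B : Type) [CommRing B] [IsDomain B] [Algebra ℂ B]

/-- the embedding `ℂ[t] → B[t]` -/
noncomputable def t1curveMap : ℂ[X] →ₐ[ℂ] B[X] := Polynomial.mapAlgHom (Algebra.ofId ℂ B)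

/-- the embedding `ℂ[t] → Frac (B[t])` -/
noncomputable def t1curveJ : ℂ[X] →ₐ[ℂ] FractionRing B[X] :=
  (IsScalarTower.toAlgHom ℂ B[X] (FractionRing B[X])).comp (t1curveMap B)

theorem t1curveMap_injective : Function.Injective (t1curveMap B) := by
  have h : Function.Injective (algebraMap ℂ B) := (algebraMap ℂ B).injective
  exact Polynomial.map_injective _ h

theorem t1curveJ_injective : Function.Injective (t1curveJ B) :=
  (IsFractionRing.injective B[X] (FractionRing B[X])).comp (t1curveMap_injective B)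

theorem t1curveJ_ne_zero {f : ℂ[X]} (hf : f ≠ 0) : t1curveJ B f ≠ 0 :=
  (map_ne_zero_iff _ (t1curveJ_injective B)).2 hf

theorem t1curve_exists_tau (P : Ideal B[X]) (hP : P.IsPrime) :
    ∃ τ : ℂ, ∀ f : ℂ[X], f.eval τ ≠ 0 → t1curveMap B f ∉ P := by
  have hQ : (P.comap (t1curveMap B)).IsPrime := Ideal.IsPrime.comap _
  obtain ⟨f0, hf0⟩ := (IsPrincipalIdealRing.principal (P.comap (t1curveMap B))).principal
  have hdeg : f0.degree ≠ 0 := by
    intro h0
    apply hQ.ne_top
    rw [hf0, Ideal.submodule_span_eq, Ideal.span_singleton_eq_top]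
    exact Polynomial.isUnit_iff_degree_eq_zero.2 h0
  obtain ⟨τ, hτ⟩ := IsAlgClosed.exists_root f0 hdeg
  refine ⟨τ, fun f hf hmem => hf ?_⟩
  have h1 : f ∈ P.comap (t1curveMap B) := hmem
  rw [hf0, Ideal.submodule_span_eq, Ideal.mem_span_singleton] at h1
  obtain ⟨g, rfl⟩ := h1
  rw [eval_mul, hτ.eq_zero, zero_mul]

variable {B}

/-- `x` is a unit of the local ring at `P` -/
def t1curveUnit (P : Ideal B[X]) (x : FractionRing B[X]) : Prop :=
  ∃ a b : B[X], a ∉ P ∧ b ∉ P ∧ x * algebraMap B[X] (FractionRing B[X]) b =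
    algebraMap B[X] (FractionRing B[X]) a

theorem t1curveUnit_of {P : Ideal B[X]} (hP : P.IsPrime) {a : B[X]} (ha : a ∉ P) :
    t1curveUnit P (algebraMap B[X] (FractionRing B[X]) a) :=
  ⟨a, 1, ha, fun h => hP.ne_top ((Ideal.eq_top_iff_one P).2 h), by simp⟩

theorem t1curveUnit_one {P : Ideal B[X]} (hP : P.IsPrime) :
    t1curveUnit P (1 : FractionRing B[X]) :=
  ⟨1, 1, fun h => hP.ne_top ((Ideal.eq_top_iff_one P).2 h),
    fun h => hP.ne_top ((Ideal.eq_top_iff_one P).2 h), by simp⟩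

theorem t1curveUnit_mul {P : Ideal B[X]} (hP : P.IsPrime) {x y : FractionRing B[X]}
    (hx : t1curveUnit P x) (hy : t1curveUnit P y) : t1curveUnit P (x * y) := by
  obtain ⟨a, b, ha, hb, h1⟩ := hx
  obtain ⟨c, d, hc, hd, h2⟩ := hy
  refine ⟨a * c, b * d, fun h => (hP.mem_or_mem h).elim ha hc,
    fun h => (hP.mem_or_mem h).elim hb hd, ?_⟩
  rw [map_mul, map_mul, ← h1, ← h2]
  ring

theorem t1curveUnit_inv {P : Ideal B[X]} {x : FractionRing B[X]}
    (hx : t1curveUnit P x) : t1curveUnit P x⁻¹ := by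
  obtain ⟨a, b, ha, hb, h1⟩ := hx
  refine ⟨b, a, hb, ha, ?_⟩
  have hx0 : x ≠ 0 := by
    rintro rfl
    rw [zero_mul] at h1
    have : a = 0 := (IsFractionRing.injective B[X] (FractionRing B[X])) (by rw [← h1, map_zero])
    exact ha (this ▸ P.zero_mem)
  rw [← h1, inv_mul_cancel_left₀ hx0]

theorem t1curveUnit_pow {P : Ideal B[X]} (hP : P.IsPrime) {x : FractionRing B[X]}
    (hx : t1curveUnit P x) (k : ℕ) : t1curveUnit P (x ^ k) := by
  induction k with
  | zero => simpa using t1curveUnit_one hP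
  | succ k ih => rw [pow_succ]; exact t1curveUnit_mul hP ih hx

theorem t1curveUnit_zpow {P : Ideal B[X]} (hP : P.IsPrime) {x : FractionRing B[X]}
    (hx : t1curveUnit P x) (k : ℤ) : t1curveUnit P (x ^ k) := by
  cases k with
  | ofNat k => simpa using t1curveUnit_pow hP hx k
  | negSucc k => rw [zpow_negSucc]; exact t1curveUnit_inv (t1curveUnit_pow hP hx _)

theorem t1curveUnit_prod {P : Ideal B[X]} (hP : P.IsPrime) {α : Type} (s : Finset α)
    (x : α → FractionRing B[X]) (hx : ∀ i ∈ s, t1curveUnit P (x i)) :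
    t1curveUnit P (∏ i ∈ s, x i) := by
  classical
  induction s using Finset.induction_on with
  | empty => simpa using t1curveUnit_one hP
  | insert i s hi ih =>
    rw [Finset.prod_insert hi]
    exact t1curveUnit_mul hP (hx i (Finset.mem_insert_self _ _))
      (ih fun j hj => hx j (Finset.mem_insert_of_mem hj))

end gen

section ring

variable (n : ℕ)

/-- the coordinate functions of the torus -/
noncomputable def t1curveX (i : Fin n) : AddMonoidAlgebra ℂ (Fin n → ℤ) :=
  AddMonoidAlgebra.single (Pi.single i 1) 1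

/-- the inclusion of exponents -/
def t1curveExp : (Fin n →₀ ℕ) →+ (Fin n → ℤ) where
  toFun m := fun i => (m i : ℤ)
  map_zero' := by ext i; simp
  map_add' a b := by ext i; simp

theorem t1curveExp_injective : Function.Injective (t1curveExp n) := by
  intro a b h
  ext i
  have h1 : ((a i : ℕ) : ℤ) = ((b i : ℕ) : ℤ) := congrFun h i
  exact_mod_cast h1

theorem t1curve_algInd : AlgebraicIndependent ℂ (t1curveX n) := by
  have h1 : (MvPolynomial.aeval (t1curveX n) : MvPolynomial (Fin n) ℂ →ₐ[ℂ] _) =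
      (AddMonoidAlgebra.mapDomainAlgHom ℂ ℂ (t1curveExp n)) := by
    apply MvPolynomial.algHom_ext
    intro i
    rw [MvPolynomial.aeval_X]
    have h2 : (MvPolynomial.X i : MvPolynomial (Fin n) ℂ) =
      (AddMonoidAlgebra.single (Finsupp.single i 1) 1 : AddMonoidAlgebra ℂ (Fin n →₀ ℕ)) := rfl
    rw [h2]
    erw [AddMonoidAlgebra.mapDomainAlgHom_apply, AddMonoidAlgebra.mapDomain_single]
    unfold t1curveX
    congr 1
    ext j
    by_cases h : j = i
    · subst h; simp [t1curveExp]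
    · simp [t1curveExp, h]
  unfold AlgebraicIndependent
  have h3 : Function.Injective (MvPolynomial.aeval (t1curveX n) : MvPolynomial (Fin n) ℂ →ₐ[ℂ] _) := by
    rw [h1]
    exact AddMonoidAlgebra.mapDomain_injective (t1curveExp_injective n)
  exact h3

theorem t1curve_mem_adjoin (m : Fin n →₀ ℕ) :
    AddMonoidAlgebra.single (t1curveExp n m) (1 : ℂ) ∈
      Algebra.adjoin ℂ (Set.range (t1curveX n)) := by
  induction m using Finsupp.induction_linear with
  | zero => rw [map_zero]; exact Subalgebra.one_mem _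
  | add f g hf hg =>
    have : (AddMonoidAlgebra.single (t1curveExp n (f + g)) (1 : ℂ)) =
      AddMonoidAlgebra.single (t1curveExp n f) (1 : ℂ) *
      AddMonoidAlgebra.single (t1curveExp n g) (1 : ℂ) := by
      rw [AddMonoidAlgebra.single_mul_single, map_add, one_mul]
    rw [this]
    exact Subalgebra.mul_mem _ hf hg
  | single i k =>
    have : (AddMonoidAlgebra.single (t1curveExp n (Finsupp.single i k)) (1 : ℂ)) =
      t1curveX n i ^ k := by
      unfold t1curveX
      rw [AddMonoidAlgebra.single_pow, one_pow]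
      congr 1
      ext j
      by_cases h : j = i
      · subst h; simp [t1curveExp]
      · simp [t1curveExp, h]
    rw [this]
    exact Subalgebra.pow_mem _ (Algebra.subset_adjoin (Set.mem_range_self i)) k

theorem t1curve_isAlgebraic :
    Algebra.IsAlgebraic (Algebra.adjoin ℂ (Set.range (t1curveX n)))
      (AddMonoidAlgebra ℂ (Fin n → ℤ)) := by
  constructor
  intro a
  induction a using AddMonoidAlgebra.induction_on with
  | of u =>
    let mp : Fin n →₀ ℕ := Finsupp.equivFunOnFinite.symm fun i => (u i).toNat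
    let mm : Fin n →₀ ℕ := Finsupp.equivFunOnFinite.symm fun i => (-(u i)).toNat
    have h1 : u + t1curveExp n mm = t1curveExp n mp := by
      ext i
      simp only [t1curveExp, mm, mp, Pi.add_apply, AddMonoidHom.coe_mk, ZeroHom.coe_mk,
        Finsupp.equivFunOnFinite_symm_apply_apply]
      omega
    let A := Algebra.adjoin ℂ (Set.range (t1curveX n))
    let a : A := ⟨_, t1curve_mem_adjoin n mm⟩
    let b : A := ⟨_, t1curve_mem_adjoin n mp⟩
    have ha : a ≠ 0 := by
      intro h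
      have h' := congrArg Subtype.val h
      simp only [a, ZeroMemClass.coe_zero] at h'
      rw [AddMonoidAlgebra.single_eq_zero] at h'
      exact one_ne_zero h'
    refine ⟨C a * X - C b, ?_, ?_⟩
    · intro h
      have h' := congrArg (fun f : A[X] => f.coeff 1) h
      simp [coeff_C] at h'
      exact ha h'
    · simp only [map_sub, map_mul, aeval_C, aeval_X]
      change (AddMonoidAlgebra.single (t1curveExp n mm) (1 : ℂ)) *
        AddMonoidAlgebra.single u 1 - AddMonoidAlgebra.single (t1curveExp n mp) (1 : ℂ) = 0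
      rw [AddMonoidAlgebra.single_mul_single, one_mul, ← h1, add_comm, sub_self]
  | add f g hf hg => exact hf.add hg
  | smul r f hf => 
    rw [Algebra.smul_def]
    exact (isAlgebraic_algebraMap (R := Algebra.adjoin ℂ (Set.range (t1curveX n)))
      (⟨algebraMap ℂ _ r, Subalgebra.algebraMap_mem _ r⟩ :
        Algebra.adjoin ℂ (Set.range (t1curveX n)))).mul hf

theorem t1curve_trdeg : Algebra.trdeg ℂ (AddMonoidAlgebra ℂ (Fin n → ℤ)) = (n : Cardinal) := by
  have h : IsTranscendenceBasis ℂ (t1curveX n) :=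
    (t1curve_algInd n).isTranscendenceBasis_iff_isAlgebraic.2 (t1curve_isAlgebraic n)
  have := h.cardinalMk_eq_trdeg
  simpa using this.symm

end ring

section pq

variable {p q : ℂ[X]}

theorem t1curve_unique (h : IsCoprime p q) {c c' : Option ℂ} {τ : ℂ}
    (h1 : (linForm c p q).IsRoot τ) (h2 : (linForm c' p q).IsRoot τ) : c = c' := by
  obtain ⟨u, v, huv⟩ := h
  have h3 : u.eval τ * p.eval τ + v.eval τ * q.eval τ = 1 := by
    rw [← eval_mul, ← eval_mul, ← eval_add, huv, eval_one]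
  cases c with
  | none =>
    cases c' with
    | none => rfl
    | some c' =>
      exfalso
      simp only [linForm, IsRoot.def, eval_sub, eval_mul, eval_C] at h1 h2
      rw [h1] at h2 h3
      rw [mul_zero, sub_zero] at h2
      rw [h2] at h3
      simp at h3
  | some c =>
    cases c' with
    | none =>
      exfalso
      simp only [linForm, IsRoot.def, eval_sub, eval_mul, eval_C] at h1 h2
      rw [h2] at h1 h3
      rw [mul_zero, sub_zero] at h1
      rw [h1] at h3
      simp at h3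
    | some c' =>
      simp only [linForm, IsRoot.def, eval_sub, eval_mul, eval_C] at h1 h2
      have hq : q.eval τ ≠ 0 := by
        intro hq
        rw [hq, mul_zero, sub_zero] at h1
        rw [hq, h1] at h3
        simp at h3
      have h4 : (c - c') * q.eval τ = 0 := by linear_combination h2 - h1
      rcases mul_eq_zero.1 h4 with h5 | h5
      · rw [sub_eq_zero.1 h5]
      · exact absurd h5 hq

theorem t1curve_exists_root (τ : ℂ) :
    ∃ c : Option ℂ, (linForm c p q).IsRoot τ := by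
  by_cases hq : q.eval τ = 0
  · exact ⟨none, hq⟩
  · refine ⟨some (p.eval τ / q.eval τ), ?_⟩
    simp only [linForm, IsRoot.def, eval_sub, eval_mul, eval_C]
    field_simp
    ring

theorem t1curve_subst_injective (h : IsCoprime p q) (hn : 0 < p.natDegree ∨ 0 < q.natDegree) :
    Function.Injective (aeval (algebraMap ℂ[X] (RatFunc ℂ) p / algebraMap ℂ[X] (RatFunc ℂ) q) :
      ℂ[X] →ₐ[ℂ] RatFunc ℂ) := by
  rw [injective_iff_map_eq_zero]
  intro f hf
  by_contra hf0
  have hq : algebraMap ℂ[X] (RatFunc ℂ) q ≠ 0 := by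
    have := linForm_ne_zero h hn none
    exact (map_ne_zero_iff _ (RatFunc.algebraMap_injective ℂ)).2 this
  have hs := IsAlgClosed.splits f
  rw [hs.eq_prod_roots, map_mul, aeval_C, mul_eq_zero] at hf
  rcases hf with hf | hf
  · rw [map_eq_zero_iff _ (algebraMap ℂ (RatFunc ℂ)).injective, leadingCoeff_eq_zero] at hf
    exact hf0 hf
  · rw [map_multiset_prod, Multiset.prod_eq_zero_iff, Multiset.mem_map] at hf
    obtain ⟨x, hx, hx0⟩ := hf
    rw [Multiset.mem_map] at hx
    obtain ⟨c, hc, rfl⟩ := hx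
    rw [map_sub, aeval_X, aeval_C] at hx0
    have h1 := linForm_ne_zero h hn (some c)
    apply h1
    apply RatFunc.algebraMap_injective ℂ
    simp only [linForm]
    rw [map_zero, map_sub, map_mul]
    have h2 : algebraMap ℂ[X] (RatFunc ℂ) (C c) = algebraMap ℂ (RatFunc ℂ) c := rfl
    rw [h2]
    have h3 : algebraMap ℂ[X] (RatFunc ℂ) p / algebraMap ℂ[X] (RatFunc ℂ) q =
      algebraMap ℂ (RatFunc ℂ) c := sub_eq_zero.1 hx0
    rw [div_eq_iff hq] at h3
    rw [h3, sub_self]

/-- substitution `X ↦ p / q` -/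
noncomputable def t1curveSubst (h : IsCoprime p q) (hn : 0 < p.natDegree ∨ 0 < q.natDegree) :
    RatFunc ℂ →ₐ[ℂ] RatFunc ℂ :=
  RatFunc.liftAlgHom (aeval (algebraMap ℂ[X] (RatFunc ℂ) p / algebraMap ℂ[X] (RatFunc ℂ) q))
    (nonZeroDivisors_le_comap_nonZeroDivisors_of_injective _ (t1curve_subst_injective h hn))

theorem t1curveSubst_X (h : IsCoprime p q) (hn : 0 < p.natDegree ∨ 0 < q.natDegree) :
    t1curveSubst h hn RatFunc.X =
      algebraMap ℂ[X] (RatFunc ℂ) p / algebraMap ℂ[X] (RatFunc ℂ) q := by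
  unfold t1curveSubst
  rw [← RatFunc.algebraMap_X]
  have := RatFunc.liftAlgHom_apply_div (aeval (R := ℂ) (algebraMap ℂ[X] (RatFunc ℂ) p / algebraMap ℂ[X] (RatFunc ℂ) q))
    (nonZeroDivisors_le_comap_nonZeroDivisors_of_injective _ (t1curve_subst_injective h hn)) X 1
  simpa using this

theorem t1curveSubst_formula (h : IsCoprime p q) (hn : 0 < p.natDegree ∨ 0 < q.natDegree)
    {r : RatFunc ℂ} (hr : r ≠ 0) : ∃ (a : ℂ) (s : Finset (Option ℂ)), a ≠ 0 ∧
      (∀ c, c ∉ s → ordAt c r = 0) ∧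
      t1curveSubst h hn r = algebraMap ℂ (RatFunc ℂ) a *
        ∏ c ∈ s, (algebraMap ℂ[X] (RatFunc ℂ) (linForm c p q)) ^ ordAt c r := by
  obtain ⟨a, s, ha, hs, h1, h2⟩ := ratFunc_factor hr
  have hq : algebraMap ℂ[X] (RatFunc ℂ) q ≠ 0 := by
    have := linForm_ne_zero h hn none
    exact (map_ne_zero_iff _ (RatFunc.algebraMap_injective ℂ)).2 this
  refine ⟨a, Finset.insertNone s, ha, ?_, ?_⟩
  · intro c hc
    cases c with
    | none => simp at hc
    | some c => exact hs c (by simpa using hc)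
  · rw [Finset.prod_insertNone]
    conv_lhs => rw [h1]
    rw [map_mul, map_prod]
    have h3 : t1curveSubst h hn (RatFunc.C a) = algebraMap ℂ (RatFunc ℂ) a := by
      have : (RatFunc.C a : RatFunc ℂ) = algebraMap ℂ (RatFunc ℂ) a := rfl
      rw [this, AlgHom.commutes]
    rw [h3]
    congr 1
    have h4 : ∀ c ∈ s, t1curveSubst h hn ((RatFunc.X - RatFunc.C c) ^ ordAt (some c) r) =
        (algebraMap ℂ[X] (RatFunc ℂ) (linForm (some c) p q)) ^ ordAt (some c) r /
          (algebraMap ℂ[X] (RatFunc ℂ) q) ^ ordAt (some c) r := by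
      intro c hc
      rw [map_zpow₀, map_sub, t1curveSubst_X, ← div_zpow]
      congr 1
      have h5 : t1curveSubst h hn (RatFunc.C c) = algebraMap ℂ (RatFunc ℂ) c := by
        have : (RatFunc.C c : RatFunc ℂ) = algebraMap ℂ (RatFunc ℂ) c := rfl
        rw [this, AlgHom.commutes]
      rw [h5]
      simp only [linForm]
      rw [map_sub, map_mul]
      have h2 : algebraMap ℂ[X] (RatFunc ℂ) (C c) = algebraMap ℂ (RatFunc ℂ) c := rfl
      rw [h2]
      field_simp
    rw [Finset.prod_congr rfl h4, Finset.prod_div_distrib, h2, zpow_neg]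
    have h6 : ∀ t : Finset ℂ, ∏ c ∈ t, (algebraMap ℂ[X] (RatFunc ℂ) q) ^ ordAt (some c) r =
        (algebraMap ℂ[X] (RatFunc ℂ) q) ^ (∑ c ∈ t, ordAt (some c) r) := by
      intro t
      classical
      induction t using Finset.induction_on with
      | empty => simp
      | insert i t hi ih => rw [Finset.prod_insert hi, Finset.sum_insert hi, ih, zpow_add₀ hq]
    rw [h6]
    simp only [linForm]
    rw [div_eq_mul_inv, mul_comm]

end pq

section dd

theorem t1curve_exponents {K : Type} [Field K] [Algebra ℂ K] {n : ℕ} (κ : RatFunc ℂ →ₐ[ℂ] K)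
    {χ : (Fin n → ℤ) → K} {ι : Type} (U : ι → Subalgebra ℂ K)
    (i0 : ι) (E : Finset (Option ℂ)) (hE : ∀ c, c ∉ E → ∀ (r : RatFunc ℂ) (u : Fin n → ℤ), r ≠ 0 →
      κ r * χ u ∈ U i0 → 0 ≤ ordAt c r)
    (p q : ℂ[X]) (hpq : OrbiLine (Mult κ χ U) p q) :
    ∃ (T : Finset ℂ) (e : ℂ → (Fin n → ℤ) →+ ℤ), (∀ τ, τ ∉ T → e τ = 0) ∧
      ∀ τ, ∃ (c : Option ℂ) (i : ι), (linForm c p q).IsRoot τ ∧
        ∀ (r : RatFunc ℂ) (u : Fin n → ℤ), r ≠ 0 → κ r * χ u ∈ U i →
          0 ≤ ((linForm c p q).rootMultiplicity τ : ℤ) * ordAt c r + e τ u := by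
  classical
  have hne := linForm_ne_zero hpq.coprime hpq.nonconst
  have h1 : ∀ τ, ∃ (c : Option ℂ) (e : (Fin n → ℤ) →+ ℤ) (i : ι), (linForm c p q).IsRoot τ ∧
      ∀ (r : RatFunc ℂ) (u : Fin n → ℤ), r ≠ 0 → κ r * χ u ∈ U i →
          0 ≤ ((linForm c p q).rootMultiplicity τ : ℤ) * ordAt c r + e u := by
    intro τ
    obtain ⟨c, hc⟩ := t1curve_exists_root (p := p) (q := q) τ
    obtain ⟨μ, ⟨hμ0, l, i, hl⟩, m, hm⟩ := hpq.dvd c τ hc
    refine ⟨c, (m : ℤ) • l, i, hc, fun r u hr hmem => ?_⟩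
    have h2 := hl r u hr hmem
    rw [hm]
    have h3 : ((m : ℤ) • l) u = (m : ℤ) * l u := by simp
    rw [h3, Nat.cast_mul, mul_right_comm, mul_comm (_ * _) (m : ℤ), ← mul_add]
    exact mul_nonneg (Int.natCast_nonneg m) h2
  choose c e i hc he using h1
  refine ⟨E.biUnion fun c => (linForm c p q).roots.toFinset,
    fun τ => if τ ∈ E.biUnion (fun c => (linForm c p q).roots.toFinset) then e τ else 0,
    fun τ hτ => if_neg hτ, fun τ => ?_⟩
  by_cases hτ : τ ∈ E.biUnion (fun c => (linForm c p q).roots.toFinset)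
  · refine ⟨c τ, i τ, hc τ, ?_⟩
    beta_reduce
    rw [if_pos hτ]
    exact he τ
  · refine ⟨c τ, i0, hc τ, ?_⟩
    beta_reduce
    rw [if_neg hτ]
    intro r u hr hmem
    have h4 : c τ ∉ E := by
      intro h
      apply hτ
      rw [Finset.mem_biUnion]
      refine ⟨c τ, h, ?_⟩
      rw [Multiset.mem_toFinset, mem_roots (hne _)]
      exact hc τ
    have h5 := hE _ h4 r u hr hmem
    rw [AddMonoidHom.zero_apply, add_zero]
    exact mul_nonneg (Int.natCast_nonneg _) h5

variable {B : Type} [CommRing B] [IsDomain B] [Algebra ℂ B]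

theorem t1curve_prod_factor {P : Ideal B[X]} (hP : P.IsPrime) {α : Type} (s : Finset α)
    (f : α → FractionRing B[X]) (k : α → ℤ) (a0 : α) (hk : a0 ∉ s → k a0 = 0)
    (hf : ∀ a, a ≠ a0 → t1curveUnit P (f a)) :
    ∃ y, t1curveUnit P y ∧ ∏ a ∈ s, f a ^ k a = f a0 ^ k a0 * y := by
  classical
  by_cases h : a0 ∈ s
  · refine ⟨∏ a ∈ s.erase a0, f a ^ k a, ?_, (Finset.mul_prod_erase s _ h).symm⟩
    apply t1curveUnit_prod hP
    intro a ha
    exact t1curveUnit_zpow hP (hf a (Finset.ne_of_mem_erase ha)) _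
  · refine ⟨∏ a ∈ s, f a ^ k a, ?_, ?_⟩
    · apply t1curveUnit_prod hP
      intro a ha
      exact t1curveUnit_zpow hP (hf a (fun h1 => h (h1 ▸ ha))) _
    · rw [hk h, zpow_zero, one_mul]

variable (B) in
/-- the embedding `ℂ(t) → Frac (B[t])` -/
noncomputable def t1curveJ' : RatFunc ℂ →ₐ[ℂ] FractionRing B[X] :=
  RatFunc.liftAlgHom (t1curveJ B)
    (nonZeroDivisors_le_comap_nonZeroDivisors_of_injective _ (t1curveJ_injective B))

theorem t1curveJ'_algebraMap (f : ℂ[X]) :
    t1curveJ' B (algebraMap ℂ[X] (RatFunc ℂ) f) = t1curveJ B f := by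
  unfold t1curveJ'
  have := RatFunc.liftAlgHom_apply_div (t1curveJ B)
    (nonZeroDivisors_le_comap_nonZeroDivisors_of_injective _ (t1curveJ_injective B)) f 1
  simpa using this

theorem t1curveJ'_linInd {n : ℕ} (s : Finset (Fin n → ℤ)) (f : (Fin n → ℤ) → RatFunc ℂ)
    (h : ∑ u ∈ s, t1curveJ' (AddMonoidAlgebra ℂ (Fin n → ℤ)) (f u) *
      algebraMap (AddMonoidAlgebra ℂ (Fin n → ℤ))[X]
        (FractionRing (AddMonoidAlgebra ℂ (Fin n → ℤ))[X])
        (C (AddMonoidAlgebra.single u 1)) = 0) : ∀ u ∈ s, f u = 0 := by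
  obtain ⟨d, hd⟩ := IsLocalization.exist_integer_multiples (nonZeroDivisors ℂ[X]) s f
  have hd0 : (d : ℂ[X]) ≠ 0 := nonZeroDivisors.ne_zero d.2
  have hd' : ∀ u : (Fin n → ℤ), ∃ F : ℂ[X], u ∈ s →
      algebraMap ℂ[X] (RatFunc ℂ) F = algebraMap ℂ[X] (RatFunc ℂ) d * f u := by
    intro u
    by_cases hu : u ∈ s
    · obtain ⟨F, hF⟩ := hd u hu
      exact ⟨F, fun _ => by rw [hF, Algebra.smul_def]⟩
    · exact ⟨0, fun h => absurd h hu⟩
  choose F hF using hd'
  have h1 : ∑ u ∈ s, t1curveMap (AddMonoidAlgebra ℂ (Fin n → ℤ)) (F u) *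
      (C (AddMonoidAlgebra.single u 1)) = 0 := by
    apply IsFractionRing.injective (AddMonoidAlgebra ℂ (Fin n → ℤ))[X]
      (FractionRing (AddMonoidAlgebra ℂ (Fin n → ℤ))[X])
    rw [map_sum, map_zero]
    have h2 := congrArg (fun z => t1curveJ' (AddMonoidAlgebra ℂ (Fin n → ℤ))
      (algebraMap ℂ[X] (RatFunc ℂ) d) * z) h
    simp only [mul_zero, Finset.mul_sum] at h2
    rw [← h2]
    apply Finset.sum_congr rfl
    intro u hu
    rw [← mul_assoc, ← map_mul, ← hF u hu, t1curveJ'_algebraMap, map_mul]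
    rfl
  intro u hu
  have h3 : F u = 0 := by
    ext k
    have h4 := congrArg (fun z : (AddMonoidAlgebra ℂ (Fin n → ℤ))[X] => z.coeff k) h1
    simp only [finsetSum_coeff, coeff_mul_C, coeff_zero] at h4
    have h5 : ∀ v, (t1curveMap (AddMonoidAlgebra ℂ (Fin n → ℤ)) (F v)).coeff k *
        AddMonoidAlgebra.single v 1 = AddMonoidAlgebra.single v ((F v).coeff k) := by
      intro v
      have : (t1curveMap (AddMonoidAlgebra ℂ (Fin n → ℤ)) (F v)).coeff k =
        algebraMap ℂ _ ((F v).coeff k) := by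
        simp [t1curveMap]
      rw [this, ← Algebra.smul_def]
      simp
    simp only [h5] at h4
    have h6 := congrArg (fun z : (AddMonoidAlgebra ℂ (Fin n → ℤ)) => z.coeff u) h4
    simp only [AddMonoidAlgebra.coeff_sum, AddMonoidAlgebra.coeff_single, Finsupp.finsetSum_apply,
      AddMonoidAlgebra.coeff_zero, Finsupp.coe_zero, Pi.zero_apply] at h6
    rw [Finset.sum_eq_single_of_mem u hu (fun v _ hv => Finsupp.single_eq_of_ne (Ne.symm hv)),
      Finsupp.single_eq_same] at h6
    rw [h6, coeff_zero]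
  have h7 := hF u hu
  rw [h3, map_zero] at h7
  have h8 : algebraMap ℂ[X] (RatFunc ℂ) d ≠ 0 :=
    (map_ne_zero_iff _ (RatFunc.algebraMap_injective ℂ)).2 hd0
  exact (mul_eq_zero.1 h7.symm).resolve_left h8

end dd

section ee

variable {n : ℕ}

/-- ring homomorphism from `ℂ(X)[ℤ^n]` given by `g : ℂ(X) → R` and multiplicative `χ` -/
noncomputable def t1curveLift {R : Type} [CommRing R] (g : RatFunc ℂ →+* R)
    (χ : (Fin n → ℤ) → R) (h0 : χ 0 = 1) (ha : ∀ u u', χ (u + u') = χ u * χ u') :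
    AddMonoidAlgebra (RatFunc ℂ) (Fin n → ℤ) →+* R :=
  AddMonoidAlgebra.liftNCRingHom g
    { toFun := fun u => χ u.toAdd
      map_one' := h0
      map_mul' := fun _ _ => ha _ _ } (fun _ _ => Commute.all _ _)

theorem t1curveLift_single {R : Type} [CommRing R] (g : RatFunc ℂ →+* R)
    (χ : (Fin n → ℤ) → R) (h0 : χ 0 = 1) (ha : ∀ u u', χ (u + u') = χ u * χ u')
    (u : Fin n → ℤ) (r : RatFunc ℂ) :
    t1curveLift g χ h0 ha (AddMonoidAlgebra.single u r) = g r * χ u :=
  AddMonoidAlgebra.liftNCRingHom_single _ _ _ _ _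

theorem t1curveLift_injective {R : Type} [CommRing R] (g : RatFunc ℂ →+* R)
    (χ : (Fin n → ℤ) → R) (h0 : χ 0 = 1) (ha : ∀ u u', χ (u + u') = χ u * χ u')
    (hli : ∀ (s : Finset (Fin n → ℤ)) (f : (Fin n → ℤ) → RatFunc ℂ),
      ∑ u ∈ s, g (f u) * χ u = 0 → ∀ u ∈ s, f u = 0) :
    Function.Injective (t1curveLift g χ h0 ha) := by
  rw [injective_iff_map_eq_zero]
  intro x hx
  have h1 : x = ∑ u ∈ x.coeff.support, AddMonoidAlgebra.single u (x.coeff u) := by
    apply AddMonoidAlgebra.coeff_injective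
    rw [AddMonoidAlgebra.coeff_sum]
    simp only [AddMonoidAlgebra.coeff_single]
    exact x.coeff.sum_single.symm
  rw [h1, map_sum] at hx
  simp only [t1curveLift_single] at hx
  have h2 := hli _ _ hx
  ext u
  rw [AddMonoidAlgebra.coeff_zero, Finsupp.coe_zero, Pi.zero_apply]
  by_cases hu : u ∈ x.coeff.support
  · exact h2 u hu
  · exact Finsupp.notMem_support_iff.1 hu

theorem t1curve_exists_hom {K : Type} [Field K] [Algebra ℂ K]
    (κ : RatFunc ℂ →ₐ[ℂ] K)
    {χ : (Fin n → ℤ) → K} (hs : TorusSplit κ.fieldRange χ) (U : Subalgebra ℂ K)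
    (hfrac : IsFractionRing U K) (hh : HomogSpan κ.fieldRange χ U)
    {M : Type} [Field M] [Algebra ℂ M] (g : RatFunc ℂ →ₐ[ℂ] M)
    (ψ : (Fin n → ℤ) → M) (h0 : ψ 0 = 1) (ha : ∀ u u', ψ (u + u') = ψ u * ψ u')
    (hli : ∀ (s : Finset (Fin n → ℤ)) (f : (Fin n → ℤ) → RatFunc ℂ),
      ∑ u ∈ s, g (f u) * ψ u = 0 → ∀ u ∈ s, f u = 0) :
    ∃ φ : K →ₐ[ℂ] M, ∀ r u, φ (κ r * χ u) = g r * ψ u := by
  let α : AddMonoidAlgebra (RatFunc ℂ) (Fin n → ℤ) →+* K :=
    t1curveLift κ.toRingHom χ hs.zero hs.add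
  let β : AddMonoidAlgebra (RatFunc ℂ) (Fin n → ℤ) →+* M :=
    t1curveLift g.toRingHom ψ h0 ha
  have hα : Function.Injective α := by
    apply t1curveLift_injective
    intro s f hsum u hu
    have h1 := linearIndependent_iff'.1 hs.linInd s
      (fun u => ⟨κ (f u), AlgHom.mem_fieldRange.2 ⟨f u, rfl⟩⟩) (by
        rw [← hsum]
        apply Finset.sum_congr rfl
        intro v _
        rfl) u hu
    have h2 := congrArg Subtype.val h1
    simp only [ZeroMemClass.coe_zero] at h2
    exact (map_eq_zero_iff κ κ.toRingHom.injective).1 h2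
  have hβ : Function.Injective β := by
    apply t1curveLift_injective
    exact hli
  let _ : Algebra (AddMonoidAlgebra (RatFunc ℂ) (Fin n → ℤ)) K := α.toAlgebra
  have hmem : ∀ a ∈ U, ∃ x, algebraMap (AddMonoidAlgebra (RatFunc ℂ) (Fin n → ℤ)) K x = a := by
    intro a hau
    have h1 := hh a hau
    clear hau
    induction h1 using Submodule.span_induction with
    | mem b hb =>
      obtain ⟨_, u, c, hc, rfl⟩ := hb
      obtain ⟨r, rfl⟩ := AlgHom.mem_fieldRange.1 hc
      exact ⟨AddMonoidAlgebra.single u r, t1curveLift_single _ _ _ _ _ _⟩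
    | zero => exact ⟨0, map_zero _⟩
    | add x y _ _ hx hy =>
      obtain ⟨x', rfl⟩ := hx
      obtain ⟨y', rfl⟩ := hy
      exact ⟨x' + y', map_add _ _ _⟩
    | smul c x _ hx =>
      obtain ⟨x', rfl⟩ := hx
      refine ⟨AddMonoidAlgebra.single 0 (algebraMap ℂ (RatFunc ℂ) c) * x', ?_⟩
      rw [map_mul, Algebra.smul_def]
      congr 1
      refine (t1curveLift_single _ _ _ _ _ _).trans ?_
      rw [hs.zero, mul_one]
      exact κ.commutes c
  have : FaithfulSMul (AddMonoidAlgebra (RatFunc ℂ) (Fin n → ℤ)) K :=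
    (faithfulSMul_iff_algebraMap_injective _ _).2 hα
  have : IsFractionRing (AddMonoidAlgebra (RatFunc ℂ) (Fin n → ℤ)) K := by
    apply IsFractionRing.of_field
    intro z
    obtain ⟨x, y, hy, rfl⟩ := IsFractionRing.div_surjective (A := U) z
    obtain ⟨x', hx'⟩ := hmem x x.2
    obtain ⟨y', hy'⟩ := hmem y y.2
    exact ⟨x', y', by rw [hx', hy']; rfl⟩
  let φ : K →+* M := IsFractionRing.lift hβ
  have hφ : ∀ r u, φ (κ r * χ u) = g r * ψ u := by
    intro r u
    have h1 : κ r * χ u = algebraMap (AddMonoidAlgebra (RatFunc ℂ) (Fin n → ℤ)) K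
      (AddMonoidAlgebra.single u r) := (t1curveLift_single _ _ _ _ _ _).symm
    rw [h1]
    exact (IsFractionRing.lift_algebraMap hβ _).trans (t1curveLift_single _ _ _ _ _ _)
  refine ⟨{ φ with commutes' := fun c => ?_ }, hφ⟩
  have h1 := hφ (algebraMap ℂ (RatFunc ℂ) c) 0
  rw [hs.zero, h0, mul_one, mul_one, AlgHom.commutes, AlgHom.commutes] at h1
  exact h1

theorem t1curve_main {K : Type} [Field K] [Algebra ℂ K] {n : ℕ}
    (κ : RatFunc ℂ →ₐ[ℂ] K)
    {χ : (Fin n → ℤ) → K} (hs : TorusSplit κ.fieldRange χ) {ι : Type} (U : ι → Subalgebra ℂ K)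
    (hfrac : ∀ i, IsFractionRing (U i) K) (hh : ∀ i, HomogSpan κ.fieldRange χ (U i))
    (i0 : ι) (E : Finset (Option ℂ)) (hE : ∀ c, c ∉ E → ∀ (r : RatFunc ℂ) (u : Fin n → ℤ), r ≠ 0 →
      κ r * χ u ∈ U i0 → 0 ≤ ordAt c r)
    (p q : ℂ[X]) (hpq : OrbiLine (Mult κ χ U) p q)
    (B : Type) (hB1 : CommRing B) (hB2 : IsDomain B) (hB3 : Algebra ℂ B)
    (b : (Fin n → ℤ) → B) (hb0 : b 0 = 1) (hba : ∀ u u', b (u + u') = b u * b u')
    (hli : ∀ (s : Finset (Fin n → ℤ)) (f : (Fin n → ℤ) → RatFunc ℂ),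
      ∑ u ∈ s, t1curveJ' B (f u) * algebraMap B[X] (FractionRing B[X]) (C (b u)) = 0 →
        ∀ u ∈ s, f u = 0) :
    ∃ φ : K →ₐ[ℂ] FractionRing (Polynomial B),
      (∀ P : Ideal (Polynomial B), P.IsPrime → ∃ i, ∀ a ∈ U i, ∃ x y : Polynomial B, y ∉ P ∧
        φ a * algebraMap (Polynomial B) (FractionRing (Polynomial B)) y =
          algebraMap (Polynomial B) (FractionRing (Polynomial B)) x) ∧
      ∃ a : K, ∀ b c : B, c ≠ 0 →
        φ a * algebraMap (Polynomial B) (FractionRing (Polynomial B)) (Polynomial.C c) ≠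
          algebraMap (Polynomial B) (FractionRing (Polynomial B)) (Polynomial.C b) := by
  obtain ⟨T, e, heT, he⟩ := t1curve_exponents κ U i0 E hE p q hpq
  have hX : ∀ τ : ℂ, t1curveJ B (X - C τ) ≠ 0 := fun τ => t1curveJ_ne_zero B (X_sub_C_ne_zero τ)
  let ψ : (Fin n → ℤ) → FractionRing B[X] := fun u =>
    algebraMap B[X] (FractionRing B[X]) (C (b u)) * ∏ τ ∈ T, t1curveJ B (X - C τ) ^ e τ u
  have hψ0 : ψ 0 = 1 := by
    simp [ψ, hb0]
  have hψa : ∀ u u', ψ (u + u') = ψ u * ψ u' := by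
    intro u u'
    simp only [ψ, hba, map_mul, map_add]
    have : ∀ τ ∈ T, t1curveJ B (X - C τ) ^ (e τ u + e τ u') =
      t1curveJ B (X - C τ) ^ (e τ u) * t1curveJ B (X - C τ) ^ (e τ u') :=
      fun τ _ => zpow_add₀ (hX τ) _ _
    rw [Finset.prod_congr rfl this, Finset.prod_mul_distrib]
    ring
  let S := t1curveSubst hpq.coprime hpq.nonconst
  let g : RatFunc ℂ →ₐ[ℂ] FractionRing B[X] := (t1curveJ' B).comp S
  have hψli : ∀ (s : Finset (Fin n → ℤ)) (f : (Fin n → ℤ) → RatFunc ℂ),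
      ∑ u ∈ s, g (f u) * ψ u = 0 → ∀ u ∈ s, f u = 0 := by
    intro s f hsum u hu
    have h1 := hli s (fun u => S (f u) *
      ∏ τ ∈ T, (algebraMap ℂ[X] (RatFunc ℂ) (X - C τ)) ^ e τ u) (by
        rw [← hsum]
        apply Finset.sum_congr rfl
        intro v _
        simp only [ψ, g, AlgHom.comp_apply, map_mul, map_prod, map_zpow₀, t1curveJ'_algebraMap]
        ring) u hu
    simp only [mul_eq_zero, Finset.prod_eq_zero_iff] at h1
    rcases h1 with h1 | ⟨τ, _, h1⟩
    · exact (map_eq_zero_iff S S.toRingHom.injective).1 h1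
    · exact absurd h1 (zpow_ne_zero _ ((map_ne_zero_iff _ (RatFunc.algebraMap_injective ℂ)).2
        (X_sub_C_ne_zero τ)))
  obtain ⟨φ, hφ⟩ := t1curve_exists_hom κ hs (U i0) (hfrac i0) (hh i0) g ψ hψ0 hψa hψli
  refine ⟨φ, ?_, κ RatFunc.X, ?_⟩
  · intro P hP
    obtain ⟨τ, hτ⟩ := t1curve_exists_tau B P hP
    obtain ⟨c, i, hc, hci⟩ := he τ
    refine ⟨i, fun a hau => ?_⟩
    have h1 := hh i a hau
    clear hau
    have hP1 : (1 : B[X]) ∉ P := fun h => hP.ne_top ((Ideal.eq_top_iff_one P).2 h)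
    induction h1 using Submodule.span_induction with
    | zero => exact ⟨0, 1, hP1, by simp⟩
    | add x y _ _ hx hy =>
      obtain ⟨x1, y1, hy1, h1⟩ := hx
      obtain ⟨x2, y2, hy2, h2⟩ := hy
      refine ⟨x1 * y2 + x2 * y1, y1 * y2, fun h => (hP.mem_or_mem h).elim hy1 hy2, ?_⟩
      simp only [map_add, map_mul, ← h1, ← h2]
      ring
    | smul z x _ hx =>
      obtain ⟨x1, y1, hy1, h1⟩ := hx
      refine ⟨C (algebraMap ℂ B z) * x1, y1, hy1, ?_⟩
      rw [map_smul, map_mul, ← h1, Algebra.smul_def]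
      have : algebraMap ℂ (FractionRing B[X]) z =
        algebraMap B[X] (FractionRing B[X]) (C (algebraMap ℂ B z)) := by
        rw [IsScalarTower.algebraMap_apply ℂ B[X] (FractionRing B[X])]
        rfl
      rw [this]
      ring
    | mem x hx =>
      obtain ⟨hxU, u, r', hr', rfl⟩ := hx
      obtain ⟨r, rfl⟩ := AlgHom.mem_fieldRange.1 hr'
      by_cases hr : r = 0
      · exact ⟨0, 1, hP1, by simp [hr]⟩
      have hpos := hci r u hr hxU
      rw [hφ]
      obtain ⟨a, s, ha, hsr, hform⟩ := t1curveSubst_formula hpq.coprime hpq.nonconst hr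
      obtain ⟨G, hG, hGτ⟩ := exists_eq_pow_rootMultiplicity_mul_and_not_dvd
        (linForm c p q) (linForm_ne_zero hpq.coprime hpq.nonconst c) τ
      have hGe : G.eval τ ≠ 0 := fun h => hGτ (dvd_iff_isRoot.2 h)
      have hunit : ∀ f : ℂ[X], f.eval τ ≠ 0 → t1curveUnit P (t1curveJ B f) :=
        fun f hf => t1curveUnit_of hP (hτ f hf)
      obtain ⟨y1, hy1, hprod1⟩ := t1curve_prod_factor hP s
        (fun c => t1curveJ B (linForm c p q)) (fun c => ordAt c r) c (hsr c) (by
          intro c' hc'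
          apply hunit
          intro h
          exact hc' (t1curve_unique hpq.coprime h hc))
      obtain ⟨y2, hy2, hprod2⟩ := t1curve_prod_factor hP T
        (fun τ => t1curveJ B (X - C τ)) (fun τ => e τ u) τ (fun h => by rw [heT τ h]; rfl) (by
          intro τ' hτ'
          apply hunit
          rw [eval_sub, eval_X, eval_C]
          exact sub_ne_zero.2 (Ne.symm hτ'))
      have hbu : t1curveUnit P (algebraMap B[X] (FractionRing B[X]) (C (b u))) := by
        apply t1curveUnit_of hP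
        intro h
        apply hP1
        have h2 : (1 : B[X]) = C (b (-u)) * C (b u) := by
          rw [← C_mul, ← hba, neg_add_cancel, hb0, C_1]
        rw [h2]
        exact P.mul_mem_left _ h
      have hau : t1curveUnit P (algebraMap ℂ (FractionRing B[X]) a) := by
        have h3 := hunit (C a) (by simpa using ha)
        have h4 : t1curveJ B (C a) = algebraMap ℂ (FractionRing B[X]) a :=
          (t1curveJ B).commutes a
        rwa [h4] at h3
      have hG2 := t1curveUnit_zpow hP (hunit G hGe) (ordAt c r)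
      have hkey : g r * ψ u = t1curveJ B (X - C τ) ^
          (((linForm c p q).rootMultiplicity τ : ℤ) * ordAt c r + e τ u) *
          (algebraMap ℂ (FractionRing B[X]) a * (t1curveJ B G) ^ (ordAt c r) * y1 *
            algebraMap B[X] (FractionRing B[X]) (C (b u)) * y2) := by
        have h5 : g r = algebraMap ℂ (FractionRing B[X]) a *
            ∏ c ∈ s, t1curveJ B (linForm c p q) ^ ordAt c r := by
          simp only [g, AlgHom.comp_apply, S]
          rw [hform]
          simp only [map_mul, map_prod, map_zpow₀, t1curveJ'_algebraMap, AlgHom.commutes]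
        have hJc : t1curveJ B (linForm c p q) = t1curveJ B (X - C τ) ^
            (linForm c p q).rootMultiplicity τ * t1curveJ B G := by
          conv_lhs => rw [hG]
          rw [map_mul, map_pow]
        rw [h5, hprod1]
        simp only [ψ]
        rw [hprod2, hJc, mul_zpow, ← zpow_natCast, ← zpow_mul, zpow_add₀ (hX τ)]
        ring
      obtain ⟨a', b', ha', hb', hab⟩ : t1curveUnit P (algebraMap ℂ (FractionRing B[X]) a *
          (t1curveJ B G) ^ (ordAt c r) * y1 *
            algebraMap B[X] (FractionRing B[X]) (C (b u)) * y2) :=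
        t1curveUnit_mul hP (t1curveUnit_mul hP (t1curveUnit_mul hP (t1curveUnit_mul hP hau hG2) hy1)
          hbu) hy2
      obtain ⟨N, hN⟩ := Int.eq_ofNat_of_zero_le hpos
      refine ⟨(t1curveMap B (X - C τ)) ^ N * a', b', hb', ?_⟩
      rw [hkey, hN, mul_assoc, hab, map_mul, map_pow]
      simp only [zpow_natCast]
      rfl
  · intro b1 c1 hc1 heq
    have h1 := hφ RatFunc.X 0
    rw [hs.zero, hψ0, mul_one, mul_one] at h1
    rw [h1] at heq
    simp only [g, AlgHom.comp_apply, S] at heq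
    rw [t1curveSubst_X, map_div₀, t1curveJ'_algebraMap, t1curveJ'_algebraMap] at heq
    have hq0 : q ≠ 0 := linForm_ne_zero hpq.coprime hpq.nonconst none
    have hq := t1curveJ_ne_zero B hq0
    rw [div_mul_eq_mul_div, div_eq_iff hq] at heq
    have h2 : t1curveMap B p * C c1 = C b1 * t1curveMap B q := by
      apply IsFractionRing.injective B[X] (FractionRing B[X])
      rw [map_mul, map_mul]
      exact heq
    have hcop : IsCoprime (t1curveMap B q) (t1curveMap B p) := hpq.coprime.symm.map _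
    have hdvd : t1curveMap B q ∣ C c1 :=
      hcop.dvd_of_dvd_mul_left ⟨C b1, by rw [h2, mul_comm]⟩
    have hdeg : ∀ f : ℂ[X], (t1curveMap B f).natDegree = f.natDegree := fun f =>
      natDegree_map_eq_of_injective (algebraMap ℂ B).injective f
    have h3 : q.natDegree = 0 := by
      have := natDegree_le_of_dvd hdvd (C_ne_zero.2 hc1)
      rw [hdeg, natDegree_C] at this
      omega
    have h4 : p.natDegree = 0 := by
      have h5 : t1curveMap B p ≠ 0 ∨ p = 0 := by
        by_cases hp : p = 0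
        · right; exact hp
        · left; exact (map_ne_zero_iff _ (t1curveMap_injective B)).2 hp
      rcases h5 with h5 | h5
      · have h6 := congrArg natDegree h2
        rw [natDegree_mul h5 (C_ne_zero.2 hc1), natDegree_C, hdeg] at h6
        have h7 := natDegree_mul_le (p := C b1) (q := t1curveMap B q)
        rw [natDegree_C, hdeg, h3] at h7
        omega
      · rw [h5, natDegree_zero]
    rcases hpq.nonconst with h | h <;> omega

theorem a1UniruledOn_of_orbiLine {K : Type} [Field K] [Algebra ℂ K] {n : ℕ}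
    (hd : Algebra.trdeg ℂ K = ((n + 1 : ℕ) : Cardinal)) (κ : RatFunc ℂ →ₐ[ℂ] K)
    {χ : (Fin n → ℤ) → K} (hs : TorusSplit κ.fieldRange χ) {ι : Type} (U : ι → Subalgebra ℂ K)
    (hfrac : ∀ i, IsFractionRing (U i) K) (hh : ∀ i, HomogSpan κ.fieldRange χ (U i))
    (i0 : ι) (E : Finset (Option ℂ)) (hE : ∀ c, c ∉ E → ∀ (r : RatFunc ℂ) (u : Fin n → ℤ), r ≠ 0 →
      κ r * χ u ∈ U i0 → 0 ≤ ordAt c r)
    (p q : ℂ[X]) (hpq : OrbiLine (Mult κ χ U) p q) : A1UniruledRaw U := by
  refine ⟨AddMonoidAlgebra ℂ (Fin n → ℤ), inferInstance, inferInstance, inferInstance,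
    inferInstance, ?_, ?_⟩
  · rw [t1curve_trdeg, hd]
    push_cast
    rfl
  · refine t1curve_main κ hs U hfrac hh i0 E hE p q hpq (AddMonoidAlgebra ℂ (Fin n → ℤ)) _ _ _
      (fun u => AddMonoidAlgebra.single u 1) rfl (fun u u' => ?_) t1curveJ'_linInd
    rw [AddMonoidAlgebra.single_mul_single, one_mul]

end ee

end Pool.Agent.Lib.MP_410da7_ag
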