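import Pool.Agent.Lib.MP_410da7_ag.Defs

/-!
# Definitions for varieties covered by affine charts, and for torus actions

A complex variety `X` with function field `K` is given by a finite covering by affine open subsets
`Spec (U i)`, with coordinate rings `U i ⊆ K` (finitely generated, with fraction field `K`).
-/

set_option autoImplicit false

namespace Pool.Agent.Lib.MP_410da7_ag

open KaehlerDifferential WithZero

section charts

variable {K : Type} [Field K] [Algebra ℂ K] {ι : Type}

/-- The valuation `v` of the function field has a center on the variety `X = ⋃ Spec (U i)`: the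
coordinate ring of some chart is contained in the valuation ring. -/
def HasCenter (U : ι → Subalgebra ℂ K) (v : Valuation K ℤᵐ⁰) : Prop :=
  ∃ i, ∀ a ∈ U i, v a ≤ 1

/-- Let `Ψ` be a nonzero alternating form on the `n`-dimensional space of differentials of `K`, and
let `η` be the rational form of top degree with `θ₁ ∧ ⋯ ∧ θ_n = Ψ (θ₁,…,θ_n) η` for all `θ`. The
rational `m`-canonical form `F η ^ m` is admissible at the valuation `v` of `K`: it can be written as
`G (θ₁ ∧ ⋯ ∧ θ_n) ^ m` with `G` in the valuation ring of `v` and differentials `θᵢ` that have at most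
logarithmic poles at `v`, and that are regular at `v` in case `v` has a center on `X`. -/
def AdmissibleOn (U : ι → Subalgebra ℂ K) {n : ℕ} (Ψ : Ω[K⁄ℂ] [⋀^Fin n]→ₗ[K] K)
    (m : ℕ) (F : K) (v : Valuation K ℤᵐ⁰) : Prop :=
  ∃ (θ : Fin n → Ω[K⁄ℂ]) (G : K),
    (∀ i, θ i ∈ logDiff v) ∧ (HasCenter U v → ∀ i, θ i ∈ regDiff v) ∧
    v G ≤ 1 ∧ F = G * Ψ θ ^ m

/-- The `m`-th logarithmic plurigenus of the variety `X = ⋃ Spec (U i)` of dimension `d` vanishes. The
sections of `m(K + D)` on a smooth compactification (of a resolution) of `X` with simple normal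
crossings boundary `D` are the rational `m`-canonical forms that are regular at the valuations with
center on `X` and have at most logarithmic poles at the others. -/
def LogPlurigenusZeroOn (U : ι → Subalgebra ℂ K) (d m : ℕ) : Prop :=
  ∀ (Ψ : Ω[K⁄ℂ] [⋀^Fin d]→ₗ[K] K) (F : K), Ψ ≠ 0 →
    (∀ v : Valuation K ℤᵐ⁰, (∀ c : ℂ, c ≠ 0 → v (algebraMap ℂ K c) = 1) →
      AdmissibleOn U Ψ m F v) → F = 0

/-- `κ̄(X) = -∞` for the variety `X = ⋃ Spec (U i)` of dimension `d`: every logarithmic plurigenus
vanishes. -/
def LogKodairaNegInfOn (U : ι → Subalgebra ℂ K) (d : ℕ) : Prop :=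
  ∀ m : ℕ, 1 ≤ m → LogPlurigenusZeroOn U d m

/-- The rational function `z` on the affine variety with coordinate ring `A` and function field `M` is
regular at the (scheme theoretic) point `P`. -/
def RegularAt {A M : Type} [CommRing A] [Field M] [Algebra A M] (P : Ideal A) (z : M) : Prop :=
  ∃ x y : A, y ∉ P ∧ z * algebraMap A M y = algebraMap A M x

/-- The rational function `z` on `Y × 𝔸¹` is constant on the lines `{y} × 𝔸¹`. Here `B` is the
coordinate ring of the affine variety `Y` and `M` is the function field of `Y × 𝔸¹`. -/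
def ConstOnLines (B : Type) {M : Type} [CommRing B] [Field M] [Algebra (Polynomial B) M]
    (z : M) : Prop :=
  ∃ b c : B, c ≠ 0 ∧ z * algebraMap (Polynomial B) M (Polynomial.C c) =
    algebraMap (Polynomial B) M (Polynomial.C b)

/-- The embedding `φ` of the function field `K` of `X = ⋃ Spec (U i)` in the function field `M` of
`Y × 𝔸¹` (`B` is the coordinate ring of the affine variety `Y`) is given by a morphism `Y × 𝔸¹ → X`, that
is, for every point `P` of `Y × 𝔸¹` some coordinate ring `U i` is mapped into the local ring of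
`Y × 𝔸¹` at `P`; and this morphism is not constant on `{y} × 𝔸¹` for general `y`. -/
def IsLineFamily (U : ι → Subalgebra ℂ K) (B : Type) {M : Type} [CommRing B] [Field M]
    [Algebra ℂ M] [Algebra (Polynomial B) M] (φ : K →ₐ[ℂ] M) : Prop :=
  (∀ P : Ideal (Polynomial B), P.IsPrime → ∃ i, ∀ a ∈ U i, RegularAt P (φ a)) ∧
    ∃ a : K, ¬ ConstOnLines B (φ a)

/-- The variety `X = ⋃ Spec (U i)` is `𝔸¹`-uniruled: there are an affine variety `Y` (with coordinate
ring `B`) with `dim Y = dim X - 1` and a dominant morphism `Y × 𝔸¹ → X` that is not constant on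
`{y} × 𝔸¹` for general `y`. -/
def A1UniruledOn (U : ι → Subalgebra ℂ K) : Prop :=
  ∃ (B : Type) (_ : CommRing B) (_ : IsDomain B) (_ : Algebra ℂ B),
    Algebra.FiniteType ℂ B ∧ Algebra.trdeg ℂ B + 1 = Algebra.trdeg ℂ K ∧
    ∃ φ : K →ₐ[ℂ] FractionRing (Polynomial B), IsLineFamily U B φ

end charts

section torus

variable {K : Type} [Field K] [Algebra ℂ K] {n : ℕ}

/-- The value at `t` of the character `t ↦ t^u` of the torus `(ℂˣ)^n`. -/
noncomputable def torusChar (u : Fin n → ℤ) (t : Fin n → ℂˣ) : ℂ := ((∏ i, t i ^ u i : ℂˣ) : ℂ)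

/-- `a` is a weight vector of weight `u` for the action `ρ` of the torus on `K`. -/
def IsWeightVector (ρ : (Fin n → ℂˣ) →* (K ≃ₐ[ℂ] K)) (u : Fin n → ℤ) (a : K) : Prop :=
  ∀ t, ρ t a = torusChar u t • a

/-- The affine variety with coordinate ring `U ⊆ K` is invariant under the action `ρ` of the torus,
and the action on it is algebraic: `U` is spanned by weight vectors. -/
def IsTorusInvariant (ρ : (Fin n → ℂˣ) →* (K ≃ₐ[ℂ] K)) (U : Subalgebra ℂ K) : Prop :=
  ∀ a ∈ U, a ∈ Submodule.span ℂ {b : K | b ∈ U ∧ ∃ u, IsWeightVector ρ u b}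

end torus

end Pool.Agent.Lib.MP_410da7_ag
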