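import Pool.Agent.Lib.MP_410da7_ag.T1GBase

/-!
# Serre duality for the projective line, by hand
-/

set_option autoImplicit false

namespace Pool.Agent.Lib.MP_410da7_ag

open KaehlerDifferential WithZero Polynomial

/-! ### Subrings of the rational function field -/

theorem t1dual_isFractionRing (A : Subring (RatFunc ℂ))
    (h : ∀ r : RatFunc ℂ, ∃ a ∈ A, ∃ b ∈ A, b ≠ 0 ∧ r * b = a) : IsFractionRing A (RatFunc ℂ) := by
  refine ⟨?_, ?_, ?_⟩
  · rintro ⟨y, hy⟩
    exact IsUnit.mk0 _ (by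
      have := nonZeroDivisors.ne_zero hy
      intro h0
      exact this (Subtype.ext h0))
  · intro r
    obtain ⟨a, ha, b, hb, hb0, hab⟩ := h r
    exact ⟨(⟨a, ha⟩, ⟨⟨b, hb⟩, mem_nonZeroDivisors_of_ne_zero (fun h0 => hb0 (congrArg Subtype.val h0))⟩),
      hab⟩
  · intro a b hab
    exact ⟨1, by rw [Subtype.ext hab]⟩

theorem t1dual_exists_integral {F : Type} [Field F] [Algebra (RatFunc ℂ) F]
    [FiniteDimensional (RatFunc ℂ) F] (A : Subring (RatFunc ℂ))
    (h : ∀ r : RatFunc ℂ, ∃ a ∈ A, ∃ b ∈ A, b ≠ 0 ∧ r * b = a) (g : F) :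
    ∃ a ∈ A, a ≠ 0 ∧ IsIntegral A (a • g) := by
  have h1 := t1dual_isFractionRing A h
  have h2 : Algebra.IsAlgebraic A F :=
    (IsFractionRing.comap_isAlgebraic_iff (A := A) (K := RatFunc ℂ) (C := F)).mpr inferInstance
  obtain ⟨y, hy, hint⟩ := (h2.isAlgebraic g).exists_integral_multiple
  exact ⟨y.1, y.2, fun h0 => hy (Subtype.ext h0), hint⟩

theorem t1dual_int_smul {F : Type} [Field F] [Algebra (RatFunc ℂ) F] (A : Subring (RatFunc ℂ))
    {a : RatFunc ℂ} (ha : a ∈ A) {g : F} (hg : IsIntegral A g) : IsIntegral A (a • g) := by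
  have h1 : a • g = (⟨a, ha⟩ : A) • g := rfl
  rw [h1]
  exact hg.smul _

theorem t1dual_poly_mem (p : ℂ[X]) : algebraMap ℂ[X] (RatFunc ℂ) p ∈ polySub := ⟨p, rfl⟩

theorem t1dual_poly_frac (r : RatFunc ℂ) : ∃ a ∈ polySub, ∃ b ∈ polySub, b ≠ 0 ∧ r * b = a := by
  refine ⟨_, t1dual_poly_mem r.num, _, t1dual_poly_mem r.denom, ?_, ?_⟩
  · exact RatFunc.algebraMap_ne_zero r.denom_ne_zero
  · exact ((div_eq_iff (RatFunc.algebraMap_ne_zero r.denom_ne_zero)).mp
      (RatFunc.num_div_denom r)).symm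

theorem t1dual_infty_frac (r : RatFunc ℂ) : ∃ a ∈ inftySub, ∃ b ∈ inftySub, b ≠ 0 ∧ r * b = a := by
  rcases le_or_gt (inftyVal r) 1 with h | h
  · exact ⟨r, h, 1, inftySub.one_mem, one_ne_zero, mul_one r⟩
  · have hr : r ≠ 0 := by
      rintro rfl
      rw [map_zero] at h
      exact absurd h (by simp)
    refine ⟨1, inftySub.one_mem, r⁻¹, ?_, inv_ne_zero hr, mul_inv_cancel₀ hr⟩
    change inftyVal r⁻¹ ≤ 1
    rw [map_inv₀]
    exact inv_le_one_of_one_le₀ h.le

theorem t1dual_inftyVal_X : inftyVal RatFunc.X = exp 1 := by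
  rw [inftyVal_apply RatFunc.X_ne_zero, RatFunc.intDegree_X]

theorem t1dual_inftyVal_poly {p : ℂ[X]} (hp : p ≠ 0) :
    inftyVal (algebraMap ℂ[X] (RatFunc ℂ) p) = exp (p.natDegree : ℤ) := by
  rw [inftyVal_apply (RatFunc.algebraMap_ne_zero hp), RatFunc.intDegree_polynomial]

theorem t1dual_inftyVal_Xinv (n : ℕ) : inftyVal ((RatFunc.X : RatFunc ℂ)⁻¹ ^ n) = exp (-(n : ℤ)) := by
  rw [map_pow, map_inv₀, t1dual_inftyVal_X, ← exp_neg, ← exp_nsmul]
  congr 1
  simp

/-- Large negative powers of `x` bring every element into the ring of integers at infinity. -/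
theorem t1dual_infty_int {F : Type} [Field F] [Algebra (RatFunc ℂ) F]
    [FiniteDimensional (RatFunc ℂ) F] (g : F) :
    ∃ N : ℕ, ∀ n, N ≤ n → IsIntegral inftySub (((RatFunc.X : RatFunc ℂ)⁻¹ ^ n) • g) := by
  obtain ⟨a, ha, ha0, hint⟩ := t1dual_exists_integral inftySub t1dual_infty_frac g
  have ha1 : inftyVal a ≤ 1 := ha
  rw [inftyVal_apply ha0, ← exp_zero, exp_le_exp] at ha1
  refine ⟨(-a.intDegree).toNat, fun n hn => ?_⟩
  have h1 : ((RatFunc.X : RatFunc ℂ)⁻¹ ^ n) • g = ((RatFunc.X : RatFunc ℂ)⁻¹ ^ n * a⁻¹) • (a • g) := by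
    rw [smul_smul, mul_assoc, inv_mul_cancel₀ ha0, mul_one]
  rw [h1]
  refine t1dual_int_smul inftySub ?_ hint
  change inftyVal _ ≤ 1
  rw [map_mul, map_inv₀, inftyVal_apply ha0, t1dual_inftyVal_Xinv, ← exp_neg, ← exp_add,
    ← exp_zero, exp_le_exp]
  omega

/-! ### The functional and its Laurent coefficients -/

section lam

variable {F : Type} [Field F] [Algebra (RatFunc ℂ) F] [FiniteDimensional (RatFunc ℂ) F]

theorem t1dual_exists_phi (lam : F →+ ℂ) (hI : ∀ a : F, IsIntegral inftySub a → lam a = 0) (g : F) :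
    ∃ p : ℂ[X], ∀ j, p.coeff j = lam (((RatFunc.X : RatFunc ℂ)⁻¹ ^ (j + 1)) • g) := by
  obtain ⟨N, hN⟩ := t1dual_infty_int g
  refine ⟨∑ j ∈ Finset.range N, Polynomial.C (lam (((RatFunc.X : RatFunc ℂ)⁻¹ ^ (j + 1)) • g)) *
    Polynomial.X ^ j, fun j => ?_⟩
  rw [Polynomial.finsetSum_coeff]
  simp only [Polynomial.coeff_C_mul, Polynomial.coeff_X_pow, mul_ite, mul_one, mul_zero]
  rw [Finset.sum_ite_eq]
  split_ifs with h
  · rfl
  · rw [Finset.mem_range, not_lt] at h
    rw [hI _ (hN (j + 1) (by omega))]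

/-- The polynomial of the negative Laurent coefficients of the functional. -/
noncomputable def t1dualPhi (lam : F →+ ℂ) (hI : ∀ a : F, IsIntegral inftySub a → lam a = 0)
    (g : F) : ℂ[X] := (t1dual_exists_phi lam hI g).choose

variable (lam : F →+ ℂ) (hI : ∀ a : F, IsIntegral inftySub a → lam a = 0)

theorem t1dualPhi_coeff (g : F) (j : ℕ) :
    (t1dualPhi lam hI g).coeff j = lam (((RatFunc.X : RatFunc ℂ)⁻¹ ^ (j + 1)) • g) :=
  (t1dual_exists_phi lam hI g).choose_spec j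

theorem t1dualPhi_add (g h : F) :
    t1dualPhi lam hI (g + h) = t1dualPhi lam hI g + t1dualPhi lam hI h := by
  ext j
  rw [Polynomial.coeff_add, t1dualPhi_coeff, t1dualPhi_coeff, t1dualPhi_coeff, smul_add, map_add]

theorem t1dualPhi_zero : t1dualPhi lam hI (0 : F) = 0 := by
  ext j
  rw [t1dualPhi_coeff, smul_zero, map_zero, Polynomial.coeff_zero]

variable (hlin : ∀ (c : ℂ) (g : F), lam ((RatFunc.C c : RatFunc ℂ) • g) = c * lam g)
variable (hO : ∀ a : F, IsIntegral polySub a → lam a = 0)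

include hlin in
theorem t1dualPhi_C (c : ℂ) (g : F) :
    t1dualPhi lam hI ((RatFunc.C c : RatFunc ℂ) • g) = Polynomial.C c * t1dualPhi lam hI g := by
  ext j
  rw [Polynomial.coeff_C_mul, t1dualPhi_coeff, t1dualPhi_coeff, ← hlin, smul_smul, smul_smul,
    mul_comm]

include hO in
theorem t1dualPhi_X {g : F} (hg : IsIntegral polySub g) :
    t1dualPhi lam hI ((RatFunc.X : RatFunc ℂ) • g) = Polynomial.X * t1dualPhi lam hI g := by
  ext j
  cases j with
  | zero =>
    rw [Polynomial.coeff_X_mul_zero, t1dualPhi_coeff, smul_smul, zero_add, pow_one,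
      inv_mul_cancel₀ RatFunc.X_ne_zero, one_smul]
    exact hO g hg
  | succ j =>
    rw [Polynomial.coeff_X_mul, t1dualPhi_coeff, t1dualPhi_coeff, smul_smul]
    congr 2
    rw [pow_succ _ (j + 1), mul_assoc, inv_mul_cancel₀ RatFunc.X_ne_zero, mul_one]

theorem t1dual_poly_int {g : F} (hg : IsIntegral polySub g) (q : ℂ[X]) :
    IsIntegral polySub ((algebraMap ℂ[X] (RatFunc ℂ) q) • g) :=
  t1dual_int_smul polySub (t1dual_poly_mem q) hg

include hlin hO in
theorem t1dualPhi_poly (q : ℂ[X]) : ∀ {g : F}, IsIntegral polySub g →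
    t1dualPhi lam hI ((algebraMap ℂ[X] (RatFunc ℂ) q) • g) = q * t1dualPhi lam hI g := by
  induction q using Polynomial.induction_on' with
  | add p q hp hq =>
    intro g hg
    rw [map_add, add_smul, t1dualPhi_add, hp hg, hq hg, add_mul]
  | monomial n c =>
    induction n with
    | zero =>
      intro g hg
      rw [Polynomial.monomial_zero_left, RatFunc.algebraMap_C, t1dualPhi_C lam hI hlin]
    | succ n ih =>
      intro g hg
      have h1 : (algebraMap ℂ[X] (RatFunc ℂ) (monomial (n + 1) c)) • g =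
          (algebraMap ℂ[X] (RatFunc ℂ) (monomial n c)) • ((RatFunc.X : RatFunc ℂ) • g) := by
        rw [smul_smul, ← RatFunc.algebraMap_X, ← map_mul, Polynomial.monomial_mul_X]
      have h2 : IsIntegral polySub ((RatFunc.X : RatFunc ℂ) • g) := by
        rw [← RatFunc.algebraMap_X]
        exact t1dual_poly_int hg _
      rw [h1, ih h2, t1dualPhi_X lam hI hO hg, ← mul_assoc, Polynomial.monomial_mul_X]

theorem t1dual_exists_denom (g : F) :
    ∃ b : ℂ[X], b ≠ 0 ∧ IsIntegral polySub ((algebraMap ℂ[X] (RatFunc ℂ) b) • g) := by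
  obtain ⟨a, ⟨b, rfl⟩, ha0, hint⟩ := t1dual_exists_integral polySub t1dual_poly_frac g
  exact ⟨b, fun h0 => ha0 (by rw [h0, map_zero]), hint⟩

/-- The extension of `t1dualPhi` to all of `F`. -/
noncomputable def t1dualPsi (g : F) : RatFunc ℂ :=
  algebraMap ℂ[X] (RatFunc ℂ) (t1dualPhi lam hI
    ((algebraMap ℂ[X] (RatFunc ℂ) (t1dual_exists_denom g).choose) • g)) /
    algebraMap ℂ[X] (RatFunc ℂ) (t1dual_exists_denom g).choose

include hlin hO in
theorem t1dualPsi_eq (g : F) {b : ℂ[X]} (hb : b ≠ 0)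
    (hint : IsIntegral polySub ((algebraMap ℂ[X] (RatFunc ℂ) b) • g)) :
    t1dualPsi lam hI g = algebraMap ℂ[X] (RatFunc ℂ)
      (t1dualPhi lam hI ((algebraMap ℂ[X] (RatFunc ℂ) b) • g)) / algebraMap ℂ[X] (RatFunc ℂ) b := by
  unfold t1dualPsi
  obtain ⟨hb0, hint0⟩ := (t1dual_exists_denom g).choose_spec
  set b0 := (t1dual_exists_denom g).choose
  rw [div_eq_div_iff (RatFunc.algebraMap_ne_zero hb0) (RatFunc.algebraMap_ne_zero hb), ← map_mul,
    ← map_mul]
  congr 1
  rw [mul_comm, ← t1dualPhi_poly lam hI hlin hO b hint0, mul_comm,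
    ← t1dualPhi_poly lam hI hlin hO b0 hint, smul_smul, smul_smul, mul_comm]

include hlin hO in
theorem t1dualPsi_add (g h : F) :
    t1dualPsi lam hI (g + h) = t1dualPsi lam hI g + t1dualPsi lam hI h := by
  obtain ⟨b, hb, hbint⟩ := t1dual_exists_denom g
  obtain ⟨c, hc, hcint⟩ := t1dual_exists_denom h
  have h1 : IsIntegral polySub ((algebraMap ℂ[X] (RatFunc ℂ) (b * c)) • g) := by
    rw [mul_comm, map_mul, ← smul_smul]
    exact t1dual_poly_int hbint c
  have h2 : IsIntegral polySub ((algebraMap ℂ[X] (RatFunc ℂ) (b * c)) • h) := by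
    rw [map_mul, ← smul_smul]
    exact t1dual_poly_int hcint b
  have h3 : IsIntegral polySub ((algebraMap ℂ[X] (RatFunc ℂ) (b * c)) • (g + h)) := by
    rw [smul_add]
    exact h1.add h2
  have hbc := mul_ne_zero hb hc
  rw [t1dualPsi_eq lam hI hlin hO _ hbc h1, t1dualPsi_eq lam hI hlin hO _ hbc h2,
    t1dualPsi_eq lam hI hlin hO _ hbc h3, smul_add, t1dualPhi_add, map_add, add_div]

include hlin hO in
theorem t1dualPsi_smul (r : RatFunc ℂ) (g : F) :
    t1dualPsi lam hI (r • g) = r * t1dualPsi lam hI g := by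
  obtain ⟨b, hb, hbint⟩ := t1dual_exists_denom g
  have hq := r.denom_ne_zero
  have hq' := RatFunc.algebraMap_ne_zero hq
  have hr : algebraMap ℂ[X] (RatFunc ℂ) r.denom * r = algebraMap ℂ[X] (RatFunc ℂ) r.num := by
    rw [mul_comm]
    exact ((div_eq_iff hq').mp (RatFunc.num_div_denom r)).symm
  have h1 : (algebraMap ℂ[X] (RatFunc ℂ) (r.denom * b)) • (r • g) =
      (algebraMap ℂ[X] (RatFunc ℂ) r.num) • ((algebraMap ℂ[X] (RatFunc ℂ) b) • g) := by
    rw [smul_smul, smul_smul, ← hr, map_mul]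
    congr 1
    ring
  have h2 : IsIntegral polySub ((algebraMap ℂ[X] (RatFunc ℂ) (r.denom * b)) • (r • g)) := by
    rw [h1]
    exact t1dual_poly_int hbint _
  rw [t1dualPsi_eq lam hI hlin hO _ (mul_ne_zero hq hb) h2, h1,
    t1dualPhi_poly lam hI hlin hO _ hbint, t1dualPsi_eq lam hI hlin hO _ hb hbint, map_mul,
    map_mul, ← hr]
  have hb' := RatFunc.algebraMap_ne_zero hb
  field_simp

include hlin hO in
/-- The values at elements integral at infinity. -/
theorem t1dualPsi_infty {g : F} (hg : IsIntegral inftySub g) :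
    inftyVal (t1dualPsi lam hI g) ≤ exp (-2) := by
  obtain ⟨b, hb, hbint⟩ := t1dual_exists_denom g
  rw [t1dualPsi_eq lam hI hlin hO _ hb hbint]
  set p := t1dualPhi lam hI ((algebraMap ℂ[X] (RatFunc ℂ) b) • g) with hp
  by_cases hp0 : p = 0
  · rw [hp0, map_zero, zero_div, map_zero]
    exact zero_le
  · have h1 : p.natDegree + 2 ≤ b.natDegree := by
      by_contra hcon
      have h2 : p.coeff p.natDegree = 0 := by
        rw [hp, t1dualPhi_coeff, ← hp, smul_smul]
        refine hI _ (t1dual_int_smul inftySub ?_ hg)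
        change inftyVal _ ≤ 1
        rw [map_mul, t1dual_inftyVal_Xinv, t1dual_inftyVal_poly hb, ← exp_add, ← exp_zero,
          exp_le_exp]
        push_cast
        omega
      exact hp0 (Polynomial.leadingCoeff_eq_zero.mp h2)
    rw [map_div₀, t1dual_inftyVal_poly hp0, t1dual_inftyVal_poly hb, ← exp_sub, exp_le_exp]
    omega

include hlin hO in
theorem t1dualPsi_poly {g : F} (hg : IsIntegral polySub g) : t1dualPsi lam hI g ∈ polySub := by
  rw [t1dualPsi_eq lam hI hlin hO g (b := 1) one_ne_zero (by rw [map_one, one_smul]; exact hg),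
    map_one, div_one]
  exact t1dual_poly_mem _

include hlin hO in
theorem t1dualPsi_ne_zero (h0 : ∀ g : F, t1dualPsi lam hI g = 0) (g : F) : lam g = 0 := by
  -- the Laurent coefficients of integral elements vanish
  have h1 : ∀ h : F, IsIntegral polySub h → ∀ N : ℕ,
      lam (((RatFunc.X : RatFunc ℂ)⁻¹ ^ N) • h) = 0 := by
    intro h hh N
    cases N with
    | zero => rw [pow_zero, one_smul]; exact hO h hh
    | succ N =>
      have h2 := h0 h
      rw [t1dualPsi_eq lam hI hlin hO h (b := 1) one_ne_zero (by rw [map_one, one_smul]; exact hh),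
        map_one, div_one, one_smul] at h2
      have h3 : t1dualPhi lam hI h = 0 := by
        by_contra hne
        exact RatFunc.algebraMap_ne_zero hne h2
      rw [← t1dualPhi_coeff lam hI, h3, Polynomial.coeff_zero]
  obtain ⟨b, hb, hbint⟩ := t1dual_exists_denom g
  set h := (algebraMap ℂ[X] (RatFunc ℂ) b) • g with hh
  have hb' := RatFunc.algebraMap_ne_zero hb
  obtain ⟨N, hN⟩ := t1dual_infty_int h
  -- `X ^ N = b * Q + R`
  have hdiv := EuclideanDomain.div_add_mod ((Polynomial.X : ℂ[X]) ^ N) b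
  set Q := (Polynomial.X : ℂ[X]) ^ N / b
  set R := (Polynomial.X : ℂ[X]) ^ N % b with hR
  have hX : (RatFunc.X : RatFunc ℂ) ≠ 0 := RatFunc.X_ne_zero
  have hdiv' : algebraMap ℂ[X] (RatFunc ℂ) b * algebraMap ℂ[X] (RatFunc ℂ) Q +
      algebraMap ℂ[X] (RatFunc ℂ) R = (RatFunc.X : RatFunc ℂ) ^ N := by
    rw [← map_mul, ← map_add, hdiv, map_pow, RatFunc.algebraMap_X]
  have hg : g = ((RatFunc.X : RatFunc ℂ)⁻¹ ^ N) • ((algebraMap ℂ[X] (RatFunc ℂ) Q) • h) +
      (algebraMap ℂ[X] (RatFunc ℂ) R / algebraMap ℂ[X] (RatFunc ℂ) b) •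
        (((RatFunc.X : RatFunc ℂ)⁻¹ ^ N) • h) := by
    rw [hh, smul_smul, smul_smul, smul_smul, smul_smul, ← add_smul]
    have h4 : (RatFunc.X : RatFunc ℂ)⁻¹ ^ N * algebraMap ℂ[X] (RatFunc ℂ) Q *
        algebraMap ℂ[X] (RatFunc ℂ) b + algebraMap ℂ[X] (RatFunc ℂ) R /
        algebraMap ℂ[X] (RatFunc ℂ) b * (RatFunc.X : RatFunc ℂ)⁻¹ ^ N *
        algebraMap ℂ[X] (RatFunc ℂ) b = 1 := by
      have h5 : (RatFunc.X : RatFunc ℂ)⁻¹ ^ N * algebraMap ℂ[X] (RatFunc ℂ) Q *
        algebraMap ℂ[X] (RatFunc ℂ) b + algebraMap ℂ[X] (RatFunc ℂ) R /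
        algebraMap ℂ[X] (RatFunc ℂ) b * (RatFunc.X : RatFunc ℂ)⁻¹ ^ N *
        algebraMap ℂ[X] (RatFunc ℂ) b = (RatFunc.X : RatFunc ℂ)⁻¹ ^ N *
          (algebraMap ℂ[X] (RatFunc ℂ) b * algebraMap ℂ[X] (RatFunc ℂ) Q +
            algebraMap ℂ[X] (RatFunc ℂ) R) := by
        field_simp
      rw [h5, hdiv', inv_pow, inv_mul_cancel₀ (pow_ne_zero N hX)]
    rw [h4, one_smul]
  rw [hg, map_add, h1 _ (t1dual_poly_int hbint Q), zero_add]
  refine hI _ (t1dual_int_smul inftySub ?_ (hN N le_rfl))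
  change inftyVal _ ≤ 1
  by_cases hR0 : R = 0
  · rw [hR0, map_zero, zero_div, map_zero]
    exact zero_le
  · rw [map_div₀, t1dual_inftyVal_poly hR0, t1dual_inftyVal_poly hb, ← exp_sub, ← exp_zero,
      exp_le_exp]
    have h6 : R.degree < b.degree := EuclideanDomain.mod_lt _ hb
    have h7 := Polynomial.natDegree_lt_natDegree hR0 h6
    omega

end lam

/-! ### The functional exists -/

theorem t1dual_exists_lam {F : Type} [Field F] [Algebra (RatFunc ℂ) F]
    (hne : ∃ g : F, ∀ a b : F, IsIntegral polySub a → IsIntegral inftySub b → g ≠ a + b) :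
    ∃ lam : F →+ ℂ, (∃ g, lam g ≠ 0) ∧
      (∀ (c : ℂ) (g : F), lam ((RatFunc.C c : RatFunc ℂ) • g) = c * lam g) ∧
      (∀ a : F, IsIntegral polySub a → lam a = 0) ∧
      (∀ a : F, IsIntegral inftySub a → lam a = 0) := by
  letI : Module ℂ F := Module.compHom F (RatFunc.C : ℂ →+* RatFunc ℂ)
  have hs : ∀ (c : ℂ) (g : F), c • g = (RatFunc.C c : RatFunc ℂ) • g := fun c g => rfl
  have hC1 : ∀ c : ℂ, (RatFunc.C c : RatFunc ℂ) ∈ polySub := fun c => ⟨Polynomial.C c, by
    rw [RatFunc.algebraMap_C]⟩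
  have hC2 : ∀ c : ℂ, (RatFunc.C c : RatFunc ℂ) ∈ inftySub := by
    intro c
    change inftyVal _ ≤ 1
    by_cases hc : c = 0
    · rw [hc, map_zero, map_zero]
      exact zero_le
    · rw [inftyVal_apply (by simpa using hc), RatFunc.intDegree_C, exp_zero]
  let W : Submodule ℂ F :=
    { carrier := {g | ∃ a b : F, IsIntegral polySub a ∧ IsIntegral inftySub b ∧ g = a + b}
      add_mem' := by
        rintro _ _ ⟨a, b, ha, hb, rfl⟩ ⟨a', b', ha', hb', rfl⟩
        exact ⟨a + a', b + b', ha.add ha', hb.add hb', by ring⟩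
      zero_mem' := ⟨0, 0, isIntegral_zero, isIntegral_zero, by simp⟩
      smul_mem' := by
        rintro c _ ⟨a, b, ha, hb, rfl⟩
        refine ⟨(RatFunc.C c : RatFunc ℂ) • a, (RatFunc.C c : RatFunc ℂ) • b,
          t1dual_int_smul _ (hC1 c) ha, t1dual_int_smul _ (hC2 c) hb, ?_⟩
        rw [hs, smul_add] }
  have hW : W < ⊤ := by
    rw [lt_top_iff_ne_top]
    intro htop
    obtain ⟨g, hg⟩ := hne
    have : g ∈ W := by rw [htop]; trivial
    obtain ⟨a, b, ha, hb, h⟩ := this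
    exact hg a b ha hb h
  obtain ⟨f, hf0, hf⟩ := Submodule.exists_le_ker_of_lt_top W hW
  refine ⟨f.toAddMonoidHom, ?_, ?_, ?_, ?_⟩
  · by_contra hcon
    push Not at hcon
    exact hf0 (LinearMap.ext hcon)
  · intro c g
    have := f.map_smul c g
    rw [hs] at this
    exact this
  · intro a ha
    exact hf (show a ∈ W from ⟨a, 0, ha, isIntegral_zero, by simp⟩)
  · intro a ha
    exact hf (show a ∈ W from ⟨0, a, isIntegral_zero, ha, by simp⟩)

theorem exists_dual {F : Type} [Field F] [Algebra (RatFunc ℂ) F] [FiniteDimensional (RatFunc ℂ) F]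
    (hne : ∃ g : F, ∀ a b : F, IsIntegral polySub a → IsIntegral inftySub b → g ≠ a + b) :
    ∃ f : F, f ≠ 0 ∧
      (∀ y : F, IsIntegral polySub y → Algebra.trace (RatFunc ℂ) F (f * y) ∈ polySub) ∧
      (∀ y : F, IsIntegral inftySub y → inftyVal (Algebra.trace (RatFunc ℂ) F (f * y)) ≤ exp (-2)) := by
  obtain ⟨lam, ⟨g0, hg0⟩, hlin, hO, hI⟩ := t1dual_exists_lam hne
  let Φ : F →ₗ[RatFunc ℂ] RatFunc ℂ :=
    { toFun := t1dualPsi lam hI
      map_add' := t1dualPsi_add lam hI hlin hO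
      map_smul' := fun r g => t1dualPsi_smul lam hI hlin hO r g }
  have hB := traceForm_nondegenerate (RatFunc ℂ) F
  set f : F := ((Algebra.traceForm (RatFunc ℂ) F).toDual hB).symm Φ with hf
  have hfy : ∀ y : F, Algebra.trace (RatFunc ℂ) F (f * y) = t1dualPsi lam hI y := by
    intro y
    have := LinearMap.BilinForm.apply_toDual_symm_apply (hB := hB) Φ y
    rw [Algebra.traceForm_apply] at this
    exact this
  refine ⟨f, ?_, ?_, ?_⟩
  · intro h0
    refine hg0 (t1dualPsi_ne_zero lam hI hlin hO (fun g => ?_) g0)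
    rw [← hfy g, h0, zero_mul, map_zero]
  · intro y hy
    rw [hfy]
    exact t1dualPsi_poly lam hI hlin hO hy
  · intro y hy
    rw [hfy]
    exact t1dualPsi_infty lam hI hlin hO hy

end Pool.Agent.Lib.MP_410da7_ag
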