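import Pool.Agent.Lib.MP_410da7_ag.T1Base
import Pool.Agent.Lib.MP_410da7_ag.T1Place

/-!
# Almost all points of the quotient are good
-/

set_option autoImplicit false

namespace Pool.Agent.Lib.MP_410da7_ag

open KaehlerDifferential WithZero Polynomial

/-- regular at the point -/
def t1finReg (c : Option ℂ) (r : RatFunc ℂ) : Prop := r = 0 ∨ 0 ≤ ordAt c r

theorem t1fin_some (a : ℂ) (r : RatFunc ℂ) : t1finReg (some a) r ↔ r.denom.eval a ≠ 0 := by
  constructor
  · rintro (h | h)
    · rw [h, RatFunc.denom_zero]; simp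
    · intro h0
      have h1 : 0 < r.denom.rootMultiplicity a :=
        (rootMultiplicity_pos (RatFunc.denom_ne_zero r)).2 h0
      have h2 : r.num.rootMultiplicity a = 0 := by
        rw [rootMultiplicity_eq_zero_iff]
        intro h3
        exfalso
        obtain ⟨x, y, hxy⟩ := RatFunc.isCoprime_num_denom r
        have h4 := congrArg (eval a) hxy
        rw [eval_add, eval_mul, eval_mul, h0] at h4
        have h5 : eval a r.num = 0 := h3
        rw [h5] at h4
        simp at h4
      change 0 ≤ (r.num.rootMultiplicity a : ℤ) - r.denom.rootMultiplicity a at h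
      omega
  · intro h
    right
    change 0 ≤ (r.num.rootMultiplicity a : ℤ) - r.denom.rootMultiplicity a
    have h1 : r.denom.rootMultiplicity a = 0 := rootMultiplicity_eq_zero h
    omega

theorem t1fin_none (r : RatFunc ℂ) : t1finReg none r ↔ r = 0 ∨ r.intDegree ≤ 0 := by
  have h : ordAt none r = -r.intDegree := by
    change (r.denom.natDegree : ℤ) - r.num.natDegree = -(r.num.natDegree - r.denom.natDegree)
    ring
  unfold t1finReg
  rw [h]
  constructor
  · rintro (h | h)
    · exact Or.inl h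
    · right; linarith
  · rintro (h | h)
    · exact Or.inl h
    · right; linarith

theorem t1fin_zero (c : Option ℂ) : t1finReg c 0 := Or.inl rfl

theorem t1fin_add (c : Option ℂ) {r s : RatFunc ℂ} (hr : t1finReg c r) (hs : t1finReg c s) :
    t1finReg c (r + s) := by
  cases c with
  | some a =>
    rw [t1fin_some] at hr hs ⊢
    intro h0
    obtain ⟨p, hp⟩ := RatFunc.denom_add_dvd r s
    have h1 := congrArg (eval a) hp
    rw [eval_mul, eval_mul, h0, zero_mul] at h1
    rcases mul_eq_zero.1 h1 with h | h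
    · exact hr h
    · exact hs h
  | none =>
    rw [t1fin_none] at hr hs ⊢
    by_cases h0 : r + s = 0
    · exact Or.inl h0
    · right
      rcases hr with hr | hr
      · rw [hr, zero_add] at h0 ⊢
        rcases hs with hs | hs
        · exact absurd hs h0
        · exact hs
      · by_cases hs0 : s = 0
        · rw [hs0, add_zero]; exact hr
        · have h1 := RatFunc.intDegree_add_le hs0 h0
          have h2 : s.intDegree ≤ 0 := by
            rcases hs with hs | hs
            · exact absurd hs hs0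
            · exact hs
          exact h1.trans (max_le hr h2)

theorem t1fin_mul (c : Option ℂ) {r s : RatFunc ℂ} (hr : t1finReg c r) (hs : t1finReg c s) :
    t1finReg c (r * s) := by
  by_cases hr0 : r = 0
  · rw [hr0, zero_mul]; exact t1fin_zero c
  by_cases hs0 : s = 0
  · rw [hs0, mul_zero]; exact t1fin_zero c
  right
  rw [ordAt_mul c hr0 hs0]
  rcases hr with hr | hr
  · exact absurd hr hr0
  rcases hs with hs | hs
  · exact absurd hs hs0
  omega

theorem t1fin_C (c : Option ℂ) (a : ℂ) : t1finReg c (RatFunc.C a) := by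
  by_cases ha : a = 0
  · rw [ha, map_zero]; exact t1fin_zero c
  · right; rw [ordAt_C c ha]

/-- the poles of a rational function -/
theorem t1fin_poles (r : RatFunc ℂ) : ∃ E : Finset (Option ℂ), ∀ c, c ∉ E → t1finReg c r := by
  classical
  by_cases hr : r = 0
  · exact ⟨∅, fun c _ => Or.inl hr⟩
  · obtain ⟨a, s, _, h, _⟩ := ratFunc_factor hr
    refine ⟨insert none (s.image some), fun c hc => ?_⟩
    cases c with
    | none => exact absurd (Finset.mem_insert_self _ _) hc
    | some c =>
      right
      rw [h c]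
      intro hcs
      exact hc (Finset.mem_insert_of_mem (Finset.mem_image_of_mem _ hcs))

theorem exists_good_chart {K : Type} [Field K] [Algebra ℂ K] {n : ℕ} (κ : RatFunc ℂ →ₐ[ℂ] K)
    {χ : (Fin n → ℤ) → K} (hs : TorusSplit κ.fieldRange χ) (U : Subalgebra ℂ K) (hfg : U.FG)
    (hh : HomogSpan κ.fieldRange χ U) :
    ∃ E : Finset (Option ℂ), ∀ c, c ∉ E → ∀ (r : RatFunc ℂ) (u : Fin n → ℤ), r ≠ 0 →
      κ r * χ u ∈ U → 0 ≤ ordAt c r := by
  classical
  obtain ⟨S, hS⟩ := hfg
  -- for every element of `U` a finite set of poles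
  have hel : ∀ a : K, ∃ E : Finset (Option ℂ), a ∈ U → ∀ c, c ∉ E →
      a ∈ Submodule.span ℂ {b : K | ∃ r u, t1finReg c r ∧ b = κ r * χ u} := by
    intro a
    by_cases ha : a ∈ U
    · obtain ⟨T, hT, haT⟩ := Submodule.mem_span_finite_of_mem_span (hh a ha)
      have hb : ∀ b : K, ∃ E : Finset (Option ℂ), b ∈ T → ∀ c, c ∉ E →
          ∃ r u, t1finReg c r ∧ b = κ r * χ u := by
        intro b
        by_cases hbT : b ∈ T
        · obtain ⟨_, u, k, hk, hbk⟩ := hT hbT
          obtain ⟨r, hr⟩ := AlgHom.mem_fieldRange.1 hk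
          obtain ⟨E, hE⟩ := t1fin_poles r
          exact ⟨E, fun _ c hc => ⟨r, u, hE c hc, by rw [hbk, hr]⟩⟩
        · exact ⟨∅, fun h => absurd h hbT⟩
      choose Eb hEb using hb
      refine ⟨T.biUnion Eb, fun _ c hc => ?_⟩
      refine Submodule.span_mono ?_ haT
      intro b hbT
      apply hEb b hbT c
      intro h
      exact hc (Finset.mem_biUnion.2 ⟨b, hbT, h⟩)
    · exact ⟨∅, fun h => absurd h ha⟩
  choose Ea hEa using hel
  refine ⟨S.biUnion Ea, fun c hc r u hr hru => ?_⟩
  set B : Set K := {b : K | ∃ r u, t1finReg c r ∧ b = κ r * χ u} with hB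
  -- `U` is contained in the span of `B`
  have hmulB : ∀ x y, x ∈ Submodule.span ℂ B → y ∈ Submodule.span ℂ B →
      x * y ∈ Submodule.span ℂ B := by
    intro x y hx hy
    have h1 : x * y ∈ Submodule.span ℂ B * Submodule.span ℂ B := Submodule.mul_mem_mul hx hy
    rw [Submodule.span_mul_span] at h1
    refine Submodule.span_mono ?_ h1
    rintro _ ⟨a, ⟨r, u, hr, rfl⟩, b, ⟨s, u', hs', rfl⟩, rfl⟩
    refine ⟨r * s, u + u', t1fin_mul c hr hs', ?_⟩
    show κ r * χ u * (κ s * χ u') = _
    rw [map_mul, hs.add]; ring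
  have hUB : ∀ a ∈ U, a ∈ Submodule.span ℂ B := by
    intro a ha
    rw [← hS] at ha
    induction ha using Algebra.adjoin_induction with
    | mem x hx =>
      apply hEa x _ c
      · intro h
        exact hc (Finset.mem_biUnion.2 ⟨x, hx, h⟩)
      · rw [← hS]; exact Algebra.subset_adjoin hx
    | algebraMap z =>
      apply Submodule.subset_span
      refine ⟨RatFunc.C z, 0, t1fin_C c z, ?_⟩
      rw [hs.zero, mul_one]
      have : RatFunc.C z = algebraMap ℂ (RatFunc ℂ) z := rfl
      rw [this, AlgHom.commutes]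
    | add x y _ _ hx hy => exact Submodule.add_mem _ hx hy
    | mul x y _ _ hx hy => exact hmulB x y hx hy
  -- the elements of the span
  have hrep : ∀ a, a ∈ Submodule.span ℂ B → ∃ f : (Fin n → ℤ) →₀ κ.fieldRange,
      (∀ u, ∃ r, t1finReg c r ∧ κ r = (f u : K)) ∧
      a = Finsupp.linearCombination κ.fieldRange χ f := by
    intro a ha
    induction ha using Submodule.span_induction with
    | mem x hx =>
      obtain ⟨r, u, hr, rfl⟩ := hx
      refine ⟨Finsupp.single u ⟨κ r, AlgHom.mem_fieldRange.2 ⟨r, rfl⟩⟩, fun u' => ?_, ?_⟩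
      · by_cases hu : u = u'
        · subst hu
          exact ⟨r, hr, by rw [Finsupp.single_eq_same]⟩
        · refine ⟨0, t1fin_zero c, ?_⟩
          rw [Finsupp.single_eq_of_ne (Ne.symm hu), map_zero]; rfl
      · rw [Finsupp.linearCombination_single]; rfl
    | zero =>
      exact ⟨0, fun u => ⟨0, t1fin_zero c, by rw [map_zero]; rfl⟩, by rw [map_zero]⟩
    | add x y _ _ hx hy =>
      obtain ⟨f, hf, rfl⟩ := hx
      obtain ⟨g, hg, rfl⟩ := hy
      refine ⟨f + g, fun u => ?_, by rw [map_add]⟩
      obtain ⟨r, hr, hr'⟩ := hf u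
      obtain ⟨s, hs', hs''⟩ := hg u
      exact ⟨r + s, t1fin_add c hr hs', by rw [map_add, hr', hs'']; rfl⟩
    | smul z x _ hx =>
      obtain ⟨f, hf, rfl⟩ := hx
      have hz : algebraMap ℂ K z ∈ κ.fieldRange :=
        AlgHom.mem_fieldRange.2 ⟨algebraMap ℂ (RatFunc ℂ) z, by rw [AlgHom.commutes]⟩
      refine ⟨(⟨algebraMap ℂ K z, hz⟩ : κ.fieldRange) • f, fun u => ?_, ?_⟩
      · obtain ⟨r, hr, hr'⟩ := hf u
        refine ⟨RatFunc.C z * r, t1fin_mul c (t1fin_C c z) hr, ?_⟩
        have : RatFunc.C z = algebraMap ℂ (RatFunc ℂ) z := rfl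
        rw [map_mul, this, AlgHom.commutes, hr']; rfl
      · rw [map_smul, Algebra.smul_def]; rfl
  obtain ⟨f, hf, hfa⟩ := hrep _ (hUB _ hru)
  have hsing : Finsupp.linearCombination κ.fieldRange χ
      (Finsupp.single u ⟨κ r, AlgHom.mem_fieldRange.2 ⟨r, rfl⟩⟩) = κ r * χ u := by
    rw [Finsupp.linearCombination_single]; rfl
  have hinj : Function.Injective (Finsupp.linearCombination κ.fieldRange χ) := hs.linInd
  have heq := hinj (hsing.trans hfa)
  have hu := congrArg (fun g => ((g u : κ.fieldRange) : K)) heq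
  simp only [Finsupp.single_eq_same] at hu
  obtain ⟨r', hr', hr''⟩ := hf u
  have h3 : κ r = κ r' := by rw [hr'']; exact hu
  have h4 : r = r' := κ.injective h3
  rw [← h4] at hr'
  rcases hr' with h | h
  · exact absurd h hr
  · exact h

end Pool.Agent.Lib.MP_410da7_ag
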