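import Pool.Agent.Lib.MP_410da7_ag.T1Base
import Pool.Agent.Lib.MP_410da7_ag.T1Place
import Pool.Agent.Lib.MP_410da7_ag.T1Basis
import Pool.Agent.Lib.MP_410da7_ag.Kaehler
import Pool.Agent.Lib.MP_410da7_ag.Val

/-!
# Logarithmic forms from orbifold forms on the projective line
-/

set_option autoImplicit false

namespace Pool.Agent.Lib.MP_410da7_ag

open KaehlerDifferential WithZero Polynomial

section t1form

variable {K : Type} [Field K] [Algebra ℂ K]

/-- the logarithmic differential -/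
noncomputable def t1form_dlog (a : K) : Ω[K⁄ℂ] := a⁻¹ • D ℂ K a

theorem t1form_dlog_mul {a b : K} (ha : a ≠ 0) (hb : b ≠ 0) :
    t1form_dlog (a * b) = t1form_dlog a + t1form_dlog b := by
  unfold t1form_dlog
  rw [Derivation.leibniz, smul_add, smul_smul, smul_smul, add_comm]
  congr 2
  · field_simp
  · field_simp

theorem t1form_dlog_zpow {a : K} (ha : a ≠ 0) (k : ℤ) :
    t1form_dlog (a ^ k) = (k : K) • t1form_dlog a := by
  unfold t1form_dlog
  rw [Derivation.leibniz_zpow, ← Int.cast_smul_eq_zsmul K, smul_smul, smul_smul, smul_smul]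
  congr 1
  rw [zpow_sub_one₀ ha]
  field_simp

theorem t1form_smul_D_mem (v : Valuation K ℤᵐ⁰) {a b : K} (ha : v a ≤ 1) (hb : v b ≤ 1) :
    a • D ℂ K b ∈ regDiff v := AddSubgroup.subset_closure ⟨a, b, ha, hb, rfl⟩

theorem t1form_reg_le (v : Valuation K ℤᵐ⁰) : regDiff v ≤ logDiff v :=
  AddSubgroup.closure_mono Set.subset_union_left

theorem t1form_dlog_mem_log (v : Valuation K ℤᵐ⁰) {a : K} (ha : a ≠ 0) :
    t1form_dlog a ∈ logDiff v :=
  AddSubgroup.subset_closure (Or.inr ⟨1, a, by simp, ha, by simp [t1form_dlog]⟩)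

theorem t1form_dlog_mem_reg (v : Valuation K ℤᵐ⁰) {a : K} (ha : v a = 1) :
    t1form_dlog a ∈ regDiff v :=
  t1form_smul_D_mem v (by rw [map_inv₀, ha, inv_one]) ha.le

/-- a logarithmic differential times a uniformizer is regular -/
theorem t1form_smul_dlog_mem (v : Valuation K ℤᵐ⁰) {p z : K} (hp : p ≠ 0) (hp1 : v p ≤ 1)
    (hz : z ≠ 0) (k : ℤ) (hk : v z = v p ^ k) : p • t1form_dlog z ∈ regDiff v := by
  have hpk : p ^ k ≠ 0 := zpow_ne_zero _ hp
  have hvp : v p ≠ 0 := (Valuation.ne_zero_iff v).mpr hp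
  set ε := z * (p ^ k)⁻¹ with hε
  have hε0 : ε ≠ 0 := mul_ne_zero hz (inv_ne_zero hpk)
  have hε1 : v ε = 1 := by
    rw [hε, map_mul, map_inv₀, map_zpow₀, hk]
    exact mul_inv_cancel₀ (zpow_ne_zero _ hvp)
  have hz' : z = ε * p ^ k := by
    rw [hε, mul_assoc, inv_mul_cancel₀ hpk, mul_one]
  have e1 : p • t1form_dlog z = (p * ε⁻¹) • D ℂ K ε + k • ((1 : K) • D ℂ K p) := by
    rw [hz', t1form_dlog_mul hε0 hpk, t1form_dlog_zpow hp, smul_add]
    congr 1
    · rw [t1form_dlog, smul_smul]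
    · rw [t1form_dlog, smul_smul, smul_smul, ← Int.cast_smul_eq_zsmul K, smul_smul]
      congr 1
      field_simp
  rw [e1]
  refine add_mem (t1form_smul_D_mem v ?_ hε1.le) (zsmul_mem (t1form_smul_D_mem v ?_ hp1) k)
  · rw [map_mul, map_inv₀, hε1, inv_one, mul_one]
    exact hp1
  · rw [map_one]

theorem t1form_exists_basis {n : ℕ} (hd : Algebra.trdeg ℂ K = ((n + 1 : ℕ) : Cardinal))
    {K0 : IntermediateField ℂ K} {χ : (Fin n → ℤ) → K} (hs : TorusSplit K0 χ) (z : K) (hz : z ∈ K0)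
    (htr : Transcendental ℂ z) :
    ∃ b : Module.Basis (Fin (n + 1)) K Ω[K⁄ℂ],
      (∀ j : Fin n, b j.castSucc = t1form_dlog (χ (Pi.single j 1))) ∧
      b (Fin.last n) = D ℂ K z := by
  obtain ⟨b0, hb0⟩ := exists_kaehlerBasis _ (torusSplit_basis hd hs z hz htr)
  have hu : ∀ i, IsUnit ((Fin.snoc (fun j : Fin n => (χ (Pi.single j 1))⁻¹) 1 :
      Fin (n + 1) → K) i) := by
    intro i
    refine Fin.lastCases ?_ (fun j => ?_) i
    · rw [Fin.snoc_last]
      exact isUnit_one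
    · rw [Fin.snoc_castSucc]
      exact (inv_ne_zero (hs.ne_zero _)).isUnit
  refine ⟨b0.isUnitSMul hu, fun j => ?_, ?_⟩
  · rw [Module.Basis.isUnitSMul_apply, hb0]
    simp [t1form_dlog]
  · rw [Module.Basis.isUnitSMul_apply, hb0]
    simp

omit [Algebra ℂ K] in
theorem t1form_det {V : Type} [AddCommGroup V] [Module K V] {n : ℕ}
    (b : Module.Basis (Fin (n + 1)) K V) (a : K) (c : Fin n → K) (e : K) :
    b.det (Fin.snoc (fun j : Fin n => a • b j.castSucc + c j • b (Fin.last n))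
      (e • b (Fin.last n)) : Fin (n + 1) → V) = a ^ n * e := by
  rw [Module.Basis.det_apply, Matrix.det_of_isLowerTriangular]
  · rw [Fin.prod_univ_castSucc]
    congr 1
    · rw [Finset.prod_congr rfl (g := fun _ => a)]
      · simp
      · intro j _
        rw [Module.Basis.toMatrix_apply, Fin.snoc_castSucc]
        simp [Fin.ext_iff, j.2.ne']
    · rw [Module.Basis.toMatrix_apply, Fin.snoc_last]
      simp
  · intro i j hij
    rw [Module.Basis.toMatrix_apply]
    have hij' : i < j := hij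
    revert hij'
    refine Fin.lastCases ?_ (fun j => ?_) j
    · intro hij'
      rw [Fin.snoc_last]
      simp [hij'.ne']
    · intro hij'
      rw [Fin.snoc_castSucc]
      have h1 : i ≠ Fin.last n := (hij'.trans_le (Fin.le_last _)).ne
      simp [hij'.ne', h1.symm]

theorem t1form_adm {ι : Type} (U : ι → Subalgebra ℂ K) {n : ℕ}
    (b : Module.Basis (Fin (n + 1)) K Ω[K⁄ℂ]) (m : ℕ) (F : K) (v : Valuation K ℤᵐ⁰)
    (hv : ∀ c : ℂ, c ≠ 0 → v (algebraMap ℂ K c) = 1) (a : ℕ) (ha : 0 < a) (c : Fin n → K)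
    (e : K) (he : e ≠ 0)
    (h1 : ∀ j : Fin n, (a : K) • b j.castSucc + c j • b (Fin.last n) ∈ logDiff v)
    (h2 : e • b (Fin.last n) ∈ logDiff v)
    (h3 : HasCenter U v → (∀ j : Fin n, (a : K) • b j.castSucc + c j • b (Fin.last n) ∈ regDiff v) ∧
      e • b (Fin.last n) ∈ regDiff v)
    (hF : v F ≤ v e ^ m) : AdmissibleOn U b.det m F v := by
  have hva : v (a : K) = 1 := by
    have := hv (a : ℂ) (by exact_mod_cast ha.ne')
    rwa [map_natCast] at this
  have ha0 : (a : K) ≠ 0 := by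
    intro h0
    rw [h0, map_zero] at hva
    exact zero_ne_one hva
  have hae : (a : K) ^ n * e ≠ 0 := mul_ne_zero (pow_ne_zero _ ha0) he
  refine ⟨Fin.snoc (fun j : Fin n => (a : K) • b j.castSucc + c j • b (Fin.last n))
    (e • b (Fin.last n)), F * (((a : K) ^ n * e) ^ m)⁻¹, ?_, ?_, ?_, ?_⟩
  · intro i
    refine Fin.lastCases ?_ (fun j => ?_) i
    · rw [Fin.snoc_last]
      exact h2
    · rw [Fin.snoc_castSucc]
      exact h1 j
  · intro hc i
    obtain ⟨h4, h5⟩ := h3 hc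
    refine Fin.lastCases ?_ (fun j => ?_) i
    · rw [Fin.snoc_last]
      exact h5
    · rw [Fin.snoc_castSucc]
      exact h4 j
  · rw [map_mul, map_inv₀, map_pow, map_mul, map_pow, hva, one_pow, one_mul]
    have hve : v e ^ m ≠ 0 := pow_ne_zero _ ((Valuation.ne_zero_iff v).mpr he)
    calc v F * (v e ^ m)⁻¹ ≤ v e ^ m * (v e ^ m)⁻¹ := mul_le_mul_left hF _
      _ = 1 := mul_inv_cancel₀ hve
  · rw [t1form_det, mul_assoc, inv_mul_cancel₀ (pow_ne_zero _ hae), mul_one]

theorem t1form_exists_exponent (v : Valuation K ℤᵐ⁰) {n : ℕ} {K0 : IntermediateField ℂ K}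
    {χ : (Fin n → ℤ) → K} (hs : TorusSplit K0 χ) {x : ℤᵐ⁰} (hx0 : x ≠ 0) (hx1 : x < 1)
    (hk : ∀ a : K, a ≠ 0 → ∃ k : ℤ, v a = x ^ k) :
    ∃ l : (Fin n → ℤ) →+ ℤ, ∀ u, v (χ u) = x ^ l u := by
  choose l hl using fun u => hk (χ u) (hs.ne_zero u)
  have hinj := zpow_right_injective₀ (zero_lt_iff.mpr hx0) hx1.ne
  refine ⟨AddMonoidHom.mk' l fun u u' => hinj ?_, hl⟩
  change x ^ l (u + u') = x ^ (l u + l u')
  rw [← hl, hs.add, map_mul, hl, hl, zpow_add₀ hx0]

omit [Algebra ℂ K] in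
theorem t1form_exp_zpow (v : Valuation K ℤᵐ⁰) (a : K) (ha : a ≠ 0) :
    ∃ k : ℤ, v a = (exp (-1 : ℤ) : ℤᵐ⁰) ^ k := by
  refine ⟨-log (v a), ?_⟩
  rw [← exp_zsmul]
  simp only [smul_eq_mul, mul_neg, mul_one, neg_neg]
  exact (exp_log ((Valuation.ne_zero_iff v).mpr ha)).symm

theorem t1form_units_of_center {n : ℕ} {K0 : IntermediateField ℂ K}
    {χ : (Fin n → ℤ) → K} (hs : TorusSplit K0 χ) (U : Subalgebra ℂ K) (hno : ¬ HalfSpace K0 χ U)
    (v : Valuation K ℤᵐ⁰) (hv0 : ∀ c ∈ K0, c ≠ 0 → v c = 1) (hc : ∀ a ∈ U, v a ≤ 1)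
    (u : Fin n → ℤ) : v (χ u) = 1 := by
  have hx1 : (exp (-1 : ℤ) : ℤᵐ⁰) < 1 := by
    rw [← exp_zero, exp_lt_exp]
    norm_num
  have hx0 : (exp (-1 : ℤ) : ℤᵐ⁰) ≠ 0 := exp_ne_zero
  obtain ⟨l, hl⟩ := t1form_exists_exponent v hs hx0 hx1 (t1form_exp_zpow v)
  have hl0 : l = 0 := by
    by_contra hne
    refine hno ⟨l, hne, fun u c hc0 hcne hmem => ?_⟩
    have h1 := hc _ hmem
    rw [map_mul, hv0 c hc0 hcne, one_mul, hl] at h1
    exact (zpow_le_one_iff_right_of_lt_one₀ (zero_lt_iff.mpr hx0) hx1).mp h1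
  rw [hl, hl0]
  simp

/-! ### Points of the projective line -/

/-- the logarithmic derivative of the local parameter -/
noncomputable def t1form_sig : Option ℂ → RatFunc ℂ
  | some c => (RatFunc.X - RatFunc.C c)⁻¹
  | none => -RatFunc.X⁻¹

theorem t1form_X_sub_ne (c : ℂ) : (RatFunc.X - RatFunc.C c : RatFunc ℂ) ≠ 0 := by
  intro h0
  have h1 : (algebraMap ℂ[X] (RatFunc ℂ)) (X - C c) = 0 := by
    rw [map_sub, RatFunc.algebraMap_X, RatFunc.algebraMap_C, h0]
  exact X_sub_C_ne_zero c ((map_eq_zero_iff _ (RatFunc.algebraMap_injective ℂ)).mp h1)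

theorem t1form_locPar_ne (c : Option ℂ) : locPar c ≠ 0 := by
  cases c with
  | none => exact inv_ne_zero RatFunc.X_ne_zero
  | some c => exact t1form_X_sub_ne c

theorem t1form_sig_ne (c : Option ℂ) : t1form_sig c ≠ 0 := by
  cases c with
  | none => exact neg_ne_zero.mpr (inv_ne_zero RatFunc.X_ne_zero)
  | some c => exact inv_ne_zero (t1form_X_sub_ne c)

theorem t1form_ordAt_inv (c : Option ℂ) {r : RatFunc ℂ} (hr : r ≠ 0) :
    ordAt c r⁻¹ = -ordAt c r := by
  have h1 := ordAt_mul c hr (inv_ne_zero hr)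
  have h2 := ordAt_C c (a := 1) one_ne_zero
  rw [map_one] at h2
  rw [mul_inv_cancel₀ hr, h2] at h1
  omega

theorem t1form_ordAt_neg (c : Option ℂ) {r : RatFunc ℂ} (hr : r ≠ 0) :
    ordAt c (-r) = ordAt c r := by
  have h2 := ordAt_C c (a := -1) (by norm_num)
  have h3 : (RatFunc.C (-1) : RatFunc ℂ) ≠ 0 := by
    rw [map_neg, map_one]
    exact neg_ne_zero.mpr one_ne_zero
  have h1 := ordAt_mul c h3 hr
  rw [h2, map_neg, map_one, neg_one_mul] at h1
  omega

theorem t1form_ordAt_sig (c : Option ℂ) : ordAt c (t1form_sig c) = dlt c - 1 := by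
  have h1 := ordAt_locPar c
  cases c with
  | none =>
    have h2 := t1form_ordAt_neg none (t1form_locPar_ne none)
    change ordAt none (-locPar none) = 2 - 1
    omega
  | some c =>
    have h2 := t1form_ordAt_inv (some c) (t1form_locPar_ne (some c))
    change ordAt (some c) (locPar (some c))⁻¹ = 0 - 1
    omega

theorem t1form_dlog_locPar (κ : RatFunc ℂ →ₐ[ℂ] K) (c : Option ℂ) :
    t1form_dlog (κ (locPar c)) = κ (t1form_sig c) • D ℂ K (κ RatFunc.X) := by
  unfold t1form_dlog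
  cases c with
  | none =>
    change (κ RatFunc.X⁻¹)⁻¹ • D ℂ K (κ RatFunc.X⁻¹) = κ (-RatFunc.X⁻¹) • _
    have hX : κ RatFunc.X ≠ 0 := (map_ne_zero κ).mpr RatFunc.X_ne_zero
    rw [map_neg, map_inv₀, Derivation.leibniz_inv, smul_smul]
    congr 1
    field_simp
  | some c =>
    change (κ (RatFunc.X - RatFunc.C c))⁻¹ • D ℂ K (κ (RatFunc.X - RatFunc.C c)) =
      κ (RatFunc.X - RatFunc.C c)⁻¹ • _
    rw [map_inv₀]
    congr 1
    rw [map_sub, map_sub, ← RatFunc.algebraMap_eq_C, AlgHom.commutes, Derivation.map_algebraMap,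
      sub_zero]

end t1form

theorem not_negInf_of_orbiForm {K : Type} [Field K] [Algebra ℂ K] {n : ℕ}
    (hd : Algebra.trdeg ℂ K = ((n + 1 : ℕ) : Cardinal)) (κ : RatFunc ℂ →ₐ[ℂ] K)
    {χ : (Fin n → ℤ) → K} (hs : TorusSplit κ.fieldRange χ) {ι : Type} (U : ι → Subalgebra ℂ K)
    (hno : ∀ i, ¬ HalfSpace κ.fieldRange χ (U i)) (m : ℕ) (h : RatFunc ℂ) (h0 : h ≠ 0)
    (hH : OrbiForm (Mult κ χ U) m h) : ¬ LogPlurigenusZeroOn U (n + 1) m := by
  intro hneg
  have hz : Transcendental ℂ (κ RatFunc.X) := by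
    have h1 : Transcendental ℂ (RatFunc.X : RatFunc ℂ) := RatFunc.transcendental_X
    exact fun h2 => h1 ((isAlgebraic_algHom_iff κ κ.injective).mp h2)
  obtain ⟨b, hb1, hb2⟩ := t1form_exists_basis hd hs (κ RatFunc.X) ⟨RatFunc.X, rfl⟩ hz
  refine (map_ne_zero κ).mpr h0 (hneg b.det (κ h) (Module.Basis.det_ne_zero b)
    fun v hv => ?_)
  have hw : ∀ c : ℂ, c ≠ 0 →
      (v.comap (κ : RatFunc ℂ →+* K)) (algebraMap ℂ (RatFunc ℂ) c) = 1 := by
    intro c hc
    change v (κ (algebraMap ℂ (RatFunc ℂ) c)) = 1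
    rw [AlgHom.commutes]
    exact hv c hc
  rcases exists_place _ hw with htriv | ⟨c, μ, hμ, hord⟩
  · -- the valuation is trivial on the subfield
    have htriv' : ∀ r : RatFunc ℂ, r ≠ 0 → v (κ r) = 1 := htriv
    refine t1form_adm U b m (κ h) v hv 1 one_pos (fun _ => 0) 1 one_ne_zero ?_ ?_ ?_ ?_
    · intro j
      rw [Nat.cast_one, one_smul, zero_smul, add_zero, hb1]
      exact t1form_dlog_mem_log v (hs.ne_zero _)
    · rw [hb2]
      exact t1form_reg_le v (t1form_smul_D_mem v (by rw [map_one])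
        (htriv' _ RatFunc.X_ne_zero).le)
    · rintro ⟨i, hi⟩
      refine ⟨fun j => ?_, ?_⟩
      · rw [Nat.cast_one, one_smul, zero_smul, add_zero, hb1]
        refine t1form_dlog_mem_reg v (t1form_units_of_center hs (U i) (hno i) v ?_ hi _)
        rintro _ ⟨r, rfl⟩ hr
        exact htriv' r fun h1 => hr (by rw [h1]; exact map_zero κ)
      · rw [hb2]
        exact t1form_smul_D_mem v (by rw [map_one]) (htriv' _ RatFunc.X_ne_zero).le
    · rw [htriv' h h0, map_one, one_pow]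
  · have hord' : ∀ r : RatFunc ℂ, r ≠ 0 → v (κ r) = exp (-((μ : ℤ) * ordAt c r)) := hord
    have hzc : κ (locPar c) ≠ 0 := (map_ne_zero κ).mpr (t1form_locPar_ne c)
    have hsg : κ (t1form_sig c) ≠ 0 := (map_ne_zero κ).mpr (t1form_sig_ne c)
    have hvz := hord' _ (t1form_locPar_ne c)
    rw [ordAt_locPar, mul_one] at hvz
    have hdl := t1form_dlog_locPar κ c
    by_cases hcen : HasCenter U v
    · -- there is a center
      obtain ⟨p, hp0, hp1, hp⟩ := exists_unif v ⟨κ (locPar c), hzc, by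
        rw [hvz, ← exp_zero]
        intro h1
        have := exp_injective h1
        omega⟩
      have hvp : v p ≠ 0 := (Valuation.ne_zero_iff v).mpr hp0
      have hvp' : 0 < v p := zero_lt_iff.mpr hvp
      obtain ⟨l, hl⟩ := t1form_exists_exponent v hs hvp hp1 hp
      obtain ⟨μ', hμ'⟩ := hp _ hzc
      have hμ0 : 0 < μ' := by
        by_contra hle
        have h1 : 1 ≤ v p ^ μ' := by
          have h2 : v p ^ μ' = (v p ^ (-μ'))⁻¹ := by rw [zpow_neg, inv_inv]
          have h3 : v p ^ (-μ') ≤ 1 :=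
            (zpow_le_one_iff_right_of_lt_one₀ hvp' hp1).mpr (by omega)
          rw [h2]
          exact (one_le_inv₀ (zpow_pos hvp' _)).mpr h3
        rw [← hμ', hvz, ← exp_zero, exp_le_exp] at h1
        omega
      have hκ : ∀ r : RatFunc ℂ, r ≠ 0 → v (κ r) = v p ^ (μ' * ordAt c r) := by
        intro r hr
        rw [zpow_mul, ← hμ', hvz, ← exp_zsmul, hord' r hr]
        congr 1
        simp only [smul_eq_mul]
        ring
      obtain ⟨k, rfl⟩ : ∃ k : ℕ, μ' = k := ⟨μ'.toNat, by omega⟩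
      have hk0 : 0 < k := by omega
      have hcen' := hcen
      obtain ⟨i, hi⟩ := hcen
      have hmem : k ∈ Mult κ χ U c := by
        refine ⟨hk0, l, i, fun r u hr hU => ?_⟩
        have h1 := hi _ hU
        rw [map_mul, hκ r hr, hl, ← zpow_add₀ hvp] at h1
        exact (zpow_le_one_iff_right_of_lt_one₀ hvp' hp1).mp h1
      have hH2 := (hH c).2 k hmem
      have hreg : ∀ j : Fin n, ((k : ℕ) : K) • b j.castSucc +
          (-((l (Pi.single j 1) : ℤ) : K) * κ (t1form_sig c)) • b (Fin.last n) ∈ regDiff v := by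
        intro j
        have hχ : χ (Pi.single j 1) ≠ 0 := hs.ne_zero _
        have e1 : ((k : ℕ) : K) • b j.castSucc +
            (-((l (Pi.single j 1) : ℤ) : K) * κ (t1form_sig c)) • b (Fin.last n) =
            t1form_dlog (χ (Pi.single j 1) ^ (k : ℤ) * κ (locPar c) ^ (-l (Pi.single j 1))) := by
          rw [t1form_dlog_mul (zpow_ne_zero _ hχ) (zpow_ne_zero _ hzc), t1form_dlog_zpow hχ,
            t1form_dlog_zpow hzc, hb1, hb2, hdl, smul_smul]
          congr 2
          · simp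
          · simp
        rw [e1]
        refine t1form_dlog_mem_reg v ?_
        rw [map_mul, map_zpow₀, map_zpow₀, hl, hμ', ← zpow_mul, ← zpow_mul, ← zpow_add₀ hvp]
        have : l (Pi.single j 1) * (k : ℤ) + (k : ℤ) * -l (Pi.single j 1) = 0 := by ring
        rw [this, zpow_zero]
      have hreg2 : (p * κ (t1form_sig c)) • b (Fin.last n) ∈ regDiff v := by
        rw [hb2, mul_smul, ← hdl]
        exact t1form_smul_dlog_mem v hp0 hp1.le hzc k hμ'
      refine t1form_adm U b m (κ h) v hv k hk0 _ (p * κ (t1form_sig c)) (mul_ne_zero hp0 hsg)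
        (fun j => t1form_reg_le v (hreg j)) (t1form_reg_le v hreg2) (fun _ => ⟨hreg, hreg2⟩) ?_
      rw [hκ h h0, map_mul, hκ _ (t1form_sig_ne c), t1form_ordAt_sig]
      have e2 : (v p * v p ^ ((k : ℤ) * (dlt c - 1))) ^ m =
          v p ^ ((m : ℤ) * (1 + (k : ℤ) * (dlt c - 1))) := by
        rw [mul_comm (m : ℤ), zpow_mul _ _ (m : ℤ), zpow_natCast _ m, zpow_add₀ hvp, zpow_one]
      rw [e2, zpow_le_zpow_iff_right_of_lt_one₀ hvp' hp1]
      nlinarith
    · -- no center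
      have hH1 := (hH c).1
      refine t1form_adm U b m (κ h) v hv 1 one_pos (fun _ => 0) (κ (t1form_sig c)) hsg ?_ ?_ ?_ ?_
      · intro j
        rw [Nat.cast_one, one_smul, zero_smul, add_zero, hb1]
        exact t1form_dlog_mem_log v (hs.ne_zero _)
      · rw [hb2, ← hdl]
        exact t1form_dlog_mem_log v hzc
      · intro h1
        exact absurd h1 hcen
      · rw [hord' h h0, hord' _ (t1form_sig_ne c), ← exp_nsmul, t1form_ordAt_sig, exp_le_exp]
        simp only [nsmul_eq_mul]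
        have : 0 ≤ (μ : ℤ) * ((m : ℤ) + (ordAt c h - m * dlt c)) := mul_nonneg (by omega) hH1
        nlinarith

end Pool.Agent.Lib.MP_410da7_ag
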