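import Pool.Agent.Lib.MP_410da7_ag.T1Base

/-!
# The place at infinity of the rational function field
-/

set_option autoImplicit false

namespace Pool.Agent.Lib.MP_410da7_ag

open KaehlerDifferential WithZero Polynomial

open Classical in
/-- the valuation at infinity of `ℂ(X)` -/
noncomputable def inftyVal : Valuation (RatFunc ℂ) ℤᵐ⁰ := RatFunc.inftyValuation ℂ

theorem inftyVal_apply {r : RatFunc ℂ} (hr : r ≠ 0) : inftyVal r = exp r.intDegree := by
  classical
  unfold inftyVal
  rw [RatFunc.inftyValuation_apply, RatFunc.inftyValuation_of_nonzero _ hr]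

/-- the polynomials, as a subring of `ℂ(X)` -/
noncomputable abbrev polySub : Subring (RatFunc ℂ) := (algebraMap ℂ[X] (RatFunc ℂ)).range

/-- the local ring at infinity, as a subring of `ℂ(X)` -/
noncomputable abbrev inftySub : Subring (RatFunc ℂ) := inftyVal.integer

end Pool.Agent.Lib.MP_410da7_ag
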