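import Pool.Agent.Lib.MP_410da7_ag.T1Base
import Pool.Agent.Lib.MP_410da7_ag.Val

/-!
# The trace dual at a tamely ramified place
-/

set_option autoImplicit false

namespace Pool.Agent.Lib.MP_410da7_ag
open KaehlerDifferential WithZero Polynomial

theorem t1tame_idem {R S : Type*} [CommRing R] [CommRing S] [Algebra R S] [IsLocalRing R]
    [Module.Free R S] [Module.Finite R S] (hchar : ∀ n : ℕ, n ≠ 0 → IsUnit (n : R)) (h : S)
    (h2 : h * h - h ∈ (IsLocalRing.maximalIdeal R).map (algebraMap R S))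
    (ht : Algebra.trace R S h ∈ IsLocalRing.maximalIdeal R) :
    h ∈ (IsLocalRing.maximalIdeal R).map (algebraMap R S) := by
  let _ := Ideal.Quotient.field (IsLocalRing.maximalIdeal R)
  have hcz : CharZero (R ⧸ IsLocalRing.maximalIdeal R) := by
    refine charZero_of_inj_zero fun n hn => ?_
    by_contra hn0
    have h1 : (Ideal.Quotient.mk (IsLocalRing.maximalIdeal R)) (n : R) = 0 := by
      rw [map_natCast]; exact hn
    rw [Ideal.Quotient.eq_zero_iff_mem] at h1
    exact (IsLocalRing.mem_maximalIdeal _).1 h1 (hchar n hn0)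
  have h1 := Algebra.trace_quotient_mk (R := R) (S := S) h
  rw [Ideal.Quotient.eq_zero_iff_mem.2 ht, Algebra.trace_apply] at h1
  have hid : IsIdempotentElem (Algebra.lmul (R ⧸ IsLocalRing.maximalIdeal R)
      (S ⧸ (IsLocalRing.maximalIdeal R).map (algebraMap R S))
      (Ideal.Quotient.mk ((IsLocalRing.maximalIdeal R).map (algebraMap R S)) h)) := by
    rw [IsIdempotentElem, ← map_mul, ← map_mul]
    congr 1
    rw [← sub_eq_zero, ← map_sub, Ideal.Quotient.eq_zero_iff_mem]
    exact h2
  have hfin : Module.Finite (R ⧸ IsLocalRing.maximalIdeal R)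
      (S ⧸ (IsLocalRing.maximalIdeal R).map (algebraMap R S)) :=
    Module.Finite.of_basis (IsLocalRing.basisQuotient (Module.Free.chooseBasis R S))
  have h3 := (LinearMap.IsIdempotentElem.trace_eq_zero_iff hid).1 h1
  have h4 := LinearMap.congr_fun h3 1
  rw [Algebra.coe_lmul_eq_mul, LinearMap.mul_apply', mul_one, LinearMap.zero_apply,
    Ideal.Quotient.eq_zero_iff_mem] at h4
  exact h4

theorem t1tame_int {A F : Type*} [CommRing A] [Field F] [Algebra A F] (v : Valuation F ℤᵐ⁰)
    (hv : ∀ a : A, v (algebraMap A F a) ≤ 1) (y : F) (hy : IsIntegral A y) : v y ≤ 1 := by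
  have h1 : IsIntegral v.integer y :=
    IsIntegral.map_of_comp_eq ((algebraMap A F).codRestrict v.integer hv) (RingHom.id F)
      (by ext; rfl) hy
  exact (Valuation.integer.integers v).mem_of_integral h1

theorem t1tame_pow {a b : ℤᵐ⁰} (ha : a < 1) (hb : b ≠ 0) : ∃ n : ℕ, a ^ n ≤ b := by
  by_cases ha0 : a = 0
  · exact ⟨1, by rw [ha0, pow_one]; exact zero_le⟩
  · obtain ⟨k, rfl⟩ : ∃ k : ℤ, a = exp k := ⟨log a, (exp_log ha0).symm⟩
    obtain ⟨l, rfl⟩ : ∃ l : ℤ, b = exp l := ⟨log b, (exp_log hb).symm⟩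
    have hk : k < 0 := by
      rw [← exp_zero, exp_lt_exp] at ha
      exact ha
    refine ⟨l.natAbs, ?_⟩
    rw [← exp_nsmul, exp_le_exp, nsmul_eq_mul]
    have h1 : (l.natAbs : ℤ) * k ≤ (l.natAbs : ℤ) * (-1) :=
      mul_le_mul_of_nonneg_left (by omega) (by omega)
    have h2 : (l.natAbs : ℤ) * (-1) ≤ l := by omega
    exact h1.trans h2

theorem t1tame_frac {C F : Type*} [CommRing C] [IsDedekindDomain C] [Field F] [Algebra C F]
    [IsFractionRing C F] (v : Valuation F ℤᵐ⁰) (hv : ∀ c : C, v (algebraMap C F c) ≤ 1)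
    (P : Ideal C) [P.IsPrime] (hP0 : P ≠ ⊥) (hP : ∀ c, c ∈ P ↔ v (algebraMap C F c) < 1)
    (z : F) (hz : v z ≤ 1) :
    ∃ a b : C, b ∉ P ∧ algebraMap C F b * z = algebraMap C F a := by
  have hdvr : IsDiscreteValuationRing (Localization.AtPrime P) :=
    IsLocalization.AtPrime.isDiscreteValuationRing_of_dedekind_domain C hP0 _
  obtain ⟨α, β, hβ, rfl⟩ := IsFractionRing.div_surjective C z
  have hβ0 : algebraMap C F β ≠ 0 := IsFractionRing.to_map_ne_zero_of_mem_nonZeroDivisors hβ
  have hinj : Function.Injective (algebraMap C (Localization.AtPrime P)) :=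
    IsLocalization.injective _ P.primeCompl_le_nonZeroDivisors
  have key : ∀ a b : C, (∃ c : Localization.AtPrime P,
      algebraMap C _ a * c = algebraMap C _ b) → ∃ s u : C, u ∉ P ∧ a * s = b * u := by
    rintro a b ⟨c, hc⟩
    obtain ⟨s, u, rfl⟩ := IsLocalization.exists_mk'_eq P.primeCompl c
    refine ⟨s, u, u.2, hinj ?_⟩
    rw [map_mul, map_mul, ← hc, mul_assoc, IsLocalization.mk'_spec]
  have hone : ∀ u : C, u ∉ P → v (algebraMap C F u) = 1 := fun u hu =>
    le_antisymm (hv u) (not_lt.1 fun h => hu ((hP u).2 h))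
  obtain ⟨c, hc | hc⟩ := ValuationRing.cond (algebraMap C (Localization.AtPrime P) α)
    (algebraMap C (Localization.AtPrime P) β)
  · obtain ⟨s, u, hu, h1⟩ := key _ _ ⟨c, hc⟩
    have h2 : algebraMap C F α / algebraMap C F β * algebraMap C F s = algebraMap C F u := by
      rw [div_mul_eq_mul_div, div_eq_iff hβ0, ← map_mul, ← map_mul, h1, mul_comm]
    have hs : s ∉ P := by
      intro hs
      have h3 := congrArg v h2
      rw [map_mul, hone u hu] at h3
      have h4 : v (algebraMap C F s) < 1 := (hP s).1 hs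
      have h5 : v (algebraMap C F α / algebraMap C F β) * v (algebraMap C F s) < 1 :=
        mul_lt_of_le_one_of_lt hz h4
      exact h5.ne h3
    refine ⟨u, s, hs, ?_⟩
    rw [mul_comm, h2]
  · obtain ⟨s, u, hu, h1⟩ := key _ _ ⟨c, hc⟩
    refine ⟨s, u, hu, ?_⟩
    rw [mul_div_assoc', div_eq_iff hβ0, ← map_mul, ← map_mul, mul_comm s β, h1, mul_comm]

theorem t1tame_core {A k F C : Type*} [CommRing A] [IsDomain A] [IsDiscreteValuationRing A] [Field k]
    [Field F] [Algebra A k] [IsFractionRing A k] [Algebra k F] [FiniteDimensional k F]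
    [Algebra.IsSeparable k F] [Algebra A F] [IsScalarTower A k F] [CommRing C] [IsDomain C]
    [Algebra C F] [Algebra A C] [IsScalarTower A C F] [IsIntegralClosure C A F]
    (v : Valuation F ℤᵐ⁰) (hvA : ∀ a : A, v (algebraMap A F a) ≤ 1) (ϖ : A)
    (hϖ : IsLocalRing.maximalIdeal A = Ideal.span {ϖ}) (hϖ0 : ϖ ≠ 0)
    (hunit : ∀ n : ℕ, n ≠ 0 → IsUnit (n : A)) (hϖv : v (algebraMap A F ϖ) < 1)
    (φ : F) (hφ : ∀ y : C, ∃ a : A,
      Algebra.trace k F (φ * algebraMap C F y) = algebraMap A k a) :
    v (algebraMap A F ϖ * φ) < 1 := by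
  have hded : IsDedekindDomain C := IsIntegralClosure.isDedekindDomain A k F C
  have hinjAk : Function.Injective (algebraMap A k) := IsFractionRing.injective A k
  have hinjAF : Function.Injective (algebraMap A F) := by
    rw [IsScalarTower.algebraMap_eq A k F]
    exact (algebraMap k F).injective.comp hinjAk
  have htf : Module.IsTorsionFree A F := .trans_faithfulSMul A k F
  have hfree : Module.Free A C := IsIntegralClosure.module_free A k F C
  have hfin : Module.Finite A C := IsIntegralClosure.finite A k F C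
  have hloc : IsLocalization (Algebra.algebraMapSubmonoid C (nonZeroDivisors A)) F :=
    IsIntegralClosure.isLocalization A k F C
  have hfrac : IsFractionRing C F := IsIntegralClosure.isFractionRing_of_finite_extension A k F C
  have hvC : ∀ c : C, v (algebraMap C F c) ≤ 1 := fun c =>
    t1tame_int v hvA _ ((IsIntegralClosure.isIntegral A F c).algebraMap)
  have hinj : Function.Injective (algebraMap C F) := IsFractionRing.injective C F
  set T : F := algebraMap A F ϖ with hT
  have hTC : T = algebraMap C F (algebraMap A C ϖ) := IsScalarTower.algebraMap_apply A C F ϖ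
  have hT0 : T ≠ 0 := by
    intro h
    exact hϖ0 (hinjAF (by rw [map_zero]; exact h))
  have hvT0 : v T ≠ 0 := (Valuation.ne_zero_iff v).2 hT0
  let P : Ideal C :=
    { carrier := {c | v (algebraMap C F c) < 1}
      add_mem' := fun {a b} ha hb => by
        change v (algebraMap C F (a + b)) < 1
        rw [map_add]
        exact v.map_add_lt ha hb
      zero_mem' := by
        change v (algebraMap C F 0) < 1
        rw [map_zero, map_zero]
        exact zero_lt_one
      smul_mem' := fun c x hx => by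
        change v (algebraMap C F (c * x)) < 1
        rw [map_mul, map_mul]
        exact mul_lt_of_le_one_of_lt (hvC c) hx }
  have hP : ∀ c, c ∈ P ↔ v (algebraMap C F c) < 1 := fun c => Iff.rfl
  have hone : ∀ u : C, u ∉ P → v (algebraMap C F u) = 1 := fun u hu =>
    le_antisymm (hvC u) (not_lt.1 fun h => hu ((hP u).2 h))
  have hPp : P.IsPrime := by
    refine ⟨?_, fun {x y} hxy => ?_⟩
    · rw [Ideal.ne_top_iff_one, hP, map_one, map_one]
      exact lt_irrefl 1
    · by_contra hcon
      push Not at hcon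
      rw [hP, map_mul, map_mul, hone x hcon.1, hone y hcon.2, one_mul] at hxy
      exact lt_irrefl _ hxy
  have hP0 : P ≠ ⊥ := by
    intro h
    have h1 : algebraMap A C ϖ ∈ P := by
      rw [hP, ← hTC]
      exact hϖv
    rw [h, Submodule.mem_bot] at h1
    apply hT0
    rw [hTC, h1, map_zero]
  have hPm : P.IsMaximal := hPp.isMaximal hP0
  by_contra hcon
  push Not at hcon
  set ψ : F := T * φ with hψ
  have hψ0 : ψ ≠ 0 := by
    intro h
    rw [h, map_zero] at hcon
    exact absurd hcon (not_le.2 zero_lt_one)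
  let q : Ideal C :=
    { carrier := {c | v (algebraMap C F c) ≤ v T}
      add_mem' := fun {a b} ha hb => by
        change v (algebraMap C F (a + b)) ≤ v T
        rw [map_add]
        exact v.map_add_le ha hb
      zero_mem' := by
        change v (algebraMap C F 0) ≤ v T
        rw [map_zero, map_zero]
        exact zero_le
      smul_mem' := fun c x hx => by
        change v (algebraMap C F (c * x)) ≤ v T
        rw [map_mul, map_mul]
        exact mul_le_of_le_one_of_le (hvC c) hx }
  let fa : Ideal C :=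
    { carrier := {g | ∃ y : C, algebraMap C F g = ψ * algebraMap C F y}
      add_mem' := by
        rintro a b ⟨y, hy⟩ ⟨z, hz⟩
        exact ⟨y + z, by rw [map_add, map_add, hy, hz, mul_add]⟩
      zero_mem' := ⟨0, by rw [map_zero, mul_zero]⟩
      smul_mem' := by
        rintro c x ⟨y, hy⟩
        exact ⟨c * y, by rw [smul_eq_mul, map_mul, map_mul, hy]; ring⟩ }
  let J : Ideal C :=
    { carrier := {j | ∀ g ∈ q, ∃ y : C, j * g = algebraMap A C ϖ * y}
      add_mem' := by
        intro a b ha hb g hg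
        obtain ⟨y, hy⟩ := ha g hg
        obtain ⟨z, hz⟩ := hb g hg
        exact ⟨y + z, by rw [add_mul, mul_add, hy, hz]⟩
      zero_mem' := fun g _ => ⟨0, by rw [zero_mul, mul_zero]⟩
      smul_mem' := by
        intro c x hx g hg
        obtain ⟨y, hy⟩ := hx g hg
        exact ⟨c * y, by rw [smul_eq_mul, mul_assoc, hy]; ring⟩ }
  have hfaP : ¬ fa ≤ P := by
    have h1 : v ψ⁻¹ ≤ 1 := by
      rw [map_inv₀]
      exact inv_le_one_of_one_le₀ hcon
    obtain ⟨a, b, hb, hab⟩ := t1tame_frac v hvC P hP0 hP _ h1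
    intro hle
    apply hb
    apply hle
    refine ⟨a, ?_⟩
    rw [← hab]
    field_simp
  have hJP : ¬ J ≤ P := by
    have hqfg : q.FG := IsNoetherian.noetherian q
    obtain ⟨s, hs⟩ := hqfg
    have h1 : ∀ g : C, ∃ b : C, b ∉ P ∧ (g ∈ q → ∃ y : C, b * g = algebraMap A C ϖ * y) := by
      intro g
      by_cases hg : g ∈ q
      · have h2 : v (algebraMap C F g / T) ≤ 1 := by
          rw [map_div₀]
          exact div_le_one_of_le₀ hg zero_le
        obtain ⟨a, b, hb, hab⟩ := t1tame_frac v hvC P hP0 hP _ h2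
        refine ⟨b, hb, fun _ => ⟨a, hinj ?_⟩⟩
        rw [map_mul, map_mul, ← hTC, ← hab]
        field_simp
      · exact ⟨1, fun h => hPp.ne_top ((Ideal.eq_top_iff_one P).2 h), fun h => absurd h hg⟩
    choose b hb hb2 using h1
    intro hle
    have hprod : ∏ g ∈ s, b g ∈ J := by
      classical
      intro g hg
      have hsub : q ≤ Submodule.comap (LinearMap.mulLeft C (∏ g ∈ s, b g))
          (Ideal.span {algebraMap A C ϖ}) := by
        rw [← hs, Submodule.span_le]
        intro g hgs
        have hgq : g ∈ q := by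
          rw [← hs]
          exact Submodule.subset_span hgs
        obtain ⟨y, hy⟩ := hb2 g hgq
        rw [SetLike.mem_coe, Submodule.mem_comap, LinearMap.mulLeft_apply,
          Ideal.mem_span_singleton]
        rw [← Finset.prod_erase_mul s b hgs, mul_assoc, hy]
        exact ⟨(∏ x ∈ s.erase g, b x) * y, by ring⟩
      have h3 := hsub hg
      rw [Submodule.mem_comap, LinearMap.mulLeft_apply, Ideal.mem_span_singleton] at h3
      exact h3
    have h4 := hle hprod
    rw [Ideal.IsPrime.prod_mem_iff] at h4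
    obtain ⟨g, -, hg⟩ := h4
    exact hb g hg
  have hsup : fa * J ⊔ q = ⊤ := by
    by_contra hne
    obtain ⟨M, hM, hle⟩ := Ideal.exists_le_maximal _ hne
    have hqM : q ≤ M := le_sup_right.trans hle
    have hfJM : fa * J ≤ M := le_sup_left.trans hle
    have hPM : P ≤ M := by
      intro g hg
      have h1 : ∃ n : ℕ, v (algebraMap C F g) ^ n ≤ v T := t1tame_pow hg hvT0
      obtain ⟨n, hn⟩ := h1
      have h2 : g ^ n ∈ M := by
        apply hqM
        change v (algebraMap C F (g ^ n)) ≤ v T
        rw [map_pow, map_pow]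
        exact hn
      exact hM.isPrime.mem_of_pow_mem n h2
    have hPM' : P = M := hPm.eq_of_le hM.ne_top hPM
    rw [← hPM', hPp.mul_le] at hfJM
    rcases hfJM with h | h
    · exact hfaP h
    · exact hJP h
  have h1top : (1 : C) ∈ fa * J ⊔ q := by
    rw [hsup]
    exact Submodule.mem_top
  obtain ⟨h, hh, g, hg, hhg⟩ := Submodule.mem_sup.1 h1top
  have hhfa : h ∈ fa := Ideal.mul_le_left hh
  have hhJ : h ∈ J := Ideal.mul_le_right hh
  have hmap : (IsLocalRing.maximalIdeal A).map (algebraMap A C) =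
      Ideal.span {algebraMap A C ϖ} := by
    rw [hϖ, Ideal.map_span, Set.image_singleton]
  have h2 : h * h - h ∈ (IsLocalRing.maximalIdeal A).map (algebraMap A C) := by
    obtain ⟨y, hy⟩ := hhJ g hg
    rw [hmap, Ideal.mem_span_singleton]
    refine ⟨-y, ?_⟩
    have : h = 1 - g := by rw [← hhg]; ring
    calc h * h - h = - (h * g) := by rw [this]; ring
      _ = _ := by rw [hy]; ring
  obtain ⟨y, hy⟩ := hhfa
  obtain ⟨a, ha⟩ := hφ y
  have htr : Algebra.trace A C h = ϖ * a := by
    apply hinjAk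
    rw [← Algebra.trace_localization A (Rₘ := k) (Sₘ := F) (nonZeroDivisors A) h, hy, hψ, mul_assoc,
      map_mul (algebraMap A k), ← ha]
    have h3 : T * (φ * algebraMap C F y) = algebraMap A k ϖ • (φ * algebraMap C F y) := by
      rw [Algebra.smul_def, ← IsScalarTower.algebraMap_apply A k F]
    rw [h3, map_smul, smul_eq_mul]
  have h3 := t1tame_idem hunit h h2 (by
    rw [htr, hϖ, Ideal.mem_span_singleton]
    exact dvd_mul_right _ _)
  rw [hmap, Ideal.mem_span_singleton] at h3
  obtain ⟨c, hc⟩ := h3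
  have h4 : v (algebraMap C F h) < 1 := by
    rw [hc, map_mul, map_mul, ← hTC]
    exact mul_lt_one_of_lt_of_le hϖv (hvC c)
  have h5 : v (algebraMap C F h) = 1 := by
    have : h = 1 - g := by rw [← hhg]; ring
    rw [this, map_sub, map_one]
    exact v.map_one_sub_of_lt (lt_of_le_of_lt hg hϖv)
  exact h4.ne h5

theorem t1tame_dvr {k : Type*} [Field k] (w : Valuation k ℤᵐ⁰) (t : k) (ht0 : t ≠ 0)
    (ht : w t < 1) (hmax : ∀ a : k, w a < 1 → w a ≤ w t) :
    ∃ _ : IsDiscreteValuationRing w.integer,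
      IsLocalRing.maximalIdeal w.integer = Ideal.span {(⟨t, ht.le⟩ : w.integer)} := by
  have hI := Valuation.integer.integers w
  have hwt0 : w t ≠ 0 := (Valuation.ne_zero_iff w).2 ht0
  have hirr : Irreducible (⟨t, ht.le⟩ : w.integer) := by
    refine ⟨fun hu => ?_, fun {a b} hab => ?_⟩
    · have h1 := hI.one_of_isUnit hu
      exact ht.ne h1
    · by_contra hcon
      push Not at hcon
      have ha : w (a : k) < 1 := lt_of_le_of_ne a.2 fun h => hcon.1 (hI.isUnit_of_one' h)
      have hb : w (b : k) < 1 := lt_of_le_of_ne b.2 fun h => hcon.2 (hI.isUnit_of_one' h)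
      have h1 : t = (a : k) * (b : k) := congrArg Subtype.val hab
      have h2 : w t = w (a : k) * w (b : k) := by rw [h1, map_mul]
      have h3 := hmax _ ha
      have h4 : w (a : k) ≠ 0 := by
        intro h
        rw [h, zero_mul] at h2
        exact hwt0 h2
      have h5 : w (a : k) * w (b : k) < w (a : k) * 1 :=
        mul_lt_mul_of_pos_left hb (zero_lt_iff.2 h4)
      rw [mul_one, ← h2] at h5
      exact absurd (h5.trans_le h3) (lt_irrefl _)
  have hfac : IsDiscreteValuationRing.HasUnitMulPowIrreducibleFactorization w.integer := by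
    refine ⟨⟨t, ht.le⟩, hirr, fun {x} hx => ?_⟩
    have hx0 : (x : k) ≠ 0 := fun h => hx (Subtype.ext h)
    have hwx0 : w (x : k) ≠ 0 := (Valuation.ne_zero_iff w).2 hx0
    classical
    have hex : ∃ n : ℕ, w t ^ n ≤ w (x : k) := t1tame_pow ht hwx0
    have hval : w (x : k) = w t ^ (Nat.find hex) := by
      apply le_antisymm _ (Nat.find_spec hex)
      rcases hn : Nat.find hex with _ | m
      · rw [pow_zero]; exact x.2
      · have h1 : w (x : k) < w t ^ m := by
          rw [← not_le]
          exact Nat.find_min hex (by rw [hn]; exact Nat.lt_succ_self m)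
        have hwtm : w t ^ m ≠ 0 := pow_ne_zero m hwt0
        have h2 : w ((x : k) / t ^ m) < 1 := by
          rw [map_div₀, map_pow, div_lt_one₀ (zero_lt_iff.2 hwtm)]
          exact h1
        have h3 := hmax _ h2
        rw [map_div₀, map_pow, div_le_iff₀ (zero_lt_iff.2 hwtm)] at h3
        rw [pow_succ']
        exact h3
    refine ⟨Nat.find hex, associated_of_dvd_dvd ?_ ?_⟩
    · apply hI.dvd_of_le
      change w (x : k) ≤ w ((t : k) ^ _)
      rw [map_pow, ← hval]
    · apply hI.dvd_of_le
      change w ((t : k) ^ _) ≤ w (x : k)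
      rw [map_pow, ← hval]
  have hdvr := IsDiscreteValuationRing.ofHasUnitMulPowIrreducibleFactorization hfac
  exact ⟨hdvr, (IsDiscreteValuationRing.irreducible_iff_uniformizer _).1 hirr⟩

theorem tame_trace {k F : Type} [Field k] [Field F] [Algebra k F] [FiniteDimensional k F]
    (v : Valuation F ℤᵐ⁰) (hn : ∀ n : ℕ, n ≠ 0 → v (n : F) = 1)
    (t : k) (ht0 : t ≠ 0) (ht : v (algebraMap k F t) < 1)
    (hmax : ∀ a : k, v (algebraMap k F a) < 1 → v (algebraMap k F a) ≤ v (algebraMap k F t))
    (φ : F) (hφ : ∀ y : F, IsIntegral (v.comap (algebraMap k F)).integer y →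
      v (algebraMap k F (Algebra.trace k F (φ * y))) ≤ 1) :
    v (algebraMap k F t * φ) < 1 := by
  obtain ⟨hdvr, hϖ⟩ := t1tame_dvr (v.comap (algebraMap k F)) t ht0 ht hmax
  have hI := Valuation.integer.integers (v.comap (algebraMap k F))
  have hfr : IsFractionRing (v.comap (algebraMap k F)).integer k := hI.isFractionRing
  have hczF : CharZero F := by
    refine charZero_of_inj_zero fun n h => ?_
    by_contra hn0
    have h1 := hn n hn0
    rw [h, map_zero] at h1
    exact zero_ne_one h1
  have hczk : CharZero k := by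
    refine charZero_of_inj_zero fun n h => ?_
    have h1 : algebraMap k F (n : k) = 0 := by rw [h, map_zero]
    rw [map_natCast] at h1
    exact_mod_cast h1
  refine t1tame_core (A := (v.comap (algebraMap k F)).integer) (k := k) (F := F)
    (C := integralClosure (v.comap (algebraMap k F)).integer F) v (fun a => a.2)
    ⟨t, ht.le⟩ hϖ (fun h => ht0 (congrArg Subtype.val h)) (fun n hn0 => ?_) ht φ (fun y => ?_)
  · apply hI.isUnit_of_one'
    change v (algebraMap k F ((n : (v.comap (algebraMap k F)).integer) : k)) = 1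
    have : ((n : (v.comap (algebraMap k F)).integer) : k) = (n : k) := by norm_cast
    rw [this, map_natCast]
    exact hn n hn0
  · exact ⟨⟨_, hφ y.1 y.2⟩, rfl⟩

theorem regDiff_of_trace {k F : Type} [Field k] [Field F] [Algebra ℂ F] [Algebra k F]
    [FiniteDimensional k F]
    (v : Valuation F ℤᵐ⁰) (hv : ∀ c : ℂ, c ≠ 0 → v (algebraMap ℂ F c) = 1)
    (t : k) (ht0 : t ≠ 0) (ht : v (algebraMap k F t) < 1)
    (hmax : ∀ a : k, v (algebraMap k F a) < 1 → v (algebraMap k F a) ≤ v (algebraMap k F t))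
    (φ : F) (hφ : ∀ y : F, IsIntegral (v.comap (algebraMap k F)).integer y →
      v (algebraMap k F (Algebra.trace k F (φ * y))) ≤ 1) :
    φ • D ℂ F (algebraMap k F t) ∈ regDiff v := by
  have hn : ∀ n : ℕ, n ≠ 0 → v (n : F) = 1 := by
    intro n hn0
    have h1 := hv (n : ℂ) (Nat.cast_ne_zero.2 hn0)
    rw [map_natCast] at h1
    exact h1
  have hvT := tame_trace v hn t ht0 ht hmax φ hφ
  set T : F := algebraMap k F t with hT
  have hT0 : T ≠ 0 := by
    rw [hT]
    exact (_root_.map_ne_zero _).2 ht0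
  by_cases hφ0 : φ = 0
  · rw [hφ0, zero_smul]
    exact (regDiff v).zero_mem
  obtain ⟨p, hp0, hp1, hp⟩ := exists_unif v ⟨T, hT0, ht.ne⟩
  have hvp0 : v p ≠ 0 := (Valuation.ne_zero_iff v).2 hp0
  have hneg : ∀ k : ℤ, v p ^ k < 1 → 0 < k := by
    intro k hk
    by_contra hk0
    push Not at hk0
    have h1 : (1 : ℤᵐ⁰) ≤ v p ^ k := by
      have h2 : v p ^ (-k).toNat ≤ 1 := pow_le_one' hp1.le _
      have h3 : k = -((-k).toNat : ℤ) := by omega
      rw [h3, zpow_neg, zpow_natCast]
      exact (one_le_inv₀ (zero_lt_iff.2 (pow_ne_zero _ hvp0))).2 h2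
    exact absurd hk (not_lt.2 h1)
  obtain ⟨e, he⟩ := hp T hT0
  have he0 : 0 < e := hneg e (by rw [← he]; exact ht)
  obtain ⟨E, rfl⟩ : ∃ E : ℕ, e = (E : ℤ) + 1 := ⟨(e - 1).toNat, by omega⟩
  obtain ⟨m, hm⟩ := hp (T * φ) (mul_ne_zero hT0 hφ0)
  have hm0 : 0 < m := hneg m (by rw [← hm]; exact hvT)
  have heN : v T = v p ^ (E + 1) := by
    rw [he, ← zpow_natCast]
    push_cast
    rfl
  set u : F := T / p ^ (E + 1) with hu
  have hTu : T = u * p ^ (E + 1) := by rw [hu]; field_simp
  have hvu : v u = 1 := by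
    rw [hu, map_div₀, map_pow, heN]
    exact div_self (pow_ne_zero _ hvp0)
  have hD : φ • D ℂ F T = (φ * p ^ (E + 1)) • D ℂ F u +
      (φ * (u * ((E + 1 : ℕ) : F) * p ^ E)) • D ℂ F p := by
    rw [hTu, Derivation.leibniz, Derivation.leibniz_pow, smul_add, smul_smul, smul_smul, add_comm]
    congr 1
    rw [Nat.add_sub_cancel, ← Nat.cast_smul_eq_nsmul F, smul_smul, smul_smul]
    congr 1
    ring
  rw [hD]
  apply (regDiff v).add_mem
  · apply AddSubgroup.subset_closure
    refine ⟨_, _, ?_, hvu.le, rfl⟩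
    have h1 : v (φ * p ^ (E + 1)) = v (T * φ) := by
      rw [map_mul, map_mul, map_pow, heN, mul_comm]
    rw [h1]
    exact hvT.le
  · apply AddSubgroup.subset_closure
    refine ⟨_, _, ?_, hp1.le, rfl⟩
    have h1 : v (φ * (u * ((E + 1 : ℕ) : F) * p ^ E)) * v p = v (T * φ) := by
      rw [map_mul, map_mul, map_mul, map_pow, hvu, hn _ (Nat.succ_ne_zero E), map_mul, heN,
        pow_succ]
      simp only [one_mul]
      rw [mul_comm (v φ), mul_assoc, mul_comm (v φ), ← mul_assoc]
    have h2 : v (φ * (u * ((E + 1 : ℕ) : F) * p ^ E)) = v p ^ (m - 1) := by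
      have h3 : v (φ * (u * ((E + 1 : ℕ) : F) * p ^ E)) * v p = v p ^ (m - 1) * v p := by
        rw [h1, hm, ← zpow_add_one₀ hvp0, sub_add_cancel]
      exact mul_right_cancel₀ hvp0 h3
    rw [h2]
    obtain ⟨N, hN⟩ : ∃ N : ℕ, m - 1 = (N : ℤ) := ⟨(m - 1).toNat, by omega⟩
    rw [hN, zpow_natCast]
    exact pow_le_one' hp1.le _

end Pool.Agent.Lib.MP_410da7_ag
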