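import Pool.Agent.Lib.MP_410da7_ag.T1GBase
import Pool.Agent.Lib.MP_410da7_ag.T1Tame
import Pool.Agent.Lib.MP_410da7_ag.T1Dual

/-!
# A function with one simple pole
-/

set_option autoImplicit false

namespace Pool.Agent.Lib.MP_410da7_ag

open KaehlerDifferential WithZero Polynomial IsDedekindDomain

/-- a function with one simple pole at a given place of a Dedekind domain -/
theorem t1pole_exists {C F : Type} [CommRing C] [IsDedekindDomain C] [Field F] [Algebra C F]
    [IsFractionRing C F] (Q : HeightOneSpectrum C) :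
    ∃ g : F, (∀ P : HeightOneSpectrum C, P ≠ Q → P.valuation F g ≤ 1) ∧
      Q.valuation F g = exp 1 := by
  obtain ⟨g, hg, hg1⟩ := FractionalIdeal.exists_notMem_one_of_ne_bot (K := F) Q.ne_bot
    Q.isPrime.ne_top
  have hQ0 : (Q.asIdeal : FractionalIdeal (nonZeroDivisors C) F) ≠ 0 :=
    FractionalIdeal.coeIdeal_ne_zero.2 Q.ne_bot
  rw [FractionalIdeal.mem_inv_iff hQ0] at hg
  have hmul : ∀ q ∈ Q.asIdeal, ∃ c : C, algebraMap C F c = g * algebraMap C F q := by
    intro q hq
    have h1 := hg (algebraMap C F q) (FractionalIdeal.mem_coeIdeal_of_mem _ hq)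
    exact (FractionalIdeal.mem_one_iff _).1 h1
  have h1 : ∀ P : HeightOneSpectrum C, P ≠ Q → P.valuation F g ≤ 1 := by
    intro P hP
    obtain ⟨q, hq, hqP⟩ : ∃ q ∈ Q.asIdeal, q ∉ P.asIdeal := by
      by_contra hcon
      push Not at hcon
      exact hP (HeightOneSpectrum.ext (((Q.isMaximal.eq_of_le P.isPrime.ne_top hcon))).symm)
    obtain ⟨c, hc⟩ := hmul q hq
    have h2 : P.valuation F (algebraMap C F q) = 1 :=
      (P.valuation_eq_one_iff_notMem (K := F)).2 hqP
    have h3 : P.valuation F (algebraMap C F c) ≤ 1 := P.valuation_le_one c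
    rw [hc, map_mul, h2, mul_one] at h3
    exact h3
  refine ⟨g, h1, ?_⟩
  obtain ⟨π, hπ⟩ := Q.intValuation_exists_uniformizer
  have hπQ : π ∈ Q.asIdeal := by
    rw [← Q.intValuation_lt_one_iff_mem, hπ, ← exp_zero, exp_lt_exp]
    norm_num
  have hle : Q.valuation F g ≤ exp 1 := by
    obtain ⟨c, hc⟩ := hmul π hπQ
    have h3 : Q.valuation F (algebraMap C F c) ≤ 1 := Q.valuation_le_one c
    rw [hc, map_mul, HeightOneSpectrum.valuation_of_algebraMap, hπ] at h3
    calc Q.valuation F g = Q.valuation F g * exp (-1 : ℤ) * exp 1 := by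
          rw [mul_assoc, ← exp_add]; simp
      _ ≤ 1 * exp 1 := mul_le_mul_left h3 _
      _ = exp 1 := one_mul _
  have hgt : ¬ Q.valuation F g ≤ 1 := by
    intro h2
    apply hg1
    have h4 := HeightOneSpectrum.mem_integers_of_valuation_le_one F g (fun P => by
      by_cases hP : P = Q
      · rw [hP]; exact h2
      · exact h1 P hP)
    obtain ⟨c, hc⟩ := h4
    exact (FractionalIdeal.mem_one_iff _).2 ⟨c, hc⟩
  have hne : Q.valuation F g ≠ 0 := by
    intro h0; rw [h0] at hgt; exact hgt zero_le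
  obtain ⟨k, hk⟩ : ∃ k : ℤ, Q.valuation F g = exp k := ⟨log (Q.valuation F g), (exp_log hne).symm⟩
  rw [hk, ← exp_zero, exp_le_exp] at hgt
  rw [hk, exp_le_exp] at hle
  rw [hk]; congr 1; omega

/-- the elements that are integral over `ℂ[X]` and over the local ring at infinity are constants -/
theorem t1pole_const {F : Type} [Field F] [Algebra (RatFunc ℂ) F] [Algebra ℂ F]
    [IsScalarTower ℂ (RatFunc ℂ) F] [FiniteDimensional (RatFunc ℂ) F]
    (hfr : IsFractionRing inftySub (RatFunc ℂ)) (hcl : IsIntegrallyClosed inftySub)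
    (y : F) (h1 : IsIntegral polySub y) (h2 : IsIntegral inftySub y) :
    ∃ c : ℂ, algebraMap ℂ F c = y := by
  letI : Algebra ℂ[X] F := ((algebraMap (RatFunc ℂ) F).comp (algebraMap ℂ[X] (RatFunc ℂ))).toAlgebra
  haveI : IsScalarTower ℂ[X] (RatFunc ℂ) F := IsScalarTower.of_algebraMap_eq (fun _ => rfl)
  have h1' : IsIntegral ℂ[X] y := by
    let e : ℂ[X] ≃+* polySub := RingEquiv.ofBijective (algebraMap ℂ[X] (RatFunc ℂ)).rangeRestrict
      ⟨fun a b hab => IsFractionRing.injective ℂ[X] (RatFunc ℂ) (congrArg Subtype.val hab),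
        (algebraMap ℂ[X] (RatFunc ℂ)).rangeRestrict_surjective⟩
    have he : ∀ a : polySub, algebraMap ℂ[X] (RatFunc ℂ) (e.symm a) = a := fun a =>
      congrArg Subtype.val (e.apply_symm_apply a)
    refine IsIntegral.map_of_comp_eq (e.symm : polySub →+* ℂ[X]) (RingHom.id F) ?_ h1
    ext a
    change algebraMap (RatFunc ℂ) F (algebraMap ℂ[X] (RatFunc ℂ) (e.symm a)) = _
    rw [he]
    rfl
  have e1 := minpoly.isIntegrallyClosed_eq_field_fractions' (RatFunc ℂ) h1'
  have e2 := minpoly.isIntegrallyClosed_eq_field_fractions' (RatFunc ℂ) h2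
  have hco : ∀ i, ∃ c : ℂ, algebraMap ℂ (RatFunc ℂ) c = (minpoly (RatFunc ℂ) y).coeff i := by
    intro i
    have h3 : inftyVal ((minpoly (RatFunc ℂ) y).coeff i) ≤ 1 := by
      rw [e2, coeff_map]
      exact ((minpoly inftySub y).coeff i).2
    rw [e1, coeff_map] at h3 ⊢
    by_cases hq : (minpoly ℂ[X] y).coeff i = 0
    · exact ⟨0, by rw [hq]; simp⟩
    · rw [inftyVal_apply (by simpa using hq), RatFunc.intDegree_polynomial, ← exp_zero,
        exp_le_exp] at h3
      have h4 : ((minpoly ℂ[X] y).coeff i).natDegree = 0 := by omega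
      obtain ⟨c, hc⟩ := natDegree_eq_zero.1 h4
      refine ⟨c, ?_⟩
      rw [← hc]
      rfl
  have hint : IsIntegral ℂ y := by
    have h5 : minpoly (RatFunc ℂ) y ∈ lifts (algebraMap ℂ (RatFunc ℂ)) :=
      (lifts_iff_coeff_lifts _).2 fun i => hco i
    obtain ⟨q, hq, -, hqm⟩ := lifts_and_natDegree_eq_and_monic h5
      (minpoly.monic (Algebra.IsIntegral.isIntegral y))
    refine ⟨q, hqm, ?_⟩
    have h6 : aeval y (q.map (algebraMap ℂ (RatFunc ℂ))) = 0 := by
      rw [hq]; exact minpoly.aeval _ _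
    rw [aeval_map_algebraMap] at h6
    exact h6
  have hdeg := IsAlgClosed.degree_eq_one_of_irreducible ℂ (minpoly.irreducible hint)
  exact minpoly.mem_range_of_degree_eq_one ℂ y hdeg

/-- reduction modulo the place -/
theorem t1pole_residue {A F : Type} [CommRing A] [Field F] [Algebra A F] [Algebra ℂ F]
    (v : Valuation F ℤᵐ⁰) (hvA : ∀ a : A, v (algebraMap A F a) ≤ 1)
    (hres : ∀ a : A, ∃ c : ℂ, v (algebraMap A F a - algebraMap ℂ F c) < 1)
    (s : F) (hs : IsIntegral A s) : ∃ c : ℂ, v (s - algebraMap ℂ F c) < 1 := by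
  have hvs : v s ≤ 1 := t1tame_int v hvA s hs
  obtain ⟨P, hPm, hP⟩ := hs
  choose c hc using hres
  -- the reduced polynomial
  set q : ℂ[X] := ∑ i ∈ Finset.range P.natDegree, C (c (P.coeff i)) * X ^ i with hq
  have hqd : q.degree < P.natDegree := by
    refine (degree_sum_le _ _).trans_lt ?_
    rw [Finset.sup_lt_iff (WithBot.bot_lt_coe _)]
    intro i hi
    refine (degree_C_mul_X_pow_le _ _).trans_lt ?_
    exact_mod_cast Finset.mem_range.1 hi
  have hmon : (X ^ P.natDegree + q).Monic := monic_X_pow_add hqd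
  have hval : v (aeval s (X ^ P.natDegree + q)) < 1 := by
    have h1 : aeval s (X ^ P.natDegree + q) =
        -∑ i ∈ Finset.range P.natDegree,
          (algebraMap A F (P.coeff i) - algebraMap ℂ F (c (P.coeff i))) * s ^ i := by
      have h2 : s ^ P.natDegree + ∑ i ∈ Finset.range P.natDegree,
          algebraMap A F (P.coeff i) * s ^ i = 0 := by
        rw [eval₂_eq_sum_range, Finset.sum_range_succ, hPm.coeff_natDegree, map_one, one_mul] at hP
        rw [add_comm]; exact hP
      rw [hq, map_add, map_pow, aeval_X, map_sum]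
      simp only [map_mul, aeval_C, map_pow, aeval_X, sub_mul, Finset.sum_sub_distrib]
      linear_combination h2
    rw [h1, Valuation.map_neg]
    refine Valuation.map_sum_lt v one_ne_zero fun i _ => ?_
    rw [map_mul, map_pow]
    exact mul_lt_one_of_lt_of_le (hc _) (pow_le_one' hvs _)
  have hsplit := IsAlgClosed.splits (X ^ P.natDegree + q)
  have key : ∀ m : Multiset ℂ, v ((m.map fun r => s - algebraMap ℂ F r).prod) < 1 →
      ∃ r : ℂ, v (s - algebraMap ℂ F r) < 1 := by
    intro m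
    induction m using Multiset.induction_on with
    | empty => intro h; simp at h
    | cons r m ih =>
      intro h
      rw [Multiset.map_cons, Multiset.prod_cons, map_mul] at h
      by_cases h1 : v (s - algebraMap ℂ F r) < 1
      · exact ⟨r, h1⟩
      · refine ih ?_
        by_contra h2
        push Not at h1 h2
        exact absurd (one_le_mul h1 h2) (not_le.2 h)
  refine key (X ^ P.natDegree + q).roots ?_
  have h7 := hsplit.eq_prod_roots_of_monic hmon
  rw [h7, map_multiset_prod, Multiset.map_map] at hval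
  convert hval using 3
  refine Multiset.map_congr rfl fun r _ => ?_
  simp

/-- the residue field at infinity is `ℂ` -/
theorem t1pole_infty_residue (r : RatFunc ℂ) (hr : inftyVal r ≤ 1) :
    ∃ c : ℂ, inftyVal (r - algebraMap ℂ (RatFunc ℂ) c) < 1 := by
  by_cases h1 : inftyVal r < 1
  · exact ⟨0, by rwa [map_zero, sub_zero]⟩
  have h2 : inftyVal r = 1 := le_antisymm hr (not_lt.1 h1)
  have hr0 : r ≠ 0 := by
    rintro rfl
    rw [map_zero] at h2
    exact zero_ne_one h2
  have hden : algebraMap ℂ[X] (RatFunc ℂ) r.denom ≠ 0 := RatFunc.algebraMap_ne_zero r.denom_ne_zero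
  have hnum0 : r.num ≠ 0 := RatFunc.num_ne_zero hr0
  have hdeg : r.num.natDegree = r.denom.natDegree := by
    have h3 := h2
    rw [inftyVal_apply hr0, ← exp_zero] at h3
    have h4 := exp_injective h3
    rw [RatFunc.intDegree] at h4
    omega
  refine ⟨r.num.leadingCoeff / r.denom.leadingCoeff, ?_⟩
  set c := r.num.leadingCoeff / r.denom.leadingCoeff with hc
  have hlc : r.denom.leadingCoeff ≠ 0 := leadingCoeff_ne_zero.2 r.denom_ne_zero
  have hc0 : c ≠ 0 := div_ne_zero (leadingCoeff_ne_zero.2 hnum0) hlc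
  have e1 : r - algebraMap ℂ (RatFunc ℂ) c =
      algebraMap ℂ[X] (RatFunc ℂ) (r.num - C c * r.denom) / algebraMap ℂ[X] (RatFunc ℂ) r.denom := by
    rw [map_sub, map_mul, sub_div, RatFunc.num_div_denom, mul_div_assoc, div_self hden, mul_one]
    rfl
  rw [e1, map_div₀]
  by_cases h5 : r.num - C c * r.denom = 0
  · rw [h5, map_zero, map_zero, zero_div]
    exact zero_lt_one
  · rw [t1dual_inftyVal_poly h5, t1dual_inftyVal_poly r.denom_ne_zero, ← exp_sub, ← exp_zero,
      exp_lt_exp]
    have h6 : (r.num - C c * r.denom).degree < r.num.degree := by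
      refine degree_sub_lt_left ?_ hnum0 ?_
      · rw [degree_C_mul hc0, degree_eq_natDegree hnum0, degree_eq_natDegree r.denom_ne_zero, hdeg]
      · rw [leadingCoeff_mul, leadingCoeff_C, hc, div_mul_cancel₀ _ hlc]
    have h7 := natDegree_lt_natDegree h5 h6
    omega

theorem t1pole_res2 {C F : Type} [CommRing C] [IsDedekindDomain C] [Field F] [Algebra C F]
    [IsFractionRing C F] [Algebra ℂ F] (Q : HeightOneSpectrum C) (v : Valuation F ℤᵐ⁰)
    (hvC : ∀ s : C, v (algebraMap C F s) ≤ 1)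
    (hmemQ : ∀ s : C, s ∈ Q.asIdeal ↔ v (algebraMap C F s) < 1)
    (hcv : ∀ c : ℂ, v (algebraMap ℂ F c) ≤ 1)
    (hres : ∀ s : C, ∃ c : ℂ, v (algebraMap C F s - algebraMap ℂ F c) < 1)
    (h : F) (hh : v h ≤ 1) : ∃ c : ℂ, v (h - algebraMap ℂ F c) < 1 := by
  obtain ⟨a, b, hb, hab⟩ := t1tame_frac v hvC Q.asIdeal Q.ne_bot hmemQ h hh
  obtain ⟨ca, hca⟩ := hres a
  obtain ⟨cb, hcb⟩ := hres b
  have hvb : v (algebraMap C F b) = 1 := by
    refine le_antisymm (hvC b) (not_lt.1 fun h1 => hb ((hmemQ b).2 h1))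
  have hcb0 : cb ≠ 0 := by
    rintro rfl
    rw [map_zero, sub_zero, hvb] at hcb
    exact lt_irrefl _ hcb
  refine ⟨ca / cb, ?_⟩
  have hcbF : algebraMap ℂ F cb ≠ 0 := by simpa using hcb0
  have e1 : algebraMap C F b * (h - algebraMap ℂ F (ca / cb)) =
      (algebraMap C F a - algebraMap ℂ F ca) -
        algebraMap ℂ F (ca / cb) * (algebraMap C F b - algebraMap ℂ F cb) := by
    rw [map_div₀]
    field_simp
    linear_combination (algebraMap ℂ F cb) * hab
  have e2 := congrArg v e1
  rw [map_mul, hvb, one_mul] at e2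
  rw [e2]
  refine Valuation.map_sub_lt v hca ?_
  rw [map_mul]
  exact mul_lt_of_le_one_of_lt (hcv _) hcb

theorem t1pole_ind {F : Type} [Field F] [Algebra ℂ F] (v : Valuation F ℤᵐ⁰) (R : Subalgebra ℂ F)
    (a : F) (ha : a ∈ R) (ha0 : a ≠ 0) (hva : v a = exp 1)
    (hres : ∀ h : F, v h ≤ 1 → ∃ c : ℂ, v (h - algebraMap ℂ F c) < 1)
    (hbase : ∀ h : F, IsIntegral R h → v h ≤ 1 → h ∈ R) (h : F) (hh : IsIntegral R h) : h ∈ R := by
  have hmain : ∀ n : ℕ, ∀ h : F, IsIntegral R h → v h ≤ exp (n : ℤ) → h ∈ R := by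
    intro n
    induction n with
    | zero =>
      intro h hh hvh
      exact hbase h hh (by simpa using hvh)
    | succ n ih =>
      intro h hh hvh
      have hpow : v (a ^ (n + 1)) = exp ((n : ℤ) + 1) := by
        rw [map_pow, hva, ← exp_nsmul]; congr 1; simp
      have h1 : v (h / a ^ (n + 1)) ≤ 1 := by
        rw [map_div₀, hpow]
        refine div_le_one_of_le₀ ?_ zero_le
        simpa using hvh
      obtain ⟨c, hc⟩ := hres _ h1
      have hmem : algebraMap ℂ F c * a ^ (n + 1) ∈ R :=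
        R.mul_mem (R.algebraMap_mem c) (R.pow_mem ha _)
      have e1 : h - algebraMap ℂ F c * a ^ (n + 1) =
          (h / a ^ (n + 1) - algebraMap ℂ F c) * a ^ (n + 1) := by
        field_simp
      have h2 : h - algebraMap ℂ F c * a ^ (n + 1) ∈ R := by
        apply ih
        · exact hh.sub (isIntegral_algebraMap (R := R) (A := F) (x := ⟨_, hmem⟩))
        · rw [e1, map_mul, hpow]
          by_cases h0 : v (h / a ^ (n + 1) - algebraMap ℂ F c) = 0
          · rw [h0, zero_mul]; exact zero_le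
          · obtain ⟨k, hk⟩ : ∃ k : ℤ, v (h / a ^ (n + 1) - algebraMap ℂ F c) = exp k :=
              ⟨log _, (exp_log h0).symm⟩
            rw [hk, ← exp_zero, exp_lt_exp] at hc
            rw [hk, ← exp_add, exp_le_exp]; omega
      have e3 : h = (h - algebraMap ℂ F c * a ^ (n + 1)) + algebraMap ℂ F c * a ^ (n + 1) := by ring
      rw [e3]
      exact R.add_mem h2 hmem
  by_cases h0 : v h = 0
  · exact hbase h hh (by rw [h0]; exact zero_le)
  · obtain ⟨k, hk⟩ : ∃ k : ℤ, v h = exp k := ⟨log _, (exp_log h0).symm⟩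
    refine hmain k.toNat h hh ?_
    rw [hk, exp_le_exp]
    exact Int.self_le_toNat k

theorem t1pole_core {C F : Type} [CommRing C] [IsDedekindDomain C] [Field F] [Algebra C F]
    [IsFractionRing C F] [Algebra ℂ F] (Q : HeightOneSpectrum C)
    (hcC : ∀ c : ℂ, ∃ s : C, algebraMap C F s = algebraMap ℂ F c)
    (hres : ∀ s : C, ∃ c : ℂ, Q.valuation F (algebraMap C F s - algebraMap ℂ F c) < 1)
    (O : Subring F) (hO : ∀ h : F, IsIntegral O h → h ∈ O) (hOC : ∀ c : ℂ, algebraMap ℂ F c ∈ O)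
    (hconst : ∀ s : C, algebraMap C F s ∈ O → ∃ c : ℂ, algebraMap ℂ F c = algebraMap C F s)
    (hsp : ∀ g : F, ∃ a ∈ O, ∃ s : C, g = a + algebraMap C F s) :
    ∃ a : F, Transcendental ℂ a ∧ ∀ h : F, IsIntegral (Algebra.adjoin ℂ {a}) h →
      h ∈ Algebra.adjoin ℂ {a} := by
  set v := Q.valuation F with hv
  have hvC : ∀ s : C, v (algebraMap C F s) ≤ 1 := fun s => Q.valuation_le_one s
  have hmemQ : ∀ s : C, s ∈ Q.asIdeal ↔ v (algebraMap C F s) < 1 :=
    fun s => (Q.valuation_lt_one_iff_mem (K := F) s).symm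
  have hc1 : ∀ (P : HeightOneSpectrum C) (c : ℂ), P.valuation F (algebraMap ℂ F c) ≤ 1 := by
    intro P c
    obtain ⟨s, hs⟩ := hcC c
    rw [← hs]
    exact P.valuation_le_one s
  have hres2 := t1pole_res2 Q v hvC hmemQ (hc1 Q) hres
  -- the function with one simple pole
  obtain ⟨g, hgP, hgQ⟩ := t1pole_exists (F := F) Q
  obtain ⟨a, ha, b, hab⟩ := hsp g
  have e1 : a = g - algebraMap C F b := by rw [hab]; ring
  have haP : ∀ P : HeightOneSpectrum C, P ≠ Q → P.valuation F a ≤ 1 := by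
    intro P hP
    rw [e1]
    exact Valuation.map_sub_le _ (hgP P hP) (P.valuation_le_one b)
  have haQ : v a = exp 1 := by
    have h1 : v (algebraMap C F b) < v g := by
      refine (hvC b).trans_lt ?_
      rw [hv, hgQ, ← exp_zero, exp_lt_exp]; norm_num
    rw [e1, Valuation.map_sub_eq_of_lt_left v h1, hv, hgQ]
  have ha0 : a ≠ 0 := by
    intro h0
    rw [h0, map_zero] at haQ
    exact exp_ne_zero haQ.symm
  have hat : Transcendental ℂ a := by
    intro halg
    have hint := halg.isIntegral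
    have hdeg := IsAlgClosed.degree_eq_one_of_irreducible ℂ (minpoly.irreducible hint)
    obtain ⟨c, hc⟩ := minpoly.mem_range_of_degree_eq_one ℂ a hdeg
    have h1 := hc1 Q c
    rw [hc, ← hv, haQ, ← exp_zero, exp_le_exp] at h1
    norm_num at h1
  -- the elements of `ℂ[a]`
  have hRint : ∀ x ∈ Algebra.adjoin ℂ {a}, x ∈ O := by
    intro x hx
    induction hx using Algebra.adjoin_induction with
    | mem x hx => rw [Set.mem_singleton_iff.1 hx]; exact ha
    | algebraMap c => exact hOC c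
    | add x y _ _ hx hy => exact O.add_mem hx hy
    | mul x y _ _ hx hy => exact O.mul_mem hx hy
  have hRP : ∀ P : HeightOneSpectrum C, P ≠ Q → ∀ x ∈ Algebra.adjoin ℂ {a},
      P.valuation F x ≤ 1 := by
    intro P hP x hx
    induction hx using Algebra.adjoin_induction with
    | mem x hx => rw [Set.mem_singleton_iff.1 hx]; exact haP P hP
    | algebraMap c => exact hc1 P c
    | add x y _ _ hx hy => exact Valuation.map_add_le _ hx hy
    | mul x y _ _ hx hy => rw [map_mul]; exact mul_le_one' hx hy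
  have hint1 : ∀ h : F, IsIntegral (Algebra.adjoin ℂ {a}) h → h ∈ O := by
    intro h hh
    apply hO
    refine IsIntegral.map_of_comp_eq ((algebraMap (Algebra.adjoin ℂ {a}) F).codRestrict O
      (fun x => hRint x.1 x.2)) (RingHom.id F) ?_ hh
    ext; rfl
  have hint2 : ∀ h : F, IsIntegral (Algebra.adjoin ℂ {a}) h → v h ≤ 1 →
      h ∈ Algebra.adjoin ℂ {a} := by
    intro h hh hvh
    have h4 := HeightOneSpectrum.mem_integers_of_valuation_le_one (R := C) F h
      (fun P => by
        by_cases hP : P = Q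
        · rw [hP]; exact hvh
        · exact t1tame_int (P.valuation F) (fun x => hRP P hP x.1 x.2) h hh)
    obtain ⟨s, hs⟩ := h4
    obtain ⟨c, hc⟩ := hconst s (by rw [hs]; exact hint1 h hh)
    rw [← hs, ← hc]
    exact Subalgebra.algebraMap_mem _ c
  exact ⟨a, hat, t1pole_ind v _ a (Algebra.subset_adjoin rfl) ha0 haQ hres2 hint2⟩

theorem rational_of_split {F : Type} [Field F] [Algebra (RatFunc ℂ) F] [Algebra ℂ F]
    [IsScalarTower ℂ (RatFunc ℂ) F] [FiniteDimensional (RatFunc ℂ) F]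
    (hsp : ∀ g : F, ∃ a b : F, IsIntegral polySub a ∧ IsIntegral inftySub b ∧ g = a + b) :
    ∃ z : F, IntermediateField.adjoin ℂ {z} = ⊤ := by
  have hX0 : (RatFunc.X : RatFunc ℂ) ≠ 0 := RatFunc.X_ne_zero
  have hXi : inftyVal (RatFunc.X : RatFunc ℂ)⁻¹ = exp (-1) := by
    rw [map_inv₀, t1dual_inftyVal_X, ← exp_neg]
  have hXlt : inftyVal (RatFunc.X : RatFunc ℂ)⁻¹ < 1 := by
    rw [hXi, ← exp_zero, exp_lt_exp]; norm_num
  have hmax : ∀ a : RatFunc ℂ, inftyVal a < 1 → inftyVal a ≤ inftyVal (RatFunc.X : RatFunc ℂ)⁻¹ := by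
    intro a ha
    by_cases ha0 : a = 0
    · rw [ha0, map_zero]; exact zero_le
    · rw [inftyVal_apply ha0, ← exp_zero, exp_lt_exp] at ha
      rw [inftyVal_apply ha0, hXi, exp_le_exp]; omega
  obtain ⟨hdvr, hϖ⟩ := t1tame_dvr inftyVal (RatFunc.X : RatFunc ℂ)⁻¹ (inv_ne_zero hX0) hXlt hmax
  have hI := Valuation.integer.integers inftyVal
  haveI hfr : IsFractionRing inftySub (RatFunc ℂ) := hI.isFractionRing
  haveI hded : IsDedekindDomain (integralClosure inftySub F) :=
    integralClosure.isDedekindDomain inftySub (RatFunc ℂ) F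
  haveI hfrF : IsFractionRing (integralClosure inftySub F) F :=
    integralClosure.isFractionRing_of_finite_extension (RatFunc ℂ) F
  -- the uniformizer at infinity
  set t : F := algebraMap (RatFunc ℂ) F (RatFunc.X : RatFunc ℂ)⁻¹ with ht
  have ht0 : t ≠ 0 := by simpa [ht] using hX0
  have htint : IsIntegral inftySub t := by
    have := isIntegral_algebraMap (R := inftySub) (A := F) (x := ⟨(RatFunc.X : RatFunc ℂ)⁻¹, hXlt.le⟩)
    exact this
  obtain ⟨Q, hQt⟩ : ∃ Q : HeightOneSpectrum (integralClosure inftySub F),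
      (⟨t, htint⟩ : integralClosure inftySub F) ∈ Q.asIdeal := by
    have hnu : (⟨t, htint⟩ : integralClosure inftySub F) ∈ nonunits (integralClosure inftySub F) := by
      intro hu
      obtain ⟨u, hu1⟩ := hu.exists_right_inv
      have h3 : t * (u : F) = 1 := congrArg Subtype.val hu1
      have h4 : (u : F) = algebraMap (RatFunc ℂ) F RatFunc.X := by
        have h5 : (u : F) = t⁻¹ := eq_inv_of_mul_eq_one_right h3
        rw [h5, ht, map_inv₀, inv_inv]
      have h6 : IsIntegral inftySub (algebraMap (RatFunc ℂ) F RatFunc.X) := by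
        rw [← h4]; exact u.2
      have h7 : IsIntegral inftySub (RatFunc.X : RatFunc ℂ) :=
        (isIntegral_algebraMap_iff (algebraMap (RatFunc ℂ) F).injective).1 h6
      have h8 : inftyVal (RatFunc.X : RatFunc ℂ) ≤ 1 := hI.mem_of_integral h7
      rw [t1dual_inftyVal_X, ← exp_zero, exp_le_exp] at h8
      norm_num at h8
    obtain ⟨M, hM, hMt⟩ := exists_max_ideal_of_mem_nonunits hnu
    refine ⟨⟨M, hM.isPrime, ?_⟩, hMt⟩
    rintro rfl
    rw [Ideal.mem_bot] at hMt
    exact ht0 (congrArg Subtype.val hMt)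
  have hvC : ∀ s : integralClosure inftySub F,
      Q.valuation F (algebraMap (integralClosure inftySub F) F s) ≤ 1 := fun s => Q.valuation_le_one s
  have hvt : Q.valuation F t < 1 :=
    (Q.valuation_lt_one_iff_mem (K := F) (⟨t, htint⟩ : integralClosure inftySub F)).2 hQt
  have hcA : ∀ c : ℂ, inftyVal (algebraMap ℂ (RatFunc ℂ) c) ≤ 1 := by
    intro c
    by_cases hc : c = 0
    · rw [hc, map_zero, map_zero]; exact zero_le
    · have : (algebraMap ℂ (RatFunc ℂ) c) = algebraMap ℂ[X] (RatFunc ℂ) (C c) := rfl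
      rw [this, t1dual_inftyVal_poly (by simpa using hc)]
      simp
  have hcint : ∀ c : ℂ, IsIntegral inftySub (algebraMap ℂ F c) := by
    intro c
    rw [IsScalarTower.algebraMap_apply ℂ (RatFunc ℂ) F]
    exact isIntegral_algebraMap (R := inftySub) (A := F) (x := ⟨_, hcA c⟩)
  have hvA : ∀ a : inftySub, Q.valuation F (algebraMap inftySub F a) ≤ 1 := fun a =>
    hvC (algebraMap inftySub (integralClosure inftySub F) a)
  have hres : ∀ a : inftySub, ∃ c : ℂ,
      Q.valuation F (algebraMap inftySub F a - algebraMap ℂ F c) < 1 := by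
    intro a
    obtain ⟨c, hc⟩ := t1pole_infty_residue (a : RatFunc ℂ) a.2
    refine ⟨c, ?_⟩
    have h1 : inftyVal (((a : RatFunc ℂ) - algebraMap ℂ (RatFunc ℂ) c) / (RatFunc.X : RatFunc ℂ)⁻¹) ≤ 1 := by
      rw [map_div₀]
      exact div_le_one_of_le₀ (hmax _ hc) zero_le
    have h2 : algebraMap inftySub F a - algebraMap ℂ F c = algebraMap inftySub F ⟨_, h1⟩ * t := by
      change algebraMap (RatFunc ℂ) F (a : RatFunc ℂ) - algebraMap ℂ F c =
        algebraMap (RatFunc ℂ) F (((a : RatFunc ℂ) - algebraMap ℂ (RatFunc ℂ) c) /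
          (RatFunc.X : RatFunc ℂ)⁻¹) * t
      rw [ht, ← map_mul, div_mul_cancel₀ _ (inv_ne_zero hX0), map_sub, ← IsScalarTower.algebraMap_apply]
    rw [h2, map_mul]
    exact mul_lt_of_le_one_of_lt (hvA _) hvt
  obtain ⟨a, hat, hall⟩ := t1pole_core (C := integralClosure inftySub F) (F := F) Q
    (fun c => ⟨⟨_, hcint c⟩, rfl⟩)
    (fun s => t1pole_residue (Q.valuation F) hvA hres (s : F) s.2)
    (integralClosure polySub F).toSubring (fun h hh => isIntegral_trans (A := integralClosure polySub F) h hh)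
    (fun c => by
      change IsIntegral polySub _
      rw [IsScalarTower.algebraMap_apply ℂ (RatFunc ℂ) F]
      exact isIntegral_algebraMap (R := polySub) (A := F)
        (x := ⟨algebraMap ℂ (RatFunc ℂ) c, ⟨C c, rfl⟩⟩))
    (fun s hs => t1pole_const hfr inferInstance (s : F) hs s.2)
    (fun g => by
      obtain ⟨a, b, ha, hb, hab⟩ := hsp g
      exact ⟨a, ha, ⟨b, hb⟩, hab⟩)
  have htr : Algebra.trdeg ℂ F = 1 := by
    have h1 : Algebra.trdeg ℂ ℂ[X] + Algebra.trdeg ℂ[X] (RatFunc ℂ) = Algebra.trdeg ℂ (RatFunc ℂ) :=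
      trdeg_add_eq ℂ ℂ[X]
    haveI : Algebra.IsAlgebraic ℂ[X] (RatFunc ℂ) := IsLocalization.isAlgebraic _ (nonZeroDivisors _)
    have h2 : Algebra.trdeg ℂ[X] (RatFunc ℂ) = 0 := trdeg_eq_zero
    have h3 : Algebra.trdeg ℂ ℂ[X] = 1 := Polynomial.trdeg_of_isDomain
    have h4 : Algebra.trdeg ℂ (RatFunc ℂ) + Algebra.trdeg (RatFunc ℂ) F = Algebra.trdeg ℂ F :=
      trdeg_add_eq ℂ (RatFunc ℂ)
    have h5 : Algebra.trdeg (RatFunc ℂ) F = 0 := trdeg_eq_zero
    rw [← h4, h5, add_zero, ← h1, h2, h3, add_zero]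
  have hbas : IsTranscendenceBasis ℂ (fun _ : Unit => a) := by
    have h1 : AlgebraicIndependent ℂ (fun _ : Unit => a) :=
      (algebraicIndependent_unique_type_iff).2 hat
    refine h1.isTranscendenceBasis_of_trdeg_le_of_finite ?_
    rw [htr]; simp
  have halg := hbas.isAlgebraic
  rw [Set.range_const] at halg
  refine ⟨a, eq_top_iff.2 fun y _ => ?_⟩
  obtain ⟨r, hr0, hr⟩ := (halg.isAlgebraic y).exists_integral_multiple
  have h1 := hall _ hr
  have hle : ∀ x ∈ Algebra.adjoin ℂ {a}, x ∈ IntermediateField.adjoin ℂ {a} := fun x hx =>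
    IntermediateField.algebra_adjoin_le_adjoin ℂ {a} hx
  have hr0' : (r : F) ≠ 0 := fun h => hr0 (Subtype.ext h)
  have e1 : y = (r • y) / (r : F) := by
    rw [Algebra.smul_def, eq_div_iff hr0', mul_comm]
    rfl
  rw [e1]
  exact div_mem (hle _ h1) (hle _ r.2)

end Pool.Agent.Lib.MP_410da7_ag
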