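import Pool.Agent.Lib.MP_410da7_ag.T1Base
import Pool.Agent.Lib.MP_410da7_ag.T1Tame
import Pool.Agent.Lib.MP_410da7_ag.T1Dual
import Pool.Agent.Lib.MP_410da7_ag.T1Pole
import Pool.Agent.Lib.MP_410da7_ag.T1Place
import Pool.Agent.Lib.MP_410da7_ag.Kaehler

/-!
# Function fields in one variable without regular differentials are rational
-/

set_option autoImplicit false

namespace Pool.Agent.Lib.MP_410da7_ag

open KaehlerDifferential WithZero Polynomial

theorem t1genus_integral_of_coeffs {k F : Type} [Field k] [Field F] [Algebra k F] (R : Subring k)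
    (Q : k[X]) (hm : Q.Monic) (hc : ∀ i, Q.coeff i ∈ R) (z : F) (hz : aeval z Q = 0) :
    IsIntegral R z := by
  have hsub : (↑Q.coeffs : Set k) ⊆ R := by
    intro a ha
    obtain ⟨i, -, rfl⟩ := Polynomial.mem_coeffs_iff.1 (by simpa using ha)
    exact hc i
  refine ⟨Q.toSubring R hsub, (Polynomial.monic_toSubring _ _ _).2 hm, ?_⟩
  have h1 : (Q.toSubring R hsub).map R.subtype = Q := Polynomial.map_toSubring _ _ _
  have h2 : eval₂ (algebraMap k F) z ((Q.toSubring R hsub).map R.subtype) = 0 := by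
    rw [h1]; exact hz
  rw [eval₂_map] at h2
  exact h2

theorem t1genus_denom_eval {r : RatFunc ℂ} {c : ℂ} (h : 0 ≤ ordAt (some c) r) :
    r.denom.eval c ≠ 0 := by
  intro h0
  have h1 : 0 < r.denom.rootMultiplicity c :=
    (rootMultiplicity_pos (RatFunc.denom_ne_zero r)).2 h0
  have h2 : r.num.rootMultiplicity c = 0 := by
    rw [rootMultiplicity_eq_zero_iff]
    intro h3
    exfalso
    obtain ⟨a, b, hab⟩ := RatFunc.isCoprime_num_denom r
    have h4 := congrArg (Polynomial.eval c) hab
    simp only [eval_add, eval_mul, eval_one] at h4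
    rw [h0, show r.num.eval c = 0 from h3] at h4
    simp at h4
  simp only [ordAt] at h
  omega

theorem t1genus_multiple {F : Type} [Field F] [Algebra (RatFunc ℂ) F]
    (w : Valuation (RatFunc ℂ) ℤᵐ⁰) (c : ℂ)
    (hw : ∀ r : RatFunc ℂ, r ≠ 0 → w r ≤ 1 → 0 ≤ ordAt (some c) r) (y : F)
    (hy : IsIntegral w.integer y) :
    ∃ b : ℂ[X], b.eval c ≠ 0 ∧
      IsIntegral polySub (algebraMap (RatFunc ℂ) F (algebraMap ℂ[X] (RatFunc ℂ) b) * y) := by
  obtain ⟨P, hPm, hP0⟩ := hy
  set P' : (RatFunc ℂ)[X] := P.map w.integer.subtype with hP'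
  have hP'm : P'.Monic := hPm.map _
  have hP'0 : aeval y P' = 0 := by
    rw [aeval_def, hP', eval₂_map]
    exact hP0
  have hd : ∀ i, (P'.coeff i).denom.eval c ≠ 0 := by
    intro i
    by_cases h0 : P'.coeff i = 0
    · rw [h0]; simp
    · refine t1genus_denom_eval (hw _ h0 ?_)
      rw [hP', coeff_map]
      exact (P.coeff i).2
  refine ⟨∏ i ∈ Finset.range P'.natDegree, (P'.coeff i).denom, ?_, ?_⟩
  · rw [eval_prod, Finset.prod_ne_zero_iff]
    exact fun i _ => hd i
  · refine t1genus_integral_of_coeffs polySub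
      (P'.scaleRoots (algebraMap ℂ[X] (RatFunc ℂ) (∏ i ∈ Finset.range P'.natDegree, (P'.coeff i).denom)))
      ((monic_scaleRoots_iff _).2 hP'm) ?_ _ (scaleRoots_aeval_eq_zero hP'0)
    intro i
    rw [coeff_scaleRoots]
    rcases lt_trichotomy i P'.natDegree with h | h | h
    · obtain ⟨m, hm⟩ : ∃ m, P'.natDegree - i = m + 1 := ⟨P'.natDegree - i - 1, by omega⟩
      rw [hm, pow_succ', ← mul_assoc]
      refine Subring.mul_mem _ ?_ (Subring.pow_mem _ (RingHom.mem_range_self _ _) _)
      obtain ⟨q, hq⟩ := Finset.dvd_prod_of_mem (fun i => (P'.coeff i).denom) (Finset.mem_range.2 h)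
      refine ⟨(P'.coeff i).num * q, ?_⟩
      rw [hq, map_mul, map_mul, ← mul_assoc]
      congr 1
      have h5 := RatFunc.num_div_denom (P'.coeff i)
      have h6 : algebraMap ℂ[X] (RatFunc ℂ) (P'.coeff i).denom ≠ 0 := by
        simpa using RatFunc.denom_ne_zero (P'.coeff i)
      rw [div_eq_iff h6] at h5
      exact h5
    · subst h
      rw [hP'm.coeff_natDegree]
      simp
    · rw [coeff_eq_zero_of_natDegree_lt h, zero_mul]
      exact Subring.zero_mem _

theorem t1genus_val_le {k F : Type} [Field k] [Field F] [Algebra k F] (v : Valuation F ℤᵐ⁰) (y : F)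
    (h : IsIntegral (v.comap (algebraMap k F)).integer y) : v y ≤ 1 := by
  obtain ⟨P, hm, h0⟩ := h
  let g : (v.comap (algebraMap k F)).integer →+* v.integer :=
    (algebraMap k F).restrict _ _ (fun x hx => hx)
  have h1 : IsIntegral v.integer y := ⟨P.map g, hm.map g, by rw [eval₂_map]; exact h0⟩
  exact (Valuation.integer.integers v).mem_of_integral h1

theorem t1genus_core {F : Type} [Field F] [Algebra ℂ F] [Algebra (RatFunc ℂ) F]
    [IsScalarTower ℂ (RatFunc ℂ) F] [FiniteDimensional (RatFunc ℂ) F] (f : F)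
    (hf1 : ∀ y : F, IsIntegral polySub y → Algebra.trace (RatFunc ℂ) F (f * y) ∈ polySub)
    (hf2 : ∀ y : F, IsIntegral inftySub y →
      inftyVal (Algebra.trace (RatFunc ℂ) F (f * y)) ≤ exp (-2))
    (v : Valuation F ℤᵐ⁰) (hv : ∀ c : ℂ, c ≠ 0 → v (algebraMap ℂ F c) = 1) :
    f • D ℂ F (algebraMap (RatFunc ℂ) F RatFunc.X) ∈ regDiff v := by
  set w := v.comap (algebraMap (RatFunc ℂ) F) with hwdef
  have hwv : ∀ r, w r = v (algebraMap (RatFunc ℂ) F r) := fun r => rfl
  have hwC : ∀ c : ℂ, c ≠ 0 → w (algebraMap ℂ (RatFunc ℂ) c) = 1 := by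
    intro c hc
    rw [hwv, ← IsScalarTower.algebraMap_apply]
    exact hv c hc
  rcases exists_place w hwC with htriv | ⟨c, μ, hμ, hw⟩
  · refine AddSubgroup.subset_closure ⟨f, _, ?_, ?_, rfl⟩
    · have h1 : IsIntegral (RatFunc ℂ) f := Algebra.IsIntegral.isIntegral f
      have h2 : IsIntegral (v.comap (algebraMap (RatFunc ℂ) F)).integer f := by
        refine t1genus_integral_of_coeffs _ (minpoly (RatFunc ℂ) f) (minpoly.monic h1) ?_ f
          (minpoly.aeval _ _)
        intro i
        rw [Valuation.mem_integer_iff]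
        by_cases h0 : (minpoly (RatFunc ℂ) f).coeff i = 0
        · rw [h0]; simp
        · exact (htriv _ h0).le
      exact t1genus_val_le v f h2
    · exact (htriv _ RatFunc.X_ne_zero).le
  · have hloc0 : locPar c ≠ 0 := by
      intro h0
      have h1 := ordAt_locPar c
      rw [h0] at h1
      cases c with
      | none => simp [ordAt] at h1
      | some c =>
        simp only [ordAt, RatFunc.num_zero, RatFunc.denom_zero, rootMultiplicity_zero] at h1
        omega
    have hloc : w (locPar c) = exp (-(μ : ℤ)) := by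
      rw [hw _ hloc0, ordAt_locPar, mul_one]
    have hlt : w (locPar c) < 1 := by
      rw [hloc, ← exp_zero, exp_lt_exp]; omega
    have hmax : ∀ a, w a < 1 → w a ≤ w (locPar c) := by
      intro a ha
      by_cases ha0 : a = 0
      · rw [ha0, map_zero]; exact zero_le
      · rw [hw _ ha0, ← exp_zero, exp_lt_exp] at ha
        rw [hw _ ha0, hloc, exp_le_exp]
        have h1 : 0 < (μ : ℤ) * ordAt c a := by linarith
        have h2 : 0 < ordAt c a := by
          by_contra h3
          push Not at h3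
          have := mul_nonpos_of_nonneg_of_nonpos (Int.natCast_nonneg μ) h3
          omega
        nlinarith
    cases c with
    | some c =>
      have hD : D ℂ F (algebraMap (RatFunc ℂ) F (locPar (some c))) =
          D ℂ F (algebraMap (RatFunc ℂ) F RatFunc.X) := by
        have h1 : algebraMap (RatFunc ℂ) F (RatFunc.C c) = algebraMap ℂ F c := by
          rw [IsScalarTower.algebraMap_apply ℂ (RatFunc ℂ) F]
          rfl
        rw [locPar, map_sub, map_sub, h1, Derivation.map_algebraMap, sub_zero]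
      rw [← hD]
      refine regDiff_of_trace v hv _ hloc0 hlt hmax f ?_
      intro y hy
      obtain ⟨b, hb0, hb⟩ := t1genus_multiple w c (fun r hr h => by
        rw [hw r hr, ← exp_zero, exp_le_exp] at h
        by_contra h3
        push Not at h3
        have : (μ : ℤ) * ordAt (some c) r < 0 := mul_neg_of_pos_of_neg (by omega) h3
        omega) y hy
      obtain ⟨q, hq⟩ := hf1 _ hb
      have hpoly : ∀ q : ℂ[X], w (algebraMap ℂ[X] (RatFunc ℂ) q) ≤ 1 := by
        intro q
        by_cases hq0 : q = 0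
        · rw [hq0]; simp
        · rw [hw _ (by simpa using hq0), ← exp_zero, exp_le_exp]
          have : 0 ≤ ordAt (some c) (algebraMap ℂ[X] (RatFunc ℂ) q) := by
            simp only [ordAt, RatFunc.num_algebraMap, RatFunc.denom_algebraMap]
            rw [← Polynomial.C_1, rootMultiplicity_C]
            omega
          have := mul_nonneg (Int.natCast_nonneg μ) this
          omega
      have hb1 : w (algebraMap ℂ[X] (RatFunc ℂ) b) = 1 := by
        have hb00 : b ≠ 0 := by rintro rfl; simp at hb0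
        rw [hw _ (by simpa using hb00)]
        have : ordAt (some c) (algebraMap ℂ[X] (RatFunc ℂ) b) = 0 := by
          simp only [ordAt, RatFunc.num_algebraMap, RatFunc.denom_algebraMap]
          rw [← Polynomial.C_1, rootMultiplicity_C, rootMultiplicity_eq_zero (by simpa using hb0)]
          simp
        rw [this]; simp
      have htr : Algebra.trace (RatFunc ℂ) F (f * (algebraMap (RatFunc ℂ) F
          (algebraMap ℂ[X] (RatFunc ℂ) b) * y)) =
          algebraMap ℂ[X] (RatFunc ℂ) b * Algebra.trace (RatFunc ℂ) F (f * y) := by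
        rw [← smul_eq_mul (algebraMap ℂ[X] (RatFunc ℂ) b), ← map_smul, Algebra.smul_def]
        congr 1; ring
      rw [htr] at hq
      have h5 := hpoly q
      rw [hq, map_mul, hb1, one_mul] at h5
      exact h5
    | none =>
      have hord : ∀ r : RatFunc ℂ, ordAt none r = -r.intDegree := by
        intro r
        simp only [ordAt, RatFunc.intDegree]
        ring
      have hint : (v.comap (algebraMap (RatFunc ℂ) F)).integer = inftySub := by
        ext r
        rw [Valuation.mem_integer_iff, Valuation.mem_integer_iff]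
        by_cases hr : r = 0
        · rw [hr, map_zero, map_zero]
        · rw [← hwdef, hw r hr, inftyVal_apply hr, ← exp_zero, exp_le_exp, exp_le_exp, hord]
          constructor
          · intro h
            by_contra h3
            push Not at h3
            have := mul_pos (by exact_mod_cast hμ : (0 : ℤ) < μ) h3
            linarith
          · intro h
            have := mul_nonneg (Int.natCast_nonneg μ) (by linarith : 0 ≤ -r.intDegree)
            linarith
      have hX0 : algebraMap (RatFunc ℂ) F RatFunc.X ≠ 0 := by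
        simpa using RatFunc.X_ne_zero
      have hD : f • D ℂ F (algebraMap (RatFunc ℂ) F RatFunc.X) =
          (-(algebraMap (RatFunc ℂ) F RatFunc.X) ^ 2 * f) •
            D ℂ F (algebraMap (RatFunc ℂ) F (locPar none)) := by
        rw [locPar, map_inv₀, Derivation.leibniz_inv, smul_smul]
        congr 1
        field_simp
      rw [hD]
      refine regDiff_of_trace v hv _ hloc0 hlt hmax _ ?_
      intro y hy
      rw [hint] at hy
      have h1 := hf2 y hy
      have htr : Algebra.trace (RatFunc ℂ) F (-(algebraMap (RatFunc ℂ) F RatFunc.X) ^ 2 * f * y) =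
          -RatFunc.X ^ 2 * Algebra.trace (RatFunc ℂ) F (f * y) := by
        rw [← smul_eq_mul (-RatFunc.X ^ 2 : RatFunc ℂ), ← map_smul, Algebra.smul_def]
        congr 1
        rw [map_neg, map_pow]; ring
      rw [htr, ← hwv]
      by_cases hT : Algebra.trace (RatFunc ℂ) F (f * y) = 0
      · rw [hT, mul_zero, map_zero]; exact zero_le
      · have hXX : (-RatFunc.X ^ 2 : RatFunc ℂ) ≠ 0 := neg_ne_zero.2 (pow_ne_zero _ RatFunc.X_ne_zero)
        rw [inftyVal_apply hT, exp_le_exp] at h1
        rw [hw _ (mul_ne_zero hXX hT), ← exp_zero, exp_le_exp, hord,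
          RatFunc.intDegree_mul hXX hT, RatFunc.intDegree_neg]
        have h2 : RatFunc.intDegree (RatFunc.X ^ 2 : RatFunc ℂ) = 2 := by
          rw [pow_two, RatFunc.intDegree_mul RatFunc.X_ne_zero RatFunc.X_ne_zero, RatFunc.intDegree_X]
          rfl
        rw [h2]
        have := mul_nonneg (Int.natCast_nonneg μ)
          (by linarith : 0 ≤ -(2 + (Algebra.trace (RatFunc ℂ) F (f * y)).intDegree))
        linarith

theorem t1genus_trdeg_ratFunc : Algebra.trdeg ℂ (RatFunc ℂ) = 1 := by
  have h1 : Algebra.trdeg ℂ ℂ[X] + Algebra.trdeg ℂ[X] (RatFunc ℂ) = Algebra.trdeg ℂ (RatFunc ℂ) :=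
    trdeg_add_eq ℂ ℂ[X]
  haveI : Algebra.IsAlgebraic ℂ[X] (RatFunc ℂ) := IsLocalization.isAlgebraic _ (nonZeroDivisors _)
  have h2 : Algebra.trdeg ℂ[X] (RatFunc ℂ) = 0 := trdeg_eq_zero
  have h3 : Algebra.trdeg ℂ ℂ[X] = 1 := Polynomial.trdeg_of_isDomain
  rw [← h1, h2, h3, add_zero]

theorem rational_or_regular {F : Type} [Field F] [Algebra ℂ F] (htr : Algebra.trdeg ℂ F = 1)
    (hfg : ∃ S : Finset F, IntermediateField.adjoin ℂ (S : Set F) = ⊤) :
    (∃ z : F, IntermediateField.adjoin ℂ {z} = ⊤) ∨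
      ∃ ω : Ω[F⁄ℂ], ω ≠ 0 ∧ ∀ v : Valuation F ℤᵐ⁰,
        (∀ c : ℂ, c ≠ 0 → v (algebraMap ℂ F c) = 1) → ω ∈ regDiff v := by
  obtain ⟨s, hs⟩ := exists_isTranscendenceBasis ℂ F
  have hcard := hs.cardinalMk_eq_trdeg
  rw [htr] at hcard
  obtain ⟨x0, hx0⟩ : ∃ x : s, ∀ y : s, y = x := by
    obtain ⟨h1, h2⟩ := Cardinal.eq_one_iff_unique.1 hcard
    exact ⟨Classical.choice h2, fun y => Subsingleton.elim _ _⟩
  set x : F := (x0 : F) with hxdef
  have hxt : Transcendental ℂ x := hs.1.transcendental x0
  have hxinj : Function.Injective (aeval x : ℂ[X] →ₐ[ℂ] F) := transcendental_iff_injective.1 hxt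
  let κ : RatFunc ℂ →ₐ[ℂ] F := IsFractionRing.liftAlgHom hxinj
  have hκX : κ RatFunc.X = x := by
    have h0 : ∀ q : ℂ[X], κ (algebraMap ℂ[X] (RatFunc ℂ) q) = (aeval x : ℂ[X] →ₐ[ℂ] F) q := by
      intro q
      simp [κ]
    have h1 := h0 X
    rw [RatFunc.algebraMap_X, aeval_X] at h1
    exact h1
  letI : Algebra (RatFunc ℂ) F := κ.toRingHom.toAlgebra
  haveI : IsScalarTower ℂ (RatFunc ℂ) F := IsScalarTower.of_algebraMap_eq fun c => by
    change _ = κ (algebraMap ℂ (RatFunc ℂ) c)
    rw [AlgHom.commutes]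
  have hmap : ∀ r, algebraMap (RatFunc ℂ) F r = κ r := fun _ => rfl
  haveI halg : Algebra.IsAlgebraic (RatFunc ℂ) F := by
    have h1 := t1genus_trdeg_ratFunc
    have h2 : Algebra.trdeg ℂ (RatFunc ℂ) + Algebra.trdeg (RatFunc ℂ) F = Algebra.trdeg ℂ F :=
      trdeg_add_eq ℂ (RatFunc ℂ)
    rw [h1, htr] at h2
    have h3 : Algebra.trdeg (RatFunc ℂ) F = 0 :=
      Cardinal.eq_of_add_eq_add_left (h2.trans (add_zero 1).symm) Cardinal.one_lt_aleph0
    haveI : FaithfulSMul (RatFunc ℂ) F :=
      (faithfulSMul_iff_algebraMap_injective _ _).2 (algebraMap (RatFunc ℂ) F).injective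
    exact trdeg_eq_zero_iff.1 h3
  haveI : FiniteDimensional (RatFunc ℂ) F := by
    obtain ⟨S, hS⟩ := hfg
    have h1 : IntermediateField.adjoin (RatFunc ℂ) (S : Set F) = ⊤ := by
      rw [eq_top_iff]
      intro y _
      have h2 : IntermediateField.adjoin ℂ (S : Set F) ≤
          (IntermediateField.adjoin (RatFunc ℂ) (S : Set F)).restrictScalars ℂ := by
        rw [IntermediateField.adjoin_le_iff]
        exact IntermediateField.subset_adjoin _ _
      exact h2 (by rw [hS]; trivial)
    haveI h2 : FiniteDimensional (RatFunc ℂ) (IntermediateField.adjoin (RatFunc ℂ) (S : Set F)) :=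
      IntermediateField.finiteDimensional_adjoin fun z _ => Algebra.IsIntegral.isIntegral z
    rw [h1] at h2
    exact Module.Finite.equiv (IntermediateField.topEquiv (F := RatFunc ℂ) (E := F)).toLinearEquiv
  by_cases hsp : ∀ g : F, ∃ a b : F, IsIntegral polySub a ∧ IsIntegral inftySub b ∧ g = a + b
  · exact Or.inl (rational_of_split hsp)
  · right
    push Not at hsp
    obtain ⟨g, hg⟩ := hsp
    obtain ⟨f, hf, hf1, hf2⟩ := exists_dual ⟨g, hg⟩
    refine ⟨f • D ℂ F (algebraMap (RatFunc ℂ) F RatFunc.X), ?_,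
      fun v hv => t1genus_core f hf1 hf2 v hv⟩
    intro h0
    rw [smul_eq_zero, or_iff_right hf, hmap, hκX] at h0
    obtain ⟨b, hb⟩ := exists_kaehlerBasis _ hs
    have := b.ne_zero x0
    rw [hb] at this
    exact this h0

end Pool.Agent.Lib.MP_410da7_ag
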