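import Pool.Agent.Lib.MP_410da7_ag.T1Base

/-!
# Charts with weights in a half space
-/

set_option autoImplicit false

namespace Pool.Agent.Lib.MP_410da7_ag

open KaehlerDifferential WithZero Polynomial

section half

variable {K : Type} [Field K] [Algebra ℂ K] {n : ℕ}

/-- the range of a nonzero homomorphism to `ℤ` -/
theorem t1half_gen (l : (Fin n → ℤ) →+ ℤ) (hl : l ≠ 0) :
    ∃ (g : ℕ) (u0 : Fin n → ℤ), 0 < g ∧ l u0 = g ∧ ∀ u, (g : ℤ) ∣ l u := by
  classical
  have hex : ∃ k : ℕ, 0 < k ∧ ∃ u, l u = k := by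
    obtain ⟨u, hu⟩ : ∃ u, l u ≠ 0 := by
      by_contra h
      push Not at h
      exact hl (AddMonoidHom.ext h)
    rcases lt_or_gt_of_ne hu with h | h
    · refine ⟨(-(l u)).toNat, by omega, -u, ?_⟩
      rw [map_neg]; omega
    · exact ⟨(l u).toNat, by omega, u, by omega⟩
  obtain ⟨hg, u0, hu0⟩ := Nat.find_spec hex
  refine ⟨Nat.find hex, u0, hg, hu0, fun u => ?_⟩
  set g := Nat.find hex with hgdef
  have h1 : l (u - (l u / (g : ℤ)) • u0) = l u % (g : ℤ) := by
    rw [map_sub, map_zsmul, hu0, smul_eq_mul]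
    have := Int.emod_add_mul_ediv (l u) g
    linarith [mul_comm (g : ℤ) (l u / (g : ℤ))]
  have h2 : 0 ≤ l u % (g : ℤ) := Int.emod_nonneg _ (by omega)
  have h3 : l u % (g : ℤ) < g := Int.emod_lt_of_pos _ (by omega)
  by_contra hdvd
  have h4 : l u % (g : ℤ) ≠ 0 := fun h => hdvd (Int.dvd_of_emod_eq_zero h)
  have h5 := Nat.find_min hex (m := (l u % (g : ℤ)).toNat) (by omega)
  exact h5 ⟨by omega, _, by rw [h1]; omega⟩

/-- the part of weight `j` for `l` -/
noncomputable def t1halfM (K0 : IntermediateField ℂ K) (χ : (Fin n → ℤ) → K)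
    (l : (Fin n → ℤ) →+ ℤ) (s : Set ℤ) : Submodule K0 K :=
  Submodule.span K0 (χ '' {w | l w ∈ s})

variable {K0 : IntermediateField ℂ K} {χ : (Fin n → ℤ) → K} {l : (Fin n → ℤ) →+ ℤ}

theorem t1half_mul (hs : TorusSplit K0 χ) {i j : ℤ} {a b : K} (ha : a ∈ t1halfM K0 χ l {i})
    (hb : b ∈ t1halfM K0 χ l {j}) : a * b ∈ t1halfM K0 χ l {i + j} := by
  have h1 : a * b ∈ t1halfM K0 χ l {i} * t1halfM K0 χ l {j} := Submodule.mul_mem_mul ha hb
  rw [t1halfM, t1halfM, Submodule.span_mul_span] at h1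
  refine Submodule.span_mono ?_ h1
  rintro _ ⟨_, ⟨w, hw, rfl⟩, _, ⟨w', hw', rfl⟩, rfl⟩
  refine ⟨w + w', ?_, hs.add w w'⟩
  simp only [Set.mem_ofPred_eq, Set.mem_singleton_iff] at hw hw' ⊢
  rw [map_add, hw, hw']

theorem t1half_disj (hs : TorusSplit K0 χ) (j : ℤ) {a : K} (h1 : a ∈ t1halfM K0 χ l {j})
    (h2 : a ∈ t1halfM K0 χ l {j}ᶜ) : a = 0 := by
  have h : Disjoint (t1halfM K0 χ l {j}) (t1halfM K0 χ l {j}ᶜ) := by
    refine hs.linInd.disjoint_span_image ?_
    rw [Set.disjoint_left]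
    intro w hw hw'
    exact hw' hw
  exact (Submodule.disjoint_def.1 h) a h1 h2

theorem t1half_const (hs : TorusSplit K0 χ) (c : K) (hc : c ∈ K0) : c ∈ t1halfM K0 χ l {0} := by
  have h1 : c = (⟨c, hc⟩ : K0) • χ 0 := by
    rw [hs.zero]
    change c = c * 1
    rw [mul_one]
  rw [h1]
  exact Submodule.smul_mem _ _ (Submodule.subset_span ⟨0, by simp, rfl⟩)

theorem t1half_pow (hs : TorusSplit K0 χ) (u : Fin n → ℤ) (k : ℕ) :
    χ u ^ k = χ ((k : ℤ) • u) := by
  induction k with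
  | zero => simp [hs.zero]
  | succ k ih =>
    rw [pow_succ, ih, ← hs.add]
    congr 1
    push_cast
    rw [add_smul, one_smul]

end half

/-- finitely many homogeneous generators -/
theorem t1half_gens {K : Type} [Field K] [Algebra ℂ K] (U : Subalgebra ℂ K) (hfg : U.FG)
    (H : Set K) (hH : ∀ a ∈ U, a ∈ Submodule.span ℂ H) (hHU : H ⊆ U) :
    ∃ T : Finset K, (T : Set K) ⊆ H ∧ Algebra.adjoin ℂ (T : Set K) = U := by
  classical
  obtain ⟨S, hS⟩ := hfg
  have h1 : ∀ a : K, ∃ T : Finset K, (T : Set K) ⊆ H ∧ (a ∈ S → a ∈ Submodule.span ℂ (T : Set K)) := by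
    intro a
    by_cases ha : a ∈ S
    · have h2 : a ∈ U := by
        rw [← hS]; exact Algebra.subset_adjoin ha
      obtain ⟨T, hT, h3⟩ := Submodule.mem_span_finite_of_mem_span (hH a h2)
      exact ⟨T, hT, fun _ => h3⟩
    · exact ⟨∅, by simp, fun h => absurd h ha⟩
  choose T hT1 hT2 using h1
  refine ⟨S.biUnion T, ?_, le_antisymm ?_ ?_⟩
  · intro x hx
    simp only [Finset.coe_biUnion, Set.mem_iUnion] at hx
    obtain ⟨a, -, h⟩ := hx
    exact hT1 a h
  · refine Algebra.adjoin_le ?_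
    intro x hx
    simp only [Finset.coe_biUnion, Set.mem_iUnion] at hx
    obtain ⟨a, -, h⟩ := hx
    exact hHU (hT1 a h)
  · rw [← hS]
    refine Algebra.adjoin_le ?_
    intro a ha
    have h2 := hT2 a ha
    have h3 : Submodule.span ℂ (T a : Set K) ≤
        Subalgebra.toSubmodule (Algebra.adjoin ℂ ((S.biUnion T : Finset K) : Set K)) := by
      rw [Submodule.span_le]
      intro x hx
      apply Algebra.subset_adjoin
      simp only [Finset.coe_biUnion, Set.mem_iUnion]
      exact ⟨a, ha, hx⟩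
    exact h3 h2

theorem t1half_trdeg {B K : Type} [CommRing B] [IsDomain B] [Algebra ℂ B] [Field K] [Algebra ℂ K]
    [Algebra B[X] K] [IsScalarTower ℂ B[X] K] [IsFractionRing B[X] K] :
    Algebra.trdeg ℂ B + 1 = Algebra.trdeg ℂ K := by
  haveI : Algebra.IsAlgebraic B[X] K := IsLocalization.isAlgebraic _ (nonZeroDivisors _)
  haveI : FaithfulSMul B[X] K := (faithfulSMul_iff_algebraMap_injective _ _).2
    (IsFractionRing.injective B[X] K)
  have h3 : Algebra.trdeg ℂ B + Algebra.trdeg B B[X] = Algebra.trdeg ℂ B[X] := trdeg_add_eq ℂ B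
  have h4 : Algebra.trdeg B B[X] = 1 := Polynomial.trdeg_of_isDomain
  have h5 : Algebra.trdeg ℂ B[X] + Algebra.trdeg B[X] K = Algebra.trdeg ℂ K :=
    trdeg_add_eq ℂ B[X]
  have h6 : Algebra.trdeg B[X] K = 0 := trdeg_eq_zero
  rw [← h5, h6, add_zero, ← h3, h4]

/-- the concluding step: `K` is the fraction field of `B[s]` -/
theorem t1half_core {K : Type} [Field K] [Algebra ℂ K] {ι : Type} (U : ι → Subalgebra ℂ K) (i : ι)
    (hfrac : IsFractionRing (U i) K) (B : Subalgebra ℂ K) (hB : B.FG) (s : K)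
    (hinj : Function.Injective (aeval s : B[X] →ₐ[B] K))
    (hsurj : ∀ a ∈ U i, ∃ p : B[X], aeval s p = a) : A1UniruledRaw U := by
  letI : Algebra B[X] K := (aeval s : B[X] →ₐ[B] K).toRingHom.toAlgebra
  have halg : ∀ p : B[X], algebraMap B[X] K p = aeval s p := fun p => rfl
  haveI : IsScalarTower ℂ B[X] K := IsScalarTower.of_algebraMap_eq fun c => by
    rw [halg, IsScalarTower.algebraMap_apply ℂ B B[X], AlgHom.commutes]
    rfl
  haveI : FaithfulSMul B[X] K := (faithfulSMul_iff_algebraMap_injective _ _).2 hinj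
  haveI : IsFractionRing B[X] K := by
    refine IsFractionRing.of_field _ _ fun z => ?_
    obtain ⟨x, y, hy, hz⟩ := IsFractionRing.div_surjective (A := U i) z
    obtain ⟨p, hp⟩ := hsurj x x.2
    obtain ⟨q, hq⟩ := hsurj y y.2
    refine ⟨p, q, ?_⟩
    rw [halg, halg, hp, hq, ← hz]
    rfl
  let φ' : K ≃ₐ[B[X]] FractionRing B[X] := (FractionRing.algEquiv B[X] K).symm
  let φ : K →ₐ[ℂ] FractionRing B[X] := (φ'.toAlgHom).restrictScalars ℂ
  have hφ : ∀ p : B[X], φ (aeval s p) = algebraMap B[X] (FractionRing B[X]) p := by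
    intro p
    exact φ'.commutes p
  have hinj2 : Function.Injective (algebraMap B[X] (FractionRing B[X])) :=
    IsFractionRing.injective _ _
  refine ⟨B, inferInstance, inferInstance, inferInstance, B.fg_iff_finiteType.1 hB,
    t1half_trdeg, φ, ?_, ?_⟩
  · intro P hP
    refine ⟨i, fun a ha => ?_⟩
    obtain ⟨p, hp⟩ := hsurj a ha
    refine ⟨p, 1, ?_, ?_⟩
    · intro h1
      exact hP.ne_top ((Ideal.eq_top_iff_one P).2 h1)
    · rw [← hp, hφ, map_one, mul_one]
  · refine ⟨s, fun b c hc h => ?_⟩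
    have h1 : φ s = algebraMap B[X] (FractionRing B[X]) X := by
      rw [← hφ, aeval_X]
    rw [h1, ← map_mul] at h
    have h2 := congrArg (fun p => coeff p 1) (hinj2 h)
    simp only [X_mul_C, coeff_C_mul, coeff_X_one, mul_one, coeff_C] at h2
    exact hc (by simpa using h2)

theorem a1UniruledOn_of_halfSpace {K : Type} [Field K] [Algebra ℂ K] {n : ℕ}
    {K0 : IntermediateField ℂ K} {χ : (Fin n → ℤ) → K} (hs : TorusSplit K0 χ)
    {ι : Type} (U : ι → Subalgebra ℂ K) (i : ι) (hfg : (U i).FG) (hfrac : IsFractionRing (U i) K)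
    (hh : HomogSpan K0 χ (U i)) (hl : HalfSpace K0 χ (U i)) : A1UniruledRaw U := by
  classical
  obtain ⟨l, hl0, hpos⟩ := hl
  obtain ⟨g, u0, hg, hu0, hdvd⟩ := t1half_gen l hl0
  obtain ⟨T, hT, hTU⟩ := t1half_gens (U i) hfg _ hh (fun b hb => hb.1)
  have h1 : ∀ h : K, ∃ (k : ℕ) (c : K) (u : Fin n → ℤ), h ∈ T →
      c ∈ K0 ∧ l u = g * k ∧ h = c * χ u := by
    intro h
    by_cases hhT : h ∈ T
    · obtain ⟨hhU, u, c, hc, hcu⟩ := hT hhT
      by_cases hc0 : c = 0
      · exact ⟨0, 0, 0, fun _ => ⟨K0.zero_mem, by simp, by rw [hcu, hc0]; simp⟩⟩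
      · have h2 := hpos u c hc hc0 (hcu ▸ hhU)
        obtain ⟨k, hk⟩ := hdvd u
        have h3 : 0 ≤ k := by
          rw [hk] at h2
          exact nonneg_of_mul_nonneg_right h2 (by exact_mod_cast hg)
        exact ⟨k.toNat, c, u, fun _ => ⟨hc, by rw [hk]; simp [h3], hcu⟩⟩
    · exact ⟨0, 0, 0, fun h => absurd h hhT⟩
  choose k c u hkcu using h1
  let s : K := χ u0
  let α : K → K := fun h => c h * χ (u h - (k h : ℤ) • u0)
  have hα : ∀ h ∈ T, h = α h * s ^ k h := by
    intro h hh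
    obtain ⟨-, -, h3⟩ := hkcu h hh
    rw [t1half_pow hs, mul_assoc, ← hs.add, sub_add_cancel]
    exact h3
  let B : Subalgebra ℂ K := Algebra.adjoin ℂ ((T.image α : Finset K) : Set K)
  have hBfg : B.FG := Subalgebra.fg_adjoin_finset _
  have hB0 : ∀ b ∈ B, b ∈ t1halfM K0 χ l {0} := by
    intro b hb
    induction hb using Algebra.adjoin_induction with
    | mem x hx =>
      simp only [Finset.coe_image, Set.mem_image] at hx
      obtain ⟨h, hh, rfl⟩ := hx
      obtain ⟨h1, h2, h3⟩ := hkcu h hh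
      have h4 : α h = (⟨c h, h1⟩ : K0) • χ (u h - (k h : ℤ) • u0) := rfl
      rw [h4]
      refine Submodule.smul_mem _ _ (Submodule.subset_span ⟨_, ?_, rfl⟩)
      simp only [Set.mem_ofPred_eq, Set.mem_singleton_iff]
      rw [map_sub, map_zsmul, h2, hu0, smul_eq_mul]
      ring
    | algebraMap r => exact t1half_const hs _ (K0.algebraMap_mem r)
    | add x y _ _ hx hy => exact Submodule.add_mem _ hx hy
    | mul x y _ _ hx hy => simpa using t1half_mul hs hx hy
  have hsk : ∀ j : ℕ, s ^ j ∈ t1halfM K0 χ l {(g : ℤ) * j} := by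
    intro j
    rw [t1half_pow hs]
    refine Submodule.subset_span ⟨_, ?_, rfl⟩
    simp only [Set.mem_ofPred_eq, Set.mem_singleton_iff]
    rw [map_zsmul, hu0, smul_eq_mul, mul_comm]
  refine t1half_core U i hfrac B hBfg s ?_ ?_
  · rw [injective_iff_map_eq_zero]
    intro p hp
    by_contra hp0
    obtain ⟨j, hj⟩ : ∃ j, p.coeff j ≠ 0 := by
      by_contra h
      push Not at h
      exact hp0 (Polynomial.ext h)
    have hjs : j ∈ p.support := mem_support_iff.2 hj
    rw [aeval_eq_sum_range' (n := p.natDegree + 1) (by omega)] at hp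
    have hjr : j ∈ Finset.range (p.natDegree + 1) := by
      rw [Finset.mem_range]
      have := le_natDegree_of_mem_supp j hjs
      omega
    rw [← Finset.add_sum_erase _ _ hjr] at hp
    have h2 : ∀ j : ℕ, p.coeff j • s ^ j ∈ t1halfM K0 χ l {(g : ℤ) * j} := by
      intro j
      have := t1half_mul hs (hB0 _ (p.coeff j).2) (hsk j)
      rw [zero_add] at this
      exact this
    have h3 : p.coeff j • s ^ j ∈ t1halfM K0 χ l {(g : ℤ) * j}ᶜ := by
      rw [eq_neg_of_add_eq_zero_left hp]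
      refine Submodule.neg_mem _ (Submodule.sum_mem _ fun k hk => ?_)
      refine Submodule.span_mono ?_ (h2 k)
      rintro _ ⟨w, hw, rfl⟩
      refine ⟨w, ?_, rfl⟩
      simp only [Set.mem_ofPred_eq, Set.mem_singleton_iff, Set.mem_compl_iff] at hw ⊢
      rw [hw]
      intro h
      have h4 : (g : ℤ) ≠ 0 := by exact_mod_cast hg.ne'
      have h5 := mul_left_cancel₀ h4 h
      exact (Finset.mem_erase.1 hk).1 (by exact_mod_cast h5)
    have h4 := t1half_disj hs _ (h2 j) h3
    have h5 : ((p.coeff j : B) : K) * s ^ j = 0 := h4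
    rcases mul_eq_zero.1 h5 with h6 | h6
    · exact hj (Subtype.ext h6)
    · exact hs.ne_zero u0 (eq_zero_of_pow_eq_zero h6)
  · intro a ha
    rw [← hTU] at ha
    have h2 : Algebra.adjoin ℂ (T : Set K) ≤
        ((aeval s : B[X] →ₐ[B] K).restrictScalars ℂ).range := by
      refine Algebra.adjoin_le ?_
      intro h hh
      have hmem : α h ∈ B := Algebra.subset_adjoin (by
        simp only [Finset.coe_image, Set.mem_image]
        exact ⟨h, hh, rfl⟩)
      refine ⟨C ⟨α h, hmem⟩ * X ^ k h, ?_⟩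
      change aeval s (C (⟨α h, hmem⟩ : B) * X ^ k h) = h
      rw [map_mul, aeval_C, map_pow, aeval_X]
      exact (hα h hh).symm
    obtain ⟨p, hp⟩ := h2 ha
    exact ⟨p, hp⟩

end Pool.Agent.Lib.MP_410da7_ag
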