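import Pool.Agent.Lib.MP_410da7_ag.T1Base
import Pool.Agent.Lib.MP_410da7_ag.T1Basis
import Pool.Agent.Lib.MP_410da7_ag.Kaehler
import Pool.Agent.Lib.MP_410da7_ag.Val
import Pool.Agent.Lib.MP_410da7_ag.T1Form

/-!
# Irrational quotients
-/

set_option autoImplicit false

namespace Pool.Agent.Lib.MP_410da7_ag

open KaehlerDifferential WithZero Polynomial

section t1irr

variable {K : Type} [Field K] [Algebra ℂ K]

/-- the differentials of a field of transcendence degree one are the multiples of one of them -/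
theorem t1irr_exists_gen {L : Type} [Field L] [Algebra ℂ L] (h1 : Algebra.trdeg ℂ L = 1) :
    ∃ z : L, Transcendental ℂ z ∧ ∀ ω : Ω[L⁄ℂ], ∃ f : L, ω = f • D ℂ L z := by
  obtain ⟨s, hs⟩ := exists_isTranscendenceBasis ℂ L
  have h2 := hs.cardinalMk_eq_trdeg
  rw [h1, Cardinal.eq_one_iff_unique] at h2
  obtain ⟨hu1, ⟨hu2⟩⟩ := h2
  have : Unique s := { default := hu2, uniq := fun a => Subsingleton.elim _ _ }
  obtain ⟨b, hb⟩ := exists_kaehlerBasis _ hs
  refine ⟨((default : s) : L), hs.1.transcendental default, fun ω => ⟨b.repr ω default, ?_⟩⟩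
  have h3 := b.linearCombination_repr ω
  rw [Finsupp.linearCombination_unique, hb] at h3
  exact h3.symm

theorem t1irr_map_reg {K0 : IntermediateField ℂ K} (v : Valuation K ℤᵐ⁰) (ω : Ω[K0⁄ℂ])
    (h : ω ∈ regDiff (v.comap (algebraMap K0 K))) :
    KaehlerDifferential.map ℂ ℂ K0 K ω ∈ regDiff v := by
  refine AddSubgroup.closure_induction
    (p := fun ω _ => KaehlerDifferential.map ℂ ℂ K0 K ω ∈ regDiff v) ?_ ?_ ?_ ?_ h
  · rintro _ ⟨a, b, ha, hb, rfl⟩
    rw [map_smul, KaehlerDifferential.map_D]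
    exact t1form_smul_D_mem v (a := algebraMap K0 K a) ha hb
  · rw [map_zero]
    exact zero_mem _
  · intro x y _ _ hx hy
    rw [map_add]
    exact add_mem hx hy
  · intro x _ hx
    rw [map_neg]
    exact neg_mem hx

end t1irr

theorem not_negInf_of_regular {K : Type} [Field K] [Algebra ℂ K] {n : ℕ}
    (hd : Algebra.trdeg ℂ K = ((n + 1 : ℕ) : Cardinal)) {K0 : IntermediateField ℂ K}
    {χ : (Fin n → ℤ) → K} (hs : TorusSplit K0 χ) (h1 : Algebra.trdeg ℂ K0 = 1)
    {ι : Type} (U : ι → Subalgebra ℂ K) (hno : ∀ i, ¬ HalfSpace K0 χ (U i))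
    (ω : Ω[K0⁄ℂ]) (hω : ω ≠ 0) (hreg : ∀ v : Valuation K0 ℤᵐ⁰,
        (∀ c : ℂ, c ≠ 0 → v (algebraMap ℂ K0 c) = 1) → ω ∈ regDiff v) (m : ℕ) :
    ¬ LogPlurigenusZeroOn U (n + 1) m := by
  intro hneg
  obtain ⟨z, hz, hgen⟩ := t1irr_exists_gen h1
  have hzK : Transcendental ℂ (z : K) := by
    intro h2
    exact hz ((isAlgebraic_algHom_iff K0.val K0.val.injective).mp h2)
  obtain ⟨b, hb1, hb2⟩ := t1form_exists_basis hd hs (z : K) z.2 hzK
  obtain ⟨f, rfl⟩ := hgen ω
  have hf0 : (f : K) ≠ 0 := by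
    intro h2
    have h3 : f = 0 := Subtype.ext h2
    exact hω (by rw [h3, zero_smul])
  have hD : ∀ g : K0, ∃ r : K, D ℂ K (g : K) = r • D ℂ K (z : K) := by
    intro g
    obtain ⟨r, hr⟩ := hgen (D ℂ K0 g)
    refine ⟨r, ?_⟩
    have h2 := congrArg (KaehlerDifferential.map ℂ ℂ K0 K) hr
    rw [map_smul, KaehlerDifferential.map_D, KaehlerDifferential.map_D] at h2
    exact h2
  refine pow_ne_zero m hf0 (hneg b.det ((f : K) ^ m) (Module.Basis.det_ne_zero b)
    fun v hv => ?_)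
  have hωv : (f : K) • b (Fin.last n) ∈ regDiff v := by
    have h2 := t1irr_map_reg v _ (hreg (v.comap (algebraMap K0 K)) fun c hc => hv c hc)
    rw [map_smul, KaehlerDifferential.map_D] at h2
    rw [hb2]
    exact h2
  have hlog : ∀ j : Fin n, ((1 : ℕ) : K) • b j.castSucc + (0 : K) • b (Fin.last n) ∈ logDiff v := by
    intro j
    rw [Nat.cast_one, one_smul, zero_smul, add_zero, hb1]
    exact t1form_dlog_mem_log v (hs.ne_zero _)
  by_cases htriv : ∀ c ∈ K0, c ≠ 0 → v c = 1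
  · refine t1form_adm U b m ((f : K) ^ m) v hv 1 one_pos (fun _ => 0) (f : K) hf0 hlog
      (t1form_reg_le v hωv) ?_ (by rw [map_pow])
    rintro ⟨i, hi⟩
    refine ⟨fun j => ?_, hωv⟩
    rw [Nat.cast_one, one_smul, zero_smul, add_zero, hb1]
    exact t1form_dlog_mem_reg v (t1form_units_of_center hs (U i) (hno i) v htriv hi _)
  · by_cases hcen : HasCenter U v
    · -- the exponents
      have hx0 : (exp (-1 : ℤ) : ℤᵐ⁰) ≠ 0 := exp_ne_zero
      have hx1 : (exp (-1 : ℤ) : ℤᵐ⁰) < 1 := by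
        rw [← exp_zero, exp_lt_exp]
        norm_num
      obtain ⟨l, hl⟩ := t1form_exists_exponent v hs hx0 hx1 (t1form_exp_zpow v)
      obtain ⟨y, hy0, hy⟩ : ∃ y : K0, (y : K) ≠ 0 ∧ ∃ k : ℕ, 0 < k ∧
          v (y : K) = (exp (-1 : ℤ) : ℤᵐ⁰) ^ (k : ℤ) := by
        push Not at htriv
        obtain ⟨c, hc, hc0, hc1⟩ := htriv
        obtain ⟨k, hk⟩ := t1form_exp_zpow v c hc0
        have hk0 : k ≠ 0 := by
          rintro rfl
          exact hc1 (by rw [hk, zpow_zero])
        rcases lt_or_gt_of_ne hk0 with hlt | hgt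
        · refine ⟨⟨c⁻¹, inv_mem hc⟩, inv_ne_zero hc0, (-k).toNat, by omega, ?_⟩
          change v c⁻¹ = _
          rw [map_inv₀, hk, ← zpow_neg]
          congr 1
          omega
        · refine ⟨⟨c, hc⟩, hc0, k.toNat, by omega, ?_⟩
          change v c = _
          rw [hk]
          congr 1
          omega
      obtain ⟨k, hk0, hk⟩ := hy
      obtain ⟨r, hr⟩ := hD y
      have hr' : t1form_dlog (y : K) = ((y : K)⁻¹ * r) • b (Fin.last n) := by
        rw [t1form_dlog, hr, hb2, smul_smul]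
      have hregj : ∀ j : Fin n, ((k : ℕ) : K) • b j.castSucc +
          (-((l (Pi.single j 1) : ℤ) : K) * ((y : K)⁻¹ * r)) • b (Fin.last n) ∈ regDiff v := by
        intro j
        have hχ : χ (Pi.single j 1) ≠ 0 := hs.ne_zero _
        have e1 : ((k : ℕ) : K) • b j.castSucc +
            (-((l (Pi.single j 1) : ℤ) : K) * ((y : K)⁻¹ * r)) • b (Fin.last n) =
            t1form_dlog (χ (Pi.single j 1) ^ (k : ℤ) * (y : K) ^ (-l (Pi.single j 1))) := by
          rw [t1form_dlog_mul (zpow_ne_zero _ hχ) (zpow_ne_zero _ hy0), t1form_dlog_zpow hχ,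
            t1form_dlog_zpow hy0, hb1, hr', smul_smul]
          congr 2
          · simp
          · simp
        rw [e1]
        refine t1form_dlog_mem_reg v ?_
        rw [map_mul, map_zpow₀, map_zpow₀, hl, hk, ← zpow_mul, ← zpow_mul, ← zpow_add₀ hx0]
        have : l (Pi.single j 1) * (k : ℤ) + (k : ℤ) * -l (Pi.single j 1) = 0 := by ring
        rw [this, zpow_zero]
      exact t1form_adm U b m ((f : K) ^ m) v hv k hk0 _ (f : K) hf0
        (fun j => t1form_reg_le v (hregj j)) (t1form_reg_le v hωv) (fun _ => ⟨hregj, hωv⟩)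
        (by rw [map_pow])
    · exact t1form_adm U b m ((f : K) ^ m) v hv 1 one_pos (fun _ => 0) (f : K) hf0 hlog
        (t1form_reg_le v hωv) (fun h2 => absurd h2 hcen) (by rw [map_pow])

end Pool.Agent.Lib.MP_410da7_ag
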