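import Pool.Agent.Lib.MP_410da7_ag.T1Split
import Pool.Agent.Lib.MP_410da7_ag.T1Half
import Pool.Agent.Lib.MP_410da7_ag.T1Form
import Pool.Agent.Lib.MP_410da7_ag.T1Comb
import Pool.Agent.Lib.MP_410da7_ag.T1Fin
import Pool.Agent.Lib.MP_410da7_ag.T1Curve
import Pool.Agent.Lib.MP_410da7_ag.T1Neg
import Pool.Agent.Lib.MP_410da7_ag.T1Genus
import Pool.Agent.Lib.MP_410da7_ag.T1Irr

/-!
# Torus actions of complexity one: assembly
-/

set_option autoImplicit false

namespace Pool.Agent.Lib.MP_410da7_ag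

open KaehlerDifferential WithZero Polynomial

theorem exists_ratFunc_hom {K : Type} [Field K] [Algebra ℂ K] (K0 : IntermediateField ℂ K)
    (h1 : Algebra.trdeg ℂ K0 = 1) (z : K0) (hz : IntermediateField.adjoin ℂ {z} = ⊤) :
    ∃ κ : RatFunc ℂ →ₐ[ℂ] K, κ.fieldRange = K0 := by
  have hzt : Transcendental ℂ z := by
    intro halg
    have h2 : Algebra.IsAlgebraic ℂ (IntermediateField.adjoin ℂ {z}) :=
      IntermediateField.isAlgebraic_adjoin_simple halg.isIntegral
    rw [hz] at h2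
    haveI : Algebra.IsAlgebraic ℂ K0 :=
      (IntermediateField.topEquiv (F := ℂ) (E := K0)).isAlgebraic_iff.1 h2
    rw [trdeg_eq_zero] at h1
    exact zero_ne_one h1
  have hinj : Function.Injective (aeval z : ℂ[X] →ₐ[ℂ] K0) := transcendental_iff_injective.1 hzt
  let κ0 : RatFunc ℂ →ₐ[ℂ] K0 := IsFractionRing.liftAlgHom hinj
  have h0 : ∀ q : ℂ[X], κ0 (algebraMap ℂ[X] (RatFunc ℂ) q) = (aeval z : ℂ[X] →ₐ[ℂ] K0) q := by
    intro q
    simp [κ0]
  have hsurj : κ0.fieldRange = ⊤ := by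
    rw [eq_top_iff, ← hz, IntermediateField.adjoin_le_iff, Set.singleton_subset_iff]
    refine ⟨algebraMap ℂ[X] (RatFunc ℂ) X, ?_⟩
    exact (h0 X).trans (aeval_X z)
  refine ⟨K0.val.comp κ0, ?_⟩
  ext y
  constructor
  · rintro ⟨r, rfl⟩
    exact (κ0 r).2
  · intro hy
    have h3 : (⟨y, hy⟩ : K0) ∈ κ0.fieldRange := by rw [hsurj]; trivial
    obtain ⟨r, hr⟩ := h3
    exact ⟨r, congrArg Subtype.val hr⟩

theorem t1_main {K : Type} [Field K] [Algebra ℂ K] {n : ℕ}
    (hd : Algebra.trdeg ℂ K = ((n + 1 : ℕ) : Cardinal))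
    (ρ : (Fin n → ℂˣ) →* (K ≃ₐ[ℂ] K)) (hρ : Function.Injective ρ)
    {ι : Type} [Nonempty ι] (U : ι → Subalgebra ℂ K) (hfg : ∀ i, (U i).FG)
    (hfrac : ∀ i, IsFractionRing (U i) K) (hinv : ∀ i, IsTorusInvariant ρ (U i))
    (hneg : LogPlurigenusZeroOn U (n + 1) 12) : A1UniruledOn U := by
  obtain ⟨K0, χ, hs, h1, ⟨S, hS⟩, hh⟩ := exists_torusSplit hd ρ hρ U hfg hfrac hinv
  by_cases hhalf : ∃ i, HalfSpace K0 χ (U i)
  · obtain ⟨i, hi⟩ := hhalf
    exact (a1UniruledOn_iff U).2 (a1UniruledOn_of_halfSpace hs U i (hfg i) (hfrac i) (hh i) hi)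
  have hno : ∀ i, ¬ HalfSpace K0 χ (U i) := not_exists.mp hhalf
  have hfgK0 : ∃ S : Finset K0, IntermediateField.adjoin ℂ (S : Set K0) = ⊤ := by
    classical
    have hSK : ∀ s ∈ S, s ∈ K0 := fun s hs => by
      rw [← hS]; exact IntermediateField.subset_adjoin _ _ hs
    refine ⟨S.attach.image (fun s => (⟨s.1, hSK s.1 s.2⟩ : K0)), ?_⟩
    apply IntermediateField.map_injective K0.val
    rw [IntermediateField.adjoin_map]
    have h2 : (K0.val : K0 → K) '' (↑(S.attach.image (fun s => (⟨s.1, hSK s.1 s.2⟩ : K0))) : Set K0) =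
        (S : Set K) := by
      ext y
      simp only [Set.mem_image, Finset.coe_image, Finset.mem_coe, Finset.mem_attach, true_and,
        Subtype.exists]
      constructor
      · rintro ⟨a, ha, ⟨b, hb, hab⟩, rfl⟩
        have := congrArg Subtype.val hab
        change b = a at this
        change a ∈ S
        rw [← this]; exact hb
      · intro hy
        exact ⟨y, hSK y hy, ⟨y, hy, rfl⟩, rfl⟩
    rw [h2, hS]
    ext y
    simp
  rcases rational_or_regular h1 hfgK0 with ⟨z, hz⟩ | ⟨ω, hω, hreg⟩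
  · obtain ⟨κ, rfl⟩ := exists_ratFunc_hom K0 h1 z hz
    have hi0 : Nonempty ι := inferInstance
    obtain ⟨i0⟩ := hi0
    obtain ⟨E, hE⟩ := exists_good_chart κ hs (U i0) (hfg i0) (hh i0)
    have hfin : {c | 1 ∉ Mult κ χ U c}.Finite := by
      refine E.finite_toSet.subset fun c hc => ?_
      by_contra hcE
      refine hc ⟨one_pos, 0, i0, fun r u hr hmem => ?_⟩
      have := hE c hcE r u hr hmem
      simpa using this
    rcases orbi_dichotomy (Mult κ χ U) (fun c μ hμ => hμ.1) hfin with ⟨h, h0, hH⟩ | ⟨p, q, hpq⟩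
    · exact absurd hneg (not_negInf_of_orbiForm hd κ hs U hno 12 h h0 hH)
    · exact (a1UniruledOn_iff U).2 (a1UniruledOn_of_orbiLine hd κ hs U hfrac hh i0 E hE p q hpq)
  · exact absurd hneg (not_negInf_of_regular hd hs h1 U hno ω hω hreg 12)

end Pool.Agent.Lib.MP_410da7_ag
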