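import Pool.Agent.Lib.MP_410da7_ag.T1Base

/-!
# Splitting of a torus action
-/

set_option autoImplicit false

namespace Pool.Agent.Lib.MP_410da7_ag

open KaehlerDifferential WithZero Polynomial

section t1split

variable {K : Type} [Field K] [Algebra ℂ K] {n : ℕ}

theorem t1split_char_zero (t : Fin n → ℂˣ) : torusChar 0 t = 1 := by
  simp [torusChar]

theorem t1split_char_add (u u' : Fin n → ℤ) (t : Fin n → ℂˣ) :
    torusChar (u + u') t = torusChar u t * torusChar u' t := by
  unfold torusChar
  rw [← Units.val_mul, ← Finset.prod_mul_distrib]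
  congr 2
  funext i
  rw [Pi.add_apply, zpow_add]

theorem t1split_char_one (u : Fin n → ℤ) : torusChar u (1 : Fin n → ℂˣ) = 1 := by
  simp [torusChar]

theorem t1split_char_mul (u : Fin n → ℤ) (t t' : Fin n → ℂˣ) :
    torusChar u (t * t') = torusChar u t * torusChar u t' := by
  unfold torusChar
  rw [← Units.val_mul, ← Finset.prod_mul_distrib]
  congr 2
  funext i
  rw [Pi.mul_apply, mul_zpow]

theorem t1split_char_ne (u : Fin n → ℤ) (t : Fin n → ℂˣ) : torusChar u t ≠ 0 := by
  unfold torusChar
  exact Units.ne_zero _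

theorem t1split_char_neg (u : Fin n → ℤ) (t : Fin n → ℂˣ) :
    torusChar (-u) t = (torusChar u t)⁻¹ := by
  have h := t1split_char_add u (-u) t
  rw [add_neg_cancel, t1split_char_zero] at h
  exact eq_inv_of_mul_eq_one_right h.symm

theorem t1split_char_single (i : Fin n) (t : Fin n → ℂˣ) :
    torusChar (Pi.single i 1) t = t i := by
  unfold torusChar
  rw [Finset.prod_eq_single i]
  · simp
  · intro j _ hj
    rw [Pi.single_eq_of_ne hj, zpow_zero]
  · intro h
    exact absurd (Finset.mem_univ i) h

variable {ρ : (Fin n → ℂˣ) →* (K ≃ₐ[ℂ] K)}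

theorem t1split_wt_mul {u u' : Fin n → ℤ} {a b : K} (ha : IsWeightVector ρ u a)
    (hb : IsWeightVector ρ u' b) : IsWeightVector ρ (u + u') (a * b) := by
  intro t
  rw [map_mul, ha t, hb t, t1split_char_add, smul_mul_smul_comm]

theorem t1split_wt_inv {u : Fin n → ℤ} {a : K} (ha : IsWeightVector ρ u a) :
    IsWeightVector ρ (-u) a⁻¹ := by
  intro t
  rw [map_inv₀, ha t, t1split_char_neg, Algebra.smul_def, Algebra.smul_def, mul_inv, map_inv₀]

theorem t1split_wt_one : IsWeightVector ρ 0 (1 : K) := by
  intro t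
  rw [map_one, t1split_char_zero, one_smul]

/-- The weights form a subgroup. -/
def t1splitGroup (ρ : (Fin n → ℂˣ) →* (K ≃ₐ[ℂ] K)) : AddSubgroup (Fin n → ℤ) where
  carrier := {u | ∃ a : K, a ≠ 0 ∧ IsWeightVector ρ u a}
  zero_mem' := ⟨1, one_ne_zero, t1split_wt_one⟩
  add_mem' := by
    rintro u u' ⟨a, ha, hwa⟩ ⟨b, hb, hwb⟩
    exact ⟨a * b, mul_ne_zero ha hb, t1split_wt_mul hwa hwb⟩
  neg_mem' := by
    rintro u ⟨a, ha, hwa⟩
    exact ⟨a⁻¹, inv_ne_zero ha, t1split_wt_inv hwa⟩

/-- The embedding `ℚ/ℤ → ℂˣ`. -/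
noncomputable def t1splitExp : AddCircle (1 : ℚ) →+ Additive ℂˣ :=
  QuotientAddGroup.lift (AddSubgroup.zmultiples (1 : ℚ))
    { toFun := fun q => Additive.ofMul (Units.mk0 (Complex.exp ((q : ℂ) * (2 * Real.pi * Complex.I)))
        (Complex.exp_ne_zero _))
      map_zero' := by
        apply Additive.toMul.injective
        apply Units.ext
        simp
      map_add' := by
        intro a b
        apply Additive.toMul.injective
        apply Units.ext
        simp only [toMul_ofMul, Units.val_mk0, toMul_add, Units.val_mul]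
        rw [← Complex.exp_add]
        push_cast
        ring_nf }
    (by
      intro x hx
      rw [AddSubgroup.mem_zmultiples_iff] at hx
      obtain ⟨k, rfl⟩ := hx
      apply Additive.toMul.injective
      apply Units.ext
      simp only [AddMonoidHom.coe_mk, ZeroHom.coe_mk, toMul_ofMul, Units.val_mk0, toMul_zero,
        Units.val_one]
      rw [Complex.exp_eq_one_iff]
      exact ⟨k, by simp⟩)

theorem t1splitExp_ne {x : AddCircle (1 : ℚ)} (hx : x ≠ 0) : t1splitExp x ≠ 0 := by
  intro h
  apply hx
  induction x using QuotientAddGroup.induction_on with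
  | H q =>
    have h1 : Complex.exp ((q : ℂ) * (2 * Real.pi * Complex.I)) = 1 := by
      have h2 : Additive.toMul (t1splitExp (q : AddCircle (1 : ℚ))) = 1 := by
        rw [h]; rfl
      have h3 := congrArg Units.val h2
      exact h3
    rw [Complex.exp_eq_one_iff] at h1
    obtain ⟨k, hk⟩ := h1
    have h4 : (q : ℂ) = k := by
      have h5 : (2 * Real.pi * Complex.I : ℂ) ≠ 0 := by
        simp [Real.pi_ne_zero]
      exact mul_right_cancel₀ h5 hk
    have h6 : q = (k : ℚ) := by exact_mod_cast h4
    rw [h6]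
    rw [QuotientAddGroup.eq_zero_iff, AddSubgroup.mem_zmultiples_iff]
    exact ⟨k, by simp⟩

/-- Characters separate the points of `ℤⁿ / Γ`. -/
theorem t1split_separate (Γ : AddSubgroup (Fin n → ℤ)) {u : Fin n → ℤ} (hu : u ∉ Γ) :
    ∃ t : Fin n → ℂˣ, (∀ g ∈ Γ, torusChar g t = 1) ∧ torusChar u t ≠ 1 := by
  have h0 : (QuotientAddGroup.mk u : (Fin n → ℤ) ⧸ Γ) ≠ 0 := by
    rw [Ne, QuotientAddGroup.eq_zero_iff]
    exact hu
  obtain ⟨c, hc⟩ := CharacterModule.exists_character_apply_ne_zero_of_ne_zero h0
  let f : (Fin n → ℤ) →+ Additive ℂˣ :=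
    (t1splitExp.comp c).comp (QuotientAddGroup.mk' Γ)
  let t : Fin n → ℂˣ := fun i => Additive.toMul (f (Pi.single i 1))
  have key : ∀ g : Fin n → ℤ, torusChar g t = (Additive.toMul (f g) : ℂˣ) := by
    intro g
    have h1 : g = ∑ i, g i • (Pi.single i 1 : Fin n → ℤ) := by
      funext j
      rw [Finset.sum_apply, Finset.sum_eq_single j]
      · simp
      · intro i _ hi
        simp [Pi.single_eq_of_ne (Ne.symm hi)]
      · intro h; exact absurd (Finset.mem_univ j) h
    have h2 : f g = ∑ i, g i • f (Pi.single i 1) := by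
      conv_lhs => rw [h1]
      rw [map_sum]
      refine Finset.sum_congr rfl fun i _ => ?_
      rw [map_zsmul]
    rw [h2, toMul_sum]
    unfold torusChar
    congr 1
  refine ⟨t, ?_, ?_⟩
  · intro g hg
    rw [key g]
    have : f g = 0 := by
      change t1splitExp (c (QuotientAddGroup.mk g)) = 0
      rw [(QuotientAddGroup.eq_zero_iff g).2 hg, map_zero, map_zero]
    rw [this]; rfl
  · rw [key u]
    intro h
    have h1 : Additive.toMul (f u) = 1 := Units.ext h
    exact t1splitExp_ne hc h1

/-- All characters are weights. -/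
theorem t1split_top (hρ : Function.Injective ρ) (U : Subalgebra ℂ K)
    (hfrac : IsFractionRing U K) (hinv : IsTorusInvariant ρ U) (u : Fin n → ℤ) :
    ∃ a : K, a ≠ 0 ∧ IsWeightVector ρ u a := by
  by_contra hu
  have hu' : u ∉ t1splitGroup ρ := hu
  obtain ⟨t, ht, htu⟩ := t1split_separate (t1splitGroup ρ) hu'
  have h1 : ∀ a ∈ U, ρ t a = a := by
    intro a ha
    refine Submodule.span_induction (p := fun x _ => ρ t x = x) ?_ ?_ ?_ ?_ (hinv a ha)
    · rintro b ⟨_, g, hg⟩
      by_cases hb : b = 0
      · rw [hb, map_zero]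
      · rw [hg t, ht g ⟨b, hb, hg⟩, one_smul]
    · exact map_zero _
    · intro x y _ _ hx hy
      rw [map_add, hx, hy]
    · intro c x _ hx
      rw [map_smul, hx]
  have h2 : ρ t = 1 := by
    apply AlgEquiv.ext
    intro z
    obtain ⟨⟨a, b⟩, hab⟩ := IsLocalization.surj (nonZeroDivisors U) z
    have hb : (b : K) ≠ 0 := by
      have := nonZeroDivisors.ne_zero b.2
      intro h
      exact this (Subtype.ext h)
    have e1 : z * (b : K) = (a : K) := hab
    have e2 : ρ t z * (b : K) = (a : K) := by
      have := congrArg (ρ t) e1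
      rw [map_mul, h1 _ b.1.2, h1 _ a.2] at this
      exact this
    rw [AlgEquiv.one_apply]
    exact mul_right_cancel₀ hb (e2.trans e1.symm)
  have h3 : t = 1 := hρ (h2.trans (map_one ρ).symm)
  rw [h3, t1split_char_one] at htu
  exact htu rfl

/-- The product of powers. -/
noncomputable def t1splitChi (a : Fin n → K) (u : Fin n → ℤ) : K := ∏ i, a i ^ u i

omit [Algebra ℂ K] in
theorem t1splitChi_zero (a : Fin n → K) : t1splitChi a 0 = 1 := by
  simp [t1splitChi]

omit [Algebra ℂ K] in
theorem t1splitChi_add {a : Fin n → K} (ha : ∀ i, a i ≠ 0) (u u' : Fin n → ℤ) :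
    t1splitChi a (u + u') = t1splitChi a u * t1splitChi a u' := by
  unfold t1splitChi
  rw [← Finset.prod_mul_distrib]
  refine Finset.prod_congr rfl fun i _ => ?_
  rw [Pi.add_apply, zpow_add₀ (ha i)]

omit [Algebra ℂ K] in
theorem t1splitChi_ne {a : Fin n → K} (ha : ∀ i, a i ≠ 0) (u : Fin n → ℤ) :
    t1splitChi a u ≠ 0 :=
  Finset.prod_ne_zero_iff.2 fun i _ => zpow_ne_zero _ (ha i)

theorem t1splitChi_wt {a : Fin n → K} (hw : ∀ i, IsWeightVector ρ (Pi.single i 1) (a i))
    (u : Fin n → ℤ) : IsWeightVector ρ u (t1splitChi a u) := by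
  intro t
  unfold t1splitChi torusChar
  rw [map_prod, Algebra.smul_def, Units.coe_prod, map_prod, ← Finset.prod_mul_distrib]
  refine Finset.prod_congr rfl fun i _ => ?_
  rw [map_zpow₀, hw i t, t1split_char_single, Algebra.smul_def, mul_zpow]
  congr 1
  rw [Units.val_zpow_eq_zpow_val, map_zpow₀]

/-- The characters as homomorphisms to `K`. -/
noncomputable def t1splitHom (K : Type) [Field K] [Algebra ℂ K] (u : Fin n → ℤ) :
    (Fin n → ℂˣ) →* K where
  toFun t := algebraMap ℂ K (torusChar u t)
  map_one' := by rw [t1split_char_one, map_one]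
  map_mul' t t' := by rw [t1split_char_mul, map_mul]

theorem t1splitHom_injective : Function.Injective (t1splitHom K : (Fin n → ℤ) → _) := by
  intro u u' h
  funext i
  have h1 := DFunLike.congr_fun h (Pi.mulSingle i (Units.mk0 2 two_ne_zero))
  have h2 : torusChar u (Pi.mulSingle i (Units.mk0 2 two_ne_zero)) =
      torusChar u' (Pi.mulSingle i (Units.mk0 2 two_ne_zero)) :=
    (algebraMap ℂ K).injective h1
  have h3 : ∀ w : Fin n → ℤ, torusChar w (Pi.mulSingle i (Units.mk0 2 two_ne_zero)) =
      ((2 : ℝ) ^ w i : ℝ) := by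
    intro w
    unfold torusChar
    rw [Finset.prod_eq_single i]
    · rw [Pi.mulSingle_eq_same, Units.val_zpow_eq_zpow_val, Units.val_mk0]
      push_cast
      rfl
    · intro j _ hj
      rw [Pi.mulSingle_eq_of_ne hj, one_zpow]
    · intro h; exact absurd (Finset.mem_univ i) h
  rw [h3, h3, Complex.ofReal_inj] at h2
  exact zpow_right_injective₀ (by norm_num) (by norm_num) h2

/-- Weight vectors of different weights are independent over the fixed field. -/
theorem t1split_elem {χ : (Fin n → ℤ) → K} (hχ : ∀ u, χ u ≠ 0)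
    (hw : ∀ u, IsWeightVector ρ u (χ u)) (s : Finset (Fin n → ℤ)) (g : (Fin n → ℤ) → K)
    (hg : ∀ u, ∀ t, ρ t (g u) = g u) (h0 : ∑ u ∈ s, g u * χ u = 0) : ∀ u ∈ s, g u = 0 := by
  have hli : LinearIndependent K (fun u : Fin n → ℤ => (t1splitHom K u : (Fin n → ℂˣ) → K)) :=
    (linearIndependent_monoidHom (Fin n → ℂˣ) K).comp _ t1splitHom_injective
  rw [linearIndependent_iff'] at hli
  have h1 : ∑ u ∈ s, (g u * χ u) • (t1splitHom K u : (Fin n → ℂˣ) → K) = 0 := by
    funext t
    rw [Finset.sum_apply]
    have h2 := congrArg (ρ t) h0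
    rw [map_sum, map_zero] at h2
    rw [Pi.zero_apply, ← h2]
    refine Finset.sum_congr rfl fun u _ => ?_
    rw [map_mul, hg, hw u t]
    change g u * χ u * algebraMap ℂ K (torusChar u t) = _
    rw [Algebra.smul_def]
    ring
  intro u hu
  exact (mul_eq_zero.1 (hli s _ h1 u hu)).resolve_right (hχ u)

end t1split

theorem exists_torusSplit {K : Type} [Field K] [Algebra ℂ K] {n : ℕ}
    (hd : Algebra.trdeg ℂ K = ((n + 1 : ℕ) : Cardinal))
    (ρ : (Fin n → ℂˣ) →* (K ≃ₐ[ℂ] K)) (hρ : Function.Injective ρ)
    {ι : Type} [Nonempty ι] (U : ι → Subalgebra ℂ K) (hfg : ∀ i, (U i).FG)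
    (hfrac : ∀ i, IsFractionRing (U i) K) (hinv : ∀ i, IsTorusInvariant ρ (U i)) :
    ∃ (K0 : IntermediateField ℂ K) (χ : (Fin n → ℤ) → K), TorusSplit K0 χ ∧
      Algebra.trdeg ℂ K0 = 1 ∧ (∃ S : Finset K, IntermediateField.adjoin ℂ (S : Set K) = K0) ∧
      ∀ i, HomogSpan K0 χ (U i) := by
  classical
  obtain ⟨i0⟩ := ‹Nonempty ι›
  choose a ha hwa using fun i : Fin n => t1split_top hρ (U i0) (hfrac i0) (hinv i0) (Pi.single i 1)
  set χ : (Fin n → ℤ) → K := t1splitChi a with hχdef
  have hχ : ∀ u, χ u ≠ 0 := t1splitChi_ne ha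
  have hw : ∀ u, IsWeightVector ρ u (χ u) := t1splitChi_wt hwa
  set K0 : IntermediateField ℂ K := IntermediateField.fixedField ρ.range with hK0
  have hmem : ∀ x : K, x ∈ K0 ↔ ∀ t, ρ t x = x := by
    intro x
    rw [hK0, IntermediateField.mem_fixedField_iff]
    constructor
    · intro h t
      exact h _ ⟨t, rfl⟩
    · rintro h _ ⟨t, rfl⟩
      exact h t
  -- elementwise linear independence
  have helem : ∀ (s : Finset (Fin n → ℤ)) (g : (Fin n → ℤ) → K), (∀ u, g u ∈ K0) →
      ∑ u ∈ s, g u * χ u = 0 → ∀ u ∈ s, g u = 0 := fun s g hg h0 =>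
    t1split_elem hχ hw s g (fun u => (hmem _).1 (hg u)) h0
  have hli : LinearIndependent K0 χ := by
    rw [linearIndependent_iff']
    intro s g h0 u hu
    have h1 : ∑ u ∈ s, (g u : K) * χ u = 0 := by
      rw [← h0]
      refine Finset.sum_congr rfl fun u _ => ?_
      rw [Algebra.smul_def]
      rfl
    exact Subtype.ext (helem s (fun u => (g u : K)) (fun u => (g u).2) h1 u hu)
  have hsplit : TorusSplit K0 χ :=
    ⟨t1splitChi_zero a, t1splitChi_add ha, hli⟩
  -- homogeneous elements
  have hhom : ∀ (u : Fin n → ℤ) (b : K), IsWeightVector ρ u b → b * (χ u)⁻¹ ∈ K0 := by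
    intro u b hb
    rw [hmem]
    intro t
    have h1 := t1split_wt_mul hb (t1split_wt_inv (hw u)) t
    rw [add_neg_cancel, t1split_char_zero, one_smul] at h1
    exact h1
  have hspan : ∀ i, HomogSpan K0 χ (U i) := by
    intro i b hb
    refine Submodule.span_mono ?_ (hinv i b hb)
    rintro c ⟨hc, u, hu⟩
    exact ⟨hc, u, c * (χ u)⁻¹, hhom u c hu, by rw [mul_assoc, inv_mul_cancel₀ (hχ u), mul_one]⟩
  refine ⟨K0, χ, hsplit, ?_, ?_, hspan⟩
  · -- transcendence degree
    set x : Fin n → K := a with hx
    have hind : AlgebraicIndependent K0 x := by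
      rw [algebraicIndependent_iff]
      intro p hp
      rw [MvPolynomial.aeval_def, MvPolynomial.eval₂_eq'] at hp
      refine MvPolynomial.ext _ _ fun m => ?_
      rw [MvPolynomial.coeff_zero]
      by_cases hm : m ∈ p.support
      · have hinj : Function.Injective (fun m : Fin n →₀ ℕ => (fun i => (m i : ℤ))) := by
          intro m m' h
          ext i
          have h1 : ((m i : ℕ) : ℤ) = ((m' i : ℕ) : ℤ) := congrFun h i
          exact_mod_cast h1
        have hli' := hli.comp _ hinj
        rw [linearIndependent_iff'] at hli'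
        refine hli' p.support (fun m => p.coeff m) ?_ m hm
        rw [← hp]
        refine Finset.sum_congr rfl fun m _ => ?_
        rw [Algebra.smul_def]
        congr 1
        change ∏ i, a i ^ ((m i : ℕ) : ℤ) = ∏ i, x i ^ m i
        refine Finset.prod_congr rfl fun i _ => ?_
        rw [zpow_natCast]
      · rwa [MvPolynomial.notMem_support_iff] at hm
    have halg : Algebra.IsAlgebraic (Algebra.adjoin K0 (Set.range x)) K := by
      constructor
      have hK0alg : ∀ c ∈ K0, IsAlgebraic (Algebra.adjoin K0 (Set.range x)) c := by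
        intro c hc
        have h1 : c = algebraMap (Algebra.adjoin K0 (Set.range x)) K
            (algebraMap K0 (Algebra.adjoin K0 (Set.range x)) ⟨c, hc⟩) := rfl
        rw [h1]
        exact isAlgebraic_algebraMap _
      have hxalg : ∀ i, IsAlgebraic (Algebra.adjoin K0 (Set.range x)) (a i) := by
        intro i
        have h1 : a i = algebraMap (Algebra.adjoin K0 (Set.range x)) K
            ⟨x i, Algebra.subset_adjoin ⟨i, rfl⟩⟩ := rfl
        rw [h1]
        exact isAlgebraic_algebraMap _
      have hχalg : ∀ u, IsAlgebraic (Algebra.adjoin K0 (Set.range x)) (χ u) := by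
        intro u
        have h1 : ∀ i ∈ (Finset.univ : Finset (Fin n)), a i ^ u i ∈
            Subalgebra.algebraicClosure (Algebra.adjoin K0 (Set.range x)) K := by
          intro i _
          rw [Subalgebra.mem_algebraicClosure]
          rcases Int.eq_nat_or_neg (u i) with ⟨k, hk | hk⟩
          · rw [hk, zpow_natCast]
            exact (hxalg i).pow k
          · rw [hk, zpow_neg, zpow_natCast]
            exact ((hxalg i).pow k).inv
        have h2 := Subalgebra.prod_mem _ h1
        rw [Subalgebra.mem_algebraicClosure] at h2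
        exact h2
      have hUalg : ∀ b ∈ U i0, IsAlgebraic (Algebra.adjoin K0 (Set.range x)) b := by
        intro b hb
        refine Submodule.span_induction
          (p := fun y _ => IsAlgebraic (Algebra.adjoin K0 (Set.range x)) y) ?_ ?_ ?_ ?_
          (hspan i0 b hb)
        · rintro y ⟨_, u, c, hc, rfl⟩
          exact (hK0alg c hc).mul (hχalg u)
        · exact isAlgebraic_zero
        · intro y z _ _ hy hz
          exact hy.add hz
        · intro c y _ hy
          rw [Algebra.smul_def]
          exact (hK0alg _ (K0.algebraMap_mem c)).mul hy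
      intro z
      obtain ⟨⟨b, c⟩, hbc⟩ := @IsLocalization.surj _ _ (nonZeroDivisors (U i0)) K _ _ (hfrac i0) z
      have hc : (c : K) ≠ 0 := by
        have := nonZeroDivisors.ne_zero c.2
        intro h
        exact this (Subtype.ext h)
      have e1 : z * (c : K) = (b : K) := hbc
      have e2 : z = (b : K) * (c : K)⁻¹ := by
        rw [← e1, mul_assoc, mul_inv_cancel₀ hc, mul_one]
      rw [e2]
      exact (hUalg _ b.2).mul (hUalg _ c.1.2).inv
    have hbasis : IsTranscendenceBasis K0 x :=
      isTranscendenceBasis_iff_algebraicIndependent_isAlgebraic.2 ⟨hind, halg⟩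
    have htr : Algebra.trdeg K0 K = (n : Cardinal) := by
      rw [← hbasis.cardinalMk_eq_trdeg, Cardinal.mk_fin]
    have hadd := _root_.trdeg_add_eq ℂ K0 (A := K)
    rw [htr, hd] at hadd
    have h1 : Algebra.trdeg ℂ K0 + (n : Cardinal) = 1 + (n : Cardinal) := by
      rw [hadd]
      push_cast
      rw [add_comm]
    exact Cardinal.eq_of_add_eq_add_right h1 (Cardinal.natCast_lt_aleph0)
  · -- finite generation
    obtain ⟨S, hS⟩ := hfg i0
    have hT : ∀ s ∈ S, ∃ T : Finset K, (T : Set K) ⊆ {b : K | b ∈ U i0 ∧ ∃ u, IsWeightVector ρ u b} ∧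
        s ∈ Submodule.span ℂ (T : Set K) := by
      intro s hs
      have h1 : s ∈ U i0 := by
        rw [← hS]
        exact Algebra.subset_adjoin hs
      exact Submodule.mem_span_finite_of_mem_span (hinv i0 s h1)
    choose T hTsub hTspan using hT
    set T' : Finset K := S.attach.biUnion (fun s => T s.1 s.2) with hT'
    have hT'sub : ∀ b ∈ T', ∃ u, IsWeightVector ρ u b := by
      intro b hb
      rw [hT', Finset.mem_biUnion] at hb
      obtain ⟨s, _, hb⟩ := hb
      exact (hTsub s.1 s.2 hb).2
    have hUle : U i0 ≤ Algebra.adjoin ℂ (T' : Set K) := by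
      rw [← hS]
      apply Algebra.adjoin_le
      intro s hs
      have h1 := hTspan s hs
      have h2 : Submodule.span ℂ (T s hs : Set K) ≤
          Subalgebra.toSubmodule (Algebra.adjoin ℂ (T' : Set K)) := by
        rw [Submodule.span_le]
        intro b hb
        apply Algebra.subset_adjoin
        rw [hT', Finset.mem_coe, Finset.mem_biUnion]
        exact ⟨⟨s, hs⟩, Finset.mem_attach _ _, hb⟩
      exact h2 h1
    choose! w hwt using hT'sub
    set S0 : Finset K := T'.image (fun b => b * (χ (w b))⁻¹) with hS0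
    refine ⟨S0, ?_⟩
    set K1 : IntermediateField ℂ K := IntermediateField.adjoin ℂ (S0 : Set K) with hK1
    have hle : K1 ≤ K0 := by
      rw [hK1, IntermediateField.adjoin_le_iff]
      intro c hc
      rw [hS0, Finset.coe_image] at hc
      obtain ⟨b, hb, rfl⟩ := hc
      exact hhom _ _ (hwt b hb)
    apply le_antisymm hle
    intro c hc
    -- elements of `U i0` are combinations with coefficients in `K1`
    have hrep : ∀ b ∈ U i0, ∃ (s : Finset (Fin n → ℤ)) (g : (Fin n → ℤ) → K),
        (∀ u, g u ∈ K1) ∧ (∀ u, u ∉ s → g u = 0) ∧ b = ∑ u ∈ s, g u * χ u := by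
      intro b hb
      have hb' : b ∈ Submodule.span K1 (Set.range χ) := by
        refine Algebra.adjoin_induction
          (p := fun y _ => y ∈ Submodule.span K1 (Set.range χ)) ?_ ?_ ?_ ?_ (hUle hb)
        · intro y hy
          have h1 : y * (χ (w y))⁻¹ ∈ K1 := by
            rw [hK1]
            apply IntermediateField.subset_adjoin
            rw [hS0, Finset.coe_image]
            exact ⟨y, hy, rfl⟩
          have h2 : y = (⟨_, h1⟩ : K1) • χ (w y) := by
            rw [Algebra.smul_def]
            change y = y * (χ (w y))⁻¹ * χ (w y)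
            rw [mul_assoc, inv_mul_cancel₀ (hχ _), mul_one]
          rw [h2]
          exact Submodule.smul_mem _ _ (Submodule.subset_span ⟨_, rfl⟩)
        · intro r
          have h1 : algebraMap ℂ K r = (⟨algebraMap ℂ K r, K1.algebraMap_mem r⟩ : K1) • χ 0 := by
            rw [Algebra.smul_def, hsplit.zero, mul_one]
            rfl
          rw [h1]
          exact Submodule.smul_mem _ _ (Submodule.subset_span ⟨_, rfl⟩)
        · intro y z _ _ hy hz
          exact Submodule.add_mem _ hy hz
        · intro y z _ _ hy hz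
          refine Submodule.span_induction
            (p := fun y _ => y * z ∈ Submodule.span K1 (Set.range χ)) ?_ ?_ ?_ ?_ hy
          · rintro _ ⟨u, rfl⟩
            refine Submodule.span_induction
              (p := fun z _ => χ u * z ∈ Submodule.span K1 (Set.range χ)) ?_ ?_ ?_ ?_ hz
            · rintro _ ⟨u', rfl⟩
              rw [← hsplit.add]
              exact Submodule.subset_span ⟨_, rfl⟩
            · rw [mul_zero]; exact Submodule.zero_mem _
            · intro p q _ _ hp hq
              rw [mul_add]; exact Submodule.add_mem _ hp hq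
            · intro r p _ hp
              rw [mul_smul_comm]; exact Submodule.smul_mem _ _ hp
          · rw [zero_mul]; exact Submodule.zero_mem _
          · intro p q _ _ hp hq
            rw [add_mul]; exact Submodule.add_mem _ hp hq
          · intro r p _ hp
            rw [smul_mul_assoc]; exact Submodule.smul_mem _ _ hp
      rw [Finsupp.mem_span_range_iff_exists_finsupp] at hb'
      obtain ⟨g, hg⟩ := hb'
      refine ⟨g.support, fun u => (g u : K), fun u => (g u).2, ?_, ?_⟩
      · intro u hu
        rw [Finsupp.notMem_support_iff] at hu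
        change ((g u : K1) : K) = 0
        rw [hu]; rfl
      · rw [← hg]
        refine Finset.sum_congr rfl fun u _ => ?_
        change (g u : K1) • χ u = ((g u : K1) : K) * χ u
        rw [Algebra.smul_def]
        rfl
    obtain ⟨⟨p, q⟩, hpq⟩ := @IsLocalization.surj _ _ (nonZeroDivisors (U i0)) K _ _ (hfrac i0) c
    have hq0 : (q : K) ≠ 0 := by
      have := nonZeroDivisors.ne_zero q.2
      intro h
      exact this (Subtype.ext h)
    have e1 : c * (q : K) = (p : K) := hpq
    obtain ⟨s, g, hg, hgs, hpg⟩ := hrep _ p.2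
    obtain ⟨s', g', hg', hgs', hqg⟩ := hrep _ q.1.2
    have hzero : ∑ u ∈ s ∪ s', (g u - c * g' u) * χ u = 0 := by
      have h1 : (p : K) = ∑ u ∈ s ∪ s', g u * χ u := by
        rw [hpg]
        refine Finset.sum_subset Finset.subset_union_left ?_
        intro u _ hu
        rw [hgs u hu, zero_mul]
      have h2 : ((q : U i0) : K) = ∑ u ∈ s ∪ s', g' u * χ u := by
        rw [hqg]
        refine Finset.sum_subset Finset.subset_union_right ?_
        intro u _ hu
        rw [hgs' u hu, zero_mul]
      simp_rw [sub_mul, mul_assoc]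
      rw [Finset.sum_sub_distrib, ← Finset.mul_sum, ← h1, ← h2, e1, sub_self]
    have hcoef := helem (s ∪ s') (fun u => g u - c * g' u) (fun u =>
      K0.sub_mem (hle (hg u)) (K0.mul_mem hc (hle (hg' u)))) hzero
    have hex : ∃ u ∈ s', g' u ≠ 0 := by
      by_contra hn
      push Not at hn
      apply hq0
      rw [hqg]
      refine Finset.sum_eq_zero fun u hu => ?_
      rw [hn u hu, zero_mul]
    obtain ⟨u, hu, hgu⟩ := hex
    have h3 := hcoef u (Finset.mem_union_right _ hu)
    have h4 : c = g u * (g' u)⁻¹ := by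
      have h5 : g u = c * g' u := sub_eq_zero.1 h3
      rw [h5, mul_assoc, mul_inv_cancel₀ hgu, mul_one]
    rw [h4]
    exact K1.mul_mem (hg u) (K1.inv_mem (hg' u))

end Pool.Agent.Lib.MP_410da7_ag
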